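import Pool.Agent.MP_ed9623_an.S64.SpecB
import Pool.Agent.MP_ed9623_an.H77.Fin

/-! A connected boundary which is not a circle has a convex point with varying curvature. -/

open MeasureTheory Filter Topology Set
open scoped ContDiff

namespace Pool.Agent.MP_ed9623_an.S64

open H64
open H77 (P qc)

namespace BGeo

theorem cont {ρ : P → ℝ} (hρ : ContDiff ℝ ∞ ρ) {x : P} (h : fderiv ℝ ρ x ≠ 0) :
    ContinuousAt (curvature ρ) x := by
  have a : ∀ e, Continuous (pd e ρ) := fun e => (sm_pd hρ e).continuous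
  have b : ∀ e e', Continuous (pd e (pd e' ρ)) := fun e e' => (sm_pd (sm_pd hρ e') e).continuous
  unfold curvature
  refine ContinuousAt.div (Continuous.continuousAt (by fun_prop))
    (Continuous.continuousAt (by fun_prop)) (pow_pos (Real.sqrt_pos.2 (not_le.1 fun c => h ?_)) 3).ne'
  have p : pd (1, 0) ρ x = 0 := by nlinarith [sq_nonneg (pd (1, 0) ρ x), sq_nonneg (pd (0, 1) ρ x)]
  have q : pd (0, 1) ρ x = 0 := by nlinarith [sq_nonneg (pd (1, 0) ρ x), sq_nonneg (pd (0, 1) ρ x)]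
  refine ContinuousLinearMap.ext fun y => ?_
  have := pd_dir2 ρ x y
  rw [p, q] at this
  simpa [pd] using this

theorem two {c c' y : P} {R R' : ℝ} (hR : 0 < R) (hR' : 0 < R') (hy : qc c y = R ^ 2)
    (h : ∀ᶠ z in 𝓝 y, qc c z = R ^ 2 → qc c' z = R' ^ 2) : c = c' ∧ R = R' := by
  let z : ℝ → P := fun t => (c.1 + ((1 - t ^ 2) * (y.1 - c.1) - 2 * t * (y.2 - c.2)) / (1 + t ^ 2),
    c.2 + ((1 - t ^ 2) * (y.2 - c.2) + 2 * t * (y.1 - c.1)) / (1 + t ^ 2))
  have hz : Continuous z := by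
    refine Continuous.prodMk (continuous_const.add (Continuous.div (by fun_prop) (by fun_prop) ?_))
      (continuous_const.add (Continuous.div (by fun_prop) (by fun_prop) ?_)) <;>
    exact fun t => by positivity
  have z0 : z 0 = y := by simp [z]
  have zc : ∀ t, qc c (z t) = R ^ 2 := fun t => by
    rw [← hy]
    simp only [qc, z]
    field_simp
    ring
  have e1 : ∀ᶠ t in 𝓝 (0 : ℝ), qc c' (z t) = R' ^ 2 :=
    ((hz.tendsto' 0 y z0).eventually h).mono fun t a => a (zc t)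
  have e2 : ∀ᶠ t in 𝓝 (0 : ℝ), qc c' (z (-t)) = R' ^ 2 :=
    (continuous_neg.tendsto' (0 : ℝ) 0 neg_zero).eventually e1
  obtain ⟨t, ⟨a1, a2⟩, t0⟩ := (((e1.and e2).filter_mono nhdsWithin_le_nhds).and
    (self_mem_nhdsWithin (s := {(0 : ℝ)}ᶜ))).exists
  have t0' : t ≠ 0 := t0
  have a0 := h.self_of_nhds hy
  have b1 := zc t
  have b2 := zc (-t)
  have p : (0 : ℝ) < 1 + t ^ 2 := by positivity
  have k : ∀ s : ℝ, qc c' (z s) - qc c (z s) - (qc c' y - qc c y) =
      4 * (s * ((c.2 - c'.2) * (y.1 - c.1) - (c.1 - c'.1) * (y.2 - c.2)) -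
        s ^ 2 * ((c.1 - c'.1) * (y.1 - c.1) + (c.2 - c'.2) * (y.2 - c.2))) / (1 + s ^ 2) := fun s => by
    simp only [qc, z]
    field_simp
    ring
  have k1 := k t
  have k2 := k (-t)
  rw [a1, b1, a0, hy, sub_self, eq_comm, div_eq_zero_iff] at k1
  rw [a2, b2, a0, hy, sub_self, eq_comm, div_eq_zero_iff, neg_sq] at k2
  have k1 := k1.resolve_right p.ne'
  have k2 := k2.resolve_right p.ne'
  have m1 : (c.2 - c'.2) * (y.1 - c.1) - (c.1 - c'.1) * (y.2 - c.2) = 0 :=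
    mul_left_cancel₀ t0' (by linarith)
  have m2 : (c.1 - c'.1) * (y.1 - c.1) + (c.2 - c'.2) * (y.2 - c.2) = 0 :=
    mul_left_cancel₀ (pow_ne_zero 2 t0') (by linarith)
  have R2 : R ^ 2 ≠ 0 := by positivity
  have hc : c = c' := by
    unfold qc at hy
    refine Prod.ext (sub_eq_zero.1 (mul_left_cancel₀ R2 ?_)) (sub_eq_zero.1 (mul_left_cancel₀ R2 ?_))
    · rw [← hy]
      linear_combination (y.1 - c.1) * m2 - (y.2 - c.2) * m1
    · rw [← hy]
      linear_combination (y.2 - c.2) * m2 + (y.1 - c.1) * m1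
  subst hc
  exact ⟨rfl, (pow_left_inj₀ hR.le hR'.le two_ne_zero).1 (hy.symm.trans a0)⟩

theorem conn {T S U : Set P} (hT : IsPreconnected T) (hU : IsOpen U) (hS : closure S ⊆ U)
    (h : T ∩ U ⊆ S) (hn : (T ∩ U).Nonempty) : T ⊆ S := fun y hy => by
  by_contra a
  obtain ⟨z, b, c, d⟩ := hT U (closure S)ᶜ hU isClosed_closure.isOpen_compl
    (fun w _ => (em (w ∈ closure S)).imp (fun e => hS e) id) hn ⟨y, hy, fun e => a (h ⟨hy, hS e⟩)⟩
  exact d (subset_closure (h ⟨b, c⟩))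

end BGeo

open BGeo in
theorem rowGeo : OfGeo := by
  intro hN hO ρ hρ hreg hb hn hc hC
  by_contra n
  have n' : ∀ x, ρ x = 0 → 0 < curvature ρ x → dcurvature ρ x = 0 := fun x a b => by
    by_contra c
    exact n ⟨x, a, b, c⟩
  have osc : ∀ x, ρ x = 0 → 0 < curvature ρ x → ∃ (c : P) (R : ℝ), 0 < R ∧ ∀ᶠ y in 𝓝 x,
      (ρ y = 0 ↔ qc c y = R ^ 2) ∧ (ρ y = 0 → curvature ρ y = R⁻¹) := fun x a b =>
    hO ρ x hρ a b ((continuousAt_const.eventually_lt (cont hρ (hreg x a)) b).mono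
      fun y d e => n' y e d)
  obtain ⟨x, h0, hk⟩ := H77.exists_convex hρ hreg hb hn
  obtain ⟨c, R, hR, hx⟩ := osc x h0 hk
  let U : Set P := {x | ∀ᶠ y in 𝓝 x, (ρ y = 0 ↔ qc c y = R ^ 2) ∧ (ρ y = 0 → curvature ρ y = R⁻¹)}
  have oU : IsOpen U := isOpen_setOfPred_eventually_nhds
  have cl : closure ({x | ρ x = 0} ∩ U) ⊆ U := by
    intro y hy
    have y0 : ρ y = 0 :=
      closure_minimal inter_subset_left (isClosed_eq hρ.continuous continuous_const) hy
    have fr := mem_closure_iff_frequently.1 hy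
    have yk : curvature ρ y = R⁻¹ := by
      by_contra a
      obtain ⟨z, b, d⟩ := (fr.and_eventually ((cont hρ (hreg y y0)).eventually_ne a)).exists
      exact d (b.2.self_of_nhds.2 b.1)
    obtain ⟨c', R', hR', hy'⟩ := osc y y0 (yk ▸ inv_pos.2 hR)
    obtain ⟨z, b, d⟩ := (fr.and_eventually hy'.eventually_nhds).exists
    obtain ⟨rfl, rfl⟩ := two hR hR' (b.2.self_of_nhds.1.1 b.1)
      ((Eventually.and b.2 d).mono fun w e f => e.2.1.1 (e.1.1.2 f))
    exact hy'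
  have s1 := conn hc oU cl Subset.rfl ⟨x, h0, hx⟩
  have s2 := conn (hN.1 c R) oU cl (fun y a => ⟨a.2.self_of_nhds.1.2 a.1, a.2⟩)
    ⟨x, hx.self_of_nhds.1.1 h0, hx⟩
  refine hC ⟨c, R, hR, fun y => ⟨fun a => ?_, fun a => (s2 a).1⟩⟩
  by_contra b
  rcases (not_lt.1 b).eq_or_lt with e | e
  · exact a.ne (s2 e.symm).1
  · obtain ⟨M, hM⟩ := hb.exists_norm_le
    have z1 : R ^ 2 < qc c (|c.1| + R + |M| + 1, c.2) := by
      simp only [qc, sub_self]
      nlinarith [le_abs_self c.1, abs_nonneg M]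
    have z2 : 0 ≤ ρ (|c.1| + R + |M| + 1, c.2) := not_lt.1 fun d => by
      have := (le_abs_self _).trans ((norm_fst_le _).trans (hM _ d))
      simp only at this
      linarith [abs_nonneg c.1, le_abs_self M]
    obtain ⟨w, w1, w2⟩ := (hN.2.1 c R).intermediate_value e z1 hρ.continuous.continuousOn ⟨a.le, z2⟩
    exact (ne_of_lt w1) ((s1 w2).2.self_of_nhds.1.1 w2).symm

end Pool.Agent.MP_ed9623_an.S64
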