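import Pool.Agent.MP_ed9623_an.S64.SpecB
import Pool.Agent.MP_ed9623_an.H64.Final2
import Pool.Agent.MP_ed9623_an.H64.NA1

open Filter Topology Set
open scoped ContDiff

namespace Pool.Agent.MP_ed9623_an.S64

open H64

namespace BOsc

variable {ρ : ℝ × ℝ → ℝ}

theorem fd_ne {y : ℝ × ℝ} (h : 0 < gsq ρ y) : fderiv ℝ ρ y ≠ 0 := fun e => by
  simp [gsq, pd, e] at h

theorem diff_curv (hρ : ∀ k : ℕ, ContDiff ℝ k ρ) {y : ℝ × ℝ} (h : 0 < gsq ρ y) :
    DifferentiableAt ℝ (curvature ρ) y :=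
  (cdg_diff (cd_curv2 hρ) le_rfl y).mul ((((cdg_diff (cd_gsq hρ) le_rfl y).sqrt h.ne').fun_pow 3).inv
    (pow_ne_zero 3 (Real.sqrt_pos.2 h).ne'))

/-- The curvature is constant along the curve. -/
theorem const (hρ : ∀ k : ℕ, ContDiff ℝ k ρ) {a b a' b' : ℝ → ℝ}
    (ha : ∀ r, HasDerivAt a (a' r) r) (hb : ∀ r, HasDerivAt b (b' r) r)
    (h : ∀ᶠ r in 𝓝 (0 : ℝ), ρ (a r, b r) = 0 ∧ 0 < gsq ρ (a r, b r) ∧ dcurvature ρ (a r, b r) = 0) :
    ∀ᶠ r in 𝓝 (0 : ℝ), curvature ρ (a r, b r) = curvature ρ (a 0, b 0) := by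
  obtain ⟨η, η0, hη⟩ := Metric.eventually_nhds_iff_ball.1 h.eventually_nhds
  refine Metric.eventually_nhds_iff_ball.2 ⟨η, η0, fun r hr => ?_⟩
  have hf : ∀ r ∈ Metric.ball (0 : ℝ) η, HasDerivAt (fun r => curvature ρ (a r, b r)) 0 r := by
    intro r hr
    obtain ⟨-, g0, d0⟩ := (hη r hr).self_of_nhds
    have o : a' r * pd (1, 0) ρ (a r, b r) + b' r * pd (0, 1) ρ (a r, b r) = 0 :=
      (H64.hd_curve (hρ 1) (ha r) (hb r)).unique
        ((hasDerivAt_const r 0).congr_of_eventuallyEq ((hη r hr).mono fun s hs => hs.1))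
    refine ((diff_curv hρ g0).hasFDerivAt.comp_hasDerivAt r ((ha r).prodMk (hb r))).congr_deriv ?_
    change pd (a' r, b' r) (curvature ρ) (a r, b r) = 0
    unfold dcurvature at d0
    unfold gsq at g0
    rw [pd_dir2] at d0 ⊢
    simp only at d0 ⊢
    generalize pd (1, 0) ρ (a r, b r) = r1 at *
    generalize pd (0, 1) ρ (a r, b r) = r2 at *
    refine mul_left_cancel₀ g0.ne' ?_
    linear_combination (b' r * r1 - a' r * r2) * d0 + (r1 * pd (1, 0) (curvature ρ) (a r, b r)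
      + r2 * pd (0, 1) (curvature ρ) (a r, b r)) * o
  simpa [sub_eq_zero] using (convex_ball (0 : ℝ) η).norm_image_sub_le_of_norm_hasDerivWithin_le
    (C := 0) (fun x hx => (hf x hx).hasDerivWithinAt) (fun _ _ => by simp)
    (Metric.mem_ball_self η0) hr

end BOsc

open BOsc in
theorem rowOsc : OfOsc := by
  intro hC ρ x hs x0 k0 hd
  have hρ : ∀ k : ℕ, ContDiff ℝ k ρ := (mkS ρ hs).cd
  have e : ∀ y, curvature ρ y = curv2 ρ y / √(gsq ρ y) ^ 3 := fun _ => rfl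
  have g0 : 0 < gsq ρ x := by
    by_contra hn
    rw [e, Real.sqrt_eq_zero'.2 (not_lt.1 hn)] at k0
    simp at k0
  have s0 := Real.sqrt_pos.2 g0
  have c0 : 0 < curv2 ρ x := by
    rw [e] at k0
    exact (div_pos_iff_of_pos_right (by positivity)).1 k0
  obtain ⟨τ, γ, hτ, γ0, hp⟩ := hC (mkS ρ hs) x x0 (by
    by_contra hn
    push Not at hn
    have h1 : pd (1, 0) ρ x = 0 := hn.1
    have h2 : pd (0, 1) ρ x = 0 := hn.2
    simp [gsq, h1, h2] at g0)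
  simp only [mkS_val] at hp
  have ha : ∀ r, HasDerivAt (fun r => x.1 + τ.1 * r - τ.2 * γ.1 r) (τ.1 - τ.2 * (D 1 γ).1 r) r :=
    fun r => ((((hasDerivAt_id r).const_mul τ.1).const_add x.1).sub
      ((hd_one γ r).const_mul τ.2)).congr_deriv (by rw [mul_one])
  have hb : ∀ r, HasDerivAt (fun r => x.2 + τ.2 * r + τ.1 * γ.1 r) (τ.2 + τ.1 * (D 1 γ).1 r) r :=
    fun r => ((((hasDerivAt_id r).const_mul τ.2).const_add x.2).add
      ((hd_one γ r).const_mul τ.1)).congr_deriv (by rw [mul_one])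
  have t1 : Tendsto (fun r : ℝ => ((r, γ.1 r) : PP)) (𝓝 0) (𝓝 0) :=
    (continuous_id.prodMk γ.ct).tendsto' _ _ (by simp [γ0])
  have t2 : Tendsto (mv x τ) (𝓝 0) (𝓝 x) := (sm_mv x τ).continuous.tendsto' _ _ (mv_zero x τ)
  have t3 := t2.comp t1
  have z : ∀ᶠ r in 𝓝 (0 : ℝ), ρ (mv x τ (r, γ.1 r)) = 0 := (t1.eventually hp).mono fun r h => h.2.2 rfl
  have hg : ∀ᶠ r in 𝓝 (0 : ℝ), 0 < gsq ρ (mv x τ (r, γ.1 r)) :=
    t3.eventually (continuousAt_const.eventually_lt (cd_gsq hρ).continuous.continuousAt g0)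
  have hc : ∀ᶠ r in 𝓝 (0 : ℝ), curv2 ρ (mv x τ (r, γ.1 r)) ≠ 0 :=
    t3.eventually ((cd_curv2 hρ).continuous.continuousAt.eventually_ne c0.ne')
  have hk : ∀ᶠ r in 𝓝 (0 : ℝ), dcurvature ρ (mv x τ (r, γ.1 r)) = 0 :=
    ((t3.eventually hd).and z).mono fun r h => h.1 h.2
  have ci := circle hρ ha hb ((z.and (hg.and (hc.and hk))).mono fun r h => ⟨h.1, h.2.2.1, by
    obtain ⟨c, d, -, -, -, f⟩ := kap2_eq hρ (fd_ne h.2.1)
    exact f.trans (by rw [h.2.2.2, mul_zero])⟩)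
  have co := const hρ ha hb (z.and (hg.and hk))
  have o := (H64.hd_curve (hρ 1) (ha 0) (hb 0)).unique ((hasDerivAt_const 0 0).congr_of_eventuallyEq z)
  simp only [γ0, mul_zero, add_zero, sub_zero, Prod.mk.eta] at ci co o
  set k := gsq ρ x / curv2 ρ x with hk0
  have kp : 0 < k := by positivity
  have hR : (k * √(gsq ρ x)) ^ 2 = k ^ 2 * (pd (1, 0) ρ x ^ 2 + pd (0, 1) ρ x ^ 2) := by
    rw [mul_pow, Real.sq_sqrt g0.le]; rfl
  have hR' : curvature ρ x = (k * √(gsq ρ x))⁻¹ := by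
    rw [e, hk0, pow_succ, Real.sq_sqrt g0.le]
    field_simp
  refine ⟨(x.1 - k * pd (1, 0) ρ x, x.2 - k * pd (0, 1) ρ x), k * √(gsq ρ x), by positivity, ?_⟩
  unfold gsq at g0
  rw [hR, ← hR']
  generalize pd (1, 0) ρ x = r1 at *
  generalize pd (0, 1) ρ x = r2 at *
  have m0 : k * (τ.1 * r2 - τ.2 * r1) ≠ 0 := mul_ne_zero kp.ne' fun h => g0.ne' (by
    have h1 : τ.1 * r1 + τ.2 * r2 = 0 := by linear_combination o - (D 1 γ).1 0 * h
    linear_combination (τ.1 * r1 + τ.2 * r2) * h1 + (τ.1 * r2 - τ.2 * r1) * h - (r1 ^ 2 + r2 ^ 2) * hτ)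
  have hm : ∀ᶠ p in 𝓝 (0 : PP), p.2 + γ.1 p.1 + 2 * (k * (τ.1 * r2 - τ.2 * r1)) ≠ 0 := by
    refine ContinuousAt.eventually_ne
      ((continuous_snd.add (γ.ct.comp continuous_fst)).add continuous_const).continuousAt ?_
    simpa [γ0] using m0
  have t4 : Tendsto Prod.fst (𝓝 (0 : PP)) (𝓝 0) := continuous_fst.tendsto' _ _ rfl
  have hmap : map (mv x τ) (𝓝 0) = 𝓝 x := ((mvH x τ hτ).map_nhds_eq 0).trans (congrArg _ (mv_zero x τ))
  rw [← hmap, eventually_map]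
  filter_upwards [hp, hm, t4.eventually ci, t4.eventually co] with p h1 h2 h3 h4
  rw [h1.2]
  refine ⟨⟨fun h => ?_, fun h => ?_⟩, fun h => ?_⟩
  · simp only [mv, h]
    linear_combination h3
  · simp only [mv] at h
    refine sub_eq_zero.1 (mul_right_cancel₀ h2 ?_)
    linear_combination h - h3 - (p.2 ^ 2 - γ.1 p.1 ^ 2) * hτ
  · simp only [mv, h]
    exact h4

end Pool.Agent.MP_ed9623_an.S64
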