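import Pool.Agent.MP_ed9623_an.S64.SpecG
import Pool.Agent.MP_ed9623_an.H73.Chart0

/-! A regular level curve is a graph. -/

open Filter Topology Set
open scoped ContDiff

namespace Pool.Agent.MP_ed9623_an.S64

open H64

theorem rowCha : OfCha := by
  intro F q h0 hd
  obtain ⟨τ, γ, r, hc, he⟩ := H77.rowChart0 F.1 q F.sm h0 fun e => by
    rcases hd with b | b <;> exact b (by rw [D_val, pd, e]; rfl)
  refine ⟨τ, mkS γ hc.gam.sm, hc.un, hc.g0, ?_⟩
  have t : Tendsto (fun x : PP => ((x.1, x.2 - γ x.1) : PP)) (𝓝 0) (𝓝 0) := by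
    have := hc.gam.sm.continuous
    exact (by fun_prop : Continuous fun x : PP => ((x.1, x.2 - γ x.1) : PP)).tendsto' 0 0
      (by simp [hc.g0])
  filter_upwards [t.eventually (Metric.ball_mem_nhds 0 hc.r0)] with x hx'
  have hx : ((x.1, x.2 - γ x.1) : PP) ∈ H77.Q r := by
    rw [H77.Q_eq_ball]
    exact hx'
  have e : H77.Th q τ γ (x.1, x.2 - γ x.1) = mv q τ x := by simp [H77.Th, mv]
  have a := hc.mem _ hx
  have b := he _ hx
  rw [e] at a b
  exact ⟨a.trans sub_pos, b.trans sub_eq_zero⟩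

end Pool.Agent.MP_ed9623_an.S64
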