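import Pool.Agent.MP_ed9623_an.S64.SpecB

/-! Existence of charts with stream functions. -/

open MeasureTheory Filter Topology Set
open scoped ContDiff

namespace Pool.Agent.MP_ed9623_an.S64

open H64
open H77 (P L E6 M2 Van Test ip perp vl gj Sv Pv TU Rp Zn vo Circ ee)

namespace BCk

section alg
variable {R : Type} [CommRing R] [Algebra ℝ R] (D : DR R) (K : Ideal R)

/-- The left side of the vorticity equation. -/
def vq (a b : R) : R :=
  D.ht (D.d 1 b - D.d 2 a) + D.dv (a * (D.d 1 b - D.d 2 a)) (b * (D.d 1 b - D.d 2 a))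

theorem alg (hK : ∀ i, ∀ f ∈ K, D.d i f ∈ K) {α ψ G : R} {u v : Fin 2 → R}
    (a1 : D.d 1 α - u 1 ∈ K) (a2 : -D.d 2 α - u 0 ∈ K) (w1 : D.d 1 ψ - v 1 ∈ K)
    (w2 : -D.d 2 ψ - v 0 ∈ K)
    (h : ∀ j, D.ht (v j) + D.V (u 0) (u 1) (v j) + D.V (v 0) (v 1) (u j) ∈ K) (g : D.d 0 G = 0)
    (p : vq D (u 0 + v 0) (u 1 + v 1) - G ∈ K) (m : vq D (u 0 - v 0) (u 1 - v 1) - G ∈ K) :
    D.eW α ψ 1 ∈ K ∧ -D.eW α ψ 2 ∈ K ∧ 2 * D.eA α ψ ∈ K := by
  obtain ⟨δ, e⟩ : ∃ δ : Fin 3 → R ⧸ K → R ⧸ K,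
      ∀ i f, Ideal.Quotient.mk K (D.d i f) = δ i (Ideal.Quotient.mk K f) :=
    ⟨fun i q => Ideal.Quotient.mk K (D.d i q.out), fun i f => Ideal.Quotient.eq.2 (by
      rw [← map_sub]
      exact hK _ _ (Ideal.Quotient.eq.1 (Quotient.out_eq _).symm))⟩
  rw [← Ideal.Quotient.eq] at a1 a2 w1 w2
  have k : ∀ {a b a' b' : R}, Ideal.Quotient.mk K a = Ideal.Quotient.mk K a' →
      Ideal.Quotient.mk K b = Ideal.Quotient.mk K b' → vq D a' b' - G ∈ K →
      D.d 0 (vq D a b - G) ∈ K := fun a b c => hK _ _ (by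
    rw [← Ideal.Quotient.eq_zero_iff_mem] at c ⊢
    simpa only [vq, DR.ht, DR.lap, DR.dv, map_add, map_sub, map_mul, e, a, b] using c)
  have l : ∀ {f f' g g' : R}, Ideal.Quotient.mk K f = Ideal.Quotient.mk K f' →
      Ideal.Quotient.mk K g = Ideal.Quotient.mk K g' →
      D.ht f' + D.V (u 0) (u 1) f' + D.V (v 0) (v 1) g' ∈ K →
      D.ht f + D.V (-D.d 2 α) (D.d 1 α) f + D.V (-D.d 2 ψ) (D.d 1 ψ) g ∈ K := fun a b c => by
    rw [← Ideal.Quotient.eq_zero_iff_mem] at c ⊢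
    simp only [DR.ht, DR.lap, DR.V, map_add, map_sub, map_mul, a1, a2, w1, w2] at c ⊢
    simpa only [e, a, b] using c
  refine ⟨?_, ?_, ?_⟩
  · convert l w1 a1 (h 1) using 1
    simp only [DR.eW, DR.HH, DR.br, DR.V]
    ring
  · convert l w2 a2 (h 0) using 1
    simp only [DR.eW, DR.HH, DR.br, DR.V, DR.ht, DR.lap, map_neg]
    ring
  · convert add_mem
      (k (a := -D.d 2 α + -D.d 2 ψ) (b := D.d 1 α + D.d 1 ψ) (by rw [map_add, map_add, a2, w2])
        (by rw [map_add, map_add, a1, w1]) p)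
      (k (a := -D.d 2 α - -D.d 2 ψ) (b := D.d 1 α - D.d 1 ψ) (by rw [map_sub, map_sub, a2, w2])
        (by rw [map_sub, map_sub, a1, w1]) m) using 1
    rw [map_sub, map_sub, g, sub_zero, sub_zero, ← map_add, two_mul, DR.eA, ← map_add]
    congr 1
    simp only [vq, DR.br, DR.dv, DR.ht, DR.lap, map_neg, map_add, map_sub, D.mul, D.c21]
    ring

end alg

theorem mem {N : Set P} {f : S3} :
    f ∈ FI (𝓟 {z : ST | z.2 ∈ N}) ↔ ∀ z : ST, z.2 ∈ N → f.1 z = 0 := eventually_principal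

end BCk

open BCk in
theorem rowCk : OfCk := by
  intro hC h1 h2 hS Ω g G R a w A W o hP hG hA hW x hx
  obtain ⟨r, r0, s, c1, c2⟩ := hC Ω o x hx
  choose u hu using fun j => c1 _ (hA.sm j)
  choose v hv using fun j => c1 _ (hW.sm j)
  obtain ⟨G', hG'⟩ := c2 G hG.1
  have ob : IsOpen (Metric.ball x r) := Metric.isOpen_ball
  have au : ∀ t j, ∀ᵐ y, y ∈ Metric.ball x r → (u j).1 (t, y) = vl (a t) j y := fun t j =>
    (hA.ae t j).mono fun y b c => (hu j _ c).trans (b (s c))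
  have av : ∀ t j, ∀ᵐ y, y ∈ Metric.ball x r → (v j).1 (t, y) = vl (w t) j y := fun t j =>
    (hW.ae t j).mono fun y b c => (hv j _ c).trans (b (s c))
  have q := h1 Ω _ g R a w u v ob s hP au av
  obtain ⟨α, hα⟩ := hS _ _ x r fun z b => (q z b).1
  obtain ⟨ψ, hψ⟩ := hS _ _ x r fun z b => (q z b).2.1
  have cu : ∀ θ, Test (Metric.ball x r) θ → -ip g (perp (fun _ => 0) θ) = ∫ y, G'.1 y * θ y :=
    fun θ b => (hG.2 θ (b.mono s)).trans (H77.int_test_congr
      (fun y c => image_eq_zero_of_notMem_tsupport fun d => c (b.2.2 d))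
      (Eventually.of_forall fun y c => (hG' y c).symm))
  obtain ⟨k1, k2, k3⟩ := alg DS (FI (𝓟 {z : ST | z.2 ∈ Metric.ball x r}))
    (fun i f b => mem.2 fun z c => NI_val (NI_d (((continuous_snd.tendsto z).eventually
      (ob.mem_nhds c)).mono (mem.1 b)) i)) (α := α) (ψ := ψ) (G := pb Prod.snd contDiff_snd G')
    (mem.2 fun z b => by rw [val_sub, (hα z b).1, sub_self])
    (mem.2 fun z b => by rw [val_sub, val_neg, (hα z b).2, neg_neg, sub_self])
    (mem.2 fun z b => by rw [val_sub, (hψ z b).1, sub_self])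
    (mem.2 fun z b => by rw [val_sub, val_neg, (hψ z b).2, neg_neg, sub_self])
    (fun j => mem.2 fun z b => (q z b).2.2 j)
    (SA_ext fun z => (hd_time _ z.1 z.2).unique (hasDerivAt_const z.1 (G'.1 z.2)))
    (mem.2 fun z b => sub_eq_zero.2 (h2 Ω _ g G' R _ (u + v) ob s hP.mg hP.s1 cu (fun t j => by
      filter_upwards [au t j, av t j, H77.co_add (a t) (w t) (j, none)] with y c d e f
      exact (congrArg₂ (· + ·) (c f) (d f)).trans e.symm) z b))
    (mem.2 fun z b => sub_eq_zero.2 (h2 Ω _ g G' R _ (u - v) ob s hP.mg hP.s2 cu (fun t j => by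
      filter_upwards [au t j, av t j, H77.co_sub (a t) (w t) (j, none)] with y c d e f
      exact (congrArg₂ (· - ·) (c f) (d f)).trans e.symm) z b))
  refine ⟨_, α, ψ, Metric.mem_ball_self r0, s, ob, fun j hj z b => ?_, fun z b => ?_,
    fun z b => (hα z b).1.trans (hu 1 z b), fun z b => by rw [(hα z b).2, hu 0 z b],
    fun z b => (hψ z b).1.trans (hv 1 z b), fun z b => by rw [(hψ z b).2, hv 0 z b]⟩
  · fin_cases j
    · exact absurd rfl hj
    · exact mem.1 k1 z b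
    · exact neg_eq_zero.1 (mem.1 k2 z b)
  · simpa using mem.1 k3 z b

end Pool.Agent.MP_ed9623_an.S64
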