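import Pool.Agent.MP_ed9623_an.H77.DefsX

/-! Forces with a smooth curl. -/

open MeasureTheory
open scoped ContDiff

namespace Pool.Agent.MP_ed9623_an.S64

open H64 H77

/-- On `Ω` the distribution `curl g = ∂₁ g₂ - ∂₂ g₁` is the smooth function `G`. -/
def CurlSm (Ω : Set (ℝ × ℝ)) (g : Fin 2 → L2 Ω) (G : ℝ × ℝ → ℝ) : Prop :=
  ContDiffOn ℝ ∞ G Ω ∧ ∀ φ, Test Ω φ →
    ∫ x in Ω, (g 0 x * pd (ee 1) φ x - g 1 x * pd (ee 0) φ x) = ∫ x, G x * φ x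

end Pool.Agent.MP_ed9623_an.S64
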