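import Pool.Agent.MP_ed9623_an.S64.SpecG
import Pool.Agent.MP_ed9623_an.S64.DefS
import Pool.Agent.MP_ed9623_an.H77.SpecX

/-! Statements: from weak solutions to the local structure. -/

open MeasureTheory Filter Topology Set
open scoped ContDiff

namespace Pool.Agent.MP_ed9623_an.S64

open H64
open H77 (P L E6 M2 Van Test ip perp vl gj Sv Pv TU Rp Zn vo Circ ee)

/-- The curl of `g` is the smooth function `G` on `Ω`. -/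
def CurlS (g : Fin 2 → P → ℝ) (Ω : Set P) (G : P → ℝ) : Prop :=
  ContDiffOn ℝ ∞ G Ω ∧ ∀ θ, Test Ω θ → -ip g (perp (fun _ => 0) θ) = ∫ x, G x * θ x

/-- `A` is a smooth representative of `a` in `Ω`. -/
structure Gr (Ω : Set P) (a : ℝ → E6) (A : Fin 2 → ST → ℝ) : Prop where
  sm : ∀ j, ContDiffOn ℝ ∞ (A j) {z | z.2 ∈ Ω}
  ae : ∀ t j, ∀ᵐ x, x ∈ Ω → A j (t, x) = vl (a t) j x

/-- Stream functions on `O`. -/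
structure Ck (O : Set P) (α ψ : S3) (A W : Fin 2 → ST → ℝ) : Prop where
  oO : IsOpen O
  eW : ∀ j, j ≠ 0 → ∀ z : ST, z.2 ∈ O → (DS.eW α ψ j).1 z = 0
  eA : ∀ z : ST, z.2 ∈ O → (DS.eA α ψ).1 z = 0
  a1 : ∀ z : ST, z.2 ∈ O → (DS.d 1 α).1 z = A 1 z
  a2 : ∀ z : ST, z.2 ∈ O → (DS.d 2 α).1 z = -A 0 z
  w1 : ∀ z : ST, z.2 ∈ O → (DS.d 1 ψ).1 z = W 1 z
  w2 : ∀ z : ST, z.2 ∈ O → (DS.d 2 ψ).1 z = -W 0 z

/-- Every point has a chart. -/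
def Cks (Ω : Set P) (A W : Fin 2 → ST → ℝ) : Prop :=
  ∀ x ∈ Ω, ∃ O α ψ, x ∈ O ∧ O ⊆ Ω ∧ Ck O α ψ A W

/-- The defect and the Hessian of the stream function. -/
noncomputable def Yf (n : ℝ) (W : Fin 2 → ST → ℝ) (j : Fin 2) : ST → ℝ :=
  fun z => pd e0 (pd e0 (W j)) z + n * W j z
noncomputable def Bf (W : Fin 2 → ST → ℝ) (e : P) : ST → ℝ :=
  fun z => e.1 ^ 2 * pd e1 (W 1) z + 2 * e.1 * e.2 * pd e2 (W 1) z - e.2 ^ 2 * pd e2 (W 0) z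

/-- Unique continuation in time. -/
def Tu (Ω : Set P) (A : Fin 2 → ST → ℝ) : Prop :=
  ∀ z : ST, z.2 ∈ Ω → (∀ᶠ y in 𝓝 z, ∀ j, A j y = 0) → ∀ᶠ x in 𝓝 z.2, ∀ t j, A j (t, x) = 0

/-- The open set where the half sum and the defect vanish at all times. -/
def Yi (n : ℝ) (Ω : Set P) (A W : Fin 2 → ST → ℝ) : Set P :=
  interior {x | x ∈ Ω ∧ ∀ t j, A j (t, x) = 0 ∧ Yf n W j (t, x) = 0}

/-- The periodic case at the boundary point `x`. -/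
def Pc (ρ : P → ℝ) (x : P) (n : ℝ) (a w : ℝ → E6) : Prop :=
  (∃ ε : ℝ, 0 < ε ∧ ∀ t j, Van (Metric.ball x ε) (vl (a t) j)) ∧
  (∀ t₀, ∃ (η : ℝ) (V : Fin 2 → ST → ℝ), 0 < η ∧ Rp ρ x t₀ η w V ∧ Zn ρ x t₀ η V ∧
    ∀ t ∈ Metric.ball t₀ η, pd e0 (pd e0 (vo V)) (t, x) + n * vo V (t, x) = 0) ∧
  ∃ (t₁ η : ℝ) (V : Fin 2 → ST → ℝ), 0 < η ∧ Rp ρ x t₁ η w V ∧ Zn ρ x t₁ η V ∧ vo V (t₁, x) ≠ 0

section api
variable {O : Set P} {α ψ : S3} {A W : Fin 2 → ST → ℝ} {z : ST} {n : ℝ}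

theorem Ck.ev (h : Ck O α ψ A W) (a : z.2 ∈ O) : ∀ᶠ y in 𝓝 z, y.2 ∈ O :=
  (continuous_snd.tendsto z).eventually (h.oO.mem_nhds a)

theorem Ck.W1 (h : Ck O α ψ A W) (a : z.2 ∈ O) : W 1 =ᶠ[𝓝 z] (DS.d 1 ψ).1 :=
  (h.ev a).mono fun y b => (h.w1 y b).symm

theorem Ck.W0 (h : Ck O α ψ A W) (a : z.2 ∈ O) : W 0 =ᶠ[𝓝 z] (-DS.d 2 ψ).1 :=
  (h.ev a).mono fun y b => by rw [val_neg, h.w2 y b, neg_neg]

theorem Ck.Y1 (h : Ck O α ψ A W) (a : z.2 ∈ O) : Yf n W 1 =ᶠ[𝓝 z] (DS.yy n ψ 1).1 := by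
  filter_upwards [h.W1 a, pd_congr e0 (pd_congr e0 (h.W1 a))] with y b c
  rw [Yf, b, c]; rfl

theorem Ck.Y0 (h : Ck O α ψ A W) (a : z.2 ∈ O) : Yf n W 0 =ᶠ[𝓝 z] (-DS.yy n ψ 2).1 := by
  filter_upwards [h.W0 a, pd_congr e0 (pd_congr e0 (h.W0 a))] with y b c
  rw [Yf, b, c]
  change (DS.d 0 (DS.d 0 (-DS.d 2 ψ)) + n • -DS.d 2 ψ).1 y = _
  simp [DR.yy]; ring

theorem Ck.B (h : Ck O α ψ A W) (a : z.2 ∈ O) (e : P) : Bf W e =ᶠ[𝓝 z] (DS.BB ψ e e).1 := by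
  filter_upwards [pd_congr e1 (h.W1 a), pd_congr e2 (h.W1 a), pd_congr e2 (h.W0 a)] with y b c d
  rw [Bf, b, c, d]
  change _ * (DS.d 1 (DS.d 1 ψ)).1 y + _ * (DS.d 2 (DS.d 1 ψ)).1 y
    - _ * (DS.d 2 (-DS.d 2 ψ)).1 y = _
  simp [DR.BB, DS.c21]; ring

theorem Ck.gz (h : Ck O α ψ A W) (a : z.2 ∈ O) : GZ α z ↔ ∀ᶠ y in 𝓝 z, ∀ j, A j y = 0 :=
  ⟨fun b => ((h.ev a).and (b.1.and b.2)).mono fun y c => Fin.forall_fin_two.2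
    ⟨neg_eq_zero.1 ((h.a2 y c.1).symm.trans c.2.2), (h.a1 y c.1).symm.trans c.2.1⟩,
  fun b => ⟨((h.ev a).and b).mono fun y c => (h.a1 y c.1).trans (c.2 1),
    ((h.ev a).and b).mono fun y c => (h.a2 y c.1).trans (neg_eq_zero.2 (c.2 0))⟩⟩

theorem Ck.ht (h : Ck O α ψ A W) (a : z.2 ∈ O) (b : GZ α z) {j : Fin 3} (hj : j ≠ 0) :
    DS.ht (DS.d j ψ) ∈ NI z := ((h.ev a).and ((FI_ev b.1).and (FI_ev b.2))).mono fun y c =>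
  ht_GZ c.2 (h.eW j hj y c.1)

theorem Lh_of {F : ST → ℝ} {f : S3} (h : F =ᶠ[𝓝 z] f.1) (e : (DS.ht f).1 z = 0) :
    ContDiffAt ℝ (2 : ℕ) F z ∧ Lh F z = 0 :=
  ⟨(f.cd 2).contDiffAt.congr_of_eventuallyEq h, by
    rw [Lh, pd_congr_pt _ (pd_congr e1 h), pd_congr_pt _ (pd_congr e2 h), pd_congr_pt _ h]
    exact neg_eq_zero.1 ((neg_sub _ _).trans e)⟩

/-- Where the half sum vanishes, the defect and the Hessian solve the heat equation. -/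
theorem Ck.heat (h : Ck O α ψ A W) (a : z.2 ∈ O) (b : ∀ᶠ y in 𝓝 z, ∀ j, A j y = 0) :
    (∀ j, ContDiffAt ℝ (2 : ℕ) (Yf n W j) z ∧ Lh (Yf n W j) z = 0) ∧
      ∀ e, ContDiffAt ℝ (2 : ℕ) (Bf W e) z ∧ Lh (Bf W e) z = 0 := by
  have k := fun j hj => h.ht a ((h.gz a).2 b) (j := j) hj
  have y : ∀ j, j ≠ 0 → DS.ht (DS.yy n ψ j) ∈ NI z := fun j hj => by
    rw [show DS.ht (DS.yy n ψ j) = DS.d 0 (DS.d 0 (DS.ht (DS.d j ψ))) + n • DS.ht (DS.d j ψ) by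
      simp only [DR.ht, DR.yy, DR.lap, map_add, map_sub, map_smul, DS.c10, DS.c20, smul_sub,
        smul_add]; ring]
    exact add_mem (NI_d (NI_d (k j hj) 0) 0) (Submodule.smul_of_tower_mem _ _ (k j hj))
  refine ⟨Fin.forall_fin_two.2 ⟨Lh_of (h.Y0 a) ?_, Lh_of (h.Y1 a) (NI_val (y 1 (by decide)))⟩,
    fun e => Lh_of (h.B a e) ?_⟩
  · rw [show DS.ht (-DS.yy n ψ 2) = -DS.ht (DS.yy n ψ 2) by
      simp only [DR.ht, DR.lap, map_neg]; ring, val_neg, NI_val (y 2 (by decide)), neg_zero]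
  · rw [show DS.ht (DS.BB ψ e e) = (e.1 * e.1) • DS.d 1 (DS.ht (DS.d 1 ψ))
        + (e.1 * e.2 + e.2 * e.1) • DS.d 1 (DS.ht (DS.d 2 ψ))
        + (e.2 * e.2) • DS.d 2 (DS.ht (DS.d 2 ψ)) by
      simp only [DR.ht, DR.BB, DR.lap, map_add, map_sub, map_smul, DS.c10, DS.c20, DS.c21,
        smul_sub, smul_add]; ring]
    simp [NI_val (NI_d (k 1 (by decide)) _), NI_val (NI_d (k 2 (by decide)) _)]

end api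

/-- Local smooth representatives. -/
def RepLS : Prop := ∀ (Ω : Set P) (g : Fin 2 → P → ℝ) (G : P → ℝ) (R : ℝ) (U : ℝ → E6), IsOpen Ω →
  (∀ j, M2 (g j)) → Sv Ω g R U → CurlS g Ω G → ∀ t j, ∀ x ∈ Ω, ∃ (F : S3) (ε : ℝ), 0 < ε ∧
    ∀ᶠ s in 𝓝 t, ∀ᵐ p, p ∈ Metric.ball x ε → F.1 (s, p) = vl (U s) j p

/-- Gluing. -/
def GlueS : Prop := ∀ (Ω : Set P) (W : ℝ → P → ℝ), IsOpen Ω → (∀ t, ∀ x ∈ Ω, ∃ (F : S3) (ε : ℝ),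
    0 < ε ∧ ∀ᶠ s in 𝓝 t, ∀ᵐ p, p ∈ Metric.ball x ε → F.1 (s, p) = W s p) →
  ∃ F : ST → ℝ, ContDiffOn ℝ ∞ F {z | z.2 ∈ Ω} ∧ ∀ t, ∀ᵐ x, x ∈ Ω → F (t, x) = W t x

/-- Representatives of the half sum and of the half difference. -/
def Rep2S : Prop := ∀ (Ω : Set P) (g : Fin 2 → P → ℝ) (G : P → ℝ) (R : ℝ) (a w : ℝ → E6),
  IsOpen Ω → Pv Ω g R a w → CurlS g Ω G → ∃ A W, Gr Ω a A ∧ Gr Ω w W

/-- Cut-off. -/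
def CutS : Prop := ∀ (Ω : Set P), IsOpen Ω → ∀ x ∈ Ω, ∃ r : ℝ, 0 < r ∧ Metric.ball x r ⊆ Ω ∧
  (∀ F : ST → ℝ, ContDiffOn ℝ ∞ F {z | z.2 ∈ Ω} →
    ∃ f : S3, ∀ z : ST, z.2 ∈ Metric.ball x r → f.1 z = F z) ∧
  ∀ G : P → ℝ, ContDiffOn ℝ ∞ G Ω → ∃ f : SA PP, ∀ y ∈ Metric.ball x r, f.1 y = G y

/-- The classical equation of the half difference. -/
def Eq1S : Prop := ∀ (Ω N : Set P) (g : Fin 2 → P → ℝ) (R : ℝ) (a w : ℝ → E6) (u v : Fin 2 → S3),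
  IsOpen N → N ⊆ Ω → Pv Ω g R a w → (∀ t j, ∀ᵐ x, x ∈ N → (u j).1 (t, x) = vl (a t) j x) →
  (∀ t j, ∀ᵐ x, x ∈ N → (v j).1 (t, x) = vl (w t) j x) → ∀ z : ST, z.2 ∈ N →
    (DS.dv (u 0) (u 1)).1 z = 0 ∧ (DS.dv (v 0) (v 1)).1 z = 0 ∧
    ∀ j, (DS.ht (v j) + DS.V (u 0) (u 1) (v j) + DS.V (v 0) (v 1) (u j)).1 z = 0

/-- The classical vorticity equation. -/
def Eq2S : Prop := ∀ (Ω N : Set P) (g : Fin 2 → P → ℝ) (G : SA PP) (R : ℝ) (U : ℝ → E6)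
    (u : Fin 2 → S3), IsOpen N → N ⊆ Ω → (∀ j, M2 (g j)) → Sv Ω g R U →
  (∀ θ, Test N θ → -ip g (perp (fun _ => 0) θ) = ∫ x, G.1 x * θ x) →
  (∀ t j, ∀ᵐ x, x ∈ N → (u j).1 (t, x) = vl (U t) j x) → ∀ z : ST, z.2 ∈ N →
    (DS.ht (DS.d 1 (u 1) - DS.d 2 (u 0)) + DS.dv (u 0 * (DS.d 1 (u 1) - DS.d 2 (u 0)))
      (u 1 * (DS.d 1 (u 1) - DS.d 2 (u 0)))).1 z = G.1 z.2

/-- Stream functions. -/
def StrmS : Prop := ∀ (u v : S3) (x : P) (r : ℝ),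
  (∀ z : ST, z.2 ∈ Metric.ball x r → (DS.dv u v).1 z = 0) → ∃ ψ : S3, ∀ z : ST,
    z.2 ∈ Metric.ball x r → (DS.d 1 ψ).1 z = v.1 z ∧ (DS.d 2 ψ).1 z = -u.1 z

/-- Charts exist. -/
def CkS : Prop := ∀ (Ω : Set P) (g : Fin 2 → P → ℝ) (G : P → ℝ) (R : ℝ) (a w : ℝ → E6)
    (A W : Fin 2 → ST → ℝ), IsOpen Ω → Pv Ω g R a w → CurlS g Ω G → Gr Ω a A → Gr Ω w W →
  Cks Ω A W

/-- Bounded solutions of `c c'' - c' ^ 2 = - m` are sinusoids. -/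
def SinS : Prop := ∀ (c : ℝ → ℝ) (C m t₁ : ℝ), ContDiff ℝ ∞ c → (∀ t, |c t| ≤ C) → 0 < m →
  c t₁ ≠ 0 → (∀ t, c t ≠ 0 → c t * deriv (deriv c) t - deriv c t ^ 2 = -m) →
  ∃ n : ℝ, 0 < n ∧ ∀ t, deriv (deriv c) t + n * c t = 0

/-- The trichotomy at a convex boundary point. -/
def PerS : Prop := ∀ (ρ : P → ℝ) (x : P) (g : Fin 2 → P → ℝ) (R : ℝ) (a w : ℝ → E6),
  ContDiff ℝ ∞ ρ → (∀ x, ρ x = 0 → fderiv ℝ ρ x ≠ 0) → Bornology.IsBounded {x | ρ x < 0} →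
  IsPreconnected {x | ρ x < 0} → ρ x = 0 → 0 < curvature ρ x → dcurvature ρ x ≠ 0 →
  Pv {x | ρ x < 0} g R a w → TU a → (∃ t, t ≤ 0 ∧ w t = 0) ∨
    (¬ IsPreconnected {x | ρ x = 0} ∧ ∃ δ : ℝ, 0 < δ ∧ ∀ θ,
      Test ({x | ρ x < 0} ∩ Metric.ball x δ) θ → ip g (perp (fun _ => 0) θ) = 0) ∨
    ∃ n, 0 < n ∧ Pc ρ x n a w

/-- The defect vanishes near the boundary point. -/
def YzS : Prop := ∀ (ρ : P → ℝ) (x : P) (t₀ η n : ℝ) (V : Fin 2 → ST → ℝ), ContDiff ℝ ∞ ρ →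
  ρ x = 0 → 0 < curvature ρ x → 0 < η → Zn ρ x t₀ η V →
  (∀ t ∈ Metric.ball t₀ η, pd e0 (pd e0 (vo V)) (t, x) + n * vo V (t, x) = 0) →
  ∃ δ : ℝ, 0 < δ ∧ ∀ z : ST, z.1 ∈ Metric.ball t₀ η → z.2 ∈ Metric.ball x δ → ρ z.2 < 0 →
    ∀ j, Yf n V j z = 0

/-- The Hessian does not degenerate near the boundary point. -/
def WlS : Prop := ∀ (ρ : P → ℝ) (x : P) (t η : ℝ) (V : Fin 2 → ST → ℝ) (e : P), ContDiff ℝ ∞ ρ →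
  ρ x = 0 → 0 < curvature ρ x → 0 < η → Zn ρ x t η V → vo V (t, x) ≠ 0 → e ≠ 0 →
  ∃ᶠ y in 𝓝[{x | ρ x < 0}] x, Bf V e (t, y) ≠ 0

/-- Connected one-sided neighbourhoods. -/
def NhS : Prop := ∀ (ρ : P → ℝ) (x : P) (ε : ℝ), ContDiff ℝ ∞ ρ → ρ x = 0 → fderiv ℝ ρ x ≠ 0 →
  0 < ε → ∃ N : Set P, IsOpen N ∧ IsPreconnected N ∧ N ⊆ {x | ρ x < 0} ∩ Metric.ball x ε ∧
    N ∈ 𝓝[{x | ρ x < 0}] x

/-- The starting piece of the zone. -/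
def NbS : Prop := ∀ (ρ : P → ℝ) (x : P) (n : ℝ) (a w : ℝ → E6) (A W : Fin 2 → ST → ℝ),
  ContDiff ℝ ∞ ρ → ρ x = 0 → fderiv ℝ ρ x ≠ 0 → 0 < curvature ρ x → Pc ρ x n a w →
  Gr {x | ρ x < 0} a A → Gr {x | ρ x < 0} w W → Cks {x | ρ x < 0} A W →
  ∃ N : Set P, IsPreconnected N ∧ N ⊆ Yi n {x | ρ x < 0} A W ∧
    ∀ e : P, e ≠ 0 → ∃ z : ST, z.2 ∈ N ∧ Bf W e z ≠ 0

def TuS : Prop := ∀ (Ω : Set P) (a : ℝ → E6) (A : Fin 2 → ST → ℝ), IsOpen Ω → TU a → Gr Ω a A →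
  Tu Ω A

/-- The half difference tends to zero at the boundary. -/
def BdS : Prop := ∀ (ρ : P → ℝ) (g : Fin 2 → P → ℝ) (R : ℝ) (a w : ℝ → E6) (W : Fin 2 → ST → ℝ),
  ContDiff ℝ ∞ ρ → (∀ x, ρ x = 0 → fderiv ℝ ρ x ≠ 0) → Pv {x | ρ x < 0} g R a w →
  Gr {x | ρ x < 0} w W → ∀ j t, ∀ x, x ∉ {x | ρ x < 0} →
    Tendsto (fun y => W j (t, y)) (𝓝[{x | ρ x < 0}] x) (𝓝 0)

/-- The Hessian does not degenerate in the zone. -/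
def ZnWS : Prop := ∀ (n : ℝ) (Ω : Set P) (A W : Fin 2 → ST → ℝ) (x₁ : P) (e : P) (y z : ST), 0 < n →
  Cks Ω A W → y.2 ∈ connectedComponentIn (Yi n Ω A W) x₁ →
  z.2 ∈ connectedComponentIn (Yi n Ω A W) x₁ → (∀ᶠ q in 𝓝 z, Bf W e q = 0) → Bf W e y = 0

/-- The zone is maximal. -/
def ZnMS : Prop := ∀ (n : ℝ) (Ω : Set P) (A W : Fin 2 → ST → ℝ) (x₁ x : P), IsOpen Ω →
  Cks Ω A W → x ∈ Ω → x ∈ closure (connectedComponentIn (Yi n Ω A W) x₁) →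
  (∀ᶠ y in 𝓝 x, ∀ t j, A j (t, y) = 0) → x ∈ connectedComponentIn (Yi n Ω A W) x₁

/-- The zone is the whole domain. -/
def ZonS : Prop := ∀ (n : ℝ) (Ω N : Set P) (A W : Fin 2 → ST → ℝ), 0 < n → IsOpen Ω →
  Bornology.IsBounded Ω → IsPreconnected Ω → Cks Ω A W → Tu Ω A →
  (∀ j t, ∀ x, x ∉ Ω → Tendsto (fun y => W j (t, y)) (𝓝[Ω] x) (𝓝 0)) → IsPreconnected N →
  N ⊆ Yi n Ω A W → (∀ e : P, e ≠ 0 → ∃ z : ST, z.2 ∈ N ∧ Bf W e z ≠ 0) →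
  ∀ x ∈ Ω, ∀ t j, A j (t, x) = 0

/-- Uniqueness when the curl of the force is smooth. -/
def SmS : Prop := ∀ (ρ : P → ℝ) (x : P) (g : Fin 2 → P → ℝ) (G : P → ℝ) (R : ℝ) (a w : ℝ → E6),
  ContDiff ℝ ∞ ρ → (∀ x, ρ x = 0 → fderiv ℝ ρ x ≠ 0) → Bornology.IsBounded {x | ρ x < 0} →
  IsPreconnected {x | ρ x < 0} → ρ x = 0 → 0 < curvature ρ x → dcurvature ρ x ≠ 0 →
  Pv {x | ρ x < 0} g R a w → TU a → CurlS g {x | ρ x < 0} G →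
  (IsPreconnected {x | ρ x = 0} ∨ ¬ ∀ᶠ y in 𝓝[{x | ρ x < 0}] x, G y = 0) →
  (∃ t, t ≤ 0 ∧ w t = 0) ∨ ∀ t, t < 0 → a t = 0

/-- Near a convex point at which the curvature is locally constant, the curve lies on the
osculating circle. -/
def OscS : Prop := ∀ (ρ : P → ℝ) (x : P), ContDiff ℝ ∞ ρ → ρ x = 0 → 0 < curvature ρ x →
  (∀ᶠ y in 𝓝 x, ρ y = 0 → dcurvature ρ y = 0) → ∃ (c : P) (R : ℝ), 0 < R ∧ ∀ᶠ y in 𝓝 x,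
    (ρ y = 0 ↔ (y.1 - c.1) ^ 2 + (y.2 - c.2) ^ 2 = R ^ 2) ∧ (ρ y = 0 → curvature ρ y = R⁻¹)

/-- A connected boundary which is not a circle has a convex point with varying curvature. -/
def GeoS : Prop := ∀ ρ : P → ℝ, ContDiff ℝ ∞ ρ → (∀ x, ρ x = 0 → fderiv ℝ ρ x ≠ 0) →
  Bornology.IsBounded {x | ρ x < 0} → {x | ρ x < 0}.Nonempty → IsPreconnected {x | ρ x = 0} →
  ¬ Circ ρ → ∃ x, ρ x = 0 ∧ 0 < curvature ρ x ∧ dcurvature ρ x ≠ 0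

def OfRepL : Prop := H77.ThS → H77.TransS → H77.RepS → H77.BootS → RepLS
def OfGlue : Prop := GlueS
def OfRep2 : Prop := RepLS → GlueS → Rep2S
def OfCut : Prop := CutS
def OfEq1 : Prop := H77.Cl0S → Eq1S
def OfEq2 : Prop := H77.Cl0S → Eq2S
def OfStrm : Prop := StrmS
def OfCk : Prop := CutS → Eq1S → Eq2S → StrmS → CkS
def OfSin : Prop := SinS
def OfPer : Prop := H77.ChartS → H77.UcPS → H77.TriAS → H77.Cl0S → H77.DefPS → H77.GlobS → H77.CTS →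
  H77.SpinS → H77.CidS → H77.ZoneS → H77.JetZS → H77.StdyS → SinS → PerS
def OfYz : Prop := YzS
def OfWl : Prop := WlS
def OfNh : Prop := ChaS → NhS
def OfNb : Prop := YzS → WlS → NhS → NbS
def OfTu : Prop := TuS
def OfBd : Prop := H77.Chart0S → H77.SmallS → BdS
def OfZnW : Prop := ZnWS
def OfZnM : Prop := ZnMS
def OfZon : Prop := CoreS → ZnWS → ZnMS → ZonS
def OfSm : Prop := Rep2S → CkS → PerS → NbS → TuS → BdS → ZonS → SmS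
def OfOsc : Prop := ChaS → OscS
def OfGeo : Prop := H77.NearS → OscS → GeoS

end Pool.Agent.MP_ed9623_an.S64
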