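import Pool.Agent.MP_ed9623_an.S64.SpecB

/-! The starting piece of the zone. -/

open MeasureTheory Filter Topology Set
open scoped ContDiff

namespace Pool.Agent.MP_ed9623_an.S64

open H64
open H77 (P E6 vl Rp)

namespace BNb

theorem eqn {U : Set P} {f g : P → ℝ} (hU : IsOpen U) (hf : ContinuousOn f U)
    (hg : ContinuousOn g U) (h : ∀ᵐ x, x ∈ U → f x = g x) : EqOn f g U :=
  Measure.eqOn_open_of_ae_eq ((ae_restrict_iff' hU.measurableSet).2 h) hU hf hg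

theorem cont {Ω U : Set P} {a : ℝ → E6} {A : Fin 2 → ST → ℝ} (h : Gr Ω a A) (hU : U ⊆ Ω)
    (j : Fin 2) (t : ℝ) : ContinuousOn (fun y => A j (t, y)) U :=
  (h.sm j).continuousOn.comp (Continuous.prodMk_right t).continuousOn fun _ a => hU a

theorem agr {ρ : P → ℝ} {x : P} {t₀ η : ℝ} {w : ℝ → E6} {V W : Fin 2 → ST → ℝ}
    (hρ : Continuous ρ) (hV : Rp ρ x t₀ η w V) (hW : Gr {x | ρ x < 0} w W) {z : ST}
    (h1 : z.1 ∈ Metric.ball t₀ η) (h2 : z.2 ∈ {x | ρ x < 0} ∩ Metric.ball x η) (j : Fin 2) :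
    V j =ᶠ[𝓝 z] W j := by
  have o : IsOpen ({x | ρ x < 0} ∩ Metric.ball x η) :=
    (isOpen_lt hρ continuous_const).inter Metric.isOpen_ball
  filter_upwards [(Metric.isOpen_ball.prod o).mem_nhds ⟨h1, h2⟩] with y hy
  refine eqn o (f := fun p => V j (y.1, p))
    ((hV.c6 j).continuous.comp (Continuous.prodMk_right y.1)).continuousOn
    (cont hW inter_subset_left j y.1) ?_ hy.2
  filter_upwards [hV.ae j y.1 hy.1, hW.ae y.1 j] with p a b c
  rw [a c, b c.1]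

end BNb

open BNb in
theorem rowNb : OfNb := by
  intro yz wl nh ρ x n a w A W hρ h0 hd hc ⟨⟨ε, hε, ha⟩, hY, t₁, η₁, V₁, hη₁, r₁, z₁, v₁⟩ gA gW ck
  obtain ⟨N, oN, cN, sN, nN⟩ := nh ρ x ε hρ h0 hd hε
  have := mem_closure_iff_nhdsWithin_neBot.1 (mem_closure_neg h0 hd)
  have nb : ∀ δ, 0 < δ → ∀ᶠ y in 𝓝[{x | ρ x < 0}] x, y ∈ N ∧ y ∈ Metric.ball x δ := fun δ hδ =>
    (show ∀ᶠ y in 𝓝[{x | ρ x < 0}] x, y ∈ N from nN).and
      (mem_nhdsWithin_of_mem_nhds (Metric.ball_mem_nhds x hδ))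
  have A0 : ∀ y ∈ N, ∀ t j, A j (t, y) = 0 := fun y hy t j => by
    refine eqn oN (cont gA (fun _ b => (sN b).1) j t) continuousOn_const ?_ hy
    filter_upwards [gA.ae t j, ha t j] with p b c d
    rw [b (sN d).1, c (sN d).2]
  refine ⟨N, cN, interior_maximal (fun y hy => ⟨(sN hy).1, fun t j => ⟨A0 y hy t j, ?_⟩⟩) oN,
    fun e he => ?_⟩
  · obtain ⟨η, V, hη, r, z, v⟩ := hY t
    obtain ⟨δ, hδ, k⟩ := yz ρ x t η n V hρ h0 hc hη z v
    obtain ⟨x₀, b1, b2⟩ := (nb _ (lt_min hδ hη)).exists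
    refine (uc_connected oN cN Metric.isOpen_ball (W₁ := Yf n W j) (W₂ := Yf n W j)
      (Cf := fun _ => 0) continuous_const (fun q _ hq => ?_) b1 ?_ y hy t
      (Metric.mem_ball_self hη)).1
    · obtain ⟨O, α, ψ, c1, -, c2⟩ := ck _ (sN hq).1
      have := (c2.heat (n := n) c1 (((continuous_snd.tendsto q).eventually (oN.mem_nhds hq)).mono
        fun p hp => A0 p.2 hp p.1)).1 j
      exact ⟨this.1, this.1, by simp [this.2]⟩
    · filter_upwards [(oN.inter Metric.isOpen_ball).mem_nhds ⟨b1, b2⟩] with p hp s hs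
      have e := agr hρ.continuous r gW (z := (s, p)) hs
        ⟨(sN hp.1).1, Metric.ball_subset_ball (min_le_right _ _) hp.2⟩ j
      have := k (s, p) hs (Metric.ball_subset_ball (min_le_left _ _) hp.2) (sN hp.1).1 j
      rw [Yf, pd_congr_pt e0 (pd_congr e0 e), e.eq_of_nhds] at this
      exact ⟨this, this⟩
  · obtain ⟨y, b, c1, c2⟩ :=
      ((wl ρ x t₁ η₁ V₁ e hρ h0 hc hη₁ z₁ v₁ he).and_eventually (nb _ hη₁)).exists
    have k := agr hρ.continuous r₁ gW (z := (t₁, y)) (Metric.mem_ball_self hη₁) ⟨(sN c1).1, c2⟩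
    refine ⟨(t₁, y), c1, ?_⟩
    rwa [Bf, pd_congr_pt e1 (k 1), pd_congr_pt e2 (k 1), pd_congr_pt e2 (k 0)] at b

end Pool.Agent.MP_ed9623_an.S64
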