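import Pool.Agent.MP_ed9623_an.S64.SpecG

/-! The end of a straight piece of the boundary of the zone. -/

open Filter Topology Set
open scoped ContDiff

namespace Pool.Agent.MP_ed9623_an.S64

open H64

namespace GStep

/-- A differentiable function whose derivative vanishes on one side of `c` is constant there. -/
theorem side_const {g g' : ℝ → ℝ} {c : ℝ} {l : Filter ℝ} (hl : l = 𝓝[<] c ∨ l = 𝓝[>] c)
    (hg : ∀ s, HasDerivAt g (g' s) s) (h : ∀ᶠ a in l, g' a = 0) : ∀ᶠ a in l, g a = g c := by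
  have hc : Continuous g := continuous_iff_continuousAt.2 fun s => (hg s).continuousAt
  rcases hl with rfl | rfl
  · obtain ⟨u, hu, hs⟩ := mem_nhdsLT_iff_exists_Ioo_subset.1 h
    filter_upwards [Ioo_mem_nhdsLT hu] with a ha
    obtain ⟨x, hx, e⟩ := exists_hasDerivAt_eq_slope g g' ha.2 hc.continuousOn fun s _ => hg s
    have z : g' x = 0 := hs ⟨ha.1.trans hx.1, hx.2⟩
    rw [z, eq_div_iff (sub_pos.2 ha.2).ne'] at e
    linarith
  · obtain ⟨u, hu, hs⟩ := mem_nhdsGT_iff_exists_Ioo_subset.1 h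
    filter_upwards [Ioo_mem_nhdsGT hu] with a ha
    obtain ⟨x, hx, e⟩ := exists_hasDerivAt_eq_slope g g' ha.1 hc.continuousOn fun s _ => hg s
    have z : g' x = 0 := hs ⟨hx.1, hx.2.trans ha.2⟩
    rw [z, eq_div_iff (sub_pos.2 ha.1).ne'] at e
    linarith

theorem side_ev {P : ℝ → Prop} {c : ℝ} {l : Filter ℝ} (hl : l = 𝓝[<] c ∨ l = 𝓝[>] c)
    (h : ∀ᶠ a in l, P a) : ∀ᶠ a in l, ∀ᶠ b in 𝓝 a, P b := by
  rcases hl with rfl | rfl
  · obtain ⟨u, hu, hs⟩ := mem_nhdsLT_iff_exists_Ioo_subset.1 h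
    filter_upwards [Ioo_mem_nhdsLT hu] with a ha
    exact mem_of_superset (isOpen_Ioo.mem_nhds ha) hs
  · obtain ⟨u, hu, hs⟩ := mem_nhdsGT_iff_exists_Ioo_subset.1 h
    filter_upwards [Ioo_mem_nhdsGT hu] with a ha
    exact mem_of_superset (isOpen_Ioo.mem_nhds ha) hs

theorem lim_zero {g : ℝ → ℝ} {c : ℝ} {l : Filter ℝ} [l.NeBot] (hl : l ≤ 𝓝 c) (hg : Continuous g)
    (h : ∀ᶠ a in l, g a = 0) : g c = 0 :=
  tendsto_nhds_unique ((hg.tendsto c).mono_left hl) (tendsto_const_nhds.congr' (h.mono fun _ a => a.symm))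

theorem ct_line (f : S3) (t y : ℝ) : Continuous fun a : ℝ => f.1 (t, a, y) :=
  continuous_iff_continuousAt.2 fun s => (hd_x1 f t s y).continuousAt

end GStep

open GStep in
theorem rowStep : OfStep := by
  intro hTP0 hTP hSw n α ψ O Z q l hL hq hl h ⟨t1, h1⟩ ⟨t2, h2⟩
  have hle : l ≤ 𝓝 q.1 := by rcases hl with rfl | rfl <;> exact nhdsWithin_le_nhds
  have : l.NeBot := by rcases hl with rfl | rfl <;> infer_instance
  have hqZ : q ∉ Z := fun a => by
    obtain ⟨b, c, d⟩ := (h.and (hle (((Continuous.prodMk_left q.2).tendsto q.1).eventually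
      (hL.oZ.mem_nhds a)))).exists
    exact c.1.nm d
  have p1 : ∀ t, (DS.d 1 ψ).1 (t, q) = 0 := fun t =>
    lim_zero hle (ct_line (DS.d 1 ψ) t q.2) (h.mono fun _ a => a.2 t)
  have p11 : (DS.d 1 (DS.d 1 ψ)).1 (t2, q) = 0 :=
    lim_zero hle (ct_line (DS.d 1 (DS.d 1 ψ)) t2 q.2) ((side_ev hl h).mono fun a b =>
      (hd_x1 (DS.d 1 ψ) t2 a q.2).unique ((hasDerivAt_const _ _).congr_of_eventuallyEq
        (b.mono fun _ c => c.2 t2)))
  have hdet : (DS.det ψ).1 (t2, q) ≠ 0 := by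
    rw [DR.det, val_sub, val_mul, val_pow, p11, zero_mul, zero_sub, neg_ne_zero]
    exact pow_ne_zero 2 h2
  obtain ⟨c, hc⟩ : ∃ c, c = (DS.d 2 ψ).1 (t1, q) := ⟨_, rfl⟩
  have e1 : ∀ x, (d1 (c • sl t1 ψ)).1 x = c * (DS.d 1 ψ).1 (t1, x) := fun x => by
    rw [map_smul, sl_d1]; rfl
  have e2 : ∀ x, (d2 (c • sl t1 ψ)).1 x = c * (DS.d 2 ψ).1 (t1, x) := fun x => by
    rw [map_smul, sl_d2]; rfl
  have hpos : 0 < (d2 (c • sl t1 ψ)).1 q := by
    rw [e2, ← hc]; exact mul_self_pos.2 (hc ▸ h1)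
  have hsw := hSw Z (c • sl t1 ψ) q hL.oZ hpos (by
    filter_upwards [hL.oO.mem_nhds hq,
      ((Continuous.prodMk_right t2).tendsto q).eventually (ev_ne hdet)] with x a b Φ hΦ
    rw [e1, e2]
    linear_combination c * hTP n α ψ O Z x Φ t2 hL a hΦ b t1) (by
    refine Frequently.filter_mono (Eventually.frequently (f := l) ?_) hle
    filter_upwards [h, side_const hl (fun s => hd_x1 ψ t1 s q.2) (h.mono fun _ a => a.2 t1)]
      with a b d
    refine ⟨congrArg (c * ·) d, ?_⟩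
    exact eventually_nhdsWithin_iff.2 ((((Continuous.prodMk_right a).tendsto q.2).eventually
      b.1.1.2).mono fun y e f => e f))
  have hn : (d2 (-(c • sl t1 ψ))).1 q < 0 := by rw [map_neg, val_neg]; exact neg_neg_of_pos hpos
  refine hTP0 n α ψ O Z q (-(c • sl t1 ψ)) t2 hL hq ⟨hqZ, Or.inr hn.ne, hsw.mono fun y a b => a ?_⟩
    (by rw [map_neg, val_neg, e1, p1, mul_zero, neg_zero]) hn hdet
  exact neg_lt_neg_iff.1 b

end Pool.Agent.MP_ed9623_an.S64
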