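import Pool.Agent.MP_ed9623_an.S64.SpecB

/-! Cut-off of smooth functions. -/

open Filter Topology Set
open scoped ContDiff

namespace Pool.Agent.MP_ed9623_an.S64

open H64

namespace BCut

theorem cut {E : Type} [NormedAddCommGroup E] [NormedSpace ℝ E] {Ω : Set PP} (hΩ : IsOpen Ω)
    {x : PP} (b : ContDiffBump x) (hb : tsupport b ⊆ Ω) {φ : E → PP} (hφ : ContDiff ℝ ∞ φ)
    {F : E → ℝ} (hF : ContDiffOn ℝ ∞ F {z | φ z ∈ Ω}) :
    ∃ f : SA E, ∀ z, φ z ∈ Metric.ball x b.rIn → f.1 z = F z := by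
  refine ⟨mkS (fun z => b (φ z) * F z) (contDiff_iff_contDiffAt.2 fun z => ?_), fun z hz => ?_⟩
  · by_cases h : φ z ∈ Ω
    · exact (b.contDiff.comp hφ).contDiffAt.mul
        (hF.contDiffAt ((hΩ.preimage hφ.continuous).mem_nhds h))
    · refine (contDiffAt_const (c := (0 : ℝ))).congr_of_eventuallyEq ?_
      filter_upwards [(hφ.continuous.tendsto z).eventually
        (notMem_tsupport_iff_eventuallyEq.1 fun a => h (hb a))] with w hw
      rw [hw]; simp
  · change b (φ z) * F z = F z
    rw [b.one_of_mem_closedBall (Metric.ball_subset_closedBall hz), one_mul]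

end BCut

theorem rowCut : OfCut := fun Ω hΩ x hx => by
  obtain ⟨r, hr, h⟩ := Metric.isOpen_iff.1 hΩ x hx
  let b : ContDiffBump x := ⟨r / 3, r / 2, by positivity, by linarith⟩
  have hb : tsupport b ⊆ Ω := by
    rw [b.tsupport_eq]
    exact (Metric.closedBall_subset_ball (by simp only [b]; linarith)).trans h
  exact ⟨r / 3, by positivity, (Metric.ball_subset_ball (by linarith)).trans h,
    fun F hF => BCut.cut hΩ b hb contDiff_snd hF, fun G hG => BCut.cut hΩ b hb contDiff_id hG⟩

end Pool.Agent.MP_ed9623_an.S64
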