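import Pool.Agent.MP_ed9623_an.S64.SpecB
import Pool.Agent.MP_ed9623_an.H14.AnaC

/-! The classical equation of the half difference. -/

open MeasureTheory Filter Topology Set
open scoped ContDiff

namespace Pool.Agent.MP_ed9623_an.S64

open H64
open H77 (P E6 Test ip vl gj ee di tl VF Cl0S E1)
open H77.AnaC

namespace BEq1

variable {N : Set P} {θ : P → ℝ}

theorem ip_single (z : Fin 2 → P → ℝ) (j : Fin 2) :
    ip z (Pi.single j θ) = ∫ x, z j x * θ x := by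
  fin_cases j <;> simp [ip]

theorem di_single (d : Fin 2 → Fin 2 → P → ℝ) (j : Fin 2) :
    di (fun _ => 0) d (Pi.single j θ) = ∑ i, ∫ x, d j i x * H77.dd (fun _ => 0) i θ x := by
  have z : ∀ e : P, pd e (0 : P → ℝ) = 0 := pd_zero_fun
  fin_cases j <;> simp [di, H77.dd_zero, z]

theorem tl_single (a w : Fin 2 → P → ℝ) (j : Fin 2) :
    tl (fun _ => 0) a w (Pi.single j θ) = ∑ i, ∫ x, a i x * w j x * H77.dd (fun _ => 0) i θ x :=
  di_single (fun j i x => a i x * w j x) j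

theorem grad (hC : Cl0S) (hN : IsOpen N) {v : Fin 2 → P → ℝ} {d : Fin 2 → Fin 2 → P → ℝ}
    {a : Fin 2 → SA PP} (hv : VF (fun _ => 0) v d) (ha : ∀ j, ∀ᵐ p, p ∈ N → (a j).1 p = v j p) :
    (∀ j i, ∀ᵐ p, p ∈ N → (D (ee i) (a j)).1 p = d j i p) ∧
      ∀ x ∈ N, (d1 (a 0) + d2 (a 1)).1 x = 0 := by
  obtain ⟨c1, c2, -⟩ := hC N hN
  have hd : ∀ j i, ∀ᵐ p, p ∈ N → (D (ee i) (a j)).1 p = d j i p := fun j i =>
    c2 _ _ _ _ ((a j).cd 1) ((hv.h1 j).md i) (ha j)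
      (((H77.H1O.zero_iff.1 (hv.h1 j)).2 i).2.mono (subset_univ _))
  refine ⟨hd, c1 _ (SA.ct _) fun θ hθ => ?_⟩
  rw [H77.int_test_congr (g := fun _ => 0) (fun _ => hθ.off)]
  · simp
  · filter_upwards [hd 0 0, hd 1 1, hv.dv] with p h0 h1 h2 hp
    exact (congrArg₂ (· + ·) (h0 hp) (h1 hp)).trans h2

theorem tl_pr (hθ : Test N θ) {v w : Fin 2 → P → ℝ} {a b : Fin 2 → SA PP}
    (ha : ∀ j, ∀ᵐ p, p ∈ N → (a j).1 p = v j p) (hb : ∀ j, ∀ᵐ p, p ∈ N → (b j).1 p = w j p)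
    (j : Fin 2) :
    tl (fun _ => 0) v w (Pi.single j θ) = -pr hθ (d1 (a 0 * b j) + d2 (a 1 * b j)) := by
  have hm : ∀ i, ∀ᵐ p, p ∈ N → (a i * b j).1 p = v i p * w j p := fun i => by
    filter_upwards [ha i, hb j] with p h0 h1 hp
    exact congrArg₂ (· * ·) (h0 hp) (h1 hp)
  rw [tl_single, Fin.sum_univ_two, pr_dd hθ 0 (hm 0), pr_dd hθ 1 (hm 1), map_add, neg_add]
  rfl

theorem slice (hC : Cl0S) (hN : IsOpen N) {v w y : Fin 2 → P → ℝ} {d : Fin 2 → Fin 2 → P → ℝ}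
    {a b z : Fin 2 → SA PP} (hw : VF (fun _ => 0) w d)
    (ha : ∀ j, ∀ᵐ p, p ∈ N → (a j).1 p = v j p) (hb : ∀ j, ∀ᵐ p, p ∈ N → (b j).1 p = w j p)
    (hz : ∀ j, ∀ᵐ p, p ∈ N → (z j).1 p = y j p)
    (he : ∀ ζ, (∀ j, Test N (ζ j)) → E1 (fun _ => 0) v w d y ζ) (j : Fin 2) : ∀ x ∈ N,
    (z j - (d1 (d1 (b j)) + d2 (d2 (b j))) + (d1 (a 0 * b j) + d2 (a 1 * b j))
      + (d1 (b 0 * a j) + d2 (b 1 * a j))).1 x = 0 := by
  refine (hC N hN).1 _ (SA.ct _) fun θ hθ => ?_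
  have hd := (grad hC hN hw hb).1
  have e := he _ (H77.test_single hθ j)
  rw [E1, tl_pr hθ ha hb, tl_pr hθ hb ha, ip_single, pr_ae hθ (hz j), di_single, Fin.sum_univ_two,
    pr_dd hθ 0 (hd j 0), pr_dd hθ 1 (hd j 1)] at e
  change pr hθ _ = 0
  rw [map_add (pr hθ), map_add (pr hθ), map_sub (pr hθ), map_add (pr hθ) (d1 (d1 _))]
  change _ + (-pr hθ (d1 (d1 (b j))) + -pr hθ (d2 (d2 (b j)))) - _ - _ = 0 at e
  linarith

end BEq1

open BEq1 in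
theorem rowEq1 : OfEq1 := by
  rintro hC Ω N g R a w u v hN hΩ hP hu hv ⟨t, x⟩ hx
  have va := (H77.mem_VZ.1 (hP.ma t)).1
  have vw := (H77.mem_VZ.1 (hP.mw t)).1
  have da := (grad hC hN (a := fun j => sl t (u j)) va (hu t)).2 x hx
  have dw := (grad hC hN (a := fun j => sl t (v j)) vw (hv t)).2 x hx
  have hz : ∀ j, ∀ᵐ p, p ∈ N → (sl t (DS.d 0 (v j))).1 p = vl (deriv w t) j p := fun j => by
    have := (hC _ hN).2.2 (v j).1 (H77.cp w (j, none)) t ((v j).cd 1) (H77.sm_cp hP.sw _)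
      (Eventually.of_forall fun s => hv s j)
    rwa [H77.deriv_cp hP.sw] at this
  simp only [sl_d1, sl_d2, val_add, sl_val] at da dw
  refine ⟨da, dw, fun j => ?_⟩
  have := slice hC hN (a := fun j => sl t (u j)) (b := fun j => sl t (v j)) vw (hu t) (hv t) hz
    (fun ζ hζ => hP.e1 t ζ fun j => (hζ j).mono hΩ) j x hx
  simp only [D_mul, sl_d1, sl_d2, val_add, val_sub, val_mul, sl_val] at this
  simp only [DR.ht, DR.lap, DR.V, val_add, val_sub, val_mul]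
  linear_combination this - (v j).1 (t, x) * da - (u j).1 (t, x) * dw

end Pool.Agent.MP_ed9623_an.S64
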