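import Pool.Agent.MP_ed9623_an.S64.SpecB
import Pool.Agent.MP_ed9623_an.H14.AnaC

/-! The classical vorticity equation. -/

open MeasureTheory Filter Topology Set
open scoped ContDiff

namespace Pool.Agent.MP_ed9623_an.S64

open H64
open H77 (P L E6 M2 Van Test ip perp vl gj Sv Pv TU Rp Zn vo Circ ee)

theorem rowEq2 : OfEq2 := by
  intro hC Ω N g G R U u hN hΩ hg hU hG hu ⟨s, x⟩ hx
  have hz : ∀ j, ∀ᵐ p, p ∈ N → (sl s (DS.d 0 (u j))).1 p = vl (deriv U s) j p := by
    intro j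
    have := (hC _ hN).2.2 (u j).1 (H77.cp U (j, none)) s ((u j).cd 1)
      (H77.sm_cp hU.1 _) (Eventually.of_forall fun t => hu t j)
    rwa [H77.deriv_cp hU.1] at this
  have hv : U s ∈ H77.VZ univ := H77.mem_VZ.2 ⟨(hU.2 s).vf,
    fun ix => Eventually.of_forall fun p hp => absurd trivial hp⟩
  have := (H77.AnaC.slice hC hN (a := fun j => sl s (u j)) (G := G) hv hg (hu s) hz
    (fun θ hθ => (hU.2 s).eq θ (hθ.mono fun p hp => by simpa using hΩ hp)) hG x hx).2
  simp only [sl_d1, sl_d2, ← map_sub, ← map_add, ← map_mul] at this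
  rw [DR.ht, DR.dv, DR.lap, map_sub (DS.d 0), ← DS.c10, ← DS.c20]
  exact sub_eq_zero.1 this

end Pool.Agent.MP_ed9623_an.S64
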