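import Pool.Agent.MP_ed9623_an.S64.SpecB

/-! Gluing of local representatives. -/

open MeasureTheory Filter Topology Set
open scoped ContDiff

namespace Pool.Agent.MP_ed9623_an.S64

open H64

theorem rowGlue : OfGlue := by
  intro Ω W hΩ h
  choose! F ε e0 hF using h
  have key : ∀ z : ST, z.2 ∈ Ω → (fun y : ST => (F y.1 y.2).1 y) =ᶠ[𝓝 z] (F z.1 z.2).1 := by
    intro z hz
    filter_upwards [(continuous_fst.tendsto z).eventually (hF z.1 z.2 hz),
      (continuous_snd.tendsto z).eventually (Metric.ball_mem_nhds z.2 (e0 z.1 z.2 hz)),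
      (continuous_snd.tendsto z).eventually (hΩ.mem_nhds hz)] with y a b c
    have o := (Metric.isOpen_ball (x := y.2) (ε := ε y.1 y.2)).inter
      (Metric.isOpen_ball (x := z.2) (ε := ε z.1 z.2))
    have ct : ∀ f : S3, Continuous fun p : PP => f.1 (y.1, p) := fun f =>
      f.ct.comp (Continuous.prodMk_right y.1)
    refine Measure.eqOn_open_of_ae_eq (μ := volume) ((ae_restrict_iff' o.measurableSet).2 ?_) o
      (ct (F y.1 y.2)).continuousOn (ct (F z.1 z.2)).continuousOn
      ⟨Metric.mem_ball_self (e0 y.1 y.2 c), b⟩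
    filter_upwards [a, (hF y.1 y.2 c).self_of_nhds] with p d e f
    exact (e f.1).trans (d f.2).symm
  refine ⟨fun y => (F y.1 y.2).1 y, fun z hz =>
    ((F z.1 z.2).sm.contDiffAt.congr_of_eventuallyEq (key z hz)).contDiffWithinAt,
    fun t => H77.ae_of_loc fun x hx => ⟨_, inter_mem (Metric.ball_mem_nhds x (e0 t x hx))
      (((Continuous.prodMk_right t).tendsto x).eventually (key (t, x) hx)), ?_⟩⟩
  filter_upwards [(hF t x hx).self_of_nhds] with p a b
  exact Eq.trans b.2 (a b.1)

end Pool.Agent.MP_ed9623_an.S64
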