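import Pool.Agent.MP_ed9623_an.S64.SpecB

/-! Connected one-sided neighbourhoods. -/

open Filter Topology Set

namespace Pool.Agent.MP_ed9623_an.S64

open H64

namespace BNh

/-- the shear along a graph -/
def sh (γ : ℝ → ℝ) (h : Continuous γ) : PP ≃ₜ PP where
  toFun y := (y.1, y.2 + γ y.1)
  invFun y := (y.1, y.2 - γ y.1)
  left_inv y := by simp
  right_inv y := by simp
  continuous_toFun := by fun_prop
  continuous_invFun := by fun_prop

end BNh

open BNh in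
theorem rowNh : OfNh := by
  intro hC ρ x ε hρ h0 hd hε
  obtain ⟨τ, γ, hτ, g0, h⟩ := hC (mkS ρ hρ) x h0 (by
    by_contra hn
    refine hd (ContinuousLinearMap.ext fun v => (D_dir2 v (mkS ρ hρ) x).trans ?_)
    rw [not_not.1 (not_or.1 hn).1, not_not.1 (not_or.1 hn).2]
    simp)
  let s := sh γ.1 γ.ct
  let H := s.trans (mvH x τ hτ)
  have s0 : s 0 = 0 := Prod.ext rfl ((zero_add _).trans g0)
  have H0 : H 0 = x := (congrArg (mv x τ) s0).trans (mv_zero x τ)
  obtain ⟨δ, hδ, hb⟩ := Metric.eventually_nhds_iff_ball.1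
    (((s.continuous.tendsto' 0 0 s0).eventually h).and
      ((H.continuous.tendsto' 0 x H0).eventually (Metric.ball_mem_nhds x hε)))
  have k : ∀ y ∈ Metric.ball (0 : PP) δ, ρ (H y) < 0 ↔ 0 < y.2 := fun y hy =>
    (hb y hy).1.1.trans (lt_add_iff_pos_left _)
  refine ⟨H '' (Metric.ball 0 δ ∩ {y | 0 < y.2}),
    H.isOpenMap _ (Metric.isOpen_ball.inter (isOpen_lt continuous_const continuous_snd)),
    ((convex_ball _ _).inter (convex_halfSpace_gt (LinearMap.snd ℝ ℝ ℝ).isLinear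
      0)).isPreconnected.image _ H.continuous.continuousOn, ?_, ?_⟩
  · rintro _ ⟨y, hy, rfl⟩
    exact ⟨(k y hy.1).2 hy.2, (hb y hy.1).2⟩
  · refine mem_nhdsWithin_iff_exists_mem_nhds_inter.2 ⟨H '' Metric.ball 0 δ,
      H0 ▸ H.isOpenMap.image_mem_nhds (Metric.ball_mem_nhds 0 hδ), ?_⟩
    rintro _ ⟨⟨y, hy, rfl⟩, hr⟩
    exact ⟨y, ⟨hy, (k y hy).1 hr⟩, rfl⟩

end Pool.Agent.MP_ed9623_an.S64
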