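import Pool.Agent.MP_ed9623_an.S64.SpecB
import Pool.Agent.MP_ed9623_an.H64.Unique3

/-! The trichotomy at a convex boundary point with varying curvature. -/

open MeasureTheory Filter Topology Set
open scoped ContDiff

namespace Pool.Agent.MP_ed9623_an.S64

open H64 H77

theorem rowPer : OfPer := by
  intro hC hU hA hCl hDp hGl hCT hSp hCi hZo hJ hSt hSi ρ x g R a w hρ hreg hb hc hx hk hd hP hT
  refine or_iff_not_imp_left.2 fun hw => ?_
  obtain ⟨τ, γ, r, ch, hγ, hz⟩ := hC ρ x hρ hx hk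
  have o : IsOpen {x | ρ x < 0} := isOpen_lt hρ.continuous continuous_const
  obtain ⟨I, ε, oI, ⟨t₂, ht₂⟩, sub, e, h | h⟩ :=
    hA _ x τ γ r R (-1) 0 g a w o ch hγ hP (by norm_num)
  · exact (hw ⟨t₂, (sub ht₂).2.le, hU _ x τ γ r R ε g a w I o hc ch hP oI e h t₂ ht₂⟩).elim
  have hv := hT _ I oI ⟨t₂, ht₂⟩ h
  obtain ⟨O, ζ₀, oO, xO, hD, hO⟩ : ∃ O ζ₀, IsOpen O ∧ x ∈ O ∧ Dfc {x | ρ x < 0} O ζ₀ ∧
      (IsPreconnected {x | ρ x = 0} → O = univ) := by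
    by_cases hp : IsPreconnected {x | ρ x = 0}
    · obtain ⟨ζ₀, h⟩ := hGl ρ univ x hρ hreg isOpen_univ (by rwa [inter_univ]) hx trivial
      exact ⟨univ, ζ₀, isOpen_univ, trivial, h, fun _ => rfl⟩
    · obtain ⟨ζ₀, h⟩ := hDp _ x τ γ r o ch
      exact ⟨_, ζ₀, (ch.nhds ch.r0).1, mem_of_mem_nhds (ch.nhds ch.r0).2, h, fun h => absurd h hp⟩
  obtain ⟨δ, δ0, hδ⟩ :=
    Metric.mem_nhds_iff.1 (inter_mem (oO.mem_nhds xO) (Metric.ball_mem_nhds x e))
  obtain ⟨sc, C, bc⟩ := hCT _ g R a w ζ₀ hP fun j => (hD.1 j).top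
  have hS := fun c => hSp _ g R c a w ζ₀ o hb hP
  have hX : ∀ t ζ, (∀ j, Test (Metric.ball x δ) (ζ j)) → Tx (fun _ => 0) (vl (a t)) (vl (w t))
      (gj (w t)) (vl (deriv w t)) ζ = cT a w ζ₀ t * ∫ q in {x | ρ x < 0}, crl (fun _ => 0) ζ q :=
    fun t ζ hζ => hD.2.2 _ _ _ _ _ _ (hP.fl t) ζ fun j => (hζ j).mono (hδ.trans inter_subset_left)
  generalize cT a w ζ₀ = c at sc bc hS hX
  choose η W η0 hR hZ hG using fun t₀ => hZo ρ x τ γ r R ε t₀ g a w hρ.continuous ch hz hP e hv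
  have m := fun t => Metric.mem_ball_self (x := t) (η0 t)
  have cω : ∀ t, ContDiff ℝ (5 : ℕ) (vo (W t)) := fun t => cd_vort ((hZ t).c6 0) ((hZ t).c6 1)
  have d0 : ∀ t₀, ∀ t ∈ Metric.ball t₀ (η t₀), vo (W t₀) (t, x) = c t := fun t₀ t ht =>
    hCi ρ x τ γ r t₀ (η t₀) δ t (c t) w (W t₀) _ hρ.continuous ch (hP.mw t) (hR t₀) ht δ0 (m2_vl _)
      fun ζ hζ => (Tx_van (fun j => (hζ j).mono (hδ.trans inter_subset_right)) (hv t)).symm.trans
        (hX t ζ hζ)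
  have dq : ∀ (F : ST → ℝ) (f : ℝ → ℝ) (t₀ : ℝ), ContDiff ℝ (1 : ℕ) F →
      (∀ t ∈ Metric.ball t₀ (η t₀), F (t, x) = f t) →
      ∀ t ∈ Metric.ball t₀ (η t₀), pd e0 F (t, x) = deriv f t := fun F f t₀ hF h t ht => by
    rw [← (hasDerivAt_time hF x t).deriv]
    exact EventuallyEq.deriv_eq (mem_of_superset (Metric.isOpen_ball.mem_nhds ht) h)
  have d1 := fun t₀ => dq _ _ t₀ (cdg_le (cω t₀) (by norm_num)) (d0 t₀)
  have d2 := fun t₀ => dq _ _ t₀ (cdg_le (contDiff_pd (n := 4) e0 (cω t₀)) (by norm_num)) (d1 t₀)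
  obtain ⟨t₁, h₁⟩ : ∃ t₁, c t₁ ≠ 0 := by
    by_contra n
    push Not at n
    exact hw ⟨0, le_rfl, hU _ x τ γ r R δ g a w univ o hc ch hP isOpen_univ δ0
      (fun t _ ζ hζ => E1_iff.2 (by rw [hX t ζ hζ, n, zero_mul])) 0 trivial⟩
  obtain ⟨K, K0, hK⟩ := hJ ρ x hρ hx hk
  have cl := mem_closure_neg hx (hreg x hx)
  have nb := mem_closure_iff_nhdsWithin_neBot.1 cl
  have lim : ∀ t, c t ≠ 0 → Tendsto (fun y => cv (W t) (t, y) / ρ y ^ 6) (𝓝[{x | ρ x < 0}] x)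
      (𝓝 (K * (c t * deriv (deriv c) t - deriv c t ^ 2) * dcurvature ρ x)) := fun t ht => by
    rw [← d0 t t (m t), ← d2 t t (m t), ← d1 t t (m t)]
    exact hK t _ _ (hZ t) t (m t) (by rwa [d0 t t (m t)])
  have cc : ∀ t, Continuous fun y => cv (W t) (t, y) := fun t =>
    ((((hZ t).c6 0).continuous.mul (contDiff_pd (n := 4) e1 (cω t)).continuous).add
      (((hZ t).c6 1).continuous.mul (contDiff_pd (n := 4) e2 (cω t)).continuous)).comp
        (Continuous.prodMk_right t)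
  have eqv : ∀ t, ∀ᶠ y in 𝓝[{x | ρ x < 0}] x, cv (W t) (t, y) = cv (W t₁) (t₁, y) := fun t => by
    have := (hCl _ (o.inter (Metric.isOpen_ball (x := x) (ε := min (η t) (η t₁))))).1 _
      ((cc t).sub (cc t₁)) fun θ hθ => by
        have i : ∀ s, Integrable fun y => cv (W s) (s, y) * θ y := fun s =>
          ((cc s).mul hθ.ct).integrable_of_hasCompactSupport hθ.2.1.mul_left
        simp only [Pi.sub_apply, sub_mul]
        rw [integral_sub (i t) (i t₁), ← hG t t (m t) θ (hθ.mono (inter_subset_inter_right _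
          (Metric.ball_subset_ball (min_le_left _ _)))), ← hG t₁ t₁ (m t₁) θ (hθ.mono
            (inter_subset_inter_right _ (Metric.ball_subset_ball (min_le_right _ _)))), sub_self]
    filter_upwards [inter_mem_nhdsWithin _ (Metric.ball_mem_nhds x (lt_min (η0 t) (η0 t₁)))]
      with y hy using sub_eq_zero.1 (this y hy)
  have kk : ∀ t, c t ≠ 0 → c t * deriv (deriv c) t - deriv c t ^ 2 =
      c t₁ * deriv (deriv c) t₁ - deriv c t₁ ^ 2 := fun t ht =>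
    mul_left_cancel₀ K0.ne' (mul_right_cancel₀ hd (tendsto_nhds_unique
      ((lim t ht).congr' ((eqv t).mono fun y hy => by rw [hy])) (lim t₁ h₁)))
  rcases le_or_gt 0 (c t₁ * deriv (deriv c) t₁ - deriv c t₁ ^ 2) with hs | hs
  · have s1 := (contDiff_infty_iff_deriv.1 sc).2
    have cs := const_of_convex (sm_hasDerivAt sc) (sm_hasDerivAt s1) bc fun t ht => by
      rw [kk t ht]
      exact hs
    have z := hSt ρ x t₁ _ _ hρ hx hk (hZ t₁) (fun t ht => by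
      rw [d1 t₁ t ht, show c = fun _ => c t₁ from funext fun s => cs s t₁, deriv_const]) t₁ (m t₁)
    obtain ⟨δ', δ1, hδ'⟩ := Metric.mem_nhdsWithin_iff.1 z
    refine .inl ⟨fun hp => h₁ (hS _ (hO hp ▸ hD) fun t => cs t t₁), min δ' (η t₁),
      lt_min δ1 (η0 t₁), fun θ hθ => ?_⟩
    rw [← neg_eq_zero, hG t₁ t₁ (m t₁) θ (hθ.mono
      (inter_subset_inter_right _ (Metric.ball_subset_ball (min_le_right _ _))))]
    refine (integral_congr_ae (Eventually.of_forall fun y => ?_)).trans (integral_zero _ _)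
    by_cases hy : θ y = 0
    · simp [hy]
    · have := hθ.2.2 (subset_tsupport _ hy)
      rw [hδ' ⟨Metric.ball_subset_ball (min_le_left _ _) this.2, this.1⟩, zero_mul]
  · obtain ⟨n, n0, hn⟩ := hSi c C _ t₁ sc bc (neg_pos.2 hs) h₁ fun t ht => by
      rw [kk t ht, neg_neg]
    refine .inr ⟨n, n0, ⟨ε, e, hv⟩, fun t₀ => ⟨η t₀, W t₀, η0 t₀, hR t₀, hZ t₀, fun t ht => ?_⟩,
      t₁, η t₁, W t₁, η0 t₁, hR t₁, hZ t₁, by rwa [d0 t₁ t₁ (m t₁)]⟩
    rw [d2 t₀ t ht, d0 t₀ t ht]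
    exact hn t

end Pool.Agent.MP_ed9623_an.S64
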