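import Pool.Agent.MP_ed9623_an.S64.SpecB

/-! Stream functions on a square. -/

open Filter Topology Set
open scoped ContDiff

namespace Pool.Agent.MP_ed9623_an.S64

open H64

namespace BStrm

/-- A primitive in the second space variable. -/
theorem prim (f : S3) (c : ℝ) : ∃ p : S3, DS.d 2 p = f ∧ ∀ t s, p.1 (t, s, c) = 0 := by
  have hf := f.sm
  have h : ContDiff ℝ ∞ fun z : ST =>
      (z.2.2 - c) * ∫ r in (0 : ℝ)..1, f.1 (z.1, z.2.1, (z.2.2 - c) * r + c) :=
    ContDiff.mul (by fun_prop) (contDiff_infty.2 fun n => contDiff_param_integral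
      (K := fun q : ST × ℝ => f.1 (q.1.1, q.1.2.1, (q.1.2.2 - c) * q.2 + c))
      ((f.cd n).comp (by fun_prop)))
  refine ⟨mkS _ h, SA_ext fun z => (hd_x2 _ z.1 z.2.1 z.2.2).unique ?_, fun t s => by
    simp [mkS_val]⟩
  have e : ∀ y : ℝ, (mkS _ h).1 (z.1, z.2.1, y) = ∫ r in c..y, f.1 (z.1, z.2.1, r) := fun y => by
    simpa [mkS_val] using intervalIntegral.mul_integral_comp_mul_add
      (f := fun r => f.1 (z.1, z.2.1, r)) (a := 0) (b := 1) (y - c) c
  simp only [e]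
  exact (Continuous.integral_hasStrictDerivAt (f.ct.comp (by fun_prop)) c z.2.2).hasDerivAt

/-- A primitive along a horizontal line. -/
theorem prim1 (f : S3) (c : ℝ) : ∃ g : S3, DS.d 2 g = 0 ∧
    ∀ t s, (DS.d 1 g).1 (t, s, c) = f.1 (t, s, c) := by
  obtain ⟨p, h, -⟩ := prim (pb (fun z : ST => ((z.1, z.2.2, z.2.1) : ST)) (by fun_prop) f) 0
  refine ⟨pb (fun z : ST => ((z.1, c, z.2.1) : ST)) (by fun_prop) p, SA_ext fun z =>
    (hd_x2 _ z.1 z.2.1 z.2.2).unique (hasDerivAt_const _ (p.1 (z.1, c, z.2.1))),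
    fun t s => (hd_x1 _ t s c).unique ?_⟩
  have := hd_x2 p t c s
  rw [h] at this
  exact this

end BStrm

theorem rowStrm : OfStrm := by
  intro u v x r h
  obtain ⟨p, p2, p0⟩ := BStrm.prim u x.2
  obtain ⟨g, g2, g1⟩ := BStrm.prim1 v x.2
  have e2 : DS.d 2 (g - p) = -u := by rw [map_sub, p2, g2, zero_sub]
  refine ⟨g - p, fun z hz => ⟨sub_eq_zero.1 ?_, by rw [e2, val_neg]⟩⟩
  have e : DS.d 2 (DS.d 1 (g - p) - v) = -DS.dv u v := by
    rw [map_sub, DS.c21, e2, map_neg, DR.dv]; ring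
  rw [← ball_prod_same] at hz h
  have k := (Metric.isOpen_ball (x := x.2) (ε := r)).is_const_of_deriv_eq_zero
    (f := fun y => (DS.d 1 (g - p) - v).1 (z.1, z.2.1, y)) (convex_ball _ _).isPreconnected
    (fun y _ => (hd_x2 _ _ _ y).differentiableAt.differentiableWithinAt)
    (fun y hy => by rw [(hd_x2 _ _ _ y).deriv, e, val_neg, h (z.1, z.2.1, y) ⟨hz.1, hy⟩]; simp)
    hz.2 (Metric.mem_ball_self (Metric.pos_of_mem_ball hz.2))
  refine k.trans ?_
  have q : (DS.d 1 p).1 (z.1, z.2.1, x.2) = 0 :=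
    (hd_x1 p _ _ _).unique (by simpa only [p0] using hasDerivAt_const _ (0 : ℝ))
  simp only [map_sub, val_sub, g1, q, sub_zero, sub_self]

end Pool.Agent.MP_ed9623_an.S64
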