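import Pool.Agent.MP_ed9623_an.S64.SpecB
import Pool.Agent.MP_ed9623_an.H99.Tail

/-! The defect vanishes near a convex boundary point. -/

open MeasureTheory Filter Topology Set
open scoped ContDiff

namespace Pool.Agent.MP_ed9623_an.S64

open H64

open H77.Tail in
theorem rowYz : OfYz := by
  intro ρ x₀ t₀ ε n W hρ' h0 hk' ε0 Z hz
  have hρ : ∀ k : ℕ, ContDiff ℝ k ρ := fun k => hρ'.of_le (by exact_mod_cast le_top)
  have hk : 0 < curv2 ρ x₀ := by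
    by_contra h
    exact hk'.not_ge (div_nonpos_of_nonpos_of_nonneg (not_lt.1 h) (by positivity))
  have cW1 := Z.c6 0
  have cW2 := Z.c6 1
  have bW : ∀ y : ST, ρ y.2 = 0 → W 0 y = 0 ∧ W 1 y = 0 := fun y hy => ⟨Z.bd 0 y hy, Z.bd 1 y hy⟩
  have l3 := fun {f : ST → ℝ} (h : ContDiff ℝ (6 : ℕ) f) => cdg_le h (by norm_num : 3 ≤ 6)
  have cω := cd_vort (n := 3) (cdg_le cW1 (by norm_num)) (cdg_le cW2 (by norm_num))
  have cω1 := cdg_le cω (by norm_num : 1 ≤ 3)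
  have cω2 := contDiff_pd (n := 1) e0 (cdg_le cω (by norm_num))
  have hc := (curv2_cont (hρ 2)).continuousAt.eventually_ne hk.ne'
  obtain ⟨δ, δ0, hδ⟩ := Metric.eventually_nhds_iff_ball.1 ((hc.and (Metric.ball_mem_nhds x₀ ε0)).and
    (arc_loc (hρ 1).contDiffAt h0 (fderiv_ne_of_curv2 hk.ne')
      (hc.and (Metric.ball_mem_nhds x₀ ε0))))
  have ev : ∀ y : ST, y.1 ∈ Metric.ball t₀ ε → y.2 ∈ Metric.ball x₀ ε → ∀ᶠ z : ST in 𝓝 y,
      ρ z.2 < 0 → Lh (W 0) z = 0 ∧ Lh (W 1) z = 0 ∧ pd e1 (W 0) z + pd e2 (W 1) z = 0 :=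
    fun y a b => mem_of_superset ((Metric.isOpen_ball.prod Metric.isOpen_ball).mem_nhds ⟨a, b⟩)
      fun z hz k => let e := Z.eq z hz.1 hz.2 k; ⟨e.1, e.2.1, e.2.2.1⟩
  have ar : ∀ x ∈ Metric.ball x₀ δ, ρ x = 0 → ∀ s ∈ Metric.ball t₀ ε,
      vort (W 0) (W 1) (s, x) = vort (W 0) (W 1) (s, x₀) := fun x hx hx' s hs =>
    (hδ x hx).2 hx' _ (fun x => cdg_diff (cω1.comp
      (by fun_prop : ContDiff ℝ (1 : ℕ) fun x : ℝ × ℝ => ((s, x) : ST))) le_rfl x) fun y a b =>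
        gradV (hρ 0).continuous (l3 cW1) (l3 cW2) bW b (fderiv_ne_of_curv2 a.1) (ev (s, y) hs a.2)
  have uc := vec_uc (a := 1) (b := 0) (c := n) hρ h0 (fderiv_ne_of_curv2 hk.ne') δ0
    Metric.isOpen_ball cW1 cW2 (fun y j1 j2 => (ev y j1 (hδ _ j2).1.2).self_of_nhds) bW
    fun y j1 j2 j3 => ⟨(hδ _ j2).1.1, by
      unfold H64.Tm
      rw [time_loc cω2 cω2 Metric.isOpen_ball (time_loc cω1 cω1 Metric.isOpen_ball
        (ar y.2 j2 j3)) y.1 j1, ar y.2 j2 j3 y.1 j1, zero_mul, one_mul, add_zero]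
      exact hz _ j1⟩
  refine ⟨δ, δ0, fun z a b c => ?_⟩
  obtain ⟨u1, u2⟩ := uc z a b c
  unfold H64.Tm at u1 u2
  exact Fin.forall_fin_two.2 ⟨by rw [Yf]; linarith, by rw [Yf]; linarith⟩

end Pool.Agent.MP_ed9623_an.S64
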