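import Pool.Agent.MP_ed9623_an.S64.SpecG

/-! Touching points are dense in the boundary. -/

open Filter Topology Set
open scoped ContDiff

namespace Pool.Agent.MP_ed9623_an.S64

open H64

namespace GDisc

/-- Minus the square of the distance to `c`. -/
noncomputable def ph (c : PP) : SA PP :=
  mkS (fun y => -((y.1 - c.1) ^ 2 + (y.2 - c.2) ^ 2)) (by fun_prop)

theorem ph_val (c y : PP) : (ph c).1 y = -((y.1 - c.1) ^ 2 + (y.2 - c.2) ^ 2) := rfl

theorem ph_d1 (c q : PP) : (d1 (ph c)).1 q = -(2 * (q.1 - c.1)) := by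
  have a := hd_comp (ph c) ((hasDerivAt_id q.1).prodMk (hasDerivAt_const q.1 q.2))
  have b : HasDerivAt (fun s : ℝ => -((s - c.1) ^ 2 + (q.2 - c.2) ^ 2)) (-(2 * (q.1 - c.1))) q.1 := by
    exact ((((hasDerivAt_id q.1).sub_const c.1).pow 2).add_const ((q.2 - c.2) ^ 2)).neg.congr_deriv
      (by simp)
  exact a.unique b

theorem ph_d2 (c q : PP) : (d2 (ph c)).1 q = -(2 * (q.2 - c.2)) := by
  have a := hd_comp (ph c) ((hasDerivAt_const q.2 q.1).prodMk (hasDerivAt_id q.2))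
  have b : HasDerivAt (fun s : ℝ => -((q.1 - c.1) ^ 2 + (s - c.2) ^ 2)) (-(2 * (q.2 - c.2))) q.2 := by
    exact ((((hasDerivAt_id q.2).sub_const c.2).pow 2).const_add ((q.1 - c.1) ^ 2)).neg.congr_deriv
      (by simp)
  exact a.unique b

end GDisc

open GDisc

theorem rowDisc : OfDisc := by
  intro Z N x hZ hx hx' hN
  obtain ⟨r, hr, hrN⟩ := Metric.nhds_basis_closedBall.mem_iff.1 hN
  obtain ⟨c, hc, hd⟩ := Metric.mem_closure_iff.1 hx (r / 4) (by positivity)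
  obtain ⟨q, hq, hqZ, hle, hm⟩ := exists_max (Φ := (ph c).1) hZ (isCompact_closedBall x r)
    (ph c).ct.continuousOn (Metric.mem_closedBall_self hr.le) hx'
  rw [Prod.dist_eq, max_lt_iff, Real.dist_eq, Real.dist_eq, abs_lt, abs_lt] at hd
  rw [ph_val, ph_val] at hle
  have h1 : (x.1 - c.1) ^ 2 < (r / 4) ^ 2 := sq_lt_sq' hd.1.1 hd.1.2
  have h2 : (x.2 - c.2) ^ 2 < (r / 4) ^ 2 := sq_lt_sq' hd.2.1 hd.2.2
  have h3 : |q.1 - c.1| < r / 2 :=
    abs_lt_of_sq_lt_sq (by nlinarith [sq_nonneg (q.2 - c.2)]) (by positivity)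
  have h4 : |q.2 - c.2| < r / 2 :=
    abs_lt_of_sq_lt_sq (by nlinarith [sq_nonneg (q.1 - c.1)]) (by positivity)
  rw [abs_lt] at h3 h4
  have hb : q ∈ Metric.ball x r := by
    rw [Metric.mem_ball, Prod.dist_eq, max_lt_iff, Real.dist_eq, Real.dist_eq, abs_lt, abs_lt]
    refine ⟨⟨?_, ?_⟩, ?_, ?_⟩ <;> linarith [hd.1.1, hd.1.2, hd.2.1, hd.2.2, h3.1, h3.2, h4.1, h4.2]
  refine ⟨q, hrN hq, ph c, hqZ, ?_, ?_⟩
  · by_contra! e
    rw [ph_d1, ph_d2] at e
    have : q = c := Prod.ext (by linarith [e.1]) (by linarith [e.2])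
    exact hqZ (this ▸ hc)
  · filter_upwards [Metric.isOpen_ball.mem_nhds hb] with y hy
    exact hm y (Metric.ball_subset_closedBall hy)

end Pool.Agent.MP_ed9623_an.S64
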