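import Pool.Agent.MP_ed9623_an.S64.SpecG

/-! Invariance of the local data under rigid motions. -/

open Filter Topology Set

namespace Pool.Agent.MP_ed9623_an.S64

open H64

namespace GRotL

variable {p τ : PP}

theorem lap_cm (h : τ.1 ^ 2 + τ.2 ^ 2 = 1) (f : S3) : DS.lap (cm p τ f) = cm p τ (DS.lap f) :=
  SA_ext fun z => by
    simp only [DR.lap, d1_cm, d2_cm, map_add, map_sub, map_smul, DS.c21, val_add, val_sub,
      val_smul, cm_val]
    linear_combination ((DS.d 1 (DS.d 1 f)).1 (z.1, mv p τ z.2)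
      + (DS.d 2 (DS.d 2 f)).1 (z.1, mv p τ z.2)) * h

theorem br_cm (h : τ.1 ^ 2 + τ.2 ^ 2 = 1) (f g : S3) :
    DS.br (cm p τ f) (cm p τ g) = cm p τ (DS.br f g) := SA_ext fun z => by
  simp only [DR.br, d1_cm, d2_cm, val_add, val_sub, val_mul, val_smul, cm_val]
  linear_combination ((DS.d 1 f).1 (z.1, mv p τ z.2) * (DS.d 2 g).1 (z.1, mv p τ z.2)
    - (DS.d 2 f).1 (z.1, mv p τ z.2) * (DS.d 1 g).1 (z.1, mv p τ z.2)) * h

theorem ht_cm (h : τ.1 ^ 2 + τ.2 ^ 2 = 1) (f : S3) : DS.ht (cm p τ f) = cm p τ (DS.ht f) := by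
  rw [DR.ht, DR.ht, lap_cm h, d0_cm, map_sub]

theorem eW1 (h : τ.1 ^ 2 + τ.2 ^ 2 = 1) (α ψ : S3) : DS.eW (cm p τ α) (cm p τ ψ) 1
    = cm p τ (τ.1 • DS.eW α ψ 1 + τ.2 • DS.eW α ψ 2) := by
  rw [DR.eW, DR.HH, d1_cm, d1_cm, ht_cm h, br_cm h, br_cm h, ← map_add, ← map_add]
  refine congrArg _ (SA_ext fun z => ?_)
  simp only [DR.eW, DR.HH, DR.ht, DR.lap, DR.br, map_add, map_smul, val_add, val_sub, val_mul,
    val_smul]
  ring

theorem eW2 (h : τ.1 ^ 2 + τ.2 ^ 2 = 1) (α ψ : S3) : DS.eW (cm p τ α) (cm p τ ψ) 2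
    = cm p τ (τ.1 • DS.eW α ψ 2 - τ.2 • DS.eW α ψ 1) := by
  rw [DR.eW, DR.HH, d2_cm, d2_cm, ht_cm h, br_cm h, br_cm h, ← map_add, ← map_add]
  refine congrArg _ (SA_ext fun z => ?_)
  simp only [DR.eW, DR.HH, DR.ht, DR.lap, DR.br, map_sub, map_smul, val_add, val_sub, val_mul,
    val_smul]
  ring

theorem eA_cm (h : τ.1 ^ 2 + τ.2 ^ 2 = 1) (α ψ : S3) :
    DS.eA (cm p τ α) (cm p τ ψ) = cm p τ (DS.eA α ψ) := by
  rw [DR.eA, lap_cm h, lap_cm h, ht_cm h, br_cm h, br_cm h, ← map_add, ← map_add, d0_cm, DR.eA]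

theorem yy1 (n : ℝ) (ψ : S3) :
    DS.yy n (cm p τ ψ) 1 = cm p τ (τ.1 • DS.yy n ψ 1 + τ.2 • DS.yy n ψ 2) := by
  rw [DR.yy, d1_cm, d0_cm, d0_cm, ← map_smul (cm p τ), ← map_add]
  refine congrArg _ (SA_ext fun z => ?_)
  simp only [DR.yy, map_add, map_smul, val_add, val_smul]
  ring

theorem yy2 (n : ℝ) (ψ : S3) :
    DS.yy n (cm p τ ψ) 2 = cm p τ (τ.1 • DS.yy n ψ 2 - τ.2 • DS.yy n ψ 1) := by
  rw [DR.yy, d2_cm, d0_cm, d0_cm, ← map_smul (cm p τ), ← map_add]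
  refine congrArg _ (SA_ext fun z => ?_)
  simp only [DR.yy, map_sub, map_smul, val_add, val_sub, val_smul]
  ring

theorem BB_cm (ψ : S3) (e : PP) :
    DS.BB (cm p τ ψ) e e = cm p τ (DS.BB ψ (mv 0 τ e) (mv 0 τ e)) := SA_ext fun z => by
  simp only [DR.BB, d1_cm, d2_cm, map_add, map_sub, map_smul, DS.c21, val_add, val_sub,
    val_smul, cm_val, mv, Prod.fst_zero, Prod.snd_zero]
  ring

theorem NI_cm (h : τ.1 ^ 2 + τ.2 ^ 2 = 1) {f : S3} {z : ST} (a : cm p τ f ∈ NI z) :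
    f ∈ NI (z.1, mv p τ z.2) := by
  have e := ((Homeomorph.refl ℝ).prodCongr (mvH p τ h)).map_nhds_eq z
  exact mem_FI.2 ((show map _ (𝓝 z) = 𝓝 (z.1, mv p τ z.2) from e) ▸ eventually_map.2 a)

theorem two {P : Fin 3 → Prop} (a : P 1) (b : P 2) : ∀ j, j ≠ 0 → P j := by
  intro j hj
  fin_cases j
  exacts [absurd rfl hj, a, b]

end GRotL

open GRotL in
theorem rowRotL : OfRotL := by
  intro n α ψ O Z p τ h L
  have c := (sm_mv p τ).continuous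
  refine ⟨L.n0, L.oO.preimage c, L.oZ.preimage c, two (fun z a => ?_) fun z a => ?_,
    fun z a => ?_, two (fun z a b => ?_) fun z a b => ?_, two (fun z a b => ?_) fun z a b => ?_,
    fun e he z a b k => ?_, fun z a b k => ?_⟩
  · simp [eW1 h, cm_val, L.eW 1 (by decide) (z.1, mv p τ z.2) a,
      L.eW 2 (by decide) (z.1, mv p τ z.2) a]
  · simp [eW2 h, cm_val, L.eW 1 (by decide) (z.1, mv p τ z.2) a,
      L.eW 2 (by decide) (z.1, mv p τ z.2) a]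
  · rw [eA_cm h]
    exact L.eA (z.1, mv p τ z.2) a
  · simp [d1_cm, cm_val, L.za 1 (by decide) (z.1, mv p τ z.2) a b,
      L.za 2 (by decide) (z.1, mv p τ z.2) a b]
  · simp [d2_cm, cm_val, L.za 1 (by decide) (z.1, mv p τ z.2) a b,
      L.za 2 (by decide) (z.1, mv p τ z.2) a b]
  · simp [yy1, cm_val, L.zy 1 (by decide) (z.1, mv p τ z.2) a b,
      L.zy 2 (by decide) (z.1, mv p τ z.2) a b]
  · simp [yy2, cm_val, L.zy 1 (by decide) (z.1, mv p τ z.2) a b,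
      L.zy 2 (by decide) (z.1, mv p τ z.2) a b]
  · rw [BB_cm] at k
    exact L.wall _ (fun q => he ((mvH 0 τ h).injective (q.trans (mv_zero 0 τ).symm)))
      (z.1, mv p τ z.2) a b (NI_cm h k)
  · obtain ⟨k1, k2⟩ := k
    rw [d1_cm] at k1
    rw [d2_cm] at k2
    refine L.max (z.1, mv p τ z.2) a (c.closure_preimage_subset Z b) ⟨?_, ?_⟩
    all_goals
      filter_upwards [mem_FI.1 (NI_cm h k1), mem_FI.1 (NI_cm h k2)] with y e1 e2
      simp only [val_add, val_sub, val_smul] at e1 e2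
    · linear_combination τ.1 * e1 - τ.2 * e2 - (DS.d 1 α).1 y * h
    · linear_combination τ.2 * e1 + τ.1 * e2 - (DS.d 2 α).1 y * h

end Pool.Agent.MP_ed9623_an.S64
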