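import Pool.Agent.MP_ed9623_an.S64.SpecB

/-! Bounded solutions of a quadratic differential equation are sinusoids. -/

open Filter Topology Set
open scoped ContDiff

namespace Pool.Agent.MP_ed9623_an.S64

theorem rowSin : OfSin := by
  intro c C m t₁ s0 hC m0 h1 hE
  have s1 : ContDiff ℝ ∞ (deriv c) := (contDiff_infty_iff_deriv.1 s0).2
  have s2 : ContDiff ℝ ∞ (deriv (deriv c)) := (contDiff_infty_iff_deriv.1 s1).2
  have s3 : ContDiff ℝ ∞ (deriv (deriv (deriv c))) := (contDiff_infty_iff_deriv.1 s2).2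
  have d0 := fun t => ((contDiff_infty_iff_deriv.1 s0).1 t).hasDerivAt
  have d1 := fun t => ((contDiff_infty_iff_deriv.1 s1).1 t).hasDerivAt
  have d2 := fun t => ((contDiff_infty_iff_deriv.1 s2).1 t).hasDerivAt
  generalize deriv (deriv (deriv c)) = c3 at *
  generalize deriv (deriv c) = c2 at *
  generalize deriv c = c1 at *
  have hS : ∀ t ∈ closure {t | c t ≠ 0}, c t * c2 t - c1 t ^ 2 = -m := fun t ht =>
    closure_minimal (t := {t | c t * c2 t - c1 t ^ 2 = -m}) hE (isClosed_eq
      ((s0.continuous.mul s2.continuous).sub (s1.continuous.pow 2)) continuous_const) ht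
  have hU : closure {t | c t ≠ 0} = univ := by
    refine IsClopen.eq_univ ⟨isClosed_closure, isOpen_iff_mem_nhds.2 fun t ht => ?_⟩
      ⟨t₁, subset_closure h1⟩
    by_cases e : c t = 0
    · have e1 : c1 t ≠ 0 := fun e1 => by
        have := hS t ht
        rw [e, e1] at this
        linarith
      filter_upwards [eventually_nhdsWithin_iff.1 ((d0 t).eventually_ne (c := 0) e1)] with s hs
      by_cases e2 : s = t
      · exact e2 ▸ ht
      · exact subset_closure (hs e2)
    · exact mem_of_superset (s0.continuous.continuousAt.eventually_ne e) subset_closure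
  have E : ∀ t, c t * c2 t - c1 t ^ 2 = -m := fun t => hS t (hU ▸ mem_univ t)
  have E' : ∀ t, c t * c3 t = c1 t * c2 t := fun t => by
    have k := ((d0 t).fun_mul (d2 t)).fun_sub ((d1 t).fun_pow 2)
    rw [funext E] at k
    have := k.unique (hasDerivAt_const t _)
    norm_num at this
    linarith
  have p : ∀ t, c t ^ 2 + c1 t ^ 2 ≠ 0 := fun t e => by
    have a1 : c t = 0 := by nlinarith [sq_nonneg (c t), sq_nonneg (c1 t)]
    have := E t
    rw [a1] at this e
    linarith
  obtain ⟨l, sl, l2, l3⟩ : ∃ l : ℝ → ℝ, ContDiff ℝ ∞ l ∧ (∀ t, c2 t = l t * c t) ∧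
      ∀ t, c3 t = l t * c1 t :=
    ⟨fun t => (c t * c2 t + c1 t * c3 t) / (c t ^ 2 + c1 t ^ 2),
      ((s0.mul s2).add (s1.mul s3)).div ((s0.pow 2).add (s1.pow 2)) p,
      fun t => by
        rw [div_mul_eq_mul_div, eq_div_iff (p t)]
        linear_combination (-c1 t) * E' t,
      fun t => by
        rw [div_mul_eq_mul_div, eq_div_iff (p t)]
        linear_combination c t * E' t⟩
  obtain ⟨dl, sl'⟩ := contDiff_infty_iff_deriv.1 sl
  have l0 : ∀ t, deriv l t = 0 := fun t =>
    closure_minimal (s := {t | c t ≠ 0}) (t := {t | deriv l t = 0}) (fun s hs => by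
      have k := (dl s).hasDerivAt.fun_mul (d0 s)
      rw [← funext l2] at k
      have := k.unique (d2 s)
      rw [l3 s, add_eq_right] at this
      exact (mul_eq_zero.1 this).resolve_right hs)
      (isClosed_eq sl'.continuous continuous_const) (hU ▸ mem_univ t)
  have lc : ∀ t, l t = l 0 := fun t => is_const_of_deriv_eq_zero dl l0 t 0
  refine ⟨-l 0, neg_pos.2 (not_le.1 fun n0 => ?_), fun t => by rw [l2, lc]; ring⟩
  have q : ∀ t, c t ^ 2 ≤ C ^ 2 := fun t => sq_le_sq' (abs_le.1 (hC t)).1 (abs_le.1 (hC t)).2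
  have B : ∀ t, c t ^ 2 + c1 t ^ 2 ≤ C ^ 2 + (l 0 * C ^ 2 + m) := fun t => by
    have := E t
    rw [l2, lc] at this
    nlinarith [q t, mul_le_mul_of_nonneg_left (q t) n0]
  have k := mul_sub_le_image_sub_of_le_deriv (f := fun t => c t * c1 t) (C := m)
    (fun t => ((d0 t).fun_mul (d1 t)).differentiableAt) (fun t => by
      have := E t
      rw [((d0 t).fun_mul (d1 t)).deriv]
      rw [l2, lc] at this ⊢
      nlinarith [mul_nonneg n0 (sq_nonneg (c t))])
    (x := 0) (y := (C ^ 2 + (l 0 * C ^ 2 + m) + 1) / m) (by positivity)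
  rw [sub_zero, mul_div_cancel₀ _ m0.ne'] at k
  generalize (C ^ 2 + (l 0 * C ^ 2 + m) + 1) / m = y at k
  nlinarith [B y, B 0, sq_nonneg (c y - c1 y), sq_nonneg (c 0 + c1 0)]

end Pool.Agent.MP_ed9623_an.S64
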