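import Pool.Agent.MP_ed9623_an.S64.SpecA

/-! Absorption. -/

open Filter Topology

namespace Pool.Agent.MP_ed9623_an.S64

theorem rowBoot : OfBoot := by
  intro R _ _ D X L s hs S hS hF
  classical
  let T := hS.toFinset
  have hT : ∀ q, q ∈ T ↔ q ∈ S := fun q => hS.mem_toFinset
  let A : ℝ → ℕ → ℝ := fun b N => ∑ q ∈ T, L.nrm b N q.2 q.1
  have hn : ∀ q ∈ T, ∀ b N, 0 ≤ L.nrm b N q.2 q.1 := fun q hq b N =>
    L.nrm_nonneg b N q.2 (hF q ((hT q).mp hq))
  have hA : ∀ b N, 0 ≤ A b N := fun b N => Finset.sum_nonneg fun q hq => hn q hq b N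
  have hle : ∀ q ∈ S, ∀ b N, L.nrm b N q.2 q.1 ≤ A b N := fun q hq b N =>
    Finset.single_le_sum (f := fun q : R × ℤ => L.nrm b N q.2 q.1) (fun q hq => hn q hq b N)
      ((hT q).mpr hq)
  let Θ : ℝ → ℕ → NNReal := fun b N => (A b N).toNNReal
  have hΘ : ∀ b N, (Θ b N : ℝ) = A b N := fun b N => Real.coe_toNNReal _ (hA b N)
  refine ⟨Θ, fun q hq => ⟨hF q hq, Eventually.of_forall fun b =>
    ⟨1, 0, zero_le_one, Eventually.of_forall fun N => ?_⟩⟩, fun g hg q hq => ⟨hF q hq, ?_⟩⟩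
  · have := hle q hq b N
    have := hs b N
    simp only [zpow_zero, one_mul, pow_zero, hΘ]
    linarith
  · have h1 := (eventually_all_finite hS).mpr fun q hq => (hg q hq).2
    filter_upwards [h1] with b hb
    choose! C e hC hb using hb
    let K : ℝ := ∑ q ∈ T, C q
    let E : ℕ := ∑ q ∈ T, e q
    have hK : 0 ≤ K := Finset.sum_nonneg fun q hq => hC q ((hT q).mp hq)
    refine ⟨2 * K, E, by positivity, ?_⟩
    have h2 := (eventually_all_finite hS).mpr hb
    have h3 : ∀ᶠ N : ℕ in atTop, 2 * K + 1 ≤ (N : ℝ) :=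
      tendsto_natCast_atTop_atTop.eventually_ge_atTop _
    filter_upwards [h2, h3] with N hN hN'
    have hN1 : (1 : ℝ) ≤ N := by linarith
    have hN0 : (0 : ℝ) < N := by linarith
    set Y : ℝ := (N : ℝ) ^ (-1 : ℤ) * g b N + (N : ℝ) ^ E * s b N with hY
    have h4 : A b N ≤ K * (Y + (N : ℝ)⁻¹ * A b N) := by
      conv_lhs => unfold A
      rw [Finset.sum_mul]
      refine Finset.sum_le_sum fun q hq => (hN q ((hT q).mp hq)).trans ?_
      apply mul_le_mul_of_nonneg_left _ (hC q ((hT q).mp hq))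
      have h5 : (N : ℝ) ^ e q ≤ (N : ℝ) ^ E :=
        pow_le_pow_right₀ hN1 (Finset.single_le_sum (f := e) (fun _ _ => Nat.zero_le _) hq)
      have h6 := mul_le_mul_of_nonneg_right h5 (hs b N)
      simp only [hY, Pi.add_apply, NNReal.coe_add, hΘ, zpow_neg, zpow_one]
      linarith
    have h7 : K * (N : ℝ)⁻¹ ≤ 1 / 2 := by
      rw [← div_eq_mul_inv, div_le_iff₀ hN0]
      linarith
    have h8 := mul_le_mul_of_nonneg_right h7 (hA b N)
    have h9 := hle q hq b N
    nlinarith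

end Pool.Agent.MP_ed9623_an.S64
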