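import Pool.Agent.MP_ed9623_an.S64.SpecA

/-! The basic orders of the time derivatives. -/

namespace Pool.Agent.MP_ed9623_an.S64

namespace ABs

variable {R : Type} [CommRing R] [Algebra ℝ R] {D : DR R} {n : ℝ} {α ψ : R} (M : Mc D n α ψ)

theorem iter_mem {P : R → Prop} (h : ∀ f, P f → P (D.d 0 f)) (i : ℕ) {f : R} (hf : P f) :
    P ((D.d 0)^[i] f) := by
  induction i with
  | zero => exact hf
  | succ i ih => rw [Function.iterate_succ_apply']; exact h _ ih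

theorem uF (i : ℕ) : (D.d 0)^[i] α ∈ M.F := iter_mem (P := (· ∈ M.F)) (M.F_d 0) i M.αF

theorem yF (i : ℕ) {j : Fin 3} (hj : j ≠ 0) : (D.d 0)^[i] (D.yy n ψ j) ∈ M.F :=
  iter_mem (P := (· ∈ M.F)) (M.F_d 0) i (M.yF j hj)

theorem lapF {f : R} (hf : f ∈ M.F) : D.lap f ∈ M.F :=
  add_mem (M.F_d _ _ (M.F_d _ _ hf)) (M.F_d _ _ (M.F_d _ _ hf))

variable (rm : RmS) {G : M.Γ} {k : ℕ} {m p : ℤ}
include rm

theorem lap_mem {f : R} (hf : f ∈ M.Rm G k m p) : D.lap f ∈ M.Rm G k (m + 2) p :=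
  add_mem ((rm M).2.2.1 G k m p [1, 1] (by simp [Sp]) f hf)
    ((rm M).2.2.1 G k m p [2, 2] (by simp [Sp]) f hf)

theorem inv_any (hm : 0 ≤ m + 2 ∧ m + 2 ≤ k) {ε : ℝ} (hε : ε = 0 ∨ ε = 1) {f : R} (hF : f ∈ M.F)
    (hf : ε • D.d 0 f - D.lap f ∈ M.Rm G k (m + 2) p) : f ∈ M.Rm G k m (p + 1) := by
  obtain ⟨j, e⟩ := Int.eq_ofNat_of_zero_le hm.1
  have := (rm M).2.2.2.1 G k j p ε hε (by omega) f hF (e ▸ hf)
  rwa [← e, add_sub_cancel_right] at this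

theorem inv_ht (hm : 0 ≤ m + 2 ∧ m + 2 ≤ k) {f : R} (hF : f ∈ M.F)
    (hf : D.ht f ∈ M.Rm G k (m + 2) p) : f ∈ M.Rm G k m (p + 1) :=
  inv_any M rm hm (Or.inr rfl) hF (by rwa [one_smul])

theorem inv_lap (hm : 0 ≤ m + 2 ∧ m + 2 ≤ k) {f : R} (hF : f ∈ M.F)
    (hf : D.lap f ∈ M.Rm G k (m + 2) p) : f ∈ M.Rm G k m (p + 1) :=
  inv_any M rm hm (Or.inl rfl) hF (by rw [zero_smul, zero_sub]; exact neg_mem hf)

theorem SU_le {a b : ℕ} (h : ∀ i, a ≤ i → i ≤ b → (D.d 0)^[i] α ∈ M.Rm G k m p) :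
    M.SU a b ≤ M.Rm G k (m + 2) p := by
  refine Submodule.span_le.2 ?_
  rintro _ ⟨i, l, h1, h2, h3, h4, rfl⟩
  exact (rm M).1 G k _ p _ p (by omega) (by omega) ((rm M).2.2.1 G k m p l h3 _ (h i h1 h2))

/-- The defects are controlled by the time derivatives of `α`. -/
theorem y_mem (st : StS) (hm : 0 ≤ m + 2 ∧ m + 2 ≤ k) {i : ℕ}
    (h : ∀ i', 1 ≤ i' → i' ≤ i + 2 → (D.d 0)^[i'] α ∈ M.Rm G k m p) {j : Fin 3} (hj : j ≠ 0) :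
    (D.d 0)^[i] (D.yy n ψ j) ∈ M.Rm G k m (p + 1) :=
  inv_ht M rm hm (yF M i hj)
    (sup_le (SU_le M rm h) ((rm M).2.2.2.2.2.1 G k _ p) ((st M i).2 j hj))

/-- One step of the bootstrap. -/
theorem step (xm : XMS) (st : StS) {σ τ Qi ns : R} (ch : M.Ch σ τ Qi ns) (hk : 2 ≤ k)
    (hM : ∀ j : ℕ, M.Mj σ j ≤ M.Rm G k j 0) {i : ℕ}
    (hu : ∀ i', 1 ≤ i' → i' ≤ i + 1 → (D.d 0)^[i'] α ∈ M.Rm G k 0 0)
    (hy : ∀ i' ≤ i, ∀ j, j ≠ 0 → (D.d 0)^[i'] (D.yy n ψ j) ∈ M.Rm G k 2 0) :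
    (D.d 0)^[i + 1] α ∈ M.Rm G k (-2) 2 ∧
      ∀ j, j ≠ 0 → (D.d 0)^[i] (D.yy n ψ j) ∈ M.Rm G k 0 3 := by
  have a0 : α ∈ M.Mj σ 0 := Submodule.subset_span (Or.inr ⟨0, rfl⟩)
  have a1 : ∀ i, i ≠ 0 → D.d i α ∈ M.Mj σ 1 := ((xm M ch).2.1 0 α a0).2.2
  have a2 : ∀ i j, i ≠ 0 → j ≠ 0 → D.d i (D.d j α) ∈ M.Rm G k 2 0 := fun i j hi hj =>
    hM 2 (((xm M ch).2.1 1 _ (a1 j hj)).2.2 i hi)
  have cA : ∀ f ∈ M.A, (D.d 0)^[i + 1] f ∈ M.A := fun f hf => iter_mem (P := (· ∈ M.A)) (M.A_d 0) _ hf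
  have p1 := M.A_d 1 ψ M.ψA
  have p2 := M.A_d 2 ψ M.ψA
  have t2 : D.T2 ((D.d 0)^[i + 1] (D.d 1 ψ ^ 2)) ((D.d 0)^[i + 1] (D.d 1 ψ * D.d 2 ψ))
      ((D.d 0)^[i + 1] (D.d 2 ψ ^ 2)) α ∈ M.Rm G k 2 0 :=
    add_mem (sub_mem (M.mul_mem (cA _ (pow_mem p1 2)) (a2 2 2 (by decide) (by decide)))
      (M.mul_mem (ofNat_mem M.A 2) (M.mul_mem (cA _ (mul_mem p1 p2))
        (a2 1 2 (by decide) (by decide)))))
      (M.mul_mem (cA _ (pow_mem p2 2)) (a2 1 1 (by decide) (by decide)))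
  have s1 : M.S1 ≤ M.Rm G k 2 0 := by
    refine le_trans (Submodule.span_le.2 ?_) ((hM 1).trans ((rm M).1 G k _ 0 2 0 (by simp) (by simp)))
    rintro _ (rfl | rfl)
    exacts [a1 1 (by decide), a1 2 (by decide)]
  have sy : M.SY i ≤ M.Rm G k 2 0 := by
    refine Submodule.span_le.2 ?_
    rintro _ ⟨i', j, h1, h2, rfl⟩
    exact hy i' h1 j h2
  have f2 : D.ht (D.lap ((D.d 0)^[i + 1] α)) ∈ M.Rm G k (0 + 2) 0 := by
    have := sub_mem (sup_le (sup_le (sup_le s1 (SU_le M rm hu)) sy)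
      ((rm M).2.2.2.2.2.1 G k 2 0) (st M i).1) t2
    rwa [add_sub_cancel_right] at this
  have l1 := inv_ht M rm (by omega) (lapF M (uF M _)) f2
  have u1 : (D.d 0)^[i + 1] α ∈ M.Rm G k (-2) 2 := inv_lap M rm (p := 1) (by omega) (uF M _) l1
  have u2 : (D.d 0)^[i + 2] α ∈ M.Rm G k 0 2 := by
    refine inv_lap M rm (p := 1) (by omega) (uF M _) ?_
    have e : D.lap ((D.d 0)^[i + 2] α)
        = D.ht (D.lap ((D.d 0)^[i + 1] α)) + D.lap (D.lap ((D.d 0)^[i + 1] α)) := by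
      rw [DR.ht, sub_add_cancel, Function.iterate_succ_apply' _ (i + 1)]
      simp only [DR.lap, map_add, D.c10, D.c20]
    rw [e]
    exact add_mem ((rm M).1 G k _ 0 _ 1 le_rfl (by simp) f2) (lap_mem M rm l1)
  refine ⟨u1, fun j hj => y_mem M rm (p := 2) st (by omega) (fun i' h1 h2 => ?_) hj⟩
  rcases h2.eq_or_lt with rfl | h2
  exacts [u2, (rm M).1 G k 0 0 0 2 le_rfl (by simp) (hu i' h1 (by omega))]

theorem basic (xm : XMS) (xr : XRS) (st : StS) {σ τ Qi ns : R} (ch : M.Ch σ τ Qi ns) (hk : 2 ≤ k)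
    (hG : M.Anch G k) (i : ℕ) : (D.d 0)^[i + 1] α ∈ M.Rm G k (-2) 2 ∧
      ∀ j, j ≠ 0 → (D.d 0)^[i] (D.yy n ψ j) ∈ M.Rm G k 0 3 := by
  induction i using Nat.strong_induction_on with
  | _ i ih =>
  have hM := (xr M ch).1 G k (by omega) hG
  have key : ∀ G', (∀ m p, M.Rm G k m p ≤ M.Rm G' k m p) → (D.d 0)^[i + 1] α ∈ M.Rm G' k 0 0 →
      (∀ j, j ≠ 0 → (D.d 0)^[i] (D.yy n ψ j) ∈ M.Rm G' k 2 0) →
      (D.d 0)^[i + 1] α ∈ M.Rm G' k (-2) 2 ∧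
        ∀ j, j ≠ 0 → (D.d 0)^[i] (D.yy n ψ j) ∈ M.Rm G' k 0 3 := fun G' le a b => by
    refine step M rm xm st ch hk (fun j => (hM j).trans (le _ _)) (fun i' h1 h2 => ?_)
      fun i' h1 j hj => ?_
    · rcases h2.eq_or_lt with rfl | h2
      · exact a
      · obtain ⟨i', rfl⟩ := Nat.exists_eq_add_one_of_ne_zero (Nat.one_le_iff_ne_zero.1 h1)
        exact le _ _ ((rm M).1 G k _ _ 0 0 (by simp) (by simp) (ih i' (by omega)).1)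
    · rcases h1.eq_or_lt with rfl | h1
      · exact b j hj
      · exact le _ _ ((rm M).1 G k _ _ 2 0 (by simp) (by simp) ((ih i' h1).2 j hj))
  obtain ⟨Θ, t1, t2⟩ := (rm M).2.2.2.2.2.2.1 k (insert ((D.d 0)^[i + 1] α, 0)
    ((fun j => ((D.d 0)^[i] (D.yy n ψ j), (2 : ℤ))) '' {j | j ≠ 0}))
    (((Set.toFinite _).image _).insert _) (by
      rintro _ (rfl | ⟨j, hj, rfl⟩)
      exacts [uF M _, yF M _ hj])
  obtain ⟨c1, c2⟩ := key (M.add G Θ) (fun m p => ((rm M).2.1 G Θ k m p).1)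
    (((rm M).2.1 G Θ k _ _).2 (t1 _ (Or.inl rfl)))
    fun j hj => ((rm M).2.1 G Θ k _ _).2 (t1 _ (Or.inr ⟨j, hj, rfl⟩))
  have t3 := t2 G (by
    rintro _ (rfl | ⟨j, hj, rfl⟩)
    exacts [(rm M).1 _ k _ _ 0 (-1) (by simp) (by simp) c1,
      (rm M).1 _ k _ _ 2 (-1) (by simp) (by simp) (c2 j hj)])
  exact key G (fun _ _ => le_rfl) ((rm M).1 G k 0 _ 0 0 le_rfl (by simp) (t3 _ (Or.inl rfl)))
    fun j hj => (rm M).1 G k 2 _ 2 0 le_rfl (by simp) (t3 _ (Or.inr ⟨j, hj, rfl⟩))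

end ABs

theorem rowBs : OfBs := by
  intro xm xr rm st R _ _ D n α ψ M σ τ Qi ns ch G k hk hG i
  refine ⟨(ABs.basic M rm xm xr st ch hk hG i).1, fun j hj =>
    ABs.y_mem M rm (p := 2) st (by omega) (fun i' h1 _ => ?_) hj⟩
  obtain ⟨i', rfl⟩ := Nat.exists_eq_add_one_of_ne_zero (Nat.one_le_iff_ne_zero.1 h1)
  exact (ABs.basic M rm xm xr st ch hk hG i').1

end Pool.Agent.MP_ed9623_an.S64
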