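import Pool.Agent.MP_ed9623_an.S64.SpecA

/-! The Carleman inequality for a complex vector field. -/

namespace Pool.Agent.MP_ed9623_an.S64

namespace ACarZ

variable {R : Type} [CommRing R] [Algebra ℝ R] (D : DR R)

theorem conj {E : R} {g : Fin 3 → R} (h : ∀ i, D.d i E = g i * E) (a b f : R) :
    E * D.V a b f = D.V a b (E * f) - (a * g 1 + b * g 2) * (E * f) := by
  simp only [DR.V, D.mul, h]
  ring

theorem key {u1 u2 v1 v2 c1 c2 : R} (hW : CzW D u1 u2 v1 v2 c1 c2) (g : Fin 3 → R)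
    (w1 w2 a b F F' G G' : R) (ha : a = u1 * g 1 + u2 * g 2) (hb : b = v1 * g 1 + v2 * g 2)
    (hF : F = D.V u1 u2 w1 - a * w1 - (D.V v1 v2 w2 - b * w2))
    (hF' : F' = D.V u1 u2 w2 - a * w2 + (D.V v1 v2 w1 - b * w1))
    (hG : G = D.V u1 u2 w1 + D.V v1 v2 w2 + a * w1 + b * w2)
    (hG' : G' = D.V u1 u2 w2 - D.V v1 v2 w1 + a * w2 - b * w1) :
    (8 : ℝ) • (F ^ 2 + F' ^ 2) = 8 * czq D u1 u2 v1 v2 c1 c2 g * (w1 ^ 2 + w2 ^ 2)
      + ((2 * F - c1 * w2 - c2 * w1) ^ 2 + (2 * F' + c1 * w1 - c2 * w2) ^ 2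
        + (2 * G - c1 * w2 + c2 * w1) ^ 2 + (2 * G' + c1 * w1 + c2 * w2) ^ 2)
      - (8 : ℝ) • (D.d 1 ((a * u1 + b * v1) * (w1 * w1 + w2 * w2)
          + (u1 * v2 - u2 * v1) * (w1 * D.d 2 w2 - w2 * D.d 2 w1))
        + D.d 2 ((a * u2 + b * v2) * (w1 * w1 + w2 * w2)
          + (u1 * v2 - u2 * v1) * (w2 * D.d 1 w1 - w1 * D.d 1 w2))) := by
  have h4 : 4 * algebraMap ℝ R (1 / 4) = 1 := by
    rw [← map_ofNat (algebraMap ℝ R) 4, ← map_mul]
    norm_num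
  have h2 : D.d 2 (u1 * v2 - u2 * v1) = -(c1 * u1 + c2 * v1) := by rw [← hW.1, neg_neg]
  rw [czq, ← ha, ← hb, hF, hF', hG, hG']
  simp only [DR.dv, DR.V, Algebra.smul_def, map_ofNat, map_add, D.mul _ (u1 * v2 - u2 * v1),
    D.mul _ (a * u1 + b * v1), D.mul _ (a * u2 + b * v2), hW.2, h2]
  simp only [map_sub, D.mul, D.c21]
  linear_combination 2 * (c1 ^ 2 + c2 ^ 2) * (w1 ^ 2 + w2 ^ 2) * h4

end ACarZ

theorem rowCarZ : OfCarZ := by
  intro R _ _ D X C u1 u2 v1 v2 c1 c2 E q f1 f2 g hE h1 h2 hW hq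
  rw [mul_sub, mul_add E, ACarZ.conj D hE, ACarZ.conj D hE, ACarZ.conj D hE, ACarZ.conj D hE]
  have m1 := C.J.mul_mem_left E h1
  have m2 := C.J.mul_mem_left E h2
  generalize E * f1 = w1 at m1
  generalize E * f2 = w2 at m2
  have k := congrArg C.I (ACarZ.key D hW g w1 w2 _ _ _ _ _ _ rfl rfl rfl rfl rfl rfl)
  have l : ∀ a, ∀ f ∈ C.J, a * f ∈ C.J := fun a f => C.J.mul_mem_left a
  have s : ∀ f ∈ C.J, f ^ 2 ∈ C.J := fun f h => C.J.pow_mem_of_mem h 2 two_pos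
  have v : ∀ a b, ∀ f ∈ C.J, D.V a b f ∈ C.J := fun a b f h =>
    add_mem (l _ _ (C.J_d _ _ h)) (l _ _ (C.J_d _ _ h))
  rw [map_sub, map_smul, map_smul, map_add C.I (D.d 1 _), C.I_d, C.I_d] at k
  · generalize hS : (_ ^ 2 + _ ^ 2 + _ ^ 2 + _ ^ 2 : R) = S at k
    have p := C.I_pos (8 * czq D u1 u2 v1 v2 c1 c2 g * (w1 ^ 2 + w2 ^ 2) + S
      - (8 : ℝ) • (q * (w1 ^ 2 + w2 ^ 2))) ?_ fun x => ?_
    · rw [map_sub, map_smul] at p
      simp only [smul_eq_mul] at k p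
      linarith
    · rw [← hS, Algebra.smul_def]
      have n := add_mem (s _ m1) (s _ m2)
      refine sub_mem (add_mem (l _ _ n) ?_) (l _ _ (l _ _ n))
      refine add_mem (add_mem (add_mem (s _ ?_) (s _ ?_)) (s _ ?_)) (s _ ?_)
      all_goals
        repeat first
          | assumption | exact l _ _ m1 | exact l _ _ m2 | exact v _ _ _ m1 | exact v _ _ _ m2
          | apply add_mem | apply sub_mem | apply l
    · have a : 0 ≤ C.ev x S := by
        rw [← hS]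
        simp only [map_add (C.ev x) _ (_ ^ 2), map_pow]
        positivity
      have b := mul_nonneg (sub_nonneg.2 (hq x)) (add_nonneg (sq_nonneg (C.ev x w1))
        (sq_nonneg (C.ev x w2)))
      simp only [map_sub, map_add, map_mul, map_pow, map_smul, map_ofNat, smul_eq_mul]
      linarith
  all_goals
    exact add_mem (l _ _ (add_mem (l _ _ m1) (l _ _ m2)))
      (l _ _ (sub_mem (l _ _ (C.J_d _ _ (by assumption))) (l _ _ (C.J_d _ _ (by assumption)))))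

end Pool.Agent.MP_ed9623_an.S64
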