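import Pool.Agent.MP_ed9623_an.S64.SpecA

/-! Closing the estimate. -/

namespace Pool.Agent.MP_ed9623_an.S64

theorem rowCl : OfCl := by
  intro bs R _ _ D n α ψ M σ τ Qi ns hC k hk h
  have hF : ∀ i : ℕ, (D.d 2)^[i] α ∈ M.F := fun i => by
    induction i with
    | zero => exact M.αF
    | succ i ih => rw [Function.iterate_succ_apply']; exact M.F_d _ _ ih
  have hV : ∀ f, D.V 0 1 f = D.d 2 f := fun f => by rw [DR.V, zero_mul, one_mul, zero_add]
  obtain ⟨Θ, h1, h2⟩ := M.boot ((fun i : ℕ => ((D.d 2)^[i] α, (i : ℤ))) '' Set.Iic k)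
    ((Set.finite_Iic k).image _) (by rintro _ ⟨i, -, rfl⟩; exact hF i)
  have h3 : ∀ i ≤ k, (D.d 2)^[i] α ∈ M.Rw (M.add M.z Θ) i (-1) := fun i hi => by
    induction hi using Nat.decreasingInduction with
    | self => exact h _ fun i hi => M.mono_r _ _ _ _ (h1 _ ⟨i, hi, rfl⟩)
    | of_succ i _ ih =>
      rw [Function.iterate_succ_apply', ← hV] at ih
      have := M.hardy _ _ _ 0 (zero_mem _) 1 (one_mem _) 1 (one_mem _) 1 (one_mem _) 0 (zero_mem _)
        (one_mul 1) (by rw [hV, M.d2, mul_zero, add_zero]) _ (hF i) ih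
      rwa [Nat.cast_add_one, add_sub_cancel_right] at this
  have h4 : M.Anch M.z k := fun i hi => M.mono_p _ _ (-1) _ (by omega)
    (h2 M.z (by rintro _ ⟨i, hi, rfl⟩; exact h3 i hi) _ ⟨i, hi, rfl⟩)
  refine ⟨h4 0 k.zero_le, fun j hj => ?_⟩
  exact M.mono (by simp) (by simp)
    ((bs M hC M.z k hk h4 0).2 j hj [] (fun _ h => absurd h List.not_mem_nil) (by simp))

end Pool.Agent.MP_ed9623_an.S64
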