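import Pool.Agent.MP_ed9623_an.S64.SpecA

/-! The calculus of expansions. -/

open Filter Topology

namespace Pool.Agent.MP_ed9623_an.S64

namespace AEx

variable {R : Type} [CommRing R] [Algebra ℝ R] {D : DR R} {n : ℝ} {α ψ : R}

theorem it_add (r : ℕ) (f g : R) : (D.d 2)^[r] (f + g) = (D.d 2)^[r] f + (D.d 2)^[r] g := by
  rw [← D.w_replicate, ← D.w_replicate, ← D.w_replicate, D.w_add]

theorem sp_rep (r : ℕ) : Sp (List.replicate r (2 : Fin 3)) := fun j hj => by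
  rw [List.eq_of_mem_replicate hj]; decide

theorem sp_one {i : Fin 3} (h : i ≠ 0) : Sp [i] := fun j hj => by
  rw [List.mem_singleton.1 hj]; exact h

theorem gen (M : Mc D n α ψ) (σ : R) {i j : ℕ} (h : i ≤ j) : (D.d 2)^[i] α ∈ M.Mj σ j :=
  Submodule.subset_span (Or.inl ⟨i, h, rfl⟩)

/-- The product rule up to lower order terms. -/
theorem leib (M : Mc D n α ψ) (S : Submodule M.A R) (r : ℕ) : ∀ a ∈ M.A, ∀ v : R,
    (∀ l < r, (D.d 2)^[l] v ∈ S) → (D.d 2)^[r] (a * v) - a * (D.d 2)^[r] v ∈ S := by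
  induction r with
  | zero => intro a _ v _; simp
  | succ r ih =>
    intro a ha v h
    have h1 := ih _ (M.A_d 2 a ha) v fun l hl => h l (by omega)
    have h2 := ih a ha (D.d 2 v) fun l hl => by
      rw [← Function.iterate_succ_apply]; exact h _ (by omega)
    have h3 := M.mul_mem (M.A_d 2 a ha) (h r (by omega))
    rw [Function.iterate_succ_apply, Function.iterate_succ_apply, D.mul, it_add]
    convert add_mem (add_mem h1 h2) h3 using 1
    ring

end AEx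

open AEx in
theorem rowEx : OfEx := by
  intro hX hR hm R _ _ D n α ψ M σ τ Qi ns C
  obtain ⟨x1, x2, -, x4⟩ := hX M C
  obtain ⟨-, r2⟩ := hR M C
  obtain ⟨-, -, -, -, -, -, -, mo, wd, -⟩ := hm M
  have it : ∀ m p (r : ℕ), ∀ v ∈ M.RM m p, (D.d 2)^[r] v ∈ M.RM (r + m) p := fun m p r v hv => by
    have := wd m p _ (sp_rep r) v hv
    rwa [D.w_replicate, List.length_replicate, add_comm] at this
  have one : ∀ m p i, i ≠ 0 → ∀ v ∈ M.RM m p, D.d i v ∈ M.RM (m + 1) p := fun m p i hi v hv => by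
    simpa [DR.w] using wd m p _ (sp_one hi) v hv
  have top : ∀ (v : R) (j : ℤ) (c : R) (r : ℕ) (m p : ℤ) (J : ℕ), c ∈ M.A → (r + j).toNat ≤ J →
      (∃ e ∈ M.A, (D.d 2)^[r] v - (c + M.d * e) * (D.d 2)^[(r + j).toNat] α
        ∈ M.Mj σ (r + j - 1).toNat ⊔ M.RM (r + m) p) →
      (D.d 2)^[r] v ∈ M.Mj σ J ⊔ M.RM (r + m) p := by
    rintro v j c r m p J hc hJ ⟨e, he, h⟩
    have a := sup_le_sup_right (x1 _ J (by omega)) _ h
    have b : (c + M.d * e) * (D.d 2)^[(r + j).toNat] α ∈ M.Mj σ J ⊔ M.RM (r + m) p :=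
      Submodule.mem_sup_left (M.mul_mem (add_mem hc (mul_mem M.dA he)) (gen M σ hJ))
    simpa using add_mem a b
  have last : ∀ v j c m p, M.Ex σ v j c m p → ∀ᶠ r : ℕ in atTop, ∀ l < r,
      (D.d 2)^[l] v ∈ M.Mj σ (r + j - 1).toNat ⊔ M.RM (r + m - 1) p := by
    rintro v j c m p ⟨hc, ⟨m₀, p₀, hv⟩, h⟩
    obtain ⟨r₀, h⟩ := eventually_atTop.1 h
    refine (eventually_ge_atTop (m₀ + r₀ - m + 1 + (p₀ - p).toNat).toNat).mono fun r hr l hl => ?_
    rcases le_or_gt r₀ l with k | k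
    · exact sup_le_sup_left (mo _ _ _ _ (by omega) (by omega)) _
        (top v j c l m p _ hc (by omega) (h l k))
    · exact Submodule.mem_sup_right (mo _ _ _ _ (by omega) (by omega) (it _ _ l v hv))
  refine ⟨fun m p => ⟨one_mem _, ⟨_, _, r2 0 (gen M σ le_rfl)⟩, Eventually.of_forall fun r =>
      ⟨0, zero_mem _, by simp⟩⟩,
    fun v m p j hv => ⟨zero_mem _, ⟨_, _, hv⟩, Eventually.of_forall fun r => ⟨0, zero_mem _, ?_⟩⟩,
    ?_, ?_, ?_, ?_, ?_, ?_, last⟩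
  · simpa using Submodule.mem_sup_right (it m p r v hv)
  · rintro v v' j c c' m p ⟨hc, ⟨m₀, p₀, hv⟩, h⟩ ⟨hc', ⟨m₁, p₁, hv'⟩, h'⟩
    refine ⟨add_mem hc hc', ⟨max m₀ m₁, max p₀ p₁, add_mem (mo _ _ _ _ (by omega) (by omega) hv)
      (mo _ _ _ _ (by omega) (by omega) hv')⟩, (h.and h').mono ?_⟩
    rintro r ⟨⟨e, he, k⟩, e', he', k'⟩
    refine ⟨e + e', add_mem he he', ?_⟩
    rw [it_add]
    convert add_mem k k' using 1
    ring
  · intro v j c m p a ha hE
    have hl := last v j c m p hE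
    obtain ⟨hc, ⟨m₀, p₀, hv⟩, h⟩ := hE
    refine ⟨mul_mem ha hc, ⟨_, _, M.mul_mem ha hv⟩, (h.and hl).mono ?_⟩
    rintro r ⟨⟨e, he, k⟩, k'⟩
    refine ⟨a * e, mul_mem ha he, ?_⟩
    have := sup_le_sup_left (mo _ _ (r + m) p (by omega) (by omega)) _ (leib M _ r a ha v k')
    convert add_mem this (M.mul_mem ha k) using 1
    ring
  · rintro v j c m p ⟨hc, ⟨m₀, p₀, hv⟩, h⟩
    refine ⟨⟨neg_mem (mul_mem C.σA hc), ⟨_, _, one _ _ 1 (by decide) v hv⟩,
      (h.and (eventually_ge_atTop (1 - j).toNat)).mono ?_⟩,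
      hc, ⟨_, _, one _ _ 2 (by decide) v hv⟩, ((tendsto_add_atTop_nat 1).eventually h).mono ?_⟩
    · rintro r ⟨⟨e, he, k⟩, hr⟩
      refine ⟨-(σ * e), neg_mem (mul_mem C.σA he), ?_⟩
      obtain ⟨s, hs⟩ : ∃ s : ℕ, (r : ℤ) + j = s + 1 := ⟨(r + j - 1).toNat, by omega⟩
      have e1 : ((r : ℤ) + j).toNat = s + 1 := by omega
      have e2 : ((r : ℤ) + j - 1).toNat = s := by omega
      have e3 : ((r : ℤ) + (j + 1)).toNat = s + 1 + 1 := by omega
      have e4 : ((r : ℤ) + (j + 1) - 1).toNat = s + 1 := by omega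
      rw [e1, e2] at k
      rw [e3, e4, ← D.d_iter, ← add_assoc]
      obtain ⟨μ, hμ, ρ, hρ, k⟩ := Submodule.mem_sup.1 k
      have a1 := (x4 (s + 1) _ (add_mem hc (mul_mem M.dA he))).1
      have a2 := (x2 s μ hμ).2.2 1 (by decide)
      have a3 := one _ _ 1 (by decide) ρ hρ
      have a4 := congrArg (D.d 1) k
      rw [map_add, map_sub] at a4
      convert add_mem (Submodule.mem_sup_left (add_mem a1 a2)) (Submodule.mem_sup_right a3) using 1
      linear_combination -a4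
    · rintro r ⟨e, he, k⟩
      refine ⟨e, he, ?_⟩
      rw [Function.iterate_succ_apply] at k
      push_cast at k
      rwa [add_assoc (r : ℤ) 1 j, add_assoc (r : ℤ) 1 m, add_comm 1 j, add_comm 1 m] at k
  · rintro v j j' c m p hj ⟨hc, hv, h⟩
    refine ⟨zero_mem _, hv, h.mono fun r k => ⟨0, zero_mem _, ?_⟩⟩
    simpa using top v j c r m p _ hc (show _ ≤ ((r : ℤ) + j' - 1).toNat by omega) k
  · rintro v j c m p m' p' h1 h2 ⟨hc, hv, h⟩
    refine ⟨hc, hv, h.mono ?_⟩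
    rintro r ⟨e, he, k⟩
    exact ⟨e, he, sup_le_sup_left (mo _ _ _ _ (by omega) (by omega)) _ k⟩
  · rintro v j c m p e he ⟨hc, hv, h⟩
    refine ⟨by simpa using sub_mem hc (mul_mem M.dA he), hv, h.mono ?_⟩
    rintro r ⟨e', he', k⟩
    refine ⟨e + e', add_mem he he', ?_⟩
    convert k using 2
    ring

end Pool.Agent.MP_ed9623_an.S64
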