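import Pool.Agent.MP_ed9623_an.S64.SpecA

/-! Inversion of the Laplace operator on expansions. -/

open Filter Topology

namespace Pool.Agent.MP_ed9623_an.S64

namespace AExI

variable {R : Type} [CommRing R] [Algebra ℝ R] {D : DR R} {n : ℝ} {α ψ : R} {M : Mc D n α ψ}
  {σ τ Qi ns : R}

theorem lap_sub (D : DR R) (f g : R) : D.lap (f - g) = D.lap f - D.lap g := by
  simp only [DR.lap, map_sub]; ring

theorem lap_iter (D : DR R) (r : ℕ) (f : R) : D.lap ((D.d 2)^[r] f) = (D.d 2)^[r] (D.lap f) := by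
  rw [DR.lap, DR.lap, iterate_map_add, D.d_iter, D.d_iter, D.d_iter, D.d_iter]

theorem top {c : R} (hc : c ∈ M.A) (j : ℕ) : c * (D.d 2)^[j] α ∈ M.Mj σ j :=
  M.mul_mem hc (Submodule.subset_span (Or.inl ⟨j, le_rfl, rfl⟩))

variable (hX : XMS) (h : M.Ch σ τ Qi ns)
include hX h

theorem one {c : R} (hc : c ∈ M.A) (j : ℕ) :
    D.lap (ns * c * (D.d 2)^[j] α) - c * (D.d 2)^[j + 2] α ∈ M.Mj σ (j + 1) := by
  convert ((hX M h).2.2.2 j _ (mul_mem h.nA hc)).2.2 1 (one_mem _) 0 (zero_mem _) 1 (one_mem _)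
    using 1
  simp only [DR.lap, DR.T2]
  linear_combination c * (D.d 2)^[j + 2] α * h.ns_inv

theorem solve {low : ℕ} (hl : 1 ≤ low) (J : ℕ) : ∀ μ ∈ M.Mj σ J,
    ∃ e ∈ M.Mj σ (J - 2), μ - D.lap e ∈ M.Mj σ low := by
  induction J with
  | zero => exact fun μ hμ => ⟨0, zero_mem _, by simpa [DR.lap] using (hX M h).1 _ _ (by omega) hμ⟩
  | succ J ih =>
    intro μ hμ
    rcases J with _ | J
    · exact ⟨0, zero_mem _, by simpa [DR.lap] using (hX M h).1 _ _ hl hμ⟩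
    obtain ⟨c, hc, h1⟩ := (hX M h).2.2.1 _ μ hμ
    obtain ⟨e, he, h2⟩ := ih _ (sub_mem h1 (one hX h hc J))
    refine ⟨ns * c * (D.d 2)^[J] α - -e, sub_mem (top (mul_mem h.nA hc) J)
      (neg_mem ((hX M h).1 _ _ (by omega) he)), ?_⟩
    convert h2 using 1
    simp only [DR.lap, map_sub, map_neg]
    ring

end AExI

open AExI in
theorem rowExI : OfExI := by
  intro hX hR hm R _ _ D n α ψ M σ τ Qi ns h v hv j c m p hp ⟨hc, ⟨m₀, p₀, h0⟩, h1⟩
  obtain ⟨-, -, -, -, -, -, -, mono, -, inv, -⟩ := hm M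
  refine ⟨mul_mem h.nA hc, ⟨_, _, inv _ _ v hv h0⟩, ?_⟩
  filter_upwards [h1, eventually_ge_atTop (3 - j).toNat, eventually_ge_atTop (1 - m).toNat]
    with r ⟨e, he, h2⟩ r1 r2
  obtain ⟨t, ht⟩ : ∃ t : ℕ, r + j = t + 2 := ⟨(r + j - 2).toNat, by omega⟩
  obtain ⟨low, hl⟩ : ∃ t : ℕ, r + m = t := ⟨(r + m).toNat, by omega⟩
  rw [show (r + j).toNat = t + 2 by omega, show (r + j - 1).toNat = t + 1 by omega, hl] at h2
  rw [show (r + (j - 2)).toNat = t by omega, show (r + (j - 2) - 1).toNat = t + 1 - 2 by omega,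
    show r + (m - 2) = low - 2 by omega]
  obtain ⟨μ, hμ, ρ, hρ, h3⟩ := Submodule.mem_sup.1 h2
  have hc' : c + M.d * e ∈ M.A := add_mem hc (mul_mem M.dA he)
  obtain ⟨e₁, k1, k2⟩ := solve hX h (low := low) (by omega) _ _ (sub_mem hμ (one hX h hc' t))
  have k3 := inv low p ((D.d 2)^[r] v - ns * (c + M.d * e) * (D.d 2)^[t] α - e₁)
    (sub_mem (sub_mem (D.w_replicate 2 r v ▸ D.w_mem M.F_d _ v hv)
      ((hX M h).2.1 _ _ (top (mul_mem h.nA hc') t)).1) ((hX M h).2.1 _ _ k1).1) (by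
      convert add_mem (mono low 0 low p le_rfl (by omega) ((hR M h).2 low k2)) hρ using 1
      rw [lap_sub, lap_sub, lap_iter]
      linear_combination -h3)
  refine ⟨ns * e, mul_mem h.nA he, Submodule.mem_sup.2 ⟨e₁, k1, _, k3, by ring⟩⟩

end Pool.Agent.MP_ed9623_an.S64
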