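import Pool.Agent.MP_ed9623_an.S64.SpecA

/-! Uniqueness from the third harmonic. -/

open Filter Topology

namespace Pool.Agent.MP_ed9623_an.S64

namespace AFT

variable {R : Type} [CommRing R] [Algebra ℝ R] {D : DR R} {n : ℝ} {α ψ : R}

theorem d_LL (φ f : R) : D.d 0 (D.LL φ f) = D.LL (D.d 0 φ) f + D.LL φ (D.d 0 f) := by
  simp only [DR.LL, DR.T2, map_add, map_sub, D.mul, D.c10, D.c20, D.d_ofNat]
  ring

theorem LL_tt (n : ℝ) (φ f : R) : D.LL (D.d 0 (D.d 0 φ)) f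
    = D.T2 (D.d 1 (D.yy n φ 1)) (D.d 1 (D.yy n φ 2)) (D.d 2 (D.yy n φ 2)) f - n • D.LL φ f := by
  simp only [DR.LL, DR.T2, DR.yy, map_add, map_smul, D.c10, D.c20]
  simp only [Algebra.smul_def]
  ring

theorem LL_zero (M : Mc D n α ψ) : D.LL ψ α = 0 := by
  have h := D.LL_eq α ψ
  rw [M.eW 2 (by decide), M.eW 1 (by decide), map_zero, map_zero, sub_zero, two_mul,
    ← two_smul ℝ] at h
  have := congrArg (fun x => (1 / 2 : ℝ) • x) h
  simpa [smul_smul] using this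

theorem T2_Qd (M : Mc D n α ψ) :
    D.T2 (D.d 1 (D.yy n ψ 1)) (D.d 1 (D.yy n ψ 2)) (D.d 2 (D.yy n ψ 2)) α ∈ Qd D M.A n α ψ := by
  have a : ∀ l, D.w l α ∈ Fl D M.A n α ψ := fun l => Submodule.subset_span ⟨l, .inl rfl⟩
  have y : ∀ l j, j ≠ 0 → D.w l (D.yy n ψ j) ∈ Fl D M.A n α ψ := fun l j h =>
    Submodule.subset_span ⟨l, .inr ⟨j, h, rfl⟩⟩
  have q : ∀ l l' j, j ≠ 0 → D.w l (D.yy n ψ j) * D.w l' α ∈ Qd D M.A n α ψ := fun l l' j h =>
    Submodule.subset_span ⟨_, y l j h, _, a l', rfl⟩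
  rw [DR.T2, two_mul]
  exact add_mem (sub_mem (q [1] [2, 2] 1 (by decide)) (add_mem (q [1] [2, 1] 2 (by decide))
    (q [1] [2, 1] 2 (by decide)))) (q [2] [1, 1] 2 (by decide))

end AFT

open AFT in
theorem rowFT : OfFT := by
  intro XM XR Rm Cl Ex Rd LX R _ _ D n α ψ M σ τ Qi ns hC β hβ ki hki hA hk
  obtain ⟨-, x2, -, x4⟩ := XM M hC
  obtain ⟨-, -, -, -, r5, -, -, -, -, -, r11⟩ := Rm M
  obtain ⟨-, e2, e3, e4, -⟩ := Ex M hC
  have h0 := LL_zero M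
  have h1 : D.LL (D.d 0 ψ) α = -1 * D.LL ψ (D.d 0 α) := by
    have := d_LL (D := D) ψ α
    rw [h0, map_zero] at this
    linear_combination -this
  have h2 : 2 * D.LL (D.d 0 ψ) (D.d 0 α) + D.LL ψ (D.d 0 (D.d 0 α)) ∈ Qd D M.A n α ψ := by
    have a := congrArg (D.d 0) (d_LL (D := D) ψ α)
    rw [h0, map_zero, map_zero, map_add, d_LL, d_LL, LL_tt n, h0, smul_zero] at a
    convert neg_mem (T2_Qd M) using 1
    linear_combination -a
  have z : M.Ex σ (D.LL ψ α) (-1) 0 (-6) 8 := h0 ▸ e2 _ _ _ _ (zero_mem _)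
  have hr : D.AA ψ σ = M.d * 0 := by rw [mul_zero, hC.root]
  have l1 := LX M hC ψ M.ψA 0 (zero_mem _) _ _ _ hr (Rd M hC 0) z
  have l2 := LX M hC ψ M.ψA 0 (zero_mem _) _ _ _ hr (Rd M hC 1) z
  have l3 := LX M hC _ (M.A_d 0 _ M.ψA) β hβ _ _ _ hA (Rd M hC 0)
    (h1 ▸ e4 _ _ _ _ _ (-1) (neg_mem (one_mem _)) l1)
  obtain ⟨hκ, -, hE⟩ := e3 _ _ _ _ _ _ _ (e4 _ _ _ _ _ 2 (ofNat_mem _ 2) l3) l2
  obtain ⟨r, ⟨e, he, hE⟩, hr2⟩ := (hE.and (eventually_ge_atTop 2)).exists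
  obtain ⟨s, rfl⟩ := Nat.exists_eq_add_of_le' hr2
  rw [show (((s + 2 : ℕ) : ℤ) + -1).toNat = s + 1 by omega,
    show (((s + 2 : ℕ) : ℤ) + -1 - 1).toNat = s by omega] at hE
  set κ := 2 * D.lx (D.d 0 ψ) σ (ns ^ 2 * D.tp ψ σ (0 + 1)) + D.lx ψ σ (ns ^ 2 * D.tp ψ σ (1 + 1))
  have hc : κ + M.d * e ∈ M.A := add_mem hκ (mul_mem M.dA he)
  have hq : ∀ t, (D.d 2)^[t] (2 * D.LL (D.d 0 ψ) (D.d 0 α) + D.LL ψ (D.d 0 (D.d 0 α)))
      ∈ Qd D M.A n α ψ := fun t => D.w_replicate 2 t _ ▸ D.w_mem (S := Qd D M.A n α ψ) r5 _ _ h2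
  have hE' := sub_mem (Submodule.mem_sup_right (r11 _ _ (hq (s + 2)))) hE
  obtain ⟨μ, hμ, ρ, hρ, hs⟩ := Submodule.mem_sup.1 hE'
  have key : ∀ t, (κ + M.d * e) * (D.d 2)^[s + t + 1] α - (D.d 2)^[t] ρ ∈ M.Mj σ (s + t) := by
    intro t
    induction t with
    | zero =>
      exact (eq_sub_of_add_eq (hs.trans (sub_sub_cancel _ _))) ▸ hμ
    | succ t ih =>
      rw [← add_assoc]
      convert sub_mem ((x2 _ _ ih).2.2 2 (by decide)) (x4 (s + t + 1) _ hc).2.1 using 1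
      rw [map_sub, Function.iterate_succ_apply' _ t]
      ring
  obtain ⟨k, hk1, hk2⟩ := (Eventually.and hρ (eventually_ge_atTop (s + 2))).exists
  obtain ⟨t, rfl⟩ : ∃ t, k = s + t + 1 := ⟨k - s - 1, by omega⟩
  refine Cl M hC (s + t + 1) (by omega) fun G hG => M.unit G _ _ κ hκ ki hki e he hk _
    (D.w_replicate 2 _ α ▸ D.w_mem (S := M.F) M.F_d _ _ M.αF) ?_
  have a := (XR M hC).1 G _ (by omega) hG _ (key t) [] (fun _ h => by simp at h)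
    (by push_cast [List.length_nil]; omega)
  have b := hk1 G hG (List.replicate t 2) (fun i h => by rw [List.eq_of_mem_replicate h]; decide)
    (by rw [List.length_replicate]; push_cast; omega)
  rw [D.w_replicate, List.length_replicate] at b
  rw [← sub_add_cancel (_ * _) ((D.d 2)^[t] ρ)]
  exact add_mem (M.mono (by push_cast [List.length_nil]; omega)
    (by push_cast [List.length_nil]; omega) a) (M.mono (by omega) (by omega) b)

end Pool.Agent.MP_ed9623_an.S64
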