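import Pool.Agent.MP_ed9623_an.S64.SpecA

/-! Negligible functions vanish near the curve. -/

open Filter Topology

namespace Pool.Agent.MP_ed9623_an.S64

theorem rowFinR : OfFinR := by
  intro hR R _ _ D X L f hf
  have hF : ∀ i, f i ∈ L.F := fun i => (hf i).1
  obtain ⟨b, hb, hb1⟩ := ((eventually_all.2 fun i => (hf i).2).and (eventually_ge_atTop 1)).exists
  choose C q hC hN using hb
  have h0 : ∀ N i, 0 ≤ L.nrm b N 0 (f i) := fun N i => L.nrm_nonneg b N 0 (hF i)
  obtain ⟨M, hM, hA⟩ := hR (fun N => ∑ i, L.nrm b N 0 (f i)) (4 * b ^ 2) (∑ i, C i) (∑ i, q i)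
    (fun N => Finset.sum_nonneg fun i _ => h0 N i) (by nlinarith) (by
      filter_upwards [eventually_all.2 hN, eventually_ge_atTop 1] with N h h1
      rw [Finset.sum_mul, Finset.sum_mul]
      refine Finset.sum_le_sum fun i _ => (h i).trans ?_
      have e : (N : ℝ) ^ q i ≤ (N : ℝ) ^ ∑ j, q j := pow_le_pow_right₀ (by exact_mod_cast h1)
        (Finset.single_le_sum (f := q) (fun _ _ => Nat.zero_le _) (Finset.mem_univ i))
      have s0 : 0 ≤ L.sm f b N := by unfold Ln.sm; positivity
      simp only [Pi.zero_apply, NNReal.coe_zero, mul_zero, zero_add]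
      rw [mul_assoc]
      exact mul_le_mul_of_nonneg_left (mul_le_mul_of_nonneg_right e s0) (hC i))
  refine ⟨max b (M + 1), fun x hx i => L.van (f i) (hF i) b M hM (hA.mono fun N h => ?_) x
    (L.dom_mono (le_max_left _ _) hx) ?_⟩
  · have := (Finset.single_le_sum (f := fun i => L.nrm b N 0 (f i)) (fun j _ => h0 N j)
      (Finset.mem_univ i)).trans h
    simpa only [Ln.nrm, L.Wt_zero, mul_zero, zpow_zero, div_one] using this
  · have h1 : (M + 1) * L.ev x L.d < L.ev x L.u ^ 2 := L.dom_mono (le_max_right _ _) hx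
    have h2 : M + 1 < L.ev x (L.u ^ 2 * L.di) := by
      rw [map_mul, map_pow, L.ev_di, ← div_eq_mul_inv]
      exact (lt_div_iff₀ (L.d_pos x)).2 h1
    nlinarith

end Pool.Agent.MP_ed9623_an.S64
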