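import Pool.Agent.MP_ed9623_an.S64.SpecA

/-! Inversion of transversal vector fields. -/

open Filter Topology

namespace Pool.Agent.MP_ed9623_an.S64

namespace AHarR

variable {R : Type} [CommRing R] [Algebra ℝ R] {D : DR R} {X : Type} (L : Ln D X)

theorem low {k ki e : R} (hki : ki ∈ L.A) (he : e ∈ L.A) (h : k * ki = 1) :
    ∃ c : ℝ, 0 < c ∧ ∀ᶠ b : ℝ in atTop, ∀ x ∈ L.dom b, c ≤ L.ev x (k + L.d * e) ^ 2 := by
  obtain ⟨C₁, h1⟩ := L.A_bd ki hki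
  obtain ⟨C₂, h2⟩ := L.A_bd e he
  have p1 : 0 < |C₁| + 1 := by positivity
  refine ⟨(1 / (2 * (|C₁| + 1))) ^ 2, by positivity, ?_⟩
  filter_upwards [eventually_ge_atTop (2 * (|C₁| + 1) * |C₂|)] with b hb x hx
  have hd := L.d_pos x
  have hx' : b * L.ev x L.d < L.ev x L.u ^ 2 := hx
  have hu : L.ev x L.u ^ 2 ≤ 1 := pow_le_one₀ (L.u_pos x).le (L.u_le x)
  have e1 : |L.ev x k| * |L.ev x ki| = 1 := by rw [← abs_mul, ← map_mul, h, map_one, abs_one]
  have a1 : |L.ev x ki| ≤ |C₁| + 1 := (h1 x).trans ((le_abs_self _).trans (by linarith))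
  have a2 : |L.ev x e| ≤ |C₂| := (h2 x).trans (le_abs_self _)
  have b1 : 1 ≤ |L.ev x k| * (|C₁| + 1) :=
    e1.symm.le.trans (mul_le_mul_of_nonneg_left a1 (abs_nonneg _))
  have b2 : 2 * (|C₁| + 1) * (L.ev x L.d * |L.ev x e|) ≤ 1 := by
    have : 2 * (|C₁| + 1) * |L.ev x e| ≤ b := (mul_le_mul_of_nonneg_left a2 (by positivity)).trans hb
    nlinarith
  have b3 : |L.ev x k| ≤ |L.ev x (k + L.d * e)| + L.ev x L.d * |L.ev x e| := by
    have := abs_sub (L.ev x (k + L.d * e)) (L.ev x L.d * L.ev x e)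
    rw [abs_mul, abs_of_pos hd] at this
    simpa using this
  rw [← sq_abs (L.ev x _)]
  refine pow_le_pow_left₀ (by positivity) ((div_le_iff₀ (by positivity)).2 ?_) 2
  nlinarith

theorem rhs (a b : R) (N : ℕ) (s : ℤ) :
    -(2 * (a * L.gw N s 1 + b * L.gw N s 2) + D.dv a b) * ((N : ℝ) • (D.V a b L.d * L.di))
      - D.V a b ((N : ℝ) • (D.V a b L.d * L.di))
    = (2 * (N : ℝ) ^ 2) • (D.V a b L.d * L.di) ^ 2
      - ((N : ℝ) ^ 2) • (L.ui * (4 * D.V a b L.u * D.V a b L.d * L.di))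
      - (N : ℝ) • (algebraMap ℝ R (2 * s) * D.V a b L.d ^ 2 * (L.di * L.di)
        + D.dv a b * D.V a b L.d * L.di
        + (a * D.d 1 (D.V a b L.d * L.di) + b * D.d 2 (D.V a b L.d * L.di))) := by
  have e : D.V a b ((N : ℝ) • (D.V a b L.d * L.di)) = (N : ℝ) •
      (a * D.d 1 (D.V a b L.d * L.di) + b * D.d 2 (D.V a b L.d * L.di)) := by
    rw [DR.V, map_smul, map_smul, smul_add, mul_smul_comm, mul_smul_comm]
  rw [e]
  generalize a * D.d 1 (D.V a b L.d * L.di) + b * D.d 2 (D.V a b L.d * L.di) = t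
  simp only [Ln.gw, DR.V, Algebra.smul_def, map_mul, map_pow, map_ofNat]
  ring

end AHarR

open AHarR

theorem rowHarR : OfHarR := by
  intro hS hT R _ _ D X L s hs g m p a ha b hb k hk ki hki e he hkk hV f hf hR
  obtain ⟨s0, -, -, sui, sdi, smul, somul, sle, slt, sder, -, sbd, sso, ssi⟩ := hS L
  have hVA : ∀ t ∈ L.A, D.V a b t ∈ L.A := fun t ht =>
    add_mem (mul_mem ha (L.A_d 1 t ht)) (mul_mem hb (L.A_d 2 t ht))
  have hκ := hVA _ L.dA
  have hκd : D.V a b L.d * L.di ∈ L.Sy 2 := smul 0 2 _ (s0 _ hκ) _ sdi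
  have hP : L.ui * (4 * D.V a b L.u * D.V a b L.d * L.di) ∈ L.So 4 :=
    slt 3 4 (by norm_num) (sle 3 (somul 1 2 _ sui _ (smul 0 2 _
      (s0 _ (mul_mem (mul_mem (ofNat_mem _ 4) (hVA _ L.uA)) hκ)) _ sdi)))
  have hQ : algebraMap ℝ R (2 * m) * D.V a b L.d ^ 2 * (L.di * L.di)
      + D.dv a b * D.V a b L.d * L.di
      + (a * D.d 1 (D.V a b L.d * L.di) + b * D.d 2 (D.V a b L.d * L.di)) ∈ L.Sy 4 :=
    add_mem (add_mem (smul 0 4 _ (s0 _ (mul_mem (algebraMap_mem _ _) (pow_mem hκ 2))) _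
      (smul 2 2 _ sdi _ sdi)) (sle 4 (slt 2 4 (by norm_num) (smul 0 2 _ (s0 _
        (mul_mem (add_mem (L.A_d 1 a ha) (L.A_d 2 b hb)) hκ)) _ sdi))))
      (add_mem (smul 0 4 _ (s0 _ ha) _ (sder 2 1 _ hκd)) (smul 0 4 _ (s0 _ hb) _ (sder 2 2 _ hκd)))
  obtain ⟨c, hc, hlow⟩ := low L hki he hkk
  obtain ⟨Q, hQ0, hQb⟩ := sbd 4 _ hQ
  refine ⟨hf, ?_⟩
  filter_upwards [hR.2, hlow, sso 4 _ hP (c / 2) (by positivity), eventually_ge_atTop (2 : ℝ)]
    with β ⟨C, q, hC, hN⟩ h1 h2 h3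
  obtain ⟨K, hK, h4⟩ := hT L β c m a b (L.di ^ 2) f h3 hc
    (fun x => by rw [map_pow]; positivity) hf
  refine ⟨K * (C + 1), q + (2 - 2 * m).toNat, by positivity, ?_⟩
  filter_upwards [hN, eventually_ge_atTop 1,
    tendsto_natCast_atTop_atTop.eventually_ge_atTop (2 * Q / c)] with N h5 h6 h7
  have n1 : (1 : ℝ) ≤ N := by exact_mod_cast h6
  have h8 := h4 N h6 ((N : ℝ) • (D.V a b L.d * L.di)) fun x hx => by
    have a1 := h1 x hx
    have a2 := (le_abs_self _).trans (h2 x hx)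
    have a3 := (le_abs_self _).trans (hQb x)
    have a4 : L.ev x L.si ^ 4 = L.ev x L.di ^ 2 := by rw [← (ssi x).2]; ring
    have a5 : 2 * Q ≤ N * c := (div_le_iff₀ hc).1 h7
    rw [← hV] at a1
    rw [a4] at a2 a3
    have a6 : c * L.ev x L.di ^ 2 ≤ L.ev x (D.V a b L.d) ^ 2 * L.ev x L.di ^ 2 :=
      mul_le_mul_of_nonneg_right a1 (sq_nonneg _)
    have a7 := mul_le_mul_of_nonneg_left a6 (sq_nonneg (N : ℝ))
    refine ⟨?_, ?_⟩
    · simp only [map_smul, map_mul, map_pow, smul_eq_mul]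
      nlinarith
    · rw [HaH, rhs, map_sub, map_sub, map_smul, map_smul, map_smul]
      have a8 := mul_le_mul_of_nonneg_left a2 (sq_nonneg (N : ℝ))
      have a9 := mul_le_mul_of_nonneg_left a3 (N.cast_nonneg (α := ℝ))
      have a10 := mul_le_mul_of_nonneg_left a5
        (mul_nonneg (N.cast_nonneg (α := ℝ)) (sq_nonneg (L.ev x L.di)))
      generalize L.ev x (L.ui * _) = P at a8 ⊢
      generalize L.ev x (_ + _ + _) = T at a9 ⊢
      simp only [map_smul, map_mul, map_pow, smul_eq_mul]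
      nlinarith
  have n0 : (0 : ℝ) < N := by positivity
  have z0 : (0 : ℝ) < (N : ℝ) ^ (2 * m) := by positivity
  have e1 : L.nrm β N (m - 1) f
      = (N : ℝ) ^ 2 * L.I β (L.di ^ 2 * (L.Wt N m * f) ^ 2) / (N : ℝ) ^ (2 * m) := by
    rw [Ln.nrm, L.Wt_pred, show 2 * (m - 1) = 2 * m - 2 by ring, zpow_sub₀ n0.ne',
      show (L.Wt N m * L.di * f) ^ 2 = L.di ^ 2 * (L.Wt N m * f) ^ 2 by ring]
    field_simp
  have s0' : 0 ≤ s β N := le_trans (by positivity) (hs β N)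
  have e2 : (N : ℝ) ^ 2 * (4 * β ^ 2) ^ N / (N : ℝ) ^ (2 * m)
      ≤ (N : ℝ) ^ (q + (2 - 2 * m).toNat) * s β N := by
    have : (N : ℝ) ^ 2 / (N : ℝ) ^ (2 * m) ≤ (N : ℝ) ^ (q + (2 - 2 * m).toNat) := by
      rw [← zpow_natCast, ← zpow_natCast, ← zpow_sub₀ n0.ne']
      refine zpow_le_zpow_right₀ n1 ?_
      have := Int.self_le_toNat (2 - 2 * m)
      push_cast
      omega
    rw [mul_div_right_comm]
    exact mul_le_mul this (hs β N) (by positivity) (by positivity)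
  have e3 : (N : ℝ) ^ q * s β N ≤ (N : ℝ) ^ (q + (2 - 2 * m).toNat) * s β N :=
    mul_le_mul_of_nonneg_right (pow_le_pow_right₀ n1 (Nat.le_add_right _ _)) s0'
  have e4 : 0 ≤ (N : ℝ) ^ p * g β N := by positivity
  have e5 := div_le_div_of_nonneg_right h8 z0.le
  rw [mul_div_assoc K, add_div] at e5
  rw [e1]
  refine e5.trans ?_
  rw [mul_assoc K]
  refine mul_le_mul_of_nonneg_left ?_ hK
  have e6 := mul_le_mul_of_nonneg_left e3 hC
  rw [Ln.nrm] at h5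
  nlinarith

end Pool.Agent.MP_ed9623_an.S64
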