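import Pool.Agent.MP_ed9623_an.S64.SpecA

/-! The Carleman inequality for the heat operator from the commutator identity. -/

namespace Pool.Agent.MP_ed9623_an.S64

namespace AHeat

variable {R : Type} [CommRing R] [Algebra ℝ R] {D : DR R} {X : Type} (C : Cx D X)

theorem sq_mem {f : R} (hf : f ∈ C.J) : f ^ 2 ∈ C.J := C.J.pow_mem_of_mem hf 2 two_pos

theorem msq_mem (a : R) {f : R} (hf : f ∈ C.J) : a * f ^ 2 ∈ C.J :=
  C.J.mul_mem_left a (sq_mem C hf)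

theorem mono {P Q₁ Q₂ Q₃ Q₄ : R} (a b c d : ℝ) (h : P ∈ C.J) (h1 : Q₁ ∈ C.J) (h2 : Q₂ ∈ C.J)
    (h3 : Q₃ ∈ C.J) (h4 : Q₄ ∈ C.J)
    (hx : ∀ x, C.ev x P ≤ a * C.ev x Q₁ + b * C.ev x Q₂ + c * C.ev x Q₃ + d * C.ev x Q₄) :
    C.I P ≤ a * C.I Q₁ + b * C.I Q₂ + c * C.I Q₃ + d * C.I Q₄ := by
  have := C.I_pos (a • Q₁ + b • Q₂ + c • Q₃ + d • Q₄ - P)
    (sub_mem (add_mem (add_mem (add_mem (C.J.smul_of_tower_mem a h1) (C.J.smul_of_tower_mem b h2))
      (C.J.smul_of_tower_mem c h3)) (C.J.smul_of_tower_mem d h4)) h) fun x => by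
        simpa only [map_sub, map_add, map_smul, smul_eq_mul, sub_nonneg] using hx x
  simpa only [map_sub, map_add, map_smul, smul_eq_mul, sub_nonneg] using this

theorem sq_pos {f : R} (hf : f ∈ C.J) : 0 ≤ C.I (f ^ 2) :=
  C.I_pos _ (sq_mem C hf) fun x => by rw [map_pow]; positivity

theorem hess {w : R} (hw : w ∈ C.J) (i j : Fin 3) (hi : i ≠ 0) (hj : j ≠ 0) :
    C.I (D.d i (D.d j w) ^ 2) ≤ C.I (D.lap w ^ 2) := by
  have h1 := C.J_d 1 w hw
  have h2 := C.J_d 2 w hw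
  have e : D.lap w ^ 2 = D.d 1 (D.d 1 w) ^ 2 + D.d 1 (D.d 2 w) ^ 2 + D.d 1 (D.d 2 w) ^ 2 +
      D.d 2 (D.d 2 w) ^ 2 + D.d 1 (2 * D.d 2 (D.d 2 w) * D.d 1 w) -
        D.d 2 (2 * D.d 1 (D.d 2 w) * D.d 1 w) := by
    simp only [DR.lap, D.mul, D.c21, D.d_ofNat]
    ring
  rw [e, map_sub, map_add, C.I_d 1 _ (C.J.mul_mem_left _ h1), C.I_d 2 _ (C.J.mul_mem_left _ h1),
    map_add, map_add, map_add]
  have p1 := sq_pos C (C.J_d 1 _ h1)
  have p2 := sq_pos C (C.J_d 1 _ h2)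
  have p3 := sq_pos C (C.J_d 2 _ h2)
  have c : ∀ i : Fin 3, i ≠ 0 → i = 1 ∨ i = 2 := by decide
  rcases c i hi with rfl | rfl <;> rcases c j hj with rfl | rfl
  · linarith
  · linarith
  · rw [D.c21]
    linarith
  · linarith

theorem five (a b c d e : ℝ) :
    (a - b - c + d - e) ^ 2 ≤ 5 * (a ^ 2 + b ^ 2 + c ^ 2 + d ^ 2 + e ^ 2) := by
  nlinarith [sq_nonneg (a + b), sq_nonneg (a + c), sq_nonneg (a - d), sq_nonneg (a + e),
    sq_nonneg (b - c), sq_nonneg (b + d), sq_nonneg (b - e), sq_nonneg (c + d), sq_nonneg (c - e),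
    sq_nonneg (d + e)]

end AHeat

open AHeat in
theorem rowHeat : OfHeat := by
  intro hI c K₀ hc
  obtain ⟨K, hK, hK₀⟩ : ∃ K : ℝ, 0 ≤ K ∧ K₀ ≤ K := ⟨|K₀|, abs_nonneg _, le_abs_self _⟩
  have hci : 0 < c⁻¹ := inv_pos.2 hc
  refine ⟨20 + (2 + 27 * K + 5 * K ^ 2) * c⁻¹, by positivity, ?_⟩
  intro R _ _ D X C ε N E μ k v g hN hE hg hv hH
  have hN0 : 0 ≤ N := by linarith
  have hw : E * v ∈ C.J := C.J.mul_mem_left _ hv
  have h0 := hI D C ε k (E * v) g hg hw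
  have e0 : ε • D.d 0 (E * v) + 2 * D.V (g 1) (g 2) (E * v) + D.dv (g 1) (g 2) * (E * v)
      - (D.lap (E * v) + (g 1 ^ 2 + g 2 ^ 2 + ε • g 0) * (E * v)) =
      E * (ε • D.d 0 v - D.lap v) := by
    simp only [DR.V, DR.dv, DR.lap, D.mul, hE, map_add, Algebra.smul_def]
    ring
  have e1 : ∀ i, E * D.d i v = D.d i (E * v) - g i * (E * v) := fun i => by
    rw [D.mul, hE]
    ring
  have e2 : ∀ i j, E * D.d i (D.d j v) = D.d i (D.d j (E * v)) - g j * D.d i (E * v) -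
      g i * D.d j (E * v) + g i * g j * (E * v) - D.d i (g j) * (E * v) := fun i j => by
    simp only [D.mul, hE, map_add]
    ring
  rw [e0] at h0
  simp only [e1, e2]
  generalize C.I ((E * (ε • D.d 0 v - D.lap v)) ^ 2) = Q at h0 ⊢
  generalize E * v = w at hw h0 ⊢
  have hd : ∀ i, D.d i w ∈ C.J := fun i => C.J_d i w hw
  have hdd : ∀ i j, D.d i (D.d j w) ∈ C.J := fun i j => C.J_d i _ (hd j)
  have hl : D.lap w ∈ C.J := add_mem (hdd 1 1) (hdd 2 2)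
  have hS : D.lap w + (g 1 ^ 2 + g 2 ^ 2 + ε • g 0) * w ∈ C.J :=
    add_mem hl (C.J.mul_mem_left _ hw)
  have hm : ∀ x, 0 ≤ C.ev x μ := fun x => (hH x).m0
  have pB : ∀ i, 0 ≤ C.I (μ * D.d i w ^ 2) := fun i => C.I_pos _ (msq_mem C μ (hd i)) fun x => by
    have := hm x
    rw [map_mul, map_pow]
    positivity
  have pC : 0 ≤ C.I (μ ^ 2 * w ^ 2) := C.I_pos _ (msq_mem C _ hw) fun x => by
    rw [map_mul, map_pow, map_pow]
    positivity
  have pA := sq_pos C hS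
  have h1 := mono C (P := 0) 1 (-(c * N)) (-(c * N)) (-(c * N ^ 3)) (zero_mem _)
    (Q₁ := 4 * (D.d 1 (g 1) * D.d 1 w ^ 2 + 2 * D.d 1 (g 2) * D.d 1 w * D.d 2 w
      + D.d 2 (g 2) * D.d 2 w ^ 2) + k * (D.d 1 w ^ 2 + D.d 2 w ^ 2) + hsc D ε g k * w ^ 2)
    (add_mem (add_mem (C.J.mul_mem_left _ (add_mem (add_mem (msq_mem C _ (hd 1))
      (C.J.mul_mem_left _ (hd 2))) (msq_mem C _ (hd 2))))
      (C.J.mul_mem_left _ (add_mem (sq_mem C (hd 1)) (sq_mem C (hd 2))))) (msq_mem C _ hw))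
    (msq_mem C μ (hd 1)) (msq_mem C μ (hd 2)) (msq_mem C (μ ^ 2) hw) fun x => by
      have a1 := (hH x).h1 (C.ev x (D.d 1 w)) (C.ev x (D.d 2 w))
      have a2 := mul_le_mul_of_nonneg_right (hH x).h2 (sq_nonneg (C.ev x w))
      simp only [map_zero, map_add, map_mul, map_pow, map_ofNat]
      linarith
  rw [map_zero] at h1
  have q1 := mul_nonneg (mul_nonneg hc.le hN0) (pB 1)
  have q2 := mul_nonneg (mul_nonneg hc.le hN0) (pB 2)
  have q3 := mul_nonneg (mul_nonneg hc.le (pow_nonneg hN0 3)) pC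
  have hQ : 0 ≤ Q := by linarith
  have hA : C.I ((D.lap w + (g 1 ^ 2 + g 2 ^ 2 + ε • g 0) * w) ^ 2) ≤ 2 * Q := by linarith
  have hC : N ^ 3 * C.I (μ ^ 2 * w ^ 2) ≤ c⁻¹ * Q := by
    rw [le_inv_mul_iff₀ hc]
    linarith
  have hB : ∀ i, i ≠ 0 → N * C.I (μ * D.d i w ^ 2) ≤ c⁻¹ * Q := fun i hi => by
    have c' : ∀ i : Fin 3, i ≠ 0 → i = 1 ∨ i = 2 := by decide
    rw [le_inv_mul_iff₀ hc]
    rcases c' i hi with rfl | rfl <;> linarith
  have g4 : ∀ x i, i ≠ 0 → C.ev x (g i) ^ 2 ≤ K * N ^ 2 * C.ev x μ := fun x i hi =>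
    ((hH x).h4 i hi).trans (by have := hm x; gcongr)
  have hT : 0 ≤ c⁻¹ * Q := by positivity
  have hKT : 0 ≤ K * (c⁻¹ * Q) := by positivity
  have hKKT : 0 ≤ K ^ 2 * (c⁻¹ * Q) := by positivity
  refine ⟨by linarith, fun i hi => ⟨?_, fun j hj => ?_⟩⟩
  · have h2 := mono C (P := μ * (D.d i w - g i * w) ^ 2) 2 (2 * K * N ^ 2) 0 0
      (msq_mem C μ (sub_mem (hd i) (C.J.mul_mem_left _ hw))) (msq_mem C μ (hd i))
      (msq_mem C (μ ^ 2) hw) hw hw fun x => by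
        have a1 := mul_le_mul_of_nonneg_right (g4 x i hi)
          (mul_nonneg (hm x) (sq_nonneg (C.ev x w)))
        have a2 := mul_nonneg (hm x) (sq_nonneg (C.ev x (D.d i w) + C.ev x (g i) * C.ev x w))
        simp only [map_sub, map_mul, map_pow]
        linarith
    have h3 := mul_le_mul_of_nonneg_left h2 hN0
    have h4 := mul_le_mul_of_nonneg_left hC hK
    have h5 := hB i hi
    linarith
  · have h2 := mono C (P := (D.d i (D.d j w) - g j * D.d i w - g i * D.d j w + g i * g j * w -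
        D.d i (g j) * w) ^ 2) 5 (5 * K * N ^ 2) (5 * K * N ^ 2) (5 * (K ^ 2 + K) * N ^ 4)
      (sq_mem C (sub_mem (add_mem (sub_mem (sub_mem (hdd i j) (C.J.mul_mem_left _ (hd i)))
        (C.J.mul_mem_left _ (hd j))) (C.J.mul_mem_left _ hw)) (C.J.mul_mem_left _ hw)))
      (sq_mem C (hdd i j)) (msq_mem C μ (hd i)) (msq_mem C μ (hd j)) (msq_mem C (μ ^ 2) hw)
      fun x => by
        have a0 := hm x
        have a1 := mul_le_mul_of_nonneg_right (g4 x j hj) (sq_nonneg (C.ev x (D.d i w)))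
        have a2 := mul_le_mul_of_nonneg_right (g4 x i hi) (sq_nonneg (C.ev x (D.d j w)))
        have a3 := mul_le_mul_of_nonneg_right (mul_le_mul (g4 x i hi) (g4 x j hj) (sq_nonneg _)
          (by positivity)) (sq_nonneg (C.ev x w))
        have a4 : C.ev x (D.d i (g j)) ^ 2 ≤ K * N ^ 4 * C.ev x μ ^ 2 :=
          ((hH x).h5 i j hi hj).trans (by gcongr)
        have a5 := mul_le_mul_of_nonneg_right a4 (sq_nonneg (C.ev x w))
        simp only [map_sub, map_add, map_mul, map_pow]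
        refine (five _ _ _ _ _).trans ?_
        linarith
    have h3 := mono C (P := D.lap w ^ 2) 2 (2 * K * N ^ 4) 0 0 (sq_mem C hl) (sq_mem C hS)
      (msq_mem C (μ ^ 2) hw) hw hw fun x => by
        have a4 : C.ev x (g 1 ^ 2 + g 2 ^ 2 + ε • g 0) ^ 2 ≤ K * N ^ 4 * C.ev x μ ^ 2 :=
          (hH x).h3.trans (by gcongr)
        generalize g 1 ^ 2 + g 2 ^ 2 + ε • g 0 = p at a4 ⊢
        have a5 := mul_le_mul_of_nonneg_right a4 (sq_nonneg (C.ev x w))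
        have a6 := sq_nonneg (C.ev x (D.lap w) + 2 * C.ev x p * C.ev x w)
        simp only [map_add, map_mul, map_pow]
        linarith
    have h4 := hess C hw i j hi hj
    have h5 := mul_le_mul_of_nonneg_left (hB i hi) (mul_nonneg hK hN0)
    have h6 := mul_le_mul_of_nonneg_left (hB j hj) (mul_nonneg hK hN0)
    have h7 := mul_le_mul_of_nonneg_left hC (mul_nonneg hK hN0)
    have h8 := mul_le_mul_of_nonneg_left hC (mul_nonneg (sq_nonneg K) hN0)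
    have h9 := mul_le_mul_of_nonneg_right hN hQ
    have h10 := mul_nonneg hN0 hT
    have h11 := mul_nonneg hN0 hKT
    linarith

end Pool.Agent.MP_ed9623_an.S64
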