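import Pool.Agent.MP_ed9623_an.S64.SpecA

/-! The commutator identity for the conjugated heat operator. -/

namespace Pool.Agent.MP_ed9623_an.S64

namespace AHeatI

variable {R : Type} [CommRing R] [Algebra ℝ R] (D : DR R)

/-- The pointwise identity behind the five integrations by parts. -/
theorem key (ε : ℝ) (k w : R) (g : Fin 3 → R) (h : ∀ i j, D.d i (g j) = D.d j (g i)) {p A L Q : R}
    (hp : p = g 1 ^ 2 + g 2 ^ 2 + ε • g 0)
    (hA : A = ε • D.d 0 w + 2 * D.V (g 1) (g 2) w + D.dv (g 1) (g 2) * w)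
    (hL : L = D.lap w + p * w)
    (hQ : Q = 4 * (D.d 1 (g 1) * D.d 1 w ^ 2 + 2 * D.d 1 (g 2) * D.d 1 w * D.d 2 w
      + D.d 2 (g 2) * D.d 2 w ^ 2) + k * (D.d 1 w ^ 2 + D.d 2 w ^ 2) + hsc D ε g k * w ^ 2) :
    (A - L) ^ 2 + (A - L) ^ 2 = L ^ 2 + (Q + Q) + (A * (2 * A) + (L + k * w) * (L + k * w))
      + (D.d 0 (D.d 1 w * (2 * ε • D.d 1 w) + D.d 2 w * (2 * ε • D.d 2 w) + w * -(2 * ε • (p * w)))
      + D.d 1 (D.d 1 w * (4 * g 1 * D.d 1 w - 4 * ε • D.d 0 w - 8 * D.V (g 1) (g 2) w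
          - 4 * D.dv (g 1) (g 2) * w - 2 * k * w) + D.d 2 w * (4 * g 1 * D.d 2 w)
          + w * ((2 * D.d 1 (D.dv (g 1) (g 2)) - 4 * p * g 1 + D.d 1 k) * w))
      + D.d 2 (D.d 1 w * (4 * g 2 * D.d 1 w) + D.d 2 w * (4 * g 2 * D.d 2 w - 4 * ε • D.d 0 w
          - 8 * D.V (g 1) (g 2) w - 4 * D.dv (g 1) (g 2) * w - 2 * k * w)
          + w * ((2 * D.d 2 (D.dv (g 1) (g 2)) - 4 * p * g 2 + D.d 2 k) * w))) := by
  have h2 : 2 * algebraMap ℝ R (1 / 2) = 1 := by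
    rw [← map_ofNat (algebraMap ℝ R) 2, ← map_mul]
    norm_num
  subst hp hA hL hQ
  simp only [hsc, DR.lap, DR.V, DR.dv, Algebra.smul_def, map_add, map_sub, map_neg, D.mul, D.c10,
    D.c20, D.c21, D.d_sq, D.d_ofNat, D.d_alg, h 2 1, h 0 1, h 0 2, map_mul, map_pow, map_ofNat]
  linear_combination (D.d 1 (D.d 1 k) + D.d 2 (D.d 2 k) + k ^ 2) * w ^ 2 * h2

end AHeatI

theorem rowHeatI : OfHeatI := by
  intro R _ _ D X C ε k w g h hw
  have e := congrArg C.I (AHeatI.key D ε k w g h rfl rfl rfl rfl)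
  have h0 := C.J_d 0 w hw
  have h1 := C.J_d 1 w hw
  have h2 := C.J_d 2 w hw
  have m : ∀ a b c : R, D.d 1 w * a + D.d 2 w * b + w * c ∈ C.J := fun a b c =>
    add_mem (add_mem (C.J.mul_mem_right _ h1) (C.J.mul_mem_right _ h2)) (C.J.mul_mem_right _ hw)
  have hp : ∀ A B : R, A ∈ C.J → B ∈ C.J → 0 ≤ C.I (A * (2 * A) + B * B) := fun A B a b =>
    C.I_pos _ (add_mem (C.J.mul_mem_right _ a) (C.J.mul_mem_right _ b)) fun x => by
      simp only [map_add, map_mul, map_ofNat]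
      nlinarith [mul_self_nonneg (C.ev x A), mul_self_nonneg (C.ev x B)]
  have hq := hp (ε • D.d 0 w + 2 * D.V (g 1) (g 2) w + D.dv (g 1) (g 2) * w)
    (D.lap w + (g 1 ^ 2 + g 2 ^ 2 + ε • g 0) * w + k * w)
    (add_mem (add_mem (by rw [Algebra.smul_def]; exact C.J.mul_mem_left _ h0)
      (C.J.mul_mem_left _ (add_mem (C.J.mul_mem_left _ h1) (C.J.mul_mem_left _ h2))))
      (C.J.mul_mem_left _ hw))
    (add_mem (add_mem (add_mem (C.J_d _ _ h1) (C.J_d _ _ h2)) (C.J.mul_mem_left _ hw))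
      (C.J.mul_mem_left _ hw))
  rw [map_add C.I, map_add C.I, map_add C.I, map_add C.I, map_add C.I, map_add C.I (_ + _) (D.d 2 _),
    map_add C.I (D.d 0 _), C.I_d _ _ (m _ _ _), C.I_d _ _ (m _ _ _), C.I_d _ _ (m _ _ _)] at e
  linarith

end Pool.Agent.MP_ed9623_an.S64
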