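import Pool.Agent.MP_ed9623_an.S64.SpecA

/-! The weights of the lens satisfy the hypotheses of the Carleman inequality for the heat
operator. -/

open Filter Topology Asymptotics

namespace Pool.Agent.MP_ed9623_an.S64

namespace AHeatV

variable {R : Type} [CommRing R] [Algebra ℝ R] {D : DR R} {X : Type} (L : Ln D X)

/-- Small lenses, then large parameters. -/
def fl : Filter (ℕ × X) := atTop.bind fun b : ℝ => atTop ×ˢ 𝓟 (L.dom b)

theorem ev_fl {p : ℕ × X → Prop} : (∀ᶠ z in fl L, p z) ↔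
    ∀ᶠ b : ℝ in atTop, ∀ᶠ N : ℕ in atTop, ∀ x ∈ L.dom b, p (N, x) := by
  simp only [fl, eventually_bind, eventually_prod_principal_iff]

theorem ev_ge (C : ℝ) : ∀ᶠ z in fl L, C ≤ (z.1 : ℝ) := (ev_fl L).2 (Eventually.of_forall fun _ =>
  (tendsto_natCast_atTop_atTop.eventually_ge_atTop C).mono fun _ h _ _ => h)

/-- The scales. -/
def W (j k : ℕ) (z : ℕ × X) : ℝ := (z.1 : ℝ) ^ j * L.ev z.2 L.si ^ k

/-- `g` is the main part of `f`. -/
def Ap (j k : ℕ) (f g : ℕ × X → ℝ) : Prop :=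
  (fun z => f z - g z) =o[fl L] W L j k ∧ g =O[fl L] W L j k

variable {L} {j k j' k' : ℕ} {f g f' g' : ℕ × X → ℝ}

theorem Ap.big (h : Ap L j k f g) : f =O[fl L] W L j k :=
  (h.1.isBigO.add h.2).congr_left fun _ => sub_add_cancel _ _

theorem Ap.congr (h : Ap L j k f g) (e : ∀ z, f z = f' z) (e' : ∀ z, g z = g' z) :
    Ap L j k f' g' := by rwa [← funext e, ← funext e']

theorem Ap.add (h : Ap L j k f g) (h' : Ap L j k f' g') :
    Ap L j k (fun z => f z + f' z) fun z => g z + g' z :=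
  ⟨(h.1.add h'.1).congr_left fun _ => by ring, h.2.add h'.2⟩

theorem Ap.cmul (h : Ap L j k f g) (c : ℝ) : Ap L j k (fun z => c * f z) fun z => c * g z :=
  ⟨(h.1.const_mul_left c).congr_left fun _ => by ring, h.2.const_mul_left c⟩

theorem Ap.mul (h : Ap L j k f g) (h' : Ap L j' k' f' g') :
    Ap L (j + j') (k + k') (fun z => f z * f' z) fun z => g z * g' z := by
  have e : ∀ z, W L j k z * W L j' k' z = W L (j + j') (k + k') z := fun z => by
    simp only [W]; ring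
  exact ⟨((h.1.mul_isBigO h'.big).add (h.2.mul_isLittleO h'.1)).congr (fun _ => by ring) e,
    (h.2.mul h'.2).congr_right e⟩

theorem Ap.refl (h : f =O[fl L] W L j k) : Ap L j k f f :=
  ⟨(isLittleO_zero _ _).congr_left fun _ => (sub_self _).symm, h⟩

theorem Ap.small (h : f =o[fl L] W L j k) : Ap L j k f fun _ => 0 :=
  ⟨h.congr_left fun _ => (sub_zero _).symm, isBigO_zero _ _⟩

variable (t : ∀ x, 1 ≤ L.ev x L.si)
include t

theorem W_nonneg (j k : ℕ) (z : ℕ × X) : 0 ≤ W L j k z :=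
  mul_nonneg (by positivity) (pow_nonneg (zero_le_one.trans (t _)) _)

theorem Ap.up (h : Ap L j k f g) (hj : j < j') (hk : k ≤ k') : Ap L j' k' f fun _ => 0 := by
  refine Ap.small (h.big.trans_isLittleO (IsLittleO.of_bound fun c hc => ?_))
  filter_upwards [ev_ge L 1, ev_ge L (1 / c)] with z h1 h2
  rw [Real.norm_of_nonneg (W_nonneg t _ _ _), Real.norm_of_nonneg (W_nonneg t _ _ _), W, W,
    ← mul_assoc]
  refine mul_le_mul ?_ (pow_le_pow_right₀ (t _) hk) (pow_nonneg (zero_le_one.trans (t _)) _)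
    (by positivity)
  rw [div_le_iff₀ hc] at h2
  refine le_trans ?_ (mul_le_mul_of_nonneg_left (pow_le_pow_right₀ h1 hj) hc.le)
  rw [pow_succ]
  nlinarith [pow_nonneg (zero_le_one.trans h1) j]

theorem Ap.ev (h : Ap L j k f g) {η : ℝ} (hη : 0 < η) :
    ∀ᶠ z in fl L, |f z - g z| ≤ η * W L j k z :=
  (h.1.def hη).mono fun z a => by rwa [Real.norm_of_nonneg (W_nonneg t _ _ _)] at a

omit t in
theorem bound {J : Type} [Fintype J] {F : J → ℕ × X → ℝ} {w : ℕ × X → ℝ}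
    (h : ∀ i, F i =O[fl L] w) : ∃ K : ℝ, 0 ≤ K ∧ ∀ᶠ z in fl L, ∀ i, F i z ^ 2 ≤ K * w z ^ 2 := by
  choose c hc using fun i => (h i).bound
  refine ⟨∑ i, c i ^ 2, by positivity, (eventually_all.2 hc).mono fun z a i => ?_⟩
  have := pow_le_pow_left₀ (norm_nonneg _) (a i) 2
  rw [mul_pow, Real.norm_eq_abs, Real.norm_eq_abs, sq_abs, sq_abs] at this
  exact this.trans (mul_le_mul_of_nonneg_right (Finset.single_le_sum
    (f := fun i => c i ^ 2) (fun _ _ => sq_nonneg _) (Finset.mem_univ i)) (sq_nonneg _))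

end AHeatV

open AHeatV in
theorem rowHeatV : OfHeatV := by
  intro hS R _ _ D X L ε s _
  obtain ⟨sA, -, -, sui, sdi, mul, omul, le, lt, dy, dso, evy, evo, ht⟩ := hS L
  have t : ∀ x, 1 ≤ L.ev x L.si := fun x => (ht x).1
  have sy : ∀ k, ∀ a ∈ L.Sy k, Ap L 0 k (fun z => L.ev z.2 a) fun z => L.ev z.2 a := fun k a h => by
    obtain ⟨C, -, hC⟩ := evy k a h
    refine Ap.refl (IsBigO.of_bound C (Eventually.of_forall fun z => ?_))
    rw [Real.norm_of_nonneg (W_nonneg t _ _ _), W, pow_zero, one_mul]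
    exact hC _
  have lin : ∀ k, ∀ a ∈ L.Sy k, ∀ o ∈ L.So k, ∀ b ∈ L.Sy k, ∀ F : ℕ → R,
      (∀ N, F N = (N : ℝ) • (a + o) + b) →
      Ap L 1 k (fun z => L.ev z.2 (F z.1)) fun z => z.1 * L.ev z.2 a := fun k a ha o ho b hb F e => by
    have nn : Ap L 1 0 (fun z => z.1) fun z => z.1 :=
      Ap.refl ((isBigO_refl _ _).congr_left fun z => by simp [W])
    have so : Ap L 0 k (fun z => L.ev z.2 o) fun _ => 0 :=
      Ap.small (IsLittleO.of_bound fun c hc => (ev_fl L).2 ((evo k o ho c hc).mono fun _ h =>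
        Eventually.of_forall fun N x hx => by
          rw [Real.norm_of_nonneg (W_nonneg t _ _ _), W, pow_zero, one_mul]
          exact h x hx))
    have h1 := nn.mul ((sy k a ha).add so)
    rw [zero_add k] at h1
    exact (h1.add ((sy k b hb).up t one_pos le_rfl)).congr (fun z => by simp [e, mul_add]) fun z => by simp
  have nA : ∀ i, D.d i L.d ∈ L.A := fun i => L.A_d i _ L.dA
  have hQ : ∀ i, D.d i L.d * L.di ∈ L.Sy 2 := fun i => mul 0 2 _ (sA _ (nA i)) _ sdi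
  have hU : ∀ i, 2 * D.d i L.u * L.ui ∈ L.So 2 := fun i => lt 1 2 one_lt_two (le 1 (by
    rw [mul_comm]
    exact omul 1 0 _ sui _ (sA _ (mul_mem (ofNat_mem _ 2) (L.A_d i _ L.uA)))))
  have d4 : L.di ^ 2 ∈ L.Sy 4 := sq L.di ▸ mul 2 2 _ sdi _ sdi
  have lp : ∀ a ∈ L.Sy 4, D.lap a ∈ L.Sy 8 := fun a h =>
    add_mem (dy 6 1 _ (dy 4 1 _ h)) (dy 6 2 _ (dy 4 2 _ h))
  have G := fun i => lin 2 _ (neg_mem (hQ i)) _ (hU i) _
    ((L.Sy 2).smul_of_tower_mem (s : ℝ) (hQ i)) (fun N => L.gw N s i) fun N => by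
      rw [Ln.gw, neg_add_eq_sub]
  have H := fun j i => lin 4 (D.d i L.d * D.d j L.d * L.di ^ 2)
    (mul 0 4 _ (sA _ (mul_mem (nA i) (nA j))) _ d4) _
    (sub_mem (dso 2 j _ (hU i)) (lt 2 4 (by norm_num) (mul 0 2 _ (sA _ (L.A_d j _ (nA i))) _ sdi))) _
    ((L.Sy 4).smul_of_tower_mem (s : ℝ) (dy 2 j _ (hQ i))) (fun N => D.d j (L.gw N s i)) fun N => by
      rw [Ln.gw, map_add, map_smul, map_smul, map_sub, D.mul j (D.d i L.d), D.d_inv j L.d_di]
      congr 2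
      ring
  have hP : ∀ i, 2 * D.d i L.u * L.ui - D.d i L.d * L.di ∈ L.Sy 2 := fun i =>
    sub_mem (le 2 (hU i)) (hQ i)
  have T1 := lin 8 _ (lp _ (add_mem (dy 2 1 _ (hP 1)) (dy 2 2 _ (hP 2)))) _ (zero_mem _) _
    ((L.Sy 8).smul_of_tower_mem (s : ℝ) (lp _ (add_mem (dy 2 1 _ (hQ 1)) (dy 2 2 _ (hQ 2)))))
    (fun N => D.lap (D.dv (L.gw N s 1) (L.gw N s 2))) fun N => by
      simp only [Ln.gw, DR.lap, DR.dv, map_add, map_smul]
      module
  have K0 := lin 4 _ d4 _ (zero_mem _) _ (zero_mem _) (fun N => (N : ℝ) • L.di ^ 2) fun N => by simp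
  have T2 := lin 8 _ (lp _ d4) _ (zero_mem _) _ (zero_mem _)
    (fun N => D.lap ((N : ℝ) • L.di ^ 2)) fun N => by simp [DR.lap]
  have p := (((G 1).mul (G 1)).add ((G 2).mul (G 2))).add
    (((G 0).cmul ε).up t (j' := 2) (k' := 4) one_lt_two (by norm_num))
  have m1 := ((((H 1 1).mul ((G 1).mul (G 1))).add
    ((((H 1 2).mul (G 1)).mul (G 2)).cmul 2)).add ((H 2 2).mul ((G 2).mul (G 2)))).cmul 4
  have m2 := (((((G 1).mul (H 1 0)).add ((G 2).mul (H 2 0))).cmul (4 * ε)).up t (j' := 3) (k' := 8)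
    (by norm_num) (by norm_num)).add (((H 0 0).cmul (ε ^ 2)).up t (by norm_num) (by norm_num))
  have m3 := (((T1.cmul (-1)).add (T2.cmul (-1 / 2))).up t (j' := 3) (by norm_num) le_rfl).add
    (((K0.mul K0).cmul (-1 / 2)).up t (by norm_num) le_rfl)
  have m := ((m1.add m2).add m3).add ((K0.mul p).cmul (-1))
  obtain ⟨K1, k1, b1⟩ := bound (J := Unit) fun _ => p.big
  obtain ⟨K2, k2, b2⟩ := bound fun i => (G i).big
  obtain ⟨K3, k3, b3⟩ := bound fun q : Fin 3 × Fin 3 =>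
    ((H q.1 q.2).up t (j' := 2) one_lt_two le_rfl).big
  have e16 : (0 : ℝ) < 1 / 16 := by norm_num
  refine ((ev_fl L).1 (?_ : ∀ᶠ z in fl L, HeH D (L.ev z.2) ε z.1 (1 / 2) (K1 + K2 + K3)
    (L.gw z.1 s) (L.di ^ 2) ((z.1 : ℝ) • L.di ^ 2))).mono fun b h => ⟨_, _, one_half_pos, h⟩
  filter_upwards [m.ev t one_pos, (H 1 1).ev t e16, (H 1 2).ev t e16, (H 2 2).ev t e16, b1, b2, b3]
    with z a0 a1 a2 a3 c1 c2 c3
  obtain ⟨N, x⟩ := z
  have w : ∀ j k, W L j (2 * k) (N, x) = N ^ j * L.ev x L.di ^ k := fun j k => by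
    rw [W, pow_mul, (ht x).2]
  have w14 : W L 1 4 (N, x) = _ := w 1 2
  have w24 : W L 2 4 (N, x) = _ := w 2 2
  have w12 : W L 1 2 (N, x) = _ := w 1 1
  have w38 : W L 3 8 (N, x) = _ := w 3 4
  have c1 := c1 ()
  change _ ≤ 1 * W L 3 8 _ at a0
  change _ ≤ K1 * W L 2 4 _ ^ 2 at c1
  simp only [w14, w24, w12, w38, L.d2, map_mul, map_pow, map_neg, map_smul, map_one, smul_eq_mul,
    abs_le] at a0 a1 a2 a3 c1 c2 c3
  refine ⟨?_, fun ξ η => ?_, ?_, ?_, fun i _ => ?_, fun i j _ _ => ?_⟩ <;>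
    simp only [hsc, map_mul, map_pow, map_add, map_sub, map_smul, map_ofNat, smul_eq_mul]
  · positivity
  · have q : 0 ≤ (N : ℝ) * L.ev x L.di ^ 2 := by positivity
    have u1 := mul_nonneg q (sq_nonneg (L.ev x (D.d 1 L.d) * ξ + η))
    have u2 := mul_le_mul_of_nonneg_right a1.1 (sq_nonneg ξ)
    have u3 := mul_le_mul_of_nonneg_right a3.1 (sq_nonneg η)
    have u4 := mul_le_mul_of_nonneg_right a2.1 (sq_nonneg (ξ + η))
    have u5 := mul_le_mul_of_nonneg_right a2.2 (sq_nonneg (ξ - η))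
    linarith
  · have q : 0 ≤ (N : ℝ) ^ 3 * L.ev x L.di ^ 4 := by positivity
    have u1 := mul_nonneg q (sq_nonneg (L.ev x (D.d 1 L.d)))
    have u2 := mul_nonneg q (sq_nonneg (L.ev x (D.d 1 L.d) ^ 2))
    linarith [a0.1]
  · have q : 0 ≤ (K2 + K3) * ((N : ℝ) ^ 2 * L.ev x L.di ^ 2) ^ 2 := by positivity
    linarith
  · have q : 0 ≤ (K1 + K3) * ((N : ℝ) * L.ev x L.di) ^ 2 := by positivity
    linarith [c2 i]
  · have q : 0 ≤ (K1 + K2) * ((N : ℝ) ^ 2 * L.ev x L.di ^ 2) ^ 2 := by positivity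
    linarith [c3 (i, j)]

end Pool.Agent.MP_ed9623_an.S64
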