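import Pool.Agent.MP_ed9623_an.S64.SpecA

/-! The cofactor operator acting on expansions. -/

open Filter Topology

namespace Pool.Agent.MP_ed9623_an.S64

namespace ALX

variable {R : Type} [CommRing R] [Algebra ℝ R] {D : DR R}

theorem LL_add (φ f g : R) : D.LL φ (f + g) = D.LL φ f + D.LL φ g := by
  simp only [DR.LL, DR.T2, map_add]
  ring

theorem LL_sub (φ f g : R) : D.LL φ (f - g) = D.LL φ f - D.LL φ g := by
  simp only [DR.LL, DR.T2, map_sub]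
  ring

theorem d_LL (φ f : R) : D.d 2 (D.LL φ f) = D.LL (D.d 2 φ) f + D.LL φ (D.d 2 f) := by
  simp only [DR.LL, DR.T2, map_add, map_sub, D.mul, D.c21, D.d_ofNat]
  ring

theorem LL_mul (φ σ c f : R) : D.LL φ (c * f) = c * D.LL φ f
    + 2 * (D.AA φ σ * D.d 2 c - D.QQ φ σ * D.XX σ c) * D.d 2 f
    + 2 * (D.d 2 (D.d 2 φ) * D.d 1 c - D.d 1 (D.d 2 φ) * D.d 2 c) * (D.d 1 f + σ * D.d 2 f)
    + D.LL φ c * f := by
  simp only [DR.LL, DR.T2, DR.AA, DR.QQ, DR.XX, map_add, D.mul, D.c21]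
  ring

theorem it_LL (r : ℕ) (φ f : R) : (D.d 2)^[r + 1] (D.LL φ f)
    = (D.d 2)^[r] (D.LL (D.d 2 φ) f) + (D.d 2)^[r] (D.LL φ (D.d 2 f)) := by
  rw [Function.iterate_succ_apply, d_LL, iterate_map_add]

variable {n : ℝ} {α ψ : R} (M : Mc D n α ψ)

theorem L0 (S : Submodule M.A R) (r : ℕ) : ∀ φ ∈ M.A, ∀ f : R,
    (∀ l ≤ r, ∀ φ' ∈ M.A, D.LL φ' ((D.d 2)^[l] f) ∈ S) → (D.d 2)^[r] (D.LL φ f) ∈ S := by
  induction r with
  | zero => exact fun φ hφ f h => h 0 le_rfl φ hφ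
  | succ r ih =>
    intro φ hφ f h
    rw [it_LL]
    exact add_mem (ih _ (M.A_d 2 φ hφ) f fun l hl => h l (by omega))
      (ih φ hφ _ fun l hl => h (l + 1) (by omega))

theorem L1 (S : Submodule M.A R) (r : ℕ) : ∀ φ ∈ M.A, ∀ f : R,
    (∀ l < r, ∀ φ' ∈ M.A, D.LL φ' ((D.d 2)^[l] f) ∈ S) →
    (D.d 2)^[r] (D.LL φ f) - D.LL φ ((D.d 2)^[r] f) ∈ S := by
  induction r with
  | zero => exact fun φ hφ f h => by simp
  | succ r ih =>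
    intro φ hφ f h
    rw [it_LL, add_sub_assoc]
    exact add_mem (L0 M S r _ (M.A_d 2 φ hφ) f fun l hl => h l (by omega))
      (ih φ hφ _ fun l hl => h (l + 1) (by omega))

theorem L2 (S : Submodule M.A R) (r : ℕ) : ∀ φ ∈ M.A, ∀ f : R,
    (∀ l < r, ∀ φ' ∈ M.A, D.LL φ' ((D.d 2)^[l] f) ∈ S) →
    (D.d 2)^[r + 1] (D.LL φ f) - D.LL φ ((D.d 2)^[r + 1] f)
      - ((r : R) + 1) * D.LL (D.d 2 φ) ((D.d 2)^[r] f) ∈ S := by
  induction r with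
  | zero => exact fun φ hφ f h => by simp [d_LL]
  | succ r ih =>
    intro φ hφ f h
    have a := add_mem (L1 M S (r + 1) _ (M.A_d 2 φ hφ) f h)
      (ih φ hφ (D.d 2 f) fun l hl => h (l + 1) (by omega))
    rw [it_LL]
    convert a using 1
    rw [Function.iterate_succ_apply _ (r + 1) f, Function.iterate_succ_apply _ r f]
    push_cast
    ring

theorem LL_mem {S : Submodule M.A R} {φ f : R} (hφ : φ ∈ M.A)
    (h : ∀ i j, i ≠ 0 → j ≠ 0 → D.d i (D.d j f) ∈ S) : D.LL φ f ∈ S := by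
  have a := fun i j => M.A_d i _ (M.A_d j φ hφ)
  exact add_mem (sub_mem (M.mul_mem (a 1 1) (h 2 2 (by decide) (by decide)))
    (M.mul_mem (ofNat_mem _ 2) (M.mul_mem (a 1 2) (h 1 2 (by decide) (by decide)))))
    (M.mul_mem (a 2 2) (h 1 1 (by decide) (by decide)))

theorem LL_A {φ f : R} (hφ : φ ∈ M.A) (hf : f ∈ M.A) : D.LL φ f ∈ M.A := by
  have a := fun i j => M.A_d i _ (M.A_d j φ hφ)
  have b := fun i j => M.A_d i _ (M.A_d j f hf)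
  exact add_mem (sub_mem (mul_mem (a 1 1) (b 2 2))
    (mul_mem (ofNat_mem _ 2) (mul_mem (a 1 2) (b 1 2)))) (mul_mem (a 2 2) (b 1 1))

theorem AA_A {φ σ : R} (hφ : φ ∈ M.A) (hσ : σ ∈ M.A) : D.AA φ σ ∈ M.A := by
  have a := fun i j => M.A_d i _ (M.A_d j φ hφ)
  exact add_mem (add_mem (a 1 1) (mul_mem (mul_mem (ofNat_mem _ 2) hσ) (a 1 2)))
    (mul_mem (pow_mem hσ 2) (a 2 2))

theorem QQ_A {φ σ : R} (hφ : φ ∈ M.A) (hσ : σ ∈ M.A) : D.QQ φ σ ∈ M.A := by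
  have a := fun i j => M.A_d i _ (M.A_d j φ hφ)
  exact add_mem (a 1 2) (mul_mem hσ (a 2 2))

theorem XX_A {c σ : R} (hc : c ∈ M.A) (hσ : σ ∈ M.A) : D.XX σ c ∈ M.A :=
  add_mem (M.A_d 1 c hc) (mul_mem hσ (M.A_d 2 c hc))

theorem a_mem (σ : R) {i j : ℕ} (h : i ≤ j) : (D.d 2)^[i] α ∈ M.Mj σ j :=
  Submodule.subset_span (Or.inl ⟨i, h, rfl⟩)

end ALX

open ALX

theorem rowLX : OfLX := by
  intro hX hR hE R _ _ D n α ψ M σ τ Qi ns h φ hφ β hβ v c c' hA hv hα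
  obtain ⟨x1, x2, x3, x4⟩ := hX M h
  obtain ⟨-, -, -, -, -, -, -, r1, r2, -, -⟩ := hR M
  obtain ⟨-, -, -, -, -, -, -, -, e9⟩ := hE M h
  have two : (2 : R) ∈ M.A := ofNat_mem _ 2
  have hc : c ∈ M.A := hv.1
  have hφ2 := M.A_d 2 φ hφ
  have hl := AA_A M hφ2 h.σA
  have hq := QQ_A M hφ h.σA
  have LR : ∀ m p, ∀ φ' ∈ M.A, ∀ f ∈ M.RM m p, D.LL φ' f ∈ M.RM (m + 2) p :=
    fun m p φ' hφ' f hf => LL_mem M hφ' fun i j hi hj =>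
      r2 m p [j, i] (by simp [Sp, hi, hj]) f hf
  have LM : ∀ j, ∀ φ' ∈ M.A, ∀ f ∈ M.Mj σ j, D.LL φ' f ∈ M.Mj σ (j + 2) :=
    fun k φ' hφ' f hf => LL_mem M hφ' fun i j hi hj =>
      (x2 _ _ ((x2 _ _ hf).2.2 j hj)).2.2 i hi
  have TM : ∀ j, ∀ φ' ∈ M.A, ∀ a ∈ M.A, D.LL φ' (a * (D.d 2)^[j] α)
      - D.AA φ' σ * a * (D.d 2)^[j + 2] α ∈ M.Mj σ (j + 1) := fun j φ' hφ' a ha =>
    (x4 j a ha).2.2 _ (M.A_d 1 _ (M.A_d 1 _ hφ')) _ (M.A_d 1 _ (M.A_d 2 _ hφ')) _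
      (M.A_d 2 _ (M.A_d 2 _ hφ'))
  refine ⟨sub_mem (mul_mem (mul_mem two hc) hl) (mul_mem (mul_mem two hq) (XX_A M hc h.σA)),
    ?_, ?_⟩
  · obtain ⟨m, p, hm⟩ := hv.2.1
    exact ⟨_, _, LR m p φ hφ v hm⟩
  obtain ⟨N1, h1⟩ := eventually_atTop.1 hv.2.2
  obtain ⟨N2, h2⟩ := eventually_atTop.1 (e9 _ _ _ _ _ hv)
  obtain ⟨N3, h3⟩ := eventually_atTop.1 hα.2.2
  refine eventually_atTop.2 ⟨N1 + N2 + N3 + 4, fun r hr => ?_⟩
  obtain ⟨k, rfl⟩ : ∃ k, r = k + 4 := ⟨r - 4, by omega⟩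
  obtain ⟨e, he, a1⟩ := h1 (k + 4) (by omega)
  obtain ⟨e1, he1, a2⟩ := h1 (k + 3) (by omega)
  have a3 := h2 (k + 3) (by omega)
  obtain ⟨e2, he2, a4⟩ := h3 (k + 2) (by omega)
  rw [show (((k + 4 : ℕ) : ℤ) + -2).toNat = k + 2 by omega,
    show (((k + 4 : ℕ) : ℤ) + -2 - 1).toNat = k + 1 by omega] at a1
  rw [show (((k + 3 : ℕ) : ℤ) + -2).toNat = k + 1 by omega,
    show (((k + 3 : ℕ) : ℤ) + -2 - 1).toNat = k by omega] at a2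
  rw [show (((k + 3 : ℕ) : ℤ) + -2 - 1).toNat = k by omega] at a3
  rw [show (((k + 2 : ℕ) : ℤ) + -1).toNat = k + 1 by omega,
    show (((k + 2 : ℕ) : ℤ) + -1 - 1).toNat = k by omega] at a4
  rw [show (((k + 4 : ℕ) : ℤ) + -1).toNat = k + 3 by omega,
    show (((k + 4 : ℕ) : ℤ) + -1 - 1).toNat = k + 2 by omega]
  set S := M.Mj σ (k + 2) ⊔ M.RM (((k + 4 : ℕ) : ℤ) + -6) 8 with hS
  have sl : ∀ {f}, f ∈ M.Mj σ (k + 2) → f ∈ S := fun hf => Submodule.mem_sup_left hf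
  have hL : ∀ m : ℤ, m ≤ k - 4 → ∀ φ' ∈ M.A, ∀ f ∈ M.Mj σ k ⊔ M.RM m 8, D.LL φ' f ∈ S := by
    intro m hm φ' hφ' f hf
    obtain ⟨y, hy, z, hz, rfl⟩ := Submodule.mem_sup.1 hf
    rw [LL_add]
    exact add_mem (sl (LM k φ' hφ' y hy))
      (Submodule.mem_sup_right (r1 _ _ _ _ (by omega) (by omega) (LR m 8 φ' hφ' z hz)))
  have ct := add_mem hc (mul_mem M.dA he)
  have ct1 := add_mem hc (mul_mem M.dA he1)
  obtain ⟨y, hy, z, hz, a5⟩ := Submodule.mem_sup.1 a1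
  obtain ⟨c1, hc1, a6⟩ := x3 k y hy
  have b1 := L2 M S (k + 3) φ hφ v fun l hl' φ' hφ' => hL _ (by omega) φ' hφ' _ (a3 l hl')
  have b2 := hL _ (by omega) _ hφ2 _ a2
  have b3 := sl (TM (k + 1) _ hφ2 _ ct1)
  have b4 := hL _ (by omega) _ hφ _ (Submodule.add_mem_sup a6 hz)
  have b5 := sl (TM (k + 1) _ hφ _ hc1)
  have b6 := sl (x4 (k + 2) 1 (one_mem _)).1
  have b7 := sl (a_mem M σ (le_refl (k + 2)))
  have b8 := L2 M S (k + 1) φ hφ α fun l hl' φ' hφ' =>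
    sl (LM k φ' hφ' _ (a_mem M σ (by omega)))
  have b9 : (D.d 2)^[k + 2] (D.LL φ α) ∈ S := by
    have := add_mem (sup_le_sup (x1 k (k + 2) (by omega))
      (r1 _ _ (((k + 4 : ℕ) : ℤ) + -6) 8 (by omega) (by omega)) a4)
      (M.mul_mem (add_mem hα.1 (mul_mem M.dA he2)) (sl (a_mem M σ (by omega : k + 1 ≤ k + 2))))
    rwa [sub_add_cancel] at this
  have b10 := sl (TM (k + 1) _ hφ2 _ (one_mem _))
  have n3 : ((k + 3 : ℕ) : R) + 1 ∈ M.A := add_mem (natCast_mem _ _) (one_mem _)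
  have n1 : ((k + 1 : ℕ) : R) + 1 ∈ M.A := add_mem (natCast_mem _ _) (one_mem _)
  refine ⟨(((k + 3 : ℕ) : R) + 1) * D.AA (D.d 2 φ) σ * e1 + β * c1
    - (((k + 1 : ℕ) : R) + 1) * D.AA (D.d 2 φ) σ * e
    + 2 * (β * D.d 2 (c + M.d * e) - D.QQ φ σ * (τ * e + D.XX σ e)),
    add_mem (sub_mem (add_mem (mul_mem (mul_mem n3 hl) he1) (mul_mem hβ hc1))
      (mul_mem (mul_mem n1 hl) he)) (mul_mem two (sub_mem (mul_mem hβ (M.A_d 2 _ ct))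
        (mul_mem hq (add_mem (mul_mem h.τA he) (XX_A M he h.σA))))), ?_⟩
  have w := mul_mem two (sub_mem (mul_mem (M.A_d 2 _ hφ2) (M.A_d 1 _ ct))
    (mul_mem (M.A_d 1 _ hφ2) (M.A_d 2 _ ct)))
  have fin := add_mem (add_mem (add_mem (add_mem (add_mem b1 (M.mul_mem n3 (add_mem b2 b3)))
    (add_mem b4 b5)) (M.mul_mem w b6)) (M.mul_mem (LL_A M hφ ct) b7))
    (M.mul_mem ct (sub_mem (sub_mem b9 b8) (M.mul_mem n1 b10)))
  have q1 : D.LL φ (y - c1 * (D.d 2)^[k + 1] α + z) = D.LL φ ((D.d 2)^[k + 4] v)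
      - D.LL φ ((c + M.d * e) * (D.d 2)^[k + 2] α) - D.LL φ (c1 * (D.d 2)^[k + 1] α) := by
    rw [← LL_sub, ← LL_sub, ← a5]
    congr 1
    ring
  have q2 : D.XX σ (c + M.d * e) = D.XX σ c + M.d * (τ * e + D.XX σ e) := by
    have := h.tan
    simp only [DR.XX, map_add, D.mul] at this ⊢
    linear_combination e * this
  have q3 : D.d 2 ((D.d 2)^[k + 2] α) = (D.d 2)^[k + 3] α :=
    (Function.iterate_succ_apply' _ _ _).symm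
  convert fin using 1
  rw [q1, LL_mul φ σ (c + M.d * e), q2, q3, hA, LL_sub, one_mul, one_mul, DR.lx]
  push_cast
  ring

end Pool.Agent.MP_ed9623_an.S64
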