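import Pool.Agent.MP_ed9623_an.S64.SpecA

/-! The calculus of orders on a lens. -/

open Filter Topology

namespace Pool.Agent.MP_ed9623_an.S64

namespace AMc

variable {R : Type} [CommRing R] [Algebra ℝ R] {D : DR R} {X : Type}

/-- The three basic functions. -/
def ff (D : DR R) (n : ℝ) (α ψ : R) : Fin 3 → R := fun i => if i = 0 then α else D.yy n ψ i

theorem ff_zero (n : ℝ) (α ψ : R) : ff D n α ψ 0 = α := if_pos rfl

theorem ff_ne (n : ℝ) (α ψ : R) {j : Fin 3} (h : j ≠ 0) : ff D n α ψ j = D.yy n ψ j := if_neg h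

theorem le_sm (L : Ln D X) (f : Fin 3 → R) (b : ℝ) (N : ℕ) : (4 * b ^ 2) ^ N ≤ L.sm f b N :=
  le_add_of_nonneg_right (by positivity)

theorem sm_nonneg (L : Ln D X) (f : Fin 3 → R) (b : ℝ) (N : ℕ) : 0 ≤ L.sm f b N :=
  le_trans (by positivity) (le_sm L f b N)

/-- The classes as submodules. -/
def rw (h : RwBS) (L : Ln D X) (f : Fin 3 → R) (g : ℝ → ℕ → NNReal) (m p : ℤ) :
    Submodule L.A R where
  carrier := L.Rw (L.sm f) g m p
  zero_mem' := (h L _ (sm_nonneg L f)).1 g m p
  add_mem' := fun a b => (h L _ (sm_nonneg L f)).2.1 g m p _ a _ b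
  smul_mem' := fun a _ b => (h L _ (sm_nonneg L f)).2.2.1 g m p a.1 a.2 _ b

theorem quad_le {A : Subalgebra ℝ R} {n : ℝ} {α ψ : R} (S : Submodule A R)
    (h : ∀ i j l l', D.w l (ff D n α ψ i) * D.w l' (ff D n α ψ j) ∈ S) : Qd D A n α ψ ≤ S := by
  have gen : ∀ a ∈ {f | ∃ l, f = D.w l α ∨ ∃ j, j ≠ 0 ∧ f = D.w l (D.yy n ψ j)},
      ∃ i l, a = D.w l (ff D n α ψ i) := by
    rintro a ⟨l, rfl | ⟨j, hj, rfl⟩⟩
    · exact ⟨0, l, by rw [ff_zero]⟩
    · exact ⟨j, l, by rw [ff_ne n α ψ hj]⟩
  refine Submodule.span_le.2 ?_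
  rintro _ ⟨a, ha, b, hb, rfl⟩
  change a * b ∈ S
  induction ha using Submodule.span_induction with
  | mem a ha =>
    obtain ⟨i, l, rfl⟩ := gen a ha
    induction hb using Submodule.span_induction with
    | mem b hb =>
      obtain ⟨j, l', rfl⟩ := gen b hb
      exact h i j l l'
    | zero => rw [mul_zero]; exact zero_mem _
    | add b b' _ _ h1 h2 => rw [mul_add]; exact add_mem h1 h2
    | smul c b _ h1 => rw [mul_smul_comm]; exact S.smul_mem c h1
  | zero => rw [zero_mul]; exact zero_mem _
  | add a a' _ _ h1 h2 => rw [add_mul]; exact add_mem h1 h2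
  | smul c a _ h1 => rw [smul_mul_assoc]; exact S.smul_mem c h1

end AMc

open AMc in
theorem rowMc : OfMc := by
  intro hB hT hH hI hQ hF R _ _ D X L n α ψ hαA hψ hα hy hW hA
  have hf : ∀ i, ff D n α ψ i ∈ L.A ∧ ff D n α ψ i ∈ L.F := fun i => by
    by_cases h : i = 0
    · rw [h, ff_zero]; exact ⟨hαA, hα⟩
    · rw [ff_ne n α ψ h]
      exact ⟨add_mem (L.A_d _ _ (L.A_d _ _ (L.A_d _ _ hψ))) (L.A.smul_mem (L.A_d _ _ hψ) n), hy i h⟩
  obtain ⟨-, -, -, b4, b5, b6, b7, b8⟩ := hB L _ (sm_nonneg L (ff D n α ψ))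
  refine ⟨{ A := L.A
            A_d := L.A_d
            d := L.d
            di := L.di
            d_di := L.d_di
            dA := L.dA
            d0 := L.d0
            d2 := L.d2
            F := L.F
            F_d := L.F_d
            ψA := hψ
            αF := hα
            yF := hy
            eW := hW
            eA := hA
            Γ := ℝ → ℕ → NNReal
            z := 0
            add := fun g g' => g + g'
            Rw := rw hB L (ff D n α ψ)
            le_F := fun _ _ _ _ h => h.1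
            mono_p := fun g m p p' h => b4 g m p p' h
            mono_m := fun g m p => b5 g m p
            mono_l := fun g g' m p => b6 g (g + g') m p fun _ _ => le_self_add
            mono_r := fun g g' m p => b6 g' (g + g') m p fun _ _ => le_add_self
            shift := b7
            unit := b8
            quad := fun g m p => quad_le _ fun i j l l' => hQ L _ hf i j l l' g m p
            hardy := hH L _ (le_sm L _)
            inv := hI L _ (le_sm L _)
            boot := hT L _ (sm_nonneg L _) }, rfl, rfl, fun h => ?_⟩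
  obtain ⟨b, hb⟩ := hF L (ff D n α ψ) fun i => by
    by_cases hi : i = 0
    · rw [hi, ff_zero]; exact h.1
    · rw [ff_ne n α ψ hi]; exact h.2 i hi
  exact ⟨b, fun x hx => by simpa only [ff_zero] using hb x hx 0⟩

end Pool.Agent.MP_ed9623_an.S64
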