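import Pool.Agent.MP_ed9623_an.S64.SpecA

/-! Quadratic terms are negligible. -/

open Filter Topology

namespace Pool.Agent.MP_ed9623_an.S64

namespace AQuad

theorem up {C t e B A n n' : ℝ} {q : ℕ} (h : t ≤ C * n' ^ q * e * B ^ 3) (e0 : 0 ≤ e) (B0 : 0 ≤ B)
    (hB : B ≤ A) (n0 : 0 ≤ n') (hn : n' ≤ n) : t ≤ |C| * n ^ q * e * A ^ 3 := by
  have := B0.trans hB
  have := n0.trans hn
  refine h.trans ?_
  gcongr
  exact le_abs_self C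

theorem pt {Φ d a a' K K' A n : ℝ} {N N' q q' : ℕ} {m : ℤ} (hΦ : 1 ≤ Φ) (d0 : 0 < d) (d1 : d ≤ 1)
    (hN : 8 * N ≤ 6 * N' + 6 * N') (n1 : 1 ≤ n) (A0 : 0 ≤ A) (K0 : 0 ≤ K) (K0' : 0 ≤ K')
    (h : a ^ 8 * Φ ^ (6 * N') ≤ K * n ^ q * d ^ (8 * m.natAbs) * A ^ 3)
    (h' : a' ^ 8 * Φ ^ (6 * N') ≤ K' * n ^ q' * d ^ 0 * A ^ 3) :
    (Φ ^ N * d ^ m * (a * a')) ^ 2 ≤ (K * K' + 1) * n ^ (q + q') * √A ^ 3 := by
  have h1 := mul_le_mul h h' (by positivity) (by positivity)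
  have h2 : d ^ m * d ^ m.natAbs ≤ 1 := by
    rw [← zpow_natCast, ← zpow_add₀ d0.ne']
    exact zpow_le_one₀ d0 d1 (by omega)
  have h3 : (d ^ m * d ^ m.natAbs) ^ 8 ≤ 1 := pow_le_one₀ (by positivity) h2
  have h4 : Φ ^ (8 * N) ≤ Φ ^ (6 * N' + 6 * N') := pow_le_pow_right₀ hΦ hN
  have h5 : K * K' ≤ (K * K' + 1) ^ 4 :=
    (le_add_of_nonneg_right zero_le_one).trans
      (le_self_pow₀ (le_add_of_nonneg_left (by positivity)) (by norm_num))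
  have h6 : n ^ (q + q') ≤ (n ^ (q + q')) ^ 4 := le_self_pow₀ (one_le_pow₀ n1) (by norm_num)
  have h7 : A ^ 6 = (√A ^ 3) ^ 4 := by
    rw [← pow_mul, show 3 * 4 = 2 * 6 by norm_num, pow_mul, Real.sq_sqrt A0]
  refine le_of_pow_le_pow_left₀ (n := 4) (by norm_num) (by positivity) ?_
  calc ((Φ ^ N * d ^ m * (a * a')) ^ 2) ^ 4
      = (d ^ m) ^ 8 * (a ^ 8 * a' ^ 8 * Φ ^ (8 * N)) := by ring
    _ ≤ (d ^ m) ^ 8 * (a ^ 8 * a' ^ 8 * Φ ^ (6 * N' + 6 * N')) := by gcongr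
    _ = (d ^ m) ^ 8 * (a ^ 8 * Φ ^ (6 * N') * (a' ^ 8 * Φ ^ (6 * N'))) := by ring
    _ ≤ (d ^ m) ^ 8 * (K * n ^ q * d ^ (8 * m.natAbs) * A ^ 3 * (K' * n ^ q' * d ^ 0 * A ^ 3)) := by
      gcongr
    _ = (d ^ m * d ^ m.natAbs) ^ 8 * (K * K' * n ^ (q + q') * A ^ 6) := by ring
    _ ≤ 1 * ((K * K' + 1) ^ 4 * (n ^ (q + q')) ^ 4 * A ^ 6) := by gcongr
    _ = ((K * K' + 1) * n ^ (q + q') * √A ^ 3) ^ 4 := by rw [h7]; ring

theorem off {Φ b t : ℝ} (N : ℕ) (h0 : 0 ≤ Φ) (h : Φ ≤ 2 * b) :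
    (Φ ^ N * t) ^ 2 ≤ (4 * b ^ 2) ^ N * t ^ 2 := by
  rw [mul_pow, ← pow_mul, mul_comm N, pow_mul]
  exact mul_le_mul_of_nonneg_right (pow_le_pow_left₀ (by positivity) (by nlinarith) N) (sq_nonneg t)

theorem fin {I B K s t n r : ℝ} {Q : ℕ} {m : ℤ} (n1 : 1 ≤ n) (B0 : 0 ≤ B) (K0 : 0 ≤ K) (s0 : 0 ≤ s)
    (t0 : 0 ≤ t) (r0 : 0 ≤ r) (h : I - s * B ≤ K * n ^ Q * t) :
    I / n ^ (2 * m) ≤ (K + B) * (r + n ^ (Q + 2 * m.natAbs) * (s + t)) := by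
  have n0 : 0 < n := by linarith
  have h1 : 1 ≤ n ^ (2 * m.natAbs) * n ^ (2 * m) := by
    rw [← zpow_natCast, ← zpow_add₀ n0.ne']
    exact one_le_zpow₀ n1 (by omega)
  have h2 : 1 ≤ n ^ Q := one_le_pow₀ n1
  have h3 : I ≤ (K + B) * (n ^ Q * (s + t)) := by
    have a1 : s * B ≤ n ^ Q * (s * B) := le_mul_of_one_le_left (by positivity) h2
    have a2 : 0 ≤ K * n ^ Q * s := by positivity
    have a3 : 0 ≤ B * n ^ Q * t := by positivity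
    linarith
  rw [div_le_iff₀ (by positivity)]
  calc I ≤ (K + B) * (n ^ Q * (s + t)) * (n ^ (2 * m.natAbs) * n ^ (2 * m)) :=
        h3.trans (le_mul_of_one_le_right (by positivity) h1)
    _ = (K + B) * (0 + n ^ (Q + 2 * m.natAbs) * (s + t)) * n ^ (2 * m) := by ring
    _ ≤ _ := by gcongr

end AQuad

open AQuad

theorem rowQuad : OfQuad := by
  intro R _ _ D X L f hf i j l l' g m p
  have hF : D.w l (f i) * D.w l' (f j) ∈ L.F :=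
    L.F.mul_mem_left _ (D.w_mem (S := L.F) L.F_d l' _ (hf j).2)
  refine ⟨hF, ?_⟩
  obtain ⟨V, V0, hV⟩ := L.vol
  filter_upwards [eventually_ge_atTop 2] with b hb
  obtain ⟨C, q, hC⟩ := L.pb _ (hf i).1 (hf i).2 l b (8 * m.natAbs) hb
  obtain ⟨C', q', hC'⟩ := L.pb _ (hf j).1 (hf j).2 l' b 0 hb
  have B0 : 0 ≤ L.I b ((L.dz m * (D.w l (f i) * D.w l' (f j))) ^ 2) :=
    L.I_pos b _ (L.sq_mem hF _) fun x _ => by rw [map_pow]; positivity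
  refine ⟨V * (|C| * |C'| + 1) + L.I b ((L.dz m * (D.w l (f i) * D.w l' (f j))) ^ 2),
    q + q' + 2 * m.natAbs, by positivity, ?_⟩
  filter_upwards [eventually_ge_atTop 1] with N hN
  have n1 : (1 : ℝ) ≤ N := by exact_mod_cast hN
  have n2 : (((2 * N + 2) / 3 : ℕ) : ℝ) ≤ N := by exact_mod_cast (by omega : (2 * N + 2) / 3 ≤ N)
  have hn : ∀ k, 0 ≤ L.nrm b ((2 * N + 2) / 3) 0 (f k) := fun k => L.nrm_nonneg _ _ _ (hf k).2
  have hs : ∀ k, L.nrm b ((2 * N + 2) / 3) 0 (f k) ≤ ∑ k, L.nrm b ((2 * N + 2) / 3) 0 (f k) :=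
    fun k => Finset.single_le_sum (fun k _ => hn k) (Finset.mem_univ k)
  have he : ∀ k, L.I b (((L.u ^ 2 * L.di) ^ ((2 * N + 2) / 3) * f k) ^ 2) =
      L.nrm b ((2 * N + 2) / 3) 0 (f k) := fun k => by simp [Ln.nrm, Ln.Wt_zero]
  refine fin n1 B0 (by positivity) (by positivity) (by positivity) (by positivity) ?_
  rw [← smul_eq_mul ((4 * b ^ 2) ^ N), ← map_smul, ← map_sub, mul_assoc V, mul_assoc V]
  refine hV b _ _ (sub_mem (L.sq_mem hF _) ?_) (by positivity) fun x hx => ?_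
  · rw [Algebra.smul_def]
    exact L.F.mul_mem_left _ (L.sq_mem hF _)
  have d0 := L.d_pos x
  have u0 := L.u_pos x
  have e : L.ev x (L.u ^ 2 * L.di) = L.ev x L.u ^ 2 / L.ev x L.d := by
    rw [map_mul, map_pow, L.ev_di, div_eq_mul_inv]
  simp only [map_sub, map_smul, map_pow, map_mul _ _ (D.w l (f i) * D.w l' (f j)), L.ev_Wt, L.ev_dz,
    smul_eq_mul]
  by_cases h2 : 2 * b * L.ev x L.d < L.ev x L.u ^ 2
  · have a := hC _ (by omega : 1 ≤ (2 * N + 2) / 3) x h2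
    have a' := hC' _ (by omega : 1 ≤ (2 * N + 2) / 3) x h2
    rw [he, e] at a a'
    refine (sub_le_self _ (by positivity)).trans ?_
    rw [map_mul]
    exact pt ((one_le_div d0).2 (L.d_lt x).le) d0
      ((L.d_lt x).le.trans (pow_le_one₀ u0.le (L.u_le x))) (by omega) n1 ((hn i).trans (hs i))
      (abs_nonneg _) (abs_nonneg _) (up a (by positivity) (hn i) (hs i) (by positivity) n2)
      (up a' (by positivity) (hn j) (hs j) (by positivity) n2)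
  · refine le_trans (sub_nonpos.2 ?_) (by positivity)
    rw [mul_assoc]
    exact off N (by positivity) ((div_le_iff₀ d0).2 (not_lt.1 h2))

end Pool.Agent.MP_ed9623_an.S64
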