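import Pool.Agent.MP_ed9623_an.S64.SpecA

/-! Expansions of the time derivatives. -/

open Filter Topology

namespace Pool.Agent.MP_ed9623_an.S64

namespace ARd

variable {R : Type} [CommRing R] [Algebra ℝ R] {D : DR R} {n : ℝ} {α ψ : R}

theorem iter_mem {S : Set R} {i : Fin 3} (h : ∀ f ∈ S, D.d i f ∈ S) (k : ℕ) :
    ∀ f ∈ S, (D.d i)^[k] f ∈ S := by
  induction k with
  | zero => exact fun _ a => a
  | succ k ih => exact fun f a => ih _ (h f a)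

/-- The functions of order less than two. -/
def W (hE : ExS) (M : Mc D n α ψ) {σ τ Qi ns : R} (h : M.Ch σ τ Qi ns) (m p : ℤ) :
    Submodule M.A R where
  carrier := {v | M.Ex σ v 2 0 m p}
  add_mem' := fun a b => by
    have := (hE M h).2.2.1 _ _ _ _ _ _ _ a b
    rwa [add_zero] at this
  zero_mem' := (hE M h).2.1 _ _ _ _ (zero_mem _)
  smul_mem' := fun a v hv => by
    have := (hE M h).2.2.2.1 _ _ _ _ _ a.1 a.2 hv
    rwa [mul_zero] at this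

theorem ex_w (hE : ExS) (M : Mc D n α ψ) {σ τ Qi ns : R} (h : M.Ch σ τ Qi ns) (p : ℤ)
    (l : List (Fin 3)) : Sp l → ∀ (v c : R) (j m : ℤ), M.Ex σ v j c m p →
    ∃ c', M.Ex σ (D.w l v) (j + l.length) c' (m + l.length) p := by
  induction l with
  | nil => exact fun _ v c j m a => ⟨c, by simpa [D.w_nil] using a⟩
  | cons i l ih =>
    intro hl v c j m a
    have hl' : Sp l := fun x hx => hl x (List.mem_cons_of_mem _ hx)
    have hi : i ≠ 0 := hl i List.mem_cons_self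
    have b := (hE M h).2.2.2.2.1 v j c m p a
    have : ∃ c', M.Ex σ (D.d i v) (j + 1) c' (m + 1) p := by
      fin_cases i
      · exact absurd rfl hi
      · exact ⟨_, b.1⟩
      · exact ⟨_, b.2⟩
    obtain ⟨c', hc⟩ := this
    obtain ⟨c'', hc'⟩ := ih hl' _ _ _ _ hc
    refine ⟨c'', ?_⟩
    rw [D.w_cons, List.length_cons, Nat.cast_add_one]
    rwa [add_assoc, add_assoc, add_comm (1 : ℤ)] at hc'

theorem step (hR : RmS) (hS : StS) (hE : ExS) (hI : ExIS) (M : Mc D n α ψ) {σ τ Qi ns : R}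
    (h : M.Ch σ τ Qi ns) (m p : ℤ) (hp : 0 ≤ p)
    (hu : ∀ k : ℕ, ∃ c, M.Ex σ ((D.d 0)^[k + 1] α) (-2) c (m - 2) p)
    (hy : ∀ (k : ℕ) j, j ≠ 0 → ∃ c, M.Ex σ ((D.d 0)^[k] (D.yy n ψ j)) 0 c m p) :
    (∀ k : ℕ, M.Ex σ ((D.d 0)^[k + 1] α) (-2) (ns ^ 2 * D.tp ψ σ (k + 1)) (m - 4) (p + 2)) ∧
      ∀ (k : ℕ) j, j ≠ 0 → ∃ c, M.Ex σ ((D.d 0)^[k] (D.yy n ψ j)) 0 c (m - 2) (p + 2) := by
  obtain ⟨e1, e2, e3, e4, e5, e6, e7, -, -⟩ := hE M h
  have s1 : M.S1 ≤ W hE M h m p := by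
    refine Submodule.span_le.2 ?_
    have b := e5 _ _ _ _ _ (e1 (m - 1) p)
    rw [sub_add_cancel] at b
    rintro f (rfl | rfl)
    · exact e6 _ _ _ _ _ _ (by norm_num) b.1
    · exact e6 _ _ _ _ _ _ (by norm_num) b.2
  have su : ∀ b, M.SU 1 b ≤ W hE M h m p := fun b => by
    refine Submodule.span_le.2 ?_
    rintro f ⟨i, l, hi, -, hl, hl2, rfl⟩
    obtain ⟨k, rfl⟩ := Nat.exists_eq_add_of_le' hi
    obtain ⟨c, hc⟩ := hu k
    obtain ⟨c', hc'⟩ := ex_w hE M h p l hl _ _ _ _ hc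
    exact e7 _ _ _ _ _ _ _ (by omega) (by omega) (e6 _ _ 2 _ _ _ (by omega) hc')
  have sy1 : ∀ (k : ℕ) j, j ≠ 0 → (D.d 0)^[k] (D.yy n ψ j) ∈ W hE M h m p := fun k j hj => by
    obtain ⟨c, hc⟩ := hy k j hj
    exact e6 _ _ _ _ _ _ (by norm_num) hc
  have sy : ∀ b, M.SY b ≤ W hE M h m p := fun b => by
    refine Submodule.span_le.2 ?_
    rintro f ⟨i, j, -, hj, rfl⟩
    exact sy1 i j hj
  have sq : Qd D M.A n α ψ ≤ W hE M h m p := fun f hf =>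
    e2 _ _ _ _ ((hR M).2.2.2.2.2.2.2.2.2.2 m p hf)
  have lF : ∀ f ∈ M.F, D.lap f ∈ M.F := fun f hf =>
    add_mem (M.F_d _ _ (M.F_d _ _ hf)) (M.F_d _ _ (M.F_d _ _ hf))
  have iF : ∀ k : ℕ, ∀ f ∈ M.F, (D.d 0)^[k] f ∈ M.F := fun k =>
    iter_mem (S := (M.F : Set R)) (M.F_d 0) k
  have iA : ∀ k : ℕ, ∀ f ∈ M.A, (D.d 0)^[k] f ∈ M.A := fun k =>
    iter_mem (S := (M.A : Set R)) (M.A_d 0) k
  have t2 : ∀ a ∈ M.A, ∀ b ∈ M.A, ∀ c ∈ M.A,
      M.Ex σ (D.T2 a b c α) 2 (a + 2 * σ * b + σ ^ 2 * c) m p := fun a ha b hb c hc => by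
    have b0 := e5 _ _ _ _ _ (e1 (m - 2) p)
    have b1 := e5 _ _ _ _ _ b0.1
    have b2 := e5 _ _ _ _ _ b0.2
    have hb2 : -(2 * b) ∈ M.A := neg_mem (mul_mem (ofNat_mem _ 2) hb)
    have := e3 _ _ _ _ _ _ _ (e3 _ _ _ _ _ _ _ (e4 _ _ _ _ _ a ha b2.2) (e4 _ _ _ _ _ _ hb2 b2.1))
      (e4 _ _ _ _ _ c hc b1.1)
    convert this using 1
    · rw [DR.T2]; ring
    · norm_num
    · ring
    · ring
  refine ⟨fun k => ?_, fun k j hj => ?_⟩
  · have p1 := M.A_d 1 _ M.ψA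
    have p2 := M.A_d 2 _ M.ψA
    have a := t2 _ (iA (k + 1) _ (pow_mem p1 2)) _ (iA (k + 1) _ (mul_mem p1 p2)) _
      (iA (k + 1) _ (pow_mem p2 2))
    have b := sup_le (sup_le (sup_le s1 (su (k + 1))) (sy k)) sq (hS M k).1
    have c : D.lap ((D.d 0)^[k + 2] α) ∈ W hE M h m p := by
      refine su (k + 2) (add_mem (Submodule.subset_span ⟨k + 2, [1, 1], ?_⟩)
        (Submodule.subset_span ⟨k + 2, [2, 2], ?_⟩)) <;>
      exact ⟨by omega, le_rfl, by simp [Sp], by simp, rfl⟩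
    have d := e3 _ _ _ _ _ _ _ (sub_mem c b) a
    have e : D.d 0 (D.lap ((D.d 0)^[k + 1] α)) = D.lap ((D.d 0)^[k + 2] α) := by
      rw [Function.iterate_succ_apply' _ (k + 1)]
      simp only [DR.lap, map_add, D.c10, D.c20]
    have f : M.Ex σ (D.lap (D.lap ((D.d 0)^[k + 1] α))) 2 (D.tp ψ σ (k + 1)) m p := by
      convert d using 1
      · rw [DR.ht, e]; ring
      · rw [DR.tp, zero_add]
    have g := hI M h _ (iF (k + 1) _ M.αF) _ _ _ _ (by omega)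
      (hI M h _ (lF _ (iF (k + 1) _ M.αF)) _ _ _ _ hp f)
    convert g using 1
    · norm_num
    all_goals ring
  · have b := sup_le (su (k + 2)) sq ((hS M k).2 j hj)
    have d := sub_mem (sy1 (k + 1) j hj) b
    have f : M.Ex σ (D.lap ((D.d 0)^[k] (D.yy n ψ j))) 2 0 m p := by
      convert d using 1
      rw [DR.ht, Function.iterate_succ_apply', sub_sub_cancel]
      rfl
    have g := hI M h _ (iF k _ (M.yF j hj)) _ _ _ _ hp f
    rw [sub_self] at g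
    exact ⟨_, e7 _ _ _ _ _ _ _ le_rfl (by omega) g⟩

end ARd

theorem rowRd : OfRd := by
  intro hR hS hB hE hI R _ _ D n α ψ M σ τ Qi ns h
  have e2 := (hE M h).2.1
  have r := (hR M).2.2.2.2.2.2.2.1
  have u0 : ∀ k : ℕ, ∃ c, M.Ex σ ((D.d 0)^[k + 1] α) (-2) c (0 - 2) 2 := fun k => by
    have : (D.d 0)^[k + 1] α ∈ M.RM (-2) 2 :=
      (eventually_ge_atTop 2).mono fun K hK G hG => (hB M h G K hK hG k).1
    exact ⟨0, e2 _ _ _ _ (r _ _ _ _ (by norm_num) (by norm_num) this)⟩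
  have y0 : ∀ (k : ℕ) j, j ≠ 0 → ∃ c, M.Ex σ ((D.d 0)^[k] (D.yy n ψ j)) 0 c 0 2 := fun k j hj => by
    have : (D.d 0)^[k] (D.yy n ψ j) ∈ M.RM (-2) 3 :=
      (eventually_ge_atTop 2).mono fun K hK G hG => (hB M h G K hK hG k).2 j hj
    exact ⟨0, e2 _ _ _ _ (r _ _ _ _ (by norm_num) (by norm_num) this)⟩
  obtain ⟨u1, y1⟩ := ARd.step hR hS hE hI M h 0 2 (by norm_num) u0 y0
  norm_num only at u1 y1
  obtain ⟨u2, y2⟩ := ARd.step hR hS hE hI M h (-2) 4 (by norm_num)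
    (fun k => ⟨_, by norm_num only; exact u1 k⟩) y1
  norm_num only at u2 y2
  have u3 := (ARd.step hR hS hE hI M h (-4) 6 (by norm_num)
    (fun k => ⟨_, by norm_num only; exact u2 k⟩) y2).1
  norm_num only at u3
  exact u3

end Pool.Agent.MP_ed9623_an.S64
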