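import Pool.Agent.MP_ed9623_an.S64.SpecA

/-! The recursion. -/

open Filter Topology

namespace Pool.Agent.MP_ed9623_an.S64

namespace ARec

theorem first {K c m : ℝ} {q N : ℕ} (hK : 1 ≤ K) (hc : 1 ≤ c) (hm : 2 * c * (8 ^ q * K) ≤ m)
    (hN : 8 ≤ N) : 2 * (c * (N : ℝ) ^ (3 * q) * K ^ N) ≤ m ^ (2 * N - 8) := by
  have h8 : (1 : ℝ) ≤ 8 ^ q * K := one_le_mul_of_one_le_of_one_le (one_le_pow₀ (by norm_num)) hK
  have h1 : (N : ℝ) ^ (3 * q) ≤ (8 ^ q) ^ N := by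
    have : (N : ℝ) ≤ 2 ^ N := by exact_mod_cast (Nat.lt_two_pow_self (n := N)).le
    calc (N : ℝ) ^ (3 * q) ≤ (2 ^ N) ^ (3 * q) := pow_le_pow_left₀ (by positivity) this _
      _ = (8 ^ q) ^ N := by
        rw [show (8 : ℝ) = 2 ^ 3 by norm_num, ← pow_mul, ← pow_mul, ← pow_mul]; congr 1; ring
  have h2 : 2 * c ≤ (2 * c) ^ N := le_self_pow₀ (by linarith) (by omega)
  calc 2 * (c * (N : ℝ) ^ (3 * q) * K ^ N) = 2 * c * ((N : ℝ) ^ (3 * q) * K ^ N) := by ring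
    _ ≤ (2 * c) ^ N * ((8 ^ q) ^ N * K ^ N) := by gcongr
    _ = (2 * c * (8 ^ q * K)) ^ N := by simp only [mul_pow]
    _ ≤ m ^ N := pow_le_pow_left₀ (by positivity) hm _
    _ ≤ m ^ (2 * N - 8) := pow_le_pow_right₀ (by nlinarith) (by omega)

theorem second {K c m a : ℝ} {q N n : ℕ} (hK : 1 ≤ K) (hc : 1 ≤ c) (hm : 2 * c * (8 ^ q * K) ≤ m)
    (ha : 0 ≤ a) (hn : 4 ≤ n) (h1 : N ≤ 2 * n) (h2 : 3 * n ≤ 2 * N + 2)
    (h : a * (n : ℝ) ^ (2 * q) ≤ m ^ (2 * n - 8)) :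
    2 * (c * (N : ℝ) ^ (3 * q) * √a ^ 3) ≤ m ^ (2 * N - 8) := by
  have h8 : (1 : ℝ) ≤ 8 ^ q := one_le_pow₀ (by norm_num)
  have hm' : 2 * c * 8 ^ q ≤ m := le_trans (by nlinarith [mul_nonneg (by linarith : 0 ≤ c) (by
    linarith : (0 : ℝ) ≤ 8 ^ q)]) hm
  have hm1 : 1 ≤ m := by nlinarith
  have e1 : √a * (n : ℝ) ^ q ≤ m ^ (n - 4) := by
    refine (sq_le_sq₀ (by positivity) (by positivity)).1 ?_
    rw [mul_pow, Real.sq_sqrt ha, ← pow_mul, ← pow_mul, mul_comm q,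
      show (n - 4) * 2 = 2 * n - 8 by omega]
    exact h
  have e2 : (N : ℝ) ^ (3 * q) ≤ 8 ^ q * (n : ℝ) ^ (3 * q) := by
    have : (N : ℝ) ≤ 2 * n := by exact_mod_cast h1
    calc (N : ℝ) ^ (3 * q) ≤ (2 * n) ^ (3 * q) := pow_le_pow_left₀ (by positivity) this _
      _ = 8 ^ q * (n : ℝ) ^ (3 * q) := by rw [mul_pow, pow_mul]; norm_num
  calc 2 * (c * (N : ℝ) ^ (3 * q) * √a ^ 3)
      ≤ 2 * (c * (8 ^ q * (n : ℝ) ^ (3 * q)) * √a ^ 3) := by gcongr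
    _ = 2 * c * 8 ^ q * (√a * (n : ℝ) ^ q) ^ 3 := by ring
    _ ≤ m * (m ^ (n - 4)) ^ 3 := by gcongr
    _ = m ^ ((n - 4) * 3 + 1) := by rw [← pow_mul, ← pow_succ']
    _ ≤ m ^ (2 * N - 8) := pow_le_pow_right₀ hm1 (by omega)

end ARec

open ARec in
theorem rowRec : OfRec := by
  intro A K C q hA hK h
  obtain ⟨N₀, h⟩ := eventually_atTop.1 h
  have hc : 1 ≤ max C 1 := le_max_right _ _
  have h8 : (1 : ℝ) ≤ 8 ^ q * K := one_le_mul_of_one_le_of_one_le (one_le_pow₀ (by norm_num)) hK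
  have h0 : ∀ N : ℕ, 0 ≤ A N * (N : ℝ) ^ (2 * q) := fun N => mul_nonneg (hA N) (by positivity)
  obtain ⟨m, hm, hb⟩ : ∃ m : ℝ, 2 * max C 1 * (8 ^ q * K) ≤ m ∧
      ∀ N < N₀ + 8, A N * (N : ℝ) ^ (2 * q) ≤ m := by
    refine ⟨2 * max C 1 * (8 ^ q * K) + ∑ N ∈ Finset.range (N₀ + 8), A N * (N : ℝ) ^ (2 * q),
      le_add_of_nonneg_right (Finset.sum_nonneg fun N _ => h0 N), fun N hN => ?_⟩
    exact (Finset.single_le_sum (fun N _ => h0 N) (Finset.mem_range.2 hN)).trans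
      (le_add_of_nonneg_left (by positivity))
  have hm1 : 1 ≤ m := by nlinarith
  have key : ∀ N : ℕ, 5 ≤ N → A N * (N : ℝ) ^ (2 * q) ≤ m ^ (2 * N - 8) := by
    intro N
    induction N using Nat.strong_induction_on with
    | _ N ih =>
      intro hN
      rcases lt_or_ge N (N₀ + 8) with h1 | h1
      · exact (hb N h1).trans (le_self_pow₀ hm1 (by omega))
      · have e1 := first (N := N) hK hc hm (by omega)
        have e2 := second (N := N) (n := (2 * N + 2) / 3) hK hc hm (hA _) (by omega) (by omega)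
          (by omega) (ih _ (by omega) (by omega))
        have e3 : A N ≤ max C 1 * N ^ q * (K ^ N + √(A ((2 * N + 2) / 3)) ^ 3) :=
          (h N (by omega)).trans (by gcongr; exact le_max_left _ _)
        have e4 := mul_le_mul_of_nonneg_right e3 (by positivity : 0 ≤ (N : ℝ) ^ (2 * q))
        have e5 : max C 1 * N ^ q * (K ^ N + √(A ((2 * N + 2) / 3)) ^ 3) * (N : ℝ) ^ (2 * q) =
            max C 1 * (N : ℝ) ^ (3 * q) * K ^ N +
              max C 1 * (N : ℝ) ^ (3 * q) * √(A ((2 * N + 2) / 3)) ^ 3 := by ring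
        linarith
  refine ⟨m ^ 2, by positivity, ((eventually_ge_atTop 5).mono fun N hN => ?_).frequently⟩
  have e1 : (1 : ℝ) ≤ (N : ℝ) ^ (2 * q) := one_le_pow₀ (by exact_mod_cast (by omega : 1 ≤ N))
  calc A N ≤ A N * (N : ℝ) ^ (2 * q) := le_mul_of_one_le_right (hA N) e1
    _ ≤ m ^ (2 * N - 8) := key N hN
    _ ≤ m ^ (2 * N) := pow_le_pow_right₀ hm1 (by omega)
    _ = (m ^ 2) ^ N := pow_mul _ _ _

end Pool.Agent.MP_ed9623_an.S64
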