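import Pool.Agent.MP_ed9623_an.S64.SpecA

/-! The calculus of orders for all spatial derivatives. -/

open Filter Topology

namespace Pool.Agent.MP_ed9623_an.S64

namespace ARm

variable {R : Type} [CommRing R] [Algebra ℝ R] {D : DR R} {n : ℝ} {α ψ : R} (M : Mc D n α ψ)

theorem mem_Rm {G : M.Γ} {k : ℕ} {m p : ℤ} {f : R} : f ∈ M.Rm G k m p ↔
    ∀ l, Sp l → m + l.length ≤ k → D.w l f ∈ M.Rw G (m + l.length) p := Iff.rfl

theorem mem_RM {m p : ℤ} {f : R} :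
    f ∈ M.RM m p ↔ ∀ᶠ k : ℕ in atTop, ∀ G, M.Anch G k → f ∈ M.Rm G k m p := Iff.rfl

theorem sp_nil : Sp [] := fun _ h => absurd h List.not_mem_nil

theorem sp_append {l l' : List (Fin 3)} (h : Sp l) (h' : Sp l') : Sp (l ++ l') := fun i hi =>
  (List.mem_append.1 hi).elim (h i) (h' i)

theorem mono (G : M.Γ) (k : ℕ) (m p m' p' : ℤ) (h : m ≤ m') (hp : p - 2 * (m' - m) ≤ p') :
    M.Rm G k m p ≤ M.Rm G k m' p' := fun _ hf => (mem_Rm M).2 fun l a b =>
  M.mono (by omega) (by omega) ((mem_Rm M).1 hf l a (by omega))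

theorem word (G : M.Γ) (k : ℕ) (m p : ℤ) (l : List (Fin 3)) (hl : Sp l) (f : R)
    (hf : f ∈ M.Rm G k m p) : D.w l f ∈ M.Rm G k (m + l.length) p := by
  refine (mem_Rm M).2 fun l' a b => ?_
  have h := (mem_Rm M).1 hf (l ++ l') (sp_append hl a)
    (by rw [List.length_append, Nat.cast_add]; omega)
  rwa [D.w_append, List.length_append, Nat.cast_add, ← add_assoc] at h

theorem w_heat (l : List (Fin 3)) (ε : ℝ) (f : R) :
    D.w l (ε • D.d 0 f - D.lap f) = ε • D.d 0 (D.w l f) - D.lap (D.w l f) := by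
  simp only [DR.lap, D.w_sub, D.w_add, D.w_smul, D.d_w]

theorem inv (G : M.Γ) (k : ℕ) (m p : ℤ) (ε : ℝ) (hε : ε = 0 ∨ ε = 1) (hm : m ≤ k) (f : R)
    (hf : f ∈ M.F) (h : ε • D.d 0 f - D.lap f ∈ M.Rm G k m p) :
    f ∈ M.Rm G k (m - 2) (p + 1) := by
  have h0 : ε • D.d 0 f - D.lap f ∈ M.Rw G m p := by
    simpa [D.w_nil] using (mem_Rm M).1 h [] sp_nil (by simpa using hm)
  have i0 := M.inv G m p ε hε f hf h0
  refine (mem_Rm M).2 fun l a b => ?_
  match l, a, b with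
  | [], _, _ => simpa [D.w_nil] using i0.1
  | [i], a, _ =>
    have e : m - 2 + (([i] : List (Fin 3)).length : ℤ) = m - 1 := by
      rw [List.length_singleton]; omega
    rw [e]
    exact (i0.2 i (a i List.mem_cons_self)).1
  | i :: j :: l, a, b =>
    have e : m - 2 + ((i :: j :: l).length : ℤ) = m + l.length := by
      rw [List.length_cons, List.length_cons]; omega
    rw [e] at b ⊢
    have h1 := (mem_Rm M).1 h l
      (fun t ht => a t (List.mem_cons_of_mem _ (List.mem_cons_of_mem _ ht))) b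
    rw [w_heat] at h1
    have h2 := M.inv G _ p ε hε _ (D.w_mem (S := M.F) M.F_d l f hf) h1
    rw [D.w_cons, D.w_cons, ← D.d_w, ← D.d_w]
    exact (h2.2 j (a j (List.mem_cons_of_mem _ List.mem_cons_self))).2 i (a i List.mem_cons_self)

theorem d_span {S : Set R} (i : Fin 3) (h : ∀ f ∈ S, D.d i f ∈ Submodule.span M.A S) (f : R)
    (hf : f ∈ Submodule.span M.A S) : D.d i f ∈ Submodule.span M.A S := by
  induction hf using Submodule.span_induction with
  | mem f a => exact h f a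
  | zero => rw [map_zero]; exact zero_mem _
  | add f g _ _ a b => rw [map_add]; exact add_mem a b
  | smul a f c b =>
    change D.d i (a.1 * f) ∈ _
    rw [D.mul]
    exact add_mem (M.mul_mem (M.A_d i _ a.2) c) (M.mul_mem a.2 b)

theorem d_Fl (i : Fin 3) (f : R) (hf : f ∈ Fl D M.A n α ψ) : D.d i f ∈ Fl D M.A n α ψ := by
  refine d_span M i ?_ f hf
  have e : ∀ (l : List (Fin 3)) (g : R), D.d i (D.w l g) = D.w (l ++ [i]) g := fun l g => by
    rw [D.w_append]; rfl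
  rintro _ ⟨l, rfl | ⟨j, hj, rfl⟩⟩
  · exact Submodule.subset_span ⟨l ++ [i], Or.inl (e l _)⟩
  · exact Submodule.subset_span ⟨l ++ [i], Or.inr ⟨j, hj, e l _⟩⟩

theorem d_Qd (i : Fin 3) (f : R) (hf : f ∈ Qd D M.A n α ψ) : D.d i f ∈ Qd D M.A n α ψ := by
  refine d_span M i ?_ f hf
  rintro _ ⟨a, ha, b, hb, rfl⟩
  rw [D.mul]
  exact add_mem (Submodule.subset_span ⟨_, d_Fl M i a ha, b, hb, rfl⟩)
    (Submodule.subset_span ⟨a, ha, _, d_Fl M i b hb, rfl⟩)

theorem quad (G : M.Γ) (k : ℕ) (m p : ℤ) : Qd D M.A n α ψ ≤ M.Rm G k m p := fun f hf =>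
  (mem_Rm M).2 fun l _ _ => M.quad G _ p (D.w_mem (S := Qd D M.A n α ψ) (d_Qd M) l f hf)

theorem boot (k : ℕ) (S : Set (R × ℤ)) (hS : S.Finite) (hF : ∀ q ∈ S, q.1 ∈ M.F) :
    ∃ Θ, (∀ q ∈ S, q.1 ∈ M.Rm Θ k q.2 0) ∧ ∀ G, (∀ q ∈ S, q.1 ∈ M.Rm (M.add G Θ) k q.2 (-1)) →
      ∀ q ∈ S, q.1 ∈ M.Rm G k q.2 (-1) := by
  let T : Set (R × ℤ) := {t | ∃ q ∈ S, ∃ l, Sp l ∧ q.2 + l.length ≤ k ∧
    t = (D.w l q.1, q.2 + l.length)}
  have hT : T.Finite := by
    refine (hS.biUnion fun q _ => (List.finite_length_le (Fin 3) (k - q.2).toNat).image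
      fun l => (D.w l q.1, q.2 + l.length)).subset ?_
    rintro _ ⟨q, hq, l, -, b, rfl⟩
    exact Set.mem_biUnion hq ⟨l, show l.length ≤ _ by omega, rfl⟩
  obtain ⟨Θ, h1, h2⟩ := M.boot T hT (by
    rintro _ ⟨q, hq, l, -, -, rfl⟩
    exact D.w_mem (S := M.F) M.F_d l _ (hF q hq))
  refine ⟨Θ, fun q hq => (mem_Rm M).2 fun l a b => h1 _ ⟨q, hq, l, a, b, rfl⟩,
    fun G hG q hq => (mem_Rm M).2 fun l a b => h2 G ?_ _ ⟨q, hq, l, a, b, rfl⟩⟩
  rintro _ ⟨q, hq, l, a, b, rfl⟩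
  exact (mem_Rm M).1 (hG q hq) l a b

end ARm

open ARm in
theorem rowRm : OfRm := by
  intro R _ _ D n α ψ M
  refine ⟨mono M, fun G G' k m p => ⟨fun f hf => (mem_Rm M).2 fun l a b =>
      M.mono_l _ _ _ _ ((mem_Rm M).1 hf l a b), fun f hf => (mem_Rm M).2 fun l a b =>
      M.mono_r _ _ _ _ ((mem_Rm M).1 hf l a b)⟩, word M,
    fun G k m p ε a b => inv M G k m p ε a (by exact_mod_cast b), d_Qd M, quad M, boot M,
    fun m p m' p' h hp f hf => (mem_RM M).2 (((mem_RM M).1 hf).mono fun k a G c =>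
      mono M G k m p m' p' h hp (a G c)),
    fun m p l hl f hf => (mem_RM M).2 (((mem_RM M).1 hf).mono fun k a G c =>
      word M G k m p l hl f (a G c)), fun m p f hf h => (mem_RM M).2 ?_,
    fun m p f hf => (mem_RM M).2 (Eventually.of_forall fun k G _ => quad M G k m p hf)⟩
  filter_upwards [(mem_RM M).1 h, eventually_ge_atTop m.toNat] with k a b G c
  refine inv M G k m p 0 (Or.inl rfl) (by omega) f hf ?_
  rw [zero_smul, zero_sub]
  exact neg_mem (a G c)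

end Pool.Agent.MP_ed9623_an.S64
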