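import Pool.Agent.MP_ed9623_an.S64.SpecA

/-! Row RwB: elementary properties of the classes. -/

open Filter Topology

namespace Pool.Agent.MP_ed9623_an.S64

namespace ARwB

variable {R : Type} [CommRing R] [Algebra ℝ R] {D : DR R} {X : Type} (L : Ln D X)

theorem le2 {b K K' : ℝ} {f g h : R} (hf : f ∈ L.F) (hg : g ∈ L.F) (hh : h ∈ L.F)
    (H : ∀ x ∈ L.dom b, L.ev x f ^ 2 ≤ K * L.ev x g ^ 2 + K' * L.ev x h ^ 2) (N : ℕ) (m : ℤ) :
    L.nrm b N m f ≤ K * L.nrm b N m g + K' * L.nrm b N m h := by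
  simp only [Ln.nrm, ← mul_div_assoc, ← add_div]
  refine div_le_div_of_nonneg_right ?_ (by positivity)
  rw [← smul_eq_mul K, ← smul_eq_mul K', ← map_smul, ← map_smul, ← map_add, Algebra.smul_def,
    Algebra.smul_def]
  refine L.I_mono (L.sq_mem hf _) (add_mem (L.F.mul_mem_left _ (L.sq_mem hg _))
    (L.F.mul_mem_left _ (L.sq_mem hh _))) fun x hx => ?_
  simp only [map_add, map_mul, map_pow, AlgHom.commutes, Algebra.algebraMap_self, RingHom.id_apply,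
    mul_pow]
  linarith [mul_le_mul_of_nonneg_left (H x hx) (sq_nonneg (L.ev x (L.Wt N m)))]

theorem tr {s : ℝ → ℕ → ℝ} (hs : ∀ b N, 0 ≤ s b N) {g g' : ℝ → ℕ → NNReal} {m m' p p' : ℤ}
    {f f' : R} (t : ℤ) {K : ℝ} (hK : 0 ≤ K) (hf : f ∈ L.F)
    (h : ∀ᶠ b : ℝ in atTop, ∀ N : ℕ, 1 ≤ N → L.nrm b N m f ≤ K * ((N : ℝ) ^ t * L.nrm b N m' f'))
    (hp : t + p' ≤ p) (hg : g' ≤ g) (h' : f' ∈ L.Rw s g' m' p') : f ∈ L.Rw s g m p := by
  refine ⟨hf, ?_⟩
  filter_upwards [h, h'.2] with b h1 ⟨C, q, h2, h3⟩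
  refine ⟨K * C, t.toNat + q, mul_nonneg hK h2, ?_⟩
  filter_upwards [h3, eventually_ge_atTop 1] with N h4 h5
  have a : (1 : ℝ) ≤ N := Nat.one_le_cast.2 h5
  have a1 : (N : ℝ) ^ t * N ^ p' ≤ N ^ p := by
    rw [← zpow_add₀ (by positivity)]
    exact zpow_le_zpow_right₀ a hp
  have a2 : (N : ℝ) ^ t ≤ N ^ t.toNat := by
    rw [← zpow_natCast]
    exact zpow_le_zpow_right₀ a (Int.self_le_toNat t)
  have a3 : (g' b N : ℝ) ≤ g b N := hg b N
  have a4 := hs b N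
  calc _ ≤ K * ((N : ℝ) ^ t * (C * ((N : ℝ) ^ p' * g' b N + N ^ q * s b N))) :=
        (h1 N h5).trans (by gcongr)
    _ = K * C * ((N : ℝ) ^ t * N ^ p' * g' b N + N ^ t * N ^ q * s b N) := by ring
    _ ≤ _ := by rw [pow_add]; have := mul_nonneg hK h2; gcongr

theorem cmp {s : ℝ → ℕ → ℝ} (hs : ∀ b N, 0 ≤ s b N) {g : ℝ → ℕ → NNReal} {m p : ℤ} {f f' : R}
    {K : ℝ} (hK : 0 ≤ K) (hf : f ∈ L.F)
    (h : ∀ᶠ b : ℝ in atTop, ∀ x ∈ L.dom b, L.ev x f ^ 2 ≤ K * L.ev x f' ^ 2)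
    (h' : f' ∈ L.Rw s g m p) : f ∈ L.Rw s g m p :=
  tr L hs 0 hK hf (h.mono fun b H N _ => by
    simpa using le2 L (K' := 0) hf h'.1 h'.1 (by simpa using H) N m) (zero_add _).le le_rfl h'

theorem sh (b : ℝ) {N : ℕ} (h : 1 ≤ N) (m : ℤ) (f : R) :
    L.nrm b N (m - 1) (L.d * f) = (N : ℝ) ^ (2 : ℤ) * L.nrm b N m f := by
  have a : (N : ℝ) ≠ 0 := by positivity
  rw [Ln.nrm, Ln.nrm, L.Wt_pred, show L.Wt N m * L.di * (L.d * f) = L.Wt N m * f by
    linear_combination L.Wt N m * f * L.d_di, mul_sub, mul_one, zpow_sub₀ a, div_div_eq_mul_div,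
    mul_comm, mul_div_assoc]

end ARwB

open ARwB

theorem rowRwB : OfRwB := by
  intro R _ _ D X L s hs
  have h3 : ∀ g m p, ∀ a ∈ L.A, ∀ f ∈ L.Rw s g m p, a * f ∈ L.Rw s g m p := by
    intro g m p a ha f hf
    obtain ⟨C, hC⟩ := L.A_bd a ha
    refine cmp L hs (sq_nonneg C) (L.F.mul_mem_left _ hf.1) (.of_forall fun b x _ => ?_) hf
    rw [map_mul, mul_pow]
    exact mul_le_mul_of_nonneg_right (sq_le_sq' (abs_le.1 (hC x)).1 (abs_le.1 (hC x)).2)
      (sq_nonneg _)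
  have h7 : ∀ g m p f, L.d * f ∈ L.Rw s g (m - 1) (p + 2) ↔ f ∈ L.Rw s g m p := by
    refine fun g m p f => ⟨fun h => tr L hs (-2) zero_le_one ?_ (.of_forall fun b N hN => ?_)
      (by omega) le_rfl h, fun h => tr L hs 2 zero_le_one (L.F.mul_mem_left _ h.1)
      (.of_forall fun b N hN => by rw [sh L b hN, one_mul]) (by omega) le_rfl h⟩
    · have := L.F.mul_mem_left L.di h.1
      rwa [← mul_assoc, mul_comm L.di, L.d_di, one_mul] at this
    · rw [sh L b hN, one_mul, ← mul_assoc, ← zpow_add₀ (by positivity)]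
      simp
  refine ⟨fun g m p => ⟨zero_mem _, .of_forall fun b => ⟨0, 0, le_rfl, .of_forall fun N => ?_⟩⟩,
    fun g m p f hf f' hf' => ⟨add_mem hf.1 hf'.1, ?_⟩, h3,
    fun g m p p' h f hf => tr L hs 0 zero_le_one hf.1 (by simp) (by omega) le_rfl hf,
    fun g m p f hf => (h7 _ _ _ _).1 (by simpa using h3 g m p _ L.dA f hf),
    fun g g' m p h f hf => tr L hs 0 zero_le_one hf.1 (by simp) (by omega) h hf, h7,
    fun g m p k _ ki hki e he h f hf H => ?_⟩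
  · simp [Ln.nrm]
  · filter_upwards [hf.2, hf'.2] with b ⟨C, q, h1, h2⟩ ⟨C', q', h1', h2'⟩
    refine ⟨2 * C + 2 * C', q + q', by positivity, ?_⟩
    filter_upwards [h2, h2', eventually_ge_atTop 1] with N a1 a2 a3
    have a : (1 : ℝ) ≤ N := Nat.one_le_cast.2 a3
    have a4 := hs b N
    have a5 := pow_le_pow_right₀ a (Nat.le_add_right q q')
    have a6 := pow_le_pow_right₀ a (Nat.le_add_left q' q)
    refine (le2 L (K := 2) (K' := 2) (add_mem hf.1 hf'.1) hf.1 hf'.1 (fun x _ => ?_) N m).trans ?_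
    · rw [map_add]
      linarith [sq_nonneg (L.ev x f - L.ev x f')]
    · rw [add_mul, mul_assoc, mul_assoc]
      gcongr
      · exact a1.trans (by gcongr)
      · exact a2.trans (by gcongr)
  · obtain ⟨C, hC⟩ := L.A_bd ki hki
    obtain ⟨C', hC'⟩ := L.A_bd _ (mul_mem he hki)
    refine cmp L hs (K := 4 * C ^ 2) (by positivity) hf ?_ H
    filter_upwards [eventually_ge_atTop (2 * C')] with b hb x hx
    have a1 := congrArg (L.ev x) h
    have a2 : b * L.ev x L.d < L.ev x L.u ^ 2 := hx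
    have a3 := pow_le_one₀ (n := 2) (L.u_pos x).le (L.u_le x)
    have a4 := L.d_pos x
    have a5 := (abs_le.1 (hC' x)).1
    have a6 := sq_le_sq' (abs_le.1 (hC x)).1 (abs_le.1 (hC x)).2
    simp only [map_mul, map_add, map_one, mul_pow] at a1 a5 ⊢
    have a7 : 1 / 2 ≤ L.ev x ki * (L.ev x k + L.ev x L.d * L.ev x e) := by nlinarith
    have a8 := pow_le_pow_left₀ (by norm_num) a7 2
    rw [mul_pow] at a8
    have a9 := mul_le_mul_of_nonneg_right a6 (sq_nonneg (L.ev x k + L.ev x L.d * L.ev x e))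
    nlinarith [sq_nonneg (L.ev x f)]

end Pool.Agent.MP_ed9623_an.S64
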