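import Pool.Agent.MP_ed9623_an.S64.SpecA

/-! Singular coefficients on a lens. -/

open Filter Topology

namespace Pool.Agent.MP_ed9623_an.S64

namespace ASy

variable {R : Type} [CommRing R] [Algebra ℝ R] {D : DR R} {X : Type} (L : Ln D X)

theorem mulA {S : Submodule L.A R} {a f : R} (ha : a ∈ L.A) (hf : f ∈ S) : a * f ∈ S :=
  S.smul_mem ⟨a, ha⟩ hf

theorem mon {k : ℕ} (a i j : ℕ) (h : i + j ≤ k) : L.sd ^ a * L.si ^ i * L.ui ^ j ∈ L.Sy k :=
  Submodule.subset_span ⟨a, i, j, h, rfl⟩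

theorem mon' {k : ℕ} (a i j : ℕ) (h : i + j ≤ k) (h' : i < k) :
    L.sd ^ a * L.si ^ i * L.ui ^ j ∈ L.So k :=
  Submodule.subset_span ⟨a, i, j, h, h', rfl⟩

theorem span_mul {s t : Set R} {U : Submodule L.A R} (h : ∀ a ∈ s, ∀ b ∈ t, a * b ∈ U) :
    ∀ a ∈ Submodule.span L.A s, ∀ b ∈ Submodule.span L.A t, a * b ∈ U := fun a ha b hb => by
  have : Submodule.span L.A s * Submodule.span L.A t ≤ U := by
    rw [Submodule.span_mul_span, Submodule.span_le]
    rintro _ ⟨a, ha, b, hb, rfl⟩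
    exact h a ha b hb
  exact this (Submodule.mul_mem_mul ha hb)

theorem yy (k l : ℕ) : ∀ a ∈ L.Sy k, ∀ b ∈ L.Sy l, a * b ∈ L.Sy (k + l) :=
  span_mul L <| by
    rintro _ ⟨a, i, j, h, rfl⟩ _ ⟨a', i', j', h', rfl⟩
    have := mon L (k := k + l) (a + a') (i + i') (j + j') (by omega)
    convert this using 1
    ring

theorem oy (k l : ℕ) : ∀ a ∈ L.So k, ∀ b ∈ L.Sy l, a * b ∈ L.So (k + l) :=
  span_mul L <| by
    rintro _ ⟨a, i, j, h, h0, rfl⟩ _ ⟨a', i', j', h', rfl⟩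
    have := mon' L (k := k + l) (a + a') (i + i') (j + j') (by omega) (by omega)
    convert this using 1
    ring

theorem one_mem (k : ℕ) : (1 : R) ∈ L.Sy k := by simpa using mon L (k := k) 0 0 0 (by omega)

theorem si2 : L.si ^ 2 ∈ L.Sy 2 := by simpa using mon L (k := 2) 0 2 0 (by omega)

/-- The logarithmic derivative has order two. -/
def Lg (i : Fin 3) (f : R) : Prop := ∃ g ∈ L.Sy 2, D.d i f = f * g

theorem Lg.mul {L : Ln D X} {i : Fin 3} {f f' : R} (h : Lg L i f) (h' : Lg L i f') :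
    Lg L i (f * f') := by
  obtain ⟨g, hg, e⟩ := h
  obtain ⟨g', hg', e'⟩ := h'
  exact ⟨g + g', add_mem hg hg', by rw [D.mul, e, e']; ring⟩

theorem Lg.pow {L : Ln D X} {i : Fin 3} {f : R} (h : Lg L i f) (n : ℕ) : Lg L i (f ^ n) := by
  induction n with
  | zero => exact ⟨0, zero_mem _, by simp [D.d_one]⟩
  | succ n ih => rw [pow_succ]; exact ih.mul h

theorem lg_mon (i : Fin 3) (a b c : ℕ) : Lg L i (L.sd ^ a * L.si ^ b * L.ui ^ c) := by
  have h : ((1 / 2 : ℝ) • D.d i L.d) * L.si ^ 2 ∈ L.Sy 2 :=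
    mulA L (L.A.smul_mem (L.A_d i _ L.dA) _) (si2 L)
  refine ((Lg.pow ⟨_, h, ?_⟩ a).mul (Lg.pow ⟨_, neg_mem h, ?_⟩ b)).mul
    (Lg.pow ⟨-(D.d i L.u * L.ui), neg_mem (mulA L (L.A_d i _ L.uA) ?_), ?_⟩ c)
  · rw [L.d_sd, ← smul_mul_assoc]
    linear_combination (-((1 / 2 : ℝ) • D.d i L.d) * L.si) * L.sd_si
  · rw [L.d_si, ← smul_mul_assoc]
    ring
  · simpa using mon L (k := 2) 0 0 1 (by omega)
  · rw [D.d_inv i L.u_ui]
    ring

theorem d_span {s : Set R} {U : Submodule L.A R} (i : Fin 3) (hU : Submodule.span L.A s ≤ U)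
    (h : ∀ f ∈ s, D.d i f ∈ U) : ∀ f ∈ Submodule.span L.A s, D.d i f ∈ U := fun f hf => by
  induction hf using Submodule.span_induction with
  | mem f hf => exact h f hf
  | zero => rw [map_zero]; exact zero_mem _
  | add f g _ _ a b => rw [map_add]; exact add_mem a b
  | smul a f hf b =>
    show D.d i (a.1 * f) ∈ U
    rw [D.mul]
    exact add_mem (mulA L (L.A_d i _ a.2) (hU hf)) (mulA L a.2 b)

theorem ev_si_sq (x : X) : L.ev x L.si ^ 2 = (L.ev x L.d)⁻¹ := by
  rw [← map_pow, L.si_sq, L.ev_di]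

theorem ev_sd_si (x : X) : L.ev x L.sd * L.ev x L.si = 1 := by rw [← map_mul, L.sd_si, map_one]

theorem si_pos (x : X) : 0 < L.ev x L.si :=
  (mul_pos_iff_of_pos_left (L.sd_pos x)).1 (by rw [ev_sd_si]; exact one_pos)

theorem one_le_ui (x : X) : 1 ≤ L.ev x L.ui := by
  rw [L.ev_ui]; exact (one_le_inv₀ (L.u_pos x)).2 (L.u_le x)

theorem ui_le {b η : ℝ} (hη : 0 < η) (hb : 1 ≤ η ^ 2 * b) (x : X)
    (hx : b * L.ev x L.d < L.ev x L.u ^ 2) : L.ev x L.ui ≤ η * L.ev x L.si := by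
  have d := L.d_pos x
  have u := L.u_pos x
  refine (abs_le_of_sq_le_sq' ?_ (mul_pos hη (si_pos L x)).le).2
  rw [mul_pow, ev_si_sq, L.ev_ui, inv_pow, ← div_eq_mul_inv, inv_eq_one_div,
    div_le_div_iff₀ (by positivity) d]
  nlinarith [mul_le_mul_of_nonneg_left hx.le (sq_nonneg η), mul_le_mul_of_nonneg_right hb d.le]

theorem ui_le_si (x : X) : L.ev x L.ui ≤ L.ev x L.si := by
  simpa using ui_le L (b := 1) one_pos (by norm_num) x (by simpa using L.d_lt x)

theorem one_le_si (x : X) : 1 ≤ L.ev x L.si := (one_le_ui L x).trans (ui_le_si L x)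

theorem ev_mon (a i j : ℕ) (x : X) :
    |L.ev x (L.sd ^ a * L.si ^ i * L.ui ^ j)| ≤ L.ev x L.si ^ i * L.ev x L.ui ^ j := by
  have s := L.sd_pos x
  have t := one_le_si L x
  have v := one_le_ui L x
  have h : L.ev x L.sd ≤ 1 := by nlinarith [ev_sd_si L x]
  rw [map_mul, map_mul, map_pow, map_pow, map_pow, abs_of_nonneg (by positivity), mul_assoc]
  exact mul_le_of_le_one_left (by positivity) (pow_le_one₀ s.le h)

theorem bd (k : ℕ) : ∀ a ∈ L.Sy k, ∃ C : ℝ, 0 ≤ C ∧ ∀ x, |L.ev x a| ≤ C * L.ev x L.si ^ k :=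
    fun f hf => by
  induction hf using Submodule.span_induction with
  | mem f hf =>
    obtain ⟨a, i, j, h, rfl⟩ := hf
    refine ⟨1, one_pos.le, fun x => (ev_mon L a i j x).trans ?_⟩
    have t := one_le_si L x
    have v := one_le_ui L x
    calc _ ≤ L.ev x L.si ^ i * L.ev x L.si ^ j := by gcongr; exact ui_le_si L x
      _ ≤ _ := by rw [← pow_add, one_mul]; exact pow_le_pow_right₀ t h
  | zero => exact ⟨0, le_rfl, fun x => by simp⟩
  | add f g _ _ a b =>
    obtain ⟨C, hC, a⟩ := a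
    obtain ⟨C', hC', b⟩ := b
    refine ⟨C + C', add_nonneg hC hC', fun x => ?_⟩
    rw [map_add, add_mul]
    exact (abs_add_le _ _).trans (add_le_add (a x) (b x))
  | smul a f _ b =>
    obtain ⟨C, hC, b⟩ := b
    obtain ⟨C', a'⟩ := L.A_bd a.1 a.2
    refine ⟨|C'| * C, by positivity, fun x => ?_⟩
    show |L.ev x (a.1 * f)| ≤ _
    rw [map_mul, abs_mul, mul_assoc]
    exact mul_le_mul ((a' x).trans (le_abs_self _)) (b x) (abs_nonneg _) (abs_nonneg _)

theorem sm (k : ℕ) : ∀ a ∈ L.So k, ∀ η : ℝ, 0 < η → ∀ᶠ b : ℝ in atTop, ∀ x ∈ L.dom b,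
    |L.ev x a| ≤ η * L.ev x L.si ^ k := fun f hf => by
  induction hf using Submodule.span_induction with
  | mem f hf =>
    obtain ⟨a, i, j, h, h', rfl⟩ := hf
    intro η hη
    filter_upwards [eventually_ge_atTop (η ^ 2)⁻¹] with b hb x hx
    refine (ev_mon L a i j x).trans ?_
    have t := one_le_si L x
    have v := one_le_ui L x
    obtain ⟨m, rfl⟩ := Nat.exists_eq_add_of_lt h'
    have e := ui_le L hη ((inv_le_iff_one_le_mul₀' (by positivity)).1 hb) x hx
    calc _ ≤ L.ev x L.si ^ i * L.ev x L.ui ^ (m + 1) := by gcongr; omega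
      _ ≤ L.ev x L.si ^ i * (L.ev x L.si ^ m * (η * L.ev x L.si)) := by
        rw [pow_succ]; gcongr; exact ui_le_si L x
      _ = _ := by ring
  | zero =>
    refine fun η hη => .of_forall fun b x _ => ?_
    have := si_pos L x
    simp only [map_zero, abs_zero]
    positivity
  | add f g _ _ a b =>
    intro η hη
    filter_upwards [a (η / 2) (by positivity), b (η / 2) (by positivity)] with c a b x hx
    rw [map_add]
    exact (abs_add_le _ _).trans (by linarith [a x hx, b x hx])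
  | smul a f _ b =>
    intro η hη
    obtain ⟨C, a'⟩ := L.A_bd a.1 a.2
    have hC : 0 < |C| + 1 := by positivity
    filter_upwards [b (η / (|C| + 1)) (by positivity)] with c b x hx
    show |L.ev x (a.1 * f)| ≤ _
    rw [map_mul, abs_mul]
    refine (mul_le_mul ((a' x).trans ((le_abs_self _).trans (le_add_of_nonneg_right one_pos.le)))
      (b x hx) (abs_nonneg _) hC.le).trans_eq ?_
    field_simp

end ASy

open ASy in
theorem rowSy : OfSy := fun {R} _ _ {D} {X} L => by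
  have yo : ∀ k l, k < l → L.Sy k ≤ L.So l := fun k l h => Submodule.span_mono <| by
    rintro _ ⟨a, i, j, h', rfl⟩
    exact ⟨a, i, j, by omega, by omega, rfl⟩
  have oy' : ∀ k, L.So k ≤ L.Sy k := fun k => Submodule.span_mono <| by
    rintro _ ⟨a, i, j, h, -, rfl⟩
    exact ⟨a, i, j, h, rfl⟩
  refine ⟨fun a ha => by simpa using mulA L ha (one_mem L 0),
    by simpa using mon L (k := 0) 1 0 0 le_rfl, by simpa using mon L (k := 1) 0 1 0 le_rfl,
    by simpa using mon' L (k := 1) 0 0 1 le_rfl one_pos, L.si_sq ▸ si2 L, yy L, oy L, oy', yo,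
    fun k i => d_span L i ((yo k (k + 2) (by omega)).trans (oy' _)) ?_,
    fun k i => d_span L i ((oy' k).trans (yo k (k + 2) (by omega))) ?_, bd L, sm L,
    fun x => ⟨one_le_si L x, by rw [← map_pow, L.si_sq]⟩⟩
  · rintro _ ⟨a, b, c, h, rfl⟩
    obtain ⟨g, hg, e⟩ := lg_mon L i a b c
    exact e ▸ yy L _ _ _ (mon L a b c h) _ hg
  · rintro _ ⟨a, b, c, h, h', rfl⟩
    obtain ⟨g, hg, e⟩ := lg_mon L i a b c
    exact e ▸ oy L _ _ _ (mon' L a b c h h') _ hg

end Pool.Agent.MP_ed9623_an.S64
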