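import Pool.Agent.MP_ed9623_an.S64.SpecA

/-! The Carleman inequality for a complex field and flat functions. -/

open Filter Topology

namespace Pool.Agent.MP_ed9623_an.S64

namespace ATC

variable {R : Type} [CommRing R] [Algebra ℝ R] {D : DR R} {X : Type} (L : Ln D X)

theorem nonneg {b : ℝ} {μ f : R} (hμ : ∀ x, 0 ≤ L.ev x μ) (hf : f ∈ L.F) (a : R) :
    0 ≤ L.I b (μ * (a * f) ^ 2) :=
  L.I_pos b _ (L.F.mul_mem_left _ (L.sq_mem hf _)) fun x _ => by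
    rw [map_mul, map_pow]
    exact mul_nonneg (hμ x) (sq_nonneg _)

theorem split {b : ℝ} {μ f g t : R} (hμ : ∀ x, 0 ≤ L.ev x μ) (hf : f ∈ L.F) (ht : t ∈ L.F)
    (h : ∀ x ∈ L.dom (2 * b), L.ev x t = 0) (e : g = f + t ∨ g = f - t) (N : ℕ) :
    L.I b (μ * (L.Wt N 0 * g) ^ 2) ≤
      2 * L.I b (μ * (L.Wt N 0 * f) ^ 2) + 2 * ((4 * b ^ 2) ^ N * L.I b (μ * (L.dz 0 * t) ^ 2)) := by
  have h1 := L.tail hμ ht h N 0
  have hg : g ∈ L.F := by
    rcases e with rfl | rfl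
    · exact add_mem hf ht
    · exact sub_mem hf ht
  have a1 := L.F.mul_mem_left μ (L.sq_mem hf (L.Wt N 0))
  have a2 := L.F.mul_mem_left μ (L.sq_mem ht (L.Wt N 0))
  have h2 := L.I_mono (b := b) (L.F.mul_mem_left μ (L.sq_mem hg (L.Wt N 0)))
    (add_mem (add_mem a1 a1) (add_mem a2 a2)) fun x _ => by
      have m := hμ x
      rcases e with rfl | rfl
      · simp only [map_mul, map_pow, map_add]
        nlinarith [mul_nonneg m (sq_nonneg (L.ev x (L.Wt N 0) * (L.ev x f - L.ev x t)))]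
      · simp only [map_mul, map_pow, map_add, map_sub]
        nlinarith [mul_nonneg m (sq_nonneg (L.ev x (L.Wt N 0) * (L.ev x f + L.ev x t)))]
  simp only [map_add] at h2
  linarith

theorem V_mem (a a' : R) {f : R} (hf : f ∈ L.F) : D.V a a' f ∈ L.F :=
  add_mem (L.F.mul_mem_left _ (L.F_d 1 f hf)) (L.F.mul_mem_left _ (L.F_d 2 f hf))

theorem van0 {b : ℝ} (hb : 2 ≤ b) (f : R) {x : X} (hx : x ∈ L.dom (2 * b)) :
    L.ev x ((L.χ b - 1) * f) = 0 := by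
  rw [map_mul, show L.ev x (L.χ b - 1) = 0 from L.χ1 b hb [] x hx, zero_mul]

theorem van1 {b : ℝ} (hb : 2 ≤ b) (a a' f : R) {x : X} (hx : x ∈ L.dom (2 * b)) :
    L.ev x (D.V a a' ((L.χ b - 1) * f)) = 0 := by
  have h0 : L.ev x (L.χ b - 1) = 0 := L.χ1 b hb [] x hx
  have h1 : L.ev x (D.d 1 (L.χ b - 1)) = 0 := L.χ1 b hb [1] x hx
  have h2 : L.ev x (D.d 2 (L.χ b - 1)) = 0 := L.χ1 b hb [2] x hx
  simp only [DR.V, D.mul, map_add, map_mul, h0, h1, h2, zero_mul, add_zero, mul_zero]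

theorem V_chi (b : ℝ) (a a' f : R) :
    D.V a a' (L.χ b * f) = D.V a a' f + D.V a a' ((L.χ b - 1) * f) := by
  rw [sub_mul, one_mul]
  simp only [DR.V, map_sub]
  ring

end ATC

open ATC in
theorem rowTC : OfTC := by
  intro hC R _ _ D X L b c u1 u2 v1 v2 c1 c2 μ f1 f2 hb hc hμ hf1 hf2 hW
  have one : ∀ x, 0 ≤ L.ev x 1 := fun x => by rw [map_one]; exact zero_le_one
  have t1 := L.F.mul_mem_left (L.χ b - 1) hf1
  have t2 := L.F.mul_mem_left (L.χ b - 1) hf2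
  have p0 := sub_mem (V_mem L u1 u2 hf1) (V_mem L v1 v2 hf2)
  have q0 := add_mem (V_mem L u1 u2 hf2) (V_mem L v1 v2 hf1)
  have p1 := sub_mem (V_mem L u1 u2 t1) (V_mem L v1 v2 t2)
  have q1 := add_mem (V_mem L u1 u2 t2) (V_mem L v1 v2 t1)
  have k1 := nonneg L (b := b) hμ t1 (L.dz 0)
  have k2 := nonneg L (b := b) hμ t2 (L.dz 0)
  have k3 := nonneg L (b := b) one p1 (L.dz 0)
  have k4 := nonneg L (b := b) one q1 (L.dz 0)
  refine ⟨4 / c * (1 + _ + _) + 2 * (_ + _), add_nonneg (mul_nonneg (by positivity)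
    (add_nonneg (add_nonneg zero_le_one k3) k4)) (mul_nonneg zero_le_two (add_nonneg k1 k2)),
    fun N hN h => ?_⟩
  have key := hC D (L.cx b hb) u1 u2 v1 v2 c1 c2 (L.Wt N 0) ((c * N) • μ) (L.χ b * f1) (L.χ b * f2)
    (L.gw N 0) (fun i => L.d_Wt i N 0) (L.χJ b hb f1 hf1) (L.χJ b hb f2 hf2) hW fun x => by
      change L.ev x.1 _ ≤ L.ev x.1 _
      rw [map_smul]
      exact h x.1 x.2
  change L.I b _ ≤ L.I b _ at key
  have s1 := split L hμ (L.F.mul_mem_left (L.χ b) hf1) t1 (fun x hx => van0 L hb f1 hx)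
    (g := f1) (Or.inr (by ring)) N
  have s2 := split L hμ (L.F.mul_mem_left (L.χ b) hf2) t2 (fun x hx => van0 L hb f2 hx)
    (g := f2) (Or.inr (by ring)) N
  have s3 := split L one p0 p1 (fun x hx => by
      rw [map_sub, van1 L hb _ _ _ hx, van1 L hb _ _ _ hx, sub_zero])
    (g := D.V u1 u2 (L.χ b * f1) - D.V v1 v2 (L.χ b * f2))
    (Or.inl (by rw [V_chi, V_chi L b v1]; ring)) N
  have s4 := split L one q0 q1 (fun x hx => by
      rw [map_add, van1 L hb _ _ _ hx, van1 L hb _ _ _ hx, add_zero])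
    (g := D.V u1 u2 (L.χ b * f2) + D.V v1 v2 (L.χ b * f1))
    (Or.inl (by rw [V_chi, V_chi L b v1]; ring)) N
  have a1 := nonneg L (b := b) one p0 (L.Wt N 0)
  have a2 := nonneg L (b := b) one q0 (L.Wt N 0)
  rw [smul_mul_assoc, map_smul, smul_eq_mul, mul_add μ, map_add, map_add] at key
  rw [mul_add μ, map_add, map_add]
  simp only [one_mul] at s3 s4 a1 a2 k3 k4 ⊢
  have n1 : (1 : ℝ) ≤ N := by exact_mod_cast hN
  have hB : (0 : ℝ) ≤ (4 * b ^ 2) ^ N := by positivity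
  generalize (4 * b ^ 2) ^ N = B at *
  generalize L.I b (μ * (L.dz 0 * ((L.χ b - 1) * f1)) ^ 2) = x1 at *
  generalize L.I b (μ * (L.dz 0 * ((L.χ b - 1) * f2)) ^ 2) = x2 at *
  generalize L.I b ((L.dz 0 * (D.V u1 u2 ((L.χ b - 1) * f1) -
    D.V v1 v2 ((L.χ b - 1) * f2))) ^ 2) = x3 at *
  generalize L.I b ((L.dz 0 * (D.V u1 u2 ((L.χ b - 1) * f2) +
    D.V v1 v2 ((L.χ b - 1) * f1))) ^ 2) = x4 at *
  generalize L.I b ((L.Wt N 0 * (D.V u1 u2 f1 - D.V v1 v2 f2)) ^ 2) = y1 at *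
  generalize L.I b ((L.Wt N 0 * (D.V u1 u2 f2 + D.V v1 v2 f1)) ^ 2) = y2 at *
  generalize L.I b (μ * (L.Wt N 0 * (L.χ b * f1)) ^ 2) = z1 at *
  generalize L.I b (μ * (L.Wt N 0 * (L.χ b * f2)) ^ 2) = z2 at *
  have e1 : N * (z1 + z2) ≤ 2 / c * (y1 + y2 + B * (x3 + x4)) := by
    rw [div_mul_eq_mul_div, le_div_iff₀ hc]
    linarith
  have e2 := mul_le_mul_of_nonneg_left (add_le_add s1 s2) (zero_le_one.trans n1)
  have c0 : 0 ≤ 4 / c := by positivity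
  have e3 : B * (x3 + x4) ≤ N * B * (x3 + x4) :=
    mul_le_mul_of_nonneg_right (le_mul_of_one_le_left hB n1) (add_nonneg k3 k4)
  have e4 := mul_le_mul_of_nonneg_left e3 c0
  have e5 := mul_nonneg c0 (mul_nonneg (add_nonneg k3 k4) (add_nonneg a1 a2))
  have e6 := mul_nonneg c0 (mul_nonneg (zero_le_one.trans n1) hB)
  have e7 := mul_nonneg (add_nonneg k1 k2) (add_nonneg a1 a2)
  have e8 : 2 / c = 4 / c / 2 := by ring
  rw [e8] at e1
  generalize 4 / c = κ at *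
  linarith

end Pool.Agent.MP_ed9623_an.S64
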