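import Pool.Agent.MP_ed9623_an.S64.SpecA

/-! The Hardy inequality for flat functions. -/

namespace Pool.Agent.MP_ed9623_an.S64

namespace ATH

variable {R : Type} [CommRing R] [Algebra ℝ R] {D : DR R} {X : Type} (L : Ln D X)

theorem two {b : ℝ} {μ f g : R} (hμ : ∀ x, 0 ≤ L.ev x μ) (hf : f ∈ L.F) (hg : g ∈ L.F) (W : R) :
    L.I b (μ * (W * (f + g)) ^ 2) ≤ 2 * L.I b (μ * (W * f) ^ 2) + 2 * L.I b (μ * (W * g) ^ 2) := by
  have h1 := L.F.mul_mem_left μ (L.sq_mem hf W)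
  have h2 := L.F.mul_mem_left μ (L.sq_mem hg W)
  rw [two_mul, two_mul, ← map_add, ← map_add, ← map_add]
  refine L.I_mono (L.F.mul_mem_left μ (L.sq_mem (add_mem hf hg) W))
    (add_mem (add_mem h1 h1) (add_mem h2 h2)) fun x _ => ?_
  simp only [map_mul, map_pow, map_add]
  nlinarith [mul_nonneg (hμ x) (sq_nonneg (L.ev x W * (L.ev x f - L.ev x g)))]

theorem pos {b : ℝ} {μ f : R} (hμ : ∀ x, 0 ≤ L.ev x μ) (hf : f ∈ L.F) (W : R) :
    0 ≤ L.I b (μ * (W * f) ^ 2) :=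
  L.I_pos b _ (L.F.mul_mem_left μ (L.sq_mem hf W)) fun x _ => by
    rw [map_mul, map_pow]; exact mul_nonneg (hμ x) (sq_nonneg _)

theorem V_mem {f : R} (hf : f ∈ L.F) (a a' : R) : D.V a a' f ∈ L.F :=
  add_mem (L.F.mul_mem_left _ (L.F_d _ _ hf)) (L.F.mul_mem_left _ (L.F_d _ _ hf))

end ATH

open ATH in
theorem rowTH : OfTH := by
  intro hH R _ _ D X L b c s a a' μ f hb hc hμ hf
  have h1 : ∀ x, 0 ≤ L.ev x 1 := fun x => by simp
  have ht : (L.χ b - 1) * f ∈ L.F := L.F.mul_mem_left _ hf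
  have hv : L.χ b * f ∈ L.F := L.F.mul_mem_left _ hf
  have z1 : ∀ x ∈ L.dom (2 * b), L.ev x (-((L.χ b - 1) * f)) = 0 := fun x hx => by
    have := L.χ1 b hb [] x hx
    rw [D.w_nil] at this
    rw [map_neg, map_mul, this, zero_mul, neg_zero]
  have z2 : ∀ x ∈ L.dom (2 * b), L.ev x (D.V a a' ((L.χ b - 1) * f)) = 0 := fun x hx => by
    have e0 : L.ev x (L.χ b - 1) = 0 := L.χ1 b hb [] x hx
    have e1 : L.ev x (D.d 1 (L.χ b - 1)) = 0 := L.χ1 b hb [1] x hx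
    have e2 : L.ev x (D.d 2 (L.χ b - 1)) = 0 := L.χ1 b hb [2] x hx
    simp only [DR.V, D.mul, map_add, map_mul, e0, e1, e2, zero_mul, add_zero, mul_zero]
  have c1 := pos L (b := b) hμ (neg_mem ht) (L.dz s)
  have c2 := pos L (b := b) h1 (V_mem L ht a a') (L.dz s)
  refine ⟨16 / c + 16 / c * L.I b (1 * (L.dz s * D.V a a' ((L.χ b - 1) * f)) ^ 2) +
    2 * L.I b (μ * (L.dz s * -((L.χ b - 1) * f)) ^ 2), by positivity, fun N hN m hm => ?_⟩
  have a1 := two L (b := b) hμ hv (neg_mem ht) (L.Wt N s)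
  have a2 := two L (b := b) h1 (V_mem L hf a a') (V_mem L ht a a') (L.Wt N s)
  have a3 := L.tail hμ (neg_mem ht) z1 N s
  have a4 := L.tail h1 (V_mem L ht a a') z2 N s
  have a5 : L.I b (m ^ 2 * (L.Wt N s * (L.χ b * f)) ^ 2) ≤
      4 * L.I b ((L.Wt N s * D.V a a' (L.χ b * f)) ^ 2) :=
    hH D (L.cx b hb) a a' (L.Wt N s) m _ (L.gw N s) (fun i => L.d_Wt i N s) (L.χJ b hb f hf)
      fun x => (hm x.1 x.2).2
  have a6 : c * N ^ 2 * L.I b (μ * (L.Wt N s * (L.χ b * f)) ^ 2) ≤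
      L.I b (m ^ 2 * (L.Wt N s * (L.χ b * f)) ^ 2) := by
    rw [← smul_eq_mul (c * N ^ 2), ← map_smul, Algebra.smul_def]
    refine L.I_mono (L.F.mul_mem_left _ (L.F.mul_mem_left _ (L.sq_mem hv _)))
      (L.F.mul_mem_left _ (L.sq_mem hv _)) fun x hx => ?_
    simp only [map_mul, map_pow, AlgHom.commutes, Algebra.algebraMap_self, RingHom.id_apply]
    exact (mul_assoc _ _ _).symm.trans_le (mul_le_mul_of_nonneg_right (hm x hx).1 (sq_nonneg _))
  have a7 := pos L (b := b) h1 (V_mem L hf a a') (L.Wt N s)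
  rw [show L.χ b * f + -((L.χ b - 1) * f) = f by ring] at a1
  rw [show D.V a a' f + D.V a a' ((L.χ b - 1) * f) = D.V a a' (L.χ b * f) by
    simp only [DR.V, sub_mul, one_mul, map_sub]; ring] at a2
  simp only [one_mul] at a2 a4 a7 c2 ⊢
  have n1 : (1 : ℝ) ≤ (N : ℝ) ^ 2 := one_le_pow₀ (by exact_mod_cast hN)
  have hB : 0 ≤ (4 * b ^ 2) ^ N := by positivity
  generalize (4 * b ^ 2) ^ N = B at *
  generalize (N : ℝ) ^ 2 = n at *
  have k0 : 0 ≤ 16 / c := by positivity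
  have a8 : n * L.I b (μ * (L.Wt N s * (L.χ b * f)) ^ 2) * 2 ≤ 16 / c *
      (L.I b ((L.Wt N s * D.V a a' f) ^ 2) + B * L.I b ((L.dz s * D.V a a' ((L.χ b - 1) * f)) ^ 2)) := by
    rw [div_mul_eq_mul_div, le_div_iff₀ hc]
    linarith
  have a9 := mul_le_mul_of_nonneg_left (a1.trans (add_le_add le_rfl
    (mul_le_mul_of_nonneg_left a3 zero_le_two))) (zero_le_one.trans n1)
  nlinarith [mul_nonneg (mul_nonneg k0 c2) a7, mul_nonneg c1 a7,
    mul_nonneg k0 (mul_nonneg (zero_le_one.trans n1) hB),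
    mul_nonneg (mul_nonneg k0 c2) (mul_nonneg (sub_nonneg.2 n1) hB)]

end Pool.Agent.MP_ed9623_an.S64
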