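import Pool.Agent.MP_ed9623_an.S64.SpecA

/-! Uniqueness for a degenerate elliptic equation from the inequality of Carleman. -/

open Filter Topology

namespace Pool.Agent.MP_ed9623_an.S64

namespace AUCe

theorem quad {c1 c2 c3 c4 p m w K μ : ℝ} (h : c1 ^ 2 + c2 ^ 2 + c3 ^ 2 + c4 ^ 2 ≤ K * μ) :
    (w * (c1 * p + c2 * m)) ^ 2 + (w * -(c3 * p + c4 * m)) ^ 2 ≤
      K * (μ * ((w * p) ^ 2 + (w * -m) ^ 2)) := by
  have h1 := mul_le_mul_of_nonneg_right h (add_nonneg (sq_nonneg (w * p)) (sq_nonneg (w * m)))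
  nlinarith [sq_nonneg (w * (c1 * m - c2 * p)), sq_nonneg (w * (c3 * m - c4 * p)),
    mul_nonneg (add_nonneg (sq_nonneg c3) (sq_nonneg c4)) (sq_nonneg w),
    mul_nonneg (add_nonneg (sq_nonneg c1) (sq_nonneg c2)) (sq_nonneg w)]

theorem absorb {N Y Z K K' B : ℝ} (hN : 1 ≤ N) (hY : 0 ≤ Y) (hK' : 0 ≤ K') (h1 : Z ≤ K * Y)
    (h2 : N * Y ≤ K' * (Z + N * B)) (h3 : 2 * (K' * |K|) ≤ N) : Y ≤ 2 * K' * B := by
  have a1 : K' * Z ≤ K' * |K| * Y := by
    rw [mul_assoc]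
    exact mul_le_mul_of_nonneg_left (h1.trans (mul_le_mul_of_nonneg_right (le_abs_self K) hY)) hK'
  have a2 := mul_le_mul_of_nonneg_right h3 hY
  have a3 : N * Y ≤ N * (2 * K' * B) := by linarith
  exact le_of_mul_le_mul_left a3 (by linarith)

variable {R : Type} [CommRing R] [Algebra ℝ R] {D : DR R} {X : Type}

theorem V_mem (L : Ln D X) (a b : R) {f : R} (hf : f ∈ L.F) : D.V a b f ∈ L.F :=
  L.F.add_mem (L.F.mul_mem_left _ (L.F_d 1 f hf)) (L.F.mul_mem_left _ (L.F_d 2 f hf))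

theorem V_neg (a b f : R) : D.V a b (-f) = -D.V a b f := by
  simp only [DR.V, map_neg]
  ring

theorem fin (L : Ln D X) {f : R} (hf : f ∈ L.F) {b M : ℝ} (hM : 0 ≤ M)
    (h : ∀ᶠ N : ℕ in atTop, L.I b ((L.Wt N 0 * f) ^ 2) ≤ M ^ N) :
    ∀ x ∈ L.dom (max b (M + 1)), L.ev x f = 0 := by
  intro x hx
  refine L.van f hf b M hM (h.mono fun N hN => by rwa [L.Wt_zero] at hN).frequently x
    (L.dom_mono (le_max_left _ _) hx) ?_
  have h1 : (M + 1) * L.ev x L.d < L.ev x L.u ^ 2 := L.dom_mono (le_max_right _ _) hx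
  rw [map_mul, map_pow, L.ev_di, ← div_eq_mul_inv]
  have h2 : M + 1 < L.ev x L.u ^ 2 / L.ev x L.d := (lt_div_iff₀ (L.d_pos x)).2 h1
  nlinarith

end AUCe

open AUCe in
theorem rowUCe : OfUCe := by
  intro hT R _ _ D X L u1 u2 v1 v2 c1 c2 c3 c4 c5 c6 μ α K hα hμ e1 e2 hW hz
  obtain ⟨b, ⟨c, hc, hz⟩, hb⟩ := (hz.and (eventually_ge_atTop 2)).exists
  have hp := V_mem L u1 u2 hα
  have hm := V_mem L v1 v2 hα
  generalize D.V u1 u2 α = p at *
  generalize D.V v1 v2 α = m at *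
  have hm' := L.F.neg_mem hm
  obtain ⟨K', hK', hI⟩ := hT L b c u1 u2 v1 v2 c5 c6 μ p (-m) hb hc
    (fun x => le_trans zero_le_one (hμ x).1) hp hm' hW
  have e3 : D.V u1 u2 p - D.V v1 v2 (-m) = c1 * p + c2 * m := by rw [V_neg, sub_neg_eq_add, e1]
  have e4 : D.V u1 u2 (-m) + D.V v1 v2 p = -(c3 * p + c4 * m) := by
    rw [V_neg, ← e2]
    ring
  rw [e3, e4] at hI
  have hY : ∀ N : ℕ, μ * ((L.Wt N 0 * p) ^ 2 + (L.Wt N 0 * -m) ^ 2) ∈ L.F := fun N =>
    L.F.mul_mem_left _ (L.F.add_mem (L.sq_mem hp _) (L.sq_mem hm' _))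
  have hM : 0 ≤ (2 * K' + 1) * (4 * b ^ 2) := by positivity
  have key : ∀ᶠ N : ℕ in atTop, L.I b (μ * ((L.Wt N 0 * p) ^ 2 + (L.Wt N 0 * -m) ^ 2)) ≤
      ((2 * K' + 1) * (4 * b ^ 2)) ^ N := by
    filter_upwards [hz, eventually_ge_atTop 1,
      tendsto_natCast_atTop_atTop.eventually_ge_atTop (2 * (K' * |K|))] with N h1 h2 h3
    have a1 := absorb (K := K) (by exact_mod_cast h2) (L.I_pos b _ (hY N) fun x _ => by
      simp only [map_mul, map_add, map_pow]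
      exact mul_nonneg (le_trans zero_le_one (hμ x).1) (by positivity)) hK' ?_ (hI N h2 h1) h3
    · refine a1.trans ?_
      rw [mul_pow (2 * K' + 1)]
      have a2 : 2 * K' + 1 ≤ (2 * K' + 1) ^ N := le_self_pow₀ (by linarith) (by omega)
      have a3 : 0 ≤ (4 * b ^ 2) ^ N := by positivity
      exact mul_le_mul_of_nonneg_right (by linarith) a3
    · rw [← smul_eq_mul K, ← map_smul, Algebra.smul_def]
      refine L.I_mono (L.F.add_mem (L.sq_mem (L.F.add_mem (L.F.mul_mem_left _ hp)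
        (L.F.mul_mem_left _ hm)) _) (L.sq_mem (L.F.neg_mem (L.F.add_mem (L.F.mul_mem_left _ hp)
        (L.F.mul_mem_left _ hm))) _)) (L.F.mul_mem_left _ (hY N)) fun x _ => ?_
      simp only [map_mul, map_add, map_pow, map_neg, AlgHom.commutes, Algebra.algebraMap_self,
        RingHom.id_apply]
      exact quad (hμ x).2
  refine ⟨max b ((2 * K' + 1) * (4 * b ^ 2) + 1), fun x hx => ⟨fin L hp hM ?_ x hx,
    fin L hm hM ?_ x hx⟩⟩
  · refine key.mono fun N hN => le_trans (L.I_mono (L.sq_mem hp _) (hY N) fun x _ => ?_) hN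
    simp only [map_mul, map_add, map_pow, map_neg]
    nlinarith [(hμ x).1, sq_nonneg (L.ev x (L.Wt N 0) * L.ev x p),
      sq_nonneg (L.ev x (L.Wt N 0) * -L.ev x m)]
  · refine key.mono fun N hN => le_trans (L.I_mono (L.sq_mem hm _) (hY N) fun x _ => ?_) hN
    simp only [map_mul, map_add, map_pow, map_neg]
    nlinarith [(hμ x).1, sq_nonneg (L.ev x (L.Wt N 0) * L.ev x p),
      sq_nonneg (L.ev x (L.Wt N 0) * -L.ev x m)]

end Pool.Agent.MP_ed9623_an.S64
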