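import Pool.Agent.MP_ed9623_an.S64.SpecA

/-! Uniqueness for a degenerate hyperbolic equation. -/

open Filter

namespace Pool.Agent.MP_ed9623_an.S64

namespace AUCh

theorem cs {a c P Q w K μ : ℝ} (h : a ^ 2 + c ^ 2 ≤ 2 * (K * μ)) :
    (w * (a * P + c * Q)) ^ 2 ≤ K * (μ * (w * (P + Q)) ^ 2 + μ * (w * (P - Q)) ^ 2) := by
  have h1 := mul_le_mul_of_nonneg_right h (add_nonneg (sq_nonneg (w * P)) (sq_nonneg (w * Q)))
  nlinarith [sq_nonneg (a * (w * Q) - c * (w * P))]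

theorem ab {n k K B S T : ℝ} (hk : 0 ≤ k) (hS : 0 ≤ S) (hn : 1 ≤ n) (h1 : 2 * (k * |K|) ≤ n)
    (hT : T ≤ K * S) (h : n ^ 2 * S ≤ k * (T + n ^ 2 * B)) : S ≤ 2 * k * B := by
  have a1 : k * T ≤ k * |K| * S := by
    rw [mul_assoc]
    exact mul_le_mul_of_nonneg_left (hT.trans (mul_le_mul_of_nonneg_right (le_abs_self K) hS)) hk
  have a2 := mul_le_mul_of_nonneg_right (h1.trans (by nlinarith : n ≤ n ^ 2)) hS
  exact le_of_mul_le_mul_left (by linarith : n ^ 2 * S ≤ n ^ 2 * (2 * k * B)) (by positivity)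

variable {R : Type} [CommRing R] [Algebra ℝ R] {D : DR R} {X : Type} (L : Ln D X)

theorem vF (a b : R) {f : R} (h : f ∈ L.F) : D.V a b f ∈ L.F :=
  add_mem (L.F.mul_mem_left _ (L.F_d _ _ h)) (L.F.mul_mem_left _ (L.F_d _ _ h))

theorem nn {μ f : R} (hμ : ∀ x, 0 ≤ L.ev x μ) (h : f ∈ L.F) (b : ℝ) (W : R) :
    0 ≤ L.I b (μ * (W * f) ^ 2) :=
  L.I_pos b _ (L.F.mul_mem_left _ (L.sq_mem h _)) fun x _ => by
    rw [map_mul, map_pow]; exact mul_nonneg (hμ x) (sq_nonneg _)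

theorem bd {a c μ P Q : R} {K : ℝ} (hP : P ∈ L.F) (hQ : Q ∈ L.F)
    (h : ∀ x, L.ev x a ^ 2 + L.ev x c ^ 2 ≤ 2 * (K * L.ev x μ)) (b : ℝ) (W : R) :
    L.I b ((W * (a * P + c * Q)) ^ 2)
      ≤ K * (L.I b (μ * (W * (P + Q)) ^ 2) + L.I b (μ * (W * (P - Q)) ^ 2)) := by
  rw [← map_add, ← smul_eq_mul K, ← map_smul, Algebra.smul_def]
  refine L.I_mono (L.sq_mem (add_mem (L.F.mul_mem_left _ hP) (L.F.mul_mem_left _ hQ)) _)
    (L.F.mul_mem_left _ (add_mem (L.F.mul_mem_left _ (L.sq_mem (add_mem hP hQ) _))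
      (L.F.mul_mem_left _ (L.sq_mem (sub_mem hP hQ) _)))) fun x _ => ?_
  simpa using cs (h x)

theorem va {μ f : R} {b M : ℝ} (hμ : ∀ x, 1 ≤ L.ev x μ) (hf : f ∈ L.F) (hM : 0 ≤ M)
    (h : ∀ᶠ N : ℕ in atTop, L.I b (μ * (L.Wt N 0 * f) ^ 2) ≤ M ^ N) :
    ∀ x ∈ L.dom (max b (M + 1)), L.ev x f = 0 := fun x hx => by
  refine L.van f hf b M hM (h.mono fun N e => le_trans ?_ e).frequently x
    (L.dom_mono (le_max_left _ _) hx) ?_
  · rw [L.Wt_zero]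
    refine L.I_mono (L.sq_mem hf _) (L.F.mul_mem_left _ (L.sq_mem hf _)) fun y _ => ?_
    rw [map_mul, map_pow]
    exact le_mul_of_one_le_left (sq_nonneg _) (hμ y)
  · have := (lt_div_iff₀ (L.d_pos x)).2 (L.dom_mono (le_max_right _ _) hx)
    rw [map_mul, map_pow, L.ev_di, ← div_eq_mul_inv]
    nlinarith

end AUCh

open AUCh in
theorem rowUCh : OfUCh := by
  intro hT R _ _ D X L u1 u2 v1 v2 c1 c2 c3 c4 μ α K hα hμ e1 e2 hH
  obtain ⟨b, hb, ⟨c, c0, h1⟩, c', c0', h2⟩ := ((eventually_ge_atTop (2 : ℝ)).and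
    ((hH 1 (Or.inl rfl)).and (hH (-1) (Or.inr rfl)))).exists
  have hP := vF L u1 u2 hα
  have hQ := vF L v1 v2 hα
  generalize D.V u1 u2 α = P at *
  generalize D.V v1 v2 α = Q at *
  have m0 : ∀ x, 0 ≤ L.ev x μ := fun x => zero_le_one.trans (hμ x).1
  obtain ⟨k1, p1, t1⟩ := hT L b c 0 (u1 + (1 : ℝ) • v1) (u2 + (1 : ℝ) • v2) μ _ hb c0 m0 (sub_mem hP hQ)
  obtain ⟨k2, p2, t2⟩ := hT L b c' 0 (u1 + (-1 : ℝ) • v1) (u2 + (-1 : ℝ) • v2) μ _ hb c0' m0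
    (add_mem hP hQ)
  have f1 : D.V (u1 + (1 : ℝ) • v1) (u2 + (1 : ℝ) • v2) (P - Q) = (c1 - c3) * P + (c2 - c4) * Q := by
    simp only [DR.V, map_sub, one_smul] at e1 e2 ⊢
    linear_combination e1 - e2
  have f2 : D.V (u1 + (-1 : ℝ) • v1) (u2 + (-1 : ℝ) • v2) (P + Q)
      = (c1 + c3) * P + (c2 + c4) * Q := by
    simp only [DR.V, map_add, neg_smul, one_smul] at e1 e2 ⊢
    linear_combination e1 + e2
  rw [f1] at t1
  rw [f2] at t2
  have key : ∀ᶠ N : ℕ in atTop, L.I b (μ * (L.Wt N 0 * (P + Q)) ^ 2)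
      + L.I b (μ * (L.Wt N 0 * (P - Q)) ^ 2) ≤ ((2 * (k1 + k2) + 1) * (4 * b ^ 2)) ^ N := by
    filter_upwards [h1, h2, eventually_ge_atTop 1,
      tendsto_natCast_atTop_atTop.eventually_ge_atTop (2 * ((k1 + k2) * |K|))]
      with N ⟨m, hm⟩ ⟨m', hm'⟩ n1 n2
    have a1 := bd L (a := c1 - c3) (c := c2 - c4) (K := K) (μ := μ) hP hQ (fun x => by
      rw [map_sub, map_sub]
      nlinarith [(hμ x).2, sq_nonneg (L.ev x c1 + L.ev x c3), sq_nonneg (L.ev x c2 + L.ev x c4)])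
      b (L.Wt N 0)
    have a2 := bd L (a := c1 + c3) (c := c2 + c4) (K := K) (μ := μ) hP hQ (fun x => by
      rw [map_add, map_add]
      nlinarith [(hμ x).2, sq_nonneg (L.ev x c1 - L.ev x c3), sq_nonneg (L.ev x c2 - L.ev x c4)])
      b (L.Wt N 0)
    have s1 := t1 N n1 m hm
    have s2 := t2 N n1 m' hm'
    have b1 := mul_le_mul_of_nonneg_left a1 p1
    have b2 := mul_le_mul_of_nonneg_left a2 p2
    refine (ab (B := (4 * b ^ 2) ^ N) (add_nonneg p1 p2) (add_nonneg (nn L m0 (add_mem hP hQ) b _)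
      (nn L m0 (sub_mem hP hQ) b _)) (Nat.one_le_cast.2 n1) n2 le_rfl (by linarith)).trans ?_
    rw [mul_pow _ (4 * b ^ 2)]
    exact mul_le_mul_of_nonneg_right ((le_add_of_nonneg_right zero_le_one).trans
      (le_self_pow₀ (by linarith) (by omega))) (by positivity)
  have M0 : 0 ≤ (2 * (k1 + k2) + 1) * (4 * b ^ 2) := by positivity
  have z1 := va L (fun x => (hμ x).1) (add_mem hP hQ) M0
    (key.mono fun N h => (le_add_of_nonneg_right (nn L m0 (sub_mem hP hQ) b _)).trans h)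
  have z2 := va L (fun x => (hμ x).1) (sub_mem hP hQ) M0
    (key.mono fun N h => (le_add_of_nonneg_left (nn L m0 (add_mem hP hQ) b _)).trans h)
  refine ⟨max b ((2 * (k1 + k2) + 1) * (4 * b ^ 2) + 1), fun x hx => ?_⟩
  have y1 := z1 x hx
  have y2 := z2 x hx
  rw [map_add] at y1
  rw [map_sub] at y2
  constructor <;> linarith

end Pool.Agent.MP_ed9623_an.S64
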