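import Pool.Agent.MP_ed9623_an.S64.SpecA

/-! Uniqueness from the pencil of operators. -/

namespace Pool.Agent.MP_ed9623_an.S64

namespace AUE

variable {R : Type} [CommRing R] [Algebra ℝ R] {D : DR R} {n : ℝ} {α ψ : R} (M : Mc D n α ψ)

theorem shift_pow (G : M.Γ) (i : ℕ) (m p : ℤ) (f : R) :
    M.d ^ i * f ∈ M.Rw G (m - i) (p + 2 * i) ↔ f ∈ M.Rw G m p := by
  induction i with
  | zero => simp
  | succ i ih =>
    rw [← ih, ← M.shift G (m - i), pow_succ', mul_assoc]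
    push_cast
    rw [sub_add_eq_sub_sub, mul_add, mul_one, add_assoc]

theorem up {G : M.Γ} (i : ℕ) {m p m' p' : ℤ} {f : R} (h : f ∈ M.Rw G m p) (h1 : m - i ≤ m')
    (h2 : p + 2 * i - 2 * (m' - (m - i)) ≤ p') : M.d ^ i * f ∈ M.Rw G m' p' :=
  M.mono h1 h2 ((shift_pow M G i m p f).2 h)

theorem rm0 {G : M.Γ} {k : ℕ} {m p : ℤ} {f : R} (h : f ∈ M.Rm G k m p) (hm : m ≤ k) :
    f ∈ M.Rw G m p := by
  simpa [D.w_nil] using h [] (fun _ h => absurd h List.not_mem_nil) (by simpa using hm)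

theorem rm2 {G : M.Γ} {p : ℤ} {f : R} (h : f ∈ M.Rm G 2 (-2) p) {i j : Fin 3} (hi : i ≠ 0)
    (hj : j ≠ 0) : D.d i (D.d j f) ∈ M.Rw G 0 p := by
  have := h [j, i] (by simp [Sp, hi, hj]) (by simp)
  simpa [D.w_cons, D.w_nil] using this

theorem T2_mem {S : Submodule M.A R} {a b c f : R} (ha : a ∈ M.A) (hb : b ∈ M.A) (hc : c ∈ M.A)
    (h : ∀ i j : Fin 3, i ≠ 0 → j ≠ 0 → D.d i (D.d j f) ∈ S) : D.T2 a b c f ∈ S := by
  unfold DR.T2
  rw [two_mul]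
  have h12 := M.mul_mem hb (h 1 2 (by decide) (by decide))
  exact add_mem (sub_mem (M.mul_mem ha (h 2 2 (by decide) (by decide))) (add_mem h12 h12))
    (M.mul_mem hc (h 1 1 (by decide) (by decide)))

include M in
theorem LL_zero : D.LL ψ α = 0 := by
  have h := D.LL_eq α ψ
  rw [M.eW 2 (by decide), M.eW 1 (by decide), map_zero, map_zero, sub_zero] at h
  have : D.LL ψ α = (1 / 2 : ℝ) • (2 * D.LL ψ α) := by
    rw [two_mul, smul_add, ← add_smul]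
    norm_num
  rw [this, h, smul_zero]

include M in
theorem pencil {σ : R} (h : D.AA ψ σ = 0) :
    D.QQ ψ σ * D.AA (D.d 0 ψ) σ * D.d 2 (D.d 2 α) =
      -(D.bk (D.d 1 (D.d 2 ψ)) (D.d 2 (D.d 2 ψ)) * (D.XX σ (D.XX σ α) - D.XX σ σ * D.d 2 α)) -
        D.QQ ψ σ * D.LL ψ (D.d 0 α) := by
  have h0 := LL_zero M
  have h1 : D.LL (D.d 0 ψ) α + D.LL ψ (D.d 0 α) = 0 := by
    have := congrArg (D.d 0) h0
    simp only [DR.LL, DR.T2, map_add, map_sub, map_zero, D.mul, D.c10, D.c20, D.d_ofNat] at this ⊢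
    linear_combination this
  have h2 := D.LL_frame ψ σ α
  have h3 := D.LL_frame (D.d 0 ψ) σ α
  rw [h0, h] at h2
  have h4 : D.bk (D.d 1 (D.d 2 ψ)) (D.d 2 (D.d 2 ψ)) = D.QQ ψ σ * D.d 2 (D.d 2 (D.d 0 ψ)) -
      D.QQ (D.d 0 ψ) σ * D.d 2 (D.d 2 ψ) := by
    simp only [DR.bk, DR.QQ, D.c10, D.c20]
    ring
  rw [h4]
  linear_combination D.QQ ψ σ * h1 - D.QQ ψ σ * h3 + D.QQ (D.d 0 ψ) σ * h2

/-- the second derivatives of the first time derivative gain one order -/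
theorem gain (hXM : XMS) (hXR : XRS) (hSt : StS) (hBs : BsS) {σ τ Qi ns : R}
    (C : M.Ch σ τ Qi ns) {G : M.Γ} (hG : M.Anch G 2) {c : R} (hc : c ∈ M.A)
    (e : D.XX σ ψ = M.d * c) {i j : Fin 3} (hi : i ≠ 0) (hj : j ≠ 0) :
    D.d i (D.d j (D.d 0 α)) ∈ M.Rw G (-1) 5 := by
  obtain ⟨-, x2, -, x4⟩ := hXM M C
  have m1 : M.Mj σ 1 ≤ M.Rw G 1 3 := fun f hf =>
    M.mono_p _ _ _ _ (by norm_num) (rm0 M ((hXR M C).1 G 2 one_le_two hG 1 hf) (by norm_num))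
  have a0 : α ∈ M.Mj σ 0 := Submodule.subset_span (Or.inr ⟨0, rfl⟩)
  have b0 := hBs M C G 2 le_rfl hG 0
  have b1 := (hBs M C G 2 le_rfl hG 1).1
  have hA := fun l => M.A_d l ψ M.ψA
  have s0 : M.S1 ⊔ M.SU 1 (0 + 1) ⊔ M.SY 0 ⊔ Qd D M.A n α ψ ≤ M.Rw G 1 3 := by
    refine sup_le (sup_le (sup_le (Submodule.span_le.2 ?_) (Submodule.span_le.2 ?_))
      (Submodule.span_le.2 ?_)) (M.quad _ _ _)
    · rintro _ (rfl | rfl)
      · exact m1 ((x2 0 α a0).2.2 1 (by decide))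
      · exact m1 ((x2 0 α a0).2.2 2 (by decide))
    · rintro _ ⟨k, l, h1, h2, h3, h4, rfl⟩
      obtain rfl : k = 0 + 1 := le_antisymm h2 h1
      exact M.mono (by omega) (by omega) (b0.1 l h3 (by omega))
    · rintro _ ⟨k, l, h1, h2, rfl⟩
      obtain rfl : k = 0 := Nat.le_zero.1 h1
      exact M.mono (by norm_num) (by norm_num) (rm0 M (b0.2 l h2) (by norm_num))
  have s1 := s0 (hSt M 0).1
  have s2 := m1 ((x4 0 1 (one_mem _)).2.2 _ (M.A_d 0 _ (pow_mem (hA 1) 2)) _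
    (M.A_d 0 _ (mul_mem (hA 1) (hA 2))) _ (M.A_d 0 _ (pow_mem (hA 2) 2)))
  have s3 : M.d ^ 1 * ((2 * c * (D.d 0 (D.d 1 ψ) + σ * D.d 0 (D.d 2 ψ))) * (D.d 2)^[2] α) ∈
      M.Rw G 1 3 := up M 1 (M.mul_mem (mul_mem (mul_mem (ofNat_mem _ 2) hc)
        (add_mem (M.A_d 0 _ (hA 1)) (mul_mem C.σA (M.A_d 0 _ (hA 2))))) (hG 2 le_rfl))
      (by norm_num) (by norm_num)
  have s4 : D.lap (D.d 0 (D.d 0 α)) ∈ M.Rw G 1 3 := M.mono (by norm_num) (by norm_num)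
    (add_mem (rm2 M b1 (by decide) (by decide)) (rm2 M b1 (by decide) (by decide)))
  have uF := M.F_d 0 α M.αF
  have s5 : (0 : ℝ) • D.d 0 (D.lap (D.d 0 α)) - D.lap (D.lap (D.d 0 α)) ∈ M.Rw G 1 3 := by
    convert sub_mem (sub_mem (sub_mem s1 s2) s3) s4 using 1
    simp only [DR.XX] at e
    simp only [zero_smul, zero_add, Function.iterate_succ_apply', Function.iterate_zero_apply,
      one_mul, mul_one, pow_one, DR.ht, D.mul, D.d_sq]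
    have : D.d 0 (D.lap (D.d 0 α)) = D.lap (D.d 0 (D.d 0 α)) := by
      simp only [DR.lap, map_add, D.c10, D.c20]
    rw [this]
    linear_combination -(2 * (D.d 0 (D.d 1 ψ) + σ * D.d 0 (D.d 2 ψ)) * D.d 2 (D.d 2 α)) * e
  have s6 := (M.inv G 1 3 0 (Or.inl rfl) _
    (add_mem (M.F_d 1 _ (M.F_d 1 _ uF)) (M.F_d 2 _ (M.F_d 2 _ uF))) s5).1
  have s7 : (0 : ℝ) • D.d 0 (D.d 0 α) - D.lap (D.d 0 α) ∈ M.Rw G (-1) 4 := by
    rw [zero_smul, zero_sub]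
    exact neg_mem s6
  exact ((M.inv G (-1) 4 0 (Or.inl rfl) _ uF s7).2 i hi).2 j hj

end AUE

open AUE in
theorem rowUE : OfUE := by
  intro hXM hXR _ hSt hBs hCl R _ _ D n α ψ M σ τ Qi ns C j r hr ri hri a ha b hb e1 e2 e3 e4 hj
  refine hCl M C 2 le_rfl fun G hG => ?_
  have hA := fun l l' => M.A_d l _ (M.A_d l' ψ M.ψA)
  have t1 : D.XX σ (D.XX σ α) ∈ M.Rw G 0 0 :=
    rm0 M ((hXR M C).1 G 2 one_le_two hG 0 (Submodule.subset_span (Or.inr ⟨2, rfl⟩)))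
      (by norm_num)
  have t2 : D.d 2 α ∈ M.Rw G 1 0 := hG 1 one_le_two
  have t3 : D.LL ψ (D.d 0 α) ∈ M.Rw G (2 - j) (2 * j - 1) := by
    refine T2_mem M (hA 1 1) (hA 1 2) (hA 2 2) fun i l hi hl => ?_
    rcases hj with hj | ⟨rfl, c, hc, e⟩
    · exact M.mono (by omega) (by omega) (rm2 M (hBs M C G 2 le_rfl hG 0).1 hi hl)
    · exact gain M hXM hXR hSt hBs C hG hc e hi hl
  have t4 : M.d ^ (j + 2) * (r * D.d 2 (D.d 2 α)) = -(M.d ^ j * (a * D.XX σ (D.XX σ α))) +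
      M.d ^ (j + 1) * (b * D.d 2 α) - M.d ^ 2 * (D.QQ ψ σ * D.LL ψ (D.d 0 α)) := by
    linear_combination M.d ^ 2 * pencil M C.root - M.d ^ 2 * D.d 2 (D.d 2 α) * e2 -
      D.XX σ (D.XX σ α) * e3 + M.d * D.d 2 α * e4
  have t5 : r * D.d 2 (D.d 2 α) ∈ M.Rw G 2 (-1) := by
    rw [← shift_pow M G (j + 2), t4]
    refine sub_mem (add_mem (neg_mem (up M j (M.mul_mem ha t1) ?_ ?_))
      (up M (j + 1) (M.mul_mem hb t2) ?_ ?_))
      (up M 2 (M.mul_mem (add_mem (hA 1 2) (mul_mem C.σA (hA 2 2))) t3) ?_ ?_) <;>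
      push_cast <;> omega
  have := M.mul_mem hri t5
  rwa [← mul_assoc, mul_comm ri, e1, one_mul] at this

end Pool.Agent.MP_ed9623_an.S64
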