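import Pool.Agent.MP_ed9623_an.S64.SpecA

/-! Uniqueness near a non-characteristic curve, elliptic side. -/

open Filter Topology

namespace Pool.Agent.MP_ed9623_an.S64

namespace AUNe

variable {R : Type} [CommRing R] [Algebra ℝ R] {D : DR R} {X : Type}

theorem d_sdpow (L : Ln D X) (i : Fin 3) (j : ℕ) :
    D.d i (L.sd ^ j) = algebraMap ℝ R ((j : ℝ) / 2) * (D.d i L.d * L.di) * L.sd ^ j := by
  induction j with
  | zero => simp [D.d_one]
  | succ j ih =>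
    rw [pow_succ, D.mul, ih, L.d_sd, Ln.si, Algebra.smul_def]
    have : (((j + 1 : ℕ) : ℝ) / 2) = (j : ℝ) / 2 + 1 / 2 := by push_cast; ring
    rw [this, map_add]
    ring

/-- The second order equation. -/
theorem eq_one {ψ α g Ai r ri s k di : R} (hg : D.d 2 g = 0) (hA : D.AA ψ g * Ai = 1)
    (h0 : D.LL ψ α = 0) (hr : r * ri = 1) (hd : D.det ψ * Ai ^ 2 = s * s * r ^ 2)
    (s1 : D.d 1 s = -(k * g * di * s)) (s2 : D.d 2 s = k * di * s) :
    D.V (-(D.QQ ψ g * Ai)) (1 - D.QQ ψ g * Ai * g)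
        (D.V (-(D.QQ ψ g * Ai)) (1 - D.QQ ψ g * Ai * g) α)
      + D.V (s * r) (s * r * g) (D.V (s * r) (s * r * g) α)
      = D.d 2 (D.d 2 ψ) * Ai * D.d 1 g * D.V (-(D.QQ ψ g * Ai)) (1 - D.QQ ψ g * Ai * g) α
        + (s * D.XX g r - s * ri * D.XX g (r ^ 2 * D.AA ψ g) * Ai) * D.V (s * r) (s * r * g) α := by
  have e := D.UN_id hg hA α
  have h1 : D.det ψ * Ai = s * s * (r ^ 2 * D.AA ψ g) := by
    linear_combination D.AA ψ g * hd - D.det ψ * Ai * hA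
  have h2 : D.XX g (s * s * (r ^ 2 * D.AA ψ g)) = s * s * D.XX g (r ^ 2 * D.AA ψ g) := by
    generalize r ^ 2 * D.AA ψ g = w
    simp only [DR.XX, D.mul, s1, s2]
    ring
  have h3 : D.V (s * r) (s * r * g) α = s * r * D.XX g α := by simp only [DR.V, DR.XX]; ring
  have h4 : D.V (s * r) (s * r * g) (s * r * D.XX g α)
      = s * s * r ^ 2 * D.XX g (D.XX g α) + s * D.XX g r * (s * r * D.XX g α) := by
    generalize D.XX g α = w
    simp only [DR.V, DR.XX, D.mul, s1, s2]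
    ring
  rw [h0, hd, h1, h2] at e
  rw [h3, h4]
  linear_combination -e + s * s * D.XX g (r ^ 2 * D.AA ψ g) * Ai * D.XX g α * hr

/-- The commutator. -/
theorem eq_two {α g q r ri s k di : R} (hg : D.d 2 g = 0) (hr : r * ri = 1)
    (s1 : D.d 1 s = -(k * g * di * s)) (s2 : D.d 2 s = k * di * s) :
    D.V (-q) (1 - q * g) (D.V (s * r) (s * r * g) α)
      - D.V (s * r) (s * r * g) (D.V (-q) (1 - q * g) α)
      = 0 * D.V (-q) (1 - q * g) α
        + (k * di + D.V (-q) (1 - q * g) r * ri + D.XX g q) * D.V (s * r) (s * r * g) α := by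
  simp only [DR.V, DR.XX, map_add, map_sub, map_neg, D.mul, D.c21, D.d_one, s1, s2, hg]
  linear_combination (-(s * (-q * D.d 1 r + (1 - q * g) * D.d 2 r) * (D.d 1 α + g * D.d 2 α))) * hr

theorem czw {g q r ri s k di : R} (hr : r * ri = 1)
    (s1 : D.d 1 s = -(k * g * di * s)) (s2 : D.d 2 s = k * di * s) :
    CzW D (-q) (1 - q * g) (s * r) (s * r * g) (-(s * D.XX g r))
      (k * di + D.V (-q) (1 - q * g) r * ri) := by
  have e : -q * (s * r * g) - (1 - q * g) * (s * r) = -(s * r) := by ring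
  rw [CzW, e]
  simp only [DR.V, DR.XX, map_neg, D.mul, s1, s2]
  constructor
  · linear_combination (-(s * (-q * D.d 1 r + (1 - q * g) * D.d 2 r))) * hr
  · linear_combination (-(s * g * (-q * D.d 1 r + (1 - q * g) * D.d 2 r))) * hr

/-- The lower bound of the Carleman inequality as a polynomial in the parameter. -/
theorem czq_eq (L : Ln D X) {g q ρ c5 k e : R} (hg : g = -D.d 1 L.d) (N : ℕ) :
    czq D (-q) (1 - q * g) ρ (ρ * g) c5 (k * L.di + e) (L.gw N 0)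
      = (N : ℝ) • ((1 + k) * L.di ^ 2
        + (D.dv (-(2 * q * D.d 1 L.u * L.ui) * -q) (-(2 * q * D.d 1 L.u * L.ui) * (1 - q * g))
          - L.di * D.dv (-q) (1 - q * g)
          + D.dv (2 * ρ * D.d 1 L.u * L.ui * ρ) (2 * ρ * D.d 1 L.u * L.ui * (ρ * g))
          + c5 * (2 * ρ * D.d 1 L.u * L.ui) - (k * L.di + e) * -(2 * q * D.d 1 L.u * L.ui)
          + e * L.di))
        - (1 / 4 : ℝ) • (c5 ^ 2 + (k * L.di + e) ^ 2) := by
  have h1 : D.d 1 L.d = -g := by rw [hg, neg_neg]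
  have ha : -q * L.gw N 0 1 + (1 - q * g) * L.gw N 0 2
      = (N : ℝ) • (-(2 * q * D.d 1 L.u * L.ui) - L.di) := by
    simp only [Ln.gw, Int.cast_zero, map_zero, h1, L.d2, L.u2, Algebra.smul_def]
    ring
  have hb : ρ * L.gw N 0 1 + ρ * g * L.gw N 0 2 = (N : ℝ) • (2 * ρ * D.d 1 L.u * L.ui) := by
    simp only [Ln.gw, Int.cast_zero, map_zero, h1, L.d2, L.u2, Algebra.smul_def]
    ring
  rw [czq, ha, hb]
  congr 1
  generalize -(2 * q * D.d 1 L.u * L.ui) = w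
  generalize 2 * ρ * D.d 1 L.u * L.ui = b
  have i1 : D.d 1 L.di = g * L.di ^ 2 := by rw [D.d_inv 1 L.d_di, h1]; ring
  have i2 : D.d 2 L.di = -L.di ^ 2 := by rw [D.d_inv 2 L.d_di, L.d2]; ring
  simp only [DR.dv, smul_mul_assoc, map_smul, sub_mul, map_sub]
  rw [D.mul 1 L.di, D.mul 2 L.di, i1, i2]
  simp only [Algebra.smul_def, map_sub]
  ring

end AUNe

open AUNe in
theorem rowUNe : OfUNe := by
  intro hS hU R _ _ D X L ψ α Ai r ri j hψ hα hAi hr hri h0 hA hrr hdet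
  obtain ⟨sA, ssd, -, sui, sdi, smul, -, sle, slt, sd, -, sbd, sso, spos⟩ := hS L
  have mono : ∀ {k l : ℕ} {a : R}, a ∈ L.Sy k → k ≤ l → a ∈ L.Sy l := fun {k l a} ha h => by
    rcases h.eq_or_lt with rfl | h
    · exact ha
    · exact sle l (slt k l h ha)
  have m0 : ∀ {k : ℕ} {a b : R}, a ∈ L.Sy 0 → b ∈ L.Sy k → a * b ∈ L.Sy k := fun {k a b} ha hb => by
    simpa using smul 0 k a ha b hb
  have m1 : ∀ {k : ℕ} {a b : R}, a ∈ L.Sy k → b ∈ L.Sy 0 → a * b ∈ L.Sy k := fun {k a b} ha hb => by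
    simpa using smul k 0 a ha b hb
  set g : R := -D.d 1 L.d with hg
  set k : R := algebraMap ℝ R ((j : ℝ) / 2) with hk
  set s : R := L.sd ^ j with hs
  have g2 : D.d 2 g = 0 := by rw [hg, map_neg, D.c21, L.d2, D.d_one, neg_zero]
  have s1 : D.d 1 s = -(k * g * L.di * s) := by rw [hs, d_sdpow, hg]; ring
  have s2 : D.d 2 s = k * L.di * s := by rw [hs, d_sdpow, L.d2]; ring
  have hd : D.det ψ * Ai ^ 2 = s * s * r ^ 2 := by rw [hdet, one_smul, hs, ← mul_pow, L.sd_sq]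
  have dA := L.A_d
  have gA : g ∈ L.A := neg_mem (dA _ _ L.dA)
  have twoA : (2 : R) ∈ L.A := ofNat_mem _ 2
  have XA : ∀ {f : R}, f ∈ L.A → D.XX g f ∈ L.A := fun hf =>
    add_mem (dA _ _ hf) (mul_mem gA (dA _ _ hf))
  have AAA : D.AA ψ g ∈ L.A :=
    add_mem (add_mem (dA _ _ (dA _ _ hψ)) (mul_mem (mul_mem twoA gA) (dA _ _ (dA _ _ hψ))))
      (mul_mem (pow_mem gA 2) (dA _ _ (dA _ _ hψ)))
  have qA : D.QQ ψ g * Ai ∈ L.A :=
    mul_mem (add_mem (dA _ _ (dA _ _ hψ)) (mul_mem gA (dA _ _ (dA _ _ hψ)))) hAi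
  have E1 := eq_one (α := α) g2 hA h0 hrr hd s1 s2
  generalize D.QQ ψ g * Ai = q at qA E1
  have u1A : -q ∈ L.A := neg_mem qA
  have u2A : 1 - q * g ∈ L.A := sub_mem (one_mem _) (mul_mem qA gA)
  have eA : D.V (-q) (1 - q * g) r * ri ∈ L.A :=
    mul_mem (add_mem (mul_mem u1A (dA _ _ hr)) (mul_mem u2A (dA _ _ hr))) hri
  have sS : s ∈ L.Sy 0 := by
    rw [hs]
    clear * - sA ssd m0
    induction j with
    | zero => simpa using sA 1 (one_mem _)
    | succ j ih => rw [pow_succ]; exact m0 ih ssd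
  have kS : k ∈ L.Sy 0 := sA _ (L.A.algebraMap_mem _)
  have ρS : s * r ∈ L.Sy 0 := m0 sS (sA _ hr)
  have c6S : k * L.di + D.V (-q) (1 - q * g) r * ri ∈ L.Sy 2 :=
    add_mem (m0 kS sdi) (mono (sA _ eA) (by norm_num))
  have c5S : -(s * D.XX g r) ∈ L.Sy 0 := neg_mem (m0 sS (sA _ (XA hr)))
  have c1S : D.d 2 (D.d 2 ψ) * Ai * D.d 1 g ∈ L.Sy 2 :=
    mono (sA _ (mul_mem (mul_mem (dA _ _ (dA _ _ hψ)) hAi) (dA _ _ gA))) (by norm_num)
  have c2S : s * D.XX g r - s * ri * D.XX g (r ^ 2 * D.AA ψ g) * Ai ∈ L.Sy 2 :=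
    mono (sub_mem (m0 sS (sA _ (XA hr))) (m0 (m0 (m0 sS (sA _ hri))
      (sA _ (XA (mul_mem (pow_mem hr 2) AAA)))) (sA _ hAi))) (by norm_num)
  have c4S : k * L.di + D.V (-q) (1 - q * g) r * ri + D.XX g q ∈ L.Sy 2 :=
    add_mem c6S (mono (sA _ (XA qA)) (by norm_num))
  obtain ⟨C1, -, b1⟩ := sbd 2 _ c1S
  obtain ⟨C2, -, b2⟩ := sbd 2 _ c2S
  obtain ⟨C4, -, b4⟩ := sbd 2 _ c4S
  have uiS : L.ui ∈ L.Sy 1 := sle 1 sui
  have uS : D.d 1 L.u ∈ L.Sy 0 := sA _ (dA _ _ L.uA)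
  have wS : -(2 * q * D.d 1 L.u * L.ui) ∈ L.Sy 1 :=
    neg_mem (m0 (m0 (sA _ (mul_mem twoA qA)) uS) uiS)
  have bS : 2 * (s * r) * D.d 1 L.u * L.ui ∈ L.Sy 1 := m0 (m0 (m0 (sA _ twoA) ρS) uS) uiS
  have ES := slt 3 4 (by norm_num) (add_mem (sub_mem (add_mem (add_mem (sub_mem
    (add_mem (sd 1 1 _ (m1 wS (sA _ u1A))) (sd 1 2 _ (m1 wS (sA _ u2A))))
    (mono (m1 sdi (sA _ (add_mem (dA 1 _ u1A) (dA 2 _ u2A)))) (by norm_num)))
    (add_mem (sd 1 1 _ (m1 bS ρS)) (sd 1 2 _ (m1 bS (m1 ρS (sA _ gA))))))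
    (mono (m0 c5S bS) (by norm_num))) (smul 2 1 _ c6S _ wS))
    (mono (m0 (sA _ eA) sdi) (by norm_num)))
  have SS : (-(s * D.XX g r)) ^ 2 + (k * L.di + D.V (-q) (1 - q * g) r * ri) ^ 2 ∈ L.Sy 4 := by
    rw [sq, sq]
    exact add_mem (mono (m0 c5S c5S) (by norm_num)) (smul 2 2 _ c6S _ c6S)
  obtain ⟨C, hC, bS⟩ := sbd 4 _ SS
  have sqb : ∀ {a C t : ℝ}, |a| ≤ C * t → a ^ 2 ≤ C ^ 2 * t ^ 2 := fun h => by
    rw [← mul_pow, ← sq_abs]; exact pow_le_pow_left₀ (abs_nonneg _) h 2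
  obtain ⟨M, hM⟩ := hU L (-q) (1 - q * g) (s * r) (s * r * g) _ _ 0 _ _ _ (L.di ^ 2) α
    (C1 ^ 2 + C2 ^ 2 + C4 ^ 2) hα (fun x => by
      obtain ⟨p1, p2⟩ := spos x
      have a1 := sqb (b1 x)
      have a2 := sqb (b2 x)
      have a4 := sqb (b4 x)
      rw [p2] at a1 a2 a4
      rw [map_pow, map_zero]
      exact ⟨by rw [← p2]; exact one_le_pow₀ (one_le_pow₀ p1), by linarith⟩)
    E1 (eq_two g2 hrr s1 s2) (czw hrr s1 s2) (by
      filter_upwards [sso 4 _ ES (1 / 4) (by norm_num)] with b hb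
      refine ⟨1 / 2, by norm_num, ?_⟩
      filter_upwards [tendsto_natCast_atTop_atTop.eventually_ge_atTop C] with N hN x hx
      obtain ⟨-, p2⟩ := spos x
      have a := (abs_le.1 (hb x hx)).1
      have a' := (abs_le.1 (bS x)).2
      have p4 : L.ev x L.si ^ 4 = L.ev x L.di ^ 2 := by rw [← p2]; ring
      rw [p4] at a a'
      rw [czq_eq L hg, map_sub, map_smul, map_smul, map_add, map_mul, map_add, map_one, map_pow]
      have k0 : 0 ≤ L.ev x k := by rw [hk, AlgHom.commutes]; positivity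
      have N0 : (0 : ℝ) ≤ N := Nat.cast_nonneg N
      have t0 : 0 ≤ L.ev x L.di ^ 2 := sq_nonneg _
      simp only [smul_eq_mul, DR.dv]
      have z1 := mul_le_mul_of_nonneg_left a N0
      have z2 := mul_le_mul_of_nonneg_right hN t0
      have z3 := mul_nonneg N0 (mul_nonneg k0 t0)
      linarith)
  refine ⟨M, fun x hx => ?_⟩
  obtain ⟨a1, a2⟩ := hM x hx
  have r0 : L.ev x r ≠ 0 := fun h => by
    have := congrArg (L.ev x) hrr
    rw [map_mul, h, map_one] at this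
    simp at this
  have s0 : L.ev x s ≠ 0 := by rw [hs, map_pow]; exact pow_ne_zero _ (L.sd_pos x).ne'
  simp only [DR.V, map_add, map_mul, map_neg, map_sub, map_one] at a1 a2
  have t : L.ev x (D.d 1 α) + L.ev x g * L.ev x (D.d 2 α) = 0 :=
    mul_left_cancel₀ (mul_ne_zero s0 r0) (by linear_combination a2)
  have t2 : L.ev x (D.d 2 α) = 0 := by linear_combination a1 + L.ev x q * t
  exact ⟨by linear_combination t - L.ev x g * t2, t2⟩

end Pool.Agent.MP_ed9623_an.S64
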