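import Pool.Agent.MP_ed9623_an.S64.SpecA

/-! Uniqueness across a non-characteristic curve, hyperbolic sign. -/

open Filter Topology

namespace Pool.Agent.MP_ed9623_an.S64

namespace AUNh

variable {R : Type} [CommRing R] [Algebra ℝ R] {D : DR R} {X : Type} (L : Ln D X)

theorem d_sd_pow (i : Fin 3) (j : ℕ) :
    D.d i (L.sd ^ j) = ((j : ℝ) / 2) • (D.d i L.d * L.di) * L.sd ^ j := by
  induction j with
  | zero => simp [D.d_one]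
  | succ k ih =>
    rw [pow_succ, D.mul, ih, L.d_sd, Ln.si]
    have : (((k + 1 : ℕ) : ℝ) / 2) = (k : ℝ) / 2 + 1 / 2 := by push_cast; ring
    rw [this]
    simp only [Algebra.smul_def, map_add]
    ring

theorem smul_mem {S : Submodule L.A R} (c : ℝ) {f : R} (hf : f ∈ S) : c • f ∈ S := by
  rw [Algebra.smul_def]
  exact S.smul_mem (⟨_, L.A.algebraMap_mem c⟩ : L.A) hf

theorem mul_mem {S : Submodule L.A R} {a f : R} (ha : a ∈ L.A) (hf : f ∈ S) : a * f ∈ S :=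
  S.smul_mem (⟨a, ha⟩ : L.A) hf

theorem eq1 {ψ α Ai g ρ : R} (hg : D.d 2 g = 0) (h0 : D.LL ψ α = 0) (h : D.AA ψ g * Ai = 1)
    (hd : D.det ψ * Ai ^ 2 = -ρ ^ 2) :
    D.V (-(D.QQ ψ g * Ai)) (1 - D.QQ ψ g * Ai * g)
        (D.V (-(D.QQ ψ g * Ai)) (1 - D.QQ ψ g * Ai * g) α) - D.V ρ (ρ * g) (D.V ρ (ρ * g) α)
      = D.d 2 (D.d 2 ψ) * Ai * D.d 1 g * D.V (-(D.QQ ψ g * Ai)) (1 - D.QQ ψ g * Ai * g) α
        + (D.XX g ρ + ρ * D.XX g (D.AA ψ g) * Ai) * D.V ρ (ρ * g) α := by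
  have e := D.UN_id hg h α
  have h1 : D.det ψ * Ai = -(ρ ^ 2 * D.AA ψ g) := by
    linear_combination D.AA ψ g * hd - D.det ψ * Ai * h
  rw [h0, hd, h1] at e
  have e2 : D.V ρ (ρ * g) (D.V ρ (ρ * g) α)
      = ρ ^ 2 * D.XX g (D.XX g α) + D.XX g ρ * D.V ρ (ρ * g) α := by
    simp only [DR.V, DR.XX, map_add, D.mul]
    ring
  have e3 : D.XX g (-(ρ ^ 2 * D.AA ψ g))
      = -(2 * ρ * D.XX g ρ * D.AA ψ g + ρ ^ 2 * D.XX g (D.AA ψ g)) := by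
    simp only [DR.XX, map_neg, D.mul, D.d_sq]
    ring
  have e4 : D.V ρ (ρ * g) α = ρ * D.XX g α := by
    simp only [DR.V, DR.XX]
    ring
  rw [e3] at e
  rw [e2, e4]
  linear_combination -e + 2 * ρ * D.XX g ρ * D.XX g α * h

theorem eq2 {α q g ρ c : R} (hg : D.d 2 g = 0) (h : D.V (-q) (1 - q * g) ρ = ρ * c) :
    D.V (-q) (1 - q * g) (D.V ρ (ρ * g) α) - D.V ρ (ρ * g) (D.V (-q) (1 - q * g) α)
      = 0 * D.V (-q) (1 - q * g) α + (c + D.XX g q) * D.V ρ (ρ * g) α := by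
  simp only [DR.V, DR.XX, map_add, map_sub, map_neg, D.mul, D.c21, hg, D.d_one] at h ⊢
  linear_combination (D.d 1 α + g * D.d 2 α) * h

theorem hah (hS : SyS) {a : R} (ha : a ∈ L.Sy 0) : ∀ᶠ b : ℝ in atTop, ∃ c : ℝ, 0 < c ∧
    ∀ᶠ N : ℕ in atTop, ∃ m : R, ∀ x ∈ L.dom b, c * N ^ 2 * L.ev x (L.di ^ 2) ≤ L.ev x m ^ 2 ∧
      HaH D (L.ev x) a (1 - a * D.d 1 L.d) (L.gw N 0) m := by
  obtain ⟨hA, -, -, hui, hdi, hmul, hmul', hle, hlt, hd, -, hb, hb', hx⟩ := hS L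
  have hn := L.A_d 1 _ L.dA
  have h1 : 4 * (D.d 1 L.u * (L.ui * (a * L.di))) ∈ L.So 4 :=
    mul_mem L (ofNat_mem L.A 4) (mul_mem L (L.A_d 1 _ L.uA)
      (hlt 3 4 (by norm_num) (hle 3 (hmul' 1 2 _ hui _ (hmul 0 2 _ ha _ hdi)))))
  have h2 : D.dv a (1 - a * D.d 1 L.d) * L.di ∈ L.Sy 4 := by
    refine hmul 2 2 _ (add_mem (hd 0 1 _ ha) (hd 0 2 _ (sub_mem (hA _ (one_mem _)) ?_))) _ hdi
    rw [mul_comm]; exact mul_mem L hn ha
  obtain ⟨C, hC, hC'⟩ := hb 4 _ h2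
  filter_upwards [hb' 4 _ h1 (1 / 2) (by norm_num)] with b hb1
  refine ⟨1, one_pos, ?_⟩
  filter_upwards [tendsto_natCast_atTop_atTop.eventually_ge_atTop (2 * C)] with N hN
  refine ⟨(N : ℝ) • L.di, fun x hxb => ⟨?_, ?_⟩⟩
  · simp only [map_pow, map_smul, smul_eq_mul]
    exact le_of_eq (by ring)
  have e : -(2 * (a * L.gw N 0 1 + (1 - a * D.d 1 L.d) * L.gw N 0 2)
        + D.dv a (1 - a * D.d 1 L.d)) * ((N : ℝ) • L.di)
        - D.V a (1 - a * D.d 1 L.d) ((N : ℝ) • L.di)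
      = (2 * (N : ℝ) ^ 2 + N) • L.di ^ 2 - (N : ℝ) ^ 2 • (4 * (D.d 1 L.u * (L.ui * (a * L.di))))
        - (N : ℝ) • (D.dv a (1 - a * D.d 1 L.d) * L.di) := by
    simp only [Ln.gw, DR.V, map_smul, D.d_inv _ L.d_di, L.d2, L.u2, Int.cast_zero, zero_smul]
    simp only [Algebra.smul_def, map_add, map_mul, map_pow, map_ofNat]
    ring
  unfold HaH
  rw [e]
  have a1 := (abs_le.1 (hb1 x hxb)).2
  have a2 := (abs_le.1 (hC' x)).2
  have a3 : L.ev x L.si ^ 4 = L.ev x L.di ^ 2 := by rw [← (hx x).2]; ring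
  rw [a3] at a1 a2
  rw [map_sub, map_sub, map_smul, map_smul, map_smul, map_pow, map_pow, map_smul]
  simp only [smul_eq_mul]
  have n0 : (0 : ℝ) ≤ N := Nat.cast_nonneg N
  have p0 : 0 ≤ L.ev x L.di ^ 2 := sq_nonneg _
  have b1 := mul_le_mul_of_nonneg_left a1 (sq_nonneg (N : ℝ))
  have b2 := mul_le_mul_of_nonneg_left a2 n0
  have b3 := mul_le_mul_of_nonneg_right (mul_le_mul_of_nonneg_left hN n0) p0
  have b4 := mul_nonneg n0 p0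
  nlinarith

end AUNh

open AUNh in
theorem rowUNh : OfUNh := by
  intro hS hU R _ _ D X L ψ α Ai r ri j hψ hα hAi hr hri h0 hA hrr hdet
  obtain ⟨sA, hsd, -, -, hdi, hmul, -, hle, hlt, hd, -, hb, -, hx⟩ := hS L
  have hn := L.A_d 1 _ L.dA
  set g := -D.d 1 L.d with hgd
  have hgA : g ∈ L.A := neg_mem hn
  have hg : D.d 2 g = 0 := by rw [hgd, map_neg, D.c21, L.d2, D.d_one, neg_zero]
  have hup : ∀ a ∈ L.Sy 0, a ∈ L.Sy 2 := fun a ha => hle 2 (hlt 0 2 two_pos ha)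
  have hpow : ∀ k : ℕ, L.sd ^ k ∈ L.Sy 0 := fun k => by
    induction k with
    | zero => rw [pow_zero]; exact sA _ (one_mem _)
    | succ k ih => rw [pow_succ]; exact hmul 0 0 _ ih _ hsd
  have hρ : L.sd ^ j * r ∈ L.Sy 0 := hmul 0 0 _ (hpow j) _ (sA _ hr)
  have hXA : ∀ a ∈ L.A, D.XX g a ∈ L.A := fun a ha =>
    add_mem (L.A_d 1 _ ha) (L.A.mul_mem hgA (L.A_d 2 _ ha))
  have h22 := L.A_d 2 _ (L.A_d 2 _ hψ)
  have h12 := L.A_d 1 _ (L.A_d 2 _ hψ)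
  have hAA : D.AA ψ g ∈ L.A := add_mem (add_mem (L.A_d 1 _ (L.A_d 1 _ hψ))
    (L.A.mul_mem (L.A.mul_mem (ofNat_mem L.A 2) hgA) h12)) (L.A.mul_mem (pow_mem hgA 2) h22)
  have hq : D.QQ ψ g * Ai ∈ L.A := L.A.mul_mem (add_mem h12 (L.A.mul_mem hgA h22)) hAi
  set q := D.QQ ψ g * Ai with hqd
  have hd2 : D.det ψ * Ai ^ 2 = -(L.sd ^ j * r) ^ 2 := by
    rw [hdet, neg_smul, one_smul, mul_pow, ← pow_mul, mul_comm j 2, pow_mul, sq L.sd, L.sd_sq]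
  have hc : D.V (-q) (1 - q * g) (L.sd ^ j * r)
      = L.sd ^ j * r * (((j : ℝ) / 2) • L.di + D.V (-q) (1 - q * g) r * ri) := by
    simp only [DR.V, D.mul, d_sd_pow, L.d2, hgd]
    simp only [Algebra.smul_def]
    linear_combination -(L.sd ^ j * (-q * D.d 1 r + (1 - q * -D.d 1 L.d) * D.d 2 r)) * hrr
  have m1 : D.d 2 (D.d 2 ψ) * Ai * D.d 1 g ∈ L.Sy 2 :=
    hup _ (sA _ (L.A.mul_mem (L.A.mul_mem h22 hAi) (L.A_d 1 _ hgA)))
  have m2 : D.XX g (L.sd ^ j * r) + L.sd ^ j * r * D.XX g (D.AA ψ g) * Ai ∈ L.Sy 2 :=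
    add_mem (add_mem (hd 0 1 _ hρ) (mul_mem L hgA (hd 0 2 _ hρ)))
      (hup _ (hmul 0 0 _ (hmul 0 0 _ hρ _ (sA _ (hXA _ hAA))) _ (sA _ hAi)))
  have m4 : ((j : ℝ) / 2) • L.di + D.V (-q) (1 - q * g) r * ri + D.XX g q ∈ L.Sy 2 :=
    add_mem (add_mem (smul_mem L _ hdi) (hup _ (sA _ (L.A.mul_mem (add_mem
      (L.A.mul_mem (neg_mem hq) (L.A_d 1 _ hr)) (L.A.mul_mem (sub_mem (one_mem _)
        (L.A.mul_mem hq hgA)) (L.A_d 2 _ hr))) hri)))) (hup _ (sA _ (hXA _ hq)))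
  obtain ⟨C1, -, b1⟩ := hb 2 _ m1
  obtain ⟨C2, -, b2⟩ := hb 2 _ m2
  obtain ⟨C4, -, b4⟩ := hb 2 _ m4
  obtain ⟨M, hM⟩ := hU L (-q) (1 - q * g) (L.sd ^ j * r) (L.sd ^ j * r * g) _ _ 0 _ (L.di ^ 2) α
    (C1 ^ 2 + C2 ^ 2 + C4 ^ 2) hα (fun x => by
      have a1 := sq_le_sq' (abs_le.1 (b1 x)).1 (abs_le.1 (b1 x)).2
      have a2 := sq_le_sq' (abs_le.1 (b2 x)).1 (abs_le.1 (b2 x)).2
      have a4 := sq_le_sq' (abs_le.1 (b4 x)).1 (abs_le.1 (b4 x)).2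
      rw [(hx x).2] at a1 a2 a4
      rw [map_pow, map_zero]
      refine ⟨?_, by linarith⟩
      rw [← (hx x).2]
      exact one_le_pow₀ (one_le_pow₀ (hx x).1))
    (eq1 hg h0 hA hd2) (eq2 hg hc) (fun ς _ => by
      have e : 1 - q * g + ς • (L.sd ^ j * r * g) = 1 - (-q + ς • (L.sd ^ j * r)) * D.d 1 L.d := by
        simp only [Algebra.smul_def, hgd]
        ring
      rw [e]
      exact hah L hS (add_mem (sA _ (neg_mem hq)) (smul_mem L _ hρ)))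
  refine ⟨M, fun x hxM => ?_⟩
  obtain ⟨e1, e2⟩ := hM x hxM
  simp only [DR.V, map_add, map_mul, map_sub, map_neg, map_one, map_pow] at e1 e2
  have r0 : L.ev x r ≠ 0 := fun e => by
    have := congrArg (L.ev x) hrr
    rw [map_mul, e, zero_mul, map_one] at this
    exact zero_ne_one this
  have s0 : L.ev x L.sd ^ j * L.ev x r ≠ 0 := mul_ne_zero (pow_ne_zero _ (L.sd_pos x).ne') r0
  have t0 : L.ev x (D.d 1 α) + L.ev x g * L.ev x (D.d 2 α) = 0 :=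
    (mul_eq_zero.1 (by linear_combination e2)).resolve_left s0
  have t2 : L.ev x (D.d 2 α) = 0 := by linear_combination e1 + L.ev x q * t0
  exact ⟨by linear_combination t0 - L.ev x g * t2, t2⟩

end Pool.Agent.MP_ed9623_an.S64
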