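import Pool.Agent.MP_ed9623_an.S64.SpecA

/-! The filtration of the derivatives along a characteristic field. -/

namespace Pool.Agent.MP_ed9623_an.S64

namespace AXM

variable {R : Type} [CommRing R] [Algebra ℝ R] {D : DR R} {n : ℝ} {α ψ : R} (M : Mc D n α ψ)
  {σ τ Qi ns : R}

/-- A derivation that maps the generators into `T` maps the span into `T`. -/
theorem der {s : Set R} {T : Submodule M.A R} (E : R → R) (h0 : ∀ f g, E (f + g) = E f + E g)
    (h1 : ∀ a f, E (a * f) = E a * f + a * E f) (h2 : ∀ a ∈ M.A, E a ∈ M.A)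
    (h3 : Submodule.span M.A s ≤ T) (h4 : ∀ f ∈ s, E f ∈ T) :
    ∀ f ∈ Submodule.span M.A s, E f ∈ T := by
  intro f hf
  induction hf using Submodule.span_induction with
  | mem f hf => exact h4 f hf
  | zero =>
    have := h0 0 0
    rw [add_zero, left_eq_add] at this
    rw [this]; exact zero_mem _
  | add f g _ _ a b => rw [h0]; exact add_mem a b
  | smul a f hf b =>
    change E (a.1 * f) ∈ T
    rw [h1]
    exact add_mem (M.mul_mem (h2 _ a.2) (h3 hf)) (M.mul_mem a.2 b)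

theorem mono (σ : R) {j k : ℕ} (h : j ≤ k) : M.Mj σ j ≤ M.Mj σ k :=
  Submodule.span_mono fun _ hf => hf.imp_left fun ⟨i, a, b⟩ => ⟨i, a.trans h, b⟩

theorem mD (σ : R) {i j : ℕ} (h : i ≤ j) : (D.d 2)^[i] α ∈ M.Mj σ j :=
  Submodule.subset_span (Or.inl ⟨i, h, rfl⟩)

theorem mX (σ : R) (i j : ℕ) : (D.XX σ)^[i] α ∈ M.Mj σ j :=
  Submodule.subset_span (Or.inr ⟨i, rfl⟩)

theorem DX (σ f : R) : D.d 2 (D.XX σ f) = D.XX σ (D.d 2 f) + D.d 2 σ * D.d 2 f := by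
  simp only [DR.XX, map_add, D.mul, D.c21]; ring

theorem XA (hσ : σ ∈ M.A) (a : R) (ha : a ∈ M.A) : D.XX σ a ∈ M.A :=
  add_mem (M.A_d _ _ ha) (mul_mem hσ (M.A_d _ _ ha))

theorem derX (hσ : σ ∈ M.A) {j : ℕ} (h : ∀ i ≤ j, D.XX σ ((D.d 2)^[i] α) ∈ M.Mj σ j) :
    ∀ f ∈ M.Mj σ j, D.XX σ f ∈ M.Mj σ j :=
  der M (D.XX σ) (fun f g => by simp only [DR.XX, map_add]; ring)
    (fun f g => by simp only [DR.XX, D.mul]; ring) (XA M hσ) le_rfl (by
      rintro _ (⟨i, hi, rfl⟩ | ⟨i, rfl⟩)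
      · exact h i hi
      · rw [← Function.iterate_succ_apply' (D.XX σ)]; exact mX M σ _ _)

variable (h : M.Ch σ τ Qi ns)
include h

theorem base : D.XX σ (D.d 2 α) ∈ M.Mj σ 1 := by
  have e1 := D.LL_eq α ψ
  rw [M.eW 2 (by decide), M.eW 1 (by decide), map_zero, map_zero, D.LL_frame, h.root, DX] at e1
  have e2 : (2 : ℝ) • (2 : ℝ) • D.XX σ (D.d 2 α) = (2 : ℝ) • (Qi * D.d 2 (D.d 2 ψ) *
      (D.XX σ (D.XX σ α) - D.XX σ σ * D.d 2 α)) := by
    simp only [two_smul]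
    linear_combination (-Qi) * e1 - 4 * D.XX σ (D.d 2 α) * h.Q_Qi
  have e3 : D.XX σ (D.d 2 α) = (1 / 4 : ℝ) • (2 : ℝ) • (2 : ℝ) • D.XX σ (D.d 2 α) := by
    rw [smul_smul, smul_smul]; norm_num
  rw [e3, e2]
  exact M.smul_mem _ (M.smul_mem _ (M.mul_mem (mul_mem h.QA (M.A_d _ _ (M.A_d _ _ M.ψA)))
    (sub_mem (mX M σ 2 1) (M.mul_mem (XA M h.σA _ h.σA) (mD M σ le_rfl)))))

theorem dX (i : ℕ) : D.d 2 ((D.XX σ)^[i] α) ∈ M.Mj σ 1 := by
  induction i with
  | zero => exact mD M σ le_rfl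
  | succ i ih =>
    rw [Function.iterate_succ_apply', DX]
    refine add_mem (derX M h.σA (fun k hk => ?_) _ ih) (M.mul_mem (M.A_d _ _ h.σA) ih)
    interval_cases k
    · exact mX M σ 1 1
    · exact base M h

theorem d2 (j : ℕ) : ∀ f ∈ M.Mj σ j, D.d 2 f ∈ M.Mj σ (j + 1) :=
  der M (D.d 2) (map_add _) (D.mul 2) (M.A_d 2) (mono M σ j.le_succ) (by
    rintro _ (⟨i, hi, rfl⟩ | ⟨i, rfl⟩)
    · rw [← Function.iterate_succ_apply' (D.d 2)]; exact mD M σ (Nat.succ_le_succ hi)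
    · exact mono M σ (by omega) (dX M h i))

theorem xD (j : ℕ) : D.XX σ ((D.d 2)^[j] α) ∈ M.Mj σ j := by
  induction j with
  | zero => exact mX M σ 1 0
  | succ j ih =>
    rw [Function.iterate_succ_apply', ← sub_eq_iff_eq_add.2 (DX σ ((D.d 2)^[j] α))]
    exact sub_mem (d2 M h j _ ih) (M.mul_mem (M.A_d _ _ h.σA) (d2 M h j _ (mD M σ le_rfl)))

theorem xx (j : ℕ) : ∀ f ∈ M.Mj σ j, D.XX σ f ∈ M.Mj σ j :=
  derX M h.σA fun i hi => mono M σ hi (xD M h i)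

theorem d1 (j : ℕ) (f : R) (hf : f ∈ M.Mj σ j) : D.d 1 f ∈ M.Mj σ (j + 1) := by
  have e : D.d 1 f = D.XX σ f - σ * D.d 2 f := by rw [DR.XX]; ring
  rw [e]
  exact sub_mem (mono M σ j.le_succ (xx M h j f hf)) (M.mul_mem h.σA (d2 M h j f hf))

omit h in
theorem inF (j : ℕ) (f : R) (hf : f ∈ M.Mj σ j) : f ∈ M.F := by
  induction hf using Submodule.span_induction with
  | mem f hf =>
    obtain ⟨i, -, rfl⟩ | ⟨i, rfl⟩ := hf
    · induction i with
      | zero => exact M.αF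
      | succ i ih => rw [Function.iterate_succ_apply']; exact M.F_d _ _ ih
    · induction i with
      | zero => exact M.αF
      | succ i ih =>
        rw [Function.iterate_succ_apply']
        exact add_mem (M.F_d _ _ ih) (M.F.mul_mem_left _ (M.F_d _ _ ih))
  | zero => exact zero_mem _
  | add f g _ _ a b => exact add_mem a b
  | smul a f _ b => exact M.F.mul_mem_left a.1 b

omit h in
theorem top (j : ℕ) (f : R) (hf : f ∈ M.Mj σ (j + 1)) :
    ∃ c ∈ M.A, f - c * (D.d 2)^[j + 1] α ∈ M.Mj σ j := by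
  induction hf using Submodule.span_induction with
  | mem f hf =>
    obtain ⟨i, hi, rfl⟩ | ⟨i, rfl⟩ := hf
    · rcases hi.eq_or_lt with rfl | hi
      · exact ⟨1, one_mem _, by rw [one_mul, sub_self]; exact zero_mem _⟩
      · exact ⟨0, zero_mem _, by rw [zero_mul, sub_zero]; exact mD M σ (by omega)⟩
    · exact ⟨0, zero_mem _, by rw [zero_mul, sub_zero]; exact mX M σ _ _⟩
  | zero => exact ⟨0, zero_mem _, by rw [zero_mul, sub_zero]; exact zero_mem _⟩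
  | add f g _ _ a b =>
    obtain ⟨c, c1, c2⟩ := a
    obtain ⟨c', c3, c4⟩ := b
    exact ⟨c + c', add_mem c1 c3, by convert add_mem c2 c4 using 1; ring⟩
  | smul a f _ b =>
    obtain ⟨c, c1, c2⟩ := b
    refine ⟨a.1 * c, mul_mem a.2 c1, ?_⟩
    convert M.mul_mem a.2 c2 using 1
    change a.1 * f - _ = _
    ring

theorem t1 (j : ℕ) {c : R} (hc : c ∈ M.A) :
    D.d 1 (c * (D.d 2)^[j] α) + σ * c * (D.d 2)^[j + 1] α ∈ M.Mj σ j := by
  convert add_mem (M.mul_mem (M.A_d 1 _ hc) (mD M σ (le_refl j))) (M.mul_mem hc (xD M h j)) using 1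
  rw [Function.iterate_succ_apply', D.mul, DR.XX]; ring

omit h in
theorem t2 (j : ℕ) {c : R} (hc : c ∈ M.A) :
    D.d 2 (c * (D.d 2)^[j] α) - c * (D.d 2)^[j + 1] α ∈ M.Mj σ j := by
  convert M.mul_mem (M.A_d 2 _ hc) (mD M σ (le_refl j)) using 1
  rw [Function.iterate_succ_apply', D.mul]; ring

end AXM

open AXM in
theorem rowXM : OfXM := by
  intro R _ _ D n α ψ M σ τ Qi ns h
  refine ⟨fun j k => mono M σ, fun j f hf => ⟨inF M j f hf, xx M h j f hf, fun i hi => ?_⟩,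
    top M, fun j c hc => ⟨t1 M h j hc, t2 M j hc, fun a₁ h₁ a₂ h₂ a₃ h₃ => ?_⟩⟩
  · fin_cases i
    · exact absurd rfl hi
    · exact d1 M h j f hf
    · exact d2 M h j f hf
  · have b1 := add_mem (d2 M h j _ (t2 M j hc)) (t2 M (j + 1) hc)
    have b2 := add_mem (d1 M h j _ (t2 M j hc)) (t1 M h (j + 1) hc)
    have b3 := sub_mem (d1 M h j _ (t1 M h j hc)) (t1 M h (j + 1) (mul_mem h.σA hc))
    convert add_mem (sub_mem (M.mul_mem h₁ b1) (M.mul_mem (add_mem h₂ h₂) b2)) (M.mul_mem h₃ b3)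
      using 1
    simp only [DR.T2, map_add, map_sub]
    ring

end Pool.Agent.MP_ed9623_an.S64
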