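import Pool.Agent.MP_ed9623_an.S64.SpecA

open Filter Topology

namespace Pool.Agent.MP_ed9623_an.S64

namespace AXR

variable {R : Type} [CommRing R] [Algebra ℝ R] {D : DR R} {n : ℝ} {α ψ : R} (M : Mc D n α ψ)
  {σ τ Qi ns : R}

/-- The second characteristic field. -/
def X2 (D : DR R) (ψ σ f : R) : R :=
  D.V (D.d 2 (D.d 2 ψ)) (D.d 2 (D.d 2 ψ) * σ - 2 * D.QQ ψ σ) f

def Nn (σ : R) (i : ℕ) : Submodule M.A R :=
  Submodule.span M.A {f | f = D.d 2 α ∨ ∃ l ≤ i, f = (D.XX σ)^[l] α}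

theorem two : (algebraMap ℝ R (1 / 2)) * 2 = 1 := by
  rw [← map_ofNat (algebraMap ℝ R) 2, ← map_mul]; norm_num

theorem A2 : (2 : R) ∈ M.A := ofNat_mem _ 2

theorem EA : D.d 2 (D.d 2 ψ) ∈ M.A := M.A_d _ _ (M.A_d _ _ M.ψA)

theorem XA (h : σ ∈ M.A) {a : R} (ha : a ∈ M.A) : D.XX σ a ∈ M.A :=
  add_mem (M.A_d _ _ ha) (mul_mem h (M.A_d _ _ ha))

theorem QA (h : σ ∈ M.A) : D.QQ ψ σ ∈ M.A :=
  add_mem (M.A_d _ _ (M.A_d _ _ M.ψA)) (mul_mem h (EA M))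

theorem dN (i : ℕ) : D.d 2 α ∈ Nn M σ i := Submodule.subset_span (Or.inl rfl)

theorem xN {l i : ℕ} (h : l ≤ i) : (D.XX σ)^[l] α ∈ Nn M σ i :=
  Submodule.subset_span (Or.inr ⟨l, h, rfl⟩)

theorem N_mono {i j : ℕ} (h : i ≤ j) : Nn M σ i ≤ Nn M σ j :=
  Submodule.span_mono fun _ a => a.imp id fun ⟨l, b, c⟩ => ⟨l, b.trans h, c⟩

theorem d_eq (C : M.Ch σ τ Qi ns) (f : R) : D.d 2 f =
    (algebraMap ℝ R (1 / 2) * Qi) * (D.d 2 (D.d 2 ψ) * D.XX σ f - X2 D ψ σ f) := by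
  simp only [X2, DR.V, DR.XX]
  linear_combination (-D.d 2 f) * C.Q_Qi - D.QQ ψ σ * Qi * D.d 2 f * two (R := R)

theorem d_mem (C : M.Ch σ τ Qi ns) {S : Submodule M.A R} {f : R} (a : D.XX σ f ∈ S)
    (b : X2 D ψ σ f ∈ S) : D.d 2 f ∈ S := by
  rw [d_eq M C]
  exact M.mul_mem (mul_mem (M.A.algebraMap_mem _) C.QA) (sub_mem (M.mul_mem (EA M) a) b)

theorem base (C : M.Ch σ τ Qi ns) : X2 D ψ σ (D.XX σ α) ∈ Nn M σ 1 := by
  have h := D.LL_eq α ψ
  rw [M.eW 1 (by decide), M.eW 2 (by decide), map_zero, map_zero, D.LL_frame ψ σ, C.root] at h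
  have e : X2 D ψ σ (D.XX σ α) =
      (D.d 2 (D.d 2 ψ) * D.XX σ σ - 2 * D.QQ ψ σ * D.d 2 σ) * D.d 2 α := by
    have : X2 D ψ σ (D.XX σ α) = D.d 2 (D.d 2 ψ) * D.XX σ (D.XX σ α)
        - 2 * D.QQ ψ σ * D.d 2 (D.XX σ α) := by
      rw [X2, DR.V, DR.XX.eq_1 D σ (D.XX σ α)]; ring
    rw [this]
    linear_combination algebraMap ℝ R (1 / 2) * h - (D.d 2 (D.d 2 ψ) * (D.XX σ (D.XX σ α)
      - D.XX σ σ * D.d 2 α) - 2 * D.QQ ψ σ * (D.d 2 (D.XX σ α) - D.d 2 σ * D.d 2 α)) * two (R := R)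
  rw [e]
  exact M.mul_mem (sub_mem (mul_mem (EA M) (XA M C.σA C.σA))
    (mul_mem (mul_mem (A2 M) (QA M C.σA)) (M.A_d _ _ C.σA))) (dN M 1)

theorem X_mem (C : M.Ch σ τ Qi ns) {i : ℕ} (hi : 1 ≤ i) {f : R} (hf : f ∈ Nn M σ i) :
    D.XX σ f ∈ Nn M σ (i + 1) := by
  induction hf using Submodule.span_induction with
  | mem f a =>
    rcases a with rfl | ⟨l, b, rfl⟩
    · have : D.XX σ (D.d 2 α) = D.d 2 (D.XX σ α) - D.d 2 σ * D.d 2 α := by
        simp only [DR.XX, map_add, D.mul, D.c21]; ring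
      rw [this]
      exact sub_mem (d_mem M C (xN M (l := 2) (by omega)) (N_mono M (by omega) (base M C)))
        (M.mul_mem (M.A_d _ _ C.σA) (dN M _))
    · rw [← Function.iterate_succ_apply' (D.XX σ)]
      exact xN M (by omega)
  | zero => simp [DR.XX]
  | add f g _ _ a b =>
    have : D.XX σ (f + g) = D.XX σ f + D.XX σ g := by simp only [DR.XX, map_add]; ring
    rw [this]; exact add_mem a b
  | smul c f a b =>
    have : D.XX σ (c • f) = D.XX σ c.1 * f + c.1 * D.XX σ f := by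
      change D.XX σ (c.1 * f) = _
      simp only [DR.XX, D.mul]; ring
    rw [this]
    exact add_mem (M.mul_mem (XA M C.σA c.2) (N_mono M (by omega) a)) (M.mul_mem c.2 b)

theorem X2_mem (C : M.Ch σ τ Qi ns) (i : ℕ) :
    X2 D ψ σ ((D.XX σ)^[i + 1] α) ∈ Nn M σ (i + 1) := by
  induction i with
  | zero => exact base M C
  | succ i ih =>
    have e : ∀ f, X2 D ψ σ (D.XX σ f) = D.XX σ (X2 D ψ σ f)
        - D.XX σ (D.d 2 (D.d 2 ψ)) * D.XX σ f
        + (2 * D.XX σ (D.QQ ψ σ) - 2 * D.QQ ψ σ * D.d 2 σ) * D.d 2 f := fun f => by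
      simp only [X2, DR.V, DR.XX, map_add, map_sub, D.mul, D.c21, D.d_ofNat]; ring
    have x : D.XX σ ((D.XX σ)^[i + 1] α) ∈ Nn M σ (i + 1 + 1) := by
      rw [← Function.iterate_succ_apply' (D.XX σ)]; exact xN M le_rfl
    rw [Function.iterate_succ_apply' (D.XX σ), e]
    exact add_mem (sub_mem (X_mem M C (by omega) ih) (M.mul_mem (XA M C.σA (EA M)) x))
      (M.mul_mem (sub_mem (mul_mem (A2 M) (XA M C.σA (QA M C.σA)))
        (mul_mem (mul_mem (A2 M) (QA M C.σA)) (M.A_d _ _ C.σA)))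
        (d_mem M C x (N_mono M (by omega) ih)))

theorem xF (σ : R) (i : ℕ) : (D.XX σ)^[i] α ∈ M.F := by
  induction i with
  | zero => exact M.αF
  | succ i ih =>
    rw [Function.iterate_succ_apply']
    exact add_mem (M.F_d _ _ ih) (M.F.mul_mem_left _ (M.F_d _ _ ih))

theorem har (C : M.Ch σ τ Qi ns) {G : M.Γ} {i : ℕ} (h0 : D.d 2 α ∈ M.Rw G 1 0)
    (h1 : ∀ l ≤ i, (D.XX σ)^[l] α ∈ M.Rw G 0 0) (h2 : (D.XX σ)^[i + 1] α ∈ M.Rw G 1 0) :
    (D.XX σ)^[i + 1] α ∈ M.Rw G 0 0 := by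
  have a : Nn M σ (i + 1) ≤ M.Rw G 1 0 := Submodule.span_le.2 fun f b => by
    rcases b with rfl | ⟨l, b, rfl⟩
    · exact h0
    · rcases b.eq_or_lt with rfl | b
      · exact h2
      · exact M.mono (by omega) (by omega) (h1 l (by omega))
  refine M.hardy G 1 0 _ (EA M) _ (sub_mem (mul_mem (EA M) C.σA) (mul_mem (A2 M) (QA M C.σA)))
    _ (neg_mem (mul_mem (A2 M) (QA M C.σA))) _ (neg_mem (mul_mem (M.A.algebraMap_mem (1 / 2)) C.QA))
    _ (mul_mem (EA M) C.τA) ?_ ?_ _ (xF M σ _) (a (X2_mem M C i))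
  · linear_combination C.Q_Qi + D.QQ ψ σ * Qi * two (R := R)
  · have := C.tan
    simp only [DR.V, DR.XX, M.d2] at this ⊢
    linear_combination D.d 2 (D.d 2 ψ) * this

theorem xR (C : M.Ch σ τ Qi ns) {G : M.Γ} (h : M.Anch G 1) (i : ℕ) :
    (D.XX σ)^[i] α ∈ M.Rw G 0 0 := by
  induction i using Nat.strong_induction_on with
  | _ i ih =>
    rcases i with _ | i
    · exact h 0 (by omega)
    have h0 : D.d 2 α ∈ M.Rw G 1 0 := h 1 le_rfl
    obtain ⟨Θ, a, b⟩ := M.boot {((D.XX σ)^[i + 1] α, 1)} (Set.finite_singleton _)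
      (by rintro _ rfl; exact xF M σ _)
    refine har M C h0 (fun l c => ih l (by omega)) (M.mono_p _ _ _ _ (by omega) (b G ?_ _ rfl))
    rintro _ rfl
    exact M.mono (by omega) (by omega) (har M C (M.mono_l _ _ _ _ h0)
      (fun l c => M.mono_l _ _ _ _ (ih l (by omega))) (M.mono_r _ _ _ _ (a _ rfl)))

end AXR

theorem rowXR : OfXR := by
  intro hM R _ _ D n α ψ M σ τ Qi ns C
  have w : ∀ l, Sp l → ∀ j, ∀ f ∈ M.Mj σ j, D.w l f ∈ M.Mj σ (j + l.length) := fun l => by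
    induction l with
    | nil => exact fun _ _ _ a => a
    | cons i l ih =>
      intro c j f a
      have := ih (fun j hj => c j (List.mem_cons_of_mem _ hj)) _ _
        (((hM M C).2.1 j f a).2.2 i (c i List.mem_cons_self))
      rwa [add_assoc, add_comm 1] at this
  have h : ∀ G k, 1 ≤ k → M.Anch G k → ∀ j : ℕ, M.Mj σ j ≤ M.Rm G k j 0 := by
    intro G k hk a j f hf l c e
    have b : M.Mj σ (j + l.length) ≤ M.Rw G (j + l.length) 0 := Submodule.span_le.2 fun g b => by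
      rcases b with ⟨i, b, rfl⟩ | ⟨i, rfl⟩
      · exact M.mono (by omega) (by omega) (a i (by omega))
      · exact M.mono (by omega) (by omega) (AXR.xR M C (fun i b => a i (b.trans hk)) i)
    exact b (w l c j f hf)
  exact ⟨h, fun j f hf => (eventually_ge_atTop 1).mono fun k hk G a => h G k hk a j hf⟩

end Pool.Agent.MP_ed9623_an.S64
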