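import Pool.Agent.MP_ed9623_an.S64.SpecG

/-! Division by powers of the height above a curve. -/

open Filter Topology Set
open scoped ContDiff

namespace Pool.Agent.MP_ed9623_an.S64

open H64

namespace GDiv

variable {γ : SA ℝ} {z : ST} {f : S3}

theorem div1 (c : z.2.2 = γ.1 z.2.1) (h : f ∈ VI γ z) : ∃ q : S3, f - dd γ * q ∈ NI z := by
  have a := f.sm
  have b := γ.sm
  have hΦ : ContDiff ℝ ∞ fun p : (ℝ × ℝ) × ℝ => f.1 (p.1.1, p.1.2, γ.1 p.1.2 + p.2) := by fun_prop
  obtain ⟨r, h1, -, h2⟩ := hadamard hΦ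
  refine ⟨mkS (fun y => r ((y.1, y.2.1), y.2.2 - γ.1 y.2.1)) (by fun_prop), ?_⟩
  have t : Tendsto (fun y : ST => ((y.1, y.2.1, γ.1 y.2.1) : ST)) (𝓝 z) (𝓝 z) := by
    have := γ.ct
    exact Continuous.tendsto' (by fun_prop) _ _ (Prod.ext rfl (Prod.ext rfl c.symm))
  refine mem_FI.2 ((t.eventually (mem_VI.1 h)).mono fun y e => ?_)
  have k := h2 (y.1, y.2.1) (y.2.2 - γ.1 y.2.1)
  simp only [add_zero, add_sub_cancel] at k
  rw [e rfl, zero_add] at k
  rw [val_sub, val_mul, dd_val, mkS_val]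
  exact sub_eq_zero.2 k

theorem it_NI (h : f ∈ NI z) (i : ℕ) : (DS.d 2)^[i] f ∈ NI z := by
  induction i with
  | zero => exact h
  | succ i ih => rw [Function.iterate_succ_apply']; exact NI_d ih 2

theorem it_sub (f q : S3) (i : ℕ) : (DS.d 2)^[i + 1] (f - dd γ * q) = (DS.d 2)^[i + 1] f -
    (dd γ * (DS.d 2)^[i + 1] q + ((i + 1 : ℕ) : S3) * (DS.d 2)^[i] q) := by
  induction i with
  | zero =>
    simp only [zero_add, Function.iterate_one, Function.iterate_zero, id, map_sub, DS.mul, d2_dd,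
      Nat.cast_one]
    ring
  | succ i ih =>
    rw [Function.iterate_succ_apply', ih, map_sub, map_add, DS.mul, DS.mul, d2_dd, DS.d_natCast,
      ← Function.iterate_succ_apply' (DS.d 2), ← Function.iterate_succ_apply' (DS.d 2),
      ← Function.iterate_succ_apply' (DS.d 2)]
    push_cast
    ring

end GDiv

open GDiv in
theorem rowDiv : OfDiv := by
  intro γ z j f c
  induction j generalizing f with
  | zero => exact fun _ => ⟨f, by rw [pow_zero, one_mul, sub_self]; exact zero_mem _, by simp⟩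
  | succ j ih =>
    intro h
    obtain ⟨q₁, h1⟩ := div1 c (h 0 j.succ_pos)
    have k := fun i => it_sub (γ := γ) f q₁ i ▸ it_NI h1 (i + 1)
    obtain ⟨q, h2, h3⟩ := ih q₁ fun i hi => by
      refine mem_VI.2 ?_
      filter_upwards [mem_VI.1 (h (i + 1) (by omega)), mem_FI.1 (k i)] with y a b e
      rw [val_sub, val_add, val_mul, val_mul, a e, dd_val, e, sub_self, zero_mul, zero_add,
        zero_sub, neg_eq_zero, val_natCast] at b
      exact (mul_eq_zero.1 b).resolve_left (by positivity)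
    refine ⟨q, ?_, ?_⟩
    · have e : f - dd γ ^ (j + 1) * q = f - dd γ * q₁ + dd γ * (q₁ - dd γ ^ j * q) := by ring
      rw [e]
      exact add_mem h1 (Ideal.mul_mem_left _ _ h2)
    · have b := NI_val (k j)
      rw [val_sub, val_add, val_mul, val_mul, dd_val, c, sub_self, zero_mul, zero_add,
        val_natCast, ← h3, sub_eq_zero] at b
      rw [b, Nat.factorial_succ, Nat.cast_mul, mul_assoc]

end Pool.Agent.MP_ed9623_an.S64
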