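import Pool.Agent.MP_ed9623_an.S64.SpecG

/-! Extension by zero and unique continuation for the heat operator. -/

open Filter Topology Set
open scoped ContDiff

namespace Pool.Agent.MP_ed9623_an.S64

open H64

namespace GExt

/-- A continuous function which is negative exactly on a given open set and which vanishes only on
the frontier. -/
theorem exists_r {V : Set PP} (hV : IsOpen V) (h1 : V.Nonempty) (h2 : Vᶜ.Nonempty) :
    ∃ r : ST → ℝ, Continuous r ∧ (∀ z, r z < 0 ↔ z.2 ∈ V) ∧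
      ∀ z, r z = 0 → z.2 ∈ closure V ∧ z.2 ∉ V := by
  have a : ∀ x : PP, Metric.infDist x V - Metric.infDist x Vᶜ < 0 ↔ x ∈ V := fun x => by
    constructor
    · intro h
      by_contra hx
      rw [Metric.infDist_zero_of_mem (show x ∈ Vᶜ from hx), sub_zero] at h
      exact h.not_ge Metric.infDist_nonneg
    · intro hx
      rw [Metric.infDist_zero_of_mem hx, zero_sub, neg_lt_zero]
      exact (hV.isClosed_compl.notMem_iff_infDist_pos h2).1 fun h => h hx
  refine ⟨fun z => Metric.infDist z.2 V - Metric.infDist z.2 Vᶜ,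
    ((Metric.continuous_infDist_pt V).comp continuous_snd).sub
      ((Metric.continuous_infDist_pt Vᶜ).comp continuous_snd), fun z => a z.2, fun z h => ?_⟩
  have hx : z.2 ∉ V := fun hx => ((a z.2).2 hx).ne h
  refine ⟨(Metric.mem_closure_iff_infDist_zero h1).2 ?_, hx⟩
  have h' : Metric.infDist z.2 V - Metric.infDist z.2 Vᶜ = 0 := h
  rwa [Metric.infDist_zero_of_mem (show z.2 ∈ Vᶜ from hx), sub_zero] at h'

theorem pd_one {f : S3} {z : ST} (h : ∀ i, (DS.d i f).1 z = 0) (e : ST) : pd e f.1 z = 0 := by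
  rw [← D_val, D_dir, h, h, h]; ring

theorem jet_two {f : S3} {z : ST} (h : ∀ l : List (Fin 3), l.length ≤ 2 → (DS.w l f).1 z = 0) :
    f.1 z = 0 ∧ (∀ e, pd e f.1 z = 0) ∧ ∀ e e', pd e (pd e' f.1) z = 0 := by
  refine ⟨h [] (by simp), pd_one fun i => h [i] (by simp), fun e e' => ?_⟩
  refine pd_one (f := D e' f) (fun i => ?_) e
  have c : DS.d i (D e' f) = D e' (DS.d i f) := D_comm _ _ f
  rw [c]
  exact pd_one (f := DS.d i f) (fun j => h [i, j] (by simp)) e'

/-- The extension by zero is twice differentiable. -/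
theorem ext {r : ST → ℝ} (cr : Continuous r) (f : S3) {z : ST}
    (L : ∀ᶠ y in 𝓝 z, r y = 0 → f.1 y = 0 ∧ (∀ e, pd e f.1 y = 0) ∧
      ∀ e e', pd e (pd e' f.1) y = 0) :
    ContDiffAt ℝ (2 : ℕ) ({x | r x < 0}.indicator f.1) z ∧
      (¬ r z < 0 → Lh ({x | r x < 0}.indicator f.1) z = 0) := by
  refine ⟨ind_C2 cr (f.cd 2) (L.mono fun y hy h => ⟨(hy h).1, fderiv_zero_of_pd (hy h).2.1,
    fderiv2_zero_of_pd (f.cd 2) (hy h).2.2⟩), fun hn => ?_⟩
  have p1 : ∀ e, pd e ({x | r x < 0}.indicator f.1) =ᶠ[𝓝 z] {x | r x < 0}.indicator (pd e f.1) :=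
    fun e => L.mono fun y hy => pd_ind cr (cdg_diff (f.cd 1) le_rfl y)
      (fun h => ⟨(hy h).1, (hy h).2.1⟩) e
  have p2 : ∀ e, pd e (pd e ({x | r x < 0}.indicator f.1)) z = 0 := fun e => by
    rw [pd_congr_pt e (p1 e), pd_ind (f := pd e f.1) cr (cdg_diff ((D e f).cd 1) le_rfl z)
      (fun h => ⟨(L.self_of_nhds h).2.1 e, fun e' => (L.self_of_nhds h).2.2 e' e⟩) e]
    exact indicator_of_notMem (s := {x | r x < 0}) hn _
  unfold Lh
  rw [p2, p2, (p1 e0).eq_of_nhds, indicator_of_notMem (s := {x | r x < 0}) hn]; ring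

theorem ht_val (f : S3) (z : ST) : (DS.ht f).1 z = -Lh f.1 z := by
  change pd e0 f.1 z - (pd e1 (pd e1 f.1) z + pd e2 (pd e2 f.1) z) = _
  unfold Lh; ring

theorem gr_val (f : S3) (z : ST) : (DS.d 1 f ^ 2 + DS.d 2 f ^ 2).1 z = gr f.1 z := by
  rw [val_add, val_pow, val_pow]; rfl

end GExt

open GExt in
theorem rowExt : OfExt := by
  intro V U I f g C hV hU hUc hI hS hB hx z h1 h2 h3
  obtain ⟨x₀, hx₀, hx₁⟩ := hx
  obtain ⟨r, cr, rn, rz⟩ := exists_r hV ⟨_, h3⟩ ⟨x₀, fun h => hx₁ (subset_closure h)⟩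
  have hO : IsOpen {y : ST | y.1 ∈ I ∧ y.2 ∈ U} :=
    (hI.preimage continuous_fst).inter (hU.preimage continuous_snd)
  have e1 := fun (y : ST) (a : y.1 ∈ I) (b : y.2 ∈ U) => ext cr f (z := y) (by
    filter_upwards [hO.mem_nhds ⟨a, b⟩] with w hw h
    exact jet_two fun l hl => (hB w hw.1 hw.2 (rz w h).1 (rz w h).2 l hl).1)
  have e2 := fun (y : ST) (a : y.1 ∈ I) (b : y.2 ∈ U) => ext cr g (z := y) (by
    filter_upwards [hO.mem_nhds ⟨a, b⟩] with w hw h
    exact jet_two fun l hl => (hB w hw.1 hw.2 (rz w h).1 (rz w h).2 l hl).2)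
  have U1 := uc_connected hU hUc hI (W₁ := {x | r x < 0}.indicator f.1)
    (W₂ := {x | r x < 0}.indicator g.1) C.ct.abs
    (fun y a b => ⟨(e1 y a b).1, (e2 y a b).1, by
      by_cases hn : r y < 0
      · rw [Lh_congr (ind_neg cr f.1 hn), Lh_congr (ind_neg cr g.1 hn),
          gr_congr (ind_neg cr f.1 hn), gr_congr (ind_neg cr g.1 hn),
          (ind_neg cr f.1 hn).eq_of_nhds, (ind_neg cr g.1 hn).eq_of_nhds]
        have k := hS y a b ((rn y).1 hn)
        rw [val_mul, val_add, val_add _ (DS.d 1 g ^ 2 + DS.d 2 g ^ 2),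
          val_add _ (DS.d 1 f ^ 2 + DS.d 2 f ^ 2), gr_val, gr_val, val_add, val_pow, val_pow,
          val_pow, val_pow, ht_val, ht_val, neg_sq, neg_sq] at k
        refine k.trans (mul_le_mul_of_nonneg_right (le_abs_self _) ?_)
        have := gr_nonneg f.1 y
        have := gr_nonneg g.1 y
        positivity
      · rw [(e1 y a b).2 hn, (e2 y a b).2 hn]
        have := gr_nonneg ({x | r x < 0}.indicator f.1) y
        have := gr_nonneg ({x | r x < 0}.indicator g.1) y
        norm_num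
        positivity⟩) hx₀ (by
      filter_upwards [isClosed_closure.isOpen_compl.mem_nhds hx₁] with x hx t _
      have : (t, x) ∉ {x | r x < 0} := fun h => hx (subset_closure ((rn _).1 h))
      exact ⟨indicator_of_notMem this _, indicator_of_notMem this _⟩)
  have k := U1 z.2 h2 z.1 h1
  have hm : (z.1, z.2) ∈ {x | r x < 0} := (rn _).2 h3
  rwa [indicator_of_mem hm, indicator_of_mem hm] at k

end Pool.Agent.MP_ed9623_an.S64
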