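import Pool.Agent.MP_ed9623_an.S64.SpecG

/-! The determinant of the Hessian is not flat along a boundary. -/

open Filter Topology Set
open scoped ContDiff

namespace Pool.Agent.MP_ed9623_an.S64

open H64

namespace GFA

section alg
variable {R : Type} [CommRing R] [Algebra ℝ R] (D : DR R) {J : Ideal R}
  (hJ : ∀ f ∈ J, ∀ i, D.d i f ∈ J)
include hJ

theorem ht_mem {f : R} (h : f ∈ J) : D.ht f ∈ J :=
  sub_mem (hJ _ h 0) (add_mem (hJ _ (hJ _ h 1) 1) (hJ _ (hJ _ h 2) 2))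

/-- The heat operator on a quotient of two caloric functions. -/
theorem quot {β bi f g : R} (h1 : β * bi - 1 ∈ J) (h2 : D.ht β ∈ J) (h3 : D.ht g ∈ J)
    (h4 : β * f - g ∈ J) : D.ht f - D.V (2 * bi * D.d 1 β) (2 * bi * D.d 2 β) f ∈ J := by
  convert sub_mem (J.mul_mem_left bi (sub_mem (add_mem (ht_mem D hJ h4) h3)
    (J.mul_mem_left f h2))) (J.mul_mem_left (D.ht f) h1) using 1
  simp only [DR.ht, DR.lap, DR.V, map_add, map_sub, D.mul]
  ring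

theorem ht_BB {ψ : R} (h1 : D.ht (D.d 1 ψ) ∈ J) (h2 : D.ht (D.d 2 ψ) ∈ J) (a b : ℝ × ℝ) :
    D.ht (D.BB ψ a b) ∈ J := by
  convert add_mem (add_mem (J.smul_of_tower_mem (a.1 * b.1) (hJ _ h1 1))
    (J.smul_of_tower_mem (a.1 * b.2 + a.2 * b.1) (hJ _ h2 1)))
    (J.smul_of_tower_mem (a.2 * b.2) (hJ _ h2 2)) using 1
  simp only [DR.ht, DR.lap, DR.BB, map_add, map_sub, map_smul, D.c10, D.c20, D.c21]
  module

omit hJ in
theorem sq_id (c e l d : R) : D.ht d - D.V c e d - 2 * (D.d 1 l ^ 2 + D.d 2 l ^ 2) =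
    D.ht (d + l ^ 2) - D.V c e (d + l ^ 2) - 2 * l * (D.ht l - D.V c e l) := by
  simp only [DR.ht, DR.lap, DR.V, map_add, D.mul, D.d_sq, D.d_ofNat]
  ring

omit hJ in
theorem d_id (c e l : R) (i : Fin 3) : D.d i (D.ht l - D.V c e l) = D.ht (D.d i l) -
    (D.d i c * D.d 1 l + c * D.d i (D.d 1 l) + D.d i e * D.d 2 l + e * D.d i (D.d 2 l)) := by
  simp only [DR.ht, DR.lap, DR.V, map_add, map_sub, D.mul, D.comm i]
  ring

omit hJ in
theorem det_id (ψ : R) (b : ℝ × ℝ) : D.BB ψ (-b.2, b.1) (-b.2, b.1) * D.BB ψ b b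
    - D.BB ψ (-b.2, b.1) b ^ 2 = ((b.1 ^ 2 + b.2 ^ 2) ^ 2) • D.det ψ := by
  simp only [DR.BB, DR.det, Algebra.smul_def, map_add, map_mul, map_pow, map_neg]
  ring

end alg

theorem cs (a b c d x y z w : ℝ) : (a * x + b * y + c * z + d * w) ^ 2 ≤
    (a ^ 2 + b ^ 2 + c ^ 2 + d ^ 2) * (x ^ 2 + y ^ 2 + z ^ 2 + w ^ 2) := by
  nlinarith [sq_nonneg (a * y - b * x), sq_nonneg (a * z - c * x), sq_nonneg (a * w - d * x),
    sq_nonneg (b * z - c * y), sq_nonneg (b * w - d * y), sq_nonneg (c * w - d * z)]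

theorem cs2 {A B : ℝ} (hA : 0 ≤ A) (hB : 0 ≤ B) (p q a b c d : ℝ) :
    A * (p ^ 2 + a ^ 2 + q ^ 2 + c ^ 2) + B * (p ^ 2 + b ^ 2 + q ^ 2 + d ^ 2) ≤
      (A + B) * (p ^ 2 + q ^ 2 + (a ^ 2 + b ^ 2) + (c ^ 2 + d ^ 2)) := by
  nlinarith [mul_nonneg hA (add_nonneg (sq_nonneg b) (sq_nonneg d)),
    mul_nonneg hB (add_nonneg (sq_nonneg a) (sq_nonneg c))]

theorem loc_const {f : S3} {y : ST} (h : ∀ i, DS.d i f ∈ NI y) : ∀ᶠ x in 𝓝 y, f.1 x = f.1 y := by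
  obtain ⟨r, r0, hr⟩ := Metric.eventually_nhds_iff_ball.1 ((h 0).and ((h 1).and (h 2)))
  refine mem_of_superset (Metric.ball_mem_nhds y r0) fun x hx =>
    Metric.isOpen_ball.is_const_of_fderiv_eq_zero (𝕜 := ℝ) (convex_ball y r).isPreconnected
      (fun w _ => (cdg_diff (f.cd 1) le_rfl w).differentiableWithinAt) (fun w hw => ?_) hx
      (Metric.mem_ball_self r0)
  refine ContinuousLinearMap.ext fun v => (D_dir v f w).trans ?_
  rw [(hr w hw).1, (hr w hw).2.1, (hr w hw).2.2]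
  simp

end GFA

open GFA in
theorem rowFA : OfFA := by
  intro hE hR n α ψ O Z V z b h oV VO VZ zV fr b0 fl
  obtain ⟨bi, hb⟩ := exists_inv b0
  obtain ⟨r, r0, hr⟩ := Metric.eventually_nhds_iff_ball.1 ((FI_ev hb).and fl)
  rw [← Prod.mk.eta (p := z), ← ball_prod_same] at hr
  set I := Metric.ball z.1 r
  set U := Metric.ball z.2 r
  have oI : IsOpen I := Metric.isOpen_ball
  have oU : IsOpen U := Metric.isOpen_ball
  have nU : U ∈ 𝓝 z.2 := Metric.ball_mem_nhds _ r0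
  have out : ∃ x ∈ U, x ∉ closure V := (fr.and_eventually nU).exists.imp fun _ a => a.symm
  have ext := fun f g C => hE V U I f g C oV oU (convex_ball _ _).isPreconnected oI
  have nb : ∀ y : ST, y.1 ∈ I → y.2 ∈ U → ∀ᶠ x : ST in 𝓝 y, x.1 ∈ I ∧ x.2 ∈ U := fun y a c =>
    (oI.prod oU).mem_nhds ⟨a, c⟩
  have ni : ∀ f : S3, (∀ y : ST, y.1 ∈ I → y.2 ∈ U → y.2 ∈ V → f.1 y = 0) →
      ∀ y : ST, y.1 ∈ I → y.2 ∈ U → y.2 ∈ V → f ∈ NI y := fun f hf y a c d =>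
    ((nb y a c).and ((continuous_snd.tendsto y).eventually (oV.mem_nhds d))).mono
      fun x e => hf x e.1.1 e.1.2 e.2
  have hB : ∀ a b (y : ST), y.2 ∈ V → DS.ht (DS.BB ψ a b) ∈ NI y := fun a b y d =>
    have e := fun j hj => ((continuous_snd.tendsto y).eventually (oV.mem_nhds d)).mono
      fun x c => FL_val (h.ht_fl (j := j) hj (VO c) (subset_closure (VZ c)))
    ht_BB DS (fun _ => NI_d) (e 1 (by decide)) (e 2 (by decide)) a b
  have di := det_id DS ψ b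
  set β := DS.BB ψ b b with hβ
  set B1 := DS.BB ψ (-b.2, b.1) b with hB1
  set B2 := DS.BB ψ (-b.2, b.1) (-b.2, b.1) with hB2
  obtain ⟨l, hl⟩ : ∃ l, l = B1 * bi := ⟨_, rfl⟩
  obtain ⟨d, hd⟩ : ∃ d, d = bi ^ 2 * (B2 * β - B1 ^ 2) := ⟨_, rfl⟩
  generalize hc : 2 * bi * DS.d 1 β = c
  generalize he : 2 * bi * DS.d 2 β = e
  have q1 : ∀ y : ST, y.1 ∈ I → y.2 ∈ U → β * l - B1 ∈ NI y := fun y a1 a2 => by
    convert Ideal.mul_mem_left _ B1 (hr y ⟨a1, a2⟩).1 using 1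
    rw [hl]; ring
  have q2 : ∀ y : ST, y.1 ∈ I → y.2 ∈ U → β * (d + l ^ 2) - B2 ∈ NI y := fun y a1 a2 => by
    convert Ideal.mul_mem_left _ (B2 * (β * bi + 1)) (hr y ⟨a1, a2⟩).1 using 1
    rw [hl, hd]; ring
  have E1 : ∀ y : ST, y.1 ∈ I → y.2 ∈ U → y.2 ∈ V → DS.ht l - DS.V c e l ∈ NI y :=
    fun y a1 a2 a3 => hc ▸ he ▸
      quot DS (fun _ => NI_d) (hr y ⟨a1, a2⟩).1 (hB _ _ y a3) (hB _ _ y a3) (q1 y a1 a2)
  have E3 : ∀ y : ST, y.1 ∈ I → y.2 ∈ U → y.2 ∈ V →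
      DS.ht d - DS.V c e d - 2 * (DS.d 1 l ^ 2 + DS.d 2 l ^ 2) ∈ NI y := fun y a1 a2 a3 => by
    rw [sq_id]
    exact sub_mem (hc ▸ he ▸ quot DS (fun _ => NI_d) (hr y ⟨a1, a2⟩).1 (hB _ _ y a3) (hB _ _ y a3)
      (q2 y a1 a2)) (Ideal.mul_mem_left _ _ (E1 y a1 a2 a3))
  have fd : ∀ y : ST, y.1 ∈ I → y.2 ∈ U → y.2 ∈ closure V → y.2 ∉ V → d ∈ FL y :=
    fun y a1 a2 a3 a4 => by
    rw [hd, di]
    exact Ideal.mul_mem_left _ _ (Submodule.smul_of_tower_mem _ _ ((hr y ⟨a1, a2⟩).2 a3 a4))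
  have f1 : ∀ y : ST, y.1 ∈ I → y.2 ∈ U → y.2 ∈ closure V → y.2 ∉ V →
      DS.d 1 l ^ 2 + DS.d 2 l ^ 2 ∈ FL y := fun y a1 a2 a3 a4 => by
    have k1 := FL_of (oV.preimage continuous_snd) (mem_closure_iff_frequently.2
      (((Continuous.prodMk_right y.1).tendsto y.2).frequently (mem_closure_iff_frequently.1 a3)))
      ((nb y a1 a2).mono fun x m m' => NI_val (E3 x m.1 m.2 m'))
    have k2 := fd y a1 a2 a3 a4
    have k3 := Submodule.smul_of_tower_mem _ (1 / 2 : ℝ) (sub_mem (sub_mem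
      (ht_mem DS (fun _ => FL_d) k2) (add_mem (Ideal.mul_mem_left _ c (FL_d k2 1))
        (Ideal.mul_mem_left _ e (FL_d k2 2)))) k1)
    rwa [DR.V, sub_sub_cancel, two_mul, ← two_smul ℝ, smul_smul, one_div_mul_cancel two_ne_zero,
      one_smul] at k3
  have g1 := ext (DS.d 1 l) (DS.d 2 l) (DS.d 1 c ^ 2 + c ^ 2 + DS.d 1 e ^ 2 + e ^ 2 +
    (DS.d 2 c ^ 2 + c ^ 2 + DS.d 2 e ^ 2 + e ^ 2)) (fun y a1 a2 a3 => by
      have k1 := NI_val (NI_d (E1 y a1 a2 a3) 1)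
      have k2 := NI_val (NI_d (E1 y a1 a2 a3) 2)
      rw [d_id, val_sub, sub_eq_zero] at k1 k2
      simp only [val_add, val_mul, val_pow, k1, k2]
      exact (add_le_add (cs ..) (cs ..)).trans (cs2 (by positivity) (by positivity) ..))
    (fun y a1 a2 a3 a4 w _ => ⟨hR y _ _ (f1 y a1 a2 a3 a4) w,
      hR y _ _ (add_comm (DS.d 1 l ^ 2) _ ▸ f1 y a1 a2 a3 a4) w⟩) out
  have n1 := ni _ fun y a1 a2 a3 => (g1 y a1 a2 a3).1
  have n2 := ni _ fun y a1 a2 a3 => (g1 y a1 a2 a3).2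
  have g2 := ext d 0 (c ^ 2 + e ^ 2) (fun y a1 a2 a3 => by
      have k1 := NI_val (E3 y a1 a2 a3)
      simp only [DR.V, val_add, val_sub, val_mul, val_pow, (g1 y a1 a2 a3).1, (g1 y a1 a2 a3).2,
        val_ofNat] at k1
      have k2 : DS.ht (0 : S3) = 0 := by simp [DR.ht, DR.lap]
      simp only [k2, map_zero, val_add, val_mul, val_pow, val_zero]
      rw [show (DS.ht d).1 y = c.1 y * (DS.d 1 d).1 y + e.1 y * (DS.d 2 d).1 y by linarith]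
      nlinarith [sq_nonneg (c.1 y * (DS.d 2 d).1 y - e.1 y * (DS.d 1 d).1 y),
        sq_nonneg (c.1 y * d.1 y), sq_nonneg (e.1 y * d.1 y)])
    (fun y a1 a2 a3 a4 w _ => ⟨fd y a1 a2 a3 a4 w, by rw [DS.w_zero]; rfl⟩) out
  obtain ⟨x, xV, xU⟩ := ((mem_closure_iff_frequently.1 zV).and_eventually nU).exists
  have zI : z.1 ∈ I := Metric.mem_ball_self r0
  have m1 := n1 (z.1, x) zI xU xV
  have m2 := n2 (z.1, x) zI xU xV
  have lc := loc_const (f := l) (y := (z.1, x)) fun i => by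
    fin_cases i
    · convert add_mem (add_mem (E1 (z.1, x) zI xU xV) (add_mem (Ideal.mul_mem_left _ c m1)
        (Ideal.mul_mem_left _ e m2))) (add_mem (NI_d m1 1) (NI_d m2 2)) using 1
      simp only [DR.ht, DR.lap, DR.V]
      change DS.d 0 l = _
      ring
    · exact m1
    · exact m2
  generalize l.1 (z.1, x) = s at lc
  refine h.wall (-b.2 - s * b.1, b.1 - s * b.2) (fun a => b0 ?_) (z.1, x) (VO xV) (VZ xV) ?_
  · have a1 : -b.2 - s * b.1 = 0 := congrArg Prod.fst a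
    have a2 : b.1 - s * b.2 = 0 := congrArg Prod.snd a
    have a3 : b.1 ^ 2 + b.2 ^ 2 = 0 := by linear_combination b.1 * a2 - b.2 * a1
    have a4 : b.1 = 0 := by nlinarith [sq_nonneg b.1, sq_nonneg b.2]
    have a5 : b.2 = 0 := by nlinarith [sq_nonneg b.1, sq_nonneg b.2]
    simp [hβ, DR.BB, a4, a5]
  · filter_upwards [lc, q1 (z.1, x) zI xU, q2 (z.1, x) zI xU,
      ni d (fun y a1 a2 a3 => (g2 y a1 a2 a3).1) (z.1, x) zI xU xV] with y a1 a2 a3 a4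
    simp only [hβ, hB1, hB2, DR.BB, val_add, val_sub, val_mul, val_pow, val_smul, a1, a4] at a2 a3 ⊢
    linear_combination 2 * s * a2 - a3

end Pool.Agent.MP_ed9623_an.S64
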