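import Pool.Agent.MP_ed9623_an.S64.SpecG

/-! Unique continuation when the symbol of the third harmonic does not vanish. -/

open Filter Topology Set

namespace Pool.Agent.MP_ed9623_an.S64

open H64

theorem rowFTg : OfFTg := by
  intro hM hD hF n ψ γ z σ hz hR hQ hA hk α U hU hzU
  obtain ⟨β, h1, -⟩ := hD γ z 1 _ hz fun i hi => by
    obtain rfl : i = 0 := by omega
    exact hA
  obtain ⟨ki, h2⟩ := exists_inv hk
  obtain ⟨R, _, _, D, res, M, τ, Qi, hd, eA, ed, h0, hC, hG⟩ :=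
    hM n α ψ γ U z σ _ hU hzU hz hR hQ (Eventually.and h1 h2)
  have hm : ∀ f, res f ∈ M.A := fun f => eA ▸ ⟨f, rfl⟩
  have e1 := h0 _ fun _ a => a.1
  have e2 := h0 _ fun _ a => a.2
  refine ⟨z.1, hG (hF M hC _ (hm β) _ (hm ki) ?_ ?_)⟩
  · rw [ed, ← sub_eq_zero, ← e1]
    simp only [DR.AA, map_add, map_sub, map_mul, map_pow, map_ofNat, hd, pow_one]
  · rw [← sub_eq_zero, ← e2]
    simp only [kk, DR.lx, DR.tp, DR.AA, DR.QQ, DR.XX, Function.iterate_succ, Function.iterate_zero,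
      Function.comp_apply, id, map_add, map_sub, map_mul, map_pow, map_ofNat, map_one, hd]

end Pool.Agent.MP_ed9623_an.S64
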