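import Pool.Agent.MP_ed9623_an.S64.SpecG

/-! The symbol of the third harmonic on the curve. -/

namespace Pool.Agent.MP_ed9623_an.S64

open H64

namespace GFTj

variable {γ : SA ℝ} {z : ST}

theorem X_nsq (γ : SA ℝ) : DS.XX (gg γ) (nsq (gg γ))
    = -(2 * gg γ * gg (D 1 γ) * nsq (gg γ) ^ 2) := by
  have h := nsq_inv (gg γ)
  rw [DR.XX, DS.d_inv 1 h, DS.d_inv 2 h]
  simp only [map_add, DS.d_one, DS.d_sq, d1_gg, d2_gg]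
  ring

theorem X_sub (σ f g : S3) : DS.XX σ (f - g) = DS.XX σ f - DS.XX σ g := by
  simp only [DR.XX, map_sub]; ring

theorem nsq_cong {σ : S3} (hσ : σ - gg γ ∈ VI γ z) : nsq σ - nsq (gg γ) ∈ VI γ z := by
  have e : nsq σ - nsq (gg γ) = -(nsq σ * nsq (gg γ) * (σ + gg γ)) * (σ - gg γ) := by
    linear_combination (-nsq σ) * nsq_inv (gg γ) + nsq (gg γ) * nsq_inv σ
  rw [e]
  exact Ideal.mul_mem_left _ _ hσ

theorem c_cong {σ ψ : S3} (hσ : σ - gg γ ∈ VI γ z) (k : ℕ) :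
    nsq σ ^ 2 * DS.tp ψ σ k - nsq (gg γ) ^ 2 * DS.tp ψ (gg γ) k ∈ VI γ z := by
  have e1 := Ideal.Quotient.eq.2 hσ
  have e2 := Ideal.Quotient.eq.2 (nsq_cong hσ)
  refine Ideal.Quotient.eq.1 ?_
  simp only [DR.tp, map_add, map_mul, map_pow, e1, e2]

theorem lx_cong {σ c E H : S3} (φ : S3) (hσ : σ - gg γ ∈ VI γ z)
    (hc : c - nsq (gg γ) ^ 2 * E ∈ VI γ z)
    (hE : DS.XX (gg γ) E - 2 * gg (D 1 γ) * H ∈ VI γ z) :
    (1 + gg γ ^ 2) ^ 3 * DS.lx φ σ c - (2 * E * ((1 + gg γ ^ 2) * DS.AA (DS.d 2 φ) (gg γ)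
      + 4 * gg γ * gg (D 1 γ) * DS.QQ φ (gg γ))
      - 2 * DS.QQ φ (gg γ) * (2 * (1 + gg γ ^ 2) * gg (D 1 γ) * H)) ∈ VI γ z := by
  have h3 : DS.XX σ c - (-(4 * gg γ * gg (D 1 γ) * nsq (gg γ) ^ 3 * E)
      + nsq (gg γ) ^ 2 * DS.XX (gg γ) E) ∈ VI γ z := by
    have e : DS.XX σ c - (-(4 * gg γ * gg (D 1 γ) * nsq (gg γ) ^ 3 * E)
        + nsq (gg γ) ^ 2 * DS.XX (gg γ) E)
        = DS.d 2 c * (σ - gg γ) + DS.XX (gg γ) (c - nsq (gg γ) ^ 2 * E) := by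
      rw [X_sub, sq (nsq (gg γ)), X_mul, X_mul, X_nsq]
      simp only [DR.XX]
      ring
    rw [e]
    exact Ideal.add_mem _ (Ideal.mul_mem_left _ _ hσ) (VI_X hc)
  have e1 := Ideal.Quotient.eq.2 hσ
  have e2 := Ideal.Quotient.eq.2 hc
  have e3 := Ideal.Quotient.eq.2 h3
  have e4 := Ideal.Quotient.eq.2 hE
  have e5 := congrArg (Ideal.Quotient.mk (VI γ z)) (nsq_inv (gg γ))
  refine Ideal.Quotient.eq.1 ?_
  simp only [DR.lx, DR.AA, DR.QQ, map_add, map_sub, map_mul, map_pow, map_neg, map_ofNat, map_one,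
    e1, e2, e3, e4] at e5 ⊢
  set q := Ideal.Quotient.mk (VI γ z)
  set n := q (nsq (gg γ))
  set w := 1 + q (gg γ) ^ 2
  set a := q (DS.d 1 (DS.d 1 (DS.d 2 φ))) + 2 * q (gg γ) * q (DS.d 1 (DS.d 2 (DS.d 2 φ)))
    + q (gg γ) ^ 2 * q (DS.d 2 (DS.d 2 (DS.d 2 φ)))
  set b := q (DS.d 1 (DS.d 2 φ)) + q (gg γ) * q (DS.d 2 (DS.d 2 φ))
  linear_combination (2 * q E * a * w * (w * n + 1)
    + 8 * b * q (gg γ) * q (gg (D 1 γ)) * q E * ((w * n) ^ 2 + w * n + 1)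
    - 4 * b * w * q (gg (D 1 γ)) * q H * (w * n + 1)) * e5

theorem d0_mul {a : S3} (h : DS.d 0 a = 0) (f : S3) : DS.d 0 (a * f) = a * DS.d 0 f := by
  rw [DS.mul, h]; ring

theorem tp_one (ψ : S3) (γ : SA ℝ) : DS.tp ψ (gg γ) 1 = DS.d 0 (DS.XX (gg γ) ψ ^ 2) := by
  simp only [DR.tp, DR.XX, Function.iterate_one, DS.d_sq, DS.mul, map_add, d0_gg]
  ring

theorem tp_two (ψ : S3) (γ : SA ℝ) :
    DS.tp ψ (gg γ) 2 = DS.d 0 (DS.d 0 (DS.XX (gg γ) ψ ^ 2)) := by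
  simp only [DR.tp, DR.XX, Function.iterate_succ, Function.iterate_zero, Function.comp, id,
    DS.d_sq, DS.mul, map_add, d0_gg, DS.d_ofNat, map_zero]
  ring

theorem X_sq {ψ : S3} (hA : DS.AA ψ (gg γ) ∈ VI γ z) :
    DS.XX (gg γ) (DS.XX (gg γ) ψ ^ 2) - 2 * gg (D 1 γ) * (DS.XX (gg γ) ψ * DS.d 2 ψ) ∈ VI γ z := by
  have e : DS.XX (gg γ) (DS.XX (gg γ) ψ ^ 2) - 2 * gg (D 1 γ) * (DS.XX (gg γ) ψ * DS.d 2 ψ)
      = 2 * DS.XX (gg γ) ψ * DS.AA ψ (gg γ) := by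
    rw [sq, X_mul, X_X]; ring
  rw [e]
  exact Ideal.mul_mem_left _ _ hA

theorem X_d0 {E H : S3} (h : DS.XX (gg γ) E - 2 * gg (D 1 γ) * H ∈ VI γ z) :
    DS.XX (gg γ) (DS.d 0 E) - 2 * gg (D 1 γ) * DS.d 0 H ∈ VI γ z := by
  have e := VI_d0 h
  rwa [map_sub, d0_X (d0_gg γ), d0_mul (by rw [DS.mul, d0_gg, DS.d_ofNat]; ring)] at e

theorem d0_AA (φ : S3) (γ : SA ℝ) : DS.d 0 (DS.AA φ (gg γ)) = DS.AA (DS.d 0 φ) (gg γ) := by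
  simp only [DR.AA, map_add, DS.mul, DS.d_sq, d0_gg, DS.d_ofNat, DS.c10, DS.c20]
  ring

theorem d0_QQ (φ : S3) (γ : SA ℝ) : DS.d 0 (DS.QQ φ (gg γ)) = DS.QQ (DS.d 0 φ) (gg γ) := by
  simp only [DR.QQ, map_add, DS.mul, d0_gg, DS.c10, DS.c20]
  ring

end GFTj

open GFTj in
theorem rowFTj : OfFTj := by
  intro ψ γ z σ g Q P l S hg hQ hP hl hS hσ hA
  subst hg hQ hP hl hS
  constructor
  · have e1 := Ideal.Quotient.eq.2 hσ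
    have e2 := VI_d0 hA
    rw [d0_AA] at e2
    have e3 : DS.AA (DS.d 0 ψ) σ - DS.AA (DS.d 0 ψ) (gg γ) ∈ VI γ z := by
      refine Ideal.Quotient.eq.1 ?_
      simp only [DR.AA, map_add, map_mul, map_pow, e1]
    simpa using Ideal.add_mem _ e3 e2
  · have h1 := X_d0 (X_sq hA)
    have h2 := X_d0 h1
    have c1 := c_cong (ψ := ψ) hσ 1
    have c2 := c_cong (ψ := ψ) hσ 2
    rw [tp_one] at c1
    rw [tp_two] at c2
    have k1 := lx_cong (DS.d 0 ψ) hσ c1 h1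
    have k2 := lx_cong ψ hσ c2 h2
    have hw : DS.d 0 (1 + gg γ ^ 2) = 0 := by
      rw [map_add, DS.d_one, DS.d_sq, d0_gg]; ring
    have hs : DS.d 0 (2 * (1 + gg γ ^ 2) * gg (D 1 γ)) = 0 := by
      rw [DS.mul, DS.mul, hw, d0_gg, DS.d_ofNat]; ring
    have hr : DS.d 0 (4 * gg γ * gg (D 1 γ)) = 0 := by
      rw [DS.mul, DS.mul, d0_gg, d0_gg, DS.d_ofNat]; ring
    have e : DS.XX (gg γ) ψ * (2 * (1 + gg γ ^ 2) * gg (D 1 γ) * DS.d 2 ψ)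
        = 2 * (1 + gg γ ^ 2) * gg (D 1 γ) * (DS.XX (gg γ) ψ * DS.d 2 ψ) := by ring
    convert Ideal.add_mem _ (Ideal.mul_mem_left _ 2 k1) k2 using 1
    rw [e, d0_mul hs, d0_mul hs, map_add, d0_mul hw, d0_mul hr, d0_AA, d0_QQ, ← DS.c20, kk]
    ring

end Pool.Agent.MP_ed9623_an.S64
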