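import Pool.Agent.MP_ed9623_an.S64.SpecG

/-! Unique continuation from the third harmonic, for sinusoids of nonzero amplitude. -/

open Filter Topology Set
open scoped ContDiff

namespace Pool.Agent.MP_ed9623_an.S64

open H64

namespace GFTs

theorem d0_val {f : S3} {z : ST} (h : ∀ᶠ t in 𝓝 z.1, f.1 (t, z.2) = 0) : (DS.d 0 f).1 z = 0 :=
  (hd_time f z.1 z.2).unique ((hasDerivAt_const _ _).congr_of_eventuallyEq h)

theorem alg {n β p0 p1 q0 q1 s0 s1 : ℝ} (hn : 0 < n) (hq : q0 ≠ 0)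
    (im : q1 * p0 * (β * p1 - s1) + q1 * p1 * (β * p0 - s0) + q0 * p1 * (β * p1 - s1)
      - n * q0 * p0 * (β * p0 - s0) = 0)
    (re : q1 * p1 * (β * p1 - s1) - n * (q1 * p0 * (β * p0 - s0) + q0 * p1 * (β * p0 - s0)
      + q0 * p0 * (β * p1 - s1)) = 0) (hp : n * (p0 * p0) + p1 * p1 ≠ 0)
    (hr : n * ((β * p0 - s0) * (β * p0 - s0)) + (β * p1 - s1) * (β * p1 - s1) ≠ 0) : False := by
  generalize β * p0 - s0 = r0 at *
  generalize β * p1 - s1 = r1 at *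
  have h0 : n * (q0 * q0) + q1 * q1 ≠ 0 := by
    have := mul_self_pos.2 hq
    nlinarith [mul_self_nonneg q1]
  refine mul_ne_zero (mul_ne_zero h0 hp) hr ?_
  linear_combination (q1 * p1 * r1 - n * (q1 * p0 * r0 + q0 * p1 * r0 + q0 * p0 * r1)) * re
    + n * (q1 * p0 * r1 + q1 * p1 * r0 + q0 * p1 * r1 - n * q0 * p0 * r0) * im

theorem key {n β : ℝ} {γ : SA ℝ} {z : ST} {P Q l S : S3} (hn : 0 < n) (c : z.2.2 = γ.1 z.2.1)
    (sP : Sn n P ∈ VI γ z) (sQ : Sn n Q ∈ VI γ z) (sl : Sn n l ∈ VI γ z) (sS : Sn n S ∈ VI γ z)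
    (hG : ∀ᶠ t in 𝓝 z.1, (4 * DS.d 0 (P ^ 2) * DS.d 0 l - 4 * DS.d 0 Q * DS.d 0 (P * S)
      + 2 * DS.d 0 (DS.d 0 (P ^ 2)) * l - 2 * Q * DS.d 0 (DS.d 0 (P * S))).1 (t, z.2) = 0)
    (hq : Q.1 z ≠ 0) (hl : l.1 z = β * Q.1 z) (hb : (DS.bk Q l).1 z = 0)
    (hp : (DS.ip n P P).1 z ≠ 0) (hr : (DS.ip n (β • P - S) (β • P - S)).1 z ≠ 0) : False := by
  have g0 : _ = (0 : ℝ) := hG.self_of_nhds
  have g1 := d0_val hG
  have p2 := VI_val sP c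
  have p3 := VI_val (VI_d0 sP) c
  have s2 := VI_val sS c
  have s3 := VI_val (VI_d0 sS) c
  have q2 := VI_val sQ c
  have l2 := VI_val sl c
  rw [bk_val, hl] at hb
  have l1 : (DS.d 0 l).1 z = β * (DS.d 0 Q).1 z :=
    mul_left_cancel₀ hq (by linear_combination hb)
  rw [ip_val] at hp hr
  simp only [Sn, sq, map_add, map_sub, map_smul, DS.mul, DS.d_ofNat, val_add, val_sub, val_mul,
    val_smul, val_ofNat, val_zero, Prod.mk.eta, ← eq_neg_iff_add_eq_zero]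
    at g0 g1 p2 p3 s2 s3 q2 l2 hr
  simp only [p2, p3, s2, s3, q2, l2, l1, hl] at g0 g1
  exact alg (q1 := (DS.d 0 Q).1 z) hn hq (by linear_combination (1 / 4 : ℝ) * g0)
    (by linear_combination (1 / 12 : ℝ) * g1) hp hr

end GFTs

open GFTs in
theorem rowFTs : OfFTs := by
  intro hRt hFg hFj n ψ γ z β g Q P R c hg hQ hP hR hA hq hb hl hp hr α U hU hz
  by_contra hne
  subst hg
  obtain ⟨σ, hσ⟩ := hRt ψ γ z c hA (hQ ▸ hq)
  obtain ⟨h1, h2⟩ := hFj ψ γ z σ _ Q P _ _ rfl hQ hP rfl rfl hσ.1 hA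
  have hq' : (DS.QQ ψ σ).1 z ≠ 0 := by
    have e := VI_val hσ.1 c
    rw [hQ] at hq
    simp only [DR.QQ, val_add, val_mul, val_sub, sub_eq_zero] at e hq ⊢
    rwa [e]
  have hk : ∀ᶠ t in 𝓝 z.1, (kk ψ σ).1 (t, z.2) = 0 := by
    filter_upwards [((Continuous.prodMk_left z.2).tendsto z.1).eventually
      (((VI_ev hσ.1).and (FI_ev hσ.2)).and ((ev_ne hq').and ((VI_ev h1).and (hU.oU.mem_nhds hz))))]
      with t a
    by_contra b
    exact hne (hFg n ψ γ (t, z.2) σ c a.1 a.2.1 a.2.2.1 b α U hU a.2.2.2)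
  have y1 : Sn n (DS.d 1 ψ) ∈ LJ γ z := hU.yy_lj hz (by decide)
  have y2 : Sn n (DS.d 2 ψ) ∈ LJ γ z := hU.yy_lj hz (by decide)
  have sd : ∀ {f : S3} (i : Fin 3), Sn n f ∈ LJ γ z → Sn n (DS.d i f) ∈ LJ γ z := fun i h => by
    rw [Sn_d]; exact LJ_d h i
  have sa : ∀ {f f' : S3}, Sn n f ∈ LJ γ z → Sn n f' ∈ LJ γ z → Sn n (f + f') ∈ LJ γ z :=
    fun h h' => by rw [Sn_add]; exact add_mem h h'
  have sm : ∀ {f k : S3}, DS.d 0 k = 0 → Sn n f ∈ LJ γ z → Sn n (k * f) ∈ LJ γ z :=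
    fun e h => by rw [Sn_mul e]; exact Ideal.mul_mem_left _ _ h
  have sQ : Sn n Q ∈ LJ γ z := hQ ▸ sa (sd 1 y2) (sm (d0_gg γ) (sd 2 y2))
  have sP : Sn n P ∈ LJ γ z := hP ▸ sa y1 (sm (d0_gg γ) y2)
  have t2 : DS.d 0 (gg γ ^ 2) = 0 := by rw [DS.d_sq, d0_gg, mul_zero]
  have tw : DS.d 0 (1 + gg γ ^ 2) = 0 := by rw [map_add, t2, DS.d_one, add_zero]
  have t4 : DS.d 0 (4 * gg γ * gg (D 1 γ)) = 0 := by
    simp only [DS.mul, d0_gg, DS.d_ofNat, mul_zero, zero_mul, add_zero]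
  have sA : Sn n (DS.AA (DS.d 2 ψ) (gg γ)) ∈ LJ γ z :=
    sa (sa (sd 1 (sd 1 y2)) (sm (by simp only [DS.mul, d0_gg, DS.d_ofNat, mul_zero, zero_mul,
      add_zero]) (sd 1 (sd 2 y2)))) (sm t2 (sd 2 (sd 2 y2)))
  refine key hU.n0 c (LJ_VI sP) (LJ_VI sQ) (LJ_VI (sa (sm tw sA) (sm t4 sQ)))
    (LJ_VI (sm (k := 2 * (1 + gg γ ^ 2) * gg (D 1 γ)) (by
      simp only [DS.mul, d0_gg, tw, DS.d_ofNat, mul_zero, zero_mul, add_zero]) y2))
    ?_ hq hl ?_ hp (hR ▸ hr)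
  · filter_upwards [hk, VI_time h2 c] with t a b
    rw [val_sub, val_mul, a, mul_zero, zero_sub, neg_eq_zero] at b
    exact b
  · have e := VI_val hb c
    rw [bk_val] at e ⊢
    simp only [map_add, DS.mul, tw, d0_gg, DS.d_ofNat, val_add, val_mul, val_zero] at e ⊢
    linear_combination ((1 : S3).1 z + (gg γ ^ 2).1 z) * e

end Pool.Agent.MP_ed9623_an.S64
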