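import Pool.Agent.MP_ed9623_an.S64.SpecG

/-! A simply characteristic boundary is straight. -/

open Filter Topology Set
open scoped ContDiff

namespace Pool.Agent.MP_ed9623_an.S64

open H64

namespace GHC

variable {n : ℝ} {α ψ : S3} {O Z : Set PP} {p : PP} {γ : SA ℝ} {f k c P : S3} {t : ℝ}

/-- No zero on the curve near `p`. -/
def NV (γ : SA ℝ) (p : PP) (c : S3) : Prop :=
  ∀ᶠ x in 𝓝 p, x.2 = γ.1 x.1 → ∀ t, c.1 (t, x) ≠ 0

theorem NV.cancel (h : NV γ p c) (a : c * f ∈ TI γ p) : f ∈ TI γ p :=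
  mem_TI.2 ((h.and (mem_TI.1 a)).mono fun _ b e t => (mul_eq_zero.1 (b.2 e t)).resolve_left (b.1 e t))

theorem ev_t (h : f.1 (t, p) ≠ 0) : ∀ᶠ x in 𝓝 p, f.1 (t, x) ≠ 0 :=
  ((Continuous.prodMk_right t).tendsto p).eventually (ev_ne h)

theorem nv_ip (hn : 0 < n) (s : Sn n f ∈ TI γ p) (h : f.1 (t, p) ≠ 0) : NV γ p (DS.ip n f f) :=
  ((mem_TI.1 s).and (ev_t h)).mono fun _ a e r =>
    (ip_const (a.1 e) (a.1 e) r t).trans_ne (ip_pos hn a.2).ne'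

theorem bk_l (h : f ∈ TI γ p) (k : S3) : DS.bk f k ∈ TI γ p :=
  sub_mem (Ideal.mul_mem_right _ _ h) (Ideal.mul_mem_right _ _ (TI_d0 h))

theorem bk_r (h : k ∈ TI γ p) (f : S3) : DS.bk f k ∈ TI γ p :=
  sub_mem (Ideal.mul_mem_left _ _ (TI_d0 h)) (Ideal.mul_mem_left _ _ h)

theorem bk_sw (h : DS.bk f k ∈ TI γ p) : DS.bk k f ∈ TI γ p := by
  convert neg_mem h using 1
  simp only [DR.bk]; ring

theorem par (h : NV γ p (DS.ip n P P)) (a : DS.bk P f ∈ TI γ p) (b : DS.bk P k ∈ TI γ p) :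
    DS.bk f k ∈ TI γ p := h.cancel (by
  convert sub_mem (Ideal.mul_mem_left _ (n • (P * f) + DS.d 0 P * DS.d 0 f) b)
    (Ideal.mul_mem_left _ (n • (P * k) + DS.d 0 P * DS.d 0 k) a) using 1
  simp only [DR.bk, DR.ip, Algebra.smul_def]; ring)

theorem sn_d (h : Loc n α ψ O Z) (hl : Low Z p γ) (a : p ∈ O) {j : Fin 3} (hj : j ≠ 0) :
    Sn n (DS.d j ψ) ∈ LI γ p := h.yy_li hl a hj

theorem sn_P (h : Loc n α ψ O Z) (hl : Low Z p γ) (a : p ∈ O) :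
    Sn n (DS.XX (gg γ) ψ) ∈ TI γ p := by
  rw [DR.XX, Sn_add, Sn_mul (d0_gg γ)]
  exact LI_TI (add_mem (sn_d h hl a (by decide)) (Ideal.mul_mem_left _ _ (sn_d h hl a (by decide))))

theorem sn_Q (h : Loc n α ψ O Z) (hl : Low Z p γ) (a : p ∈ O) :
    Sn n (DS.QQ ψ (gg γ)) ∈ TI γ p := by
  rw [← X_d2, Sn_X (d0_gg γ)]
  exact LI_TI (add_mem (LI_d (sn_d h hl a (by decide)) 1)
    (Ideal.mul_mem_left _ _ (LI_d (sn_d h hl a (by decide)) 2)))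

/-- The first relation. -/
theorem first (hF : FTsS) (hN : NoUS) (hW : W1S) (h : Loc n α ψ O Z) (hc : Crv Z p γ) (a : p ∈ O)
    (hA : DS.AA ψ (gg γ) ∈ TI γ p) (hQ : (DS.QQ ψ (gg γ)).1 (t, p) ≠ 0)
    (hg : NV γ p (gg (D 1 γ))) (hP : NV γ p (DS.ip n (DS.XX (gg γ) ψ) (DS.XX (gg γ) ψ))) :
    DS.bk (DS.XX (gg γ) ψ) (DS.d 2 ψ) ∈ TI γ p := by
  refine mem_TI.2 ?_
  filter_upwards [hc.ev, h.oO.mem_nhds a, TI_ev hA, ev_t hQ, hg, hP, TI_ev (hW n α ψ O Z p γ t h hc a hA hQ),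
    mem_TI.1 (sn_P h hc.1 a), mem_TI.1 (LI_TI (sn_d h hc.1 a (j := 2) (by decide)))]
    with x c o A Q g P W s1 s2 e r
  rw [bk_const (s1 e) (s2 e) r t]
  obtain ⟨β, hβ⟩ : ∃ β : ℝ, ((1 + gg γ ^ 2) * DS.AA (DS.d 2 ψ) (gg γ)
      + 4 * gg γ * gg (D 1 γ) * DS.QQ ψ (gg γ)).1 (t, x) = β * (DS.QQ ψ (gg γ)).1 (t, x) :=
    ⟨_, (div_mul_cancel₀ _ Q).symm⟩
  have R := not_not.1 fun m => hN n α ψ O Z x γ h (c e).1 o (c e).nm t
    (hF n ψ γ (t, x) β _ _ _ _ e rfl rfl rfl rfl (TI_VI A t) Q (TI_VI W t) hβ (P e t) m)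
  have R0 := not_not.1 fun m => (ip_pos h.n0 m).ne' R
  rw [ip_val, R0, mul_zero, mul_zero, zero_add, mul_self_eq_zero] at R
  have d : DS.d 0 (2 * (1 + gg γ ^ 2) * gg (D 1 γ) * DS.d 2 ψ)
      = 2 * (1 + gg γ ^ 2) * gg (D 1 γ) * DS.d 0 (DS.d 2 ψ) := by
    simp only [two_mul, pow_two, add_mul, one_mul, map_add, DS.mul, d0_gg, zero_mul, mul_zero,
      zero_add]
  rw [map_sub, map_smul, d] at R
  simp only [val_sub, val_smul, val_mul, val_add, val_pow, val_one, val_ofNat] at R R0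
  have w : 2 * (1 + (gg γ).1 (t, x) ^ 2) * (gg (D 1 γ)).1 (t, x) ≠ 0 :=
    mul_ne_zero (by positivity) (g e t)
  refine (mul_eq_zero.1 ?_).resolve_left w
  rw [bk_val]
  linear_combination (DS.d 0 (DS.XX (gg γ) ψ)).1 (t, x) * R0 - (DS.XX (gg γ) ψ).1 (t, x) * R

theorem step (hA : DS.AA ψ (gg γ) ∈ TI γ p) (b : DS.bk (DS.XX (gg γ) ψ) f ∈ TI γ p)
    (b' : DS.bk (DS.d 2 ψ) f ∈ TI γ p) :
    DS.bk (DS.XX (gg γ) ψ) (DS.XX (gg γ) f) ∈ TI γ p := by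
  have e := TI_X b
  rw [X_bk (d0_gg γ), X_X] at e
  convert sub_mem (sub_mem e (bk_l hA f)) (Ideal.mul_mem_left _ (gg (D 1 γ)) b') using 1
  simp only [DR.bk, map_add, DS.mul, d0_gg]; ring

theorem main (hF : FTsS) (hN : NoUS) (hW : W1S) (h : Loc n α ψ O Z) (hc : Crv Z p γ) (a : p ∈ O)
    (hA : DS.AA ψ (gg γ) ∈ TI γ p) (hQ : (DS.QQ ψ (gg γ)).1 (t, p) ≠ 0)
    (hg : NV γ p (gg (D 1 γ))) {s : ℝ} (hP : (DS.XX (gg γ) ψ).1 (s, p) ≠ 0) : False := by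
  have nP := nv_ip h.n0 (sn_P h hc.1 a) hP
  have nQ := nv_ip h.n0 (sn_Q h hc.1 a) hQ
  have b1 := first hF hN hW h hc a hA hQ hg nP
  have b2 := step hA b1 (par nP b1 b1)
  have b3 := step hA b2 (par nP b1 b2)
  rw [X_d2] at b2 b3
  rw [X_Q] at b3
  have b4 := par nQ (bk_sw b2) (hW n α ψ O Z p γ t h hc a hA hQ)
  have b5 : DS.bk (DS.XX (gg γ) ψ) (DS.d 2 (DS.d 2 ψ)) ∈ TI γ p := hg.cancel (by
    convert sub_mem b3 b4 using 1
    simp only [DR.bk, map_add, DS.mul, d0_gg]; ring)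
  have b6 : DS.bk (DS.XX (gg γ) ψ) (DS.lap ψ) ∈ TI γ p := by
    convert add_mem (sub_mem (Ideal.mul_mem_left _ (1 + gg γ ^ 2) b5)
      (Ideal.mul_mem_left _ (2 * gg γ) b2)) (bk_r hA (DS.XX (gg γ) ψ)) using 1
    simp only [DR.bk, DR.lap, DR.AA, DR.QQ, two_mul, pow_two, add_mul, map_add, DS.mul, d0_gg]
    ring
  have b7 := step hA b6 (par nP b1 b6)
  have e : DS.d 0 (DS.XX (gg γ) ψ) - DS.XX (gg γ) (DS.lap ψ) ∈ TI γ p := by
    convert LI_TI (add_mem (h.ht_li hc.1 a (j := 1) (by decide))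
      (Ideal.mul_mem_left _ (gg γ) (h.ht_li hc.1 a (j := 2) (by decide)))) using 1
    simp only [DR.XX, DR.ht, DR.lap, map_add, DS.mul, d0_gg, DS.c21]
    ring
  have b8 : DS.ip n (DS.XX (gg γ) ψ) (DS.XX (gg γ) ψ) ∈ TI γ p := by
    convert sub_mem (sub_mem (Ideal.mul_mem_left _ (DS.XX (gg γ) ψ) (sn_P h hc.1 a)) b7)
      (bk_r e (DS.XX (gg γ) ψ)) using 1
    simp only [DR.bk, DR.ip, Sn, map_sub, Algebra.smul_def]
    ring
  exact (ip_pos h.n0 hP).ne' (TI_val b8 hc.1.1 s)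

end GHC

open GHC in
theorem rowHC : OfHC := by
  intro hF hN hW n α ψ O Z p γ t h hc a hA hQ
  by_contra m
  have hg : ∀ᶠ x in 𝓝 p, ∀ s, (gg (D 1 γ)).1 (s, x) ≠ 0 :=
    ((continuous_fst.tendsto p).eventually (ev_ne m)).mono fun _ b _ => b
  have hP : DS.XX (gg γ) ψ ∉ TI γ p := fun b => by
    have e := TI_X b
    rw [X_X] at e
    have e' : DS.d 2 ψ ∈ TI γ p :=
      NV.cancel (hg.mono fun _ b _ => b) (by simpa using sub_mem e hA)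
    exact hQ (TI_val (TI_X e') hc.1.1 t)
  refine hP (mem_TI.2 ?_)
  filter_upwards [hc.ev, h.oO.mem_nhds a, TI_ev hA, ev_t hQ, hg.eventually_nhds]
    with x c o A Q g e s
  by_contra P
  exact main hF hN hW h (c e) o A Q (g.mono fun _ b _ => b) P

end Pool.Agent.MP_ed9623_an.S64
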