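import Pool.Agent.MP_ed9623_an.S64.SpecG

/-! The relations on a straight boundary. -/

open Filter Topology Set
open scoped ContDiff

namespace Pool.Agent.MP_ed9623_an.S64

open H64

namespace GHD

theorem gD_cst (c : ℝ) : gg (D 1 (cst c)) = 0 := by
  have : D 1 (cst c) = cst 0 := SA_ext fun s => deriv_const _ c
  rw [this, gg_cst]

theorem AA_cst (c : ℝ) (f : S3) : DS.AA f (gg (cst c)) = DS.d 1 (DS.d 1 f) := by
  rw [gg_cst, DR.AA]; ring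

theorem QQ_cst (c : ℝ) (f : S3) : DS.QQ f (gg (cst c)) = DS.d 1 (DS.d 2 f) := by
  rw [gg_cst, DR.QQ]; ring

theorem XX_cst (c : ℝ) (f : S3) : DS.XX (gg (cst c)) f = DS.d 1 f := by
  rw [gg_cst, DR.XX]; ring

theorem BB_one (f : S3) : DS.BB f (1, 0) (1, 0) = DS.d 1 (DS.d 1 f) := by
  simp [DR.BB]

/-- The data at a point of the line. -/
structure Nr (n : ℝ) (α ψ : S3) (O Z : Set PP) (c t : ℝ) (x : PP) : Prop where
  loc : Loc n α ψ O Z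
  crv : Crv Z x (cst c)
  mo : x ∈ O
  a : DS.d 1 (DS.d 1 ψ) ∈ TI (cst c) x
  q : (DS.d 1 (DS.d 2 ψ)).1 (t, x) ≠ 0
  w : DS.bk (DS.d 1 (DS.d 2 ψ)) (DS.d 1 (DS.d 1 (DS.d 2 ψ))) ∈ TI (cst c) x

variable {n : ℝ} {α ψ : S3} {O Z : Set PP} {c t : ℝ} {x : PP}

theorem Nr.on (h : Nr n α ψ O Z c t x) : x.2 = (cst c).1 x.1 := h.crv.1.1

theorem Nr.ev (h : Nr n α ψ O Z c t x) :
    ∀ᶠ y in 𝓝 x, y.2 = (cst c).1 y.1 → Nr n α ψ O Z c t y := by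
  filter_upwards [h.crv.ev, h.loc.oO.mem_nhds h.mo, TI_ev h.a, TI_ev h.w,
    ((Continuous.prodMk_right t).tendsto x).eventually (ev_ne h.q)] with y a b d e f g
  exact ⟨h.loc, a g, b, d, f, e⟩

theorem Nr.fl (h : Nr n α ψ O Z c t x) {j : Fin 3} (hj : j ≠ 0) (s : ℝ) :
    Sn n (DS.d j ψ) ∈ FL (s, x) := h.loc.yy_fl (z := (s, x)) hj h.mo h.crv.1.cl

theorem Nr.sP (h : Nr n α ψ O Z c t x) (s : ℝ) : (Sn n (DS.d 1 ψ)).1 (s, x) = 0 :=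
  FL_val (h.fl (by decide) s)

theorem Nr.sh (h : Nr n α ψ O Z c t x) (s : ℝ) : (Sn n (DS.d 2 ψ)).1 (s, x) = 0 :=
  FL_val (h.fl (by decide) s)

theorem Nr.sQ (h : Nr n α ψ O Z c t x) (s : ℝ) : (Sn n (DS.d 1 (DS.d 2 ψ))).1 (s, x) = 0 := by
  rw [Sn_d]; exact FL_val (FL_d (h.fl (by decide) s) 1)

theorem Nr.sE (h : Nr n α ψ O Z c t x) (s : ℝ) : (Sn n (DS.d 2 (DS.d 2 ψ))).1 (s, x) = 0 := by
  rw [Sn_d]; exact FL_val (FL_d (h.fl (by decide) s) 2)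

theorem Nr.sl (h : Nr n α ψ O Z c t x) (s : ℝ) :
    (Sn n (DS.d 1 (DS.d 1 (DS.d 2 ψ)))).1 (s, x) = 0 := by
  rw [Sn_d, Sn_d]; exact FL_val (FL_d (FL_d (h.fl (by decide) s) 1) 1)

theorem Nr.nu (hN : NoUS) (h : Nr n α ψ O Z c t x) (s : ℝ) : ¬ UC n ψ (cst c) (s, x) :=
  hN n α ψ O Z x _ h.loc h.crv.1 h.mo h.crv.nm s

/-- At a point where the third derivative is not identically zero it is nonzero at time `t`. -/
theorem Nr.l_ne (h : Nr n α ψ O Z c t x) {s : ℝ}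
    (hs : (DS.d 1 (DS.d 1 (DS.d 2 ψ))).1 (s, x) ≠ 0) :
    (DS.d 1 (DS.d 1 (DS.d 2 ψ))).1 (t, x) ≠ 0 := fun a => by
  refine hs (sin_zero h.loc.n0 h.sl (s := t) ?_ s)
  have b := TI_val h.w h.on t
  rw [bk_val, a, mul_zero, sub_zero] at b
  rw [ip_val, a, (mul_eq_zero.1 b).resolve_left h.q]
  simp

/-- Density of the good points. -/
theorem dense (hZ : ZWS) (h : Nr n α ψ O Z c t x) {f : S3}
    (hf : ∀ᶠ y in 𝓝 x, Nr n α ψ O Z c t y → (DS.d 1 (DS.d 1 (DS.d 2 ψ))).1 (t, y) ≠ 0 →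
      ∀ s, f.1 (s, y) = 0) : f ∈ TI (cst c) x := by
  refine mem_TI.2 ?_
  filter_upwards [h.ev, hf.eventually_nhds] with y a b d s
  by_contra e
  have k := a d
  have m : DS.d 1 (DS.d 1 (DS.d 2 ψ)) ∈ TI (cst c) y := by
    refine mem_TI.2 ?_
    filter_upwards [k.ev, b, ((Continuous.prodMk_right s).tendsto y).eventually (ev_ne e)]
      with u a' b' e' d' r
    by_contra g
    exact e' (b' (a' d') ((a' d').l_ne g) s)
  refine hZ n α ψ O Z y (cst c) (1, 0) s k.loc k.crv.1 k.mo (by simp) ?_ ?_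
  · rw [BB_one]; exact TI_VI k.a s
  · rw [BB_one, DS.c21, DS.c21]; exact TI_VI m s

/-- The tangential derivative vanishes at a good point. -/
theorem tan_zero (hF : FTsS) (hN : NoUS) (h : Nr n α ψ O Z c t x)
    (hl : (DS.d 1 (DS.d 1 (DS.d 2 ψ))).1 (t, x) ≠ 0) (s : ℝ) : (DS.d 1 ψ).1 (s, x) = 0 := by
  refine sin_zero h.loc.n0 h.sP (s := t) ?_ s
  by_contra a
  have hq := h.q
  refine h.nu hN t (hF n ψ (cst c) (t, x)
    ((DS.d 1 (DS.d 1 (DS.d 2 ψ))).1 (t, x) / (DS.d 1 (DS.d 2 ψ)).1 (t, x)) _ _ _ _ h.on rfl rfl rfl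
    rfl ?_ ?_ ?_ ?_ ?_ ?_)
  · rw [AA_cst]; exact TI_VI h.a t
  · rw [QQ_cst]; exact hq
  · rw [QQ_cst, AA_cst]; exact TI_VI h.w t
  · rw [QQ_cst, AA_cst, gD_cst, gg_cst]
    simp only [val_add, val_mul, val_pow, val_one, val_zero]
    field_simp
    ring
  · rw [XX_cst]; exact a
  · rw [XX_cst, gD_cst, mul_zero, zero_mul, sub_zero, ip_val, map_smul]
    rw [ip_val] at a
    simp only [val_smul]
    intro b
    apply a
    have : ((DS.d 1 (DS.d 1 (DS.d 2 ψ))).1 (t, x) / (DS.d 1 (DS.d 2 ψ)).1 (t, x)) ^ 2 ≠ 0 :=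
      pow_ne_zero _ (div_ne_zero hl hq)
    refine (mul_eq_zero.1 ?_).resolve_left this
    linear_combination b

/-- The second Wronskian vanishes at a good point. -/
theorem wr_zero (hU : UE2S) (hN : NoUS) (h : Nr n α ψ O Z c t x)
    (hl : (DS.d 1 (DS.d 1 (DS.d 2 ψ))).1 (t, x) ≠ 0) (hP : DS.d 1 ψ ∈ TI (cst c) x) (s : ℝ) :
    (DS.bk (DS.d 1 (DS.d 2 ψ)) (DS.d 2 (DS.d 2 ψ))).1 (s, x) = 0 := by
  rw [bk_const h.sQ h.sE s t]
  by_contra a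
  exact h.nu hN t (hU n ψ c (t, x) _ _ _ _ h.on rfl rfl rfl rfl h.q hl (TI_VI hP t) (TI_VI h.w t)
    (Or.inl a))

/-- The relation at a good point. -/
theorem rel_zero (hU : UE2S) (hN : NoUS) (h : Nr n α ψ O Z c t x)
    (hl : (DS.d 1 (DS.d 1 (DS.d 2 ψ))).1 (t, x) ≠ 0) (hP : DS.d 1 ψ ∈ TI (cst c) x)
    (hE : DS.bk (DS.d 1 (DS.d 2 ψ)) (DS.d 2 (DS.d 2 ψ)) ∈ TI (cst c) x) (s : ℝ) :
    (rel n ψ).1 (s, x) = 0 := by
  have e : ∀ᶠ r in 𝓝 t, (4 * DS.d 1 (DS.d 2 ψ) * DS.ip n (DS.d 1 (DS.d 2 ψ)) (DS.d 1 (DS.d 2 ψ))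
      - 3 * DS.d 1 (DS.d 1 (DS.d 2 ψ)) * DS.ip n (DS.d 1 (DS.d 2 ψ)) (DS.d 2 ψ)).1 (r, x) = 0 := by
    filter_upwards [((Continuous.prodMk_left x).tendsto t).eventually (ev_ne h.q),
      ((Continuous.prodMk_left x).tendsto t).eventually (ev_ne hl)] with r a b
    by_contra d
    exact h.nu hN r (hU n ψ c (r, x) _ _ _ _ h.on rfl rfl rfl rfl a b (TI_VI hP r) (TI_VI h.w r)
      (Or.inr ⟨TI_VI hE r, d⟩))
  have e0 := e.self_of_nhds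
  have e1 := (hd_time _ t x).unique ((hasDerivAt_const _ _).congr_of_eventuallyEq e)
  have sQ := h.sQ t
  have sh := h.sh t
  simp only [rel, val_sub, val_mul, val_pow, val_ofNat]
  rw [ip_const h.sl h.sQ s t, ip_const h.sQ h.sh s t, ip_const h.sQ h.sQ s t]
  generalize DS.d 1 (DS.d 1 (DS.d 2 ψ)) = l at *
  generalize DS.d 1 (DS.d 2 ψ) = Q at *
  generalize DS.d 2 ψ = H at *
  simp only [Sn, DR.ip, map_add, map_sub, map_smul, DS.mul, DS.d_ofNat, val_add, val_sub, val_mul,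
    val_smul, val_ofNat, val_zero] at e0 e1 sQ sh ⊢
  linear_combination (-n * Q.1 (t, x)) * e0 - (DS.d 0 Q).1 (t, x) * e1
    + (DS.d 0 Q).1 (t, x) * (8 * Q.1 (t, x) * (DS.d 0 Q).1 (t, x)
      - 3 * l.1 (t, x) * (DS.d 0 H).1 (t, x)) * sQ
    - 3 * (DS.d 0 Q).1 (t, x) * l.1 (t, x) * (DS.d 0 Q).1 (t, x) * sh

end GHD

open GHD in
theorem rowHD : OfHD := by
  intro hF hU hN hW hZ n α ψ O Z p t hL hC hO hA hQ
  have h : Nr n α ψ O Z p.2 t p := by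
    refine ⟨hL, hC, hO, hA, hQ, ?_⟩
    have := hW n α ψ O Z p _ t hL hC hO (by rw [AA_cst]; exact hA) (by rw [QQ_cst]; exact hQ)
    rwa [QQ_cst, AA_cst] at this
  have hP : DS.d 1 ψ ∈ TI (cst p.2) p :=
    dense hZ h (Eventually.of_forall fun y a b => tan_zero hF hN a b)
  have hE : DS.bk (DS.d 1 (DS.d 2 ψ)) (DS.d 2 (DS.d 2 ψ)) ∈ TI (cst p.2) p :=
    dense hZ h ((TI_ev hP).mono fun y d a b => wr_zero hU hN a b d)
  exact ⟨hC, hP, ⟨t, hQ⟩,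
    dense hZ h (((TI_ev hP).and (TI_ev hE)).mono fun y d a b => rel_zero hU hN a b d.1 d.2)⟩

end Pool.Agent.MP_ed9623_an.S64
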