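import Pool.Agent.MP_ed9623_an.S64.SpecG

/-! Normal derivatives of the pencil on a straight line. -/

open Filter Topology Set

namespace Pool.Agent.MP_ed9623_an.S64

open H64

namespace GJet

theorem alg2 {K : Type} [CommRing K] {Q Qt l lt s : K} (E Et : K) (b0 : Q * lt - Qt * l = 0)
    (s1 : l + 2 * s * Q = 0) : 2 * Q ^ 2 * (2 * s * (E * lt - Et * l) - 2 * s ^ 2 * (Q * Et - Qt * E))
      - l ^ 2 * (Q * Et - Qt * E) = 0 := by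
  linear_combination 4 * s * Q * E * b0 - (Q * Et - Qt * E) * (l + 2 * s * Q) * s1

theorem alg3 {K : Type} [CommRing K] {Q Qt l lt s E Et m mt k kt : K} (N h ht u : K)
    (b0 : Q * lt - Qt * l = 0) (b1 : Q * mt - Qt * m = 0)
    (b2 : l * mt - lt * m + (Q * kt - Qt * k) = 0) (be : Q * Et - Qt * E = 0)
    (s1 : l + 2 * s * Q = 0) :
    2 * Q ^ 2 * (3 * ((Qt - m) * lt - (-(N * Q) - mt) * l) + (Q * (-(N * l) - kt) - Qt * (lt - k))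
      + 3 * u * (E * lt - Et * l) + 6 * s * ((ht - l) * lt - (-(N * h) - lt) * l)
      - 6 * s * u * (Q * Et - Qt * E) - 6 * s ^ 2 * (Q * (-(N * h) - lt) - Qt * (ht - l)))
      - l * (4 * Q * (N * (Q * Q) + Qt * Qt) - 3 * l * (N * (Q * h) + Qt * ht)) = 0 := by
  grind

variable {R : Type} [CommRing R] [Algebra ℝ R] (D : DR R)

theorem rho_eq (ψ σ : R) : D.QQ ψ σ * D.AA (D.d 0 ψ) σ
    = D.bk (D.d 1 (D.d 2 ψ)) (D.d 1 (D.d 1 ψ)) + σ * D.bk (D.d 2 (D.d 2 ψ)) (D.d 1 (D.d 1 ψ))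
      - σ * σ * D.bk (D.d 1 (D.d 2 ψ)) (D.d 2 (D.d 2 ψ)) + D.QQ (D.d 0 ψ) σ * D.AA ψ σ := by
  simp only [DR.QQ, DR.AA, DR.bk, D.c10, D.c20]
  ring

theorem core {I J : Ideal R} (hJI : J ≤ I) (hJ : ∀ i, ∀ f ∈ J, D.d i f ∈ J)
    (h0 : ∀ f ∈ I, D.d 0 f ∈ I) (h1 : ∀ f ∈ I, D.d 1 f ∈ I) {n : ℝ} {ψ σ : R} (hσ : σ ∈ I)
    (hA : D.AA ψ σ ∈ J) (t1 : D.ht (D.d 1 ψ) ∈ J) (t2 : D.ht (D.d 2 ψ) ∈ J)
    (y2 : D.yy n ψ 2 ∈ J) (p1 : D.d 1 ψ ∈ I)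
    (b : D.bk (D.d 1 (D.d 2 ψ)) (D.d 1 (D.d 1 (D.d 2 ψ))) ∈ I) {h Q l E ρ : R} (eh : h = D.d 2 ψ)
    (eQ : Q = D.d 1 h) (el : l = D.d 1 Q) (eE : E = D.d 2 h)
    (eρ : ρ = D.QQ ψ σ * D.AA (D.d 0 ψ) σ) : ρ ∈ I ∧ D.d 2 ρ ∈ I ∧
    2 * Q ^ 2 * D.d 2 (D.d 2 ρ) - l ^ 2 * D.bk Q E ∈ I ∧
    (D.bk Q E ∈ I → 2 * Q ^ 2 * D.d 2 (D.d 2 (D.d 2 ρ))
      - l * (4 * Q * D.ip n Q Q - 3 * l * D.ip n Q h) ∈ I) := by
  obtain ⟨ρ', e'⟩ : ∃ ρ', ρ' = D.bk (D.d 1 (D.d 2 ψ)) (D.d 1 (D.d 1 ψ))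
      + σ * D.bk (D.d 2 (D.d 2 ψ)) (D.d 1 (D.d 1 ψ))
      - σ * σ * D.bk (D.d 1 (D.d 2 ψ)) (D.d 2 (D.d 2 ψ)) := ⟨_, rfl⟩
  have r0 : ρ - ρ' ∈ J := by
    rw [eρ, rho_eq, e', add_sub_cancel_left]
    exact J.mul_mem_left _ hA
  have r1 := hJ 2 _ r0
  have r2 := hJ 2 _ r1
  have r3 := hJ 2 _ r2
  have z : ∀ {f}, f ∈ I ↔ Ideal.Quotient.mk I f = 0 := Ideal.Quotient.eq_zero_iff_mem.symm
  have p20 := h1 _ p1
  have p12 : D.d 1 (D.d 2 (D.d 2 ψ)) ∈ I := by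
    have := I.sub_mem (I.sub_mem (h0 _ p1) (h1 _ p20)) (hJI t1)
    simp only [DR.ht, DR.lap, D.c21] at this
    convert this using 1
    ring
  have a1 := z.1 hσ
  have a2 := z.1 p20
  have a3 := z.1 (h0 _ p20)
  have a4 := z.1 p12
  have a5 := z.1 (h0 _ p12)
  have a6 := z.1 (h1 _ p12)
  have a7 := z.1 (h0 _ (h1 _ p12))
  have s1 := z.1 (hJI (hJ 2 _ hA))
  have b0 := z.1 b
  have b1 := z.1 (h1 _ b)
  have b2 := z.1 (h1 _ (h1 _ b))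
  have u0 := z.1 (hJI t2)
  have u1 := z.1 (hJI (hJ 1 _ t2))
  have u2 := z.1 (hJI (hJ 1 _ (hJ 1 _ t2)))
  have v0 := z.1 (hJI (hJ 0 _ t2))
  have v1 := z.1 (hJI (hJ 0 _ (hJ 1 _ t2)))
  have v2 := z.1 (hJI (hJ 0 _ (hJ 1 _ (hJ 1 _ t2))))
  have w0 := z.1 (hJI y2)
  have w1 := z.1 (hJI (hJ 1 _ y2))
  have w2 := z.1 (hJI (hJ 1 _ (hJ 1 _ y2)))
  have q0 := z.1 (hJI r0)
  have q1 := z.1 (hJI r1)
  have q2 := z.1 (hJI r2)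
  have q3 := z.1 (hJI r3)
  clear r0 r1 r2 r3
  simp only [map_sub, sub_eq_zero] at q0 q1 q2 q3
  subst el eE eQ eh
  simp only [z, map_sub, map_mul, q0, q1, q2, q3, e']
  simp only [DR.AA, DR.bk, DR.ht, DR.lap, DR.yy, DR.ip, Algebra.smul_def, map_add, map_sub, map_mul,
    map_pow, map_ofNat, D.mul, D.d_sq, D.d_ofNat, D.d_alg, D.c10, D.c20, D.c21, a1, a2, a3, a4, a5,
    a6, a7, mul_zero, zero_mul, add_zero, zero_add, sub_zero, ne_eq, OfNat.ofNat_ne_zero,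
    not_false_eq_true, zero_pow] at *
  refine ⟨trivial, b0, ?_, fun be => ?_⟩
  · linear_combination alg2 (Ideal.Quotient.mk I (D.d 2 (D.d 2 ψ)))
      (Ideal.Quotient.mk I (D.d 0 (D.d 2 (D.d 2 ψ)))) b0 s1
  rw [sub_eq_zero, ← sub_eq_iff_eq_add', eq_comm] at u0 u1 u2 v0 v1 v2
  rw [add_eq_zero_iff_eq_neg] at w0 w1 w2
  rw [u0, u1, u2, v0, v1, v2, w0, w1, w2]
  linear_combination alg3 (Ideal.Quotient.mk I (algebraMap ℝ R n))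
    (Ideal.Quotient.mk I (D.d 2 ψ)) (Ideal.Quotient.mk I (D.d 0 (D.d 2 ψ))) (Ideal.Quotient.mk I (D.d 2 (D.d 2 σ))) b0
    (m := Ideal.Quotient.mk I (D.d 1 (D.d 1 (D.d 1 (D.d 2 ψ)))))
    (mt := Ideal.Quotient.mk I (D.d 0 (D.d 1 (D.d 1 (D.d 1 (D.d 2 ψ))))))
    (k := Ideal.Quotient.mk I (D.d 1 (D.d 1 (D.d 1 (D.d 1 (D.d 2 ψ))))))
    (kt := Ideal.Quotient.mk I (D.d 0 (D.d 1 (D.d 1 (D.d 1 (D.d 1 (D.d 2 ψ)))))))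
    (by linear_combination b1) (by linear_combination b2) be s1

end GJet

theorem rowJet : OfJet := fun n α ψ c U z σ h Q l E ρ a hz r eh eQ el eE eρ _ p b => by
  refine GJet.core DS (J := LJ (cst c) z) (fun _ => LJ_VI) (fun i _ m => LJ_d m i)
    (fun _ => VI_d0) (fun f m => ?_) ?_ (NI_LJ r.2) (a.ht_lj hz (by decide))
    (a.ht_lj hz (by decide)) (a.yy_lj hz (by decide)) p (by rwa [el, eQ, eh] at b) eh eQ el eE eρ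
  · simpa [DR.XX, gg_cst] using VI_X m
  · simpa [gg_cst] using r.1

end Pool.Agent.MP_ed9623_an.S64
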