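import Pool.Agent.MP_ed9623_an.S64.SpecG

/-! The calculus above a point of a characteristic curve. -/

open Filter Topology Set

namespace Pool.Agent.MP_ed9623_an.S64

open H64

theorem rowMcE : OfMcE := by
  intro hL hDiv hMc n α ψ γ U z σ W hA hz hc hR hQ hW
  obtain ⟨q, hq, -⟩ := hDiv γ z 1 (σ - gg γ) hc fun i hi => by
    obtain rfl : i = 0 := by omega
    exact hR.1
  obtain ⟨Qi, hQi⟩ := exists_inv hQ
  have hW' : W ∩ (U ∩ ({y | (DS.AA ψ σ).1 y = 0} ∩ ({y | (σ - gg γ - dd γ ^ 1 * q).1 y = 0} ∩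
      {y | (DS.QQ ψ σ * Qi - 1).1 y = 0}))) ∈ 𝓝 z :=
    inter_mem hW (inter_mem (hA.oU.mem_nhds hz) (inter_mem hR.2 (inter_mem hq hQi)))
  obtain ⟨R, _, _, D, X, L, res, hd, hLA, hLd, h0, hF, hev⟩ := hL γ z _ hc hW'
  have ry : ∀ j, res (DS.yy n ψ j) = D.yy n (res ψ) j := fun j => by
    simp only [DR.yy, map_add, map_smul, hd]
  have rW : ∀ j, res (DS.eW α ψ j) = D.eW (res α) (res ψ) j := fun j => by
    simp only [DR.eW, DR.ht, DR.lap, DR.HH, DR.br, map_add, map_sub, map_mul, hd]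
  have rA : res (DS.eA α ψ) = D.eA (res α) (res ψ) := by
    simp only [DR.eA, DR.ht, DR.lap, DR.br, map_add, map_sub, map_mul, hd]
  have rAA : res (DS.AA ψ σ) = D.AA (res ψ) (res σ) := by
    simp only [DR.AA, map_add, map_mul, map_pow, map_ofNat, hd]
  have rQQ : res (DS.QQ ψ σ) = D.QQ (res ψ) (res σ) := by
    simp only [DR.QQ, map_add, map_mul, hd]
  have rX : res (DS.XX σ (dd γ)) = D.XX (res σ) (res (dd γ)) := by
    simp only [DR.XX, map_add, map_mul, hd]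
  have mA : ∀ f, res f ∈ L.A := fun f => by rw [hLA]; exact ⟨f, rfl⟩
  obtain ⟨M, hMA, hMd, hMC⟩ := hMc L n (res α) (res ψ) (mA _) (mA _)
    (hF α fun y a => hA.za y a.2.1)
    (fun j hj => ry j ▸ hF _ fun y a => hA.zy j hj y a.2.1)
    (fun j hj => rW j ▸ h0 _ fun y a => hA.eW j hj y a.2.1)
    (rA ▸ h0 _ fun y a => hA.eA y a.2.1)
  have mM : ∀ f, res f ∈ M.A := fun f => hMA ▸ mA f
  refine ⟨R, _, _, D, res, M, res q, res Qi, hd, hMA.trans hLA, hMd.trans hLd,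
    fun f a => h0 f fun y b => a y b.1,
    ⟨mM _, mM _, mM _, mM _, rAA ▸ h0 _ fun y a => a.2.2.1, ?_, ?_, ?_⟩, fun hC => ?_⟩
  · have e := h0 _ fun y a => a.2.2.2.1
    have e2 : DS.XX σ (dd γ) = σ - gg γ := by
      rw [DR.XX, d2_dd, ← d1_dd]; ring
    rw [hMd, hLd, ← rX, e2, ← map_mul, ← sub_eq_zero, ← map_sub, ← e, pow_one]
  · have e := h0 _ fun y a => a.2.2.2.2
    rw [map_sub, map_mul, map_one, rQQ] at e
    exact sub_eq_zero.1 e
  · have e := congrArg res (nsq_inv σ)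
    rwa [map_mul, map_add, map_pow, map_one] at e
  · obtain ⟨b, hb⟩ := hMC hC
    have e : α ∈ NI z := ((mem_LJ.1 (hA.lj hz hA.za)).and (hev α b hb)).mono fun _ a =>
      (le_or_gt _ _).elim a.1 a.2
    exact ⟨NI_d e 1, NI_d e 2⟩

end Pool.Agent.MP_ed9623_an.S64
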