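import Pool.Agent.MP_ed9623_an.S64.SpecG

/-! No unique continuation at a boundary point of the zone. -/

open Filter Topology Set
open scoped ContDiff

namespace Pool.Agent.MP_ed9623_an.S64

open H64

namespace GNoU

theorem cst_Ioo {f f' : ℝ → ℝ} {a b x y : ℝ} (h : ∀ s, HasDerivAt f (f' s) s)
    (h0 : ∀ s ∈ Ioo a b, f' s = 0) (hx : x ∈ Ioo a b) (hy : y ∈ Ioo a b) : f x = f y :=
  isOpen_Ioo.is_const_of_deriv_eq_zero isPreconnected_Ioo
    (fun s _ => (h s).differentiableAt.differentiableWithinAt)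
    (fun s hs => (h s).deriv.trans (h0 s hs)) hx hy

/-- The function minus its value at a base point. -/
noncomputable def sh (q : PP) (α : S3) : S3 :=
  α - pb (fun z : ST => ((z.1, q) : ST)) (contDiff_fst.prodMk contDiff_const) α

theorem sh_val (q : PP) (α : S3) (z : ST) : (sh q α).1 z = α.1 z - α.1 (z.1, q) := rfl

theorem d1_sh (q : PP) (α : S3) : DS.d 1 (sh q α) = DS.d 1 α := by
  rw [sh, map_sub, sub_eq_self]
  exact SA_ext fun z => (hd_x1 _ z.1 z.2.1 z.2.2).unique (hasDerivAt_const _ (α.1 (z.1, q)))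

theorem d2_sh (q : PP) (α : S3) : DS.d 2 (sh q α) = DS.d 2 α := by
  rw [sh, map_sub, sub_eq_self]
  exact SA_ext fun z => (hd_x2 _ z.1 z.2.1 z.2.2).unique (hasDerivAt_const _ (α.1 (z.1, q)))

theorem eW_sh (q : PP) (α ψ : S3) {j : Fin 3} (hj : j ≠ 0) :
    DS.eW (sh q α) ψ j = DS.eW α ψ j := by
  have : DS.d j (sh q α) = DS.d j α := by
    fin_cases j
    · exact absurd rfl hj
    · exact d1_sh q α
    · exact d2_sh q α
  simp only [DR.eW, DR.HH, DR.br, d1_sh, d2_sh, this]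

theorem eA_sh (q : PP) (α ψ : S3) : DS.eA (sh q α) ψ = DS.eA α ψ := by
  simp only [DR.eA, DR.lap, DR.br, d1_sh, d2_sh]

end GNoU

open GNoU in
theorem rowNoU : OfNoU := by
  intro n α ψ O Z p γ h hl a b t u
  obtain ⟨δ, hδ, k⟩ := Metric.eventually_nhds_iff.1 (hl.2.and (h.oO.mem_nhds a))
  obtain ⟨η, hη, m⟩ := Metric.eventually_nhds_iff.1
    ((Metric.tendsto_nhds.1 (γ.ct.tendsto p.1) (δ / 2) (by positivity)).and
      (Metric.ball_mem_nhds p.1 hδ))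
  rw [← hl.1] at m
  have k' : ∀ s ∈ Ioo (p.1 - η) (p.1 + η), ∀ y ∈ Ioo (p.2 - δ) (p.2 + δ),
      (y < γ.1 s → (s, y) ∈ Z) ∧ (s, y) ∈ O := fun s hs y hy =>
    k (y := (s, y)) (max_lt (m (y := s) (abs_sub_lt_iff.2 ⟨by linarith [hs.2], by linarith [hs.1]⟩)).2
      (abs_sub_lt_iff.2 ⟨by linarith [hy.2], by linarith [hy.1]⟩))
  have m' : ∀ s ∈ Ioo (p.1 - η) (p.1 + η), p.2 - δ / 2 < γ.1 s ∧ γ.1 s < p.2 + δ / 2 := fun s hs => by
    have := abs_sub_lt_iff.1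
      (m (y := s) (abs_sub_lt_iff.2 ⟨by linarith [hs.2], by linarith [hs.1]⟩)).1
    exact ⟨by linarith [this.2], by linarith [this.1]⟩
  have p1 : p.1 ∈ Ioo (p.1 - η) (p.1 + η) := ⟨by linarith, by linarith⟩
  have p2 : p.2 - δ / 2 ∈ Ioo (p.2 - δ) (p.2 + δ) := ⟨by linarith, by linarith⟩
  have za : ∀ z : ST, z.2.1 ∈ Ioo (p.1 - η) (p.1 + η) ∧ z.2.2 ∈ Ioo (p.2 - δ) (p.2 + δ) →
      z.2.2 < γ.1 z.2.1 → (sh (p.1, p.2 - δ / 2) α).1 z = 0 := fun z c d => by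
    rw [sh_val, sub_eq_zero]
    refine (cst_Ioo (a := p.2 - δ) (b := γ.1 z.2.1) (y := p.2 - δ / 2) (hd_x2 α z.1 z.2.1)
      (fun y e => ?_) ⟨c.2.1, d⟩ ⟨p2.1, (m' _ c.1).1⟩).trans
      (cst_Ioo (hd_x1 α z.1 · (p.2 - δ / 2)) (fun s e => ?_) c.1 p1)
    · have := k' _ c.1 y ⟨e.1, by linarith [e.2, (m' _ c.1).2]⟩
      exact h.za 2 (by decide) _ this.2 (this.1 e.2)
    · have := k' s e _ p2
      exact h.za 1 (by decide) _ this.2 (this.1 (m' s e).1)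
  obtain ⟨t', g⟩ := u (sh (p.1, p.2 - δ / 2) α)
    {z | z.2.1 ∈ Ioo (p.1 - η) (p.1 + η) ∧ z.2.2 ∈ Ioo (p.2 - δ) (p.2 + δ)}
    ⟨h.n0, (isOpen_Ioo.preimage (by fun_prop)).inter (isOpen_Ioo.preimage (by fun_prop)),
      fun j hj z c => by rw [eW_sh _ _ _ hj]; exact h.eW j hj z (k' _ c.1 _ c.2).2,
      fun z c => by rw [eA_sh]; exact h.eA z (k' _ c.1 _ c.2).2, za,
      fun j hj z c d => h.zy j hj z (k' _ c.1 _ c.2).2 ((k' _ c.1 _ c.2).1 d)⟩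
    ⟨p1, by linarith, by linarith⟩
  rw [GZ, d1_sh, d2_sh] at g
  exact b (h.max (t', p) a hl.cl g)

end Pool.Agent.MP_ed9623_an.S64
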