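import Pool.Agent.MP_ed9623_an.S64.SpecG

/-! A sum of squares is flat only if its terms are flat. -/

namespace Pool.Agent.MP_ed9623_an.S64

open H64

namespace GRad

/-- real ideals -/
def Re (I : Ideal S3) : Prop := ∀ a b, a ^ 2 + b ^ 2 ∈ I → a ∈ I

theorem leib (i : Fin 3) (n : ℕ) (f g : S3) : (DS.d i)^[n] (f * g) =
    ∑ k ∈ Finset.range (n + 1), (n.choose k : S3) * ((DS.d i)^[n - k] f * (DS.d i)^[k] g) := by
  induction n with
  | zero => simp
  | succ n ih =>
    rw [Function.iterate_succ_apply', ih, map_sum,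
      Finset.sum_choose_succ_mul fun k j => (DS.d i)^[j] f * (DS.d i)^[k] g,
      ← Finset.sum_add_distrib]
    refine Finset.sum_congr rfl fun k hk => ?_
    rw [DS.mul, DS.d_natCast, DS.mul, Nat.succ_sub (Nat.lt_succ_iff.1 (Finset.mem_range.1 hk)),
      Function.iterate_succ_apply', Function.iterate_succ_apply']
    ring

theorem it_add (i : Fin 3) (n : ℕ) (f g : S3) :
    (DS.d i)^[n] (f + g) = (DS.d i)^[n] f + (DS.d i)^[n] g := iterate_map_add (DS.d i) n f g

/-- all derivatives in one direction lie in the ideal -/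
def ex (i : Fin 3) (I : Ideal S3) : Ideal S3 where
  carrier := {f | ∀ k, (DS.d i)^[k] f ∈ I}
  add_mem' a b k := by rw [it_add]; exact I.add_mem (a k) (b k)
  zero_mem' k := by rw [iterate_map_zero]; exact I.zero_mem
  smul_mem' c f a k := by
    rw [smul_eq_mul, leib]
    exact I.sum_mem fun j _ => I.mul_mem_left _ (I.mul_mem_left _ (a j))

theorem mid {i : Fin 3} {I : Ideal S3} {m : ℕ} {a : S3} (h : ∀ k < m, (DS.d i)^[k] a ∈ I) :
    (DS.d i)^[m + m] (a ^ 2) - ((m + m).choose m : S3) * (DS.d i)^[m] a ^ 2 ∈ I := by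
  rw [sq, leib, ← Finset.add_sum_erase _ _ (Finset.mem_range.2 (show m < m + m + 1 by omega)),
    Nat.add_sub_cancel, ← sq, add_sub_cancel_left]
  refine I.sum_mem fun k hk => I.mul_mem_left _ ?_
  have := Finset.mem_range.1 (Finset.mem_erase.1 hk).2
  rcases lt_or_gt_of_ne (Finset.mem_erase.1 hk).1 with c | c
  · exact I.mul_mem_left _ (h k c)
  · exact I.mul_mem_right _ (h _ (by omega))

theorem re_ex (i : Fin 3) {I : Ideal S3} (h : Re I) : Re (ex i I) := by
  intro a b hab
  suffices H : ∀ m, (DS.d i)^[m] a ∈ I ∧ (DS.d i)^[m] b ∈ I from fun m => (H m).1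
  intro m
  induction m using Nat.strong_induction_on with
  | _ m ih =>
    have h1 := I.sub_mem (I.sub_mem (hab (m + m)) (mid fun k hk => (ih k hk).1))
      (mid fun k hk => (ih k hk).2)
    have u : IsUnit ((m + m).choose m : S3) := by
      rw [← map_natCast (algebraMap ℝ S3)]
      exact (IsUnit.mk0 _ (Nat.cast_ne_zero.2 (Nat.choose_pos (by omega)).ne')).map _
    have h2 : (DS.d i)^[m] a ^ 2 + (DS.d i)^[m] b ^ 2 ∈ I := by
      refine (I.unit_mul_mem_iff_mem u).1 ?_
      convert h1 using 1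
      rw [it_add]
      ring
    exact ⟨h _ _ h2, h _ _ (by rwa [add_comm] at h2)⟩

theorem d_ex (i j : Fin 3) {I : Ideal S3} (h : ∀ f ∈ I, DS.d j f ∈ I) :
    ∀ f ∈ ex i I, DS.d j f ∈ ex i I := fun f a k => DS.d_iter j i k f ▸ h _ (a k)

theorem d_self (i : Fin 3) (I : Ideal S3) : ∀ f ∈ ex i I, DS.d i f ∈ ex i I := fun _ a k => a (k + 1)

end GRad

open GRad in
theorem rowRad : OfRad := by
  intro z f g h
  have r0 : Re (RingHom.ker (evS z)) := fun a b e => by
    have : a.1 z ^ 2 + b.1 z ^ 2 = 0 := by simpa [evS_apply] using e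
    exact pow_eq_zero_iff two_ne_zero |>.1 (show a.1 z ^ 2 = 0 by nlinarith [sq_nonneg (b.1 z)])
  have a := re_ex 0 (re_ex 1 (re_ex 2 r0)) f g fun k l m => by
    rw [← DS.w_replicate, ← DS.w_replicate, ← DS.w_replicate, ← DS.w_append, ← DS.w_append]
    exact h _
  refine fun l => DS.w_mem (S := ex 0 (ex 1 (ex 2 (RingHom.ker (evS z))))) (fun i => ?_) l f a 0 0 0
  fin_cases i
  · exact d_self _ _
  · exact d_ex _ _ (d_self _ _)
  · exact d_ex _ _ (d_ex _ _ (d_self _ _))

end Pool.Agent.MP_ed9623_an.S64
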