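import Pool.Agent.MP_ed9623_an.S64.SpecG

/-! The characteristic slope. -/

open Filter Topology Set

namespace Pool.Agent.MP_ed9623_an.S64

open H64

namespace GSig

theorem sig : SigS := by
  intro ψ z c hA hQ
  obtain ⟨A, eA⟩ : ∃ A, A = DS.BB ψ (1, c) (1, c) := ⟨_, rfl⟩
  obtain ⟨Q, eQ⟩ : ∃ Q, Q = DS.BB ψ (1, c) (0, 1) := ⟨_, rfl⟩
  rw [← eA] at hA
  rw [← eQ] at hQ
  have vA : ∀ y, A.1 y = (DS.d 1 (DS.d 1 ψ)).1 y + 2 * c * (DS.d 1 (DS.d 2 ψ)).1 y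
      + c ^ 2 * (DS.d 2 (DS.d 2 ψ)).1 y := fun y => by rw [eA]; simp [DR.BB]; ring
  have vQ : ∀ y, Q.1 y = (DS.d 1 (DS.d 2 ψ)).1 y + c * (DS.d 2 (DS.d 2 ψ)).1 y := fun y => by
    rw [eQ]; simp [DR.BB]
  obtain ⟨r, hr, hq⟩ : ∃ r : S3, r ^ 2 - (Q ^ 2 - A * DS.d 2 (DS.d 2 ψ)) ∈ NI z ∧
      (Q + r).1 z ≠ 0 := by
    obtain ⟨r, r0, hr⟩ := exists_sqrt (f := Q ^ 2 - A * DS.d 2 (DS.d 2 ψ)) (z := z) (by
      rw [val_sub, val_mul, val_pow, hA, zero_mul, sub_zero]; positivity)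
    by_cases h : (Q + r).1 z = 0
    · refine ⟨-r, by rwa [neg_sq], fun e => ?_⟩
      rw [val_add] at h e
      rw [val_neg] at e
      linarith
    · exact ⟨r, hr, h⟩
  obtain ⟨i, hi⟩ := exists_inv hq
  obtain ⟨σ, eσ⟩ : ∃ σ : S3, σ = algebraMap ℝ S3 c - A * i := ⟨_, rfl⟩
  have vσ : ∀ y, σ.1 y = c - A.1 y * i.1 y := fun y => by rw [eσ]; rfl
  have s0 : σ.1 z = c := by rw [vσ, hA, zero_mul, sub_zero]
  have h0 : DS.AA ψ σ ∈ NI z := by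
    filter_upwards [mem_FI.1 hr, mem_FI.1 hi] with y h2 h1
    simp only [DR.AA, val_add, val_sub, val_mul, val_pow, val_one, val_ofNat, vσ] at h1 h2 ⊢
    linear_combination A.1 y * i.1 y ^ 2 * h2 - A.1 y * (1 + i.1 y * (r.1 y - Q.1 y)) * h1
      - vA y + 2 * A.1 y * i.1 y * vQ y
  have ct : Continuous fun q : ST × ℝ =>
      2 * (DS.d 1 (DS.d 2 ψ)).1 q.1 + (q.2 + σ.1 q.1) * (DS.d 2 (DS.d 2 ψ)).1 q.1 :=
    (continuous_const.mul ((DS.d 1 (DS.d 2 ψ)).ct.comp continuous_fst)).add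
      ((continuous_snd.add (σ.ct.comp continuous_fst)).mul
        ((DS.d 2 (DS.d 2 ψ)).ct.comp continuous_fst))
  have ev := (ct.continuousAt (x := (z, c))).eventually_ne (y := 0) fun e => hQ (by
    rw [s0] at e
    rw [vQ]
    linarith)
  rw [nhds_prod_eq] at ev
  obtain ⟨pa, ha, pb, hb, h⟩ := eventually_prod_iff.1 ev
  obtain ⟨g, g0, hg⟩ := Metric.nhds_basis_closedBall.eventually_iff.1 hb
  refine ⟨σ, s0, h0, g, g0, ?_⟩
  filter_upwards [ha, mem_FI.1 h0] with y a b c' hc e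
  refine sub_eq_zero.1 ((mul_eq_zero.1 ?_).resolve_right (h a (hg hc)))
  simp only [DR.AA, DR.BB, val_add, val_mul, val_pow, val_smul, val_ofNat] at b e
  linear_combination e - b

theorem rt : RtS := by
  intro ψ γ z hz hA hQ
  obtain ⟨σ, -, h, g, g0, u⟩ := sig ψ z (deriv γ.1 z.2.1) ((BB_AA ψ γ z).trans (VI_val hA hz))
    (fun e => hQ (by simpa [DR.BB, DR.QQ, gg_val] using e))
  refine ⟨σ, mem_VI.2 ?_, h⟩
  filter_upwards [u, mem_VI.1 hA,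
    (gg γ).ct.continuousAt.eventually (Metric.closedBall_mem_nhds _ g0)] with y a b c d
  exact sub_eq_zero.2 (a _ c ((BB_AA ψ γ y).trans (b d))).symm

end GSig

theorem rowSig : OfSig := ⟨GSig.sig, GSig.rt⟩

end Pool.Agent.MP_ed9623_an.S64
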