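import Pool.Agent.MP_ed9623_an.S64.SpecG

/-! Row UE1: unique continuation when the first Wronskian does not vanish. -/

namespace Pool.Agent.MP_ed9623_an.S64

open H64

theorem rowUE1 : OfUE1 := by
  intro hR hU n ψ γ z c hA hQ hb
  obtain ⟨σ, hs, hn⟩ := hR ψ γ z c hA hQ
  have e : σ.1 z = (gg γ).1 z := sub_eq_zero.1 (VI_val hs c)
  have h1 : DS.AA (DS.d 0 ψ) σ ∈ VI γ z := by
    convert (VI γ z).add_mem (VI_d0 hA) ((VI γ z).mul_mem_left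
      (2 * DS.d 0 (DS.d 1 (DS.d 2 ψ)) + (σ + gg γ) * DS.d 0 (DS.d 2 (DS.d 2 ψ))) hs) using 1
    simp only [DR.AA, map_add, DS.mul, DS.d_sq, DS.d_ofNat, d0_gg, DS.c10, DS.c20]
    ring
  refine hU n ψ γ z σ 1 c ⟨hs, hn⟩ (fun h => hQ ?_) (fun i hi => ?_) (fun h => hb ?_) (.inl le_rfl)
  · simpa [DR.QQ, e] using h
  · obtain rfl : i = 0 := by omega
    exact (VI γ z).mul_mem_left _ h1
  · have a := VI_val h1 c
    have b := NI_val (NI_d hn 2)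
    simp only [Function.iterate_one, DR.AA, DR.QQ, DR.bk, map_add, DS.mul, DS.d_sq, DS.d_ofNat,
      d0_gg, DS.c10, DS.c20, DS.c21, val_add, val_sub, val_mul, val_pow, val_ofNat, val_zero,
      e] at a b h ⊢
    linear_combination h - ((DS.d 1 (DS.d 2 (DS.d 2 ψ))).1 z
      + (DS.d 2 σ).1 z * (DS.d 2 (DS.d 2 ψ)).1 z + (gg γ).1 z * (DS.d 2 (DS.d 2 (DS.d 2 ψ))).1 z) * a
      - ((DS.d 0 (DS.d 1 (DS.d 2 ψ))).1 z + (gg γ).1 z * (DS.d 0 (DS.d 2 (DS.d 2 ψ))).1 z) * b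

end Pool.Agent.MP_ed9623_an.S64
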