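import Pool.Agent.MP_ed9623_an.S64.SpecG

/-! Unique continuation across a straight characteristic line. -/

open Filter Topology Set

namespace Pool.Agent.MP_ed9623_an.S64

open H64

namespace GUE2

theorem VI_d1 {c : ℝ} {z : ST} {f : S3} (h : f ∈ VI (cst c) z) : DS.d 1 f ∈ VI (cst c) z := by
  have := VI_X h
  rwa [gg_cst, DR.XX, zero_mul, add_zero] at this

theorem VI_div {γ : SA ℝ} {z : ST} {f g : S3} (hg : g.1 z ≠ 0) (h : g * f ∈ VI γ z) :
    f ∈ VI γ z :=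
  mem_VI.2 (((mem_VI.1 h).and (ev_ne hg)).mono fun _ a c => (mul_eq_zero.1 (a.1 c)).resolve_left a.2)

end GUE2

open GUE2

theorem rowUE2 : OfUE2 := by
  intro hR hU hJ n ψ c z h Q l E hz e1 e2 e3 e4 hQ hl h1 hb hc α U hA hzU
  have hz' : z.2.2 = (cst c).1 z.2.1 := hz
  obtain ⟨σ, hσ⟩ := hR ψ (cst c) z hz'
    (by
      rw [gg_cst, DR.AA, mul_zero, zero_mul, add_zero, sq, mul_zero, zero_mul, add_zero]
      exact VI_d1 h1)
    (by rw [gg_cst, DR.QQ, zero_mul, add_zero, ← e1, ← e2]; exact hQ)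
  have s0 : σ ∈ VI (cst c) z := by
    have := hσ.1
    rwa [gg_cst, sub_zero] at this
  have hQσ : (DS.QQ ψ σ).1 z ≠ 0 := by
    rw [DR.QQ, val_add, val_mul, VI_val s0 hz', zero_mul, add_zero, ← e1, ← e2]
    exact hQ
  obtain ⟨j0, j1, j2, j3⟩ := hJ n α ψ c U z σ h Q l E _ hA hzU hσ e1 e2 e3 e4 rfl hQ h1 hb
  have hX : DS.XX σ σ ∈ VI (cst c) z := add_mem (VI_d1 s0) (Ideal.mul_mem_right _ _ s0)
  generalize hρ : DS.QQ ψ σ * DS.AA (DS.d 0 ψ) σ = ρ at j0 j1 j2 j3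
  rcases hc with hc | ⟨hc, hd⟩
  · refine hU n ψ (cst c) z σ 2 hz' hσ hQσ (fun i hi => ?_) (fun a => ?_)
      (Or.inr ⟨hX, Or.inl rfl⟩) α U hA hzU
    · rw [hρ]
      interval_cases i
      · exact j0
      · exact j1
    · rw [hρ] at a
      have a' : (DS.d 2 (DS.d 2 ρ)).1 z = 0 := a
      have b := VI_val j2 hz'
      rw [val_sub, val_mul, val_mul (l ^ 2), a', mul_zero, zero_sub, neg_eq_zero, val_pow] at b
      exact mul_ne_zero (pow_ne_zero 2 hl) hc b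
  · have q2 : (2 * Q ^ 2).1 z ≠ 0 := by
      rw [val_mul, val_pow, val_ofNat]
      exact mul_ne_zero two_ne_zero (pow_ne_zero 2 hQ)
    refine hU n ψ (cst c) z σ 3 hz' hσ hQσ (fun i hi => ?_) (fun a => ?_)
      (Or.inr ⟨hX, Or.inr ⟨rfl, ?_, add_mem h1 (Ideal.mul_mem_right _ _ s0)⟩⟩) α U hA hzU
    · rw [hρ]
      interval_cases i
      · exact j0
      · exact j1
      · refine VI_div (f := DS.d 2 (DS.d 2 ρ)) q2 ?_
        have := add_mem j2 (Ideal.mul_mem_left _ (l ^ 2) hc)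
        rwa [sub_add_cancel] at this
    · rw [hρ] at a
      have a' : (DS.d 2 (DS.d 2 (DS.d 2 ρ))).1 z = 0 := a
      have b := VI_val (j3 hc) hz'
      rw [val_sub, val_mul, val_mul l, a', mul_zero, zero_sub, neg_eq_zero] at b
      exact mul_ne_zero hl hd b
    · rw [← e1, ← e2, ← e4]
      exact hc

end Pool.Agent.MP_ed9623_an.S64
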