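import Pool.Agent.MP_ed9623_an.S64.SpecG

/-! Unique continuation across a non-characteristic curve. -/

open Filter Topology Set

namespace Pool.Agent.MP_ed9623_an.S64

open H64

namespace GUNs

section
variable {R : Type} [CommRing R] [Algebra ℝ R] {D : DR R} {res : S3 →ₐ[ℝ] R}

theorem res_LL (hd : ∀ i f, res (DS.d i f) = D.d i (res f)) (ψ α : S3) :
    res (DS.LL ψ α) = D.LL (res ψ) (res α) := by
  simp only [DR.LL, DR.T2, map_add, map_sub, map_mul, map_ofNat, hd]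

theorem res_AA (hd : ∀ i f, res (DS.d i f) = D.d i (res f)) (ψ g : S3) :
    res (DS.AA ψ g) = D.AA (res ψ) (res g) := by
  simp only [DR.AA, map_add, map_mul, map_pow, map_ofNat, hd]

theorem res_det (hd : ∀ i f, res (DS.d i f) = D.d i (res f)) (ψ : S3) :
    res (DS.det ψ) = D.det (res ψ) := by
  simp only [DR.det, map_sub, map_mul, map_pow, hd]

end

theorem LL_NI {n : ℝ} {α ψ : S3} {γ : SA ℝ} {U : Set ST} {z : ST} (hA : Arc n α ψ γ U)
    (hz : z ∈ U) : DS.LL ψ α ∈ NI z := by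
  have e : ∀ j, j ≠ 0 → DS.eW α ψ j ∈ NI z := fun j hj =>
    mem_of_superset (hA.oU.mem_nhds hz) (hA.eW j hj)
  have h : 2 * DS.LL ψ α ∈ NI z := by
    rw [DS.LL_eq]
    exact sub_mem (NI_d (e 2 (by decide)) 1) (NI_d (e 1 (by decide)) 2)
  refine (mem_FI.1 h).mono fun y hy => ?_
  rw [val_mul, val_ofNat] at hy
  linarith

theorem core (hL : LnES) {s : ℝ} (hU : UNS s) {n : ℝ} {α ψ : S3} {γ : SA ℝ} {U : Set ST} {z : ST}
    {j : ℕ} {Ai r ri : S3} (c : z.2.2 = γ.1 z.2.1) (hA : Arc n α ψ γ U) (hz : z ∈ U)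
    (h1 : DS.AA ψ (gg γ) * Ai - 1 ∈ NI z) (h2 : r * ri - 1 ∈ NI z)
    (h3 : DS.det ψ * Ai ^ 2 - s • (dd γ ^ j * r ^ 2) ∈ NI z) : GZ α z := by
  obtain ⟨R, _, _, D, X, L, res, hd, hA', hdd, h0, hF, hl⟩ := hL γ z _ c
    (inter_mem (hA.oU.mem_nhds hz) (((mem_FI.1 (LL_NI hA hz)).and (mem_FI.1 h1)).and
      ((mem_FI.1 h2).and (mem_FI.1 h3))))
  have m : ∀ f, res f ∈ L.A := fun f => hA' ▸ ⟨f, rfl⟩
  have e0 := h0 _ fun y hy => hy.2.1.1
  have e1 := h0 _ fun y hy => hy.2.1.2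
  have e2 := h0 _ fun y hy => hy.2.2.1
  have e3 := h0 _ fun y hy => hy.2.2.2
  have eg : -D.d 1 L.d = res (gg γ) := by rw [hdd, ← d1_dd, map_neg, hd]
  rw [res_LL hd] at e0
  rw [map_sub, map_mul, map_one, res_AA hd, sub_eq_zero, ← eg] at e1
  rw [map_sub, map_mul, map_one, sub_eq_zero] at e2
  rw [map_sub, map_mul, map_smul, map_mul, map_pow, map_pow, map_pow, res_det hd, sub_eq_zero,
    ← hdd] at e3
  obtain ⟨M, hM⟩ := hU L (res ψ) (res α) (res Ai) (res r) (res ri) j (m _)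
    (hF _ fun y hy => hA.za y hy.1) (m _) (m _) (m _) e0 e1 e2 e3
  exact hA.gz hz (hl _ M fun x hx => by rw [hd]; exact (hM x hx).1)
    (hl _ M fun x hx => by rw [hd]; exact (hM x hx).2)

end GUNs

theorem rowUNs : OfUNs := by
  intro hL hD hp hm n ψ γ z j c hA hv hn α U hArc hz
  obtain ⟨q, hq, hqz⟩ := hD γ z j (DS.det ψ) c hv
  have q0 : q.1 z ≠ 0 := fun h => hn (by rw [← hqz, h, mul_zero])
  obtain ⟨Ai, hAi⟩ := exists_inv hA
  have a0 : Ai.1 z ≠ 0 := fun h => by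
    have := NI_val hAi
    rw [val_sub, val_mul, h, mul_zero, val_one] at this
    norm_num at this
  have key : ∀ s : ℝ, s * s = 1 → 0 < s * q.1 z → UNS s → GZ α z := by
    intro s hs hsq hU
    obtain ⟨r, hr, hr2⟩ := exists_sqrt (f := s • (q * Ai ^ 2)) (z := z) (by
      rw [val_smul, val_mul, val_pow, ← mul_assoc]
      positivity)
    obtain ⟨ri, hri⟩ := exists_inv hr.ne'
    refine GUNs.core hL hU (j := j) c hArc hz hAi hri ?_
    filter_upwards [mem_FI.1 hq, mem_FI.1 hr2] with y a b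
    simp only [val_sub, val_mul, val_pow, val_smul] at a b ⊢
    linear_combination Ai.1 y ^ 2 * a - s * (dd γ).1 y ^ j * b
      - (dd γ).1 y ^ j * q.1 y * Ai.1 y ^ 2 * hs
  refine ⟨z.1, ?_⟩
  rcases lt_or_gt_of_ne q0 with h | h
  · exact key (-1) (by norm_num) (by linarith) hm
  · exact key 1 (by norm_num) (by linarith) hp

end Pool.Agent.MP_ed9623_an.S64
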