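import Pool.Agent.MP_ed9623_an.S64.SpecG

/-! The first Wronskian vanishes along a simply characteristic boundary. -/

open Filter Topology Set

namespace Pool.Agent.MP_ed9623_an.S64

open H64

namespace GW1

theorem sn_AA (n : ℝ) (h : S3) {g : S3} (hg : DS.d 0 g = 0) :
    Sn n (DS.AA h g) = DS.d 1 (DS.d 1 (Sn n h)) + 2 * g * DS.d 1 (DS.d 2 (Sn n h))
      + g ^ 2 * DS.d 2 (DS.d 2 (Sn n h)) := by
  have a : DS.d 0 (2 * g) = 0 := by rw [DS.mul, DS.d_ofNat, hg, zero_mul, mul_zero, add_zero]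
  have b : DS.d 0 (g ^ 2) = 0 := by rw [DS.d_sq, hg, mul_zero]
  rw [DR.AA, Sn_add, Sn_add, Sn_mul a, Sn_mul b]
  simp only [Sn_d]

end GW1

theorem rowW1 : OfW1 := by
  intro hU hN n α ψ O Z p γ t hL hC hp hA hQ
  refine mem_TI.2 ?_
  filter_upwards [hC.ev, hL.oO.mem_nhds hp, TI_ev hA,
    ((Continuous.prodMk_right t).tendsto p).eventually (ev_ne hQ)] with x a b c d e s
  have y : ∀ r, Sn n (DS.d 2 ψ) ∈ FL (r, x) := fun r =>
    hL.yy_fl (z := (r, x)) (by decide) b (a e).1.cl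
  rw [bk_const (n := n) (fun r => FL_val ?_) (fun r => FL_val ?_) s t]
  · by_contra k
    exact hN n α ψ O Z x γ hL (a e).1 b (a e).nm t (hU n ψ γ (t, x) e (TI_VI c t) d k)
  · rw [← X_d2, Sn_X (d0_gg γ)]
    exact add_mem (FL_d (y r) 1) (Ideal.mul_mem_left _ _ (FL_d (y r) 2))
  · rw [GW1.sn_AA n _ (d0_gg γ)]
    exact add_mem (add_mem (FL_d (FL_d (y r) 1) 1) (Ideal.mul_mem_left _ _ (FL_d (FL_d (y r) 2) 1)))
      (Ideal.mul_mem_left _ _ (FL_d (FL_d (y r) 2) 2))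

end Pool.Agent.MP_ed9623_an.S64
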