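import Pool.Agent.MP_ed9623_an.S64.SpecG

/-! The Cauchy data of a second derivative do not vanish. -/

open Filter Topology Set

namespace Pool.Agent.MP_ed9623_an.S64

open H64

namespace GZW

theorem jets {γ : SA ℝ} {z : ST} {f : S3} (h0 : f ∈ VI γ z) (h2 : DS.d 2 f ∈ VI γ z)
    (hh : DS.ht f ∈ VI γ z) : (∀ i, DS.d i f ∈ VI γ z) ∧ ∀ i j, DS.d j (DS.d i f) ∈ VI γ z := by
  have h1 : DS.d 1 f ∈ VI γ z := by
    simpa [DR.XX] using sub_mem (VI_X h0) ((VI γ z).mul_mem_left (gg γ) h2)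
  have h22 : DS.d 2 (DS.d 2 f) ∈ VI γ z := by
    convert (VI γ z).mul_mem_left (nsq (gg γ)) (add_mem (sub_mem (sub_mem (VI_d0 h0) hh) (VI_X h1))
      ((VI γ z).mul_mem_left (gg γ) (VI_X h2))) using 1
    simp only [DR.XX, DR.ht, DR.lap, DS.c21]
    linear_combination (-DS.d 2 (DS.d 2 f)) * nsq_inv (gg γ)
  have h12 : DS.d 1 (DS.d 2 f) ∈ VI γ z := by
    simpa [DR.XX] using sub_mem (VI_X h2) ((VI γ z).mul_mem_left (gg γ) h22)
  have h11 : DS.d 1 (DS.d 1 f) ∈ VI γ z := by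
    simpa [DR.XX, DS.c21] using sub_mem (VI_X h1) ((VI γ z).mul_mem_left (gg γ) h12)
  refine ⟨fun i => ?_, fun i j => ?_⟩
  · fin_cases i
    exacts [VI_d0 h0, h1, h2]
  · fin_cases i <;> fin_cases j
    exacts [VI_d0 (VI_d0 h0), DS.c10 f ▸ VI_d0 h1, DS.c20 f ▸ VI_d0 h2, VI_d0 h1, h11,
      DS.c21 f ▸ h12, VI_d0 h2, h12, h22]

end GZW

theorem rowZW : OfZW := by
  intro hE n α ψ O Z p γ e t hL hl hp he h0 h2
  have hh : DS.ht (DS.BB ψ e e) ∈ LJ γ (t, p) := by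
    have a := fun i j hj => LJ_d (LI_LJ (hL.ht_li (j := j) hl hp hj) t) i
    convert add_mem (add_mem ((LJ γ (t, p)).smul_of_tower_mem (e.1 * e.1) (a 1 1 (by decide)))
      ((LJ γ (t, p)).smul_of_tower_mem (e.1 * e.2 + e.2 * e.1) (a 1 2 (by decide))))
      ((LJ γ (t, p)).smul_of_tower_mem (e.2 * e.2) (a 2 2 (by decide))) using 1
    simp only [DR.BB, DR.ht, DR.lap, map_add, map_sub, map_smul, DS.c10, DS.c20, DS.c21, smul_add,
      smul_sub]
    ring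
  obtain ⟨h1, h3⟩ := GZW.jets h0 h2 (LJ_VI hh)
  obtain ⟨r, hr, h4⟩ := Metric.eventually_nhds_iff_ball.1 ((mem_LJ.1 hh).and ((mem_VI.1 h0).and
    ((eventually_all.2 fun i => mem_VI.1 (h1 i)).and
      (eventually_all.2 fun i => eventually_all.2 fun j => mem_VI.1 (h3 i j)))))
  have h5 : ∀ z : ST, z.1 ∈ Metric.ball t r → z.2 ∈ Metric.ball p r → z ∈ Metric.ball (t, p) r :=
    fun z a b => ball_prod_same t p r ▸ ⟨a, b⟩
  have cl : closure {x : PP | x.2 < γ.1 x.1} ⊆ {x | x.2 ≤ γ.1 x.1} :=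
    closure_lt_subset_le continuous_snd (γ.ct.comp continuous_fst)
  have := hE _ (Metric.ball p r) (Metric.ball t r) (DS.BB ψ e e) 0 0 (isOpen_below γ)
    Metric.isOpen_ball (convex_ball p r).isPreconnected Metric.isOpen_ball
    (fun z a b c => by simp [(h4 z (h5 z a b)).1 (le_of_lt c), show DS.ht 0 = 0 by simp [DR.ht, DR.lap]])
    (fun z a b c d l hl => ⟨?_, by rw [DS.w_zero]; rfl⟩) ?_
  · refine hL.wall_LJ hl hp he t (LJ_of (mem_of_superset (Metric.ball_mem_nhds _ hr) fun z a c => ?_))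
    rw [← ball_prod_same] at a
    exact (this z a.1 a.2 c).1
  · obtain ⟨-, b0, b1, b2⟩ := h4 z (h5 z a b)
    have k : z.2.2 = γ.1 z.2.1 := le_antisymm (cl c) (le_of_not_gt d)
    match l, hl with
    | [], _ => exact b0 k
    | [i], _ => exact b1 i k
    | [i, j], _ => exact b2 i j k
  · obtain ⟨x, a, b⟩ := ((freq_above hl.1.ge).and_eventually (Metric.ball_mem_nhds p hr)).exists
    exact ⟨x, b, fun c => a.not_ge (cl c)⟩

end Pool.Agent.MP_ed9623_an.S64
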