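import Pool.Agent.MP_ed9623_an.S64.SpecL

/-! Finite differences. -/

open Filter Topology Set
open scoped ContDiff

namespace Pool.Agent.MP_ed9623_an.S64

open H64

namespace LFd

/-- Translation. -/
noncomputable def tr (h : ℝ) : SA ℝ →ₐ[ℝ] SA ℝ := pb (fun s => s + h) (by fun_prop)

theorem D_tr (h : ℝ) (m : SA ℝ) : D 1 (tr h m - m) = tr h (D 1 m) - D 1 m := by
  rw [map_sub]
  congr 1
  refine SA_ext fun z => D_pb _ m ?_
  simpa using (((hasDerivAt_id (0 : ℝ)).const_add z).add_const h)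

theorem D_it (h : ℝ) (k : ℕ) (m : SA ℝ) :
    (D 1)^[k] (tr h m - m) = tr h ((D 1)^[k] m) - (D 1)^[k] m := by
  induction k generalizing m with
  | zero => rfl
  | succ k ih => rw [Function.iterate_succ_apply, D_tr, ih, Function.iterate_succ_apply]

theorem main (k : ℕ) (m : SA ℝ) (h S : ℝ) (h0 : 0 ≤ h)
    (hS : ∀ s ∈ Icc 0 (k * h), |((D 1)^[k] m).1 s| ≤ S) : |(fwdDiff h)^[k] m.1 0| ≤ h ^ k * S := by
  induction k generalizing m S with
  | zero => simpa using hS 0 (by simp)
  | succ k ih =>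
    rw [pow_succ, mul_assoc]
    refine ih (tr h m - m) (h * S) fun s hs => ?_
    rw [D_it]
    have := (convex_Icc s (s + h)).norm_image_sub_le_of_norm_hasDerivWithin_le (C := S)
      (fun r _ => (hd_one ((D 1)^[k] m) r).hasDerivWithinAt) (fun r hr => by
        rw [← Function.iterate_succ_apply' (D 1)]
        refine hS r ⟨hs.1.trans hr.1, ?_⟩
        push_cast
        linarith [hs.2, hr.2]) (left_mem_Icc.2 (by linarith)) (right_mem_Icc.2 (by linarith))
    rwa [add_sub_cancel_left, Real.norm_of_nonneg h0, mul_comm] at this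

end LFd

theorem rowFd : OfFd := by
  intro k m h S h0 hS
  refine le_trans (le_of_eq ?_) (LFd.main k m h S h0 hS)
  have e : ∀ x : ℝ, |x| = |(-1) ^ k * x| := fun x => by rw [abs_mul, abs_neg_one_pow, one_mul]
  rw [fwdDiff_iter_eq_sum_shift, e (∑ _ ∈ _, _ • _), Finset.mul_sum]
  refine congrArg _ (Finset.sum_congr rfl fun i hi => ?_)
  obtain ⟨j, rfl⟩ := Nat.exists_eq_add_of_le (Nat.lt_succ_iff.1 (Finset.mem_range.1 hi))
  have : ((-1 : ℝ) ^ j) * (-1) ^ j = 1 := by rw [← mul_pow]; simp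
  simp only [Nat.add_sub_cancel_left, zsmul_eq_mul, nsmul_eq_mul, zero_add, pow_add]
  push_cast
  linear_combination (-((-1 : ℝ) ^ i * ((i + j).choose i) * m.1 (i * h))) * this

end Pool.Agent.MP_ed9623_an.S64
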