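import Pool.Agent.MP_ed9623_an.S64.SpecL

/-! Functions which vanish below the curve are flat on the lens. -/

open Filter Topology Set

namespace Pool.Agent.MP_ed9623_an.S64

open H64

namespace LFl

theorem key (L : Lz) (k : ℕ) : ∀ g : S3, (∀ z : ST, 0 ≤ L.u.1 z → L.d.1 z = 0 → g ∈ FL z) →
    ∃ C : ℝ, ∀ z ∈ L.Λ, |g.1 z| ≤ C * L.d.1 z ^ k := by
  induction k with
  | zero => exact fun g _ => (L.bdd g).imp fun C h z a => by simpa using h.2 z a
  | succ k ih =>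
    intro g hg
    obtain ⟨C, hC⟩ := ih _ fun z a b => FL_d (hg z a b) 2
    refine ⟨|C|, fun ⟨t, s, y⟩ ⟨h1, h2, h3⟩ => ?_⟩
    have u : ∀ r, L.u.1 (t, s, r) = L.u.1 (t, s, y) := fun r => by simp only [L.u_val]
    simp only [L.d_val] at h2 h3 ⊢
    obtain ⟨c, ⟨c1, c2⟩, e⟩ := exists_hasDerivAt_eq_slope _ _ (sub_pos.1 h2)
      (fun r _ => (hd_x2 g t s r).continuousAt.continuousWithinAt) fun r _ => hd_x2 g t s r
    have h := hC (t, s, c) ⟨(u c).symm ▸ h1, sub_pos.2 c1,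
      (u c).symm ▸ (sub_lt_sub_right c2 _).trans h3⟩
    rw [e, FL_val (hg (t, s, L.γ.1 s) ((u _).symm ▸ h1.le) (sub_self _)), sub_zero, abs_div,
      abs_of_pos h2, div_le_iff₀ h2] at h
    rw [pow_succ, ← mul_assoc]
    exact h.trans (mul_le_mul_of_nonneg_right (mul_le_mul (le_abs_self C)
      (pow_le_pow_left₀ (sub_pos.2 c1).le (sub_le_sub_right c2.le _) k)
      (pow_nonneg (sub_pos.2 c1).le k) (abs_nonneg C)) h2.le)

end LFl

theorem rowFl : OfFl := fun L f W hW h1 h2 l k => by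
  obtain ⟨C, hC⟩ := LFl.key L k (DS.w l f) fun z a b => DS.w_mem (S := FL z)
    (fun i _ h => FL_d h i) l f ((FL_below (mem_of_superset (hW.mem_nhds (h1 z a b))
      h2)).self_of_nhds (sub_eq_zero.1 b).le)
  exact ⟨C, fun x => rs_w L.opn l f ▸ hC x x.2⟩

end Pool.Agent.MP_ed9623_an.S64
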