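import Pool.Agent.MP_ed9623_an.S64.SpecL

/-! Averages of derivatives. -/

open Filter Topology Set MeasureTheory
open scoped ContDiff

namespace Pool.Agent.MP_ed9623_an.S64

open H64

namespace LIbp

theorem cs {η : S3} (h : tsupport η.1 ⊆ Metric.ball 0 1) : HasCompactSupport η.1 :=
  (isCompact_closedBall (0 : ST) 1).of_isClosed_subset (isClosed_tsupport _)
    (h.trans Metric.ball_subset_closedBall)

theorem ts (η : S3) (i : Fin 3) : tsupport (DS.d i η).1 ⊆ tsupport η.1 :=
  tsupport_fderiv_apply_subset ℝ (EE i)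

theorem ibp (g η : S3) (i : Fin 3) (h : tsupport η.1 ⊆ Metric.ball 0 1) :
    ∫ v, (DS.d i g).1 v * η.1 v = -∫ v, g.1 v * (DS.d i η).1 v := by
  have := haar3
  have h0 := integral_pd_eq_zero volume (EE i) ((g * η).cd 1) (HasCompactSupport.mul_left (cs h))
  rw [← DS_val, DS.mul] at h0
  have i1 : Integrable (fun v => (DS.d i g).1 v * η.1 v) :=
    ((DS.d i g).ct.mul η.ct).integrable_of_hasCompactSupport (HasCompactSupport.mul_left (cs h))
  have i2 : Integrable (fun v => g.1 v * (DS.d i η).1 v) :=
    (g.ct.mul (DS.d i η).ct).integrable_of_hasCompactSupport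
      (HasCompactSupport.mul_left (cs ((ts η i).trans h)))
  have h1 := integral_add i1 i2
  simp only [val_add, val_mul] at h0
  rw [h0] at h1
  linarith

theorem sm (x : ST) (h : ℝ) : ContDiff ℝ ∞ fun v : ST => x + h • v := by fun_prop

theorem scale (f : S3) (x : ST) (h : ℝ) (i : Fin 3) (v : ST) :
    (DS.d i (pb _ (sm x h) f)).1 v = h * (DS.d i f).1 (x + h • v) := by
  refine (D_pb (sm x h) f (v := h • EE i) ?_).trans ?_
  · have := (((hasDerivAt_id (0 : ℝ)).smul_const (EE i)).const_add v).const_smul h |>.const_add x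
    simpa using this
  · rw [D_val, pd_smul_dir]
    rfl

theorem intOn {F : ST → ℝ} (hF : Continuous F) (x : ST) (r : ℝ) :
    IntegrableOn F (Metric.ball x r) :=
  (hF.continuousOn.integrableOn_compact (isCompact_closedBall x r)).mono_set
    Metric.ball_subset_closedBall

theorem cauchy {g η : ST → ℝ} (hg : Continuous g) (hη : Continuous η) :
    (∫ v in Metric.ball (0 : ST) 1, g v * η v) ^ 2 ≤
      (∫ v in Metric.ball (0 : ST) 1, η v ^ 2) * ∫ v in Metric.ball (0 : ST) 1, g v ^ 2 := by
  have i1 := intOn (F := fun v => η v ^ 2) (hη.pow 2) 0 1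
  have i2 := intOn (F := fun v => g v * η v) (hg.mul hη) 0 1
  have i3 := intOn (F := fun v => g v ^ 2) (hg.pow 2) 0 1
  have i4 : ∀ t : ℝ, IntegrableOn (fun v => (t * t) * η v ^ 2 + (2 * t) * (g v * η v))
      (Metric.ball (0 : ST) 1) := fun t => (i1.const_mul _).add (i2.const_mul _)
  have := discrim_le_zero (a := ∫ v in Metric.ball (0 : ST) 1, η v ^ 2)
    (b := 2 * ∫ v in Metric.ball (0 : ST) 1, g v * η v)
    (c := ∫ v in Metric.ball (0 : ST) 1, g v ^ 2) fun t => by
      have h0 : 0 ≤ ∫ v in Metric.ball (0 : ST) 1,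
          ((t * t) * η v ^ 2 + (2 * t) * (g v * η v) + g v ^ 2) :=
        integral_nonneg fun v => by
          have := sq_nonneg (t * η v + g v)
          simp only [Pi.zero_apply]
          nlinarith
      rw [integral_add (i4 t) i3,
        integral_add (i1.const_mul _) (i2.const_mul _), integral_const_mul, integral_const_mul] at h0
      linarith
  rw [discrim] at this
  nlinarith

theorem chg (F : ST → ℝ) (x : ST) {h : ℝ} (hh : 0 < h) :
    (∫ v in Metric.ball (0 : ST) 1, F (x + h • v)) * h ^ 3 = ∫ y in Metric.ball x h, F y := by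
  have e : ∀ v : ST, (Metric.ball (0 : ST) 1).indicator (fun v => F (x + h • v)) v =
      (Metric.ball x h).indicator F (x + h • v) := fun v => by
    have : x + h • v ∈ Metric.ball x h ↔ v ∈ Metric.ball (0 : ST) 1 := by
      rw [mem_ball_iff_norm, mem_ball_zero_iff, add_sub_cancel_left, norm_smul,
        Real.norm_of_nonneg hh.le, mul_lt_iff_lt_one_right hh]
    by_cases hv : v ∈ Metric.ball (0 : ST) 1
    · rw [indicator_of_mem hv, indicator_of_mem (this.2 hv)]
    · rw [indicator_of_notMem hv, indicator_of_notMem (mt this.1 hv)]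
  rw [← integral_indicator measurableSet_ball, ← integral_indicator measurableSet_ball]
  simp only [e]
  have := haar3
  rw [Measure.integral_comp_smul volume (fun v => (Metric.ball x h).indicator F (x + v)) h,
    integral_add_left_eq_self]
  have : Module.finrank ℝ ST = 3 := by simp
  rw [this, abs_of_pos (by positivity), smul_eq_mul]
  field_simp

end LIbp

open LIbp in
theorem rowIbp : OfIbp := by
  intro l
  induction l with
  | nil =>
    intro η hη
    refine ⟨∫ v in Metric.ball (0 : ST) 1, η.1 v ^ 2, integral_nonneg fun v => sq_nonneg _,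
      fun f x h hh => ?_⟩
    have h1 := cauchy (g := fun v => f.1 (x + h • v)) (f.ct.comp (sm x h).continuous) η.ct
    rw [setIntegral_eq_integral_of_forall_compl_eq_zero fun v hv => by
      rw [image_eq_zero_of_notMem_tsupport fun a => hv (hη a), mul_zero]] at h1
    rw [← chg (fun y => f.1 y ^ 2) x hh, ← mul_assoc]
    exact mul_le_mul_of_nonneg_right h1 (by positivity)
  | cons i l ih =>
    intro η hη
    obtain ⟨C, hC, H⟩ := ih (DS.d i η) ((ts η i).trans hη)
    refine ⟨C, hC, fun f x h hh => le_of_eq_of_le ?_ (H f x h hh)⟩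
    have h1 := ibp (pb _ (sm x h) (DS.w l f)) η i hη
    simp only [scale, mul_assoc] at h1
    rw [integral_const_mul] at h1
    rw [DR.w_cons, ← DR.d_w, List.length_cons]
    change _ = (∫ v, (pb _ (sm x h) (DS.w l f)).1 v * (DS.d i η).1 v) ^ 2 * _
    rw [← neg_sq (∫ v, (pb _ (sm x h) (DS.w l f)).1 v * (DS.d i η).1 v), ← h1]
    ring

end Pool.Agent.MP_ed9623_an.S64
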