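import Pool.Agent.MP_ed9623_an.S64.SpecL

/-! Integration by parts on the lens. -/

open Filter Topology Set MeasureTheory Asymptotics

namespace Pool.Agent.MP_ed9623_an.S64

open H64

theorem rowId : OfId := by
  intro L b i f hf hb h0
  have hS : IsOpen {z : ST | L.u.1 z ^ 2 < 4 * b / 3 * L.d.1 z} :=
    isOpen_lt (L.u.ct.pow 2) (continuous_const.mul L.d.ct)
  have hI : ∀ g ∈ L.F0, Integrable (ex g.1) := fun g hg =>
    (integrableOn_iff_integrable_of_support_subset fun z hz =>
      by_contra fun a => hz (ex_off _ a)).1 (L.F0_int hg)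
  have hZ : ∀ z, z ∉ L.Λ → HasFDerivAt (ex f.1) (0 : ST →L[ℝ] ℝ) z := fun z hz => by
    have k : ∀ {S : Set ST}, IsOpen S → z ∈ S → (∀ x : L.Λ, x.1 ∈ S → f.1 x = 0) →
        HasFDerivAt (ex f.1) (0 : ST →L[ℝ] ℝ) z := fun {S} a c e =>
      (hasFDerivAt_const 0 z).congr_of_eventuallyEq (mem_of_superset (a.mem_nhds c) fun y m => by
        by_cases h : y ∈ L.Λ
        · exact (ex_mem _ h).trans (e ⟨y, h⟩ m)
        · exact ex_off _ h)
    rcases lt_trichotomy (L.d.1 z) 0 with h | h | h
    · exact k (isOpen_lt L.d.ct continuous_const) h fun x a => (lt_asymm x.2.2.1 a).elim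
    · obtain ⟨C, hC⟩ := hf [] 2
      have a := (cdg_diff (L.d.cd 1) le_rfl z).isBigO_sub
      simp only [h, sub_zero] at a
      refine IsBigO.hasFDerivAt (n := 2) (IsBigO.trans (.of_bound |C| (Eventually.of_forall
        fun y => ?_)) (a.norm_right.pow 2)) one_lt_two
      by_cases m : y ∈ L.Λ
      · rw [ex_mem _ m, Real.norm_of_nonneg (sq_nonneg _)]
        exact (hC ⟨y, m⟩).trans (mul_le_mul_of_nonneg_right (le_abs_self C) (sq_nonneg _))
      · rw [ex_off _ m, norm_zero]
        positivity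
    · rcases lt_or_ge (L.u.1 z) 0 with a | a
      · exact k (isOpen_lt L.u.ct continuous_const) a fun x c => (lt_asymm x.2.1 c).elim
      · refine k hS ?_ h0
        have : L.u.1 z ^ 2 ≤ L.d.1 z := by
          rcases a.eq_or_lt with c | c
          · simpa [← c] using h.le
          · exact not_lt.1 fun m => hz ⟨c, h, m⟩
        exact this.trans_lt (by nlinarith)
  have := haar3
  rw [setIntegral_eq_integral_of_forall_compl_eq_zero fun z hz => ?_]
  · refine integral_HD_eq_zero volume (EE i) (hI _ (hf [])) (hI _ (hf [i])) fun z => ?_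
    by_cases h : z ∈ L.Λ
    · rw [ex_mem _ h]
      exact HD.of_diff (SO_diff L.opn f ⟨z, h⟩)
    · rw [ex_off _ h]
      exact (hZ z h).hasLineDerivAt (EE i)
  · by_cases h : z ∈ L.Λ
    · rw [ex_mem _ h]
      refine DO_zero L.opn hS [i] f h0 ⟨z, h⟩ ((not_lt.1 fun m => hz ⟨h, m⟩).trans_lt ?_)
      nlinarith [h.2.1]
    · exact ex_off _ h

end Pool.Agent.MP_ed9623_an.S64
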