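import Pool.Agent.MP_ed9623_an.S64.SpecL

/-! Interpolation at a given scale. -/

open Filter Topology Set MeasureTheory
open scoped ContDiff

namespace Pool.Agent.MP_ed9623_an.S64

open H64

namespace LInt3

theorem dir_eq (v : ST) (g : S3) :
    D v g = v.1 • DS.d 0 g + v.2.1 • DS.d 1 g + v.2.2 • DS.d 2 g := SA_ext fun z => D_dir v g z

theorem dir_le {v : ST} (hv : ‖v‖ ≤ 1) (y : ST) (j : ℕ) : ∀ (g : S3) (S : ℝ),
    (∀ l : List (Fin 3), l.length = j → |(DS.w l g).1 y| ≤ S) → |((D v)^[j] g).1 y| ≤ 3 ^ j * S := by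
  have h1 : |v.1| ≤ 1 := (norm_fst_le v).trans hv
  have h2 : |v.2.1| ≤ 1 := ((norm_fst_le v.2).trans (norm_snd_le v)).trans hv
  have h3 : |v.2.2| ≤ 1 := ((norm_snd_le v.2).trans (norm_snd_le v)).trans hv
  induction j with
  | zero => exact fun g S h => (h [] rfl).trans_eq (by rw [pow_zero, one_mul])
  | succ j ih =>
    intro g S h
    rw [Function.iterate_succ_apply, pow_succ, mul_assoc]
    refine ih _ _ fun l hl => ?_
    have e : ∀ (i : Fin 3) (c : ℝ), |c| ≤ 1 → |c * (DS.w l (DS.d i g)).1 y| ≤ S := fun i c hc => by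
      rw [abs_mul]
      exact (mul_le_of_le_one_left (abs_nonneg _) hc).trans (h (i :: l) (by simp [hl]))
    rw [dir_eq, DS.w_add, DS.w_add, DS.w_smul, DS.w_smul, DS.w_smul, val_add, val_add, val_smul,
      val_smul, val_smul]
    have := abs_add_three (v.1 * (DS.w l (DS.d 0 g)).1 y) (v.2.1 * (DS.w l (DS.d 1 g)).1 y)
      (v.2.2 * (DS.w l (DS.d 2 g)).1 y)
    linarith [e 0 _ h1, e 1 _ h2, e 2 _ h3]

theorem sm_line (x v : ST) : ContDiff ℝ ∞ fun s : ℝ => x + s • v := by fun_prop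

theorem d_line (x v : ST) (j : ℕ) : ∀ g : S3,
    (D 1)^[j] (pb _ (sm_line x v) g) = pb _ (sm_line x v) ((D v)^[j] g) := by
  induction j with
  | zero => exact fun _ => rfl
  | succ j ih =>
    intro g
    rw [Function.iterate_succ_apply, Function.iterate_succ_apply, ← ih]
    congr 1
    refine SA_ext fun s => D_pb (sm_line x v) g (v := v) ?_
    simpa using ((((hasDerivAt_id (0 : ℝ)).smul_const (1 : ℝ)).const_add s).smul_const v).const_add x

theorem bump : ∃ η : S3, tsupport η.1 ⊆ Metric.ball 0 1 ∧ HasCompactSupport η.1 ∧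
    (∀ v, 0 ≤ η.1 v) ∧ ∫ v, η.1 v = 1 := by
  have := haar3
  let b : ContDiffBump (0 : ST) := ⟨1 / 4, 1 / 2, by norm_num, by norm_num⟩
  refine ⟨mkS (b.normed volume) b.contDiff_normed, ?_, b.hasCompactSupport_normed,
    b.nonneg_normed, b.integral_normed⟩
  rw [mkS_val, b.tsupport_normed_eq]
  exact Metric.closedBall_subset_ball (by norm_num [b])

end LInt3

open LInt3 in
theorem rowInt3 : OfInt3 := by
  intro hF hI l k hk
  have := haar3
  obtain ⟨η, h1, h2, h3, h4⟩ := bump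
  obtain ⟨C, hC, hI⟩ := hI l η h1
  refine ⟨2 * 9 ^ k + 2 * 4 ^ k * C, by positivity, fun f x h S hh hS => ?_⟩
  set g := DS.w l f with hg
  set m := 2 * l.length + 3 with hm
  set E := ∫ y in Metric.ball x (k * h), f.1 y ^ 2 with hE
  have hk' : (1 : ℝ) ≤ k := by exact_mod_cast hk
  have hkh : 0 < k * h := by positivity
  have E0 : 0 ≤ E := integral_nonneg fun y => sq_nonneg _
  have ig : ∀ c : ℝ, Integrable fun v => g.1 (x + c • v) * η.1 v := fun c =>
    Continuous.integrable_of_hasCompactSupport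
      ((g.ct.comp (by fun_prop)).mul η.ct) h2.mul_left
  have iη : Integrable η.1 := η.ct.integrable_of_hasCompactSupport h2
  have fd : ∀ v : ST, ‖v‖ < 1 → |∑ i ∈ Finset.range (k + 1),
      (-1) ^ i * (k.choose i : ℝ) * g.1 (x + (i * h) • v)| ≤ h ^ k * (3 ^ k * S) := fun v hv => by
    refine hF k (pb _ (sm_line x v) g) h _ hh.le fun s hs => ?_
    rw [d_line]
    refine dir_le hv.le (x + s • v) k g S fun l' hl' => ?_
    rw [hg, ← DS.w_append]
    refine hS _ (by simp [hl']) _ ?_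
    rw [add_mem_ball_iff_norm, norm_smul, Real.norm_of_nonneg hs.1]
    exact (mul_le_mul_of_nonneg_right hs.2 (norm_nonneg v)).trans_lt (mul_lt_of_lt_one_right hkh hv)
  have s1 : |∑ i ∈ Finset.range (k + 1), (-1) ^ i * (k.choose i : ℝ) *
      ∫ v, g.1 (x + (i * h) • v) * η.1 v| ≤ h ^ k * (3 ^ k * S) := by
    have e : h ^ k * (3 ^ k * S) = ∫ v, h ^ k * (3 ^ k * S) * η.1 v := by
      rw [integral_const_mul, h4, mul_one]
    simp only [← integral_const_mul]
    rw [← integral_finsetSum _ fun i _ => (ig _).const_mul _, ← Real.norm_eq_abs]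
    refine le_trans ?_ e.ge
    refine norm_integral_le_of_norm_le (iη.const_mul _) (Eventually.of_forall fun v => ?_)
    simp only [← mul_assoc, ← Finset.sum_mul]
    rw [Real.norm_eq_abs, abs_mul, abs_of_nonneg (h3 v)]
    by_cases hv : η.1 v = 0
    · rw [hv, mul_zero, mul_zero]
    · refine mul_le_mul_of_nonneg_right ?_ (h3 v)
      rw [mul_assoc (h ^ k)]
      exact fd v (mem_ball_zero_iff.1 (h1 (subset_tsupport _ hv)))
  have hm0 : 0 < h ^ m := pow_pos hh m
  set T := √(C * E / h ^ m) with hT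
  have T0 : 0 ≤ T := Real.sqrt_nonneg _
  have T2 : T ^ 2 * h ^ m = C * E := by
    rw [hT, Real.sq_sqrt (by positivity), div_mul_cancel₀ _ hm0.ne']
  have s2 : ∀ i ∈ Finset.range k, |∫ v, g.1 (x + (((i + 1 : ℕ) : ℝ) * h) • v) * η.1 v| ≤ T :=
    fun i hi => by
      have i1 : (1 : ℝ) ≤ (i + 1 : ℕ) := by exact_mod_cast Nat.le_add_left 1 i
      have i2 : ((i + 1 : ℕ) : ℝ) ≤ k := by exact_mod_cast Finset.mem_range.1 hi
      refine Real.abs_le_sqrt ((le_div_iff₀ hm0).2 ?_)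
      refine le_trans ?_ ((hI f x _ (by positivity : 0 < ((i + 1 : ℕ) : ℝ) * h)).trans
        (mul_le_mul_of_nonneg_left ?_ hC))
      · exact mul_le_mul_of_nonneg_left
          (pow_le_pow_left₀ hh.le (le_mul_of_one_le_left hh.le i1) m) (sq_nonneg _)
      · exact setIntegral_mono_set (((f.ct.pow 2).continuousOn.integrableOn_compact
          (isCompact_closedBall x (k * h))).mono_set Metric.ball_subset_closedBall)
          (Eventually.of_forall fun y => sq_nonneg _)
          (Metric.ball_subset_ball (mul_le_mul_of_nonneg_right i2 hh.le)).eventuallyLE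
  have s3 : |∑ i ∈ Finset.range k, (-1) ^ (i + 1) * (k.choose (i + 1) : ℝ) *
      ∫ v, g.1 (x + (((i + 1 : ℕ) : ℝ) * h) • v) * η.1 v| ≤ 2 ^ k * T := by
    refine (Finset.abs_sum_le_sum_abs _ _).trans ((Finset.sum_le_sum
      (g := fun i => (k.choose (i + 1) : ℝ) * T) fun i hi => ?_).trans ?_)
    · rw [abs_mul, abs_mul, abs_pow, abs_neg, abs_one, one_pow, one_mul, Nat.abs_cast]
      exact mul_le_mul_of_nonneg_left (s2 i hi) (Nat.cast_nonneg _)
    · rw [← Finset.sum_mul]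
      refine mul_le_mul_of_nonneg_right ?_ T0
      have e := Nat.sum_range_choose k
      rw [Finset.sum_range_succ'] at e
      exact_mod_cast (Nat.le_add_right _ _).trans e.le
  rw [Finset.sum_range_succ'] at s1
  simp only [pow_zero, Nat.choose_zero_right, Nat.cast_one, Nat.cast_zero, zero_mul, zero_smul,
    add_zero, one_mul, integral_const_mul, h4, mul_one] at s1
  have s4 : |g.1 x| ≤ h ^ k * (3 ^ k * S) + 2 ^ k * T := by
    have := abs_sub_abs_le_abs_add (g.1 x) (∑ i ∈ Finset.range k, (-1) ^ (i + 1) *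
      (k.choose (i + 1) : ℝ) * ∫ v, g.1 (x + (((i + 1 : ℕ) : ℝ) * h) • v) * η.1 v)
    rw [add_comm] at this
    linarith
  have s5 : g.1 x ^ 2 ≤ 2 * (h ^ k * (3 ^ k * S)) ^ 2 + 2 * (2 ^ k * T) ^ 2 := by
    have := pow_le_pow_left₀ (abs_nonneg _) s4 2
    rw [sq_abs] at this
    nlinarith [sq_nonneg (h ^ k * (3 ^ k * S) - 2 ^ k * T)]
  have e9 : ((3 : ℝ) ^ k) ^ 2 = 9 ^ k := by rw [← pow_mul, mul_comm, pow_mul]; norm_num
  have e4 : ((2 : ℝ) ^ k) ^ 2 = 4 ^ k := by rw [← pow_mul, mul_comm, pow_mul]; norm_num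
  have s6 : (2 * (h ^ k * (3 ^ k * S)) ^ 2 + 2 * (2 ^ k * T) ^ 2) * h ^ m =
      2 * 9 ^ k * (h ^ (m + 2 * k) * S ^ 2) + 2 * 4 ^ k * C * E := by
    rw [mul_pow, mul_pow, mul_pow, e9, e4]
    linear_combination 2 * 4 ^ k * T2
  refine (mul_le_mul_of_nonneg_right s5 hm0.le).trans ?_
  rw [s6]
  have p1 : 0 ≤ 2 * 9 ^ k * E := by positivity
  have p2 : 0 ≤ 2 * 4 ^ k * C * (h ^ (m + 2 * k) * S ^ 2) := by positivity
  linarith

end Pool.Agent.MP_ed9623_an.S64
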