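import Pool.Agent.MP_ed9623_an.S64.SpecL

/-! The lens above a point of a curve. -/

open Filter Topology Set

namespace Pool.Agent.MP_ed9623_an.S64

open H64

namespace LLnE

theorem small (γ : SA ℝ) {z : ST} {W : Set ST} (hz : z.2.2 = γ.1 z.2.1) (hW : W ∈ 𝓝 z) :
    ∃ L : Lz, L.γ = γ ∧ L.t₀ = z.1 ∧ L.s₀ = z.2.1 ∧
      ∀ y, 0 ≤ L.u.1 y → 0 ≤ L.d.1 y → L.d.1 y ≤ L.u.1 y ^ 2 → y ∈ W := by
  have c : Continuous fun y : ST => ((y.1, y.2.1, y.2.2 + γ.1 y.2.1) : ST) := by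
    have := γ.ct
    fun_prop
  obtain ⟨ε, h0, h1⟩ := Metric.nhds_basis_closedBall.mem_iff.1
    (c.tendsto' (z.1, z.2.1, 0) z (Prod.ext rfl (Prod.ext rfl (by simp [hz]))) hW)
  let L : Lz := ⟨γ, z.1, z.2.1, min ε 1, lt_min h0 one_pos, min_le_right _ _⟩
  refine ⟨L, rfl, rfl, rfl, fun y a b e => ?_⟩
  have h2 : L.δ ≤ ε := min_le_left _ _
  have h3 : L.d.1 y ≤ ε := by
    nlinarith [L.u_le y, L.u_le_one y, L.δ0, L.δ1]
  have h4 : ((y.1, y.2.1, L.d.1 y) : ST) ∈ Metric.closedBall ((z.1, z.2.1, 0) : ST) ε := by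
    simp only [Metric.mem_closedBall, Prod.dist_eq, Real.dist_eq, max_le_iff, sub_zero]
    exact ⟨(L.near a).1.trans h2, (L.near a).2.trans h2, (abs_of_nonneg b).trans_le h3⟩
  simpa [L.d_val, L] using h1 h4

end LLnE

theorem rowLnE : OfLnE := by
  intro hF hL γ z W hz hW
  obtain ⟨L, rfl, ht, hs, h⟩ := LLnE.small γ hz (interior_mem_nhds.2 hW)
  obtain ⟨M, res, h1, h2, h3, h4, h5, h6⟩ := hL L
  have ev : ∀ x f, M.ev x (res f) = f.1 x := fun x f => by rw [h2, h1]; rfl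
  refine ⟨L.Tm, _, _, L.DT, L.Λ, M, res, fun i f => Subtype.ext ?_, h3, h4,
    fun f a => Subtype.ext ?_, fun f a => ?_, fun f b a => ?_⟩
  · change _ = L.D.d i (res f).1
    rw [h1, h1]; exact rs_d L.opn i f
  · rw [h1]
    exact SO_ext fun x => a x (interior_subset (h x x.2.1.le x.2.2.1.le x.2.2.2.le))
  · rw [h6]
    change (res f).1 ∈ L.Ff
    rw [h1]
    exact hF L f _ isOpen_interior (fun y p q => h y p q.ge (q.trans_le (sq_nonneg _)))
      fun y p => a y (interior_subset p)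
  · have u0 : 0 < L.u.1 z := by rw [L.u_val, ht, hs]; simpa using pow_pos L.δ0 2
    have d0 : L.d.1 z = 0 := sub_eq_zero.2 hz
    have e : ∀ c : ℝ, ∀ᶠ y in 𝓝 z, c * L.d.1 y < L.u.1 y ^ 2 := fun c =>
      (continuous_const.mul L.d.ct).continuousAt.eventually_lt (L.u.ct.pow 2).continuousAt
        (by simpa [d0] using pow_pos u0 2)
    filter_upwards [e 1, e b, continuousAt_const.eventually_lt L.u.ct.continuousAt u0]
      with y p q r s
    have m : y ∈ L.Λ := ⟨r, sub_pos.2 s, by simpa using p⟩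
    refine (ev ⟨y, m⟩ f).symm.trans (a _ ?_)
    change _ * M.ev _ M.d < M.ev _ M.u ^ 2
    rw [h4, h5, ev, ev]; exact q

end Pool.Agent.MP_ed9623_an.S64
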