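import Pool.Agent.MP_ed9623_an.S64.SpecL

/-! The structure of the lens. -/

open Filter Topology Set MeasureTheory
open scoped ContDiff

namespace Pool.Agent.MP_ed9623_an.S64

open H64

namespace LLz

variable (L : Lz)

/-- Evaluation. -/
noncomputable def ev (x : L.Λ) : L.Tm →ₐ[ℝ] ℝ :=
  ((Pi.evalAlgHom ℝ (fun _ => ℝ) x).comp (SO L.Λ).val).comp L.Tm.val

theorem ev_val (x : L.Λ) (f : L.Tm) : ev L x f = f.1.1 x := rfl

/-- Restriction. -/
noncomputable def res : S3 →ₐ[ℝ] L.Tm := (rs L.Λ).codRestrict L.Tm L.rs_Tm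

theorem ev_res (x : L.Λ) (f : S3) : ev L x (res L f) = f.1 x := rfl

theorem res_d (i : Fin 3) (f : S3) : L.DT.d i (res L f) = res L (DS.d i f) :=
  Subtype.ext (rs_d L.opn i f).symm

theorem ev_w (x : L.Λ) (l : List (Fin 3)) (f : L.Tm) :
    ev L x (L.DT.w l f) = (L.D.w l f.1).1 x := by
  rw [ev_val, Lz.DT, DR.sub_w]

theorem FF_d (i : Fin 3) (f : L.Tm) (h : f ∈ L.FF) : L.DT.d i f ∈ L.FF := fun l => h (i :: l)

/-- Flat functions which vanish near the outer boundary of the smaller lens. -/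
def JJ (b : ℝ) : Ideal L.Tm where
  carrier := {f | f ∈ L.FF ∧ ∀ x : L.Λ, L.u.1 x ^ 2 < 4 * b / 3 * L.d.1 x → ev L x f = 0}
  add_mem' h h' := ⟨L.FF.add_mem h.1 h'.1, fun x c => by rw [map_add, h.2 x c, h'.2 x c, add_zero]⟩
  zero_mem' := ⟨L.FF.zero_mem, fun x _ => map_zero _⟩
  smul_mem' a f h := ⟨L.FF.mul_mem_left a h.1, fun x c => by
    rw [smul_eq_mul, map_mul, h.2 x c, mul_zero]⟩

theorem JJ_d (b : ℝ) (i : Fin 3) (f : L.Tm) (h : f ∈ JJ L b) : L.DT.d i f ∈ JJ L b :=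
  ⟨FF_d L i f h.1, fun x c => DO_zero L.opn (S := {z | L.u.1 z ^ 2 < 4 * b / 3 * L.d.1 z})
    (isOpen_lt (L.u.ct.pow 2) (continuous_const.mul L.d.ct)) [i] f.1 h.2 x c⟩

theorem int_FF (b : ℝ) {f : L.Tm} (h : f ∈ L.FF) : IntegrableOn (ex f.1.1) (L.dom b) :=
  (L.F0_int (h [])).mono_set fun _ a => a.1

theorem int_congr (b : ℝ) {F : L.Λ → ℝ} {G : ST → ℝ} (h : ∀ x : L.Λ, F x = G x) :
    ∫ z in L.dom b, ex F z = ∫ z in L.dom b, G z :=
  setIntegral_congr_fun (L.opn_dom b).measurableSet fun z a => (ex_mem F a.1).trans (h ⟨z, a.1⟩)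

theorem exists_I (b : ℝ) :
    ∃ I : L.Tm →ₗ[ℝ] ℝ, ∀ f ∈ L.FF, I f = ∫ z in L.dom b, ex f.1.1 z := by
  let I0 : L.FF.restrictScalars ℝ →ₗ[ℝ] ℝ :=
    { toFun := fun f => ∫ z in L.dom b, ex f.1.1.1 z
      map_add' := fun f g => by
        rw [← integral_add (int_FF L b f.2) (int_FF L b g.2)]
        exact int_congr L b fun x => by rw [ex_val, ex_val]; rfl
      map_smul' := fun c f => by
        rw [RingHom.id_apply, ← integral_smul]
        exact int_congr L b fun x => by rw [ex_val]; rfl }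
  obtain ⟨I, hI⟩ := LinearMap.exists_extend (K := ℝ) (V := L.Tm) (V' := ℝ)
    (p := L.FF.restrictScalars ℝ) I0
  exact ⟨I, fun f h => LinearMap.congr_fun hI ⟨f, h⟩⟩

/-- The profile of the cut-off function. -/
noncomputable def be : SA ℝ := mkS (fun s => Real.smoothTransition (3 - 4 * s))
  (Real.smoothTransition.contDiff.comp (by fun_prop))

end LLz

open LLz in
theorem rowLz : OfLz := by
  intro hT hI hV hP L
  obtain ⟨⟨di, di1, di2⟩, ⟨ui, ui1, ui2⟩, ⟨sd, sd1, sd2, sd3⟩, hβ⟩ := hT L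
  choose χ χ1 χ2 using hβ be
  choose I hI' using exists_I L
  have e1 : res L L.d * ⟨di, di1⟩ = 1 := Subtype.ext di2
  have eW : ∀ x, ev L x (res L L.u ^ 2 * ⟨di, di1⟩) = L.u.1 x ^ 2 / L.d.1 x := by
    intro x
    have h := congrArg (ev L x) e1
    rw [map_mul, map_one, ev_res] at h
    rw [map_mul, map_pow, ev_res, eq_inv_of_mul_eq_one_right h, div_eq_mul_inv]
  have eI : ∀ f ∈ L.FF, ∀ (b : ℝ) (N : ℕ) (G : ST → ℝ), (∀ x : L.Λ, ev L x f = G x) →
      I b (((res L L.u ^ 2 * ⟨di, di1⟩) ^ N * f) ^ 2) =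
        ∫ z in L.dom b, ((L.u.1 z ^ 2 / L.d.1 z) ^ N * G z) ^ 2 := by
    intro f hf b N G hG
    rw [hI' b _ (L.FF.pow_mem_of_mem (L.FF.mul_mem_left _ hf) 2 two_pos)]
    refine int_congr L b fun x => ?_
    rw [← ev_val, map_pow, map_mul, map_pow, eW, hG]
  refine ⟨{
    ev := ev L
    A := (res L).range
    A_d := ?_
    A_bd := ?_
    d := res L L.d
    di := ⟨di, di1⟩
    u := res L L.u
    ui := ⟨ui, ui1⟩
    sd := ⟨sd, sd1⟩
    d_di := e1
    u_ui := Subtype.ext ui2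
    sd_sq := Subtype.ext sd2
    dA := ⟨_, rfl⟩
    uA := ⟨_, rfl⟩
    d0 := by rw [res_d, Lz.d, d0_dd, map_zero]
    d2 := by rw [res_d, Lz.d, d2_dd, map_one]
    u2 := by rw [res_d, L.d2_u, map_zero]
    d_pos := fun x => x.2.2.1
    u_pos := fun x => x.2.1
    sd_pos := sd3
    d_lt := fun x => x.2.2.2
    u_le := fun x => L.u_le_one x
    F := L.FF
    F_d := FF_d L
    J := JJ L
    J_le := fun _ _ h => h.1
    J_d := JJ_d L
    I := I
    I_d := fun b hb i f h => (hI' b _ (FF_d L i f h.1)).trans (hI L b i f.1 h.1 hb h.2)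
    I_pos := ?_
    vol := ?_
    χ := fun b => ⟨χ b, χ1 b⟩
    χJ := ?_
    χ1 := ?_
    pb := ?_
    van := ?_ }, res L, fun _ => rfl, fun _ _ => rfl, rfl, rfl, rfl, rfl⟩
  · rintro i _ ⟨f, rfl⟩
    exact ⟨DS.d i f, (res_d L i f).symm⟩
  · rintro _ ⟨f, rfl⟩
    obtain ⟨C, -, hC⟩ := L.bdd f
    exact ⟨C, fun x => hC x x.2⟩
  · intro b f hf h
    rw [hI' b f hf]
    exact setIntegral_nonneg (L.opn_dom b).measurableSet fun z a => by
      rw [ex_mem _ a.1]
      exact h ⟨z, a.1⟩ a.2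
  · refine ⟨volume.real L.Λ, measureReal_nonneg, fun b c f hf hc h => ?_⟩
    have v1 : volume (L.dom b) ≠ ⊤ := ((measure_mono fun _ a => a.1).trans_lt L.vol).ne
    rw [hI' b f hf]
    refine (setIntegral_mono_on (int_FF L b hf) (integrableOn_const v1)
      (L.opn_dom b).measurableSet (g := fun _ => c) fun z a => ?_).trans ?_
    · rw [ex_mem _ a.1]
      exact h ⟨z, a.1⟩ a.2
    · rw [setIntegral_const, smul_eq_mul]
      exact mul_le_mul_of_nonneg_right (measureReal_mono (fun _ a => a.1) L.vol.ne) hc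
  · intro b _ f hf
    refine ⟨L.FF.mul_mem_left _ hf, fun x c => ?_⟩
    have h1 : 3 / 4 < b * L.d.1 x / L.u.1 x ^ 2 := by
      rw [lt_div_iff₀ (pow_pos x.2.1 2)]
      linarith
    rw [map_mul, ev_val, χ2]
    exact mul_eq_zero_of_left (Real.smoothTransition.zero_of_nonpos (by linarith)) _
  · intro b _ l x c
    rw [ev_w]
    refine DO_zero L.opn (S := {z | 2 * b * L.d.1 z < L.u.1 z ^ 2})
      (isOpen_lt (continuous_const.mul L.d.ct) (L.u.ct.pow 2)) l _ (fun y a => ?_) x c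
    have h1 : b * L.d.1 y / L.u.1 y ^ 2 < 1 / 2 := by
      rw [div_lt_iff₀ (pow_pos y.2.1 2)]
      have : 2 * b * L.d.1 y < L.u.1 y ^ 2 := a
      linarith
    change (χ b).1 y - 1 = 0
    rw [χ2, sub_eq_zero]
    exact Real.smoothTransition.one_of_one_le (by linarith)
  · rintro _ ⟨f, rfl⟩ hf l b M hb
    obtain ⟨C, q, h⟩ := hP L f l b M hf hb
    refine ⟨C, q, fun N hN x c => ?_⟩
    have e : ev L x (L.DT.w l (res L f)) = (DS.w l f).1 x := by
      rw [ev_w]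
      exact congrArg (fun g : SO L.Λ => g.1 x) (rs_w L.opn l f).symm
    have h1 := h N hN x ⟨x.2, c⟩
    rw [← eI (res L f) hf b N f.1 fun _ => rfl, ← eW, ← e] at h1
    exact h1
  · intro f hf b M hM h x c c'
    rw [eW] at c'
    exact hV L b M f.1 (hf []) hM
      (h.mono fun N a => by rwa [eI f hf b N (ex f.1.1) fun y => (ex_val _ y).symm] at a) x c c'

end Pool.Agent.MP_ed9623_an.S64
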