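import Pool.Agent.MP_ed9623_an.S64.SpecL

/-! Pointwise bounds by weighted norms. -/

open Filter Topology Set MeasureTheory
open scoped ContDiff

namespace Pool.Agent.MP_ed9623_an.S64

open H64

namespace LPb

theorem lip (L : Lz) (g : S3) : ∃ A : ℝ, 1 ≤ A ∧ ∀ z ∈ L.Λ, ∀ y, dist y z ≤ 1 →
    |g.1 y - g.1 z| ≤ A * dist y z := by
  obtain ⟨K, a, b⟩ := L.cpt
  obtain ⟨R, hR⟩ := a.isBounded.subset_closedBall 0
  obtain ⟨A, hA⟩ := (g.sm.contDiffOn (s := Metric.closedBall 0 (R + 1))).exists_lipschitzOnWith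
    (by simp) (convex_closedBall _ _) (isCompact_closedBall _ _)
  refine ⟨A + 1, by simp, fun z hz y hy => ?_⟩
  have hz' : dist z 0 ≤ R := hR (b hz)
  have := hA.dist_le_mul y (show dist y 0 ≤ R + 1 by linarith [dist_triangle y z 0]) z
    (show dist z 0 ≤ R + 1 by linarith)
  rw [Real.dist_eq] at this
  nlinarith [dist_nonneg (x := y) (y := z)]

theorem unif (L : Lz) {f : S3} (hf : rs L.Λ f ∈ L.Ff) (K m : ℕ) : ∃ C : ℝ, 0 ≤ C ∧
    ∀ l : List (Fin 3), l.length ≤ K → ∀ y ∈ L.Λ, |(DS.w l f).1 y| ≤ C * L.d.1 y ^ m := by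
  choose c hc using fun l => hf l m
  obtain ⟨C, hC⟩ := ((List.finite_length_le (Fin 3) K).image c).bddAbove
  refine ⟨|C|, abs_nonneg C, fun l hl y hy => ?_⟩
  have := hc l ⟨y, hy⟩
  rw [Lz.D, ← rs_w] at this
  exact this.trans (mul_le_mul_of_nonneg_right ((hC ⟨l, hl, rfl⟩).trans (le_abs_self C))
    (pow_pos hy.2.1 m).le)

theorem near {b e u d u' d' : ℝ} (hb : 2 ≤ b) (e0 : 0 ≤ e) (e1 : e ≤ 1 / 8) (u0 : 0 < u)
    (u1 : u ≤ 1) (d0 : 0 < d) (h : 2 * b * d < u ^ 2) (hd : |d' - d| ≤ e * d)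
    (hu : |u' - u| ≤ e * d) : 0 < u' ∧ 0 < d' ∧ d' ≤ 2 * d ∧ b * d' < u' ^ 2 ∧
      (1 - 3 * e) * (u ^ 2 / d) ≤ u' ^ 2 / d' := by
  obtain ⟨h1, h2⟩ := abs_le.1 hd
  have du : d ≤ u := by nlinarith
  have h3 : (1 - e) * u ≤ u' := by nlinarith [(abs_le.1 hu).1]
  have h4 : 0 < (1 - e) * u := mul_pos (by linarith) u0
  have d1 : 0 < d' := by nlinarith
  have h5 : (1 - 3 * e) * (u ^ 2 / d) ≤ u' ^ 2 / d' := by
    rw [← mul_div_assoc, div_le_div_iff₀ d0 d1]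
    have p := pow_le_pow_left₀ h4.le h3 2
    have q : (1 - 3 * e) * u ^ 2 * d' ≤ (1 - 3 * e) * u ^ 2 * ((1 + e) * d) :=
      mul_le_mul_of_nonneg_left (by linarith) (mul_nonneg (by linarith) (sq_nonneg u))
    nlinarith [mul_le_mul_of_nonneg_right p d0.le, mul_nonneg (sq_nonneg (e * u)) d0.le]
  refine ⟨h4.trans_le h3, d1, by nlinarith, ?_, h5⟩
  rw [← lt_div_iff₀ d1]
  have := (lt_div_iff₀ d0).2 h
  nlinarith

theorem intg (L : Lz) {f : S3} (hf : rs L.Λ f ∈ L.Ff) (N : ℕ) :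
    IntegrableOn (fun y => ((L.u.1 y ^ 2 / L.d.1 y) ^ N * f.1 y) ^ 2) L.Λ := by
  obtain ⟨C, C0, hC⟩ := unif L hf 0 N
  refine L.int (C := C ^ 2) ((((L.u.ct.pow 2).continuousOn.div L.d.ct.continuousOn
    fun z h => h.2.1.ne').pow N).mul f.ct.continuousOn |>.pow 2) fun z h => ?_
  rw [abs_pow]
  refine pow_le_pow_left₀ (abs_nonneg _) ?_ 2
  have p := pow_pos h.2.1 N
  have a : |f.1 z| ≤ C * L.d.1 z ^ N := hC [] le_rfl z h
  have c : (L.u.1 z ^ 2) ^ N ≤ 1 := pow_le_one₀ (sq_nonneg _) (pow_le_one₀ h.1.le (L.u_le_one z))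
  rw [abs_mul, div_pow, abs_of_nonneg (div_nonneg (pow_nonneg (sq_nonneg _) N) p.le), div_mul_eq_mul_div,
    div_le_iff₀ p]
  exact (mul_le_of_le_one_left (abs_nonneg _) c).trans a

end LPb

open LPb in
theorem rowPb : OfPb := by
  intro h0 L f l b M hf hb
  obtain ⟨K, q, C, C0, hC⟩ := h0 l
  obtain ⟨A, A1, hA⟩ := lip L L.d
  obtain ⟨B, B1, hB⟩ := lip L L.u
  obtain ⟨C1, c0, hS⟩ := unif L hf K (M + q)
  refine ⟨64 * C * (C1 * 2 ^ (M + q)) ^ 2 * (8 * (A + B)) ^ q, q, fun N hN z hz => ?_⟩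
  have N1 : (1 : ℝ) ≤ N := by exact_mod_cast hN
  have d0 := hz.1.2.1
  have d1 := L.d_le_one hz.1
  obtain ⟨e, he⟩ : ∃ e : ℝ, e = 1 / (8 * N) := ⟨_, rfl⟩
  have e0 : 0 < e := by rw [he]; positivity
  have eN : e * N = 1 / 8 := by rw [he]; field_simp
  have e1 : e ≤ 1 / 8 := by nlinarith
  obtain ⟨r, hr⟩ : ∃ r : ℝ, r = e * L.d.1 z / (A + B) := ⟨_, rfl⟩
  have r0 : 0 < r := by rw [hr]; positivity
  have rA : (A + B) * r = e * L.d.1 z := by rw [hr]; field_simp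
  have r1 : r ≤ 1 := by nlinarith
  have nr := fun y (hy : y ∈ Metric.ball z r) => near hb e0.le e1 hz.1.1 (L.u_le_one z) d0 hz.2
    ((hA z hz.1 y (hy.le.trans r1)).trans (by nlinarith [Metric.mem_ball.1 hy]))
    ((hB z hz.1 y (hy.le.trans r1)).trans (by nlinarith [Metric.mem_ball.1 hy]))
  have sub : Metric.ball z r ⊆ L.dom b := fun y hy =>
    have a := nr y hy
    ⟨⟨a.1, a.2.1, by nlinarith [a.2.1, a.2.2.2.1]⟩, a.2.2.2.1⟩
  have key := hC f z r (C1 * (2 * L.d.1 z) ^ (M + q)) r0 r1 fun l' hl y hy =>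
    (hS l' hl y (sub hy).1).trans (mul_le_mul_of_nonneg_left
      (pow_le_pow_left₀ (nr y hy).2.1.le (nr y hy).2.2.1 _) c0)
  obtain ⟨P, hP⟩ : ∃ P, P = L.u.1 z ^ 2 / L.d.1 z := ⟨_, rfl⟩
  have P0 : 0 ≤ P := by rw [hP]; positivity
  have i1 := intg L hf N
  have i0 : IntegrableOn (fun y => f.1 y ^ 2) (Metric.ball z r) := by
    simpa using (intg L hf 0).mono_set fun y hy => (sub hy).1
  have m1 : (P ^ N / 2) ^ 2 * ∫ y in Metric.ball z r, f.1 y ^ 2 ≤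
      ∫ y in L.dom b, ((L.u.1 y ^ 2 / L.d.1 y) ^ N * f.1 y) ^ 2 := by
    rw [← integral_const_mul]
    refine (setIntegral_mono_on (i0.const_mul _) (i1.mono_set fun y hy => (sub hy).1)
      Metric.isOpen_ball.measurableSet fun y hy => ?_).trans (setIntegral_mono_set
        (i1.mono_set fun y hy => hy.1) (Eventually.of_forall fun y => sq_nonneg _) sub.eventuallyLE)
    rw [mul_pow]
    refine mul_le_mul_of_nonneg_right (pow_le_pow_left₀ (by positivity) ?_ 2) (sq_nonneg _)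
    refine le_trans ?_ (pow_le_pow_left₀ (mul_nonneg (by linarith) (hP ▸ P0)) (nr y hy).2.2.2.2 N)
    have := one_add_mul_le_pow (a := -(3 * e)) (by linarith) N
    rw [mul_pow, ← hP, sub_eq_add_neg]
    nlinarith [pow_nonneg P0 N]
  have J0 : 0 ≤ ∫ y in Metric.ball z r, f.1 y ^ 2 := integral_nonneg fun y => sq_nonneg _
  rw [← hP]
  generalize ∫ y in Metric.ball z r, f.1 y ^ 2 = J at key m1 J0
  generalize ∫ y in L.dom b, ((L.u.1 y ^ 2 / L.d.1 y) ^ N * f.1 y) ^ 2 = E at m1 ⊢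
  have m3 := pow_le_pow_left₀ (by positivity) m1 3
  have E0 : 0 ≤ E ^ 3 := le_trans (by positivity) m3
  have rq : (8 * (A + B)) ^ q * N ^ q * r ^ q = L.d.1 z ^ q := by
    rw [← mul_pow, ← mul_pow]
    congr 1
    linear_combination 8 * N * rA + 8 * L.d.1 z * eN
  have dm : L.d.1 z ^ (M + q) ≤ 1 := pow_le_one₀ d0.le d1
  refine le_of_mul_le_mul_right ?_ (pow_pos r0 q)
  calc (DS.w l f).1 z ^ 8 * P ^ (6 * N) * r ^ q = (DS.w l f).1 z ^ 8 * r ^ q * P ^ (6 * N) := by ring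
    _ ≤ C * (C1 * (2 * L.d.1 z) ^ (M + q)) ^ 2 * J ^ 3 * P ^ (6 * N) :=
      mul_le_mul_of_nonneg_right key (pow_nonneg P0 _)
    _ = 64 * C * (C1 * 2 ^ (M + q)) ^ 2 * L.d.1 z ^ (M + q) *
      (L.d.1 z ^ (M + q) * ((P ^ N / 2) ^ 2 * J) ^ 3) := by rw [mul_pow 2]; ring
    _ ≤ 64 * C * (C1 * 2 ^ (M + q)) ^ 2 * L.d.1 z ^ (M + q) * (1 * E ^ 3) :=
      mul_le_mul_of_nonneg_left (mul_le_mul dm m3 (by positivity) zero_le_one) (by positivity)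
    _ = _ := by rw [pow_add (L.d.1 z), ← rq]; ring

end Pool.Agent.MP_ed9623_an.S64
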