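import Pool.Agent.MP_ed9623_an.S64.SpecL

/-! Interpolation at the best scale. -/

open Filter Topology Set MeasureTheory

namespace Pool.Agent.MP_ed9623_an.S64

open H64

namespace LPb0

/-- The choice of the scale. -/
theorem opt {m : ℕ} (hm : 1 ≤ m) {C a S e r : ℝ} (hC : 0 ≤ C) (he : 0 ≤ e) (ha : |a| ≤ S)
    (r0 : 0 < r) (r1 : r ≤ 1)
    (H : ∀ h, 0 < h → h ≤ r → a ^ 2 * h ^ m ≤ C * (h ^ (m + 2 * (2 * m)) * S ^ 2 + e)) :
    a ^ 8 * r ^ (3 * m) ≤ 8 * C ^ 3 * (2 * C + 1) * S ^ 2 * e ^ 3 := by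
  rcases eq_or_ne a 0 with rfl | a0
  · rw [zero_pow (by norm_num), zero_mul]
    positivity
  have a2 : 0 < a ^ 2 := by positivity
  have aS : a ^ 2 ≤ S ^ 2 := by rw [← sq_abs a]; gcongr
  have S2 : 0 < S ^ 2 := a2.trans_le aS
  have p : 0 < (2 * C + 1) * S ^ 2 := by positivity
  obtain ⟨τ, t0, ht⟩ : ∃ τ : ℝ, 0 < τ ∧ τ ^ (3 * m) = a ^ 2 / ((2 * C + 1) * S ^ 2) :=
    ⟨_, Real.rpow_pos_of_pos (by positivity) _,
      Real.rpow_inv_natCast_pow (by positivity) (by omega)⟩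
  have t1 : τ ≤ 1 := (pow_le_one_iff_of_nonneg t0.le (by omega : 3 * m ≠ 0)).1
    (ht ▸ (div_le_one p).2 (by nlinarith))
  rw [eq_div_iff p.ne'] at ht
  have h0 := mul_pos t0 r0
  have h1 : (τ * r) ^ (2 * (2 * m)) ≤ τ ^ (3 * m) :=
    (pow_le_pow_left₀ h0.le (mul_le_of_le_one_right t0.le r1) _).trans
      (pow_le_pow_of_le_one t0.le t1 (by omega))
  have h2 := H _ h0 (mul_le_of_le_one_left r0.le t1)
  have h3 : C * ((τ * r) ^ (2 * (2 * m)) * S ^ 2) ≤ a ^ 2 / 2 := by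
    refine le_trans (by gcongr) (?_ : C * (τ ^ (3 * m) * S ^ 2) ≤ _)
    nlinarith [mul_pos (pow_pos t0 (3 * m)) S2]
  have h4 : a ^ 2 * (τ * r) ^ m ≤ 2 * C * e := by
    rw [pow_add] at h2
    nlinarith [mul_le_mul_of_nonneg_left h3 (pow_pos h0 m).le]
  have h5 := mul_le_mul_of_nonneg_right (pow_le_pow_left₀ (by positivity) h4 3) p.le
  calc _ = a ^ 6 * r ^ (3 * m) * (τ ^ (3 * m) * ((2 * C + 1) * S ^ 2)) := by rw [ht]; ring
    _ = (a ^ 2 * (τ * r) ^ m) ^ 3 * ((2 * C + 1) * S ^ 2) := by ring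
    _ ≤ _ := h5.trans_eq (by ring)

end LPb0

theorem rowPb0 : OfPb0 := by
  intro hI l
  obtain ⟨m, hm⟩ : ∃ m, m = 2 * l.length + 3 := ⟨_, rfl⟩
  obtain ⟨C, hC, H⟩ := hI l (2 * m) (by omega)
  have k1 : (1 : ℝ) ≤ (2 * m : ℕ) := by exact_mod_cast (by omega : 1 ≤ 2 * m)
  refine ⟨l.length + 2 * m, 3 * m, ((2 * m : ℕ) : ℝ) ^ (3 * m) * (8 * C ^ 3 * (2 * C + 1)),
    by positivity, fun f x r S r0 r1 hS => ?_⟩
  generalize hk : ((2 * m : ℕ) : ℝ) = k at *
  have k0 : 0 < k := by positivity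
  have := haar3
  have hi : IntegrableOn (fun y => f.1 y ^ 2) (Metric.ball x r) :=
    ((f.ct.pow 2).continuousOn.integrableOn_compact (isCompact_closedBall x r)).mono_set
      Metric.ball_subset_closedBall
  have := LPb0.opt (m := m) (by omega) hC (e := ∫ y in Metric.ball x r, f.1 y ^ 2)
    (integral_nonneg fun y => sq_nonneg _) (hS l (by omega) x (Metric.mem_ball_self r0))
    (div_pos r0 k0) ((div_le_self r0.le k1).trans r1) fun h h0 h1 => by
      have s : Metric.ball x (k * h) ⊆ Metric.ball x r :=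
        Metric.ball_subset_ball ((le_div_iff₀' k0).1 h1)
      have := H f x h S h0 fun l' a y b => hS l' a.le y (s b)
      rw [← hm] at this
      refine this.trans (mul_le_mul_of_nonneg_left (add_le_add le_rfl ?_) hC)
      exact setIntegral_mono_set hi (.of_forall fun y => sq_nonneg _) s.eventuallyLE
  rw [div_pow, ← mul_div_assoc, div_le_iff₀ (by positivity)] at this
  exact this.trans_eq (by ring)

end Pool.Agent.MP_ed9623_an.S64
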