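import Pool.Agent.MP_ed9623_an.S64.SpecL

/-! Temperate functions on the lens. -/

open Filter Topology Set MeasureTheory
open scoped ContDiff

namespace Pool.Agent.MP_ed9623_an.S64

open H64

namespace LTm

variable (L : Lz)

theorem gen {G : Set (SO L.Λ)} (h0 : G ⊆ L.T0)
    (hd : ∀ i, ∀ g ∈ G, L.D.d i g ∈ Algebra.adjoin ℝ G) : ∀ f ∈ G, f ∈ L.Tm := by
  have a : ∀ f ∈ Algebra.adjoin ℝ G, f ∈ L.T0 ∧ ∀ i, L.D.d i f ∈ Algebra.adjoin ℝ G := by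
    intro f hf
    induction hf using Algebra.adjoin_induction with
    | mem x hx => exact ⟨h0 hx, fun i => hd i x hx⟩
    | algebraMap r =>
      exact ⟨L.Tm.algebraMap_mem r [], fun i => by rw [L.D.d_alg]; exact zero_mem _⟩
    | add x y _ _ a b =>
      exact ⟨L.T0_add _ a.1 _ b.1, fun i => by rw [map_add]; exact add_mem (a.2 i) (b.2 i)⟩
    | mul x y hx hy a b =>
      exact ⟨L.T0_mul _ a.1 _ b.1, fun i => by
        rw [L.D.mul]; exact add_mem (mul_mem (a.2 i) hy) (mul_mem hx (b.2 i))⟩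
  exact fun f hf l => (a _ (L.D.w_mem (S := Algebra.adjoin ℝ G) (fun i f h => (a f h).2 i) l f
    (Algebra.subset_adjoin hf))).1

theorem Tm_d {f : SO L.Λ} (h : f ∈ L.Tm) (i : Fin 3) : L.D.d i f ∈ L.Tm := fun l => h (i :: l)

theorem ext {G : Set (SO L.Λ)} (h0 : G ⊆ L.T0)
    (hd : ∀ i, ∀ g ∈ G, ∃ a ∈ L.Tm, ∃ g' ∈ G, ∃ k : ℕ, L.D.d i g = a * g' ^ k) :
    ∀ f ∈ G, f ∈ L.Tm := fun f hf =>
  gen L (G := (L.Tm : Set (SO L.Λ)) ∪ G) (union_subset (fun _ h => h []) h0) (fun i g hg => by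
    rcases hg with hg | hg
    · exact Algebra.subset_adjoin (.inl (Tm_d L hg i))
    · obtain ⟨a, ha, g', hg', k, e⟩ := hd i g hg
      rw [e]
      exact mul_mem (Algebra.subset_adjoin (.inl ha))
        (pow_mem (Algebra.subset_adjoin (.inr hg')) k)) f (.inr hf)

theorem inv (f : S3) (h : ∀ z ∈ L.Λ, L.d.1 z ≤ f.1 z) : ∃ g ∈ L.Tm, rs L.Λ f * g = 1 := by
  have p : ∀ z ∈ L.Λ, 0 < f.1 z := fun z a => a.2.1.trans_le (h z a)
  let g : SO L.Λ := mkO (fun z => (f.1 z)⁻¹) (f.sm.contDiffOn.inv fun z a => (p z a).ne')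
  have e : rs L.Λ f * g = 1 := SO_ext fun x => mul_inv_cancel₀ (p x x.2).ne'
  refine ⟨g, ext L (G := {g}) (singleton_subset_iff.2 ⟨1, 1, fun x => ?_⟩) (fun i g' hg => ?_) g rfl,
    e⟩
  · rw [pow_one, mkO_val, abs_of_pos (inv_pos.2 (p x x.2)), inv_mul_le_iff₀ (p x x.2), mul_one]
    exact h x x.2
  · rw [mem_singleton_iff.1 hg]
    exact ⟨_, neg_mem (Tm_d L (L.rs_Tm f) i), g, rfl, 2, (L.D.d_inv i e).trans (by ring)⟩

theorem d_le_u {z : ST} (h : z ∈ L.Λ) : L.d.1 z ≤ L.u.1 z := by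
  have := L.u_le_one z
  nlinarith [h.1, h.2.2]

theorem sqrt : ∃ sd ∈ L.Tm, sd * sd = rs L.Λ L.d ∧ ∀ x, 0 < sd.1 x := by
  obtain ⟨di, h, e⟩ := inv L L.d fun _ _ => le_rfl
  let g : SO L.Λ := mkO (fun z => √(L.d.1 z)) (L.d.sm.contDiffOn.sqrt fun z a => a.2.1.ne')
  have e' : g * g = rs L.Λ L.d := SO_ext fun x => Real.mul_self_sqrt x.2.2.1.le
  refine ⟨g, ext L (G := {g}) (singleton_subset_iff.2 (L.T0_of (C := 1) fun x => ?_))
    (fun i g' hg => ?_) g rfl, e', fun x => Real.sqrt_pos.2 x.2.2.1⟩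
  · rw [mkO_val, abs_of_nonneg (Real.sqrt_nonneg _)]
    exact Real.sqrt_le_one.2 (L.d_le_one x.2)
  · rw [mem_singleton_iff.1 hg]
    refine ⟨_, mul_mem (L.Tm.algebraMap_mem (1 / 2)) (mul_mem (Tm_d L (L.rs_Tm L.d) i) h), g, rfl,
      1, ?_⟩
    have a := congrArg (L.D.d i) e'
    have b : algebraMap ℝ (SO L.Λ) (1 / 2) * 2 = 1 := by
      rw [← map_ofNat (algebraMap ℝ (SO L.Λ)) 2, ← map_mul]
      norm_num
    rw [L.D.mul] at a
    linear_combination algebraMap ℝ (SO L.Λ) (1 / 2) * g * di * a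
      - L.D.d i g * (g * g * di) * b - L.D.d i g * di * e' - L.D.d i g * e

/-- Composition with a smooth function of one variable. -/
noncomputable def cmp (θ : SO L.Λ) (β : SA ℝ) : SO L.Λ :=
  mkO (fun z => β.1 (ex θ.1 z)) (β.sm.comp_contDiffOn θ.2)

theorem cmp_val (θ : SO L.Λ) (β : SA ℝ) (x : L.Λ) : (cmp L θ β).1 x = β.1 (θ.1 x) := by
  rw [cmp, mkO_val, ex_val]

theorem d_cmp (θ : SO L.Λ) (β : SA ℝ) (i : Fin 3) :
    L.D.d i (cmp L θ β) = L.D.d i θ * cmp L θ (D 1 β) := SO_ext fun x => by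
  have a := SO_diff L.opn θ x
  refine (DO_eq L.opn i (F := fun z => β.1 (ex θ.1 z)) (fun _ => rfl) x).trans
    (HD.pd_eq ?_ ((hd_one β _).differentiableAt.comp x.1 a))
  have b := (hd_one β _).comp (0 : ℝ) (HD.of_diff (e := EE i) a)
  rw [zero_smul, add_zero, mul_comm] at b
  exact b

theorem cmp_Tm {θ : SO L.Λ} (h : θ ∈ L.Tm) {b : ℝ} (hb : ∀ x, |θ.1 x| ≤ b) (β : SA ℝ) :
    cmp L θ β ∈ L.Tm := by
  refine ext L (G := range (cmp L θ)) ?_ ?_ _ ⟨β, rfl⟩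
  · rintro _ ⟨β, rfl⟩
    obtain ⟨C, hC⟩ := (isCompact_Icc (a := -b) (b := b)).exists_bound_of_continuousOn
      β.ct.continuousOn
    exact L.T0_of (C := C) fun x => by rw [cmp_val]; exact hC _ (abs_le.1 (hb x))
  · rintro i _ ⟨β, rfl⟩
    exact ⟨_, Tm_d L h i, _, ⟨D 1 β, rfl⟩, 1, by rw [pow_one, d_cmp]⟩

end LTm

open LTm in
theorem rowTm : OfTm := by
  intro L
  obtain ⟨ui, h, e⟩ := inv L L.u fun _ => d_le_u L
  refine ⟨inv L L.d fun _ _ => le_rfl, ⟨ui, h, e⟩, sqrt L, fun β b => ?_⟩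
  have v : ∀ x : L.Λ, (b • (rs L.Λ L.d * (ui * ui))).1 x = b * L.d.1 x / L.u.1 x ^ 2 := fun x => by
    have a : L.u.1 x * ui.1 x = 1 := congrArg (fun f : SO L.Λ => f.1 x) e
    change b * (L.d.1 x * (ui.1 x * ui.1 x)) = _
    rw [eq_inv_of_mul_eq_one_right a]
    have := x.2.1.ne'
    field_simp
  refine ⟨_, cmp_Tm L (L.Tm.smul_mem (mul_mem (L.rs_Tm L.d) (mul_mem h h)) b) (b := |b|)
    (fun x => ?_) β, fun x => by rw [cmp_val, v]⟩
  have p := pow_pos x.2.1 2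
  rw [v, mul_div_assoc, abs_mul, abs_of_pos (div_pos x.2.2.1 p)]
  exact mul_le_of_le_one_right (abs_nonneg b) ((div_le_one p).2 x.2.2.2.le)

end Pool.Agent.MP_ed9623_an.S64
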