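import Pool.Agent.MP_ed9623_an.S64.SpecA

/-! The weighted Hardy inequality along a vector field. -/

namespace Pool.Agent.MP_ed9623_an.S64

theorem rowHardy : OfHardy := by
  intro R _ _ D X C a b E m v g hE hv H
  set T := -(2 * (a * g 1 + b * g 2) + D.dv a b) * m - D.V a b m with hT
  have hw : E * v ∈ C.J := C.J.mul_mem_left _ hv
  have hF : E * D.V a b v ∈ C.J := C.J.mul_mem_left _
    (add_mem (C.J.mul_mem_left _ (C.J_d 1 v hv)) (C.J.mul_mem_left _ (C.J_d 2 v hv)))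
  have hs : ∀ f ∈ C.J, f ^ 2 ∈ C.J := fun f h => by rw [sq]; exact C.J.mul_mem_left _ h
  have key : (4 : ℝ) • (E * D.V a b v) ^ 2 = m ^ 2 * (E * v) ^ 2
      + ((2 * (E * D.V a b v) - m * (E * v)) ^ 2 + 2 * (T - m ^ 2) * (E * v) ^ 2)
      + D.d 1 (2 * a * m * (E * v) ^ 2) + D.d 2 (2 * b * m * (E * v) ^ 2) := by
    simp only [hT, DR.V, DR.dv, D.mul, D.d_sq, D.d_ofNat, hE, Algebra.smul_def, map_ofNat]
    ring
  have p := C.I_pos _ (add_mem
    (hs _ (sub_mem (C.J.mul_mem_left 2 hF) (C.J.mul_mem_left m hw)))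
    (C.J.mul_mem_left (2 * (T - m ^ 2)) (hs _ hw))) fun x => by
      have h : C.ev x (m ^ 2) ≤ C.ev x T := H x
      rw [map_add, map_pow, map_mul, map_mul, map_pow, map_sub (C.ev x) T, map_ofNat]
      have := sub_nonneg.2 h
      positivity
  have e := congrArg C.I key
  rw [map_smul, map_add, map_add, map_add, C.I_d 1 _ (C.J.mul_mem_left _ (hs _ hw)),
    C.I_d 2 _ (C.J.mul_mem_left _ (hs _ hw)), smul_eq_mul] at e
  linarith

end Pool.Agent.MP_ed9623_an.S64
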