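import Pool.Agent.MP_ed9623_an.S64.SpecA

/-! Inversion of the Laplace and heat operators in the weighted classes. -/

open Filter Topology

namespace Pool.Agent.MP_ed9623_an.S64

namespace AInvR

theorem num (N : ℝ) (hN : 1 ≤ N) (m p : ℤ) (r q : ℕ) (X Y Z W K C T₁ T₂ g s B : ℝ) (hK : 0 ≤ K)
    (hC : 0 ≤ C) (hT₁ : 0 ≤ T₁) (hT₂ : 0 ≤ T₂) (hg : 0 ≤ g) (hB : 0 ≤ B) (hs : B ≤ s)
    (h1 : X ≤ 2 * Y + T₁ * B) (h2 : N ^ (2 * r) * Y ≤ N * K * Z) (h3 : Z ≤ 2 * W + T₂ * B)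
    (h4 : W / N ^ (2 * m) ≤ C * (N ^ p * g + N ^ q * s)) :
    X / N ^ (2 * (m - r)) ≤ (4 * K * C + 2 * K * T₂ + T₁) *
      (N ^ (p + 1) * g + N ^ (q + 1 + 2 * r + 2 * m.natAbs) * s) := by
  have hN0 : 0 < N := by linarith
  have hs0 : 0 ≤ s := hB.trans hs
  obtain ⟨u, hu⟩ : ∃ u : ℝ, u = (N ^ (2 * m))⁻¹ := ⟨_, rfl⟩
  have hu0 : 0 < u := by rw [hu]; positivity
  have hu1 : u ≤ N ^ (2 * m.natAbs) := by
    rw [hu, ← zpow_neg, ← zpow_natCast]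
    exact zpow_le_zpow_right₀ hN (by omega)
  have e1 : X / N ^ (2 * (m - r)) = N ^ (2 * r) * X * u := by
    rw [hu, mul_sub, zpow_sub₀ hN0.ne', ← zpow_natCast]
    push_cast
    field_simp
  rw [div_eq_mul_inv, ← hu] at h4
  obtain ⟨Q, hQ⟩ : ∃ Q : ℝ, Q = N ^ (q + 1 + 2 * r + 2 * m.natAbs) := ⟨_, rfl⟩
  have q1 : N * N ^ q ≤ Q := by
    rw [hQ, ← pow_succ']
    exact pow_le_pow_right₀ hN (by omega)
  have q2 : N * u ≤ Q := by
    refine (mul_le_mul_of_nonneg_left hu1 hN0.le).trans ?_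
    rw [hQ, ← pow_succ']
    exact pow_le_pow_right₀ hN (by omega)
  have q3 : N ^ (2 * r) * u ≤ Q := by
    refine (mul_le_mul_of_nonneg_left hu1 (by positivity)).trans ?_
    rw [hQ, ← pow_add]
    exact pow_le_pow_right₀ hN (by omega)
  have hQ0 : 0 ≤ Q := by rw [hQ]; positivity
  have hp : 0 ≤ N ^ p * N * g := by positivity
  rw [e1, ← hQ, zpow_add_one₀ hN0.ne']
  calc N ^ (2 * r) * X * u ≤ N ^ (2 * r) * (2 * Y + T₁ * B) * u := by gcongr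
    _ = 2 * (N ^ (2 * r) * Y) * u + T₁ * (N ^ (2 * r) * u * B) := by ring
    _ ≤ 2 * (N * K * (2 * W + T₂ * B)) * u + T₁ * (Q * s) := by
        have : N ^ (2 * r) * Y ≤ N * K * (2 * W + T₂ * B) :=
          h2.trans (mul_le_mul_of_nonneg_left h3 (by positivity))
        gcongr
    _ = 4 * K * (N * (W * u)) + 2 * K * T₂ * (N * u * B) + T₁ * (Q * s) := by ring
    _ ≤ 4 * K * (N * (C * (N ^ p * g + N ^ q * s))) + 2 * K * T₂ * (Q * s) + T₁ * (Q * s) := by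
        gcongr
    _ = 4 * K * C * (N ^ p * N * g + N * N ^ q * s) + (2 * K * T₂ + T₁) * (Q * s) := by ring
    _ ≤ 4 * K * C * (N ^ p * N * g + Q * s) + (2 * K * T₂ + T₁) * (N ^ p * N * g + Q * s) := by
        gcongr
        linarith
    _ = _ := by ring

variable {R : Type} [CommRing R] [Algebra ℝ R] {D : DR R} {X : Type} (L : Ln D X)

theorem split (b : ℝ) (s : ℤ) {a t : R} (ha : a ∈ L.F) (ht : t ∈ L.F)
    (h : ∀ x ∈ L.dom (2 * b), L.ev x t = 0) : ∃ T : ℝ, 0 ≤ T ∧ ∀ (N : ℕ),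
      L.I b ((L.Wt N s * (a + t)) ^ 2) ≤ 2 * L.I b ((L.Wt N s * a) ^ 2) + T * (4 * b ^ 2) ^ N := by
  refine ⟨2 * |L.I b (1 * (L.dz s * t) ^ 2)|, by positivity, fun N => ?_⟩
  have h1 := L.tail (b := b) (μ := 1) (fun x => by simp) ht h N s
  have h2 : L.I b ((L.Wt N s * (a + t)) ^ 2) ≤
      L.I b ((2 : ℝ) • (L.Wt N s * a) ^ 2 + (2 : ℝ) • (1 * (L.Wt N s * t) ^ 2)) := by
    refine L.I_mono (L.sq_mem (add_mem ha ht) _) (add_mem ?_ ?_) fun x _ => ?_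
    · rw [Algebra.smul_def]
      exact L.F.mul_mem_left _ (L.sq_mem ha _)
    · rw [Algebra.smul_def]
      exact L.F.mul_mem_left _ (L.F.mul_mem_left _ (L.sq_mem ht _))
    · simp only [map_add, map_smul, map_mul, map_pow, map_one, smul_eq_mul]
      nlinarith [sq_nonneg (L.ev x (L.Wt N s) * (L.ev x a - L.ev x t))]
  rw [map_add, map_smul, map_smul, smul_eq_mul, smul_eq_mul] at h2
  have h3 : (4 * b ^ 2) ^ N * L.I b (1 * (L.dz s * t) ^ 2)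
      ≤ (4 * b ^ 2) ^ N * |L.I b (1 * (L.dz s * t) ^ 2)| :=
    mul_le_mul_of_nonneg_left (le_abs_self _) (by positivity)
  linarith

theorem van {b : ℝ} (hb : 2 ≤ b) (f : R) (l : List (Fin 3)) (x : X) (hx : x ∈ L.dom (2 * b)) :
    L.ev x (D.w l ((L.χ b - 1) * f)) = 0 :=
  D.w_mul_mem (S := {a | L.ev x a = 0}) (T := Set.univ) (U := {a | L.ev x a = 0})
    (fun a ha c hc => by
      show L.ev x (a + c) = 0
      rw [map_add, show L.ev x a = 0 from ha, show L.ev x c = 0 from hc, add_zero])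
    (fun a ha c _ => by
      show L.ev x (a * c) = 0
      rw [map_mul, show L.ev x a = 0 from ha, zero_mul])
    l _ _ (fun l => L.χ1 b hb l x hx) fun _ => Set.mem_univ _

theorem op_mem (ε : ℝ) {f : R} (hf : f ∈ L.F) : ε • D.d 0 f - D.lap f ∈ L.F := by
  rw [Algebra.smul_def]
  exact sub_mem (L.F.mul_mem_left _ (L.F_d _ _ hf))
    (add_mem (L.F_d _ _ (L.F_d _ _ hf)) (L.F_d _ _ (L.F_d _ _ hf)))

theorem core (s : ℝ → ℕ → ℝ) (hs : ∀ b N, (4 * b ^ 2) ^ N ≤ s b N) (g : ℝ → ℕ → NNReal)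
    (m p : ℤ) (ε : ℝ) {f : R} (hf : f ∈ L.F) (hP : ε • D.d 0 f - D.lap f ∈ L.Rw s g m p)
    (l : List (Fin 3)) (r : ℕ)
    (h : ∀ᶠ b : ℝ in atTop, ∃ K : ℝ, 0 ≤ K ∧ ∀ᶠ N : ℕ in atTop, ∀ v ∈ L.J b,
      (N : ℝ) ^ (2 * r) * L.I b ((L.Wt N (m - r) * D.w l v) ^ 2)
        ≤ N * K * L.I b ((L.Wt N m * (ε • D.d 0 v - D.lap v)) ^ 2)) :
    D.w l f ∈ L.Rw s g (m - r) (p + 1) := by
  have hw : ∀ a ∈ L.F, D.w l a ∈ L.F := D.w_mem (S := (L.F : Set R)) L.F_d l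
  refine ⟨hw f hf, ?_⟩
  filter_upwards [h, hP.2, eventually_ge_atTop 2] with b ⟨K, hK, h1⟩ ⟨C, q, hC, h2⟩ hb
  have hv := L.χJ b hb f hf
  have ht : (L.χ b - 1) * f ∈ L.F := L.F.mul_mem_left _ hf
  obtain ⟨T₁, hT₁, a1⟩ := split L b (m - r) (hw _ (L.J_le b hv)) (neg_mem (hw _ ht))
    fun x hx => by rw [map_neg, van L hb f l x hx, neg_zero]
  obtain ⟨T₂, hT₂, a2⟩ := split L b m (op_mem L ε hf) (op_mem L ε ht) fun x hx => by
    have b0 : L.ev x (D.d 0 ((L.χ b - 1) * f)) = 0 := van L hb f [0] x hx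
    have b1 : L.ev x (D.d 1 (D.d 1 ((L.χ b - 1) * f))) = 0 := van L hb f [1, 1] x hx
    have b2 : L.ev x (D.d 2 (D.d 2 ((L.χ b - 1) * f))) = 0 := van L hb f [2, 2] x hx
    rw [map_sub, map_smul, DR.lap, map_add, b0, b1, b2]
    simp
  have e1 : D.w l (L.χ b * f) + -D.w l ((L.χ b - 1) * f) = D.w l f := by
    rw [← sub_eq_add_neg, ← D.w_sub]
    congr 1
    ring
  have e2 : ε • D.d 0 f - D.lap f + (ε • D.d 0 ((L.χ b - 1) * f) - D.lap ((L.χ b - 1) * f))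
      = ε • D.d 0 (L.χ b * f) - D.lap (L.χ b * f) := by
    simp only [sub_mul, one_mul, DR.lap, map_sub, smul_sub]
    ring
  rw [e1] at a1
  rw [e2] at a2
  refine ⟨4 * K * C + 2 * K * T₂ + T₁, q + 1 + 2 * r + 2 * m.natAbs, by positivity, ?_⟩
  filter_upwards [h1, h2, eventually_ge_atTop 1] with N b1 b2 hN
  exact num N (by exact_mod_cast hN) m p r q _ _ _ _ K C T₁ T₂ (g b N) (s b N) _ hK hC hT₁ hT₂
    (g b N).2 (by positivity) (hs b N) (a1 N) (b1 _ hv) (a2 N) b2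

theorem carl (hH : HeatS) (hV : HeatVS) (ε : ℝ) (hε : ε = 0 ∨ ε = 1) (m : ℤ) :
    ∀ᶠ b : ℝ in atTop, ∃ K : ℝ, 0 ≤ K ∧ ∀ᶠ N : ℕ in atTop, ∀ v ∈ L.J b,
      (N : ℝ) ^ (2 * 2) * L.I b ((L.Wt N (m - (2 : ℕ)) * v) ^ 2)
        ≤ N * K * L.I b ((L.Wt N m * (ε • D.d 0 v - D.lap v)) ^ 2) ∧ ∀ i, i ≠ 0 →
      (N : ℝ) ^ (2 * 1) * L.I b ((L.Wt N (m - (1 : ℕ)) * D.d i v) ^ 2)
        ≤ N * K * L.I b ((L.Wt N m * (ε • D.d 0 v - D.lap v)) ^ 2) ∧ ∀ j, j ≠ 0 →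
      (N : ℝ) ^ (2 * 0) * L.I b ((L.Wt N (m - (0 : ℕ)) * D.d i (D.d j v)) ^ 2)
        ≤ N * K * L.I b ((L.Wt N m * (ε • D.d 0 v - D.lap v)) ^ 2) := by
  filter_upwards [hV L ε m hε, eventually_ge_atTop 2] with b ⟨c, K, hc, h1⟩ hb
  obtain ⟨K', hK', h2⟩ := hH c K hc
  refine ⟨K', hK', ?_⟩
  filter_upwards [h1, eventually_ge_atTop 1] with N h3 hN v hv
  have hN' : (1 : ℝ) ≤ N := by exact_mod_cast hN
  obtain ⟨a1, a2⟩ := h2 D (L.cx b hb) ε N (L.Wt N m) (L.di ^ 2) ((N : ℝ) • L.di ^ 2) v (L.gw N m)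
    hN' (fun i => L.d_Wt i N m) (L.gw_symm N m) hv fun x => h3 x.1 x.2
  refine ⟨?_, fun i hi => ⟨?_, fun j hj => ?_⟩⟩
  · have e : (L.Wt N (m - (2 : ℕ)) * v) ^ 2 = (L.di ^ 2) ^ 2 * (L.Wt N m * v) ^ 2 := by
      rw [show m - (2 : ℕ) = m - 1 - 1 by push_cast; ring, L.Wt_pred, L.Wt_pred]
      ring
    have := mul_le_mul_of_nonneg_left a1 (Nat.cast_nonneg (α := ℝ) N)
    rw [e, mul_assoc (N : ℝ) K']
    refine le_trans (le_of_eq ?_) this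
    show _ = (N : ℝ) * ((N : ℝ) ^ 3 * L.I b _)
    ring
  · have e : (L.Wt N (m - (1 : ℕ)) * D.d i v) ^ 2 = L.di ^ 2 * (L.Wt N m * D.d i v) ^ 2 := by
      rw [Nat.cast_one, L.Wt_pred]
      ring
    have := mul_le_mul_of_nonneg_left (a2 i hi).1 (Nat.cast_nonneg (α := ℝ) N)
    rw [e, mul_assoc (N : ℝ) K']
    refine le_trans (le_of_eq ?_) this
    show _ = (N : ℝ) * ((N : ℝ) * L.I b _)
    ring
  · rw [Nat.cast_zero, sub_zero, mul_zero, pow_zero, one_mul]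
    exact (a2 i hi).2 j hj

end AInvR

open AInvR in
theorem rowInvR : OfInvR := by
  intro hH hV R _ _ D X L s hs g m p ε hε f hf hP
  have h := carl L hH hV ε hε m
  refine ⟨?_, fun i hi => ⟨?_, fun j hj => ?_⟩⟩
  · exact core L s hs g m p ε hf hP [] 2
      (h.mono fun b ⟨K, a, c⟩ => ⟨K, a, c.mono fun N e v hv => (e v hv).1⟩)
  · exact core L s hs g m p ε hf hP [i] 1
      (h.mono fun b ⟨K, a, c⟩ => ⟨K, a, c.mono fun N e v hv => ((e v hv).2 i hi).1⟩)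
  · have := core L s hs g m p ε hf hP [j, i] 0
      (h.mono fun b ⟨K, a, c⟩ => ⟨K, a, c.mono fun N e v hv => ((e v hv).2 i hi).2 j hj⟩)
    rwa [Nat.cast_zero, sub_zero] at this

end Pool.Agent.MP_ed9623_an.S64
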