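import Pool.Agent.MP_ed9623_an.S64.SpecA

/-! The structure of the equations for the time derivatives. -/

namespace Pool.Agent.MP_ed9623_an.S64

namespace ASt

variable {R : Type} [CommRing R] [Algebra ℝ R] {D : DR R} {n : ℝ} {α ψ : R} (M : Mc D n α ψ)

theorem d_span {s : Set R} {T : Submodule M.A R} (i : Fin 3) (h1 : Submodule.span M.A s ≤ T)
    (h2 : ∀ f ∈ s, D.d i f ∈ T) : ∀ f ∈ Submodule.span M.A s, D.d i f ∈ T := by
  intro f hf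
  induction hf using Submodule.span_induction with
  | mem f h => exact h2 f h
  | zero => rw [map_zero]; exact zero_mem _
  | add f g _ _ a b => rw [map_add]; exact add_mem a b
  | smul a f h b =>
    change D.d i (a.1 * f) ∈ T
    rw [D.mul]
    exact add_mem (M.mul_mem (M.A_d i _ a.2) (h1 h)) (M.mul_mem a.2 b)

theorem d_sup {S S' T : Submodule M.A R} {i : Fin 3} (h : ∀ f ∈ S, D.d i f ∈ T)
    (h' : ∀ f ∈ S', D.d i f ∈ T) : ∀ f ∈ S ⊔ S', D.d i f ∈ T := by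
  intro f hf
  obtain ⟨a, ha, b, hb, rfl⟩ := Submodule.mem_sup.1 hf
  rw [map_add]
  exact add_mem (h a ha) (h' b hb)

theorem d_Fl (i : Fin 3) : ∀ f ∈ Fl D M.A n α ψ, D.d i f ∈ Fl D M.A n α ψ :=
  d_span M i le_rfl (by
    rintro f ⟨l, rfl | ⟨j, hj, rfl⟩⟩
    · exact Submodule.subset_span ⟨i :: l, Or.inl (D.d_w i l _)⟩
    · exact Submodule.subset_span ⟨i :: l, Or.inr ⟨j, hj, D.d_w i l _⟩⟩)

theorem Qd_mul {a b : R} (ha : a ∈ Fl D M.A n α ψ) (hb : b ∈ Fl D M.A n α ψ) :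
    a * b ∈ Qd D M.A n α ψ := Submodule.subset_span ⟨a, ha, b, hb, rfl⟩

theorem d_Qd (i : Fin 3) : ∀ f ∈ Qd D M.A n α ψ, D.d i f ∈ Qd D M.A n α ψ :=
  d_span M i le_rfl (by
    rintro f ⟨a, ha, b, hb, rfl⟩
    rw [D.mul]
    exact add_mem (Qd_mul M (d_Fl M i a ha) hb) (Qd_mul M ha (d_Fl M i b hb)))

theorem a_Fl : α ∈ Fl D M.A n α ψ := Submodule.subset_span ⟨[], Or.inl rfl⟩

theorem y_Fl {j : Fin 3} (hj : j ≠ 0) : D.yy n ψ j ∈ Fl D M.A n α ψ :=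
  Submodule.subset_span ⟨[], Or.inr ⟨j, hj, rfl⟩⟩

theorem SU_mono {a b b' : ℕ} (h : b ≤ b') : M.SU a b ≤ M.SU a b' :=
  Submodule.span_mono fun _ ⟨i, l, h1, h2, h3⟩ => ⟨i, l, h1, h2.trans h, h3⟩

theorem SY_mono {b b' : ℕ} (h : b ≤ b') : M.SY b ≤ M.SY b' :=
  Submodule.span_mono fun _ ⟨i, l, h1, h2⟩ => ⟨i, l, h1.trans h, h2⟩

theorem d_SU (a b : ℕ) : ∀ f ∈ M.SU a b, D.d 0 f ∈ M.SU a (b + 1) :=
  d_span M 0 (SU_mono M b.le_succ) (by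
    rintro f ⟨i, l, h1, h2, h3, h4, rfl⟩
    exact Submodule.subset_span ⟨i + 1, l, by omega, by omega, h3, h4, by
      rw [D.d_w, Function.iterate_succ_apply']⟩)

theorem d_SY (b : ℕ) : ∀ f ∈ M.SY b, D.d 0 f ∈ M.SY (b + 1) :=
  d_span M 0 (SY_mono M b.le_succ) (by
    rintro f ⟨i, j, h1, h2, rfl⟩
    exact Submodule.subset_span ⟨i + 1, j, by omega, h2, by rw [Function.iterate_succ_apply']⟩)

theorem SU_one {b i : ℕ} (h1 : 1 ≤ i) (h2 : i ≤ b) {j : Fin 3} (hj : j ≠ 0) :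
    D.d j ((D.d 0)^[i] α) ∈ M.SU 1 b :=
  Submodule.subset_span ⟨i, [j], h1, h2, by simpa [Sp] using hj, by simp, rfl⟩

theorem SU_two {b i : ℕ} (h1 : 1 ≤ i) (h2 : i ≤ b) {j j' : Fin 3} (hj : j ≠ 0) (hj' : j' ≠ 0) :
    D.d j' (D.d j ((D.d 0)^[i] α)) ∈ M.SU 1 b :=
  Submodule.subset_span ⟨i, [j, j'], h1, h2, by simpa [Sp] using ⟨hj, hj'⟩, by simp, rfl⟩

theorem d_S1 {b : ℕ} (hb : 1 ≤ b) : ∀ f ∈ M.S1, D.d 0 f ∈ M.S1 ⊔ M.SU 1 b :=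
  d_span M 0 le_sup_left (by
    rintro f (rfl | rfl) <;> rw [D.comm]
    · exact Submodule.mem_sup_right (SU_one M le_rfl hb (by decide))
    · exact Submodule.mem_sup_right (SU_one M le_rfl hb (by decide)))

theorem T2_SU {a b c : R} (ha : a ∈ M.A) (hb : b ∈ M.A) (hc : c ∈ M.A) {k : ℕ} (hk : 1 ≤ k) :
    D.T2 a b c (D.d 0 α) ∈ M.SU 1 k :=
  add_mem (sub_mem (M.mul_mem ha (SU_two M le_rfl hk (by decide) (by decide)))
    (M.mul_mem (ofNat_mem M.A 2) (M.mul_mem hb (SU_two M le_rfl hk (by decide) (by decide)))))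
    (M.mul_mem hc (SU_two M le_rfl hk (by decide) (by decide)))

theorem iter_A (k : ℕ) {a : R} (ha : a ∈ M.A) : (D.d 0)^[k] a ∈ M.A := by
  induction k with
  | zero => exact ha
  | succ k ih => rw [Function.iterate_succ_apply']; exact M.A_d 0 _ ih

theorem d_T2 (a b c f : R) : D.d 0 (D.T2 a b c f)
    = D.T2 (D.d 0 a) (D.d 0 b) (D.d 0 c) f + D.T2 a b c (D.d 0 f) := by
  simp only [DR.T2, map_add, map_sub, D.mul, D.c10, D.c20, D.d_ofNat]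
  ring

theorem d_ht (f : R) : D.d 0 (D.ht f) = D.ht (D.d 0 f) := by
  simp only [DR.ht, DR.lap, map_add, map_sub, D.c10, D.c20]

theorem d_lap (f : R) : D.d 0 (D.lap f) = D.lap (D.d 0 f) := by
  simp only [DR.lap, map_add, D.c10, D.c20]

theorem br_S1 {f : R} (hf : f ∈ M.A) : D.br α f ∈ M.S1 := by
  rw [DR.br, mul_comm, mul_comm (D.d 2 α)]
  exact sub_mem (M.mul_mem (M.A_d _ _ hf) (Submodule.subset_span (by simp)))
    (M.mul_mem (M.A_d _ _ hf) (Submodule.subset_span (by simp)))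

theorem base : D.ht (D.lap (D.d 0 α)) + D.T2 (D.d 0 (D.d 1 ψ ^ 2)) (D.d 0 (D.d 1 ψ * D.d 2 ψ))
    (D.d 0 (D.d 2 ψ ^ 2)) α ∈ M.S1 ⊔ M.SU 1 1 ⊔ M.SY 0 ⊔ Qd D M.A n α ψ := by
  have p1 := M.A_d 1 _ M.ψA
  have p2 := M.A_d 2 _ M.ψA
  have e1 : D.br ψ (D.lap ψ) = D.d 1 ψ * D.d 0 (D.d 2 ψ) - D.d 2 ψ * D.d 0 (D.d 1 ψ)
      + D.T2 (D.d 1 ψ ^ 2) (D.d 1 ψ * D.d 2 ψ) (D.d 2 ψ ^ 2) α
      + (D.d 1 ψ * D.br α (D.d 2 ψ) - D.d 2 ψ * D.br α (D.d 1 ψ)) := by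
    have h1 := M.eW 1 (by decide)
    have h2 := M.eW 2 (by decide)
    simp only [DR.eW, DR.ht, DR.HH, DR.br, DR.lap, DR.T2, map_add, D.c21] at h1 h2 ⊢
    linear_combination D.d 2 ψ * h1 - D.d 1 ψ * h2
  have e2 : D.d 0 (D.d 1 ψ * D.d 0 (D.d 2 ψ) - D.d 2 ψ * D.d 0 (D.d 1 ψ))
      = D.d 1 ψ * D.yy n ψ 2 - D.d 2 ψ * D.yy n ψ 1 := by
    simp only [DR.yy, map_sub, D.mul, Algebra.smul_def]
    ring
  have h := M.eA
  rw [DR.eA, e1, map_add, map_add, map_add, map_add, e2, d_T2, d_ht, d_lap] at h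
  have e : D.ht (D.lap (D.d 0 α)) + D.T2 (D.d 0 (D.d 1 ψ ^ 2)) (D.d 0 (D.d 1 ψ * D.d 2 ψ))
      (D.d 0 (D.d 2 ψ ^ 2)) α = -(D.d 0 (D.d 1 ψ * D.br α (D.d 2 ψ) - D.d 2 ψ * D.br α (D.d 1 ψ))
        + D.T2 (D.d 1 ψ ^ 2) (D.d 1 ψ * D.d 2 ψ) (D.d 2 ψ ^ 2) (D.d 0 α)
        + (D.d 1 ψ * D.yy n ψ 2 - D.d 2 ψ * D.yy n ψ 1) + D.d 0 (D.br α (D.lap α))) := by
    linear_combination h
  rw [e]
  have hl : D.lap α ∈ Fl D M.A n α ψ :=
    add_mem (d_Fl M _ _ (d_Fl M _ _ (a_Fl M))) (d_Fl M _ _ (d_Fl M _ _ (a_Fl M)))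
  refine neg_mem (Submodule.add_mem_sup (Submodule.add_mem_sup (add_mem ?_ ?_) ?_) ?_)
  · exact d_S1 M le_rfl _ (sub_mem (M.mul_mem p1 (br_S1 M p2)) (M.mul_mem p2 (br_S1 M p1)))
  · exact Submodule.mem_sup_right (T2_SU M (pow_mem p1 2) (mul_mem p1 p2) (pow_mem p2 2) le_rfl)
  · exact sub_mem (M.mul_mem p1 (Submodule.subset_span ⟨0, 2, le_rfl, by decide, rfl⟩))
      (M.mul_mem p2 (Submodule.subset_span ⟨0, 1, le_rfl, by decide, rfl⟩))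
  · exact d_Qd M 0 _ (sub_mem (Qd_mul M (d_Fl M _ _ (a_Fl M)) (d_Fl M _ _ hl))
      (Qd_mul M (d_Fl M _ _ (a_Fl M)) (d_Fl M _ _ hl)))

theorem first (k : ℕ) : D.ht (D.lap ((D.d 0)^[k + 1] α)) + D.T2 ((D.d 0)^[k + 1] (D.d 1 ψ ^ 2))
    ((D.d 0)^[k + 1] (D.d 1 ψ * D.d 2 ψ)) ((D.d 0)^[k + 1] (D.d 2 ψ ^ 2)) α
      ∈ M.S1 ⊔ M.SU 1 (k + 1) ⊔ M.SY k ⊔ Qd D M.A n α ψ := by
  have p1 := M.A_d 1 _ M.ψA
  have p2 := M.A_d 2 _ M.ψA
  induction k with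
  | zero => exact base M
  | succ k ih =>
    have h := d_sup M (T := M.S1 ⊔ M.SU 1 (k + 1 + 1) ⊔ M.SY (k + 1) ⊔ Qd D M.A n α ψ)
      (d_sup M (d_sup M
        (fun f hf => Submodule.mem_sup_left (Submodule.mem_sup_left (d_S1 M (by omega) f hf)))
        fun f hf => Submodule.mem_sup_left (Submodule.mem_sup_left
          (Submodule.mem_sup_right (d_SU M _ _ f hf))))
        fun f hf => Submodule.mem_sup_left (Submodule.mem_sup_right (d_SY M _ f hf)))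
      (fun f hf => Submodule.mem_sup_right (d_Qd M 0 f hf)) _ ih
    rw [map_add, d_T2, d_ht, d_lap, ← add_assoc] at h
    simp only [Function.iterate_succ_apply' _ (k + 1)]
    exact (Submodule.add_mem_iff_left _ (Submodule.mem_sup_left (Submodule.mem_sup_left
      (Submodule.mem_sup_right (T2_SU M (iter_A M _ (pow_mem p1 2)) (iter_A M _ (mul_mem p1 p2))
        (iter_A M _ (pow_mem p2 2)) (by omega)))))).1 h

theorem osc {a b : R} (ha : a ∈ M.A) (h : D.d 0 (D.d 0 a) + n • a ∈ Fl D M.A n α ψ)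
    (hb : b ∈ Fl D M.A n α ψ) (h1 : D.d 0 b ∈ M.SU 1 2) (h2 : D.d 0 (D.d 0 b) ∈ M.SU 1 2) :
    D.d 0 (D.d 0 (a * b)) + n • (a * b) ∈ M.SU 1 2 ⊔ Qd D M.A n α ψ := by
  have e : D.d 0 (D.d 0 (a * b)) + n • (a * b) = (2 * D.d 0 a * D.d 0 b + a * D.d 0 (D.d 0 b))
      + (D.d 0 (D.d 0 a) + n • a) * b := by
    simp only [map_add, D.mul, Algebra.smul_def]
    ring
  rw [e]
  exact Submodule.add_mem_sup (add_mem (M.mul_mem (mul_mem (ofNat_mem M.A 2) (M.A_d 0 a ha)) h1)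
    (M.mul_mem ha h2)) (Qd_mul M h hb)

theorem osc1 {i j i' : Fin 3} (hj : j ≠ 0) (hi' : i' ≠ 0) :
    D.d 0 (D.d 0 (D.d i (D.d j ψ) * D.d i' α)) + n • (D.d i (D.d j ψ) * D.d i' α)
      ∈ M.SU 1 2 ⊔ Qd D M.A n α ψ := by
  refine osc M (M.A_d _ _ (M.A_d _ _ M.ψA)) ?_ (d_Fl M _ _ (a_Fl M)) ?_ ?_
  · have := d_Fl M i _ (y_Fl M hj)
    rwa [DR.yy, map_add, map_smul, D.comm i 0, D.comm i 0] at this
  · rw [D.comm]
    exact SU_one M (i := 1) le_rfl one_le_two hi'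
  · rw [D.comm 0 i', D.comm 0 i']
    exact SU_one M (i := 2) one_le_two le_rfl hi'

theorem osc2 {i j i' : Fin 3} (hi : i ≠ 0) (hj : j ≠ 0) (hi' : i' ≠ 0) :
    D.d 0 (D.d 0 (D.d i ψ * D.d i' (D.d j α))) + n • (D.d i ψ * D.d i' (D.d j α))
      ∈ M.SU 1 2 ⊔ Qd D M.A n α ψ := by
  refine osc M (M.A_d _ _ M.ψA) (y_Fl M hi) (d_Fl M _ _ (d_Fl M _ _ (a_Fl M))) ?_ ?_
  · rw [D.comm, D.comm 0 j]
    exact SU_two M (i := 1) le_rfl one_le_two hj hi'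
  · rw [D.comm 0 i', D.comm 0 i', D.comm 0 j, D.comm 0 j]
    exact SU_two M (i := 2) one_le_two le_rfl hj hi'

theorem second {j : Fin 3} (hj : j ≠ 0) (k : ℕ) :
    D.ht ((D.d 0)^[k] (D.yy n ψ j)) ∈ M.SU 1 (k + 2) ⊔ Qd D M.A n α ψ := by
  induction k with
  | zero =>
    have h : D.ht (D.d j ψ) = -(D.d 2 (D.d j ψ) * D.d 1 α - D.d 1 (D.d j ψ) * D.d 2 α
        + (D.d 1 ψ * D.d 2 (D.d j α) - D.d 2 ψ * D.d 1 (D.d j α))) := by
      have := M.eW j hj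
      simp only [DR.eW, DR.HH, DR.br] at this
      linear_combination this
    have e : D.ht (D.yy n ψ j) = D.d 0 (D.d 0 (D.ht (D.d j ψ))) + n • D.ht (D.d j ψ) := by
      simp only [DR.yy, DR.ht, DR.lap, map_add, map_sub, map_smul, D.c10, D.c20, smul_add, smul_sub]
      ring
    have := neg_mem (add_mem (sub_mem (osc1 M (i := 2) (i' := 1) hj (by decide))
      (osc1 M (i := 1) (i' := 2) hj (by decide)))
      (sub_mem (osc2 M (i := 1) (i' := 2) (by decide) hj (by decide))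
        (osc2 M (i := 2) (i' := 1) (by decide) hj (by decide))))
    change D.ht (D.yy n ψ j) ∈ _
    rw [e, h]
    refine (congrArg (· ∈ _) ?_).mp this
    simp only [map_add, map_sub, map_neg, smul_add, smul_sub, smul_neg]
    ring
  | succ k ih =>
    rw [Function.iterate_succ_apply', ← d_ht]
    exact d_sup M (fun f hf => Submodule.mem_sup_left (d_SU M _ _ f hf))
      (fun f hf => Submodule.mem_sup_right (d_Qd M 0 f hf)) _ ih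

end ASt

theorem rowSt : OfSt := fun M k => ⟨ASt.first M k, fun _ hj => ASt.second M hj k⟩

end Pool.Agent.MP_ed9623_an.S64
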