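import Pool.Agent.MP_ed9623_an.S64.SpecA

/-! The elliptic side of a doubly characteristic curve. -/

open Filter Topology

namespace Pool.Agent.MP_ed9623_an.S64

namespace AUKe

variable {R : Type} [CommRing R] [Algebra ℝ R] {D : DR R}

theorem sum {ρ w κ t f : R} (hκ : κ * ρ = 1)
    (h : D.V 1 w (D.V 1 w f) + ρ ^ 2 * D.d 2 (D.d 2 f) + t * D.d 2 f = 0) :
    D.V 0 ρ (D.V 0 ρ f) + D.V 1 w (D.V 1 w f)
      = (D.d 2 ρ - t * κ) * D.V 0 ρ f + 0 * D.V 1 w f := by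
  generalize D.V 1 w (D.V 1 w f) = z at h
  simp only [DR.V, zero_mul, zero_add, D.mul]
  linear_combination h + t * D.d 2 f * hκ

theorem com {ρ w c : R} (h : D.V 1 w ρ = -(c * ρ)) (f : R) :
    D.V 0 ρ (D.V 1 w f) - D.V 1 w (D.V 0 ρ f) = (D.d 2 w + c) * D.V 0 ρ f + 0 * D.V 1 w f := by
  simp only [DR.V, zero_mul, zero_add, one_mul, map_add, D.mul, D.c21] at h ⊢
  linear_combination -D.d 2 f * h

theorem czw {ρ w c : R} (h : D.V 1 w ρ = -(c * ρ)) : CzW D 0 ρ 1 w c (D.d 2 ρ) := by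
  simp only [DR.V, CzW, zero_mul, zero_sub, one_mul, mul_one, map_neg] at h ⊢
  exact ⟨by ring, by linear_combination -h⟩

variable {X : Type} (L : Ln D X)

theorem mulA {S : Submodule L.A R} {a f : R} (ha : a ∈ L.A) (hf : f ∈ S) : a * f ∈ S :=
  S.smul_mem (⟨a, ha⟩ : L.A) hf

theorem si_d : L.si * L.d = L.sd := by
  linear_combination L.sd * L.sd_si - L.si * L.sd_sq

theorem d2_rho (r : R) : D.d 2 (L.sd * r) = (1 / 2 : ℝ) • r * L.si + D.d 2 r * L.sd := by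
  rw [D.mul, L.d_sd, L.d2]
  simp only [Algebra.smul_def]
  ring

theorem V_rho {r ri : R} (hr : r * ri = 1) (e : R) :
    D.V 1 (-D.d 1 L.d - L.d * e) (L.sd * r)
      = -(((1 / 2 : ℝ) • e - D.V 1 (-D.d 1 L.d - L.d * e) r * ri) * (L.sd * r)) := by
  simp only [DR.V, D.mul, L.d_sd, L.d2, Algebra.smul_def]
  linear_combination -(algebraMap ℝ R (1 / 2) * e * r) * si_d L
    - (D.d 1 r + (-D.d 1 L.d - L.d * e) * D.d 2 r) * L.sd * hr

theorem czq_eq (r e w c : R) (hw : w = -D.d 1 L.d - L.d * e) (N : ℕ) :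
    czq D 0 (L.sd * r) 1 w c (D.d 2 (L.sd * r)) (L.gw N 0)
      = (N : ℝ) • ((1 / 2 : ℝ) • (r ^ 2 * L.di)
        + ((D.d 1 e + D.d 2 e * w + e * D.d 2 w + c * e - r * D.d 2 r)
          + 2 * (D.d 1 (D.d 1 L.u) + D.d 1 L.u * D.d 2 w + D.d 1 L.u * c) * L.ui
          - 2 * (D.d 1 L.u * D.d 1 L.u) * (L.ui * L.ui)))
        - (1 / 4 : ℝ) • (c * c + D.d 2 (L.sd * r) * D.d 2 (L.sd * r)) := by
  have ha : 0 * L.gw N 0 1 + L.sd * r * L.gw N 0 2 = -(algebraMap ℝ R N * (r * L.si)) := by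
    simp only [Ln.gw, L.u2, L.d2, Int.cast_zero, map_zero, Algebra.smul_def, Ln.si]
    ring
  have hb : 1 * L.gw N 0 1 + w * L.gw N 0 2
      = algebraMap ℝ R N * (2 * D.d 1 L.u * L.ui + e) := by
    simp only [Ln.gw, L.u2, L.d2, Int.cast_zero, map_zero, Algebra.smul_def, hw]
    linear_combination algebraMap ℝ R N * e * L.d_di
  have h1 : -(algebraMap ℝ R N * (r * L.si)) * (L.sd * r) = -(algebraMap ℝ R N * (r * r)) := by
    linear_combination -(algebraMap ℝ R N * (r * r)) * L.sd_si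
  have h2 : D.d 2 (L.sd * r) * -(algebraMap ℝ R N * (r * L.si))
      = -(algebraMap ℝ R N * ((1 / 2 : ℝ) • (r ^ 2 * L.di) + r * D.d 2 r)) := by
    rw [d2_rho, ← L.si_sq]
    simp only [Algebra.smul_def]
    linear_combination -(algebraMap ℝ R N * (r * D.d 2 r)) * L.sd_si
  rw [czq, ha, hb, h1, h2, ← sq c, ← sq (D.d 2 _), Algebra.smul_def (N : ℝ)]
  simp only [DR.dv, mul_zero, mul_one, map_zero, map_neg, map_add, D.mul, D.d_alg, D.d_ofNat,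
    D.d_inv _ L.u_ui, D.c21, L.u2]
  ring

end AUKe

open AUKe in
theorem rowUKe : OfUKe := by
  intro hS hU R _ _ D X L ψ α Ei q r ri hψ hα hE hq hr hri hL hEi hrr hQ hdet
  obtain ⟨s0, ssd, ssi, sui, -, sm, sm', so, sl, -, -, bd, sm0, ev1⟩ := hS L
  obtain ⟨e, he⟩ : ∃ e, e = q * Ei := ⟨_, rfl⟩
  obtain ⟨w, hw⟩ : ∃ w, w = -D.d 1 L.d - L.d * e := ⟨_, rfl⟩
  have eA : e ∈ L.A := he ▸ mul_mem hq hE
  have nA := L.A_d 1 _ L.dA
  have wA : w ∈ L.A := hw ▸ sub_mem (neg_mem nA) (mul_mem L.dA eA)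
  have VA : ∀ a ∈ L.A, D.V 1 w a ∈ L.A := fun a ha =>
    add_mem (mul_mem (one_mem _) (L.A_d 1 a ha)) (mul_mem wA (L.A_d 2 a ha))
  have s1 : L.Sy 0 ≤ L.Sy 1 := (sl 0 1 one_pos).trans (so 1)
  obtain ⟨c, hc⟩ : ∃ c, c = (1 / 2 : ℝ) • e - D.V 1 w r * ri := ⟨_, rfl⟩
  have cA : c ∈ L.A := hc ▸ sub_mem (L.A.smul_mem eA _) (mul_mem (VA r hr) hri)
  have hV : D.V 1 w (L.sd * r) = -(c * (L.sd * r)) := by
    rw [hc, hw]
    exact V_rho L hrr e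
  have hκ : ri * L.si * (L.sd * r) = 1 := by linear_combination ri * r * L.sd_si + hrr
  have id := D.UK_id (g := -D.d 1 L.d) (by rw [map_neg, D.c21, L.d2, D.d_one, neg_zero]) hEi α
  rw [hL, mul_zero, hdet, hQ, mul_assoc L.d, ← he, ← hw, one_smul] at id
  obtain ⟨t, ht⟩ : ∃ t, t = D.V 1 w (L.d * e) - D.d 1 (-D.d 1 L.d) := ⟨_, rfl⟩
  have tA : t ∈ L.A := ht ▸ sub_mem (VA _ (mul_mem L.dA eA)) (L.A_d 1 _ (neg_mem nA))
  have ρ1 : D.d 2 (L.sd * r) ∈ L.Sy 1 := by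
    rw [d2_rho]
    exact add_mem (mulA L (L.A.smul_mem hr _) ssi) (mulA L (L.A_d 2 r hr) (s1 ssd))
  obtain ⟨C1, -, b1⟩ := bd 1 _ (sub_mem ρ1 (mulA L tA (mulA L hri ssi)))
  obtain ⟨C3, -, b3⟩ := bd 1 _ (s1 (s0 _ (add_mem (L.A_d 2 w wA) cA)))
  obtain ⟨C4, -, b4⟩ := bd 2 _ (add_mem (sm 1 1 c (s1 (s0 c cA)) c (s1 (s0 c cA))) (sm 1 1 _ ρ1 _ ρ1))
  obtain ⟨C5, b5⟩ := L.A_bd ri hri
  have u1 := L.A_d 1 _ L.uA
  have SS : (D.d 1 e + D.d 2 e * w + e * D.d 2 w + c * e - r * D.d 2 r)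
      + 2 * (D.d 1 (D.d 1 L.u) + D.d 1 L.u * D.d 2 w + D.d 1 L.u * c) * L.ui
      - 2 * (D.d 1 L.u * D.d 1 L.u) * (L.ui * L.ui) ∈ L.So 2 :=
    sub_mem (add_mem (sl 0 2 two_pos (s0 _ (sub_mem (add_mem (add_mem (add_mem (L.A_d 1 e eA)
      (mul_mem (L.A_d 2 e eA) wA)) (mul_mem eA (L.A_d 2 w wA))) (mul_mem cA eA))
      (mul_mem hr (L.A_d 2 r hr))))) (mulA L (mul_mem (ofNat_mem _ 2) (add_mem (add_mem
      (L.A_d 1 _ u1) (mul_mem u1 (L.A_d 2 w wA))) (mul_mem u1 cA))) (sl 1 2 one_lt_two (so 1 sui))))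
      (mulA L (mul_mem (ofNat_mem _ 2) (mul_mem u1 u1)) (sm' 1 1 _ sui _ (so 1 sui)))
  have k0 : 0 < (C5 ^ 2 + 1)⁻¹ := by positivity
  have hk : ∀ x, (C5 ^ 2 + 1)⁻¹ ≤ L.ev x r ^ 2 := fun x => by
    have a1 : L.ev x r * L.ev x ri = 1 := by rw [← map_mul, hrr, map_one]
    have a2 : L.ev x ri ^ 2 ≤ C5 ^ 2 := sq_le_sq.2 ((b5 x).trans (le_abs_self _))
    rw [inv_le_iff_one_le_mul₀ (by positivity)]
    have a3 : L.ev x r ^ 2 * L.ev x ri ^ 2 = 1 := by rw [← mul_pow, a1, one_pow]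
    nlinarith [sq_nonneg (L.ev x r)]
  generalize (C5 ^ 2 + 1)⁻¹ = k at k0 hk
  obtain ⟨M, hM⟩ := hU L 0 (L.sd * r) 1 w _ 0 _ 0 c _ L.di α (C1 ^ 2 + C3 ^ 2) hα
    (fun x => by
      obtain ⟨a1, a2⟩ := ev1 x
      have a3 := sq_le_sq' (abs_le.1 (b1 x)).1 (abs_le.1 (b1 x)).2
      have a4 := sq_le_sq' (abs_le.1 (b3 x)).1 (abs_le.1 (b3 x)).2
      rw [pow_one, mul_pow, a2] at a3 a4
      refine ⟨by nlinarith, ?_⟩
      rw [map_zero]
      linarith)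
    (sum (t := t) hκ (by rw [ht, mul_pow, sq L.sd, L.sd_sq]; exact id.symm)) (com hV α) (czw hV)
    ((sm0 2 _ SS (k / 8) (by positivity)).mono fun b hb => ⟨k / 4, by positivity, by
      filter_upwards [tendsto_natCast_atTop_atTop.eventually_ge_atTop (2 * C4 / k)] with N hN x hx
      have a1 := (abs_le.1 (hb x hx)).1
      have a2 := (abs_le.1 (b4 x)).2
      obtain ⟨a3, a4⟩ := ev1 x
      rw [a4] at a1 a2
      have a5 : 0 ≤ L.ev x L.di := by rw [← a4]; positivity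
      have a6 := mul_le_mul_of_nonneg_right (hk x) a5
      have a7 := mul_le_mul_of_nonneg_right ((div_le_iff₀ k0).1 hN) a5
      rw [czq_eq L r e w c hw, map_sub, map_smul, map_smul, map_add, map_smul, map_mul, map_pow]
      simp only [smul_eq_mul]
      have N0 : (0 : ℝ) ≤ N := N.cast_nonneg
      nlinarith [mul_le_mul_of_nonneg_left a1 N0, mul_le_mul_of_nonneg_left a6 N0]⟩)
  refine ⟨M, fun x hx => ?_⟩
  obtain ⟨a1, a2⟩ := hM x hx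
  have a3 : L.ev x (D.d 2 α) = 0 := by
    have : D.d 2 α = ri * L.si * D.V 0 (L.sd * r) α := by
      rw [DR.V]
      linear_combination -D.d 2 α * hκ
    rw [this, map_mul, a1, mul_zero]
  refine ⟨?_, a3⟩
  simpa [DR.V, a3] using a2

end Pool.Agent.MP_ed9623_an.S64
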