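import Pool.Agent.MP_ed9623_an.S64.SpecA

/-! The hyperbolic side of a doubly characteristic curve. -/

open Filter Topology

namespace Pool.Agent.MP_ed9623_an.S64

namespace AUKh

variable {R : Type} [CommRing R] [Algebra ℝ R] {D : DR R}

theorem dif {ρ w κ t f : R} (hκ : κ * ρ = 1)
    (h : D.V 1 w (D.V 1 w f) + -ρ ^ 2 * D.d 2 (D.d 2 f) + t * D.d 2 f = 0) :
    D.V 0 ρ (D.V 0 ρ f) - D.V 1 w (D.V 1 w f)
      = (D.d 2 ρ + t * κ) * D.V 0 ρ f + 0 * D.V 1 w f := by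
  generalize D.V 1 w (D.V 1 w f) = z at h
  simp only [DR.V, zero_mul, zero_add, D.mul]
  linear_combination -h - t * D.d 2 f * hκ

theorem com {ρ w c : R} (h : D.V 1 w ρ = -(c * ρ)) (f : R) :
    D.V 0 ρ (D.V 1 w f) - D.V 1 w (D.V 0 ρ f) = (D.d 2 w + c) * D.V 0 ρ f + 0 * D.V 1 w f := by
  simp only [DR.V, zero_mul, zero_add, one_mul, map_add, D.mul, D.c21] at h ⊢
  linear_combination -D.d 2 f * h

variable {X : Type} (L : Ln D X)

theorem mulA {S : Submodule L.A R} {a f : R} (ha : a ∈ L.A) (hf : f ∈ S) : a * f ∈ S :=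
  S.smul_mem (⟨a, ha⟩ : L.A) hf

theorem si_d : L.si * L.d = L.sd := by
  linear_combination L.sd * L.sd_si - L.si * L.sd_sq

theorem d2_rho (r : R) : D.d 2 (L.sd * r) = (1 / 2 : ℝ) • r * L.si + D.d 2 r * L.sd := by
  rw [D.mul, L.d_sd, L.d2]
  simp only [Algebra.smul_def]
  ring

theorem V_rho {r ri : R} (hr : r * ri = 1) (e : R) :
    D.V 1 (-D.d 1 L.d - L.d * e) (L.sd * r)
      = -(((1 / 2 : ℝ) • e - D.V 1 (-D.d 1 L.d - L.d * e) r * ri) * (L.sd * r)) := by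
  simp only [DR.V, D.mul, L.d_sd, L.d2, Algebra.smul_def]
  linear_combination -(algebraMap ℝ R (1 / 2) * e * r) * si_d L
    - (D.d 1 r + (-D.d 1 L.d - L.d * e) * D.d 2 r) * L.sd * hr

theorem U_m (r : R) : D.V 0 (L.sd * r) (r * L.si) = r * D.d 2 r - (1 / 2 : ℝ) • (r * r) * L.di := by
  rw [← L.si_sq]
  simp only [DR.V, D.mul, L.d_si, L.d2, Algebra.smul_def]
  linear_combination (r * D.d 2 r - algebraMap ℝ R (1 / 2) * r * r * L.si ^ 2) * L.sd_si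

theorem V_m (r e w : R) (hw : w = -D.d 1 L.d - L.d * e) :
    D.V 1 w (r * L.si) = (D.V 1 w r + (1 / 2 : ℝ) • (r * e)) * L.si := by
  simp only [DR.V, D.mul, L.d_si, L.d2, Algebra.smul_def, hw]
  linear_combination (algebraMap ℝ R (1 / 2) * r * e * L.si ^ 2) * si_d L
    + (algebraMap ℝ R (1 / 2) * r * e * L.si) * L.sd_si

theorem rhs_eq (r e w : R) (hw : w = -D.d 1 L.d - L.d * e) (ς : ℝ) (N : ℕ) :
    -(2 * ((0 + ς • (1 : R)) * L.gw N 0 1 + (L.sd * r + ς • w) * L.gw N 0 2)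
        + D.dv (0 + ς • (1 : R)) (L.sd * r + ς • w)) * ((N : ℝ) • (r * L.si))
        - D.V (0 + ς • (1 : R)) (L.sd * r + ς • w) ((N : ℝ) • (r * L.si))
      = (2 * (N : ℝ) ^ 2) • (r ^ 2 * L.di)
        - (N : ℝ) ^ 2 • ((2 * ς) • r * (2 * D.d 1 L.u * (L.ui * L.si) + e * L.si))
        - (N : ℝ) • ((D.d 2 (L.sd * r) + ς • D.d 2 w) * (r * L.si)
          + D.V 0 (L.sd * r) (r * L.si) + ς • (1 : R) * D.V 1 w (r * L.si)) := by
  have ha : 0 * L.gw N 0 1 + L.sd * r * L.gw N 0 2 = -(algebraMap ℝ R N * (r * L.si)) := by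
    simp only [Ln.gw, L.u2, L.d2, Int.cast_zero, map_zero, Algebra.smul_def, Ln.si]
    ring
  have hb : 1 * L.gw N 0 1 + w * L.gw N 0 2
      = algebraMap ℝ R N * (2 * D.d 1 L.u * L.ui + e) := by
    simp only [Ln.gw, L.u2, L.d2, Int.cast_zero, map_zero, Algebra.smul_def, hw]
    linear_combination algebraMap ℝ R N * e * L.d_di
  rw [← L.si_sq]
  generalize L.sd * r = ρ at ha ⊢
  generalize hm : r * L.si = m at ha ⊢
  simp only [DR.V, DR.dv, map_add, map_smul, map_zero, D.d_one, smul_zero]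
  simp only [Algebra.smul_def, map_mul, map_pow, map_ofNat]
  rw [← hm] at ha ⊢
  linear_combination (-2 * algebraMap ℝ R N * (r * L.si)) * ha
    - (2 * algebraMap ℝ R N * (r * L.si) * algebraMap ℝ R ς) * hb

end AUKh

open AUKh in
theorem rowUKh : OfUKh := by
  intro hS hU R _ _ D X L ψ α Ei q r ri hψ hα hE hq hr hri hL hEi hrr hQ hdet
  obtain ⟨s0, ssd, ssi, sui, sdi, sm, sm', so, sl, -, -, bd, sm0, ev1⟩ := hS L
  obtain ⟨e, he⟩ : ∃ e, e = q * Ei := ⟨_, rfl⟩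
  obtain ⟨w, hw⟩ : ∃ w, w = -D.d 1 L.d - L.d * e := ⟨_, rfl⟩
  have eA : e ∈ L.A := he ▸ mul_mem hq hE
  have nA := L.A_d 1 _ L.dA
  have wA : w ∈ L.A := hw ▸ sub_mem (neg_mem nA) (mul_mem L.dA eA)
  have VA : ∀ a ∈ L.A, D.V 1 w a ∈ L.A := fun a ha =>
    add_mem (mul_mem (one_mem _) (L.A_d 1 a ha)) (mul_mem wA (L.A_d 2 a ha))
  have s1 : L.Sy 0 ≤ L.Sy 1 := (sl 0 1 one_pos).trans (so 1)
  have s2 : L.Sy 1 ≤ L.Sy 2 := (sl 1 2 one_lt_two).trans (so 2)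
  obtain ⟨c, hc⟩ : ∃ c, c = (1 / 2 : ℝ) • e - D.V 1 w r * ri := ⟨_, rfl⟩
  have cA : c ∈ L.A := hc ▸ sub_mem (L.A.smul_mem eA _) (mul_mem (VA r hr) hri)
  have hV : D.V 1 w (L.sd * r) = -(c * (L.sd * r)) := by
    rw [hc, hw]
    exact V_rho L hrr e
  have hκ : ri * L.si * (L.sd * r) = 1 := by linear_combination ri * r * L.sd_si + hrr
  have id := D.UK_id (g := -D.d 1 L.d) (by rw [map_neg, D.c21, L.d2, D.d_one, neg_zero]) hEi α
  rw [hL, mul_zero, hdet, hQ, mul_assoc L.d, ← he, ← hw, neg_smul, one_smul] at id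
  obtain ⟨t, ht⟩ : ∃ t, t = D.V 1 w (L.d * e) - D.d 1 (-D.d 1 L.d) := ⟨_, rfl⟩
  have tA : t ∈ L.A := ht ▸ sub_mem (VA _ (mul_mem L.dA eA)) (L.A_d 1 _ (neg_mem nA))
  have ρ1 : D.d 2 (L.sd * r) ∈ L.Sy 1 := by
    rw [d2_rho]
    exact add_mem (mulA L (L.A.smul_mem hr _) ssi) (mulA L (L.A_d 2 r hr) (s1 ssd))
  obtain ⟨C1, -, b1⟩ := bd 1 _ (add_mem ρ1 (mulA L tA (mulA L hri ssi)))
  obtain ⟨C3, -, b3⟩ := bd 1 _ (s1 (s0 _ (add_mem (L.A_d 2 w wA) cA)))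
  obtain ⟨C5, b5⟩ := L.A_bd ri hri
  have u1 := L.A_d 1 _ L.uA
  have k0 : 0 < (C5 ^ 2 + 1)⁻¹ := by positivity
  have hk : ∀ x, (C5 ^ 2 + 1)⁻¹ ≤ L.ev x r ^ 2 := fun x => by
    have a1 : L.ev x r * L.ev x ri = 1 := by rw [← map_mul, hrr, map_one]
    have a2 : L.ev x ri ^ 2 ≤ C5 ^ 2 := sq_le_sq.2 ((b5 x).trans (le_abs_self _))
    rw [inv_le_iff_one_le_mul₀ (by positivity)]
    have a3 : L.ev x r ^ 2 * L.ev x ri ^ 2 = 1 := by rw [← mul_pow, a1, one_pow]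
    nlinarith [sq_nonneg (L.ev x r)]
  generalize (C5 ^ 2 + 1)⁻¹ = k at k0 hk
  obtain ⟨M, hM⟩ := hU L 0 (L.sd * r) 1 w _ 0 _ 0 L.di α (C1 ^ 2 + C3 ^ 2) hα
    (fun x => by
      obtain ⟨a1, a2⟩ := ev1 x
      have a3 := sq_le_sq' (abs_le.1 (b1 x)).1 (abs_le.1 (b1 x)).2
      have a4 := sq_le_sq' (abs_le.1 (b3 x)).1 (abs_le.1 (b3 x)).2
      rw [pow_one, mul_pow, a2] at a3 a4
      refine ⟨by nlinarith, ?_⟩
      rw [map_zero]
      linarith)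
    (dif (t := t) hκ (by rw [ht, mul_pow, sq L.sd, L.sd_sq]; exact id.symm)) (com hV α)
    (fun ς _ => by
      have SS : (2 * ς) • r * (2 * D.d 1 L.u * (L.ui * L.si) + e * L.si) ∈ L.So 2 :=
        mulA L (L.A.smul_mem hr _) (add_mem (mulA L (mul_mem (ofNat_mem _ 2) u1)
          (sm' 1 1 _ sui _ ssi)) (mulA L eA (sl 1 2 one_lt_two ssi)))
      have TT : (D.d 2 (L.sd * r) + ς • D.d 2 w) * (r * L.si)
          + D.V 0 (L.sd * r) (r * L.si) + ς • (1 : R) * D.V 1 w (r * L.si) ∈ L.Sy 2 := by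
        rw [U_m, V_m L r e w hw]
        exact add_mem (add_mem (sm 1 1 _ (add_mem ρ1 (s1 (s0 _ (L.A.smul_mem (L.A_d 2 w wA) _))))
          _ (mulA L hr ssi)) (sub_mem (s2 (s1 (s0 _ (mul_mem hr (L.A_d 2 r hr)))))
          (mulA L (L.A.smul_mem (mul_mem hr hr) _) sdi))) (mulA L (L.A.smul_mem (one_mem _) _)
          (mulA L (add_mem (VA r hr) (L.A.smul_mem (mul_mem hr eA) _)) (s2 ssi)))
      obtain ⟨C4, -, b4⟩ := bd 2 _ TT
      refine (sm0 2 _ SS (k / 2) (by positivity)).mono fun b hb => ⟨k, k0, ?_⟩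
      filter_upwards [tendsto_natCast_atTop_atTop.eventually_ge_atTop (2 * C4 / k)] with N hN
      refine ⟨(N : ℝ) • (r * L.si), fun x hx => ?_⟩
      have a1 := (abs_le.1 (hb x hx)).2
      have a2 := (abs_le.1 (b4 x)).2
      obtain ⟨a3, a4⟩ := ev1 x
      rw [a4] at a1 a2
      have a5 : 0 ≤ L.ev x L.di := by rw [← a4]; positivity
      have a6 := mul_le_mul_of_nonneg_right (hk x) a5
      have a7 := mul_le_mul_of_nonneg_right ((div_le_iff₀ k0).1 hN) a5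
      have N0 : (0 : ℝ) ≤ N := N.cast_nonneg
      have N2 : (0 : ℝ) ≤ (N : ℝ) ^ 2 := sq_nonneg _
      have em : L.ev x ((N : ℝ) • (r * L.si)) ^ 2 = (N : ℝ) ^ 2 * (L.ev x r ^ 2 * L.ev x L.di) := by
        rw [map_smul, map_mul, smul_eq_mul, ← a4]
        ring
      refine ⟨?_, ?_⟩
      · rw [em]
        nlinarith [mul_le_mul_of_nonneg_left a6 N2]
      unfold HaH
      rw [rhs_eq L r e w hw, map_pow, em, map_sub, map_sub, map_smul, map_smul, map_smul,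
        map_mul _ (r ^ 2), map_pow]
      simp only [smul_eq_mul]
      nlinarith [mul_le_mul_of_nonneg_left a1 N2, mul_le_mul_of_nonneg_left a6 N2,
        mul_le_mul_of_nonneg_left a2 N0, mul_le_mul_of_nonneg_left a7 N0])
  refine ⟨M, fun x hx => ?_⟩
  obtain ⟨a1, a2⟩ := hM x hx
  have a3 : L.ev x (D.d 2 α) = 0 := by
    have : D.d 2 α = ri * L.si * D.V 0 (L.sd * r) α := by
      rw [DR.V]
      linear_combination -D.d 2 α * hκ
    rw [this, map_mul, a1, mul_zero]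
  refine ⟨?_, a3⟩
  simpa [DR.V, a3] using a2

end Pool.Agent.MP_ed9623_an.S64
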