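import Mathlib

/-! Rings with three commuting derivations (time, two space directions). -/

open Filter Topology

namespace Pool.Agent.MP_ed9623_an.S64

/-- Three commuting derivations: `0` is time, `1` and `2` are space. -/
structure DR (R : Type) [CommRing R] [Algebra ℝ R] where
  d : Fin 3 → R →ₗ[ℝ] R
  mul : ∀ i f g, d i (f * g) = d i f * g + f * d i g
  comm : ∀ i j f, d i (d j f) = d j (d i f)

namespace DR

variable {R : Type} [CommRing R] [Algebra ℝ R] (D : DR R)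

/-- Iterated derivatives; the head of the list acts first. -/
def w : List (Fin 3) → R → R
  | [], f => f
  | i :: l, f => w l (D.d i f)

def lap (f : R) : R := D.d 1 (D.d 1 f) + D.d 2 (D.d 2 f)
def ht (f : R) : R := D.d 0 f - D.lap f
def br (f g : R) : R := D.d 1 f * D.d 2 g - D.d 2 f * D.d 1 g
def HH (α ψ : R) (j : Fin 3) : R := D.br α (D.d j ψ) + D.br ψ (D.d j α)
/-- The equation of the half difference. -/
def eW (α ψ : R) (j : Fin 3) : R := D.ht (D.d j ψ) + D.HH α ψ j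
/-- The time derivative of the vorticity equation of the half sum. -/
def eA (α ψ : R) : R := D.d 0 (D.ht (D.lap α) + D.br α (D.lap α) + D.br ψ (D.lap ψ))
def yy (n : ℝ) (ψ : R) (j : Fin 3) : R := D.d 0 (D.d 0 (D.d j ψ)) + n • D.d j ψ
def T2 (a b c f : R) : R := a * D.d 2 (D.d 2 f) - 2 * (b * D.d 1 (D.d 2 f)) + c * D.d 1 (D.d 1 f)
/-- The cofactor operator of the Hessian of `φ`. -/
def LL (φ f : R) : R := D.T2 (D.d 1 (D.d 1 φ)) (D.d 1 (D.d 2 φ)) (D.d 2 (D.d 2 φ)) f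
def XX (σ f : R) : R := D.d 1 f + σ * D.d 2 f
/-- The Hessian on the vectors `(1, σ)`, `(1, σ)`. -/
def AA (φ σ : R) : R := D.d 1 (D.d 1 φ) + 2 * σ * D.d 1 (D.d 2 φ) + σ ^ 2 * D.d 2 (D.d 2 φ)
/-- The Hessian on the vectors `(1, σ)`, `(0, 1)`. -/
def QQ (φ σ : R) : R := D.d 1 (D.d 2 φ) + σ * D.d 2 (D.d 2 φ)
def det (φ : R) : R := D.d 1 (D.d 1 φ) * D.d 2 (D.d 2 φ) - D.d 1 (D.d 2 φ) ^ 2
/-- The Hessian on constant vectors. -/
def BB (φ : R) (a b : ℝ × ℝ) : R := (a.1 * b.1) • D.d 1 (D.d 1 φ)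
  + (a.1 * b.2 + a.2 * b.1) • D.d 1 (D.d 2 φ) + (a.2 * b.2) • D.d 2 (D.d 2 φ)
/-- The Wronskian in time. -/
def bk (f g : R) : R := f * D.d 0 g - D.d 0 f * g
def ip (n : ℝ) (f g : R) : R := n • (f * g) + D.d 0 f * D.d 0 g
/-- A vector field applied to `f`, and its divergence. -/
def V (a b f : R) : R := a * D.d 1 f + b * D.d 2 f
def dv (a b : R) : R := D.d 1 a + D.d 2 b
/-- The top symbol of the quadratic coupling. -/
def tp (ψ σ : R) (k : ℕ) : R := (D.d 0)^[k] (D.d 1 ψ ^ 2) + 2 * σ * (D.d 0)^[k] (D.d 1 ψ * D.d 2 ψ)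
  + σ ^ 2 * (D.d 0)^[k] (D.d 2 ψ ^ 2)
/-- The first coefficient of `LL φ` applied to a term of order `-2` with coefficient `c`. -/
def lx (φ σ c : R) : R := 2 * c * D.AA (D.d 2 φ) σ - 2 * D.QQ φ σ * D.XX σ c

theorem c10 (f : R) : D.d 1 (D.d 0 f) = D.d 0 (D.d 1 f) := D.comm _ _ _
theorem c20 (f : R) : D.d 2 (D.d 0 f) = D.d 0 (D.d 2 f) := D.comm _ _ _
theorem c21 (f : R) : D.d 2 (D.d 1 f) = D.d 1 (D.d 2 f) := D.comm _ _ _

theorem d_one (i : Fin 3) : D.d i 1 = 0 := by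
  have := D.mul i 1 1
  simpa using this

theorem d_alg (i : Fin 3) (c : ℝ) : D.d i (algebraMap ℝ R c) = 0 := by
  rw [Algebra.algebraMap_eq_smul_one, map_smul, d_one, smul_zero]

theorem d_natCast (i : Fin 3) (n : ℕ) : D.d i (n : R) = 0 := by
  rw [← map_natCast (algebraMap ℝ R), d_alg]

theorem d_ofNat (i : Fin 3) (n : ℕ) [n.AtLeastTwo] : D.d i (no_index (OfNat.ofNat n : R)) = 0 :=
  D.d_natCast i n

theorem d_pow (i : Fin 3) (f : R) (k : ℕ) : D.d i (f ^ (k + 1)) = (k + 1 : ℕ) * f ^ k * D.d i f := by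
  induction k with
  | zero => simp
  | succ k ih => rw [pow_succ, D.mul, ih]; push_cast; ring

theorem d_sq (i : Fin 3) (f : R) : D.d i (f ^ 2) = 2 * f * D.d i f := by rw [sq, D.mul]; ring

theorem d_inv (i : Fin 3) {f g : R} (h : f * g = 1) : D.d i g = -(D.d i f * g ^ 2) := by
  have := congrArg (D.d i) h
  rw [D.mul, d_one] at this
  linear_combination g * this - D.d i g * h

theorem d_iter (i j : Fin 3) (k : ℕ) (f : R) : D.d i ((D.d j)^[k] f) = (D.d j)^[k] (D.d i f) :=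
  ((Function.Commute.iterate_right (fun f => D.comm i j f) k) f)

theorem w_nil (f : R) : D.w [] f = f := rfl
theorem w_cons (i : Fin 3) (l : List (Fin 3)) (f : R) : D.w (i :: l) f = D.w l (D.d i f) := rfl

theorem w_append (l l' : List (Fin 3)) (f : R) : D.w (l ++ l') f = D.w l' (D.w l f) := by
  induction l generalizing f with
  | nil => rfl
  | cons i l ih => exact ih _

theorem d_w (i : Fin 3) (l : List (Fin 3)) (f : R) : D.d i (D.w l f) = D.w l (D.d i f) := by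
  induction l generalizing f with
  | nil => rfl
  | cons j l ih => rw [w_cons, w_cons, ih, D.comm]

/-- A word as a linear map. -/
def wl (l : List (Fin 3)) : R →ₗ[ℝ] R where
  toFun := D.w l
  map_add' f g := by
    induction l generalizing f g with
    | nil => rfl
    | cons i l ih => rw [w_cons, map_add, ih]; rfl
  map_smul' c f := by
    induction l generalizing f with
    | nil => rfl
    | cons i l ih => rw [w_cons, map_smul, ih]; rfl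

theorem w_add (l : List (Fin 3)) (f g : R) : D.w l (f + g) = D.w l f + D.w l g := map_add (D.wl l) f g
theorem w_sub (l : List (Fin 3)) (f g : R) : D.w l (f - g) = D.w l f - D.w l g := map_sub (D.wl l) f g
theorem w_neg (l : List (Fin 3)) (f : R) : D.w l (-f) = -D.w l f := map_neg (D.wl l) f
theorem w_zero (l : List (Fin 3)) : D.w l 0 = 0 := map_zero (D.wl l)
theorem w_smul (l : List (Fin 3)) (c : ℝ) (f : R) : D.w l (c • f) = c • D.w l f :=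
  map_smul (D.wl l) c f

theorem w_replicate (i : Fin 3) (k : ℕ) (f : R) : D.w (List.replicate k i) f = (D.d i)^[k] f := by
  induction k generalizing f with
  | zero => rfl
  | succ k ih => exact ih _

theorem w_mem {S : Set R} (h : ∀ i, ∀ f ∈ S, D.d i f ∈ S) (l : List (Fin 3)) :
    ∀ f ∈ S, D.w l f ∈ S := by
  induction l with
  | nil => exact fun _ a => a
  | cons i l ih => exact fun f a => ih _ (h i f a)

/-- The product rule for words. -/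
theorem w_mul_mem {S T U : Set R} (ha : ∀ a ∈ U, ∀ b ∈ U, a + b ∈ U)
    (hm : ∀ a ∈ S, ∀ b ∈ T, a * b ∈ U) (l : List (Fin 3)) : ∀ f g : R, (∀ l, D.w l f ∈ S) →
    (∀ l, D.w l g ∈ T) → D.w l (f * g) ∈ U := by
  induction l with
  | nil => exact fun f g a b => hm _ (a []) _ (b [])
  | cons i l ih =>
    intro f g a b
    rw [w_cons, D.mul, w_add]
    exact ha _ (ih _ _ (fun l => a (i :: l)) b) _ (ih _ _ a fun l => b (i :: l))

/-- The trace equation. -/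
theorem LL_eq (α ψ : R) : 2 * D.LL ψ α = D.d 1 (D.eW α ψ 2) - D.d 2 (D.eW α ψ 1) := by
  simp only [LL, T2, eW, ht, lap, HH, br, map_add, map_sub, D.mul, c10, c20, c21]
  ring

/-- The cofactor operator in the frame `(1, σ)`, `(0, 1)`. -/
theorem LL_frame (φ σ f : R) : D.LL φ f = D.d 2 (D.d 2 φ) * (D.XX σ (D.XX σ f) - D.XX σ σ * D.d 2 f)
    - 2 * D.QQ φ σ * (D.d 2 (D.XX σ f) - D.d 2 σ * D.d 2 f) + D.AA φ σ * D.d 2 (D.d 2 f) := by
  simp only [LL, T2, XX, QQ, AA, map_add, D.mul, c21]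
  ring

/-- The operator near a non-characteristic curve with slope `g`. -/
theorem UN_id {ψ g Ai : R} (hg : D.d 2 g = 0) (h : D.AA ψ g * Ai = 1) (f : R) :
    Ai * D.LL ψ f = D.V (-(D.QQ ψ g * Ai)) (1 - D.QQ ψ g * Ai * g)
        (D.V (-(D.QQ ψ g * Ai)) (1 - D.QQ ψ g * Ai * g) f)
      + D.det ψ * Ai ^ 2 * D.XX g (D.XX g f) + D.XX g (D.det ψ * Ai) * Ai * D.XX g f
      - D.d 2 (D.d 2 ψ) * Ai * D.d 1 g * D.V (-(D.QQ ψ g * Ai)) (1 - D.QQ ψ g * Ai * g) f := by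
  have e := D.d_inv 2 h
  have h1 : D.det ψ * Ai = D.d 2 (D.d 2 ψ) - D.QQ ψ g * (D.QQ ψ g * Ai) := by
    simp only [det, QQ, AA] at h ⊢
    linear_combination D.d 2 (D.d 2 ψ) * h
  rw [sq, ← mul_assoc, h1]
  simp only [LL, T2, XX, QQ, AA, V, map_add, map_sub, map_neg, D.mul, c21, e, hg, d_sq, d_one,
    d_ofNat] at h ⊢
  linear_combination D.d 2 (D.d 2 f) * h

/-- The operator near a doubly characteristic curve with slope `g`. -/
theorem UK_id {ψ g Ei : R} (hg : D.d 2 g = 0) (h : D.d 2 (D.d 2 ψ) * Ei = 1) (f : R) :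
    Ei * D.LL ψ f = D.V 1 (g - D.QQ ψ g * Ei) (D.V 1 (g - D.QQ ψ g * Ei) f)
      + D.det ψ * Ei ^ 2 * D.d 2 (D.d 2 f)
      + (D.V 1 (g - D.QQ ψ g * Ei) (D.QQ ψ g * Ei) - D.d 1 g) * D.d 2 f := by
  have hq : D.QQ ψ g * Ei = D.d 1 (D.d 2 ψ) * Ei + g := by rw [QQ]; linear_combination g * h
  rw [hq]
  simp only [LL, T2, V, det, map_add, map_sub, D.mul, c21, hg, d_one]
  linear_combination (D.d 1 (D.d 1 f) - D.d 1 (D.d 1 ψ) * Ei * D.d 2 (D.d 2 f)) * h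

theorem det_frame (φ σ : R) : D.det φ = D.AA φ σ * D.d 2 (D.d 2 φ) - D.QQ φ σ ^ 2 := by
  simp only [det, QQ, AA]
  ring

end DR

/-- Spatial words. -/
def Sp (l : List (Fin 3)) : Prop := ∀ i ∈ l, i ≠ 0

variable {R : Type} [CommRing R] [Algebra ℝ R]

/-- An integral on an ideal, with integration by parts and positivity. -/
structure Cx (D : DR R) (X : Type) where
  ev : X → R →ₐ[ℝ] ℝ
  J : Ideal R
  J_d : ∀ i, ∀ f ∈ J, D.d i f ∈ J
  I : R →ₗ[ℝ] ℝ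
  I_d : ∀ i, ∀ f ∈ J, I (D.d i f) = 0
  I_pos : ∀ f ∈ J, (∀ x, 0 ≤ ev x f) → 0 ≤ I f

/-- The pointwise hypothesis of the Hardy inequality, for the field `(a, b)` and the weight with
logarithmic gradient `g`. -/
def HaH (D : DR R) (e : R →ₐ[ℝ] ℝ) (a b : R) (g : Fin 3 → R) (m : R) : Prop :=
  e (m ^ 2) ≤ e (-(2 * (a * g 1 + b * g 2) + D.dv a b) * m - D.V a b m)

/-- The lower bound in the Carleman inequality for the complex field `U + i V`. -/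
noncomputable def czq (D : DR R) (u1 u2 v1 v2 c1 c2 : R) (g : Fin 3 → R) : R :=
  D.dv ((u1 * g 1 + u2 * g 2) * u1) ((u1 * g 1 + u2 * g 2) * u2)
    + D.dv ((v1 * g 1 + v2 * g 2) * v1) ((v1 * g 1 + v2 * g 2) * v2)
    + c1 * (v1 * g 1 + v2 * g 2) - c2 * (u1 * g 1 + u2 * g 2) - (1 / 4 : ℝ) • (c1 ^ 2 + c2 ^ 2)

/-- The structure functions of the pair of fields. -/
def CzW (D : DR R) (u1 u2 v1 v2 c1 c2 : R) : Prop :=
  -D.d 2 (u1 * v2 - u2 * v1) = c1 * u1 + c2 * v1 ∧ D.d 1 (u1 * v2 - u2 * v1) = c1 * u2 + c2 * v2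

/-- The zero order coefficient in the Carleman inequality for `ε ∂ₜ - Δ`. -/
noncomputable def hsc (D : DR R) (ε : ℝ) (g : Fin 3 → R) (k : R) : R :=
  4 * (D.d 1 (g 1) * g 1 ^ 2 + 2 * D.d 1 (g 2) * g 1 * g 2 + D.d 2 (g 2) * g 2 ^ 2)
    - D.lap (D.dv (g 1) (g 2)) + (4 * ε) • (g 1 * D.d 1 (g 0) + g 2 * D.d 2 (g 0))
    + ε ^ 2 • D.d 0 (g 0) - k * (g 1 ^ 2 + g 2 ^ 2 + ε • g 0) - (1 / 2 : ℝ) • (D.lap k + k ^ 2)

/-- The pointwise hypotheses of that inequality. -/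
structure HeH (D : DR R) (e : R →ₐ[ℝ] ℝ) (ε N c C : ℝ) (g : Fin 3 → R) (μ k : R) : Prop where
  m0 : 0 ≤ e μ
  h1 : ∀ ξ η : ℝ, c * N * e μ * (ξ ^ 2 + η ^ 2) ≤ 4 * (e (D.d 1 (g 1)) * ξ ^ 2
    + 2 * e (D.d 1 (g 2)) * ξ * η + e (D.d 2 (g 2)) * η ^ 2) + e k * (ξ ^ 2 + η ^ 2)
  h2 : c * N ^ 3 * e μ ^ 2 ≤ e (hsc D ε g k)
  h3 : e (g 1 ^ 2 + g 2 ^ 2 + ε • g 0) ^ 2 ≤ C * N ^ 4 * e μ ^ 2
  h4 : ∀ i, i ≠ 0 → e (g i) ^ 2 ≤ C * N ^ 2 * e μ
  h5 : ∀ i j, i ≠ 0 → j ≠ 0 → e (D.d i (g j)) ^ 2 ≤ C * N ^ 4 * e μ ^ 2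

/-- Functions on the lens `0 < d < u ^ 2`: coefficients `A`, flat functions `F`, integrals over
the smaller lenses `b d < u ^ 2`. -/
structure Ln (D : DR R) (X : Type) where
  ev : X → R →ₐ[ℝ] ℝ
  A : Subalgebra ℝ R
  A_d : ∀ i, ∀ a ∈ A, D.d i a ∈ A
  A_bd : ∀ a ∈ A, ∃ C : ℝ, ∀ x, |ev x a| ≤ C
  d : R
  di : R
  u : R
  ui : R
  sd : R
  d_di : d * di = 1
  u_ui : u * ui = 1
  sd_sq : sd * sd = d
  dA : d ∈ A
  uA : u ∈ A
  d0 : D.d 0 d = 0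
  d2 : D.d 2 d = 1
  u2 : D.d 2 u = 0
  d_pos : ∀ x, 0 < ev x d
  u_pos : ∀ x, 0 < ev x u
  sd_pos : ∀ x, 0 < ev x sd
  d_lt : ∀ x, ev x d < ev x u ^ 2
  u_le : ∀ x, ev x u ≤ 1
  F : Ideal R
  F_d : ∀ i, ∀ f ∈ F, D.d i f ∈ F
  J : ℝ → Ideal R
  J_le : ∀ b, J b ≤ F
  J_d : ∀ b i, ∀ f ∈ J b, D.d i f ∈ J b
  I : ℝ → R →ₗ[ℝ] ℝ
  I_d : ∀ b : ℝ, 2 ≤ b → ∀ i, ∀ f ∈ J b, I b (D.d i f) = 0
  I_pos : ∀ b : ℝ, ∀ f ∈ F, (∀ x, b * ev x d < ev x u ^ 2 → 0 ≤ ev x f) → 0 ≤ I b f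
  vol : ∃ C : ℝ, 0 ≤ C ∧ ∀ b c : ℝ, ∀ f ∈ F, 0 ≤ c →
    (∀ x, b * ev x d < ev x u ^ 2 → ev x f ≤ c) → I b f ≤ C * c
  χ : ℝ → R
  χJ : ∀ b : ℝ, 2 ≤ b → ∀ f ∈ F, χ b * f ∈ J b
  χ1 : ∀ b : ℝ, 2 ≤ b → ∀ l x, 2 * b * ev x d < ev x u ^ 2 → ev x (D.w l (χ b - 1)) = 0
  pb : ∀ f ∈ A, f ∈ F → ∀ (l : List (Fin 3)) (b : ℝ) (M : ℕ), 2 ≤ b → ∃ (C : ℝ) (q : ℕ),
    ∀ N : ℕ, 1 ≤ N → ∀ x, 2 * b * ev x d < ev x u ^ 2 →
      ev x (D.w l f) ^ 8 * ev x (u ^ 2 * di) ^ (6 * N)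
        ≤ C * N ^ q * ev x d ^ M * I b (((u ^ 2 * di) ^ N * f) ^ 2) ^ 3
  van : ∀ f ∈ F, ∀ b M : ℝ, 0 ≤ M → (∃ᶠ N : ℕ in atTop, I b (((u ^ 2 * di) ^ N * f) ^ 2) ≤ M ^ N) →
    ∀ x, b * ev x d < ev x u ^ 2 → M < ev x (u ^ 2 * di) ^ 2 → ev x f = 0

namespace Ln

variable {D : DR R} {X : Type} (L : Ln D X)

def dom (b : ℝ) : Set X := {x | b * L.ev x L.d < L.ev x L.u ^ 2}

def du : Rˣ := ⟨L.d, L.di, L.d_di, (mul_comm _ _).trans L.d_di⟩

/-- Integer powers of `d`. -/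
def dz (s : ℤ) : R := ((L.du ^ s : Rˣ) : R)

/-- The weight. -/
def Wt (N : ℕ) (s : ℤ) : R := (L.u ^ 2 * L.di) ^ N * L.dz s

/-- Its logarithmic gradient. -/
def gw (N : ℕ) (s : ℤ) : Fin 3 → R := fun i =>
  (N : ℝ) • (2 * D.d i L.u * L.ui - D.d i L.d * L.di) + (s : ℝ) • (D.d i L.d * L.di)

/-- The integral over the smaller lens. -/
def cx (b : ℝ) (hb : 2 ≤ b) : Cx D (L.dom b) where
  ev x := L.ev x.1
  J := L.J b
  J_d := L.J_d b
  I := L.I b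
  I_d := L.I_d b hb
  I_pos f hf h := L.I_pos b f (L.J_le b hf) fun x hx => h ⟨x, hx⟩

/-- The weighted norm of `(d / N) ^ m f`. -/
noncomputable def nrm (b : ℝ) (N : ℕ) (m : ℤ) (f : R) : ℝ :=
  L.I b ((L.Wt N m * f) ^ 2) / (N : ℝ) ^ (2 * m)

/-- The negligible quantity. -/
noncomputable def sm (f : Fin 3 → R) (b : ℝ) (N : ℕ) : ℝ :=
  (4 * b ^ 2) ^ N + √(∑ i, L.nrm b ((2 * N + 2) / 3) 0 (f i)) ^ 3

/-- Functions of order `m` and loss `p` with respect to the gauge `g`. -/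
def Rw (s : ℝ → ℕ → ℝ) (g : ℝ → ℕ → NNReal) (m p : ℤ) : Set R :=
  {f | f ∈ L.F ∧ ∀ᶠ b : ℝ in atTop, ∃ (C : ℝ) (q : ℕ), 0 ≤ C ∧ ∀ᶠ N : ℕ in atTop,
    L.nrm b N m f ≤ C * ((N : ℝ) ^ p * g b N + N ^ q * s b N)}

/-- The square root of `di`. -/
def si : R := L.sd * L.di

/-- Singular coefficients of size `d ^ (-k / 2)`. -/
def Sy (k : ℕ) : Submodule L.A R :=
  Submodule.span L.A {f | ∃ a i j : ℕ, i + j ≤ k ∧ f = L.sd ^ a * L.si ^ i * L.ui ^ j}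

/-- Those which are small compared with `d ^ (-k / 2)` on the small lenses. -/
def So (k : ℕ) : Submodule L.A R :=
  Submodule.span L.A {f | ∃ a i j : ℕ, i + j ≤ k ∧ i < k ∧ f = L.sd ^ a * L.si ^ i * L.ui ^ j}

theorem dz_zero : L.dz 0 = 1 := by simp [dz]
theorem dz_add (s t : ℤ) : L.dz (s + t) = L.dz s * L.dz t := by simp [dz, zpow_add]
theorem dz_one : L.dz 1 = L.d := by simp [dz, du]
theorem dz_neg_one : L.dz (-1) = L.di := by simp [dz, du]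
theorem dz_succ (s : ℤ) : L.dz (s + 1) = L.dz s * L.d := by rw [dz_add, dz_one]
theorem dz_pred (s : ℤ) : L.dz (s - 1) = L.dz s * L.di := by rw [sub_eq_add_neg, dz_add, dz_neg_one]

theorem ev_di (x : X) : L.ev x L.di = (L.ev x L.d)⁻¹ :=
  eq_inv_of_mul_eq_one_right (by rw [← map_mul, L.d_di, map_one])

theorem ev_ui (x : X) : L.ev x L.ui = (L.ev x L.u)⁻¹ :=
  eq_inv_of_mul_eq_one_right (by rw [← map_mul, L.u_ui, map_one])

theorem ev_dz (x : X) (s : ℤ) : L.ev x (L.dz s) = L.ev x L.d ^ s := by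
  have h := (L.d_pos x).ne'
  induction s using Int.induction_on with
  | zero => simp [dz_zero]
  | succ k ih => rw [dz_succ, map_mul, ih, zpow_add_one₀ h]
  | pred k ih => rw [dz_pred, map_mul, ih, zpow_sub_one₀ h, ev_di]

theorem d_dz (i : Fin 3) (s : ℤ) : D.d i (L.dz s) = (s : ℝ) • (D.d i L.d * L.di) * L.dz s := by
  induction s using Int.induction_on with
  | zero => simp [dz_zero, D.d_one]
  | succ k ih =>
    rw [dz_succ, D.mul, ih]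
    simp only [Algebra.smul_def, Int.cast_add, Int.cast_one, map_add, map_one]
    linear_combination (-L.dz k * D.d i L.d) * L.d_di
  | pred k ih =>
    rw [dz_pred, D.mul, ih, D.d_inv i L.d_di]
    simp only [Algebra.smul_def, Int.cast_sub, Int.cast_one, map_sub, map_one]
    ring

theorem d_Wt (i : Fin 3) (N : ℕ) (s : ℤ) : D.d i (L.Wt N s) = L.gw N s i * L.Wt N s := by
  have h : ∀ N : ℕ, D.d i ((L.u ^ 2 * L.di) ^ N)
      = (N : ℝ) • (2 * D.d i L.u * L.ui - D.d i L.d * L.di) * (L.u ^ 2 * L.di) ^ N := fun N => by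
    induction N with
    | zero => simp [D.d_one]
    | succ k ih =>
      rw [pow_succ, D.mul, ih, D.mul, D.d_sq, D.d_inv i L.d_di]
      simp only [Algebra.smul_def, Nat.cast_add, Nat.cast_one, map_add, map_one]
      linear_combination (-2 * (L.u ^ 2 * L.di) ^ k * L.u * L.di * D.d i L.u) * L.u_ui
  rw [Wt, D.mul, h, d_dz, gw]
  ring

theorem gw_symm (N : ℕ) (s : ℤ) (i j : Fin 3) : D.d i (L.gw N s j) = D.d j (L.gw N s i) := by
  simp only [gw, map_add, map_smul, map_sub, D.mul, D.d_ofNat, D.d_inv _ L.d_di, D.d_inv _ L.u_ui,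
    D.comm i j]
  congr 2 <;> ring

theorem Wt_succ (N : ℕ) (s : ℤ) : L.Wt N (s + 1) = L.Wt N s * L.d := by rw [Wt, Wt, dz_succ, mul_assoc]
theorem Wt_pred (N : ℕ) (s : ℤ) : L.Wt N (s - 1) = L.Wt N s * L.di := by
  rw [Wt, Wt, dz_pred, mul_assoc]
theorem Wt_zero (N : ℕ) : L.Wt N 0 = (L.u ^ 2 * L.di) ^ N := by rw [Wt, dz_zero, mul_one]

theorem sd_si : L.sd * L.si = 1 := by rw [si, ← mul_assoc, L.sd_sq, L.d_di]
theorem si_sq : L.si ^ 2 = L.di := by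
  rw [si]; linear_combination L.di ^ 2 * L.sd_sq + L.di * L.d_di

theorem d_sd (i : Fin 3) : D.d i L.sd = (1 / 2 : ℝ) • (D.d i L.d * L.si) := by
  have h := congrArg (D.d i) L.sd_sq
  rw [D.mul] at h
  have e : (2 : ℝ) • D.d i L.sd = D.d i L.d * L.si := by
    rw [two_smul]; linear_combination L.si * h - 2 * D.d i L.sd * L.sd_si
  rw [← e, smul_smul]; norm_num

theorem d_si (i : Fin 3) : D.d i L.si = -((1 / 2 : ℝ) • (D.d i L.d * L.si ^ 3)) := by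
  rw [D.d_inv i L.sd_si, d_sd, smul_mul_assoc]; congr 2; ring

theorem dom_mono {b b' : ℝ} (h : b ≤ b') : L.dom b' ⊆ L.dom b := fun x hx =>
  lt_of_le_of_lt (mul_le_mul_of_nonneg_right h (L.d_pos x).le) hx

theorem ev_Wt (x : X) (N : ℕ) (s : ℤ) :
    L.ev x (L.Wt N s) = (L.ev x L.u ^ 2 / L.ev x L.d) ^ N * L.ev x L.d ^ s := by
  rw [Wt, map_mul, map_pow, map_mul, map_pow, ev_di, ev_dz, div_eq_mul_inv]

theorem I_mono {b : ℝ} {f g : R} (hf : f ∈ L.F) (hg : g ∈ L.F)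
    (h : ∀ x ∈ L.dom b, L.ev x f ≤ L.ev x g) : L.I b f ≤ L.I b g := by
  have := L.I_pos b (g - f) (sub_mem hg hf) fun x hx => by rw [map_sub]; exact sub_nonneg.2 (h x hx)
  rwa [map_sub, sub_nonneg] at this

theorem sq_mem {f : R} (hf : f ∈ L.F) (a : R) : (a * f) ^ 2 ∈ L.F :=
  L.F.pow_mem_of_mem (L.F.mul_mem_left a hf) 2 two_pos

theorem nrm_nonneg (b : ℝ) (N : ℕ) (m : ℤ) {f : R} (hf : f ∈ L.F) : 0 ≤ L.nrm b N m f :=
  div_nonneg (L.I_pos b _ (L.sq_mem hf _) fun x _ => by rw [map_pow]; positivity) (by positivity)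

/-- Functions which vanish on the inner lens are negligible. -/
theorem tail {b : ℝ} {μ f : R} (hμ : ∀ x, 0 ≤ L.ev x μ) (hf : f ∈ L.F)
    (h : ∀ x ∈ L.dom (2 * b), L.ev x f = 0) (N : ℕ) (s : ℤ) :
    L.I b (μ * (L.Wt N s * f) ^ 2) ≤ (4 * b ^ 2) ^ N * L.I b (μ * (L.dz s * f) ^ 2) := by
  rw [← smul_eq_mul ((4 * b ^ 2) ^ N), ← map_smul, Algebra.smul_def]
  refine L.I_mono (L.F.mul_mem_left _ (L.sq_mem hf _))
    (L.F.mul_mem_left _ (L.F.mul_mem_left _ (L.sq_mem hf _))) fun x _ => ?_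
  simp only [map_mul, map_pow, ev_Wt, ev_dz, AlgHom.commutes, Algebra.algebraMap_self, RingHom.id_apply]
  by_cases hx : x ∈ L.dom (2 * b)
  · simp [h x hx]
  have d := L.d_pos x
  have a : L.ev x L.u ^ 2 / L.ev x L.d ≤ 2 * b := (div_le_iff₀ d).2 (not_lt.1 hx)
  have a0 : 0 ≤ L.ev x L.u ^ 2 / L.ev x L.d := by positivity
  have c : ((L.ev x L.u ^ 2 / L.ev x L.d) ^ N) ^ 2 ≤ (4 * b ^ 2) ^ N := by
    rw [← pow_mul, mul_comm N, pow_mul]
    exact pow_le_pow_left₀ (by positivity) (by nlinarith) N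
  have := mul_le_mul_of_nonneg_right c (mul_nonneg (hμ x) (sq_nonneg (L.ev x L.d ^ s * L.ev x f)))
  simp only [mul_pow] at this ⊢
  linarith

end Ln

/-- All derivatives of `α` and of the defects. -/
def Fl (D : DR R) (A : Subalgebra ℝ R) (n : ℝ) (α ψ : R) : Submodule A R :=
  Submodule.span A {f | ∃ l, f = D.w l α ∨ ∃ j, j ≠ 0 ∧ f = D.w l (D.yy n ψ j)}

/-- Quadratic terms. -/
def Qd (D : DR R) (A : Subalgebra ℝ R) (n : ℝ) (α ψ : R) : Submodule A R :=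
  Submodule.span A {f | ∃ a ∈ Fl D A n α ψ, ∃ b ∈ Fl D A n α ψ, f = a * b}

/-- The calculus of orders and losses. -/
structure Mc (D : DR R) (n : ℝ) (α ψ : R) where
  A : Subalgebra ℝ R
  A_d : ∀ i, ∀ a ∈ A, D.d i a ∈ A
  d : R
  di : R
  d_di : d * di = 1
  dA : d ∈ A
  d0 : D.d 0 d = 0
  d2 : D.d 2 d = 1
  F : Ideal R
  F_d : ∀ i, ∀ f ∈ F, D.d i f ∈ F
  ψA : ψ ∈ A
  αF : α ∈ F
  yF : ∀ j, j ≠ 0 → D.yy n ψ j ∈ F
  eW : ∀ j, j ≠ 0 → D.eW α ψ j = 0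
  eA : D.eA α ψ = 0
  Γ : Type
  z : Γ
  add : Γ → Γ → Γ
  Rw : Γ → ℤ → ℤ → Submodule A R
  le_F : ∀ g m p, ∀ f ∈ Rw g m p, f ∈ F
  mono_p : ∀ g m p p', p ≤ p' → Rw g m p ≤ Rw g m p'
  mono_m : ∀ g m p, Rw g m p ≤ Rw g (m + 1) (p - 2)
  mono_l : ∀ g g' m p, Rw g m p ≤ Rw (add g g') m p
  mono_r : ∀ g g' m p, Rw g' m p ≤ Rw (add g g') m p
  shift : ∀ g m p f, d * f ∈ Rw g (m - 1) (p + 2) ↔ f ∈ Rw g m p
  unit : ∀ g m p, ∀ k ∈ A, ∀ ki ∈ A, ∀ e ∈ A, k * ki = 1 → ∀ f ∈ F, (k + d * e) * f ∈ Rw g m p →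
    f ∈ Rw g m p
  quad : ∀ g m p, Qd D A n α ψ ≤ Rw g m p
  hardy : ∀ g m p, ∀ a ∈ A, ∀ b ∈ A, ∀ k ∈ A, ∀ ki ∈ A, ∀ e ∈ A, k * ki = 1 →
    D.V a b d = k + d * e → ∀ f ∈ F, D.V a b f ∈ Rw g m p → f ∈ Rw g (m - 1) p
  inv : ∀ g m p (ε : ℝ), ε = 0 ∨ ε = 1 → ∀ f ∈ F, ε • D.d 0 f - D.lap f ∈ Rw g m p →
    f ∈ Rw g (m - 2) (p + 1) ∧ ∀ i, i ≠ 0 → D.d i f ∈ Rw g (m - 1) (p + 1) ∧
      ∀ j, j ≠ 0 → D.d i (D.d j f) ∈ Rw g m (p + 1)
  boot : ∀ S : Set (R × ℤ), S.Finite → (∀ q ∈ S, q.1 ∈ F) → ∃ Θ, (∀ q ∈ S, q.1 ∈ Rw Θ q.2 0) ∧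
    ∀ g, (∀ q ∈ S, q.1 ∈ Rw (add g Θ) q.2 (-1)) → ∀ q ∈ S, q.1 ∈ Rw g q.2 (-1)

namespace Mc

variable {D : DR R} {n : ℝ} {α ψ : R} (M : Mc D n α ψ)

/-- A characteristic field tangent to the curve. -/
structure Ch (σ τ Qi ns : R) : Prop where
  σA : σ ∈ M.A
  τA : τ ∈ M.A
  QA : Qi ∈ M.A
  nA : ns ∈ M.A
  root : D.AA ψ σ = 0
  tan : D.XX σ M.d = M.d * τ
  Q_Qi : D.QQ ψ σ * Qi = 1
  ns_inv : (1 + σ ^ 2) * ns = 1

/-- The filtration of the derivatives of `α`. -/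
def Mj (σ : R) (j : ℕ) : Submodule M.A R :=
  Submodule.span M.A {f | (∃ i ≤ j, f = (D.d 2)^[i] α) ∨ ∃ i, f = (D.XX σ)^[i] α}

/-- The gauge controls the normal derivatives of `α` up to the order `k`. -/
def Anch (G : M.Γ) (k : ℕ) : Prop := ∀ i ≤ k, (D.d 2)^[i] α ∈ M.Rw G i 0

theorem mul_mem {S : Submodule M.A R} {a f : R} (ha : a ∈ M.A) (hf : f ∈ S) : a * f ∈ S :=
  S.smul_mem (⟨a, ha⟩ : M.A) hf

theorem smul_mem {S : Submodule M.A R} (c : ℝ) {f : R} (hf : f ∈ S) : c • f ∈ S := by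
  rw [Algebra.smul_def]; exact M.mul_mem (M.A.algebraMap_mem c) hf

theorem mono {g : M.Γ} {m p m' p' : ℤ} (h : m ≤ m') (hp : p - 2 * (m' - m) ≤ p') :
    M.Rw g m p ≤ M.Rw g m' p' := by
  obtain ⟨k, rfl⟩ := Int.le.dest h
  refine le_trans ?_ (M.mono_p _ _ _ _ hp)
  clear hp h
  induction k with
  | zero => simp
  | succ k ih =>
    refine ih.trans ((M.mono_m _ _ _).trans (le_of_eq ?_))
    congr 1 <;> push_cast <;> ring

/-- Orders and losses for all spatial derivatives up to the order `k`. -/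
def Rm (G : M.Γ) (k : ℕ) (m p : ℤ) : Submodule M.A R where
  carrier := {f | ∀ l, Sp l → m + l.length ≤ k → D.w l f ∈ M.Rw G (m + l.length) p}
  add_mem' := fun a b l c e => by rw [D.w_add]; exact add_mem (a l c e) (b l c e)
  zero_mem' := fun l _ _ => by rw [D.w_zero]; exact zero_mem _
  smul_mem' := fun a f hf l => by
    change Sp l → _ → D.w l (a.1 * f) ∈ _
    obtain ⟨a, ha⟩ := a
    induction l generalizing a f m with
    | nil => exact fun c e => M.mul_mem ha (hf [] c e)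
    | cons i l ih =>
      intro c e
      have c' : Sp l := fun j hj => c j (List.mem_cons_of_mem _ hj)
      rw [List.length_cons, Nat.cast_add_one] at e ⊢
      rw [D.w_cons, D.mul, D.w_add]
      refine add_mem (M.mono (by omega) (by omega) (ih m f hf _ (M.A_d i a ha) c' (by omega))) ?_
      have := ih (m + 1) (D.d i f) (fun l' a' b' => by
        have := hf (i :: l') (List.forall_mem_cons.2 ⟨c i List.mem_cons_self, a'⟩)
          (by rw [List.length_cons, Nat.cast_add_one]; omega)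
        rw [List.length_cons, Nat.cast_add_one] at this
        rwa [add_right_comm, add_assoc]) a ha c' (by omega)
      rwa [add_right_comm, add_assoc] at this

/-- The same for all anchored gauges. -/
def RM (m p : ℤ) : Submodule M.A R where
  carrier := {f | ∀ᶠ k : ℕ in atTop, ∀ G, M.Anch G k → f ∈ M.Rm G k m p}
  add_mem' := fun a b => (a.and b).mono fun _ h G c => add_mem (h.1 G c) (h.2 G c)
  zero_mem' := Eventually.of_forall fun _ _ _ => zero_mem _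
  smul_mem' := fun a _ hf => Eventually.mono hf fun _ h G c => Submodule.smul_mem _ a (h G c)

/-- `v` has order `j` in `α`, with top coefficient `c` on the curve, up to a remainder. -/
def Ex (σ v : R) (j : ℤ) (c : R) (m p : ℤ) : Prop :=
  c ∈ M.A ∧ (∃ m₀ p₀, v ∈ M.RM m₀ p₀) ∧ ∀ᶠ r : ℕ in atTop, ∃ e ∈ M.A,
    (D.d 2)^[r] v - (c + M.d * e) * (D.d 2)^[(r + j).toNat] α
      ∈ M.Mj σ (r + j - 1).toNat ⊔ M.RM (r + m) p

/-- Spatial derivatives of order at most two of the time derivatives `a, …, b` of `α`. -/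
def SU (a b : ℕ) : Submodule M.A R :=
  Submodule.span M.A {f | ∃ i l, a ≤ i ∧ i ≤ b ∧ Sp l ∧ l.length ≤ 2 ∧ f = D.w l ((D.d 0)^[i] α)}

/-- Time derivatives of the defects. -/
def SY (b : ℕ) : Submodule M.A R :=
  Submodule.span M.A {f | ∃ i j, i ≤ b ∧ j ≠ 0 ∧ f = (D.d 0)^[i] (D.yy n ψ j)}

/-- First order spatial derivatives of `α`. -/
def S1 : Submodule M.A R := Submodule.span M.A {D.d 1 α, D.d 2 α}

/-- The conclusion. -/
def Concl : Prop := α ∈ M.Rw M.z 0 0 ∧ ∀ j, j ≠ 0 → D.yy n ψ j ∈ M.Rw M.z 0 0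

end Mc

end Pool.Agent.MP_ed9623_an.S64
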