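import Pool.Agent.MP_ed9623_an.S64.SpecB

open MeasureTheory Filter Topology Set
open scoped ContDiff

namespace Pool.Agent.MP_ed9623_an.S64

open H64
open H77 (P vl mm)

theorem rowBd2 : OfBd := by
  intro hC hS ρ g R a w W hρ hreg hP hW j t x hx
  have o : IsOpen {x | ρ x < 0} := isOpen_lt hρ.continuous continuous_const
  rcases (le_of_not_gt (b := ρ x) hx).eq_or_lt with h0 | h0
  swap
  · rw [notMem_closure_iff_nhdsWithin_eq_bot.1 fun h =>
      (closure_lt_subset_le hρ.continuous continuous_const h).not_gt h0]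
    exact tendsto_bot
  obtain ⟨τ, γ, r, ch, -⟩ := hC ρ x hρ h0.symm (hreg x h0.symm)
  refine Metric.tendsto_nhds.2 fun ε e => ?_
  obtain ⟨η, η0, h⟩ := hS _ x τ γ r R _ _ _ _ _ _ ch (hP.fx t) ((ε / 2) ^ 2) (by positivity)
  have u := o.inter (Metric.isOpen_ball (x := x) (ε := η))
  have c : ContinuousOn (fun y => W j (t, y)) ({x | ρ x < 0} ∩ Metric.ball x η) :=
    (hW.sm j).continuousOn.comp (Continuous.prodMk_right t).continuousOn fun _ b => b.1
  have k := Measure.eqOn_open_of_ae_eq (μ := volume) (f := fun y => max (W j (t, y) ^ 2) ((ε / 2) ^ 2))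
    (g := fun _ => (ε / 2) ^ 2) ((ae_restrict_iff' u.measurableSet).2 (by
      filter_upwards [h, hW.ae t j] with y b d hy
      rw [d hy.1]
      exact max_eq_right ((Finset.single_le_sum (f := fun j => vl (w t) j y ^ 2)
        (fun _ _ => sq_nonneg _) (Finset.mem_univ j)).trans (b hy.2)))) u
    ((c.pow 2).sup continuousOn_const) continuousOn_const
  filter_upwards [inter_mem_nhdsWithin _ (Metric.ball_mem_nhds x η0)] with y hy
  rw [Real.dist_eq, sub_zero]
  exact (abs_le_of_sq_le_sq (max_eq_right_iff.1 (k hy)) (half_pos e).le).trans_lt (half_lt_self e)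

end Pool.Agent.MP_ed9623_an.S64
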