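import Pool.Agent.MP_ed9623_an.S64.SpecB

/-! Representatives of the half sum and of the half difference. -/

open MeasureTheory Filter Topology Set
open scoped ContDiff

namespace Pool.Agent.MP_ed9623_an.S64

open H64
open H77 (P L E6 M2 Van Test ip perp vl gj Sv Pv TU Rp Zn vo Circ ee)

theorem rowRep2 : OfRep2 := by
  intro hR hG Ω g G R a w o hP hC
  have key : ∀ (c : ℝ) (u : ℝ → E6), (∀ t j p, vl (u t) j p = 1 / 2 * (vl (a t) j p + vl (w t) j p
      + c * (vl (a t) j p - vl (w t) j p))) → ∃ A, Gr Ω u A := fun c u hu => by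
    have : ∀ j, ∃ F : ST → ℝ, ContDiffOn ℝ ∞ F {z | z.2 ∈ Ω} ∧
        ∀ t, ∀ᵐ x, x ∈ Ω → F (t, x) = vl (u t) j x := fun j => hG Ω _ o fun t x hx => by
      obtain ⟨F, ε, e, b⟩ := hR Ω g G R _ o hP.mg hP.s1 hC t j x hx
      obtain ⟨F', ε', e', b'⟩ := hR Ω g G R _ o hP.mg hP.s2 hC t j x hx
      refine ⟨(1 / 2 : ℝ) • (F + c • F'), min ε ε', lt_min e e', (b.and b').mono fun s k => ?_⟩
      filter_upwards [k.1, k.2, H77.co_add (a s) (w s) (j, none),
        H77.co_sub (a s) (w s) (j, none)] with p m m' d d' hp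
      rw [val_smul, val_add, val_smul, m (Metric.ball_subset_ball (min_le_left _ _) hp),
        m' (Metric.ball_subset_ball (min_le_right _ _) hp), hu]
      unfold vl
      rw [d, d']
    choose A h1 h2 using this
    exact ⟨A, h1, fun t j => h2 j t⟩
  obtain ⟨A, hA⟩ := key 1 a fun _ _ _ => by ring
  obtain ⟨W, hW⟩ := key (-1) w fun _ _ _ => by ring
  exact ⟨A, W, hA, hW⟩

end Pool.Agent.MP_ed9623_an.S64
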