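import Pool.Agent.MP_ed9623_an.S64.SpecB
import Pool.Agent.MP_ed9623_an.H73.AnaP

/-! Local smooth representatives at every interior point. -/

open MeasureTheory Filter Topology Set
open scoped ContDiff InnerProductSpace

namespace Pool.Agent.MP_ed9623_an.S64

open H64

open H77 H77.AnaP in
theorem rowRepL : OfRepL := by
  intro hTh hTr hR hB Ω g G R U hΩ hg hU ⟨hG, hGe⟩ t j x hx
  obtain ⟨r, hc⟩ := exists_ch hΩ hx
  have r0 := hc.r0
  obtain ⟨-, mi, ⟨T, hT⟩, -, hte, -⟩ := hTh x (1, 0) (fun _ => 0) hc.un Gam.zero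
  obtain ⟨t1, t2, -, -, t5, t6⟩ := hTr x (1, 0) (fun _ => 0) hc.un Gam.zero
  have hQ : ∀ p ∈ Q r, x + p ∈ Ω := fun p hp => by
    rw [← Th_tr]
    exact (hc.mem p hp).2 (abs_lt.1 (mem_Q.1 hp).2).1
  have hv : ∀ (v : E6) j, tv x (1, 0) (fun _ => 0) (vl v) j =ᵐ[volume] vl (TE T v) j :=
    fun v j => by rw [tv_tr]; exact (hT _).symm
  have hd : ∀ (v : E6) j i, td x (1, 0) (fun _ => 0) (gj v) j i =ᵐ[volume] gj (TE T v) j i :=
    fun v j i => by rw [td_tr]; exact (hT _).symm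
  obtain ⟨χ, hχ, -, c1⟩ := exists_cut (isCompact_closedBall (0 : P) (r / 2)) (isOpen_Q r)
    (Q_eq_ball r ▸ Metric.closedBall_subset_ball (by linarith))
  have c2 : ∀ p ∈ Q (r / 2), χ p = 1 := fun p hp =>
    c1.self_of_nhdsSet p (Metric.ball_subset_closedBall (Q_eq_ball (r / 2) ▸ hp))
  have hA : ∀ p ∈ Q r, ContDiffAt ℝ ∞ (fun q => G (x + q)) p := fun p hp =>
    ContDiffAt.comp (f := fun q => x + q) p (hG.contDiffAt (hΩ.mem_nhds (hQ p hp)))
      (contDiffAt_const.add contDiffAt_id)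
  have hθ : ∀ θ, Test (Q (r / 2)) θ → Test Ω fun q => θ (Thi x (1, 0) (fun _ => 0) q) :=
    fun θ h => (hte _ θ h).2.mono fun q hq => by
      have := hQ _ (Q_mono (by linarith) hq)
      rwa [Thi_tr, add_sub_cancel] at this
  have hL : Lv (r / 2) (tv x (1, 0) (fun _ => 0) g) (fun p => χ p * G (x + p))
      fun t => TE T (U t) := by
    refine ⟨(TE T).contDiff.comp hU.1, fun t => mem_VZ.2 ⟨(t2 _ _ (hU.2 t).vf).1.congr (hv _) (hd _),
      fun ix => Eventually.of_forall fun p hp => absurd trivial hp⟩, fun j => ((t1 g).1 hg j).1,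
      test_mul hA hχ, fun t θ h => ?_, fun θ h => ?_⟩
    · obtain ⟨a, b, c⟩ := t6 _ fun j => h.top.perp Gam.zero j
      have e := (hU.2 t).eq _ (hθ θ h)
      unfold E2 at e ⊢
      rw [← (t5 θ h.1).1, ← b _ (m2_gj _), ← c _ _ (m2_vl _) (m2_vl _),
        ← a _ fun j => ((hU.2 t).mf j).1, di_congr (hd _), tl_congr (hv _) (hv _)] at e
      rw [e, deriv_clm _ hU.1]
      refine ip_congr (fun j => ?_) fun _ => EventuallyEq.rfl
      filter_upwards [hv (deriv U t) j] with p hp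
      rw [← hp, tv_tr, tv_tr, tv_tr]
    · obtain ⟨a, -, -⟩ := t6 _ fun j => h.top.perp Gam.zero j
      rw [a _ hg, (t5 θ h.1).1, hGe _ (hθ θ h), ← integral_add_left_eq_self _ x]
      refine integral_congr_ae (Eventually.of_forall fun p => ?_)
      simp only [Thi_tr, add_sub_cancel_left]
      by_cases hp : p ∈ Q (r / 2)
      · rw [c2 p hp, one_mul]
      · rw [h.off hp, mul_zero, mul_zero]
  obtain ⟨F, h1, h2⟩ := hR.2 (r / 4) (r / 6) t (H77.cp (fun t => TE T (U t)) (j, none)) (by linarith)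
    (sm_cp hL.sm _) fun k => hB (r / 2) (r / 4) _ _ _ hL (by linarith) (by linarith) k j
  refine ⟨mkS (fun z : ST => F (z.1, z.2 - x))
    (h1.comp (contDiff_fst.prodMk (contDiff_snd.sub contDiff_const))), r / 6, by linarith, ?_⟩
  filter_upwards [h2] with s hs
  filter_upwards [mi.quasiMeasurePreserving.ae hs, mi.quasiMeasurePreserving.ae (hv (U s) j)]
    with q a b hq
  rw [tv_tr] at b
  simp only [Th_Thi hc.un] at b
  rw [b, mkS_val, ← Thi_tr]
  refine a ?_
  rw [Q_eq_ball, Thi_tr, mem_ball_zero_iff, ← dist_eq_norm]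
  exact hq

end Pool.Agent.MP_ed9623_an.S64
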