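import Pool.Agent.MP_ed9623_an.S64.SpecB

/-! Unique continuation in time for the smooth representative. -/

open MeasureTheory Filter Topology Set
open scoped ContDiff

namespace Pool.Agent.MP_ed9623_an.S64

theorem rowTu : OfTu := by
  intro Ω a A hΩ hT hG z hz h
  obtain ⟨r, hr, hb⟩ := Metric.eventually_nhds_iff_ball.1
    (h.and ((continuous_snd.tendsto z).eventually (hΩ.mem_nhds hz)))
  rw [← Prod.mk.eta (p := z), ← ball_prod_same] at hb
  have sub : ∀ x ∈ Metric.ball z.2 r, x ∈ Ω := fun x hx =>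
    (hb (z.1, x) ⟨Metric.mem_ball_self hr, hx⟩).2
  have v := hT (Metric.ball z.2 r) _ Metric.isOpen_ball ⟨z.1, Metric.mem_ball_self hr⟩
    fun t ht j => (hG.ae t j).mono fun x e hx => (e (sub x hx)).symm.trans ((hb (t, x) ⟨ht, hx⟩).1 j)
  filter_upwards [Metric.ball_mem_nhds z.2 hr] with x hx t j
  exact Measure.eqOn_open_of_ae_eq (f := fun y => A j (t, y)) (g := fun _ => 0)
    ((ae_restrict_iff' measurableSet_ball).2 (((hG.ae t j).and (v t j)).mono fun y e hy =>
      (e.1 (sub y hy)).trans (e.2 hy))) Metric.isOpen_ball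
    ((hG.sm j).continuousOn.comp (Continuous.prodMk_right t).continuousOn sub) continuousOn_const hx

end Pool.Agent.MP_ed9623_an.S64
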