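import Pool.Agent.MP_ed9623_an.S64.SpecB

/-! The Hessian does not degenerate near a convex boundary point. -/

open MeasureTheory Filter Topology Set
open scoped ContDiff

namespace Pool.Agent.MP_ed9623_an.S64

open H64

namespace BWl

theorem tng {ρ f : PP → ℝ} {y : PP} (hρ : ContDiff ℝ (2 : ℕ) ρ) (hf : ContDiff ℝ (2 : ℕ) f)
    (h0 : ρ y = 0) (hd : fderiv ℝ ρ y ≠ 0) (hv : ∀ᶠ z in 𝓝 y, ρ z = 0 → f z = 0) :
    ∃ q : ℝ, ∀ e, pd e f y = q * pd e ρ y := by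
  obtain ⟨h, h1, h2⟩ := exists_div (n := 1) hρ.contDiffAt hf.contDiffAt h0 hd hv
  refine ⟨h y, fun e => ?_⟩
  rw [pd_congr_pt e h2, pd_mul e (cdg_diff hρ one_le_two y) (cd_diff h1 le_rfl), h0]
  ring

end BWl

theorem rowWl : OfWl := by
  intro ρ x t η V e hρ' h0 hk' hη Z hvo he hB
  have hρ : ∀ k : ℕ, ContDiff ℝ k ρ := fun k => hρ'.of_le (by exact_mod_cast le_top)
  have hk : 0 < curv2 ρ x := by
    by_contra h
    exact hk'.not_ge (div_nonpos_of_nonpos_of_nonneg (not_lt.1 h) (by positivity))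
  have c : ∀ j v, Continuous fun y : PP => pd v (V j) (t, y) := fun j v =>
    (contDiff_pd (n := 5) v (Z.c6 j)).continuous.comp (Continuous.prodMk_right t)
  have hB' : ∀ᶠ y in 𝓝 x, ρ y < 0 → Bf V e (t, y) = 0 :=
    (eventually_nhdsWithin_iff.1 hB).mono fun y a b => not_not.1 (a b)
  have hD : ∀ᶠ y in 𝓝 x, ρ y < 0 → pd e1 (V 0) (t, y) + pd e2 (V 1) (t, y) = 0 :=
    mem_of_superset (Metric.ball_mem_nhds x hη) fun y a b =>
      (Z.eq (t, y) (Metric.mem_ball_self hη) a b).2.2.1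
  have hv : ∀ᶠ y in 𝓝 x, pd e1 (V 1) (t, y) - pd e2 (V 0) (t, y) ≠ 0 :=
    ((c 1 e1).sub (c 0 e2)).continuousAt.eventually_ne hvo
  have key : ∀ᶠ y in 𝓝 x, ρ y = 0 → e.1 * pd (1, 0) ρ y + e.2 * pd (0, 1) ρ y = 0 := by
    filter_upwards [hB'.eventually_nhds, hD.eventually_nhds, hv,
      (curv2_cont (hρ 2)).continuousAt.eventually_ne hk.ne'] with y a1 a2 a3 a4 a5
    have hd := fderiv_ne_of_curv2 a4
    have b1 := eq_zero_of_closure (f := fun y => Bf V e (t, y)) ((((c 1 e1).const_mul _).add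
      ((c 1 e2).const_mul _)).sub ((c 0 e2).const_mul _)).continuousAt (mem_closure_neg a5 hd) a1
    have b2 := eq_zero_of_closure ((c 0 e1).add (c 1 e2)).continuousAt (mem_closure_neg a5 hd) a2
    have b3 : ∀ j, ∃ q : ℝ, pd e1 (V j) (t, y) = q * pd (1, 0) ρ y ∧
        pd e2 (V j) (t, y) = q * pd (0, 1) ρ y := fun j => by
      obtain ⟨q, hq⟩ := BWl.tng (f := fun y => V j (t, y)) (hρ 2)
        ((cdg_le (Z.c6 j) (by norm_num)).comp (by fun_prop)) a5 hd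
        (Eventually.of_forall fun z => Z.bd j (t, z))
      have d := pd_slice (cdg_diff (Z.c6 j) (by norm_num) (t, y))
      exact ⟨q, (d _).symm.trans (hq _), (d _).symm.trans (hq _)⟩
    obtain ⟨q0, p1, p2⟩ := b3 0
    obtain ⟨q1, p3, p4⟩ := b3 1
    simp only [Bf, Pi.add_apply, p1, p2, p3, p4] at b1 b2 a3
    refine pow_eq_zero_iff two_ne_zero |>.1 ((mul_eq_zero.1 ?_).resolve_left a3)
    linear_combination (pd (1, 0) ρ y ^ 2 + pd (0, 1) ρ y ^ 2) * b1 + (-e.1 ^ 2 * pd (1, 0) ρ y *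
      pd (0, 1) ρ y - 2 * e.1 * e.2 * pd (0, 1) ρ y ^ 2 + e.2 ^ 2 * pd (1, 0) ρ y *
        pd (0, 1) ρ y) * b2
  have c2 := fun v => contDiff_pd (n := 2) v (hρ 3)
  obtain ⟨q, hq⟩ := BWl.tng (hρ 2) ((contDiff_const.mul (c2 (1, 0))).add
    (contDiff_const.mul (c2 (0, 1)))) h0 (fderiv_ne_of_curv2 hk.ne') key
  have d := fun v => cdg_diff (c2 v) one_le_two x
  simp only [fun v => pd_add v ((d (1, 0)).const_mul e.1) ((d (0, 1)).const_mul e.2),
    fun v c w => pd_const_mul v c (d w)] at hq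
  have k0 := key.self_of_nhds h0
  have k1 := hq (1, 0)
  have k2 := hq (0, 1)
  rw [pd_comm (0, 1) (1, 0) (hρ 2).contDiffAt] at k2
  have k3 := tangent_alg k0 k0 (by linear_combination e.1 * k1 + e.2 * k2 + q * k0) hk.ne'
    (by by_contra h; push Not at h; exact he (Prod.ext h.1 h.2))
  exact he (Prod.ext k3.1 k3.2)

end Pool.Agent.MP_ed9623_an.S64
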