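import Pool.Agent.MP_ed9623_an.S64.SpecB

/-! The zone is maximal. -/

open MeasureTheory Filter Topology Set
open scoped ContDiff

namespace Pool.Agent.MP_ed9623_an.S64

open H64

theorem rowZnM : OfZnM := by
  intro n Ω A W x₁ x hΩ hC hx hc hA
  obtain ⟨r, hr, hB⟩ := Metric.eventually_nhds_iff_ball.1 (hA.and (hΩ.mem_nhds hx))
  obtain ⟨x₀, h0, h1⟩ := mem_closure_iff.1 hc _ Metric.isOpen_ball (Metric.mem_ball_self hr)
  have h2 : x₀ ∈ Yi n Ω A W := connectedComponentIn_subset _ _ h1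
  have hY := uc_connected (U := Metric.ball x r) Metric.isOpen_ball
    (convex_ball x r).isPreconnected isOpen_univ (W₁ := Yf n W 0) (W₂ := Yf n W 1)
    (Cf := fun _ => 0) continuous_const (fun z _ hz => by
      obtain ⟨O, α, ψ, a, -, b⟩ := hC z.2 (hB _ hz).2
      have c := (b.heat (n := n) a (((continuous_snd.tendsto z).eventually
        (Metric.isOpen_ball.mem_nhds hz)).mono fun y e j => (hB _ e).1 y.1 j)).1
      exact ⟨(c 0).1, (c 1).1, by rw [(c 0).2, (c 1).2]; simp⟩) h0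
    (mem_of_superset (mem_interior_iff_mem_nhds.1 h2) fun y a t _ => ⟨(a.2 t 0).2, (a.2 t 1).2⟩)
  have h3 : Metric.ball x r ⊆ Yi n Ω A W := interior_maximal (fun y a => ⟨(hB y a).2, fun t =>
    Fin.forall_fin_two.2 ⟨⟨(hB y a).1 t 0, (hY y a t trivial).1⟩,
      (hB y a).1 t 1, (hY y a t trivial).2⟩⟩) Metric.isOpen_ball
  rw [connectedComponentIn_eq h1]
  exact (convex_ball x r).isPreconnected.subset_connectedComponentIn h0 h3 (Metric.mem_ball_self hr)

end Pool.Agent.MP_ed9623_an.S64
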