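import Pool.Agent.MP_ed9623_an.S64.SpecB
import Pool.Agent.MP_ed9623_an.H64.Carl3

/-! The Hessian does not degenerate in the zone. -/

open MeasureTheory Filter Topology Set
open scoped ContDiff

namespace Pool.Agent.MP_ed9623_an.S64

open H64
open H77 (P)

namespace BZnW

theorem ev {n : ℝ} {Ω : Set P} {A W : Fin 2 → ST → ℝ} {z : ST} (h : z.2 ∈ Yi n Ω A W) :
    ∀ᶠ y in 𝓝 z, y.2 ∈ Ω ∧ ∀ j, A j y = 0 ∧ Yf n W j y = 0 :=
  ((continuous_snd.tendsto z).eventually (mem_interior_iff_mem_nhds.1 h)).mono fun y a =>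
    ⟨a.1, a.2 y.1⟩

theorem sn {n : ℝ} {Ω O : Set P} {A W : Fin 2 → ST → ℝ} {α ψ : S3} (h : Ck O α ψ A W) (e : P)
    {z : ST} (a : z.2 ∈ O) (b : z.2 ∈ Yi n Ω A W) : (Sn n (DS.BB ψ e e)).1 z = 0 := by
  have y1 : DS.yy n ψ 1 ∈ NI z :=
    ((h.Y1 (n := n) a).and (ev b)).mono fun y c => c.1.symm.trans (c.2.2 1).2
  have y2 : DS.yy n ψ 2 ∈ NI z := ((h.Y0 (n := n) a).and (ev b)).mono fun y c =>
    neg_eq_zero.1 (c.1.symm.trans (c.2.2 0).2)
  rw [DR.BB, Sn_add, Sn_add, Sn_smul, Sn_smul, Sn_smul, Sn_d 1, Sn_d 1 (DS.d 2 ψ), Sn_d 2 (DS.d 2 ψ),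
    Sn_yy, Sn_yy]
  simp [NI_val (NI_d y1 _), NI_val (NI_d y2 _)]

end BZnW

open BZnW in
theorem rowZnW : OfZnW := by
  intro n Ω A W x₁ e y z hn hC hy hz h0
  have hs := connectedComponentIn_subset (Yi n Ω A W) x₁
  obtain ⟨I, hI, J, hJ, hIJ⟩ := mem_nhds_prod_iff.1 h0
  have U := uc_connected (IsOpen.connectedComponentIn isOpen_interior)
    isPreconnected_connectedComponentIn isOpen_interior (I := interior I) (W₁ := Bf W e)
    (W₂ := Bf W e) (Cf := fun _ => 0) continuous_const (fun q _ b => by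
      obtain ⟨O, α, ψ, c, -, k⟩ := hC q.2 (ev (hs b)).self_of_nhds.1
      have m := (k.heat (n := n) c ((ev (hs b)).mono fun _ d j => (d.2 j).1)).2 e
      exact ⟨m.1, m.1, by simp [m.2]⟩) hz
    (mem_of_superset hJ fun x a t b =>
      ⟨hIJ (mk_mem_prod (interior_subset b) a), hIJ (mk_mem_prod (interior_subset b) a)⟩) y.2 hy
  obtain ⟨O, α, ψ, c, -, k⟩ := hC y.2 (ev (hs hy)).self_of_nhds.1
  refine (k.B c e).self_of_nhds.trans (sin_ext hn (fun t => sn k e (z := (t, y.2)) c (hs hy))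
    (s := z.1) (mem_of_superset (interior_mem_nhds.2 hI) fun t a => ?_) y.1)
  exact (k.B (z := (t, y.2)) c e).self_of_nhds.symm.trans (U t a).1

end Pool.Agent.MP_ed9623_an.S64
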