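import Pool.Agent.MP_ed9623_an.S64.SpecB

/-! The zone is the whole domain. -/

open Filter Topology Set

namespace Pool.Agent.MP_ed9623_an.S64

open H64
open H77 (P)

theorem rowZon : OfZon := by
  intro hC hW hM n Ω N A W n0 oΩ bΩ cΩ ck tu bd cN NY hB
  obtain ⟨z₁, hz₁, -⟩ := hB (1, 0) (by simp)
  have ZY := connectedComponentIn_subset (Yi n Ω A W) z₁.2
  have NZ := cN.subset_connectedComponentIn hz₁ NY
  have oZ : IsOpen (connectedComponentIn (Yi n Ω A W) z₁.2) := isOpen_interior.connectedComponentIn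
  have v := fun x hx => interior_subset (ZY (a := x) hx)
  have h3 : ∀ j : Fin 3, j ≠ 0 → j = 1 ∨ j = 2 := by decide
  have cor : Cor n Ω (connectedComponentIn (Yi n Ω A W) z₁.2) ![0, W 1, fun z => -W 0 z] := by
    refine ⟨oΩ, bΩ, fun x hx => ?_, fun j hj t x hx => ?_⟩
    · obtain ⟨O, α, ψ, xO, OΩ, h⟩ := ck x hx
      refine ⟨O, α, ψ, xO, ⟨n0, h.oO, oZ, h.eW, h.eA, fun j hj z a b => ?_, fun j hj z a b => ?_,
        fun e he z a b c => ?_, fun z a b c => ?_⟩, OΩ, fun j hj z a => ?_⟩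
      · rcases h3 j hj with rfl | rfl
        · exact (h.a1 z a).trans ((v _ b).2 z.1 1).1
        · exact (h.a2 z a).trans (neg_eq_zero.2 ((v _ b).2 z.1 0).1)
      · rcases h3 j hj with rfl | rfl
        · exact (h.Y1 a).self_of_nhds.symm.trans ((v _ b).2 z.1 1).2
        · exact neg_eq_zero.1 ((h.Y0 a).self_of_nhds.symm.trans ((v _ b).2 z.1 0).2)
      · obtain ⟨y, hy, ne⟩ := hB e he
        exact ne (hW n Ω A W z₁.2 e y z n0 ck (NZ hy) b
          (((h.B a e).and c).mono fun q d => d.1.trans d.2))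
      · exact hM n Ω A W z₁.2 z.2 oΩ ck (OΩ a) b (tu z (OΩ a) ((h.gz a).1 c))
      · rcases h3 j hj with rfl | rfl
        exacts [h.w1 z a, h.w2 z a]
    · rcases h3 j hj with rfl | rfl
      · exact bd 1 t x hx
      · simpa using (bd 0 t x hx).neg
  intro x hx t j
  exact ((v x (cΩ.subset_of_closure_inter_subset oZ ⟨z₁.2, (v _ (NZ hz₁)).1, NZ hz₁⟩
    (fun y hy => hC n Ω _ _ cor y hy.2 hy.1) hx)).2 t j).1

end Pool.Agent.MP_ed9623_an.S64
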