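import Pool.Agent.MP_ed9623_an.H77.AllX
import Pool.Agent.MP_ed9623_an.S64.DefS

/-! From uniqueness of complete bounded solutions to determining functionals. -/

open MeasureTheory Filter Topology Set
open scoped ContDiff InnerProductSpace

namespace Pool.Agent.MP_ed9623_an.S64

open H64 H77

theorem curl_eq {Ω O : Set P} (hΩ : MeasurableSet Ω) (g : Fin 2 → L2 Ω) {θ : P → ℝ}
    (hθ : Test O θ) : ∫ x in Ω, (g 0 x * pd (ee 1) θ x - g 1 x * pd (ee 0) θ x)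
      = -ip (fun j => xt Ω (g j)) (perp (fun _ => 0) θ) := by
  have a := fun j i => (m2_xt hΩ (g j)).int_mul (hθ.pd (ee i)).m2
  rw [← integral_indicator hΩ, ip, Fin.sum_univ_two]
  change _ = -((∫ x, xt Ω (g 0) x * -dd (fun _ => 0) 1 θ x) + ∫ x, xt Ω (g 1) x * dd (fun _ => 0) 0 θ x)
  simp only [dd_zero, mul_neg, integral_neg]
  rw [neg_add, neg_neg, ← sub_eq_add_neg, ← integral_sub (a 0 1) (a 1 0)]
  refine integral_congr_ae (Eventually.of_forall fun x => ?_)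
  by_cases hx : x ∈ Ω <;> simp [xt, hx]

theorem fin3 {Ω : Set P} (o : IsOpen Ω) (hb : Bornology.IsBounded Ω) (g : Fin 2 → L2 Ω)
    (K : ∀ R a w, Pv Ω (fun j => xt Ω (g j)) R a w → TU a → (∀ t, w t ∈ Ys Ω) →
      (∃ t, t ≤ 0 ∧ w t = 0) ∨ ∀ t, t < 0 → a t = 0) :
    ∃ (N : ℕ) (Φ : Fin N → L2 Ω →L[ℝ] ℝ), ∀ u p v q, Traj Ω g u p → Traj Ω g v q →
      (∀ i, Tendsto (fun t => Φ i (p t) - Φ i (q t)) atTop (𝓝 0)) →
      Tendsto (fun t => ‖u t - v t‖) atTop (𝓝 0) := by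
  have m := o.measurableSet
  have mg := fun j => m2_xt m (g j)
  obtain ⟨S, D, hM⟩ := rowModel wLad rowCpt _ _ hb mg
  obtain ⟨N, Λ, hΛ⟩ := aAf S D hM.anti hM.cpt fun R U W hU hW e => by
    obtain ⟨R', hP⟩ := rowCv _ _ S D R U W mg hM hU hW e
    have two : ∀ z : E6, (1 / 2 : ℝ) • z = 0 → z = 0 := fun z hz =>
      (smul_eq_zero.1 hz).resolve_left one_half_pos.ne'
    rcases K R' _ _ hP (tu_of (rowTan (rowEnN aPl rowEqN) rowMaj rowTay) hM hU hW) fun t =>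
      Vs_le_Ys _ ((Vs _).smul_mem _ ((Vs _).sub_mem (U t).2 (W t).2)) with ⟨t, ht, a⟩ | a
    · exact ⟨t, ht, Subtype.ext (sub_eq_zero.1 (two _ a))⟩
    · exact ⟨-1, by norm_num, aDec hU hW fun t ht => Subtype.ext (two _ (a t ht))⟩
  obtain ⟨E, hE⟩ := exists_ext m
  have rz : ∀ i, ∃ ζ : YY Ω, ∀ y, ⟪y, ζ⟫_ℝ = Λ y i := fun i =>
    ⟨(InnerProductSpace.toDual ℝ _).symm (ContinuousLinearMap.proj i ∘L Λ), fun y => by
      rw [real_inner_comm, InnerProductSpace.toDual_symm_apply]; rfl⟩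
  choose ζ hζ using rz
  choose l hl using fun i => exists_int ((m2_gj (ζ i).1 0 0).add (m2_gj (ζ i).1 1 1))
  refine ⟨N, fun i => -(l i ∘L E.toContinuousLinearMap), fun u p v q hu hv hΦ => ?_⟩
  have key : ∀ u p, Traj Ω g u p → ∃ U, Sm S (Ioi 0) U ∧ ∀ t, 0 < t →
      (∀ j, S.ι (U t) j = E (u t j)) ∧ ∀ i, Λ (obs S D U t) i = -l i (E (p t)) := fun u p h => by
    obtain ⟨z, Z, a, b⟩ := rowTr1 _ g S D u p o hM h
    obtain ⟨U, c, d⟩ := aSmooth (itv_Ioi 0) a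
    have e : ∀ t, 0 < t → ∀ j, S.ι (U t) j =ᵐ[volume] xt _ (u t j) := fun t ht j => d t ht ▸ b t j
    refine ⟨U, c, fun t ht => ⟨fun j => Lp.ext ((e t ht j).trans (hE _).symm), fun i => ?_⟩⟩
    rw [← hζ, rowTr2 _ g S D u p U o hM h c e t ht, hl]
    exact congrArg _ (integral_congr_ae ((hE _).symm.mul EventuallyEq.rfl))
  obtain ⟨U, hU, a⟩ := key u p hu
  obtain ⟨W, hW, b⟩ := key v q hv
  refine squeeze_zero' (Eventually.of_forall fun _ => norm_nonneg _) ?_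
    (hΛ U W hU hW (tendsto_pi_nhds.2 fun i => (hΦ i).congr' ?_))
  · filter_upwards [eventually_gt_atTop 0] with t ht
    refine (pi_norm_le_iff_of_nonneg (norm_nonneg _)).2 fun j => ?_
    rw [← E.norm_map, Pi.sub_apply, map_sub, ← (a t ht).1, ← (b t ht).1, map_sub, ← PiLp.sub_apply]
    exact PiLp.norm_apply_le _ j
  · filter_upwards [eventually_gt_atTop 0] with t ht
    rw [map_sub, Pi.sub_apply, (a t ht).2, (b t ht).2]
    rfl

theorem xUniq : UniqS :=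
  rowUniq rowChart xUcP (rowTriA wDp) (rowTriB rowTh xZ1 xZ2 (rowClass rowCl0) rowTail rowAnaZ)
    (rowAnaP rowTh wTrans (rowAnaC zRep rowCl0 zBoot)) rowClop

end Pool.Agent.MP_ed9623_an.S64
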