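import Pool.Agent.MP_ed9623_an.S64.AllG
import Pool.Agent.MP_ed9623_an.S64.Fin3
import Pool.Agent.MP_ed9623_an.S64.BRepL
import Pool.Agent.MP_ed9623_an.S64.BGlue
import Pool.Agent.MP_ed9623_an.S64.BRep2
import Pool.Agent.MP_ed9623_an.S64.BCut
import Pool.Agent.MP_ed9623_an.S64.BEq1
import Pool.Agent.MP_ed9623_an.S64.BEq2
import Pool.Agent.MP_ed9623_an.S64.BStrm
import Pool.Agent.MP_ed9623_an.S64.BCk
import Pool.Agent.MP_ed9623_an.S64.BSin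
import Pool.Agent.MP_ed9623_an.S64.BPer
import Pool.Agent.MP_ed9623_an.S64.BYz
import Pool.Agent.MP_ed9623_an.S64.BWl
import Pool.Agent.MP_ed9623_an.S64.BNh
import Pool.Agent.MP_ed9623_an.S64.BNb
import Pool.Agent.MP_ed9623_an.S64.BTu
import Pool.Agent.MP_ed9623_an.S64.BBd2
import Pool.Agent.MP_ed9623_an.S64.BZnW
import Pool.Agent.MP_ed9623_an.S64.BZnM
import Pool.Agent.MP_ed9623_an.S64.BZon
import Pool.Agent.MP_ed9623_an.S64.BSm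
import Pool.Agent.MP_ed9623_an.S64.BOsc
import Pool.Agent.MP_ed9623_an.S64.BGeo

/-! All parts together. -/

open MeasureTheory Filter Topology Set
open scoped ContDiff

namespace Pool.Agent.MP_ed9623_an.S64

open H64
open H77

theorem xSm : SmS :=
  rowSm (rowRep2 (rowRepL rowTh wTrans zRep zBoot) rowGlue)
    (rowCk rowCut (rowEq1 rowCl0) (rowEq2 rowCl0) rowStrm)
    (rowPer rowChart xUcP (rowTriA wDp) rowCl0 xDefP xGlob rowCT rowSpin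
      (rowCid rowCl0 (rowIdn wTrans wZt xCrl)) (rowZone rowTh xZ1 xZ2 (rowClass rowCl0)) rowJetZ
      rowStdy rowSin)
    (rowNb rowYz rowWl (rowNh xCha)) rowTu (rowBd2 rowChart0 (rowSmall wMix wZt rowTh wTrans wGp))
    (rowZon xCore rowZnW rowZnM)

theorem xGeo : GeoS := rowGeo rowNear2 (rowOsc xCha)

theorem xKey {ρ : P → ℝ} (hρ : ContDiff ℝ ∞ ρ) (hreg : ∀ x, ρ x = 0 → fderiv ℝ ρ x ≠ 0)
    (hb : Bornology.IsBounded {x | ρ x < 0}) (hc : IsConnected {x | ρ x < 0})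
    (g : Fin 2 → L2 {x | ρ x < 0})
    (H : Circ ρ ∨ (∃ x₀, ρ x₀ = 0 ∧ 0 < curvature ρ x₀ ∧ ¬ Exc ρ {x | ρ x < 0} g x₀) ∨
      (∃ G, CurlIs {x | ρ x < 0} g {x | ρ x < 0} G) ∨ ∃ G, CurlSm {x | ρ x < 0} g G ∧
        (IsPreconnected {x | ρ x = 0} ∨ ∃ x₀, ρ x₀ = 0 ∧ 0 < curvature ρ x₀ ∧
          dcurvature ρ x₀ ≠ 0 ∧ ¬ ∀ᶠ x in 𝓝[{x | ρ x < 0}] x₀, G x = 0))
    (R : ℝ) (a w : ℝ → E6) (hP : Pv {x | ρ x < 0} (fun j => xt {x | ρ x < 0} (g j)) R a w)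
    (tu : TU a) (hy : ∀ t, w t ∈ Ys {x | ρ x < 0}) :
    (∃ t, t ≤ 0 ∧ w t = 0) ∨ ∀ t, t < 0 → a t = 0 := by
  have m := (isOpen_lt hρ.continuous (continuous_const (y := (0 : ℝ)))).measurableSet
  by_cases hci : Circ ρ
  · exact xCirc ρ _ R a w hρ hreg hc.2 hci hP tu hy
  rcases H.resolve_left hci with ⟨x, h0, hk, hx⟩ | ⟨G, hG⟩ | ⟨G, hG, H⟩
  · refine Or.inl ((xExc ρ x _ R a w hρ hreg hb hc.2 h0 hk hP tu).resolve_right ?_)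
    exact fun ⟨c, r, r0, G, l, d, e⟩ => hx ⟨c, r, r0, G, l, (curlIs_iff m g G).2 d, e⟩
  · obtain ⟨x, h0, hk⟩ := exists_convex hρ hreg hb hc.1
    exact or_iff_not_imp_left.2 fun hw => (xUniq ρ x _ R a w hρ hc.2 h0 hk
      (fun _ _ => ⟨G, (curlIs_iff m g G).1 hG⟩) hP).resolve_left hw
  have hS : CurlS (fun j => xt {x | ρ x < 0} (g j)) {x | ρ x < 0} G :=
    ⟨hG.1, fun θ hθ => (curl_eq m g hθ).symm.trans (hG.2 θ hθ)⟩
  rcases H with H | ⟨x, h0, hk, hd, H⟩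
  · obtain ⟨x, h0, hk, hd⟩ := xGeo ρ hρ hreg hb hc.1 H hci
    exact xSm ρ x _ G R a w hρ hreg hb hc.2 h0 hk hd hP tu hS (Or.inl H)
  · exact xSm ρ x _ G R a w hρ hreg hb hc.2 h0 hk hd hP tu hS (Or.inr H)

end Pool.Agent.MP_ed9623_an.S64
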