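import Pool.Agent.MP_ed9623_an.S64.SpecG

/-! A boundary contained in a regular curve. -/

set_option autoImplicit false

open Filter Topology Set

namespace Pool.Agent.MP_ed9623_an.S64

open H64

namespace GCF

theorem half {A B : Set PP} (hA : IsOpen A) (hB : IsOpen B) (hd : Disjoint A B)
    (h : ∀ᶠ x in 𝓝 (0 : PP), 0 < x.2 → x ∈ A ∪ B) :
    (∀ᶠ x in 𝓝 (0 : PP), 0 < x.2 → x ∈ A) ∨ ∀ᶠ x in 𝓝 (0 : PP), 0 < x.2 → x ∈ B := by
  obtain ⟨r, hr, h⟩ := Metric.eventually_nhds_iff_ball.1 h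
  have c : Convex ℝ (Metric.ball (0 : PP) r ∩ {x | 0 < x.2}) :=
    (convex_ball _ _).inter (convex_halfSpace_gt (LinearMap.snd ℝ ℝ ℝ).isLinear 0)
  refine (c.isPreconnected.subset_or_subset hA hB hd fun x e => h x e.1 e.2).imp ?_ ?_ <;>
    exact fun e => Metric.eventually_nhds_iff_ball.2 ⟨r, hr, fun x a b => e ⟨a, b⟩⟩

/-- The shear along the curve. -/
def sh (γ : SA ℝ) : PP ≃ₜ PP where
  toFun x := (x.1, x.2 + γ.1 x.1)
  invFun x := (x.1, x.2 - γ.1 x.1)
  left_inv x := by simp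
  right_inv x := by simp
  continuous_toFun := continuous_fst.prodMk (continuous_snd.add (γ.ct.comp continuous_fst))
  continuous_invFun := continuous_fst.prodMk (continuous_snd.sub (γ.ct.comp continuous_fst))

theorem one (hC : ChaS) {Z : Set PP} {F : SA PP} {q : PP} (hZ : IsOpen Z) (h0 : F.1 q = 0)
    (h1 : (d1 F).1 q ≠ 0 ∨ (d2 F).1 q ≠ 0)
    (h2 : ∀ᶠ x in 𝓝 q, x ∈ closure Z → x ∉ Z → F.1 x = 0) :
    ((∀ᶠ y in 𝓝 q, F.1 y < 0 → y ∈ Z) ∨ ∀ᶠ y in 𝓝 q, F.1 y < 0 → y ∉ closure Z) ∧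
    (∀ᶠ y in 𝓝 q, F.1 y = 0 → ∃ᶠ x in 𝓝 y, F.1 x < 0) ∧
    ((∀ᶠ y in 𝓝 q, 0 < F.1 y → y ∈ Z) → (∀ᶠ y in 𝓝 q, F.1 y = 0 → y ∉ Z) →
      ∃ (τ : PP) (γ : SA ℝ), τ.1 ^ 2 + τ.2 ^ 2 = 1 ∧ Crv (mv q τ ⁻¹' Z) 0 γ) := by
  obtain ⟨τ, γ, a, b, c⟩ := hC F q h0 h1
  have m : map (mv q τ) (𝓝 0) = 𝓝 q := ((mvH q τ a).map_nhds_eq 0).trans (congrArg _ (mv_zero q τ))
  have s : map (sh γ) (𝓝 0) = 𝓝 0 := ((sh γ).map_nhds_eq 0).trans
    (congrArg _ (Prod.ext rfl ((zero_add _).trans b)))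
  refine ⟨?_, ?_, fun u v => ⟨τ, γ, a, ⟨b.symm, ?_⟩, ?_⟩⟩
  · rw [← m, eventually_map, ← s, eventually_map] at h2
    rw [← s, eventually_map] at c
    have k : Continuous fun x => mv q τ (sh γ x) := (sm_mv q τ).continuous.comp (sh γ).continuous
    have e : ∀ᶠ x in 𝓝 (0 : PP), (F.1 (mv q τ (sh γ x)) < 0 ↔ 0 < x.2) :=
      c.mono fun x e => e.1.trans (lt_add_iff_pos_left _)
    rw [← m, eventually_map, eventually_map, ← s, eventually_map, eventually_map]
    refine (half (hZ.preimage k) (isClosed_closure.isOpen_compl.preimage k)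
      ((disjoint_compl_right.mono_left (subset_closure (s := Z))).preimage _)
      ((h2.and e).mono fun x d f => by_contra fun g => ?_)).imp ?_ ?_
    · exact (d.2.2 f).ne (d.1 (by_contra fun n => g (.inr n)) fun n => g (.inl n))
    all_goals exact fun d => (d.and e).mono fun x d f => d.1 (d.2.1 f)
  · rw [← m, eventually_map]
    refine c.eventually_nhds.mono fun x d e =>
      ((sm_mv q τ).continuous.tendsto x).frequently ?_
    exact ((freq_above (d.self_of_nhds.2.1 e).ge).and_eventually d).mono fun y f => f.2.1.2 f.1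
  · rw [← m, eventually_map] at u
    exact (u.and c).mono fun x d e => d.1 (lt_of_le_of_ne (not_lt.1 fun f => (d.2.1.1 f).not_gt e)
      fun f => e.ne (d.2.2.1 f.symm))
  · rw [← m, eventually_map] at v
    exact (v.and c).mono fun x d e => d.1 (d.2.2.2 e)

theorem nm {Z : Set PP} {f : PP → ℝ} {q : PP} (hZ : IsOpen Z)
    (h1 : ∀ᶠ y in 𝓝 q, f y < 0 → y ∉ closure Z) (h2 : ∀ᶠ y in 𝓝 q, f y = 0 → ∃ᶠ x in 𝓝 y, f x < 0) :
    ∀ᶠ y in 𝓝 q, f y = 0 → y ∉ Z :=
  (h1.eventually_nhds.and h2).mono fun _ a b c => by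
    obtain ⟨x, d, e, g⟩ := ((a.2 b).and_eventually (a.1.and (hZ.mem_nhds c))).exists
    exact e d (subset_closure g)

end GCF

open GCF in
theorem rowCF : OfCF := by
  intro hC Z F q hZ h1 h2 h3 h4
  have h0 := h4.self_of_nhds h1 h2
  obtain ⟨a1, a2, a3⟩ := one hC hZ h0 h3 h4
  obtain ⟨b1, b2, b3⟩ := one (F := -F) (q := q) hC hZ (by simp [h0]) (by simpa using h3) (by simpa using h4)
  simp only [val_neg, neg_lt_zero, neg_pos, neg_eq_zero] at b1 b3
  rcases a1 with a | a <;> rcases b1 with b | b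
  · refine .inl ((a.eventually_nhds.and (b.and a2)).mono fun y c => ?_)
    rcases lt_trichotomy (F.1 y) 0 with d | d | d
    · exact subset_closure (c.1.self_of_nhds d)
    · exact mem_closure_iff_frequently.2 (((c.2.2 d).and_eventually c.1).mono fun _ e => e.2 e.1)
    · exact subset_closure (c.2.1 d)
  · exact .inr (b3 a (by simpa using nm (f := (-F).1) hZ (by simpa using b) b2))
  · exact .inr (a3 b (nm hZ a a2))
  · obtain ⟨y, c, d, e, g⟩ := ((mem_closure_iff_frequently.1 h1).and_eventually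
      (a.and (b.and (nm hZ a a2)))).exists
    rcases lt_trichotomy (F.1 y) 0 with k | k | k
    exacts [(d k (subset_closure c)).elim, (g k c).elim, (e k (subset_closure c)).elim]

end Pool.Agent.MP_ed9623_an.S64
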