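import Pool.Agent.MP_ed9623_an.S64.SpecG

/-! There are no straight pieces of the boundary of the zone. -/

open Filter Topology Set
open scoped ContDiff

namespace Pool.Agent.MP_ed9623_an.S64

open H64

namespace GCont

/-- Agreement above a set of the plane. -/
def Ag (O : Set PP) (F : ST → ℝ) (f : S3) : Prop := ∀ z : ST, z.2 ∈ O → F z = f.1 z

/-- The pairing of two functions. -/
noncomputable def ipf (n : ℝ) (F G : ST → ℝ) (z : ST) : ℝ :=
  n * (F z * G z) + pd (EE 0) F z * pd (EE 0) G z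

variable {n : ℝ} {O Ω Z : Set PP} {F G : ST → ℝ} {f g α ψ : S3} {x : PP}

theorem Ag.d (h : Ag O F f) (hO : IsOpen O) (i : Fin 3) : Ag O (pd (EE i) F) (DS.d i f) :=
  fun z a => pd_congr_pt _ (((continuous_snd.tendsto z).eventually (hO.mem_nhds a)).mono h)

theorem Ag.ip (h : Ag O F f) (k : Ag O G g) (hO : IsOpen O) (n : ℝ) :
    Ag O (ipf n F G) (DS.ip n f g) := fun z a => by
  rw [ipf, h z a, k z a, h.d hO 0 z a, k.d hO 0 z a, ip_val]

theorem Ag.ev (h : Ag O F f) (hO : IsOpen O) {s c : ℝ} (a : (s, c) ∈ O) :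
    (fun r => F (0, r, c)) =ᶠ[𝓝 s] fun r => f.1 (0, r, c) :=
  (((Continuous.prodMk_left c).tendsto s).eventually (hO.mem_nhds a)).mono fun r b => h (0, r, c) b

theorem d_ip (f : S3) (z : ST) :
    (DS.d 1 (DS.ip n f f)).1 z = 2 * (DS.ip n (DS.d 1 f) f).1 z := by
  simp only [DR.ip, map_add, map_smul, DS.mul, DS.c10, val_add, val_mul, val_smul]
  ring

theorem hd (h : Ag O F f) (hO : IsOpen O) {s c : ℝ} (a : (s, c) ∈ O) :
    HasDerivAt (fun r => ipf n F F (0, r, c)) (2 * ipf n (pd (EE 1) F) F (0, s, c)) s := by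
  rw [(h.d hO 1).ip h hO n (0, s, c) a, ← d_ip]
  exact (hd_x1 _ 0 s c).congr_of_eventuallyEq ((h.ip h hO n).ev hO a)

theorem ag {f : Fin 3 → ST → ℝ} (h : Cht n Ω Z f O α ψ) : Ag O (f 2) (DS.d 2 ψ) :=
  fun z a => (h.eq 2 (by decide) z a).symm

end GCont

open GCont in
theorem rowCont : OfCont := by
  intro line qtr step n Ω Z f O α ψ p cor ch hp sg
  have hn := ch.loc.n0
  obtain ⟨s₀, c⟩ := p
  refine line (fun s => ipf n (f 2) (f 2) (0, s, c))
    (fun s => ipf n (pd (EE 1) (f 2)) (f 2) (0, s, c))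
    (fun s => ipf n (pd (EE 1) (f 2)) (pd (EE 1) (f 2)) (0, s, c))
    (fun s => ipf n (pd (EE 1) (pd (EE 1) (f 2))) (pd (EE 1) (f 2)) (0, s, c))
    {s | (s, c) ∈ Ω} {s | ∃ O α ψ, Cht n Ω Z f O α ψ ∧ (s, c) ∈ O ∧ Sg n ψ Z (s, c)} s₀
    (cor.b.image_fst.subset fun s a => ⟨_, a, rfl⟩) ⟨O, α, ψ, ch, hp, sg⟩
    (fun s ⟨_, _, _, a, b, _⟩ => a.sub b) (isOpen_iff_mem_nhds.2 ?_) (fun s => ?_) (fun s hs => ?_)
    ?_ (fun s hs hG h0 h2 => ?_) fun s hs => ?_
  · rintro s ⟨O, α, ψ, a, b, k⟩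
    filter_upwards [k.ev, ((Continuous.prodMk_left c).tendsto s).eventually (a.loc.oO.mem_nhds b)]
      with r u v
    exact ⟨O, α, ψ, a, v, u⟩
  · exact add_nonneg (mul_nonneg hn.le (mul_self_nonneg _)) (mul_self_nonneg _)
  · obtain ⟨O, α, ψ, a, b⟩ := cor.ch _ hs
    have o := b.loc.oO
    exact ⟨hd (ag b) o a, hd ((ag b).d o 1) o a,
      (hd_x1 _ 0 s c).continuousAt.congr ((((ag b).d o 1).ip (ag b) o n).ev o a).symm⟩
  · rintro s ⟨O, α, ψ, b, a, k⟩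
    have o := b.loc.oO
    have e0 := ag b
    have e1 := e0.d o 1
    have e2 := e1.d o 1
    obtain ⟨t, ht⟩ := k.nd
    have sn : ∀ t, (Sn n (DS.d 1 (DS.d 2 ψ))).1 (t, s, c) = 0 := fun t => by
      rw [Sn_d]
      exact FL_val (FL_d (b.loc.yy_fl (z := (t, s, c)) (by decide) a k.crv.1.cl) 1)
    have r := TI_val k.rel rfl 0
    simp only [rel, val_sub, val_mul, val_pow, val_ofNat] at r
    simp only [e1.ip e1 o n (0, s, c) a, e2.ip e1 o n (0, s, c) a, e1.ip e0 o n (0, s, c) a]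
    exact ⟨ip_const sn sn t 0 ▸ ip_pos hn ht, sub_eq_zero.1 r⟩
  · obtain ⟨O, α, ψ, a, b⟩ := cor.ch _ hs
    have o := b.loc.oO
    have e1 := (ag b).d o 1
    rw [(ag b).ip (ag b) o n (0, s, c) a] at h0
    rw [e1.ip e1 o n (0, s, c) a] at h2
    have key : ∀ l : Filter ℝ, l ≤ 𝓝 s →
        {s | ∃ O α ψ, Cht n Ω Z f O α ψ ∧ (s, c) ∈ O ∧ Sg n ψ Z (s, c)} ∈ l →
        ∀ᶠ r in l, Crv Z (r, c) (cst c) ∧ ∀ t, (DS.d 1 ψ).1 (t, r, c) = 0 := fun l hl hG => by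
      filter_upwards [hG, hl (((Continuous.prodMk_left c).tendsto s).eventually (o.mem_nhds a))]
      rintro r ⟨O', α', ψ', b', a', k⟩ v
      refine ⟨k.crv, fun t => ?_⟩
      rw [b.eq 1 (by decide) (t, r, c) v, ← b'.eq 1 (by decide) (t, r, c) a']
      exact TI_val k.tan rfl t
    refine ⟨O, α, ψ, b, a, ?_⟩
    rcases hG with hG | hG
    · exact step n α ψ O Z (s, c) _ b.loc a (Or.inl rfl) (key _ nhdsWithin_le_nhds hG)
        (exists_ne h0.ne') (exists_ne h2.ne')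
    · exact step n α ψ O Z (s, c) _ b.loc a (Or.inr rfl) (key _ nhdsWithin_le_nhds hG)
        (exists_ne h0.ne') (exists_ne h2.ne')
  · have T : Tendsto (fun r : ℝ => ((r, c) : PP))
        (𝓝[{s | ∃ O α ψ, Cht n Ω Z f O α ψ ∧ (s, c) ∈ O ∧ Sg n ψ Z (s, c)}] s) (𝓝[Ω] (s, c)) :=
      (Continuous.prodMk_left c).continuousWithinAt.tendsto_nhdsWithin
        fun r ⟨_, _, _, a, b, _⟩ => a.sub b
    have L := fun t => ((cor.bd 2 (by decide) t (s, c) hs).comp T).pow 2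
    have := ((L 0).add (L (Real.pi / (2 * √n)))).const_mul n
    simp only [ne_eq, OfNat.ofNat_ne_zero, not_false_eq_true, zero_pow, add_zero, mul_zero] at this
    refine this.congr' (eventually_mem_nhdsWithin.mono ?_)
    rintro r ⟨O, α, ψ, b, a, k⟩
    simp only [Function.comp, (ag b).ip (ag b) b.loc.oO n (0, r, c) a, ag b (_, r, c) a]
    exact (qtr n _ (r, c) hn fun t =>
      FL_val (b.loc.yy_fl (z := (t, r, c)) (by decide) a k.crv.1.cl)).symm

end Pool.Agent.MP_ed9623_an.S64
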