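import Pool.Agent.MP_ed9623_an.S64.SpecG

/-! The zone is closed in the domain. -/

namespace Pool.Agent.MP_ed9623_an.S64

theorem rowCore : OfCore := by
  intro nd rt rc tp ct n Ω Z f h x hx hz
  by_contra hn
  obtain ⟨O, α, ψ, hO, c⟩ := h.ch x hx
  obtain ⟨p, hp, Φ, t, h1, h2⟩ := nd n α ψ O Z x c.loc hO hz hn
  obtain ⟨τ, e, k1, k2, k3⟩ := rt Z p Φ h1
  obtain ⟨f', g1, g2⟩ := rc n Ω Z f p τ e h
  have c' := g2 O α ψ c
  have h0 : (0 : H64.PP) ∈ mv p τ ⁻¹' O := by rwa [Set.mem_preimage, mv_zero]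
  exact ct n _ _ f' _ _ _ 0 g1 c' h0 (tp n _ _ _ _ 0 _ t c'.loc h0 k1 k2 k3 (by
    rwa [det_cm p τ e, cm_val, mv_zero]))

end Pool.Agent.MP_ed9623_an.S64
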