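import Pool.Agent.MP_ed9623_an.S64.SpecG

/-! A smooth boundary of the zone is characteristic. -/

open Filter Topology Set

namespace Pool.Agent.MP_ed9623_an.S64

open H64

namespace GDC1

theorem flat {γ : SA ℝ} {N : Set ST} (hN : IsOpen N) {f : S3}
    (h : ∀ i, ∀ y ∈ N, y.2.2 = γ.1 y.2.1 → ((DS.d 2)^[i] f).1 y = 0) {y : ST} (a : y ∈ N)
    (c : y.2.2 = γ.1 y.2.1) : f ∈ FL y := fun l => by
  refine DS.w_mem (S := {f | ∀ i, ∀ y ∈ N, y.2.2 = γ.1 y.2.1 → ((DS.d 2)^[i] f).1 y = 0})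
    (fun j f hf i y a c => ?_) l f h 0 y a c
  have v : ∀ i, (DS.d 2)^[i] f ∈ VI γ y := fun i => mem_VI.2 (mem_of_superset (hN.mem_nhds a) (hf i))
  rw [← DS.d_iter]
  have e2 : DS.d 2 ((DS.d 2)^[i] f) ∈ VI γ y := by
    rw [← Function.iterate_succ_apply' (DS.d 2)]
    exact v _
  refine VI_val ?_ c
  match j with
  | 0 => exact VI_d0 (v i)
  | 1 =>
    have := sub_mem (VI_X (v i)) (Ideal.mul_mem_left _ (gg γ) e2)
    rwa [DR.XX, add_sub_cancel_right] at this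
  | 2 => exact e2

end GDC1

theorem rowDC1 : OfDC1 := by
  intro UN NU FA n α ψ O Z p γ hL hc hp
  refine mem_TI.2 ((hc.ev.and (hL.oO.mem_nhds hp)).mono fun x a c t => ?_)
  have hx := a.1 c
  by_contra hA
  obtain ⟨N, hN, oN, zN⟩ := eventually_nhds_iff.1 ((ev_ne hA).and
    ((continuous_snd.tendsto (t, x)).eventually (hx.ev.and (hL.oO.mem_nhds a.2))))
  by_cases h : ∃ j, ∃ y ∈ N, y.2.2 = γ.1 y.2.1 ∧ ((DS.d 2)^[j] (DS.det ψ)).1 y ≠ 0
  · classical
    obtain ⟨y, b, d, e⟩ := Nat.find_spec h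
    have k := (hN y b).2.1 d
    refine NU n α ψ O Z y.2 γ hL k.1 (hN y b).2.2 k.nm y.1
      (UN n ψ γ y (Nat.find h) d (hN y b).1 (fun i hi => ?_) e)
    exact mem_VI.2 (mem_of_superset (oN.mem_nhds b) fun y' b' d' =>
      by_contra fun e' => Nat.find_min h hi ⟨y', b', d', e'⟩)
  · obtain ⟨O', hO, oO, xO⟩ := eventually_nhds_iff.1 (hx.1.2.and (hL.oO.mem_nhds a.2))
    have cl : closure (O' ∩ {x : PP | x.2 < γ.1 x.1}) ⊆ {x : PP | x.2 ≤ γ.1 x.1} :=
      closure_minimal (fun y b => show y.2 ≤ γ.1 y.1 from le_of_lt b.2)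
        (isClosed_le continuous_snd (γ.ct.comp continuous_fst))
    refine FA n α ψ O Z (O' ∩ {x : PP | x.2 < γ.1 x.1}) (t, x) (1, deriv γ.1 x.1) hL
      (oO.inter (isOpen_below γ)) (fun y b => (hO y b.1).2) (fun y b => (hO y b.1).1 b.2)
      (mem_closure_iff_frequently.2 (((freq_below c.le).and_eventually (oO.mem_nhds xO)).mono
        fun _ b => ⟨b.2, b.1⟩))
      ((freq_above c.ge).mono fun _ b e => b.not_ge (cl e)) ((BB_AA ψ γ (t, x)).trans_ne hA) ?_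
    filter_upwards [oN.mem_nhds zN, (continuous_snd.tendsto (t, x)).eventually (oO.mem_nhds xO)]
      with y b d e k
    exact GDC1.flat oN (fun i y' b' d' => by_contra fun e' => h ⟨i, y', b', d', e'⟩) b
      ((cl e).eq_of_not_lt fun m => k ⟨d, m⟩)

end Pool.Agent.MP_ed9623_an.S64
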