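import Pool.Agent.MP_ed9623_an.S64.SpecG

/-! A smooth boundary of the zone is not doubly characteristic. -/

open Filter Topology Set
open scoped ContDiff

namespace Pool.Agent.MP_ed9623_an.S64

open H64

namespace GDC2

variable {n : ℝ} {α ψ : S3} {O Z : Set PP} {p : PP} {γ : SA ℝ} {z : ST} {f a : S3}

theorem cancel (h : a * f ∈ VI γ z) (ha : a.1 z ≠ 0) : f ∈ VI γ z :=
  mem_VI.2 (((mem_VI.1 h).and (ev_ne ha)).mono fun y b c =>
    (mul_eq_zero.1 (show a.1 y * f.1 y = 0 from b.1 c)).resolve_left b.2)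

theorem d2A (ψ : S3) (γ : SA ℝ) : DS.d 2 (DS.AA ψ (gg γ))
    = DS.XX (gg γ) (DS.QQ ψ (gg γ)) - gg (D 1 γ) * DS.d 2 (DS.d 2 ψ) := by
  rw [X_Q]
  simp only [DR.AA, map_add, DS.mul, DS.d_sq, DS.d_ofNat, d2_gg, DS.c21]
  ring

/-- The straight case. -/
theorem straight (zw : ZWS) (h : Loc n α ψ O Z) (hl : Low Z p γ) (hp : p ∈ O)
    (hA : DS.AA ψ (gg γ) ∈ TI γ p) (hQ : DS.QQ ψ (gg γ) ∈ TI γ p)
    (hg : ∀ᶠ s in 𝓝 p.1, deriv (D 1 γ).1 s = 0) : False := by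
  obtain ⟨r, r0, hr⟩ := Metric.eventually_nhds_iff_ball.1 hg
  have hc : ∀ᶠ s in 𝓝 p.1, deriv γ.1 s = deriv γ.1 p.1 :=
    mem_of_superset (Metric.ball_mem_nhds p.1 r0) fun s hs =>
      Metric.isOpen_ball.is_const_of_deriv_eq_zero (f := (D 1 γ).1) (convex_ball _ _).isPreconnected
        (fun x _ => (hd_one (D 1 γ) x).differentiableAt.differentiableWithinAt)
        (fun x hx => hr x hx) hs (Metric.mem_ball_self r0)
  have tz : Tendsto (fun y : ST => y.2.1) (𝓝 ((0 : ℝ), p)) (𝓝 p.1) :=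
    (continuous_fst.comp continuous_snd).tendsto _
  set c := deriv γ.1 p.1
  have h1 : DS.BB ψ (1, c) (1, c) - DS.AA ψ (gg γ) ∈ NI ((0 : ℝ), p) :=
    (tz.eventually hc).mono fun y hy => by
      show (DS.BB ψ (1, c) (1, c)).1 y - _ = 0
      rw [← hy, BB_AA, sub_self]
  have h2 : gg (D 1 γ) ∈ NI ((0 : ℝ), p) := (tz.eventually hg).mono fun y hy => hy
  refine zw n α ψ O Z p γ (1, c) 0 h hl hp (fun e => one_ne_zero (congrArg Prod.fst e)) ?_ ?_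
  · simpa using add_mem (NI_VI h1) (TI_VI hA 0)
  · have := add_mem (NI_VI (γ := γ) (NI_d h1 2))
      (sub_mem (TI_VI (TI_X hQ) 0) (Ideal.mul_mem_right (DS.d 2 (DS.d 2 ψ)) _ (NI_VI h2)))
    rw [← d2A, map_sub] at this
    simpa using this

/-- The curved case at a point where the second normal derivative does not vanish. -/
theorem curved (uk : UKsS) (nu : NoUS) (h : Loc n α ψ O Z) (hc : Crv Z p γ) (hp : p ∈ O)
    (hA : DS.AA ψ (gg γ) ∈ TI γ p) (hQ : DS.QQ ψ (gg γ) ∈ TI γ p)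
    (hg : deriv (D 1 γ).1 p.1 ≠ 0) {t : ℝ} (hE : (DS.d 2 (DS.d 2 ψ)).1 (t, p) ≠ 0) : False := by
  refine nu n α ψ O Z p γ h hc.1 hp hc.nm t (uk n ψ γ (t, p) hc.1.1 hE (TI_VI hQ t) ?_ ?_)
  · rw [DS.det_frame ψ (gg γ), sq]
    exact sub_mem (Ideal.mul_mem_right _ _ (TI_VI hA t)) (Ideal.mul_mem_right _ _ (TI_VI hQ t))
  · rw [DS.det_frame ψ (gg γ), map_sub, DS.mul, DS.d_sq, d2A]
    have e : (gg (D 1 γ)).1 (t, p) = deriv (D 1 γ).1 p.1 := rfl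
    simp [TI_val hA hc.1.1 t, TI_val hQ hc.1.1 t, TI_val (TI_X hQ) hc.1.1 t, e, hE, hg]

/-- The curved case when the whole Hessian vanishes along the curve. -/
theorem flat (zw : ZWS) (h : Loc n α ψ O Z) (hl : Low Z p γ) (hp : p ∈ O)
    (hA : DS.AA ψ (gg γ) ∈ TI γ p) (hQ : DS.QQ ψ (gg γ) ∈ TI γ p)
    (hg : deriv (D 1 γ).1 p.1 ≠ 0) (hE : DS.d 2 (DS.d 2 ψ) ∈ TI γ p) : False := by
  set g := gg γ with hgd
  have m : ∀ (a : S3) {f : S3}, f ∈ TI γ p → a * f ∈ TI γ p := fun a _ k => Ideal.mul_mem_left _ a k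
  have h12 : DS.d 1 (DS.d 2 ψ) ∈ TI γ p := by
    have := sub_mem hQ (m g hE)
    simpa [DR.QQ] using this
  have h11 : DS.d 1 (DS.d 1 ψ) ∈ TI γ p := by
    have := sub_mem (sub_mem hA (m (g ^ 2) hE)) (m (2 * g) h12)
    simpa [DR.AA] using this
  have tE := TI_X hE
  have t12 := TI_X h12
  have t11 := TI_X h11
  have e1 := LI_TI (h.ht_li hl hp (j := 1) (by decide))
  have e2 := LI_TI (h.ht_li hl hp (j := 2) (by decide))
  have hP : DS.d 0 (DS.XX g ψ) ∈ TI γ p := by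
    have := add_mem (add_mem (add_mem e1 (m g e2)) t11) tE
    convert this using 1
    simp only [DR.XX, DR.ht, DR.lap, map_add, DS.mul, hgd, d0_gg, DS.c21]
    ring
  have hh : gg (D 1 γ) * DS.d 0 (DS.d 2 ψ) ∈ TI γ p := by
    have := sub_mem (TI_X hP) (TI_d0 hA)
    rw [← d0_X (d0_gg γ), X_X, map_add, DS.mul, d0_gg] at this
    simpa [hgd] using this
  have hh' : DS.d 0 (DS.d 2 ψ) ∈ VI γ (0, p) := cancel (TI_VI hh 0) hg
  have hw : (1 + g ^ 2) * DS.d 2 (DS.d 2 (DS.d 2 ψ)) ∈ VI γ (0, p) := by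
    have := add_mem (sub_mem (sub_mem hh' (TI_VI e2 0)) (TI_VI t12 0)) (TI_VI (m g tE) 0)
    convert this using 1
    simp only [DR.XX, DR.ht, DR.lap, hgd, DS.c21]
    ring
  have hw' := cancel hw (by simp only [val_add, val_one, val_pow]; positivity)
  have eB : DS.BB ψ (0, 1) (0, 1) = DS.d 2 (DS.d 2 ψ) := by simp [DR.BB]
  refine zw n α ψ O Z p γ (0, 1) 0 h hl hp (fun e => one_ne_zero (congrArg Prod.snd e)) ?_ ?_
  · rw [eB]; exact TI_VI hE 0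
  · rw [eB]; exact hw'

end GDC2

open GDC2

theorem rowDC2 : OfDC2 := by
  intro uk nu zw n α ψ O Z p γ h hc hp hA hQ
  have ev : ∀ {q : PP}, Crv Z q γ → q ∈ O → DS.AA ψ (gg γ) ∈ TI γ q → DS.QQ ψ (gg γ) ∈ TI γ q →
      ∀ᶠ x in 𝓝 q, (x.2 = γ.1 x.1 → Crv Z x γ) ∧ x ∈ O ∧ DS.AA ψ (gg γ) ∈ TI γ x
        ∧ DS.QQ ψ (gg γ) ∈ TI γ x := fun a b c d =>
    a.ev.and (Eventually.and (h.oO.mem_nhds b) ((TI_ev c).and (TI_ev d)))
  by_cases hg : ∀ᶠ s in 𝓝 p.1, deriv (D 1 γ).1 s = 0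
  · exact straight zw h hc.1 hp hA hQ hg
  obtain ⟨s, hs, k1, k2, k3, k4⟩ := ((not_eventually.1 hg).and_eventually
    ((tend_curve γ hc.1.1).eventually (ev hc hp hA hQ))).exists
  by_cases hE : DS.d 2 (DS.d 2 ψ) ∈ TI γ (s, γ.1 s)
  · exact flat zw h (k1 rfl).1 k2 k3 k4 hs hE
  have hn : ∀ᶠ x : PP in 𝓝 (s, γ.1 s), deriv (D 1 γ).1 x.1 ≠ 0 :=
    (continuous_fst.tendsto ((s, γ.1 s) : PP)).eventually (ev_ne (f := D 1 (D 1 γ)) (z := s) hs)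
  obtain ⟨x, hx, hx', l1, l2, l3, l4⟩ := ((not_eventually.1 (mt mem_TI.2 hE)).and_eventually
    (hn.and (ev (k1 rfl) k2 k3 k4))).exists
  push Not at hx
  obtain ⟨c, t, ht⟩ := hx
  exact curved uk nu h (l1 c) l2 l3 l4 hx' ht

end Pool.Agent.MP_ed9623_an.S64
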