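import Pool.Agent.MP_ed9623_an.S64.SpecG

/-! Monotonicity along the line. -/

open Filter Topology Set

namespace Pool.Agent.MP_ed9623_an.S64

namespace GLine

theorem aux (N0 N1 N2 N3 : ℝ → ℝ) (J G : Set ℝ) (s₀ : ℝ) (hJ : BddAbove J)
    (h0 : s₀ ∈ G) (hGJ : G ⊆ J) (hG : IsOpen G) (hn : ∀ s, 0 ≤ N0 s)
    (hd : ∀ s ∈ J, HasDerivAt N0 (2 * N1 s) s ∧ HasDerivAt N2 (2 * N3 s) s ∧ ContinuousAt N1 s)
    (hr : ∀ s ∈ G, 0 < N2 s ∧ 3 * N3 s * N1 s = 4 * N2 s ^ 2)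
    (hs : ∀ s ∈ J, G ∈ 𝓝[<] s → 0 < N0 s → 0 < N2 s → s ∈ G)
    (hl : ∀ s, s ∉ J → Tendsto N0 (𝓝[G] s) (𝓝 0)) (hp : 0 < N1 s₀) : False := by
  set S : Set ℝ := {s | s₀ ≤ s ∧ Icc s₀ s ⊆ G} with hS
  have hb : BddAbove S := hJ.mono fun s a => hGJ (a.2 ⟨a.1, le_rfl⟩)
  have m0 : s₀ ∈ S := ⟨le_rfl, by rw [Icc_self]; exact singleton_subset_iff.2 h0⟩
  set b := sSup S with hbd
  have hI : Ico s₀ b ⊆ G := fun x hx => by
    obtain ⟨y, hy, hxy⟩ := exists_lt_of_lt_csSup ⟨s₀, m0⟩ hx.2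
    exact hy.2 ⟨hx.1, hxy.le⟩
  have h0b : s₀ ≤ b := le_csSup hb m0
  have hbG : b ∉ G := fun a => by
    obtain ⟨e, he, hs⟩ := Metric.isOpen_iff.1 hG b a
    have : b + e / 2 ∈ S := ⟨by linarith, fun x hx => by
      rcases lt_or_ge x b with c | c
      · exact hI ⟨hx.1, c⟩
      · refine hs ?_
        rw [Metric.mem_ball, Real.dist_eq, abs_lt]
        constructor <;> linarith [hx.2]⟩
    linarith [le_csSup hb this]
  have hlt : s₀ < b := lt_of_le_of_ne h0b fun e => hbG (e ▸ h0)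
  have hne : ∀ s ∈ G, N1 s ≠ 0 := fun s a e => by
    have := (hr s a).2
    rw [e] at this
    nlinarith [(hr s a).1]
  have h1 : ∀ s ∈ Ico s₀ b, 0 < N1 s := fun s a => by
    by_contra! c
    have hsub : Icc s₀ s ⊆ G := fun x hx => hI ⟨hx.1, hx.2.trans_lt a.2⟩
    obtain ⟨x, hx, e⟩ := intermediate_value_Icc' a.1
      (fun x hx => (hd x (hGJ (hsub hx))).2.2.continuousWithinAt : ContinuousOn N1 (Icc s₀ s))
      (⟨c, hp.le⟩ : (0 : ℝ) ∈ Icc (N1 s) (N1 s₀))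
    exact hne x (hsub hx) e
  have h3 : ∀ s ∈ Ico s₀ b, 0 < N3 s := fun s a => by
    have e := hr s (hI a)
    have := h1 s a
    by_contra! c
    nlinarith [e.1, e.2, mul_nonneg (neg_nonneg.2 c) this.le, sq_pos_of_pos e.1]
  have mono : ∀ (f g : ℝ → ℝ), (∀ s ∈ Ico s₀ b, HasDerivAt f (2 * g s) s ∧ 0 < g s) →
      StrictMonoOn f (Ico s₀ b) := fun f g h =>
    strictMonoOn_of_deriv_pos (convex_Ico _ _)
      (fun x hx => (h x hx).1.continuousAt.continuousWithinAt) fun x hx => by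
        have hx' := interior_subset hx
        rw [(h x hx').1.deriv]
        linarith [(h x hx').2]
  have m1 := mono N0 N1 fun s a => ⟨(hd s (hGJ (hI a))).1, h1 s a⟩
  have m2 := mono N2 N3 fun s a => ⟨(hd s (hGJ (hI a))).2.1, h3 s a⟩
  obtain ⟨m, hm1, hm2⟩ := exists_between hlt
  have hm : m ∈ Ico s₀ b := ⟨hm1.le, hm2⟩
  have p0 : 0 < N0 m := (hn s₀).trans_lt (m1 ⟨le_rfl, hlt⟩ hm hm1)
  have p2 : 0 < N2 m := (hr m (hI hm)).1
  have ev : Ioo m b ∈ 𝓝[<] b := Ioo_mem_nhdsLT hm2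
  have sub : ∀ x ∈ Ioo m b, x ∈ Ico s₀ b := fun x hx => ⟨hm1.le.trans hx.1.le, hx.2⟩
  have hGb : G ∈ 𝓝[<] b := mem_of_superset ev fun x hx => hI (sub x hx)
  have e0 : ∀ᶠ x in 𝓝[<] b, N0 m ≤ N0 x :=
    mem_of_superset ev fun x hx => (m1 hm (sub x hx) hx.1).le
  have e2 : ∀ᶠ x in 𝓝[<] b, N2 m ≤ N2 x :=
    mem_of_superset ev fun x hx => (m2 hm (sub x hx) hx.1).le
  by_cases c : b ∈ J
  · exact hbG (hs b c hGb
      (p0.trans_le (ge_of_tendsto ((hd b c).1.continuousAt.tendsto.mono_left nhdsWithin_le_nhds) e0))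
      (p2.trans_le
        (ge_of_tendsto ((hd b c).2.1.continuousAt.tendsto.mono_left nhdsWithin_le_nhds) e2)))
  · exact p0.not_ge (ge_of_tendsto ((hl b c).mono_left
      (le_inf nhdsWithin_le_nhds (le_principal_iff.2 hGb))) e0)

end GLine

theorem rowLine : OfLine := by
  intro N0 N1 N2 N3 J G s₀ hJ h0 hGJ hG hn hd hr hs hl
  have hne : N1 s₀ ≠ 0 := fun e => by
    have := (hr s₀ h0).2
    rw [e] at this
    nlinarith [(hr s₀ h0).1]
  rcases lt_or_gt_of_ne hne with c | c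
  · refine GLine.aux (fun s => N0 (-s)) (fun s => -N1 (-s)) (fun s => N2 (-s)) (fun s => -N3 (-s))
      (Neg.neg ⁻¹' J) (Neg.neg ⁻¹' G) (-s₀) ?_ (by simpa using h0) (preimage_mono hGJ)
      (hG.preimage continuous_neg) (fun s => hn _) (fun s a => ⟨?_, ?_, ?_⟩) (fun s a => ?_)
      (fun s a b => hs (-s) a (Or.inr ?_)) (fun s a => ?_) (by simpa using c)
    · obtain ⟨r, hr⟩ := hJ.bddBelow
      exact ⟨-r, fun x hx => by linarith [hr hx]⟩
    · exact ((hd (-s) a).1.comp s (hasDerivAt_neg s)).congr_deriv (by ring)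
    · exact ((hd (-s) a).2.1.comp s (hasDerivAt_neg s)).congr_deriv (by ring)
    · exact ((hd (-s) a).2.2.comp continuous_neg.continuousAt).neg
    · exact ⟨(hr (-s) a).1, by linear_combination (hr (-s) a).2⟩
    · have t : Tendsto (Neg.neg : ℝ → ℝ) (𝓝[>] (-s)) (𝓝[<] s) := by
        simpa using tendsto_neg_nhdsGT (a := -s)
      exact mem_of_superset (t b) fun x hx => by simpa using hx
    · exact (hl (-s) a).comp (tendsto_nhdsWithin_iff.2
        ⟨(continuous_neg.tendsto s).mono_left nhdsWithin_le_nhds, self_mem_nhdsWithin⟩)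
  · exact GLine.aux N0 N1 N2 N3 J G s₀ hJ.bddAbove h0 hGJ hG hn hd hr
      (fun s a b => hs s a (Or.inl b)) hl c

end Pool.Agent.MP_ed9623_an.S64
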