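import Pool.Agent.MP_ed9623_an.S64.SpecG

/-! There is a nondegenerate touching point. -/

open Filter Topology Set

namespace Pool.Agent.MP_ed9623_an.S64

open H64

namespace GND

theorem BB_eq (ψ : S3) : DS.BB ψ (0, 1) (0, 1) = DS.d 2 (DS.d 2 ψ) := by simp [DR.BB]

theorem ht_d2 (f : S3) : DS.ht (DS.d 2 f) = DS.d 2 (DS.ht f) := by
  simp only [DR.ht, DR.lap, map_add, map_sub, DS.c20, DS.c21]

end GND

open GND in
theorem rowND : OfND := by
  intro hD hN hF hE n α ψ O Z x h xO xc xZ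
  by_contra H
  have hdet : ∀ q ∈ O, q ∈ closure Z → q ∉ Z → ∀ t, (DS.det ψ).1 (t, q) = 0 := fun q a b c t => by
    by_contra ne
    obtain ⟨p, hp, Φ, hΦ⟩ := hD Z _ q h.oZ b c
      ((((Continuous.prodMk_right t).tendsto q).eventually (ev_ne ne)).and (h.oO.mem_nhds a))
    exact H ⟨p, hp.2, Φ, t, hΦ, hp.1⟩
  have flat : ∀ f : S3, (∀ q ∈ O, q ∈ closure Z → q ∉ Z → ∀ t, f.1 (t, q) = 0) →
      ∀ q ∈ O, q ∈ closure Z → q ∉ Z → ∀ t, f ∈ FL (t, q) := fun f hf q a b c t l => by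
    refine DS.w_mem (S := {f : S3 | ∀ q ∈ O, q ∈ closure Z → q ∉ Z → ∀ t, f.1 (t, q) = 0})
      (fun i f hf q a b c t => ?_) l f hf q a b c t
    have k := hN n α ψ O Z (sl t f) h (fun y a b c => ⟨hf y a b c t, hdet y a b c⟩) q a b c
    rw [sl_d1, sl_d2] at k
    fin_cases i
    · exact (hd_time f t q).unique ((hasDerivAt_const t (0 : ℝ)).congr_of_eventuallyEq
        (Eventually.of_forall fun s => hf q a b c s))
    · exact k.1
    · exact k.2
  have freq : ∀ q ∈ O, q ∉ Z → ∃ᶠ y in 𝓝 q, y ∉ closure Z := fun q a c k =>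
    c (h.mem a (k.mono fun _ => not_not.1))
  by_cases hB : ∀ q ∈ O, q ∈ closure Z → q ∉ Z → ∀ t, (DS.BB ψ (0, 1) (0, 1)).1 (t, q) = 0
  · obtain ⟨r, hr, hb⟩ := Metric.isOpen_iff.1 h.oO x xO
    have bn := Metric.ball_mem_nhds x hr
    have key := hE Z (Metric.ball x r) univ (DS.BB ψ (0, 1) (0, 1)) 0 0 h.oZ Metric.isOpen_ball
      (convex_ball x r).isPreconnected isOpen_univ (fun z _ a b => by
        have e : (DS.ht (DS.BB ψ (0, 1) (0, 1))).1 z = 0 := by
          rw [BB_eq, ht_d2]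
          exact FL_val (FL_d (h.ht_fl (by decide) (hb a) (subset_closure b)) 2)
        have e0 : DS.ht (0 : S3) = 0 := by simp [DR.ht, DR.lap]
        rw [zero_mul, val_add, val_pow, e, e0]
        simp)
      (fun z _ a b c l _ => ⟨flat _ hB z.2 (hb a) b c z.1 l, by rw [DS.w_zero]; rfl⟩)
      (((freq x xO xZ).and_eventually bn).exists.imp fun _ k => ⟨k.2, k.1⟩)
    obtain ⟨y, yZ, yb⟩ := ((mem_closure_iff_frequently.1 xc).and_eventually bn).exists
    exact h.wall (0, 1) (by simp) (0, y) (hb yb) yZ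
      (((continuous_snd.tendsto ((0, y) : ST)).eventually
        ((Metric.isOpen_ball.inter h.oZ).mem_nhds ⟨yb, yZ⟩)).mono fun z k =>
          (key z trivial k.1 k.2).1)
  · push Not at hB
    obtain ⟨q, a, b, c, t, ne⟩ := hB
    exact hF n α ψ O Z (O ∩ Z) (t, q) (0, 1) h (h.oO.inter h.oZ) inter_subset_left
      inter_subset_right (h.oO.inter_closure ⟨a, b⟩)
      ((freq q a c).mono fun _ k m => k (closure_mono inter_subset_right m)) ne
      (((continuous_snd.tendsto ((t, q) : ST)).eventually (h.oO.mem_nhds a)).mono fun y k m e =>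
        flat _ hdet y.2 k (closure_mono inter_subset_right m) (fun s => e ⟨k, s⟩) y.1)

end Pool.Agent.MP_ed9623_an.S64
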