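import Pool.Agent.MP_ed9623_an.S64.SpecG

/-! Integral curves of a smooth slope field. -/

open Filter Topology Set
open scoped ContDiff

namespace Pool.Agent.MP_ed9623_an.S64

open H64

namespace GOde

theorem smooth {F : PP → PP} (hF : ContDiff ℝ ∞ F) {α : ℝ → PP} {U : Set ℝ} (hU : IsOpen U)
    (h : ∀ t ∈ U, HasDerivAt α (F (α t)) t) : ContDiffOn ℝ ∞ α U := by
  have hd : DifferentiableOn ℝ α U := fun t ht => (h t ht).differentiableAt.differentiableWithinAt
  refine contDiffOn_infty.2 fun n => ?_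
  induction n with
  | zero => exact contDiffOn_zero.2 hd.continuousOn
  | succ n ih =>
    rw [Nat.cast_succ, contDiffOn_succ_iff_deriv_of_isOpen hU]
    exact ⟨hd, by simp, ((hF.of_le (by exact_mod_cast le_top)).comp_contDiffOn ih).congr
      fun t ht => (h t ht).deriv⟩

end GOde

theorem rowOde : OfOde := by
  intro σ p
  have hF : ContDiff ℝ ∞ fun x : PP => ((1 : ℝ), σ.1 x) := contDiff_const.prodMk σ.sm
  obtain ⟨α, h0, ε, hε, h⟩ :=
    ContDiffAt.exists_forall_mem_closedBall_exists_eq_forall_mem_Ioo_hasDerivAt₀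
      (hF.of_le (by exact_mod_cast le_top)).contDiffAt (x₀ := p) p.1
  have d1 : ∀ s ∈ Ioo (p.1 - ε) (p.1 + ε), HasDerivAt (fun s => (α s).1) 1 s := fun s hs =>
    (ContinuousLinearMap.fst ℝ ℝ ℝ).hasFDerivAt.comp_hasDerivAt s (h s hs)
  have d2 : ∀ s ∈ Ioo (p.1 - ε) (p.1 + ε), HasDerivAt (fun s => (α s).2) (σ.1 (α s)) s :=
    fun s hs => (ContinuousLinearMap.snd ℝ ℝ ℝ).hasFDerivAt.comp_hasDerivAt s (h s hs)
  have hp : p.1 ∈ Ioo (p.1 - ε) (p.1 + ε) := ⟨by linarith, by linarith⟩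
  have hU : ∀ᶠ s in 𝓝 p.1, s ∈ Ioo (p.1 - ε) (p.1 + ε) := isOpen_Ioo.mem_nhds hp
  have h1 : ∀ t ∈ Ioo (p.1 - ε) (p.1 + ε), (α t).1 = t := fun t ht => by
    have e : ∀ s ∈ Ioo (p.1 - ε) (p.1 + ε), HasDerivAt (fun s => (α s).1 - s) 0 s := fun s hs => by
      simpa using (d1 s hs).fun_sub (hasDerivAt_id' s)
    have := isOpen_Ioo.is_const_of_deriv_eq_zero isPreconnected_Ioo
      (fun s hs => (e s hs).differentiableAt.differentiableWithinAt) (fun s hs => (e s hs).deriv)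
      ht hp
    rw [h0] at this
    linarith
  obtain ⟨γ, hγ⟩ := glob (f := fun s => (α s).2) (z := p.1) (hU.mono fun s hs =>
    ((GOde.smooth hF isOpen_Ioo h).contDiffAt (isOpen_Ioo.mem_nhds hs)).snd)
  refine ⟨γ, (congrArg Prod.snd h0).symm.trans hγ.self_of_nhds.symm, ?_⟩
  filter_upwards [hU, hγ.eventuallyEq_nhds] with s hs e
  rw [e.deriv_eq, e.self_of_nhds, (d2 s hs).deriv]
  exact congrArg σ.1 (Prod.ext (h1 s hs) rfl)

end Pool.Agent.MP_ed9623_an.S64
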