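import Pool.Agent.MP_ed9623_an.S64.SpecG

/-! The amplitude of a sinusoid. -/

namespace Pool.Agent.MP_ed9623_an.S64

open H64 Real

theorem rowQtr : OfQtr := by
  intro n f x hn hf
  have hν := sqrt_pos.2 hn
  have h2 := sq_sqrt hn.le
  have h : ∀ t, HasDerivAt (fun s => f.1 (s, x) * (√n * sin (√n * s)) +
      (DS.d 0 f).1 (s, x) * cos (√n * s)) 0 t := fun t => by
    have a := hf t
    have b : HasDerivAt (fun s => √n * s) √n t := by simpa using (hasDerivAt_id t).const_mul √n
    refine (((hd_time f t x).mul (b.sin.const_mul √n)).add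
      ((hd_time (DS.d 0 f) t x).mul b.cos)).congr_deriv ?_
    simp only [Sn, val_add, val_smul] at a
    linear_combination cos (√n * t) * a + f.1 (t, x) * cos (√n * t) * h2
  have e := is_const_of_deriv_eq_zero (fun t => (h t).differentiableAt) (fun t => (h t).deriv) 0
    (π / (2 * √n))
  rw [show √n * (π / (2 * √n)) = π / 2 by field_simp] at e
  simp only [mul_zero, cos_zero, sin_pi_div_two, cos_pi_div_two, mul_one, zero_add,
    add_zero, Real.sin_zero] at e
  rw [ip_val, e]
  linear_combination f.1 (π / (2 * √n), x) ^ 2 * h2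

end Pool.Agent.MP_ed9623_an.S64
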