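import Pool.Agent.MP_ed9623_an.S64.SpecG

open Filter Topology Set

namespace Pool.Agent.MP_ed9623_an.S64

open H64

theorem rowRotC2 : OfRotC := by
  intro hL n Ω Z f p τ hτ h
  let f' : Fin 3 → ST → ℝ := ![0,
    fun z => τ.1 * f 1 (z.1, mv p τ z.2) + τ.2 * f 2 (z.1, mv p τ z.2),
    fun z => τ.1 * f 2 (z.1, mv p τ z.2) - τ.2 * f 1 (z.1, mv p τ z.2)]
  have k : ∀ O α ψ, Cht n Ω Z f O α ψ →
      Cht n (mv p τ ⁻¹' Ω) (mv p τ ⁻¹' Z) f' (mv p τ ⁻¹' O) (cm p τ α) (cm p τ ψ) :=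
    fun O α ψ c => ⟨hL n α ψ O Z p τ hτ c.loc, preimage_mono c.sub, fun j hj z hz => by
      have e1 := c.eq 1 (by decide) (z.1, mv p τ z.2) hz
      have e2 := c.eq 2 (by decide) (z.1, mv p τ z.2) hz
      fin_cases j
      · exact absurd rfl hj
      · change (DS.d 1 _).1 z = _ + _
        rw [d1_cm, cm_val, val_add, val_smul, val_smul, e1, e2]
      · change (DS.d 2 _).1 z = _ - _
        rw [d2_cm, cm_val, val_sub, val_smul, val_smul, e1, e2]⟩
  have ct := (sm_mv p τ).continuous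
  refine ⟨f', ⟨h.o.preimage ct, ?_, fun x hx => ?_, fun j hj t x hx => ?_⟩, k⟩
  · exact ((mvH p τ hτ).isCompact_preimage.2 h.b.isCompact_closure).isBounded.subset
      (preimage_mono subset_closure)
  · obtain ⟨O, α, ψ, a, b⟩ := h.ch _ hx
    exact ⟨_, _, _, a, k O α ψ b⟩
  · have m : Tendsto (mv p τ) (𝓝[mv p τ ⁻¹' Ω] x) (𝓝[Ω] mv p τ x) :=
      ct.continuousWithinAt.tendsto_nhdsWithin (mapsTo_preimage _ _)
    have e1 := (h.bd 1 (by decide) t _ hx).comp m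
    have e2 := (h.bd 2 (by decide) t _ hx).comp m
    fin_cases j
    · exact absurd rfl hj
    · simpa [f'] using (e1.const_mul τ.1).add (e2.const_mul τ.2)
    · simpa [f'] using (e2.const_mul τ.1).sub (e1.const_mul τ.2)

end Pool.Agent.MP_ed9623_an.S64
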