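import Pool.Agent.MP_ed9623_an.S64.SpecG

/-! A touching curve can be rotated to have a horizontal tangent. -/

open Filter Topology Set

namespace Pool.Agent.MP_ed9623_an.S64

open H64

theorem rowRotT : OfRotT := by
  intro Z p Φ h
  obtain ⟨a, ha⟩ : ∃ a, a = (d1 Φ).1 p := ⟨_, rfl⟩
  obtain ⟨b, hb⟩ : ∃ b, b = (d2 Φ).1 p := ⟨_, rfl⟩
  have h0 : 0 < a ^ 2 + b ^ 2 := by
    rcases h.2.1 with c | c
    · rw [← ha] at c
      positivity
    · rw [← hb] at c
      positivity
  have r0 := Real.sqrt_pos.2 h0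
  have r2 := Real.sq_sqrt h0.le
  generalize √(a ^ 2 + b ^ 2) = r at r0 r2
  have e : (d2 (cp p (-b / r, a / r) Φ)).1 0 < 0 := by
    rw [d2_cp, cp_val, mv_zero, val_sub, val_smul, val_smul, ← ha, ← hb]
    have : -b / r * b - a / r * a = -((a ^ 2 + b ^ 2) / r) := by ring
    exact this ▸ neg_lt_zero.2 (div_pos h0 r0)
  refine ⟨(-b / r, a / r), ?_, ⟨?_, .inr e.ne, ?_⟩, ?_, e⟩
  · field_simp
    linarith
  · rw [mem_preimage, mv_zero]
    exact h.1
  · have t := (sm_mv p (-b / r, a / r)).continuous.tendsto 0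
    rw [mv_zero] at t
    simpa only [cp_val, mv_zero, mem_preimage] using t.eventually h.2.2
  · rw [d1_cp, cp_val, mv_zero, val_add, val_smul, val_smul, ← ha, ← hb]
    ring

end Pool.Agent.MP_ed9623_an.S64
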