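import Pool.Agent.MP_ed9623_an.S64.SpecG

/-! Sweeping below the integral curve. -/

open Filter Topology Set
open scoped ContDiff

namespace Pool.Agent.MP_ed9623_an.S64

open H64

namespace GSWa

theorem d1_eq (F : SA PP) {q : PP} {a : ℝ} (h : HasDerivAt (fun s => F.1 (s, q.2)) a q.1) :
    (d1 F).1 q = a :=
  (hd_comp F ((hasDerivAt_id q.1).prodMk (hasDerivAt_const _ q.2))).unique h

theorem d2_eq (F : SA PP) {q : PP} {a : ℝ} (h : HasDerivAt (fun s => F.1 (q.1, s)) a q.2) :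
    (d2 F).1 q = a :=
  (hd_comp F ((hasDerivAt_const _ q.1).prodMk (hasDerivAt_id q.2))).unique h

/-- A cone below the point lies above the level of `Φ`. -/
theorem cone {Φ : SA PP} {p : PP} (h1 : (d1 Φ).1 p = 0) (h2 : (d2 Φ).1 p < 0) {M : ℝ} (hM : 1 ≤ M) :
    ∀ᶠ x in 𝓝 p, |x.1 - p.1| < M * (p.2 - x.2) → Φ.1 p < Φ.1 x := by
  have a := (hasFDerivAt_iff_isLittleO.1 (cdg_diff (Φ.cd 1) le_rfl p).hasFDerivAt).def
    (show 0 < -(d2 Φ).1 p / (2 * M) from div_pos (neg_pos.2 h2) (by linarith))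
  refine a.mono fun x b c => ?_
  have e : fderiv ℝ Φ.1 p (x - p) = (x.2 - p.2) * (d2 Φ).1 p := by
    have := D_dir2 (x - p) Φ p
    rwa [h1, mul_zero, zero_add] at this
  have w : 0 < p.2 - x.2 := pos_of_mul_pos_right ((abs_nonneg _).trans_lt c) (by linarith)
  have n : ‖x - p‖ ≤ M * (p.2 - x.2) := by
    rw [Prod.norm_def]
    refine max_le c.le ?_
    rw [Prod.snd_sub, Real.norm_eq_abs, abs_sub_comm, abs_of_pos w]
    nlinarith
  have k : -(d2 Φ).1 p / (2 * M) * ‖x - p‖ ≤ -(d2 Φ).1 p / 2 * (p.2 - x.2) := by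
    refine (mul_le_mul_of_nonneg_left n (div_pos (neg_pos.2 h2) (by linarith)).le).trans_eq ?_
    field_simp
  rw [e, Real.norm_eq_abs] at b
  have := (abs_le.1 (b.trans k)).1
  nlinarith [mul_pos w (neg_pos.2 h2)]

/-- The final inequality. -/
theorem fin {e g σ ζ h κ L : ℝ} (he : |e| = 1) (hh : 0 < h) (hζ : 0 < ζ) (hκ : 0 < κ)
    (h1 : |g - σ| ≤ L * h) (h2 : |σ| ≤ 1 / (4 * κ)) (h3 : L * ζ ≤ 1 / 2) :
    g * ζ - e * h ≠ σ * (ζ + κ * h) := fun k => by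
  have a : |e * h| ≤ |(g - σ) * ζ| + |σ * (κ * h)| := by
    rw [show e * h = (g - σ) * ζ - σ * (κ * h) by linear_combination -k]
    exact abs_sub _ _
  rw [abs_mul, abs_mul, abs_mul, he, abs_of_pos hh, abs_of_pos hζ, abs_of_pos (mul_pos hκ hh)] at a
  have b := mul_le_mul_of_nonneg_right h1 hζ.le
  have c := mul_le_mul_of_nonneg_right h2 (mul_pos hκ hh).le
  rw [show 1 / (4 * κ) * (κ * h) = h / 4 by field_simp] at c
  nlinarith [mul_le_mul_of_nonneg_right h3 hh.le]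

end GSWa

open GSWa in
theorem rowSWa : OfSWa := by
  intro Z p σ Φ γ g₀ hZ hT h1 h2 hσ hg hN hp hγ
  refine ⟨hp, ?_⟩
  obtain ⟨κ, hκ, hκ'⟩ : ∃ κ : ℝ, 0 < κ ∧ g₀ * κ = 1 := ⟨g₀⁻¹, inv_pos.2 hg, mul_inv_cancel₀ hg.ne'⟩
  obtain ⟨L, t, ht, hL⟩ := (σ.cd 1).contDiffAt.exists_lipschitzOnWith (x := p)
  have c1 : Tendsto (fun x : PP => (x.1, γ.1 x.1)) (𝓝 p) (𝓝 p) :=
    (continuous_fst.prodMk (γ.ct.comp continuous_fst)).tendsto' p p (Prod.ext rfl hp.symm)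
  have c2 : ∀ m : ℝ, 0 < m → ∀ᶠ x in 𝓝 p, |σ.1 x| ≤ m := fun m hm =>
    (σ.ct.abs.continuousAt.eventually_lt continuousAt_const (by simpa [hσ] using hm)).mono
      fun _ => le_of_lt
  obtain ⟨r, hr, hb⟩ := Metric.eventually_nhds_iff.1 ((hN.and (hT.2.2.and
    (cone h1 h2 (M := 2 + κ) (by linarith)))).and (((c1.eventually (c2 g₀ hg)).and
    (c2 (1 / (4 * κ)) (by positivity))).and ((continuous_fst.tendsto p).eventually hγ |>.and
    ((c1.eventually ht).and ht))))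
  obtain ⟨η, hη, e1, e2, e3⟩ : ∃ η : ℝ, 0 < η ∧ (1 + κ) * η < r ∧ g₀ * η < r ∧
      L * ((1 + κ) * η) < 1 / 2 := by
    have k : ∀ a b : ℝ, 0 < b → ∀ᶠ η in 𝓝[>] (0 : ℝ), a * η < b := fun a b hb =>
      nhdsWithin_le_nhds ((continuous_const_mul a).continuousAt.eventually_lt continuousAt_const
        (by simpa using hb))
    obtain ⟨η, a, b, c, d⟩ := ((k _ _ hr).and ((k _ _ hr).and ((k (L * (1 + κ)) _ one_half_pos).and
      self_mem_nhdsWithin))).exists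
    exact ⟨η, d, a, b, by rwa [mul_assoc] at c⟩
  have c3 : ∀ᶠ x : PP in 𝓝 p, -η < x.2 - p.2 :=
    continuousAt_const.eventually_lt (by fun_prop) (by simpa using hη)
  have c4 : ∀ᶠ x : PP in 𝓝 p, 0 < η - |x.1 - p.1| - κ * (x.2 - p.2) :=
    continuousAt_const.eventually_lt (by fun_prop) (by simpa using hη)
  refine (c3.and c4).mono fun x a hx => by_contra fun hn => ?_
  obtain ⟨e, he, hex⟩ : ∃ e : ℝ, |e| = 1 ∧ e * (x.1 - p.1) = |x.1 - p.1| := by
    rcases abs_cases (x.1 - p.1) with k | k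
    exacts [⟨1, abs_one, by rw [k.1, one_mul]⟩, ⟨-1, by simp, by rw [k.1, neg_one_mul]⟩]
  have cg := γ.ct
  let F : SA PP := mkS (fun z => (γ.1 z.1 - z.2) * (η - e * (z.1 - p.1) - κ * (z.2 - p.2)))
    (((γ.sm.comp contDiff_fst).sub contDiff_snd).mul (by fun_prop))
  let K : Set PP := {z | 0 ≤ e * (z.1 - p.1) ∧ -η ≤ z.2 - p.2 ∧ z.2 ≤ γ.1 z.1 ∧
    0 ≤ η - e * (z.1 - p.1) - κ * (z.2 - p.2)}
  have ab : ∀ z ∈ K, |z.1 - p.1| = e * (z.1 - p.1) := fun z hz => by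
    rw [← abs_of_nonneg hz.1, abs_mul, he, one_mul]
  have bd : ∀ z ∈ K, dist z p < r := fun z hz => by
    obtain ⟨k1, k2, -, k4⟩ := id hz
    have := mul_le_mul_of_nonneg_left k2 hκ.le
    rw [Prod.dist_eq, Real.dist_eq, Real.dist_eq, ab z hz, max_lt_iff, abs_lt]
    refine ⟨by linarith, by nlinarith, ?_⟩
    have : g₀ * (κ * (z.2 - p.2)) ≤ g₀ * η := mul_le_mul_of_nonneg_left (by linarith) hg.le
    rw [← mul_assoc, hκ', one_mul] at this
    linarith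
  have hK : IsCompact K := by
    refine Metric.isCompact_of_isClosed_isBounded (IsClosed.and ?_ (IsClosed.and ?_
      (IsClosed.and ?_ ?_))) (Metric.isBounded_ball.subset bd) <;>
    exact isClosed_le (by fun_prop) (by fun_prop)
  obtain ⟨q, hq, qZ, le, mx⟩ := exists_max hZ hK F.ct.continuousOn (x := x)
    ⟨hex ▸ abs_nonneg _, a.1.le, hx.le, hex ▸ a.2.le⟩ hn
  obtain ⟨⟨nt, z1, z2⟩, ⟨s1, s2⟩, ode, t1, t2⟩ := hb (bd q hq)
  have aq := ab q hq
  obtain ⟨k1, k2, k3, k4⟩ := hq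
  have pos : 0 < (γ.1 q.1 - q.2) * (η - e * (q.1 - p.1) - κ * (q.2 - p.2)) :=
    (mul_pos (sub_pos.2 hx) (hex ▸ a.2)).trans_le le
  have hh : 0 < γ.1 q.1 - q.2 := pos_of_mul_pos_left pos k4
  have hζ := pos_of_mul_pos_right pos hh.le
  have k1' : 0 < e * (q.1 - p.1) := lt_of_le_of_ne k1 fun k => qZ (z1 (z2 (by
    rw [← k, abs_eq_zero, sub_eq_zero] at aq
    rw [aq] at hh ⊢
    rw [sub_self, abs_zero, hp]
    positivity)))
  have k2' : -η < q.2 - p.2 := lt_of_le_of_ne k2 fun k => qZ (z1 (z2 (by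
    rw [aq, show p.2 - q.2 = η by linarith]
    rw [← k] at hζ
    linarith)))
  have f1 : (d1 F).1 q = deriv γ.1 q.1 * (η - e * (q.1 - p.1) - κ * (q.2 - p.2))
      - e * (γ.1 q.1 - q.2) := by
    rw [d1_eq F (((hd_one γ q.1).sub_const q.2).fun_mul (((((hasDerivAt_id' q.1).sub_const
      p.1).const_mul e).const_sub η).sub_const (κ * (q.2 - p.2)))), D1_val]
    ring
  have f2 : (d2 F).1 q = -(η - e * (q.1 - p.1) - κ * (q.2 - p.2) + κ * (γ.1 q.1 - q.2)) := by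
    rw [d2_eq F (((hasDerivAt_id' q.2).const_sub (γ.1 q.1)).fun_mul ((((hasDerivAt_id' q.2).sub_const
      p.2).const_mul κ).const_sub (η - e * (q.1 - p.1))))]
    ring
  have lip : |deriv γ.1 q.1 - σ.1 q| ≤ L * (γ.1 q.1 - q.2) := by
    have := hL.dist_le_mul _ t1 _ t2
    rwa [Prod.dist_eq, dist_self, Real.dist_eq, Real.dist_eq, abs_of_pos hh, max_eq_right hh.le,
      ← ode] at this
  have nb : K ∈ 𝓝 q := by
    filter_upwards [continuousAt_const.eventually_lt (g := fun z : PP => e * (z.1 - p.1))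
      (by fun_prop) k1', continuousAt_const.eventually_lt (g := fun z : PP => z.2 - p.2)
      (by fun_prop) k2', continuousAt_const.eventually_lt (g := fun z : PP => γ.1 z.1 - z.2)
      (by fun_prop) hh, continuousAt_const.eventually_lt
      (g := fun z : PP => η - e * (z.1 - p.1) - κ * (z.2 - p.2)) (by fun_prop) hζ] with z a b c d
    exact ⟨a.le, b.le, (sub_pos.1 c).le, d.le⟩
  have ub : L * (η - e * (q.1 - p.1) - κ * (q.2 - p.2)) ≤ 1 / 2 :=
    (mul_le_mul_of_nonneg_left (by nlinarith) L.2).trans e3.le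
  rw [← ode] at s1
  generalize η - e * (q.1 - p.1) - κ * (q.2 - p.2) = ζ at f1 f2 hζ ub
  generalize γ.1 q.1 - q.2 = h at f1 f2 hh lip
  have w : 0 < ζ + κ * h := by positivity
  have n2 : (d2 F).1 q < 0 := f2 ▸ neg_lt_zero.2 w
  refine fin he hh hζ hκ lip s2 ub ((div_eq_iff w.ne').1 (nt F _ ⟨qZ, .inr n2.ne,
    mem_of_superset nb mx⟩ n2 (by rw [f1, f2]; field_simp; ring) ?_))
  rw [abs_div, abs_of_pos w, div_le_iff₀ w]
  refine (abs_sub _ _).trans ?_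
  rw [abs_mul, abs_mul, he, abs_of_pos hh, abs_of_pos hζ, mul_add, ← mul_assoc, hκ']
  gcongr

end Pool.Agent.MP_ed9623_an.S64
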