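import Pool.Agent.MP_ed9623_an.S64.SpecG

/-! Sweeping above the integral curve. -/

open Filter Topology Set
open scoped ContDiff

namespace Pool.Agent.MP_ed9623_an.S64

open H64

namespace GSWb

theorem d1v (f : SA PP) {s y v : ℝ} (h : HasDerivAt (fun r => f.1 (r, y)) v s) :
    (d1 f).1 (s, y) = v :=
  (hd_comp f ((hasDerivAt_id s).prodMk (hasDerivAt_const s y))).unique h

theorem d2v (f : SA PP) {s y v : ℝ} (h : HasDerivAt (fun r => f.1 (s, r)) v y) :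
    (d2 f).1 (s, y) = v :=
  (hd_comp f ((hasDerivAt_const y s).prodMk (hasDerivAt_id y))).unique h

/-- The sweeping function. -/
noncomputable def ph (γ : SA ℝ) (η k s₁ : ℝ) : SA PP :=
  mkS (fun x => -(x.2 - γ.1 x.1 + η) * Real.exp (k * (x.1 - s₁)))
    (((contDiff_snd.sub (γ.sm.comp contDiff_fst)).add contDiff_const).neg.mul (by fun_prop))

theorem d1_ph (γ : SA ℝ) (η k s₁ s y : ℝ) : (d1 (ph γ η k s₁)).1 (s, y)
    = (deriv γ.1 s - (y - γ.1 s + η) * k) * Real.exp (k * (s - s₁)) :=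
  d1v _ (((((hd_one γ s).const_sub y).add_const η).neg.mul
    (((hasDerivAt_id s).sub_const s₁).const_mul k).exp).congr_deriv (by
      simp only [D1_val, id, Pi.neg_apply]; ring))

theorem d2_ph (γ : SA ℝ) (η k s₁ s y : ℝ) :
    (d2 (ph γ η k s₁)).1 (s, y) = -Real.exp (k * (s - s₁)) :=
  d2v _ ((((((hasDerivAt_id y).sub_const (γ.1 s)).add_const η).neg.mul_const
    (Real.exp (k * (s - s₁))))).congr_deriv (by ring))

theorem core {Z : Set PP} {σ : SA PP} {γ : SA ℝ} {g₀ L r s₀ s₁ : ℝ} (hZ : IsOpen Z) (hg : 0 < g₀)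
    (hL : 0 < L) (hr : 0 < r) (r1 : r ≤ 1)
    (nt : ∀ s u, |s - s₀| ≤ r → |u| ≤ r → ∀ (Φ : SA PP) (c : ℝ), Tch Z (s, γ.1 s + u) Φ →
      (d2 Φ).1 (s, γ.1 s + u) < 0 → (d1 Φ).1 (s, γ.1 s + u) + c * (d2 Φ).1 (s, γ.1 s + u) = 0 →
      |c| ≤ g₀ → c = σ.1 (s, γ.1 s + u))
    (lo : ∀ s u, |s - s₀| ≤ r → |u| ≤ r → u < 0 → (s, γ.1 s + u) ∈ Z)
    (sl : ∀ s u, |s - s₀| ≤ r → |u| ≤ r →
      |deriv γ.1 s| ≤ g₀ / 2 ∧ |deriv γ.1 s - σ.1 (s, γ.1 s + u)| ≤ L * |u|)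
    (hp : (s₀, γ.1 s₀) ∉ Z) (h1 : |s₁ - s₀| ≤ r) : (s₁, γ.1 s₁) ∉ Z := by
  intro h
  obtain ⟨a, rfl⟩ : ∃ a, s₀ = s₁ + a := ⟨s₀ - s₁, by ring⟩
  have a0 : a ≠ 0 := fun e => hp (by rwa [e, add_zero])
  have ap := abs_pos.2 a0
  have ar : |a| ≤ r := by rwa [sub_add_cancel_left, abs_neg] at h1
  have e1 : ∀ᶠ u in 𝓝 (0 : ℝ), (s₁, γ.1 s₁ + u) ∈ Z :=
    (by fun_prop : Continuous fun u : ℝ => ((s₁, γ.1 s₁ + u) : PP)).continuousAt.eventually
      (hZ.mem_nhds (by simpa using h))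
  obtain ⟨ε', ε0, hε⟩ := Metric.nhds_basis_closedBall.eventually_iff.1 e1
  obtain ⟨ε, e0, e2, e3, e4⟩ : ∃ ε, 0 < ε ∧ ε ≤ ε' ∧ ε ≤ r ∧ ε ≤ g₀ / 2 * (|a| / L) :=
    ⟨min ε' (min r (g₀ / 2 * (|a| / L))), by positivity, min_le_left _ _,
      (min_le_right _ _).trans (min_le_left _ _), (min_le_right _ _).trans (min_le_right _ _)⟩
  obtain ⟨η, η0, hη⟩ : ∃ η, 0 < η ∧ η * Real.exp L = ε / 2 :=
    ⟨ε / 2 / Real.exp L, by positivity, div_mul_cancel₀ _ (Real.exp_pos L).ne'⟩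
  have x1 : 1 ≤ Real.exp L := Real.one_le_exp hL.le
  have η1 : η ≤ ε / 2 := by nlinarith
  have cγ := γ.ct
  obtain ⟨⟨τ, u⟩, ⟨⟨t0, t2⟩, u0, u1⟩, qZ, q1, q2⟩ := exists_max
    (Z := (fun z : PP => ((s₁ + a * z.1, γ.1 (s₁ + a * z.1) + z.2) : PP)) ⁻¹' Z)
    (K := Icc 0 2 ×ˢ Icc (-η) ε) (Φ := fun z => -(z.2 + η) * Real.exp (L * z.1)) (x := (1, 0))
    (hZ.preimage (by fun_prop)) (isCompact_Icc.prod isCompact_Icc) (by fun_prop)
    ⟨⟨zero_le_one, one_le_two⟩, by simp [η0.le, e0.le]⟩ (by simpa using hp)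
  simp only [mem_preimage, zero_add, mul_one] at t0 t2 u0 u1 qZ q1 q2
  have hs : |s₁ + a * τ - (s₁ + a)| ≤ r := by
    rw [show s₁ + a * τ - (s₁ + a) = a * (τ - 1) by ring, abs_mul]
    exact (mul_le_of_le_one_right ap.le (abs_le.2 ⟨by linarith, by linarith⟩)).trans ar
  have hu : |u| ≤ ε := abs_le.2 ⟨by linarith, u1⟩
  have up : 0 ≤ u := not_lt.1 fun c => qZ (lo _ _ hs (hu.trans e3) c)
  have x2 : 1 ≤ Real.exp (L * τ) := Real.one_le_exp (by positivity)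
  have u2 : u + η ≤ ε / 2 := by nlinarith
  have t3 : τ ≠ 0 := fun e => qZ (by
    rw [e, mul_zero, add_zero]
    exact hε (mem_closedBall_zero_iff.2 (hu.trans e2)))
  have t4 : τ < 2 := by
    have : Real.exp (L * τ) ≤ Real.exp L := by nlinarith
    have := Real.exp_le_exp.1 this
    nlinarith
  have ek : ∀ s, L / a * (s - s₁) = L * ((s - s₁) / a) := fun s => by ring
  have et : a * τ / a = τ := mul_div_cancel_left₀ τ a0
  have xp := Real.exp_pos (L / a * (s₁ + a * τ - s₁))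
  have tch : Tch Z (s₁ + a * τ, γ.1 (s₁ + a * τ) + u) (ph γ η (L / a) s₁) := by
    refine ⟨qZ, Or.inr (by rw [d2_ph]; exact neg_ne_zero.2 xp.ne'), ?_⟩
    have c : Tendsto (fun x : PP => (((x.1 - s₁) / a, x.2 - γ.1 x.1) : PP))
        (𝓝 (s₁ + a * τ, γ.1 (s₁ + a * τ) + u)) (𝓝 (τ, u)) :=
      Continuous.tendsto' (by fun_prop) _ _ (by simp [et])
    filter_upwards [c.eventually (prod_mem_nhds (Icc_mem_nhds (t0.lt_of_ne' t3) t4)
      (Icc_mem_nhds (by linarith : -η < u) (by linarith : u < ε)))] with y b d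
    have := q2 _ b (by simpa only [ph, mkS_val, ek, et, add_sub_cancel_left] using d)
    simpa [mul_div_cancel₀ _ a0] using this
  obtain ⟨b1, b2⟩ := sl _ _ hs (hu.trans e3)
  have b3 : |(u + η) * (L / a)| = (u + η) * (L / |a|) := by
    rw [abs_mul, abs_div, abs_of_pos hL, abs_of_nonneg (by linarith)]
  have b4 := nt _ _ hs (hu.trans e3) _ (deriv γ.1 (s₁ + a * τ) - (u + η) * (L / a)) tch
    (by rw [d2_ph]; exact neg_lt_zero.2 xp) (by rw [d1_ph, d2_ph]; ring) (by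
      refine (abs_sub _ _).trans ?_
      have : (u + η) * (L / |a|) ≤ g₀ / 2 * (|a| / L) * (L / |a|) :=
        mul_le_mul_of_nonneg_right (by linarith) (by positivity)
      rw [mul_assoc, show |a| / L * (L / |a|) = 1 by field_simp, mul_one] at this
      linarith)
  rw [← b4, sub_sub_cancel, b3, abs_of_nonneg up] at b2
  have b5 : L ≤ L / |a| := le_div_self hL.le ap (ar.trans r1)
  nlinarith

end GSWb

theorem rowSWb : OfSWb := by
  rintro Z ⟨s₀, y₀⟩ σ γ g₀ hZ hp h0 hg nt ode ⟨rfl : y₀ = γ.1 s₀, lo⟩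
  refine ⟨⟨rfl, lo⟩, ?_⟩
  obtain ⟨K, t, ht, hK⟩ := ((σ.cd 1).contDiffAt (x := (s₀, γ.1 s₀))).exists_lipschitzOnWith
  have cγ := γ.ct
  have c : Tendsto (fun z : PP => ((z.1, γ.1 z.1 + z.2) : PP)) (𝓝 (s₀, 0)) (𝓝 (s₀, γ.1 s₀)) :=
    Continuous.tendsto' (by fun_prop) _ _ (by simp)
  have sm : ∀ᶠ x in 𝓝 ((s₀, γ.1 s₀) : PP), |σ.1 x| ≤ g₀ / 2 :=
    (σ.ct.abs.continuousAt.eventually_lt continuousAt_const
      (by rw [h0, abs_zero]; positivity)).mono fun _ => le_of_lt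
  obtain ⟨r', r0, hr⟩ := Metric.nhds_basis_closedBall.eventually_iff.1
    ((c.eventually (nt.and (lo.and (sm.and ht)))).and
      ((continuous_fst.tendsto ((s₀, 0) : PP)).eventually ode))
  have hb := fun s u (a : |s - s₀| ≤ min r' 1) (b : |u| ≤ min r' 1) => hr (x := (s, u))
    (max_le (a.trans (min_le_left _ _)) (by simpa using b.trans (min_le_left _ _)))
  have rp : 0 < min r' 1 := lt_min r0 one_pos
  filter_upwards [(continuous_fst.tendsto ((s₀, γ.1 s₀) : PP)).eventually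
    (Metric.closedBall_mem_nhds s₀ rp)] with x a b
  rw [show x = (x.1, γ.1 x.1) from Prod.ext rfl b]
  refine GSWb.core (σ := σ) (L := K + 1) hZ hg (by positivity) rp (min_le_right _ _)
    (fun s u a b => (hb s u a b).1.1) (fun s u a b d => (hb s u a b).1.2.1 (by simpa using d))
    (fun s u a b => ?_) hp a
  have z := hb s 0 a (by simpa using rp.le)
  have w := hb s u a b
  simp only [add_zero] at z
  rw [z.2]
  refine ⟨z.1.2.2.1, (hK.dist_le_mul _ z.1.2.2.2 _ w.1.2.2.2).trans ?_⟩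
  rw [dist_prod_same_left, Real.dist_eq, sub_add_cancel_left, abs_neg]
  exact mul_le_mul_of_nonneg_right (by linarith) (abs_nonneg u)

end Pool.Agent.MP_ed9623_an.S64
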