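import Pool.Agent.MP_ed9623_an.S64.SpecG

/-! A nondegenerate touching point. -/

namespace Pool.Agent.MP_ed9623_an.S64

open H64

theorem rowTP : OfTP := by
  intro hL hT h0 n α ψ O Z p Φ t hl hp ht hd s
  obtain ⟨τ, h, t0, b, c⟩ := hT Z p Φ ht
  have a := TI_val (h0 n _ _ _ _ 0 _ t (hL n α ψ O Z p τ h hl)
    (by rwa [Set.mem_preimage, mv_zero]) t0 b c (by rwa [det_cm p τ h, cm_val, mv_zero])).tan rfl s
  rw [d1_cm, cm_val, mv_zero, val_add, val_smul, val_smul] at a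
  rw [d1_cp, cp_val, mv_zero, val_add, val_smul, val_smul] at b
  linear_combination (τ.1 * (d2 Φ).1 p - τ.2 * (d1 Φ).1 p) * a +
    (τ.2 * (DS.d 1 ψ).1 (s, p) - τ.1 * (DS.d 2 ψ).1 (s, p)) * b -
    ((DS.d 1 ψ).1 (s, p) * (d2 Φ).1 p - (DS.d 2 ψ).1 (s, p) * (d1 Φ).1 p) * h

end Pool.Agent.MP_ed9623_an.S64
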