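import Pool.Agent.MP_ed9623_an.S64.SpecG

/-! A touching curve is characteristic or the determinant vanishes. -/

open Filter Topology Set
open scoped ContDiff

namespace Pool.Agent.MP_ed9623_an.S64

open H64

namespace GTouch

/-- A parabola through `p` with slope `c`. -/
noncomputable def par (p : PP) (c C : ℝ) : SA ℝ :=
  mkS (fun s => p.2 + c * (s - p.1) - C * (s - p.1) ^ 2) (by fun_prop)

theorem par_at (p : PP) (c C : ℝ) : p.2 = (par p c C).1 p.1 := by simp [par, mkS_val]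

theorem hd_slope (p : PP) (c C s : ℝ) :
    HasDerivAt (fun s => c - 2 * C * (s - p.1)) (-(2 * C)) s := by
  simpa using (((hasDerivAt_id s).sub_const p.1).const_mul (2 * C)).const_sub c

theorem hd_par (p : PP) (c C s : ℝ) : HasDerivAt (par p c C).1 (c - 2 * C * (s - p.1)) s := by
  have h := (hasDerivAt_id s).sub_const p.1
  refine (((h.const_mul c).const_add p.2).sub ((h.pow 2).const_mul C)).congr_deriv ?_
  simp only [id]
  ring

theorem hd_on (f : SA PP) (p : PP) (c C s : ℝ) : HasDerivAt (fun s => f.1 (s, (par p c C).1 s))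
    ((d1 f).1 (s, (par p c C).1 s) + (c - 2 * C * (s - p.1)) * (d2 f).1 (s, (par p c C).1 s)) s :=
  (hd_comp f ((hasDerivAt_id s).prodMk (hd_par p c C s))).congr_deriv (by rw [D_dir2]; simp)

theorem exists_min {Φ : SA PP} {p : PP} {c : ℝ} (h2 : (d2 Φ).1 p < 0)
    (h1 : (d1 Φ).1 p + c * (d2 Φ).1 p = 0) :
    ∃ C, IsLocalMin (fun s => Φ.1 (s, (par p c C).1 s)) p.1 := by
  obtain ⟨C, hC⟩ : ∃ C : ℝ, 2 * C * (d2 Φ).1 p = (d1 (d1 Φ)).1 p + c * (d2 (d1 Φ)).1 p
      + c * ((d1 (d2 Φ)).1 p + c * (d2 (d2 Φ)).1 p) - 1 :=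
    ⟨_ / (2 * (d2 Φ).1 p), by
      rw [mul_right_comm]; exact mul_div_cancel₀ _ (mul_ne_zero two_ne_zero h2.ne)⟩
  have e : deriv (fun s => Φ.1 (s, (par p c C).1 s)) = fun s => (d1 Φ).1 (s, (par p c C).1 s)
      + (c - 2 * C * (s - p.1)) * (d2 Φ).1 (s, (par p c C).1 s) :=
    funext fun s => (hd_on Φ p c C s).deriv
  refine ⟨C, isLocalMin_of_deriv_deriv_pos ?_ ?_ (hd_on Φ p c C _).continuousAt⟩
  · have := ((hd_on (d1 Φ) p c C p.1).add
      ((hd_slope p c C p.1).mul (hd_on (d2 Φ) p c C p.1))).deriv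
    rw [e]
    refine lt_of_lt_of_eq one_pos (Eq.trans ?_ this.symm)
    rw [← par_at]
    simp only [sub_self, mul_zero, sub_zero, Prod.mk.eta]
    linarith
  · rw [e]
    simp only [← par_at, sub_self, mul_zero, sub_zero, Prod.mk.eta]
    exact h1

theorem low {Z : Set PP} {Φ : SA PP} {p : PP} {γ : SA ℝ} (hT : Tch Z p Φ) (h2 : (d2 Φ).1 p < 0)
    (hp : p.2 = γ.1 p.1) (hm : IsLocalMin (fun s => Φ.1 (s, γ.1 s)) p.1) : Low Z p γ := by
  obtain ⟨r, hr, hb⟩ := Metric.eventually_nhds_iff_ball.1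
    ((d2 Φ).ct.continuousAt.eventually_lt continuousAt_const h2)
  refine ⟨hp, ?_⟩
  filter_upwards [hT.2.2, (continuous_fst.tendsto p).eventually hm, Metric.ball_mem_nhds p hr,
    ((tend_curve γ hp).comp (continuous_fst.tendsto p)).eventually (Metric.ball_mem_nhds p hr)]
    with x a b c d e
  replace d : ((x.1, γ.1 x.1) : PP) ∈ Metric.ball p r := d
  rw [← ball_prod_same] at c d hb
  have hd : ∀ y, HasDerivAt (fun y => Φ.1 (x.1, y)) ((d2 Φ).1 (x.1, y)) y := fun y =>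
    hd_comp Φ ((hasDerivAt_const y x.1).prodMk (hasDerivAt_id y))
  have an : StrictAntiOn (fun y => Φ.1 (x.1, y)) (Metric.ball p.2 r) :=
    strictAntiOn_of_deriv_neg (convex_ball _ _) (fun y _ => (hd y).continuousAt.continuousWithinAt)
      fun y hy => by
        rw [(hd y).deriv]
        exact hb _ ⟨c.1, interior_subset hy⟩
  refine a (lt_of_le_of_lt ?_ (an c.2 d.2 e))
  simpa only [← hp, Prod.mk.eta] using b

end GTouch

open GTouch in
theorem rowTouch : OfTouch := by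
  intro hU hN n α ψ O Z p Φ c t hL hp hT h2 h1 hd
  obtain ⟨C, hm⟩ := exists_min h2 h1
  by_contra hne
  refine hN n α ψ O Z p _ hL (low hT h2 (par_at p c C) hm) hp hT.1 t
    (hU n ψ _ (t, p) 0 (par_at p c C) ?_ (fun i hi => absurd hi (Nat.not_lt_zero i)) hd)
  rw [← BB_AA, (hd_par p c C _).deriv]
  simpa using hne

end Pool.Agent.MP_ed9623_an.S64
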