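import Pool.Agent.MP_ed9623_an.S64.SpecG

/-! Unique continuation from the pencil of operators. -/

open Filter Topology Set

namespace Pool.Agent.MP_ed9623_an.S64

open H64

namespace GUEg

theorem div1 (hD : DivS) {γ : SA ℝ} {z : ST} (hz : z.2.2 = γ.1 z.2.1) {f : S3} (h : f ∈ VI γ z) :
    ∃ q : S3, f - dd γ * q ∈ NI z := by
  obtain ⟨q, a, -⟩ := hD γ z 1 f hz fun i hi => by
    obtain rfl : i = 0 := by omega
    exact h
  exact ⟨q, by rwa [pow_one] at a⟩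

theorem coef (hD : DivS) {γ : SA ℝ} {z : ST} (hz : z.2.2 = γ.1 z.2.1) (j : ℕ) (e x p : S3)
    (h : j ≤ 1 ∨ x ∈ VI γ z ∧ (j = 2 ∨ j = 3 ∧ e ∈ VI γ z ∧ p ∈ VI γ z)) :
    ∃ a b c : S3, dd γ ^ 2 * e - dd γ ^ j * a ∈ NI z ∧ dd γ * e * x - dd γ ^ j * b ∈ NI z ∧
      (if j ≤ 2 then 0 else p - dd γ * c) ∈ NI z ∧ (j ≤ 2 ∨ j = 3) := by
  rcases h with h | ⟨hx, rfl | ⟨rfl, he, hp⟩⟩
  · obtain rfl | rfl : j = 0 ∨ j = 1 := by omega
    · exact ⟨dd γ ^ 2 * e, dd γ * e * x, 0, by simp, by simp, by simp, by simp⟩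
    · refine ⟨dd γ * e, e * x, 0, ?_, ?_, by simp, by simp⟩
      · rw [show dd γ ^ 2 * e - dd γ ^ 1 * (dd γ * e) = 0 by ring]
        exact zero_mem _
      · rw [show dd γ * e * x - dd γ ^ 1 * (e * x) = 0 by ring]
        exact zero_mem _
  · obtain ⟨x', hx'⟩ := div1 hD hz hx
    refine ⟨e, e * x', 0, by simp, ?_, by simp, by simp⟩
    rw [show dd γ * e * x - dd γ ^ 2 * (e * x') = dd γ * e * (x - dd γ * x') by ring]
    exact Ideal.mul_mem_left _ _ hx'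
  · obtain ⟨x', hx'⟩ := div1 hD hz hx
    obtain ⟨e', he'⟩ := div1 hD hz he
    obtain ⟨c, hc⟩ := div1 hD hz hp
    refine ⟨e', e' * x', c, ?_, ?_, by simpa using hc, by simp⟩
    · rw [show dd γ ^ 2 * e - dd γ ^ 3 * e' = dd γ ^ 2 * (e - dd γ * e') by ring]
      exact Ideal.mul_mem_left _ _ he'
    · rw [show dd γ * e * x - dd γ ^ 3 * (e' * x') = dd γ * x * (e - dd γ * e')
        + dd γ ^ 2 * e' * (x - dd γ * x') by ring]
      exact add_mem (Ideal.mul_mem_left _ _ he') (Ideal.mul_mem_left _ _ hx')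

end GUEg

open GUEg in
theorem rowUEg : OfUEg := by
  intro hM hD hU n ψ γ z σ j hz hRt hQ hv hne hc α U hA hzU
  obtain ⟨r, hr, hrz⟩ := hD γ z j _ hz hv
  have hr0 : r.1 z ≠ 0 := fun h => hne (by rw [← hrz, h, mul_zero])
  obtain ⟨ri, hri⟩ := exists_inv hr0
  obtain ⟨a, b, c, ha, hb, hcc, hj⟩ := coef hD hz j _ _ _ hc
  obtain ⟨R, _, _, D, res, M, τ, Qi, hd, hMA, hMd, h0, hCh, hC⟩ :=
    hM n α ψ γ U z σ _ hA hzU hz hRt hQ (hr.and (hri.and (ha.and (hb.and hcc))))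
  have hm : ∀ f, res f ∈ M.A := fun f => hMA ▸ ⟨f, rfl⟩
  have e1 := h0 _ fun y hy => hy.1
  have e2 := h0 _ fun y hy => hy.2.1
  have e3 := h0 _ fun y hy => hy.2.2.1
  have e4 := h0 _ fun y hy => hy.2.2.2.1
  have e5 := h0 _ fun y hy => hy.2.2.2.2
  refine ⟨z.1, hC (hU M hCh j (res r) (hm r) (res ri) (hm ri) (res a) (hm a) (res b) (hm b)
    ?_ ?_ ?_ ?_ ?_)⟩
  · rwa [map_sub, map_mul, map_one, sub_eq_zero] at e2
  · simp only [DR.QQ, DR.AA, map_add, map_mul, map_sub, map_pow, map_ofNat, hd] at e1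
    rw [hMd]
    exact sub_eq_zero.1 e1
  · simp only [DR.bk, map_mul, map_sub, map_pow, hd] at e3
    rw [hMd]
    exact sub_eq_zero.1 e3
  · simp only [DR.bk, DR.XX, map_add, map_mul, map_sub, map_pow, hd] at e4
    rw [hMd]
    exact sub_eq_zero.1 e4
  · rcases hj with hj | rfl
    · exact Or.inl hj
    · refine Or.inr ⟨rfl, res c, hm c, ?_⟩
      rw [if_neg (by decide)] at e5
      simp only [DR.XX, map_add, map_mul, map_sub, hd] at e5
      rw [hMd]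
      exact sub_eq_zero.1 e5

end Pool.Agent.MP_ed9623_an.S64
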