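import Pool.Agent.MP_ed9623_an.S64.SpecL

/-! Slow growth of the weighted norms forces vanishing. -/

open Filter Topology Set MeasureTheory
open scoped ContDiff

namespace Pool.Agent.MP_ed9623_an.S64

open H64

namespace LVan

theorem ctq (L : Lz) : ContinuousOn (fun z => L.u.1 z ^ 2 / L.d.1 z) L.Λ :=
  (L.u.ct.pow 2).continuousOn.div L.d.ct.continuousOn fun _ h => h.2.1.ne'

theorem int (L : Lz) {f : SO L.Λ} (hf : f ∈ L.F0) (N : ℕ) :
    IntegrableOn (fun z => ((L.u.1 z ^ 2 / L.d.1 z) ^ N * ex f.1 z) ^ 2) L.Λ := by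
  obtain ⟨C, h⟩ := hf N
  refine L.int ((((ctq L).pow N).mul (ContDiffOn.continuousOn f.2)).pow 2) (C := C ^ 2)
    fun z a => ?_
  have p := pow_pos a.2.1 N
  have q : (L.u.1 z ^ 2) ^ N ≤ 1 :=
    pow_le_one₀ (sq_nonneg _) (pow_le_one₀ a.1.le (L.u_le_one z))
  rw [abs_pow]
  refine pow_le_pow_left₀ (abs_nonneg _) ?_ 2
  rw [abs_mul, div_pow, abs_of_nonneg (by positivity), ex_mem _ a, div_mul_eq_mul_div,
    div_le_iff₀ p]
  exact (mul_le_of_le_one_left (abs_nonneg _) q).trans (h ⟨z, a⟩)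

end LVan

open LVan in
theorem rowVan : OfVan := by
  intro L b M f hf hM H x hb hx
  by_contra h0
  have := haar3
  obtain ⟨M', m1, m2⟩ := exists_between hx
  obtain ⟨c, c0, c1⟩ := exists_between (sq_pos_of_ne_zero h0)
  have n := L.opn.mem_nhds x.2
  have e1 := (((ctq L).continuousAt n).pow 2).eventually (lt_mem_nhds m2)
  have e2 := ((SO_at L.opn f x).continuousAt.pow 2).eventually
    (lt_mem_nhds (show c < ex f.1 x ^ 2 by rwa [ex_val]))
  obtain ⟨U, hU, uo, ux⟩ := mem_nhds_iff.1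
    (inter_mem ((L.opn_dom b).mem_nhds ⟨x.2, hb⟩) (e1.and e2))
  have fin : volume U ≠ ⊤ := ((measure_mono fun z a => (hU a).1.1).trans_lt L.vol).ne
  have v0 : 0 < volume.real U := ENNReal.toReal_pos (uo.measure_pos _ ⟨_, ux⟩).ne' fin
  have p : 0 < M' := hM.trans_lt m1
  have t := (tendsto_pow_atTop_nhds_zero_of_lt_one (div_nonneg hM p.le)
    ((div_lt_one p).2 m1)).eventually (gt_mem_nhds (mul_pos c0 v0))
  obtain ⟨N, h1, h2⟩ := (H.and_eventually t).exists
  have i := (int L hf N).mono_set fun z (a : z ∈ L.dom b) => a.1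
  have l1 := setIntegral_mono_set i (ae_of_all _ fun z => sq_nonneg _)
    (LE.le.eventuallyLE fun z (a : z ∈ U) => (hU a).1)
  have l2 := setIntegral_ge_of_const_le_real (c := M' ^ N * c) uo.measurableSet fin
    (fun z a => by
      rw [mul_pow, ← pow_mul, mul_comm N 2, pow_mul]
      exact mul_le_mul (pow_le_pow_left₀ p.le (hU a).2.1.le N) (hU a).2.2.le c0.le
        (by positivity)) (i.mono_set fun z a => (hU a).1)
  rw [div_pow, div_lt_iff₀ (pow_pos p N)] at h2
  linarith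

end Pool.Agent.MP_ed9623_an.S64
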