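import Pool.Agent.MP_ed9623_an.S64.AHardy
import Pool.Agent.MP_ed9623_an.S64.ACarZ
import Pool.Agent.MP_ed9623_an.S64.AHeatI
import Pool.Agent.MP_ed9623_an.S64.AHeat
import Pool.Agent.MP_ed9623_an.S64.ASy
import Pool.Agent.MP_ed9623_an.S64.AHeatV
import Pool.Agent.MP_ed9623_an.S64.ATH
import Pool.Agent.MP_ed9623_an.S64.ATC
import Pool.Agent.MP_ed9623_an.S64.ARwB
import Pool.Agent.MP_ed9623_an.S64.ABoot
import Pool.Agent.MP_ed9623_an.S64.AHarR
import Pool.Agent.MP_ed9623_an.S64.AInvR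
import Pool.Agent.MP_ed9623_an.S64.AQuad
import Pool.Agent.MP_ed9623_an.S64.ARec
import Pool.Agent.MP_ed9623_an.S64.AFinR
import Pool.Agent.MP_ed9623_an.S64.AMc
import Pool.Agent.MP_ed9623_an.S64.AUCh
import Pool.Agent.MP_ed9623_an.S64.AUCe
import Pool.Agent.MP_ed9623_an.S64.AUNh
import Pool.Agent.MP_ed9623_an.S64.AUNe
import Pool.Agent.MP_ed9623_an.S64.AUKh
import Pool.Agent.MP_ed9623_an.S64.AUKe
import Pool.Agent.MP_ed9623_an.S64.AXM
import Pool.Agent.MP_ed9623_an.S64.AXR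
import Pool.Agent.MP_ed9623_an.S64.ARm
import Pool.Agent.MP_ed9623_an.S64.ASt
import Pool.Agent.MP_ed9623_an.S64.ABs
import Pool.Agent.MP_ed9623_an.S64.ACl
import Pool.Agent.MP_ed9623_an.S64.AEx
import Pool.Agent.MP_ed9623_an.S64.AExI
import Pool.Agent.MP_ed9623_an.S64.ARd
import Pool.Agent.MP_ed9623_an.S64.ALX
import Pool.Agent.MP_ed9623_an.S64.AFT
import Pool.Agent.MP_ed9623_an.S64.AUE
import Pool.Agent.MP_ed9623_an.S64.LTm
import Pool.Agent.MP_ed9623_an.S64.LFl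
import Pool.Agent.MP_ed9623_an.S64.LId
import Pool.Agent.MP_ed9623_an.S64.LVan
import Pool.Agent.MP_ed9623_an.S64.LFd
import Pool.Agent.MP_ed9623_an.S64.LIbp
import Pool.Agent.MP_ed9623_an.S64.LInt3
import Pool.Agent.MP_ed9623_an.S64.LPb0
import Pool.Agent.MP_ed9623_an.S64.LPb
import Pool.Agent.MP_ed9623_an.S64.LLz
import Pool.Agent.MP_ed9623_an.S64.LLnE
import Pool.Agent.MP_ed9623_an.S64.GDiv
import Pool.Agent.MP_ed9623_an.S64.GUNs
import Pool.Agent.MP_ed9623_an.S64.GUKs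
import Pool.Agent.MP_ed9623_an.S64.GSig
import Pool.Agent.MP_ed9623_an.S64.GMcE
import Pool.Agent.MP_ed9623_an.S64.GUEg
import Pool.Agent.MP_ed9623_an.S64.GFTg
import Pool.Agent.MP_ed9623_an.S64.GUE1
import Pool.Agent.MP_ed9623_an.S64.GJet
import Pool.Agent.MP_ed9623_an.S64.GUE2
import Pool.Agent.MP_ed9623_an.S64.GFTj
import Pool.Agent.MP_ed9623_an.S64.GFTs
import Pool.Agent.MP_ed9623_an.S64.GNoU
import Pool.Agent.MP_ed9623_an.S64.GExt
import Pool.Agent.MP_ed9623_an.S64.GZW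
import Pool.Agent.MP_ed9623_an.S64.GRad
import Pool.Agent.MP_ed9623_an.S64.GFA
import Pool.Agent.MP_ed9623_an.S64.GDC1
import Pool.Agent.MP_ed9623_an.S64.GDC2
import Pool.Agent.MP_ed9623_an.S64.GW1
import Pool.Agent.MP_ed9623_an.S64.GHC
import Pool.Agent.MP_ed9623_an.S64.GHD
import Pool.Agent.MP_ed9623_an.S64.GTouch
import Pool.Agent.MP_ed9623_an.S64.GOde
import Pool.Agent.MP_ed9623_an.S64.GSWa
import Pool.Agent.MP_ed9623_an.S64.GSWb
import Pool.Agent.MP_ed9623_an.S64.GTP0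
import Pool.Agent.MP_ed9623_an.S64.GRotL
import Pool.Agent.MP_ed9623_an.S64.GRotT
import Pool.Agent.MP_ed9623_an.S64.GRotC2
import Pool.Agent.MP_ed9623_an.S64.GTP
import Pool.Agent.MP_ed9623_an.S64.GSw2
import Pool.Agent.MP_ed9623_an.S64.GStep
import Pool.Agent.MP_ed9623_an.S64.GLine
import Pool.Agent.MP_ed9623_an.S64.GQtr
import Pool.Agent.MP_ed9623_an.S64.GCont
import Pool.Agent.MP_ed9623_an.S64.GCha
import Pool.Agent.MP_ed9623_an.S64.GCF
import Pool.Agent.MP_ed9623_an.S64.GNC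
import Pool.Agent.MP_ed9623_an.S64.GDisc
import Pool.Agent.MP_ed9623_an.S64.GND
import Pool.Agent.MP_ed9623_an.S64.GCore

/-! The zone is closed: assembly of the local analysis. -/

namespace Pool.Agent.MP_ed9623_an.S64

theorem xHardy : HardyS := rowHardy
theorem xCarZ : CarZS := rowCarZ
theorem xHeatI : HeatIS := rowHeatI
theorem xHeat : HeatS := rowHeat xHeatI
theorem xSy : SyS := rowSy
theorem xHeatV : HeatVS := rowHeatV xSy
theorem xTH : THS := rowTH xHardy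
theorem xTC : TCS := rowTC xCarZ
theorem xRwB : RwBS := rowRwB
theorem xBoot : BootS := rowBoot
theorem xHarR : HarRS := rowHarR xSy xTH
theorem xInvR : InvRS := rowInvR xHeat xHeatV
theorem xQuad : QuadS := rowQuad
theorem xRec : RecS := rowRec
theorem xFinR : FinRS := rowFinR xRec
theorem xMc : McS := rowMc xRwB xBoot xHarR xInvR xQuad xFinR
theorem xUCh : UChS := rowUCh xTH
theorem xUCe : UCeS := rowUCe xTC
theorem xUNh : UNS (-1) := rowUNh xSy xUCh
theorem xUNe : UNS 1 := rowUNe xSy xUCe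
theorem xUKh : UKS (-1) := rowUKh xSy xUCh
theorem xUKe : UKS 1 := rowUKe xSy xUCe
theorem xXM : XMS := rowXM
theorem xXR : XRS := rowXR xXM
theorem xRm : RmS := rowRm
theorem xSt : StS := rowSt
theorem xBs : BsS := rowBs xXM xXR xRm xSt
theorem xCl : ClS := rowCl xBs
theorem xEx : ExS := rowEx xXM xXR xRm
theorem xExI : ExIS := rowExI xXM xXR xRm
theorem xRd : RdS := rowRd xRm xSt xBs xEx xExI
theorem xLX : LXS := rowLX xXM xRm xEx
theorem xFT : FTS := rowFT xXM xXR xRm xCl xEx xRd xLX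
theorem xUE : UES := rowUE xXM xXR xRm xSt xBs xCl
theorem xTm : TmS := rowTm
theorem xFl : FlS := rowFl
theorem xId : IdS := rowId
theorem xVan : VanS := rowVan
theorem xFd : FdS := rowFd
theorem xIbp : IbpS := rowIbp
theorem xInt3 : Int3S := rowInt3 xFd xIbp
theorem xPb0 : Pb0S := rowPb0 xInt3
theorem xPb : PbS := rowPb xPb0
theorem xLz : LzS := rowLz xTm xId xVan xPb
theorem xLnE : LnES := rowLnE xFl xLz
theorem xDiv : DivS := rowDiv
theorem xUNs : UNsS := rowUNs xLnE xDiv xUNe xUNh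
theorem xUKs : UKsS := rowUKs xLnE xDiv xUKe xUKh
theorem xSig : SigS ∧ RtS := rowSig
theorem xMcE : McES := rowMcE xLnE xDiv xMc
theorem xUEg : UEgS := rowUEg xMcE xDiv xUE
theorem xFTg : FTgS := rowFTg xMcE xDiv xFT
theorem xUE1 : UE1S := rowUE1 xSig.2 xUEg
theorem xJet : JetS := rowJet
theorem xUE2 : UE2S := rowUE2 xSig.2 xUEg xJet
theorem xFTj : FTjS := rowFTj
theorem xFTs : FTsS := rowFTs xSig.2 xFTg xFTj
theorem xNoU : NoUS := rowNoU
theorem xExt : ExtS := rowExt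
theorem xZW : ZWS := rowZW xExt
theorem xRad : RadS := rowRad
theorem xFA : FAS := rowFA xExt xRad
theorem xDC1 : DC1S := rowDC1 xUNs xNoU xFA
theorem xDC2 : DC2S := rowDC2 xUKs xNoU xZW
theorem xW1 : W1S := rowW1 xUE1 xNoU
theorem xHC : HCS := rowHC xFTs xNoU xW1
theorem xHD : HDS := rowHD xFTs xUE2 xNoU xW1 xZW
theorem xTouch : TouchS := rowTouch xUNs xNoU
theorem xOde : OdeS := rowOde
theorem xSWa : SWaS := rowSWa
theorem xSWb : SWbS := rowSWb
theorem xTP0 : TP0S := rowTP0 xTouch xSig.1 xOde xSWa xSWb xDC1 xHC xHD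
theorem xRotL : RotLS := rowRotL
theorem xRotT : RotTS := rowRotT
theorem xRotC : RotCS := rowRotC2 xRotL
theorem xTP : TPS := rowTP xRotL xRotT xTP0
theorem xSw2 : Sw2S := rowSw2
theorem xStep : StepS := rowStep xTP0 xTP xSw2
theorem xLine : LineS := rowLine
theorem xQtr : QtrS := rowQtr
theorem xCont : ContS := rowCont xLine xQtr xStep
theorem xCha : ChaS := rowCha
theorem xCF : CFS := rowCF xCha
theorem xNC : NCS := rowNC xCF xRotL xDC1 xDC2
theorem xDisc : DiscS := rowDisc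
theorem xND : NDS := rowND xDisc xNC xFA xExt
theorem xCore : CoreS := rowCore xND xRotT xRotC xTP0 xCont

end Pool.Agent.MP_ed9623_an.S64
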