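import Pool.Agent.MP_ed9623_an.S64.SpecB

/-! Uniqueness when the curl of the force is smooth. -/

open MeasureTheory Filter Topology Set
open scoped ContDiff

namespace Pool.Agent.MP_ed9623_an.S64

open H64
open H77 (P L E6 M2 Van Test ip perp vl gj Sv Pv TU Rp Zn vo Circ ee)

namespace BSm

theorem zero_of_test {O : Set P} {G : P → ℝ} (hO : IsOpen O) (hG : ContinuousOn G O)
    (h : ∀ θ, Test O θ → ∫ x, G x * θ x = 0) : ∀ x ∈ O, G x = 0 := by
  have e : ∀ᵐ x, x ∈ O → G x = 0 :=
    hO.ae_eq_zero_of_integral_contDiff_smul_eq_zero (hG.locallyIntegrableOn hO.measurableSet)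
      fun θ a b c => by
        rw [← h θ ⟨a, b, c⟩]
        exact integral_congr_ae (Eventually.of_forall fun x => mul_comm _ _)
  exact Measure.eqOn_open_of_ae_eq (g := fun _ => 0) ((ae_restrict_iff' hO.measurableSet).2 e) hO
    hG continuousOn_const

end BSm

theorem rowSm : OfSm := by
  intro hRep hCk hPer hNb hTu hBd hZon ρ x g G R a w hρ hreg hb hc hx hk hdk hP hT hG hor
  have hO : IsOpen {x | ρ x < 0} := isOpen_lt hρ.continuous continuous_const
  rcases hPer ρ x g R a w hρ hreg hb hc hx hk hdk hP hT with h | ⟨h, δ, hδ, h'⟩ | ⟨n, hn, h⟩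
  · exact Or.inl h
  · refine absurd ?_ (hor.resolve_left h)
    have e := BSm.zero_of_test (hO.inter Metric.isOpen_ball (t := Metric.ball x δ))
      (hG.1.continuousOn.mono inter_subset_left) fun θ hθ => by
        rw [← hG.2 θ ⟨hθ.1, hθ.2.1, hθ.2.2.trans inter_subset_left⟩, h' θ hθ, neg_zero]
    filter_upwards [self_mem_nhdsWithin, mem_nhdsWithin_of_mem_nhds (Metric.ball_mem_nhds x hδ)]
      with y b c using e y ⟨b, c⟩
  · obtain ⟨A, W, hA, hW⟩ := hRep _ g G R a w hO hP hG
    have hC := hCk _ g G R a w A W hO hP hG hA hW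
    obtain ⟨N, h1, h2, h3⟩ := hNb ρ x n a w A W hρ hx (hreg x hx) hk h hA hW hC
    have e := hZon n _ N A W hn hO hb hc hC (hTu _ a A hO hT hA) (hBd ρ g R a w W hρ hreg hP hW)
      h1 h2 h3
    exact Or.inr fun t _ => H77.eq_zero_of_van (hP.ma t).1 fun j =>
      (hA.ae t j).mono fun y b c => (b c).symm.trans (e y c t j)

end Pool.Agent.MP_ed9623_an.S64
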