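import Pool.Agent.MP_ed9623_an.S64.SpecG

/-! A degenerate boundary is not contained in a regular curve. -/

open Filter Topology Set
open scoped ContDiff

namespace Pool.Agent.MP_ed9623_an.S64

open H64

theorem rowNC : OfNC := by
  intro hC hR h1 h2 n α ψ O Z F hl h x xO xc xZ
  by_contra hne
  rcases hC Z F x hl.oZ xc xZ (not_and_or.1 hne)
    (mem_of_superset (hl.oO.mem_nhds xO) fun y a b c => (h y a b c).1) with a | ⟨τ, γ, hτ, cr⟩
  · exact xZ (hl.mem xO a)
  have l' := hR n α ψ O Z x τ hτ hl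
  have o' : (0 : PP) ∈ mv x τ ⁻¹' O := by rwa [mem_preimage, mv_zero]
  have hd : DS.det (cm x τ ψ) ∈ TI γ 0 :=
    mem_TI.2 ((cr.ev.and (l'.oO.mem_nhds o')).mono fun y a c t => by
      rw [det_cm x τ hτ, cm_val]
      exact (h _ a.2 (((mvH x τ hτ).preimage_closure Z).ge (a.1 c).1.cl) (a.1 c).nm).2 t)
  have hA := h1 n _ _ _ _ 0 γ l' cr o'
  refine h2 n _ _ _ _ 0 γ l' cr o' hA
    (mem_TI.2 (((mem_TI.1 hd).and (mem_TI.1 hA)).mono fun y a c t => ?_))
  have e := a.1 c t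
  rw [DS.det_frame _ (gg γ), val_sub, val_mul, val_pow, a.2 c t, zero_mul, zero_sub,
    neg_eq_zero] at e
  exact pow_eq_zero_iff two_ne_zero |>.1 e

end Pool.Agent.MP_ed9623_an.S64
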