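import Pool.Agent.MP_ed9623_an.S64.SpecG

/-! A nondegenerate touching point with horizontal tangent. -/

open Filter Topology Set

namespace Pool.Agent.MP_ed9623_an.S64

open H64

namespace GTP0

theorem const {f : SA ℝ} {a : ℝ} (h : ∀ᶠ s in 𝓝 a, (D 1 f).1 s = 0) :
    ∀ᶠ s in 𝓝 a, f.1 s = f.1 a := by
  obtain ⟨r, hr, h⟩ := Metric.eventually_nhds_iff_ball.1 h
  filter_upwards [Metric.ball_mem_nhds a hr] with s hs
  exact Metric.isOpen_ball.is_const_of_deriv_eq_zero (convex_ball a r).isPreconnected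
    (fun y _ => (hd_one f y).differentiableAt.differentiableWithinAt) h hs
    (Metric.mem_ball_self hr)

end GTP0

theorem rowTP0 : OfTP0 := by
  intro hT hS hO hA hB hD hC hH n α ψ O Z p Φ t hL hp hΦ h1 h2 hdet
  have a11 := hT n α ψ O Z p Φ 0 t hL hp hΦ h2 (by rw [h1, zero_mul, add_zero]) hdet
  have b11 : (DS.d 1 (DS.d 1 ψ)).1 (t, p) = 0 := by simpa [DR.BB] using a11
  have b12 : (DS.d 1 (DS.d 2 ψ)).1 (t, p) ≠ 0 := fun h => hdet (by simp [DR.det, b11, h])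
  obtain ⟨σ, s0, -, g₀, hg, hσ⟩ := hS ψ (t, p) 0 a11 (by simpa [DR.BB] using b12)
  have tp := (Continuous.prodMk_right t).tendsto p
  have nt : NT Z p (sl t σ) g₀ := by
    filter_upwards [tp.eventually hσ, tp.eventually (ev_ne hdet), hL.oO.mem_nhds hp] with q a b c
    exact fun Ψ c' k1 k2 k3 k4 => a c' (by rwa [sub_zero]) (hT n α ψ O Z q Ψ c' t hL c k1 k2 k3 b)
  obtain ⟨γ, c0, hγ⟩ := hO (sl t σ) p
  have crv := hB Z p _ γ g₀ hL.oZ hΦ.1 s0 hg nt hγ (hA Z p _ Φ γ g₀ hL.oZ hΦ h1 h2 s0 hg nt c0 hγ)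
  have g0 : deriv γ.1 p.1 = 0 := by
    rw [hγ.self_of_nhds, ← c0]
    exact s0
  have q0 : (DS.QQ ψ (gg γ)).1 (t, p) ≠ 0 := by simpa [DR.QQ, gg_val, g0] using b12
  have e2 : ∀ᶠ s in 𝓝 p.1, (D 1 (D 1 γ)).1 s = 0 :=
    ((tend_curve γ c0).eventually (crv.ev.and ((TI_ev (hD n α ψ O Z p γ hL crv hp)).and
      ((tp.eventually (ev_ne q0)).and (hL.oO.mem_nhds hp))))).mono fun s a =>
      hC n α ψ O Z (s, γ.1 s) γ t hL (a.1 rfl) a.2.2.2 a.2.1 a.2.2.1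
  have e1 := GTP0.const ((GTP0.const e2).mono fun s a => a.trans g0)
  have crv' : Crv Z p (cst p.2) := crv.congr (e1.mono fun s a => a.trans c0.symm)
  refine hH n α ψ O Z p t hL crv' hp ?_ b12
  simpa [gg_cst, DR.AA] using hD n α ψ O Z p _ hL crv' hp

end Pool.Agent.MP_ed9623_an.S64
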