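import Pool.Agent.MP_ed9623_an.S64.SpecG

/-! Unique continuation across a doubly characteristic curve. -/

open Filter Topology Set

namespace Pool.Agent.MP_ed9623_an.S64

open H64

namespace GUKs

theorem main (hL : LnES) {ς : ℝ} (hK : UKS ς) (hς : ς * ς = 1) {n : ℝ} {ψ q0 q : S3} {γ : SA ℝ}
    {z : ST} (hz : z.2.2 = γ.1 z.2.1) (hE : (DS.d 2 (DS.d 2 ψ)).1 z ≠ 0)
    (h0 : DS.det ψ - dd γ * q0 ∈ NI z) (hq : DS.QQ ψ (gg γ) - dd γ * q ∈ NI z)
    (hp : 0 < ς * q0.1 z) : UC n ψ γ z := by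
  intro α U hA hU
  obtain ⟨Ei, hEi⟩ := exists_inv hE
  have e1 : Ei.1 z ≠ 0 := fun e => by
    have := NI_val hEi
    simp [e] at this
  obtain ⟨r, hr, hr'⟩ := exists_sqrt (f := ς • (q0 * Ei ^ 2)) (z := z) (by
    rw [val_smul, val_mul, val_pow, ← mul_assoc]
    positivity)
  obtain ⟨ri, hri⟩ := exists_inv hr.ne'
  obtain ⟨W, hW, hW'⟩ := (((h0.and hq).and ((hEi.and hr').and hri)).and
    (hA.oU.mem_nhds hU)).exists_mem
  obtain ⟨R, _, _, D, X, L, res, hd, hLA, hLd, hZ, hF, hV⟩ := hL γ z W hz hW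
  have mA : ∀ f, res f ∈ L.A := fun f => hLA ▸ ⟨f, rfl⟩
  have a0 := hZ _ fun y c => (hW' y c).1.1.1
  have a1 := hZ _ fun y c => (hW' y c).1.1.2
  have a2 := hZ _ fun y c => (hW' y c).1.2.1.1
  have a3 := hZ _ fun y c => (hW' y c).1.2.1.2
  have a4 := hZ _ fun y c => (hW' y c).1.2.2
  have a5 : res (DS.LL ψ α) = 0 := hZ _ fun y c => by
    have b : ∀ j, j ≠ 0 → DS.eW α ψ j ∈ NI y := fun j hj =>
      mem_of_superset (hA.oU.mem_nhds (hW' y c).2) (hA.eW j hj)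
    have b1 := congrArg (fun f : S3 => f.1 y) (DS.LL_eq α ψ)
    simp only [val_mul, val_sub, val_ofNat, NI_val (NI_d (b 2 (by decide)) 1),
      NI_val (NI_d (b 1 (by decide)) 2)] at b1
    linarith
  have g1 : -D.d 1 L.d = res (gg γ) := by rw [hLd, ← hd, ← map_neg, d1_dd]
  simp only [DR.LL, DR.T2, DR.det, DR.QQ, map_add, map_mul, map_sub, map_smul, map_pow, map_ofNat,
    map_one, hd, ← hLd] at a0 a1 a2 a3 a4 a5
  obtain ⟨M, hM⟩ := hK L (res ψ) (res α) (res Ei) (res q) (res r) (res ri) (mA _)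
    (hF α fun y c => hA.za y (hW' y c).2) (mA _) (mA _) (mA _) (mA _) a5 (sub_eq_zero.1 a2)
    (sub_eq_zero.1 a4) (by rw [g1]; exact sub_eq_zero.1 a1) (by
      rw [sub_eq_zero.1 a3, ← mul_smul_comm, smul_smul, hς, one_smul, DR.det, sub_eq_zero.1 a0,
        mul_assoc])
  exact ⟨z.1, hA.gz hU (hV _ M fun x c => by rw [hd]; exact (hM x c).1)
    (hV _ M fun x c => by rw [hd]; exact (hM x c).2)⟩

end GUKs

theorem rowUKs : OfUKs := by
  intro hL hD h1 h2 n ψ γ z hz hE hQ hdet hd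
  obtain ⟨q0, a0, b0⟩ := hD γ z 1 (DS.det ψ) hz fun i hi => by
    rw [Nat.lt_one_iff.1 hi]
    exact hdet
  obtain ⟨q, a1, -⟩ := hD γ z 1 (DS.QQ ψ (gg γ)) hz fun i hi => by
    rw [Nat.lt_one_iff.1 hi]
    exact hQ
  rw [pow_one] at a0 a1
  have c : q0.1 z ≠ 0 := fun e => hd (by simpa [e] using b0.symm)
  rcases lt_or_gt_of_ne c with c | c
  · exact GUKs.main hL h2 (by norm_num) hz hE a0 a1 (by linarith)
  · exact GUKs.main hL h1 (by norm_num) hz hE a0 a1 (by linarith)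

end Pool.Agent.MP_ed9623_an.S64
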