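import Pool.Agent.MP_ed9623_an.S64.Alg
import Pool.Agent.MP_ed9623_an.H64.Time1
import Pool.Agent.MP_ed9623_an.H64.Ext

/-! Smooth functions of time and of a point of the plane, curves and vanishing ideals. -/

open Filter Topology Set
open scoped ContDiff

namespace Pool.Agent.MP_ed9623_an.S64

open H64

section gen
variable {E E' : Type} [NormedAddCommGroup E] [NormedSpace ℝ E] [NormedAddCommGroup E']
  [NormedSpace ℝ E']

/-- Evaluation. -/
noncomputable def evS (z : E) : SA E →ₐ[ℝ] ℝ :=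
  (Pi.evalAlgHom ℝ (fun _ => ℝ) z).comp (SAsub E).val

theorem evS_apply (z : E) (f : SA E) : evS z f = f.1 z := rfl
@[simp] theorem val_add (f g : SA E) (z : E) : (f + g).1 z = f.1 z + g.1 z := rfl
@[simp] theorem val_sub (f g : SA E) (z : E) : (f - g).1 z = f.1 z - g.1 z := rfl
@[simp] theorem val_mul (f g : SA E) (z : E) : (f * g).1 z = f.1 z * g.1 z := rfl
@[simp] theorem val_neg (f : SA E) (z : E) : (-f).1 z = -f.1 z := rfl
@[simp] theorem val_smul (c : ℝ) (f : SA E) (z : E) : (c • f).1 z = c * f.1 z := rfl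
@[simp] theorem val_pow (f : SA E) (k : ℕ) (z : E) : (f ^ k).1 z = f.1 z ^ k := map_pow (evS z) f k
@[simp] theorem val_zero (z : E) : (0 : SA E).1 z = 0 := rfl
@[simp] theorem val_one (z : E) : (1 : SA E).1 z = 1 := rfl
@[simp] theorem val_alg (c : ℝ) (z : E) : (algebraMap ℝ (SA E) c).1 z = c := rfl
@[simp] theorem val_natCast (k : ℕ) (z : E) : (k : SA E).1 z = k := map_natCast (evS z) k
@[simp] theorem val_ofNat (k : ℕ) [k.AtLeastTwo] (z : E) :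
    (no_index (OfNat.ofNat k : SA E)).1 z = OfNat.ofNat k := map_ofNat (evS z) k

/-- A smooth function as an element of the algebra. -/
noncomputable def mkS (f : E → ℝ) (h : ContDiff ℝ ∞ f) : SA E := ⟨f, h⟩

theorem mkS_val (f : E → ℝ) (h : ContDiff ℝ ∞ f) : (mkS f h).1 = f := rfl

theorem SA_ext {f g : SA E} (h : ∀ z, f.1 z = g.1 z) : f = g := Subtype.ext (funext h)

/-- Composition with a smooth map. -/
noncomputable def pb (φ : E → E') (hφ : ContDiff ℝ ∞ φ) : SA E' →ₐ[ℝ] SA E where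
  toFun f := ⟨fun z => f.1 (φ z), f.sm.comp hφ⟩
  map_one' := rfl
  map_mul' _ _ := rfl
  map_zero' := rfl
  map_add' _ _ := rfl
  commutes' _ := rfl

theorem hd_comp (f : SA E) {c : ℝ → E} {v : E} {r : ℝ} (h : HasDerivAt c v r) :
    HasDerivAt (fun s => f.1 (c s)) ((D v f).1 (c r)) r :=
  (cdg_diff (f.cd 1) le_rfl (c r)).hasFDerivAt.comp_hasDerivAt r h

theorem D_pb {φ : E → E'} (hφ : ContDiff ℝ ∞ φ) (f : SA E') {e z : E} {v : E'}
    (h : HasDerivAt (fun s : ℝ => φ (z + s • e)) v 0) : (D e (pb φ hφ f)).1 z = (D v f).1 (φ z) := by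
  refine HD.pd_eq ?_ (cdg_diff ((pb φ hφ f).cd 1) le_rfl z)
  have := hd_comp f h
  rwa [zero_smul, add_zero] at this

theorem D1_val (γ : SA ℝ) (s : ℝ) : (D 1 γ).1 s = deriv γ.1 s := rfl

theorem hd_one (γ : SA ℝ) (s : ℝ) : HasDerivAt γ.1 ((D 1 γ).1 s) s := hd_comp γ (hasDerivAt_id s)

/-- Functions which vanish along a filter. -/
noncomputable def FI (l : Filter E) : Ideal (SA E) where
  carrier := {f | ∀ᶠ z in l, f.1 z = 0}
  add_mem' a b := (a.and b).mono fun z h => by rw [val_add, h.1, h.2, add_zero]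
  zero_mem' := Eventually.of_forall fun _ => rfl
  smul_mem' c f a := Eventually.mono a fun z h => by rw [smul_eq_mul, val_mul, h, mul_zero]

theorem mem_FI {l : Filter E} {f : SA E} : f ∈ FI l ↔ ∀ᶠ z in l, f.1 z = 0 := Iff.rfl

theorem FI_mono {l l' : Filter E} (h : l ≤ l') : FI l' ≤ FI l := fun _ a => h a

theorem FI_D {z : E} {f : SA E} (h : f ∈ FI (𝓝 z)) (e : E) : D e f ∈ FI (𝓝 z) :=
  pd_zero_on_open e h

theorem FI_ev {z : E} {f : SA E} (h : f ∈ FI (𝓝 z)) : ∀ᶠ y in 𝓝 z, f ∈ FI (𝓝 y) :=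
  h.eventually_nhds

theorem ev_ne {z : E} {f : SA E} (h : f.1 z ≠ 0) : ∀ᶠ y in 𝓝 z, f.1 y ≠ 0 :=
  f.ct.continuousAt.eventually_ne h

/-- A function which is smooth near a point agrees there with a smooth function. -/
theorem glob [FiniteDimensional ℝ E] {f : E → ℝ} {z : E} (hf : ∀ᶠ y in 𝓝 z, ContDiffAt ℝ ∞ f y) :
    ∃ g : SA E, g.1 =ᶠ[𝓝 z] f := by
  obtain ⟨r, hr, hrf⟩ := Metric.eventually_nhds_iff_ball.1 hf
  let b : ContDiffBump z := ⟨r / 3, r / 2, by positivity, by linarith⟩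
  refine ⟨mkS (fun y => b y * f y) (contDiff_iff_contDiffAt.2 fun y => ?_), ?_⟩
  · by_cases hy : y ∈ Metric.ball z r
    · exact b.contDiff.contDiffAt.mul (hrf y hy)
    · have : y ∉ tsupport b := by
        rw [b.tsupport_eq]
        exact fun h => hy (Metric.closedBall_subset_ball (by simp only [b]; linarith) h)
      refine (contDiffAt_const (c := (0 : ℝ))).congr_of_eventuallyEq ?_
      filter_upwards [notMem_tsupport_iff_eventuallyEq.1 this] with w hw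
      rw [hw]; simp
  · filter_upwards [b.eventuallyEq_one] with y hy
    change b y * f y = f y
    rw [hy]; simp

theorem exists_inv [FiniteDimensional ℝ E] {f : SA E} {z : E} (h : f.1 z ≠ 0) :
    ∃ g : SA E, f * g - 1 ∈ FI (𝓝 z) := by
  obtain ⟨g, hg⟩ := glob (f := fun y => (f.1 y)⁻¹) ((ev_ne h).mono fun y a => f.sm.contDiffAt.inv a)
  exact ⟨g, (hg.and (ev_ne h)).mono fun y a => by simp [a.1, a.2]⟩

theorem exists_sqrt [FiniteDimensional ℝ E] {f : SA E} {z : E} (h : 0 < f.1 z) :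
    ∃ g : SA E, 0 < g.1 z ∧ g ^ 2 - f ∈ FI (𝓝 z) := by
  obtain ⟨g, hg⟩ := glob (f := fun y => √(f.1 y))
    ((ev_ne h.ne').mono fun y a => f.sm.contDiffAt.sqrt a)
  refine ⟨g, by rw [hg.self_of_nhds]; exact Real.sqrt_pos.2 h,
    (hg.and (continuousAt_const.eventually_lt f.ct.continuousAt h)).mono fun y a => ?_⟩
  rw [val_sub, val_pow, a.1, Real.sq_sqrt a.2.le, sub_self]

/-- The inverse of `1 + σ ^ 2`. -/
noncomputable def nsq (σ : SA E) : SA E :=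
  ⟨fun z => (1 + σ.1 z ^ 2)⁻¹, (contDiff_const.add (σ.sm.pow 2)).inv fun _ => by positivity⟩

theorem nsq_inv (σ : SA E) : (1 + σ ^ 2) * nsq σ = 1 := SA_ext fun z => by
  rw [val_mul, val_add, val_pow]
  exact mul_inv_cancel₀ (by change 1 + σ.1 z ^ 2 ≠ 0; positivity)

end gen

/-- Smooth functions of `(t, x₁, x₂)`. -/
abbrev S3 : Type := SA ST

def EE : Fin 3 → ST := ![e0, e1, e2]

/-- The three partial derivatives. -/
noncomputable def DS : DR S3 := ⟨fun i => D (EE i), fun _ => D_mul _, fun _ _ => D_comm _ _⟩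

theorem DS_val (i : Fin 3) (f : S3) : (DS.d i f).1 = pd (EE i) f.1 := rfl
theorem DS0 : DS.d 0 = D e0 := rfl
theorem DS1 : DS.d 1 = D e1 := rfl
theorem DS2 : DS.d 2 = D e2 := rfl
theorem sl_val (t : ℝ) (f : S3) (x : PP) : (sl t f).1 x = f.1 (t, x) := rfl
theorem sl_d1 (t : ℝ) (f : S3) : d1 (sl t f) = sl t (DS.d 1 f) := (sl_e1 t f).symm
theorem sl_d2 (t : ℝ) (f : S3) : d2 (sl t f) = sl t (DS.d 2 f) := (sl_e2 t f).symm

theorem D_dir (v : ST) (f : S3) (z : ST) : (D v f).1 z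
    = v.1 * (DS.d 0 f).1 z + v.2.1 * (DS.d 1 f).1 z + v.2.2 * (DS.d 2 f).1 z := by
  simp only [DS_val, D_val, ← pd_smul_dir, ← pd_add_dir]
  congr 1
  simp [EE]

theorem D_dir2 (v : PP) (f : SA PP) (z : PP) : (D v f).1 z = v.1 * (d1 f).1 z + v.2 * (d2 f).1 z := by
  simp only [D_val, ← pd_smul_dir, ← pd_add_dir]
  congr 1
  simp

theorem hd_time (f : S3) (t : ℝ) (x : PP) :
    HasDerivAt (fun s => f.1 (s, x)) ((DS.d 0 f).1 (t, x)) t :=
  hd_comp f ((hasDerivAt_id t).prodMk (hasDerivAt_const t x))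

theorem hd_x1 (f : S3) (t s y : ℝ) :
    HasDerivAt (fun r => f.1 (t, r, y)) ((DS.d 1 f).1 (t, s, y)) s :=
  hd_comp f ((hasDerivAt_const s t).prodMk ((hasDerivAt_id s).prodMk (hasDerivAt_const s y)))

theorem hd_x2 (f : S3) (t s y : ℝ) :
    HasDerivAt (fun r => f.1 (t, s, r)) ((DS.d 2 f).1 (t, s, y)) y :=
  hd_comp f ((hasDerivAt_const y t).prodMk ((hasDerivAt_const y s).prodMk (hasDerivAt_id y)))

/-- A function of the time, of the first or of the second coordinate. -/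
noncomputable def tf : SA ℝ →ₐ[ℝ] S3 := pb (fun z => z.1) contDiff_fst
noncomputable def lf : SA ℝ →ₐ[ℝ] S3 := pb (fun z => z.2.1) (by fun_prop)
noncomputable def rf : SA ℝ →ₐ[ℝ] S3 := pb (fun z => z.2.2) (by fun_prop)
/-- The identity. -/
noncomputable def idS : SA ℝ := mkS id contDiff_id

theorem D_idS : D 1 idS = 1 := SA_ext fun s => deriv_id s

theorem d_lin {φ : ST → ℝ} (hφ : ContDiff ℝ ∞ φ) (γ : SA ℝ) (i : Fin 3)
    (h : ∀ (z : ST) (s : ℝ), φ (z + s • EE i) = φ z + s * φ (EE i)) :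
    DS.d i (pb φ hφ γ) = φ (EE i) • pb φ hφ (D 1 γ) := SA_ext fun z => by
  refine (D_pb hφ γ (v := φ (EE i)) ?_).trans ?_
  · simp only [h]
    simpa using ((hasDerivAt_id (0 : ℝ)).mul_const (φ (EE i))).const_add (φ z)
  · rw [← mul_one (φ (EE i)), ← smul_eq_mul (φ (EE i)) 1, D_val, pd_smul_dir, smul_eq_mul, mul_one]
    rfl

theorem d_tf (γ : SA ℝ) (i : Fin 3) : DS.d i (tf γ) = (EE i).1 • tf (D 1 γ) :=
  d_lin _ γ i fun _ _ => rfl
theorem d_lf (γ : SA ℝ) (i : Fin 3) : DS.d i (lf γ) = (EE i).2.1 • lf (D 1 γ) :=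
  d_lin _ γ i fun _ _ => rfl
theorem d_rf (γ : SA ℝ) (i : Fin 3) : DS.d i (rf γ) = (EE i).2.2 • rf (D 1 γ) :=
  d_lin _ γ i fun _ _ => rfl
theorem d0_lf (γ : SA ℝ) : DS.d 0 (lf γ) = 0 := (d_lf γ 0).trans (zero_smul _ _)
theorem d1_lf (γ : SA ℝ) : DS.d 1 (lf γ) = lf (D 1 γ) := (d_lf γ 1).trans (one_smul _ _)
theorem d2_lf (γ : SA ℝ) : DS.d 2 (lf γ) = 0 := (d_lf γ 2).trans (zero_smul _ _)

/-- The height above the curve `x₂ = γ x₁`, and the slope of the curve. -/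
noncomputable def dd (γ : SA ℝ) : S3 := rf idS - lf γ
noncomputable def gg (γ : SA ℝ) : S3 := lf (D 1 γ)
/-- A horizontal line. -/
noncomputable def cst (c : ℝ) : SA ℝ := algebraMap ℝ _ c

theorem dd_val (γ : SA ℝ) (z : ST) : (dd γ).1 z = z.2.2 - γ.1 z.2.1 := rfl
theorem gg_val (γ : SA ℝ) (z : ST) : (gg γ).1 z = deriv γ.1 z.2.1 := rfl
theorem cst_val (c s : ℝ) : (cst c).1 s = c := rfl
theorem gg_cst (c : ℝ) : gg (cst c) = 0 := SA_ext fun z => deriv_const _ c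
theorem d0_dd (γ : SA ℝ) : DS.d 0 (dd γ) = 0 := by
  rw [dd, map_sub, d0_lf, d_rf]; simp [EE]
theorem d1_dd (γ : SA ℝ) : -DS.d 1 (dd γ) = gg γ := by
  rw [dd, map_sub, d1_lf, d_rf]; simp [EE, gg]
theorem d2_dd (γ : SA ℝ) : DS.d 2 (dd γ) = 1 := by
  rw [dd, map_sub, d2_lf, d_rf, D_idS]; simp [EE]
theorem d0_gg (γ : SA ℝ) : DS.d 0 (gg γ) = 0 := d0_lf _
theorem d1_gg (γ : SA ℝ) : DS.d 1 (gg γ) = gg (D 1 γ) := d1_lf _
theorem d2_gg (γ : SA ℝ) : DS.d 2 (gg γ) = 0 := d2_lf _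

/-- The derivative along the curve. -/
theorem hd_curve (γ : SA ℝ) (f : S3) (t s : ℝ) : HasDerivAt (fun r => f.1 (t, r, γ.1 r))
    ((DS.XX (gg γ) f).1 (t, s, γ.1 s)) s := by
  refine (hd_comp f ((hasDerivAt_const s t).prodMk ((hasDerivAt_id s).prodMk
    (hd_one γ s)))).congr_deriv ?_
  rw [D_dir]
  simp [DR.XX, gg_val, D1_val]

/-- Functions which vanish near `z`. -/
noncomputable abbrev NI (z : ST) : Ideal S3 := FI (𝓝 z)
/-- Functions which vanish on the curve, near `z`. -/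
noncomputable def VI (γ : SA ℝ) (z : ST) : Ideal S3 := FI (𝓝[{y | y.2.2 = γ.1 y.2.1}] z)
/-- Functions which vanish on and below the curve, near `z`. -/
noncomputable def LJ (γ : SA ℝ) (z : ST) : Ideal S3 := FI (𝓝[{y | y.2.2 ≤ γ.1 y.2.1}] z)
/-- Functions which vanish on the curve near `p`, at all times. -/
noncomputable def TI (γ : SA ℝ) (p : PP) : Ideal S3 := FI (comap Prod.snd (𝓝[{x | x.2 = γ.1 x.1}] p))
/-- Functions which vanish on and below the curve near `p`, at all times. -/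
noncomputable def LI (γ : SA ℝ) (p : PP) : Ideal S3 := FI (comap Prod.snd (𝓝[{x | x.2 ≤ γ.1 x.1}] p))
/-- Functions which are flat at `z`. -/
noncomputable def FL (z : ST) : Ideal S3 where
  carrier := {f | ∀ l, (DS.w l f).1 z = 0}
  add_mem' a b l := by rw [DS.w_add, val_add, a l, b l, add_zero]
  zero_mem' l := by rw [DS.w_zero]; rfl
  smul_mem' c f a l := DS.w_mul_mem (S := univ) (T := {f | f.1 z = 0}) (U := {f | f.1 z = 0})
    (fun a (h : a.1 z = 0) b (k : b.1 z = 0) => show _ + _ = (0 : ℝ) by rw [h, k, add_zero])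
    (fun a _ b (k : b.1 z = 0) => show _ * _ = (0 : ℝ) by rw [k, mul_zero]) l c f (fun _ => trivial) a

section ideals
variable {γ : SA ℝ} {z : ST} {p : PP} {f : S3}

theorem mem_VI : f ∈ VI γ z ↔ ∀ᶠ y in 𝓝 z, y.2.2 = γ.1 y.2.1 → f.1 y = 0 :=
  eventually_nhdsWithin_iff
theorem mem_LJ : f ∈ LJ γ z ↔ ∀ᶠ y in 𝓝 z, y.2.2 ≤ γ.1 y.2.1 → f.1 y = 0 :=
  eventually_nhdsWithin_iff
theorem mem_cm {S : Set PP} : f ∈ FI (comap Prod.snd (𝓝[S] p)) ↔
    ∀ᶠ x in 𝓝 p, x ∈ S → ∀ t, f.1 (t, x) = 0 := by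
  rw [mem_FI, eventually_comap, eventually_nhdsWithin_iff]
  exact eventually_congr (Eventually.of_forall fun x => forall_congr' fun _ =>
    ⟨fun h t => h _ rfl, fun h y e => by subst e; exact h y.1⟩)
theorem mem_TI : f ∈ TI γ p ↔ ∀ᶠ x in 𝓝 p, x.2 = γ.1 x.1 → ∀ t, f.1 (t, x) = 0 := mem_cm
theorem mem_LI : f ∈ LI γ p ↔ ∀ᶠ x in 𝓝 p, x.2 ≤ γ.1 x.1 → ∀ t, f.1 (t, x) = 0 := mem_cm
theorem mem_FL : f ∈ FL z ↔ ∀ l, (DS.w l f).1 z = 0 := Iff.rfl

theorem NI_d (h : f ∈ NI z) (i : Fin 3) : DS.d i f ∈ NI z := FI_D h _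
theorem NI_val (h : f ∈ NI z) : f.1 z = 0 := h.self_of_nhds
theorem NI_LJ (h : f ∈ NI z) : f ∈ LJ γ z := FI_mono nhdsWithin_le_nhds h
theorem NI_VI (h : f ∈ NI z) : f ∈ VI γ z := FI_mono nhdsWithin_le_nhds h
theorem LJ_VI (h : f ∈ LJ γ z) : f ∈ VI γ z := FI_mono (nhdsWithin_mono _ fun _ a => le_of_eq a) h
theorem LI_TI (h : f ∈ LI γ p) : f ∈ TI γ p :=
  FI_mono (comap_mono (nhdsWithin_mono _ fun _ a => le_of_eq a)) h
theorem TI_VI (h : f ∈ TI γ p) (t : ℝ) : f ∈ VI γ (t, p) :=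
  mem_VI.2 ((continuous_snd.tendsto (t, p)).eventually (mem_TI.1 h) |>.mono fun y a b => a b y.1)
theorem LI_LJ (h : f ∈ LI γ p) (t : ℝ) : f ∈ LJ γ (t, p) :=
  mem_LJ.2 ((continuous_snd.tendsto (t, p)).eventually (mem_LI.1 h) |>.mono fun y a b => a b y.1)
theorem VI_val (h : f ∈ VI γ z) (c : z.2.2 = γ.1 z.2.1) : f.1 z = 0 := (mem_VI.1 h).self_of_nhds c
theorem TI_val (h : f ∈ TI γ p) (c : p.2 = γ.1 p.1) (t : ℝ) : f.1 (t, p) = 0 :=
  (mem_TI.1 h).self_of_nhds c t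
theorem VI_ev (h : f ∈ VI γ z) : ∀ᶠ y in 𝓝 z, f ∈ VI γ y :=
  (mem_VI.1 h).eventually_nhds.mono fun _ => mem_VI.2
theorem LJ_ev (h : f ∈ LJ γ z) : ∀ᶠ y in 𝓝 z, f ∈ LJ γ y :=
  (mem_LJ.1 h).eventually_nhds.mono fun _ => mem_LJ.2
theorem TI_ev (h : f ∈ TI γ p) : ∀ᶠ x in 𝓝 p, f ∈ TI γ x :=
  (mem_TI.1 h).eventually_nhds.mono fun _ => mem_TI.2
theorem LI_ev (h : f ∈ LI γ p) : ∀ᶠ x in 𝓝 p, f ∈ LI γ x :=
  (mem_LI.1 h).eventually_nhds.mono fun _ => mem_LI.2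
theorem dd_VI : dd γ ∈ VI γ z := mem_VI.2 (Eventually.of_forall fun _ h => sub_eq_zero.2 h)
theorem FL_d (h : f ∈ FL z) (i : Fin 3) : DS.d i f ∈ FL z := fun l => h (i :: l)
theorem FL_val (h : f ∈ FL z) : f.1 z = 0 := h []

theorem tend_curve (γ : SA ℝ) (c : p.2 = γ.1 p.1) :
    Tendsto (fun s => ((s, γ.1 s) : PP)) (𝓝 p.1) (𝓝 p) :=
  (continuous_id.prodMk γ.ct).tendsto' _ _ (Prod.ext rfl c.symm)

theorem VI_time (h : f ∈ VI γ z) (c : z.2.2 = γ.1 z.2.1) : ∀ᶠ t in 𝓝 z.1, f.1 (t, z.2) = 0 :=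
  ((Continuous.prodMk_left z.2).tendsto z.1).eventually (mem_VI.1 h) |>.mono fun _ a => a c

theorem VI_d0 (h : f ∈ VI γ z) : DS.d 0 f ∈ VI γ z := mem_VI.2 ((VI_ev h).mono fun y a c =>
  (hd_time f y.1 y.2).unique ((hasDerivAt_const _ _).congr_of_eventuallyEq (VI_time a c)))

theorem VI_X (h : f ∈ VI γ z) : DS.XX (gg γ) f ∈ VI γ z := mem_VI.2 ((VI_ev h).mono fun y a c => by
  have e : y = (y.1, y.2.1, γ.1 y.2.1) := Prod.ext rfl (Prod.ext rfl c)
  rw [e]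
  exact (hd_curve γ f y.1 y.2.1).unique ((hasDerivAt_const _ _).congr_of_eventuallyEq
    ((((Continuous.prodMk_right y.1).tendsto y.2).comp (tend_curve γ c)).eventually
      (mem_VI.1 a) |>.mono fun _ b => b rfl)))

theorem TI_of (h : ∀ᶠ x in 𝓝 p, x.2 = γ.1 x.1 → ∀ t, f ∈ VI γ (t, x)) : f ∈ TI γ p :=
  mem_TI.2 (h.mono fun _ a c t => VI_val (a c t) c)
theorem TI_d0 (h : f ∈ TI γ p) : DS.d 0 f ∈ TI γ p :=
  TI_of ((TI_ev h).mono fun _ a _ t => VI_d0 (TI_VI a t))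
theorem TI_X (h : f ∈ TI γ p) : DS.XX (gg γ) f ∈ TI γ p :=
  TI_of ((TI_ev h).mono fun _ a _ t => VI_X (TI_VI a t))

/-- A function which vanishes on an open set is flat on the closure. -/
theorem FL_of {S : Set ST} (hS : IsOpen S) (hz : z ∈ closure S)
    (h : ∀ᶠ y in 𝓝 z, y ∈ S → f.1 y = 0) : f ∈ FL z := fun l => by
  refine eq_zero_of_closure (DS.w l f).ct.continuousAt hz (h.eventually_nhds.mono fun y a b => ?_)
  exact NI_val (DS.w_mem (S := NI y) (fun i f c => NI_d c i) l f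
    ((a.and (hS.mem_nhds b)).mono fun _ c => c.1 c.2))

theorem NI_FL (h : f ∈ NI z) : f ∈ FL z :=
  FL_of isOpen_univ (subset_closure trivial) (Eventually.mono h fun _ a _ => a)

theorem isOpen_below (γ : SA ℝ) : IsOpen {x : PP | x.2 < γ.1 x.1} :=
  isOpen_lt continuous_snd (γ.ct.comp continuous_fst)

theorem freq_below (c : p.2 ≤ γ.1 p.1) : ∃ᶠ x in 𝓝 p, x.2 < γ.1 x.1 :=
  ((Continuous.prodMk_right p.1).tendsto p.2).frequently
    ((frequently_lt_nhds p.2).mono fun _ a => a.trans_le c)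

theorem freq_above (c : γ.1 p.1 ≤ p.2) : ∃ᶠ x in 𝓝 p, γ.1 x.1 < x.2 :=
  ((Continuous.prodMk_right p.1).tendsto p.2).frequently
    ((frequently_gt_nhds p.2).mono fun _ a => c.trans_lt a)

theorem freq_below3 (c : z.2.2 ≤ γ.1 z.2.1) : ∃ᶠ y in 𝓝 z, y.2.2 < γ.1 y.2.1 :=
  ((Continuous.prodMk_right z.1).tendsto z.2).frequently (freq_below c)

/-- A function which vanishes below the curve is flat on the curve. -/
theorem FL_below (h : ∀ᶠ y in 𝓝 z, y.2.2 < γ.1 y.2.1 → f.1 y = 0) :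
    ∀ᶠ y in 𝓝 z, y.2.2 ≤ γ.1 y.2.1 → f ∈ FL y := h.eventually_nhds.mono fun _ a c =>
  FL_of ((isOpen_below γ).preimage continuous_snd) (mem_closure_iff_frequently.2 (freq_below3 c)) a

theorem LJ_of (h : ∀ᶠ y in 𝓝 z, y.2.2 < γ.1 y.2.1 → f.1 y = 0) : f ∈ LJ γ z :=
  mem_LJ.2 ((FL_below h).mono fun _ a c => FL_val (a c))

theorem LJ_d (h : f ∈ LJ γ z) (i : Fin 3) : DS.d i f ∈ LJ γ z :=
  mem_LJ.2 ((FL_below ((mem_LJ.1 h).mono fun _ a c => a c.le)).mono fun _ a c => a c [i])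

theorem LI_of (h : ∀ᶠ x in 𝓝 p, x.2 < γ.1 x.1 → ∀ t, f.1 (t, x) = 0) (l : List (Fin 3)) :
    DS.w l f ∈ LI γ p := mem_LI.2 (h.eventually_nhds.mono fun x a c t => (FL_below
  (((continuous_snd.tendsto (t, x)).eventually a).mono fun y b e => b e y.1)).self_of_nhds c l)

theorem LI_d (h : f ∈ LI γ p) (i : Fin 3) : DS.d i f ∈ LI γ p :=
  LI_of ((mem_LI.1 h).mono fun _ a c => a c.le) [i]

end ideals

/-- The operator `∂ₜ ^ 2 + n`. -/
noncomputable def Sn (n : ℝ) (f : S3) : S3 := DS.d 0 (DS.d 0 f) + n • f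

section sn
variable {n : ℝ} {f g : S3} {x : PP}

theorem Sn_yy (ψ : S3) (j : Fin 3) : Sn n (DS.d j ψ) = DS.yy n ψ j := rfl
theorem Sn_d (i : Fin 3) (f : S3) : Sn n (DS.d i f) = DS.d i (Sn n f) := by
  rw [Sn, Sn, map_add, map_smul, DS.comm 0 i, DS.comm 0 i]
theorem Sn_add (f g : S3) : Sn n (f + g) = Sn n f + Sn n g := by
  simp only [Sn, map_add, smul_add]; ring
theorem Sn_sub (f g : S3) : Sn n (f - g) = Sn n f - Sn n g := by
  simp only [Sn, map_sub, smul_sub]; ring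
theorem Sn_smul (c : ℝ) (f : S3) : Sn n (c • f) = c • Sn n f := by
  simp only [Sn, map_smul, smul_add, smul_comm c n]
theorem Sn_mul (h : DS.d 0 g = 0) (f : S3) : Sn n (g * f) = g * Sn n f := by
  simp only [Sn, DS.mul, h, zero_mul, zero_add, mul_add, mul_smul_comm]

theorem time_const (h : ∀ t, (DS.d 0 f).1 (t, x) = 0) (t s : ℝ) : f.1 (t, x) = f.1 (s, x) :=
  is_const_of_deriv_eq_zero (fun t => (hd_time f t x).differentiableAt)
    (fun t => (hd_time f t x).deriv.trans (h t)) t s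

theorem bk_const (hf : ∀ t, (Sn n f).1 (t, x) = 0) (hg : ∀ t, (Sn n g).1 (t, x) = 0) (t s : ℝ) :
    (DS.bk f g).1 (t, x) = (DS.bk f g).1 (s, x) := time_const (fun r => by
  have a := hf r
  have b := hg r
  simp only [Sn, DR.bk, map_sub, DS.mul, val_add, val_sub, val_mul, val_smul] at a b ⊢
  linear_combination f.1 (r, x) * b - g.1 (r, x) * a) t s

theorem ip_const (hf : ∀ t, (Sn n f).1 (t, x) = 0) (hg : ∀ t, (Sn n g).1 (t, x) = 0) (t s : ℝ) :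
    (DS.ip n f g).1 (t, x) = (DS.ip n f g).1 (s, x) := time_const (fun r => by
  have a := hf r
  have b := hg r
  simp only [Sn, DR.ip, map_add, map_smul, DS.mul, val_add, val_mul, val_smul] at a b ⊢
  linear_combination (DS.d 0 f).1 (r, x) * b + (DS.d 0 g).1 (r, x) * a) t s

theorem ip_val (f g : S3) (z : ST) :
    (DS.ip n f g).1 z = n * (f.1 z * g.1 z) + (DS.d 0 f).1 z * (DS.d 0 g).1 z := rfl
theorem bk_val (f g : S3) (z : ST) :
    (DS.bk f g).1 z = f.1 z * (DS.d 0 g).1 z - (DS.d 0 f).1 z * g.1 z := rfl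

theorem ip_nonneg (hn : 0 < n) (f : S3) (z : ST) : 0 ≤ (DS.ip n f f).1 z := by
  rw [ip_val]; nlinarith [mul_self_nonneg (f.1 z), mul_self_nonneg ((DS.d 0 f).1 z)]

theorem ip_pos (hn : 0 < n) {z : ST} (h : f.1 z ≠ 0) : 0 < (DS.ip n f f).1 z := by
  rw [ip_val]; nlinarith [mul_self_pos.2 h, mul_self_nonneg ((DS.d 0 f).1 z)]

/-- A sinusoid of zero amplitude vanishes. -/
theorem sin_zero (hn : 0 < n) (hf : ∀ t, (Sn n f).1 (t, x) = 0) {s : ℝ}
    (h : (DS.ip n f f).1 (s, x) = 0) (t : ℝ) : f.1 (t, x) = 0 := by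
  by_contra a
  exact (ip_pos hn a).ne' ((ip_const hf hf t s).trans h)

/-- A sinusoid which vanishes on an interval vanishes. -/
theorem sin_ext (hn : 0 < n) (hf : ∀ t, (Sn n f).1 (t, x) = 0) {s : ℝ}
    (h : ∀ᶠ t in 𝓝 s, f.1 (t, x) = 0) : ∀ t, f.1 (t, x) = 0 := sin_zero hn hf (s := s) (by
  rw [ip_val, h.self_of_nhds,
    (hd_time f s x).unique ((hasDerivAt_const _ _).congr_of_eventuallyEq h)]
  simp)

theorem VI_TI {γ : SA ℝ} {p : PP} {t : ℝ} (hn : 0 < n) (hf : Sn n f ∈ TI γ p)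
    (h : f ∈ VI γ (t, p)) : f ∈ TI γ p := mem_TI.2 (((mem_TI.1 hf).and
  (((Continuous.prodMk_right t).tendsto p).eventually (VI_ev h))).mono fun _ a c =>
    sin_ext hn (a.1 c) (VI_time a.2 c))

end sn

/-- The rigid motion with centre `p` and direction `τ`. -/
def mv (p τ x : PP) : PP := (p.1 + τ.1 * x.1 - τ.2 * x.2, p.2 + τ.2 * x.1 + τ.1 * x.2)

theorem sm_mv (p τ : PP) : ContDiff ℝ ∞ (mv p τ) := by unfold mv; fun_prop
theorem mv_zero (p τ : PP) : mv p τ 0 = p := by simp [mv]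

/-- The motion as a homeomorphism. -/
noncomputable def mvH (p τ : PP) (h : τ.1 ^ 2 + τ.2 ^ 2 = 1) : PP ≃ₜ PP where
  toFun := mv p τ
  invFun q := (τ.1 * (q.1 - p.1) + τ.2 * (q.2 - p.2), τ.1 * (q.2 - p.2) - τ.2 * (q.1 - p.1))
  left_inv x := Prod.ext (by simp only [mv]; linear_combination x.1 * h)
    (by simp only [mv]; linear_combination x.2 * h)
  right_inv q := Prod.ext (by simp only [mv]; linear_combination (q.1 - p.1) * h)
    (by simp only [mv]; linear_combination (q.2 - p.2) * h)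
  continuous_toFun := (sm_mv p τ).continuous
  continuous_invFun := by fun_prop

/-- Composition with the motion. -/
noncomputable def cp (p τ : PP) : SA PP →ₐ[ℝ] SA PP := pb (mv p τ) (sm_mv p τ)
noncomputable def cm (p τ : PP) : S3 →ₐ[ℝ] S3 :=
  pb (fun z => (z.1, mv p τ z.2)) (contDiff_fst.prodMk ((sm_mv p τ).comp contDiff_snd))

section motion
variable (p τ : PP)

theorem cp_val (f : SA PP) (x : PP) : (cp p τ f).1 x = f.1 (mv p τ x) := rfl
theorem cm_val (f : S3) (z : ST) : (cm p τ f).1 z = f.1 (z.1, mv p τ z.2) := rfl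

theorem hd_mv (x e : PP) : HasDerivAt (fun s : ℝ => mv p τ (x + s • e))
    (τ.1 * e.1 - τ.2 * e.2, τ.2 * e.1 + τ.1 * e.2) 0 := by
  have : (fun s : ℝ => mv p τ (x + s • e))
      = fun s => mv p τ x + s • (τ.1 * e.1 - τ.2 * e.2, τ.2 * e.1 + τ.1 * e.2) :=
    funext fun s => Prod.ext (by simp [mv]; ring) (by simp [mv]; ring)
  rw [this]
  simpa using ((hasDerivAt_id (0 : ℝ)).smul_const
    ((τ.1 * e.1 - τ.2 * e.2, τ.2 * e.1 + τ.1 * e.2) : PP)).const_add (mv p τ x)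

theorem d1_cp (f : SA PP) : d1 (cp p τ f) = cp p τ (τ.1 • d1 f + τ.2 • d2 f) := SA_ext fun x => by
  rw [cp, D_pb _ f (hd_mv p τ x _), D_dir2]; simp [pb]
theorem d2_cp (f : SA PP) : d2 (cp p τ f) = cp p τ (τ.1 • d2 f - τ.2 • d1 f) := SA_ext fun x => by
  rw [cp, D_pb _ f (hd_mv p τ x _), D_dir2]; simp [pb]; ring

theorem d_cm (f : S3) (e z : ST) : (D e (cm p τ f)).1 z = (D (e.1, τ.1 * e.2.1 - τ.2 * e.2.2,
    τ.2 * e.2.1 + τ.1 * e.2.2) f).1 (z.1, mv p τ z.2) :=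
  D_pb _ f (HasDerivAt.prodMk
    (by simpa using ((hasDerivAt_id (0 : ℝ)).mul_const e.1).const_add z.1) (hd_mv p τ z.2 e.2))

theorem d0_cm (f : S3) : DS.d 0 (cm p τ f) = cm p τ (DS.d 0 f) := SA_ext fun z => by
  rw [DS0, d_cm, D_dir, cm_val]; simp [DS0]
theorem d1_cm (f : S3) : DS.d 1 (cm p τ f) = cm p τ (τ.1 • DS.d 1 f + τ.2 • DS.d 2 f) :=
  SA_ext fun z => by rw [DS1, d_cm, D_dir, cm_val]; simp [DS1]
theorem d2_cm (f : S3) : DS.d 2 (cm p τ f) = cm p τ (τ.1 • DS.d 2 f - τ.2 • DS.d 1 f) :=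
  SA_ext fun z => by rw [DS2, d_cm, D_dir, cm_val]; simp [DS2]; ring

theorem det_cm (h : τ.1 ^ 2 + τ.2 ^ 2 = 1) (f : S3) : DS.det (cm p τ f) = cm p τ (DS.det f) :=
  SA_ext fun z => by
  simp only [DR.det, d1_cm, d2_cm, map_add, map_sub, map_smul, DS.c21, val_add, val_sub, val_mul,
    val_pow, val_smul, cm_val]
  linear_combination (τ.1 ^ 2 + τ.2 ^ 2 + 1) * ((DS.d 1 (DS.d 1 f)).1 (z.1, mv p τ z.2)
    * (DS.d 2 (DS.d 2 f)).1 (z.1, mv p τ z.2) - (DS.d 1 (DS.d 2 f)).1 (z.1, mv p τ z.2) ^ 2) * h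

end motion

end Pool.Agent.MP_ed9623_an.S64
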