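import Pool.Agent.MP_ed9623_an.S64.Geo

/-! The zone, its boundary and the local structure of the pair of solutions. -/

open Filter Topology Set
open scoped ContDiff

namespace Pool.Agent.MP_ed9623_an.S64

open H64

/-- The gradient of `α` vanishes near `z`. -/
def GZ (α : S3) (z : ST) : Prop := DS.d 1 α ∈ NI z ∧ DS.d 2 α ∈ NI z

/-- Stream functions on `O` of the half sum and of the half difference; `Z` is the zone. -/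
structure Loc (n : ℝ) (α ψ : S3) (O Z : Set PP) : Prop where
  n0 : 0 < n
  oO : IsOpen O
  oZ : IsOpen Z
  eW : ∀ j, j ≠ 0 → ∀ z : ST, z.2 ∈ O → (DS.eW α ψ j).1 z = 0
  eA : ∀ z : ST, z.2 ∈ O → (DS.eA α ψ).1 z = 0
  za : ∀ j, j ≠ 0 → ∀ z : ST, z.2 ∈ O → z.2 ∈ Z → (DS.d j α).1 z = 0
  zy : ∀ j, j ≠ 0 → ∀ z : ST, z.2 ∈ O → z.2 ∈ Z → (DS.yy n ψ j).1 z = 0
  wall : ∀ e : PP, e ≠ 0 → ∀ z : ST, z.2 ∈ O → z.2 ∈ Z → DS.BB ψ e e ∉ NI z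
  max : ∀ z : ST, z.2 ∈ O → z.2 ∈ closure Z → GZ α z → z.2 ∈ Z

/-- Near `p` the region below the curve lies in `Z`. -/
def Low (Z : Set PP) (p : PP) (γ : SA ℝ) : Prop :=
  p.2 = γ.1 p.1 ∧ ∀ᶠ x in 𝓝 p, x.2 < γ.1 x.1 → x ∈ Z

/-- Moreover the curve does not meet `Z`. -/
def Crv (Z : Set PP) (p : PP) (γ : SA ℝ) : Prop :=
  Low Z p γ ∧ ∀ᶠ x in 𝓝 p, x.2 = γ.1 x.1 → x ∉ Z

/-- The equations on `U`, with `α` and the defects vanishing below the curve. -/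
structure Arc (n : ℝ) (α ψ : S3) (γ : SA ℝ) (U : Set ST) : Prop where
  n0 : 0 < n
  oU : IsOpen U
  eW : ∀ j, j ≠ 0 → ∀ z ∈ U, (DS.eW α ψ j).1 z = 0
  eA : ∀ z ∈ U, (DS.eA α ψ).1 z = 0
  za : ∀ z ∈ U, z.2.2 < γ.1 z.2.1 → α.1 z = 0
  zy : ∀ j, j ≠ 0 → ∀ z ∈ U, z.2.2 < γ.1 z.2.1 → (DS.yy n ψ j).1 z = 0

/-- Unique continuation across the curve. -/
def UC (n : ℝ) (ψ : S3) (γ : SA ℝ) (z : ST) : Prop :=
  ∀ α U, Arc n α ψ γ U → z ∈ U → ∃ t, GZ α (t, z.2)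

/-- A level curve of `Φ` touches the complement of `Z` at `q`. -/
def Tch (Z : Set PP) (q : PP) (Φ : SA PP) : Prop :=
  q ∉ Z ∧ ((d1 Φ).1 q ≠ 0 ∨ (d2 Φ).1 q ≠ 0) ∧ ∀ᶠ y in 𝓝 q, Φ.1 q < Φ.1 y → y ∈ Z

/-- Near `p`, touching curves of small slope have the slope `σ`. -/
def NT (Z : Set PP) (p : PP) (σ : SA PP) (g₀ : ℝ) : Prop :=
  ∀ᶠ q in 𝓝 p, ∀ (Φ : SA PP) (c : ℝ), Tch Z q Φ → (d2 Φ).1 q < 0 →
    (d1 Φ).1 q + c * (d2 Φ).1 q = 0 → |c| ≤ g₀ → c = σ.1 q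

/-- `σ` is the characteristic slope which extends the slope of the curve. -/
def Rt (ψ : S3) (γ : SA ℝ) (σ : S3) (z : ST) : Prop := σ - gg γ ∈ VI γ z ∧ DS.AA ψ σ ∈ NI z

/-- The function which vanishes along a straight piece of the boundary of the zone. -/
noncomputable def rel (n : ℝ) (ψ : S3) : S3 :=
  3 * DS.ip n (DS.d 1 (DS.d 1 (DS.d 2 ψ))) (DS.d 1 (DS.d 2 ψ))
    * DS.ip n (DS.d 1 (DS.d 2 ψ)) (DS.d 2 ψ)
    - 4 * DS.ip n (DS.d 1 (DS.d 2 ψ)) (DS.d 1 (DS.d 2 ψ)) ^ 2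

/-- A straight piece of the boundary of the zone. -/
structure Sg (n : ℝ) (ψ : S3) (Z : Set PP) (p : PP) : Prop where
  crv : Crv Z p (cst p.2)
  tan : DS.d 1 ψ ∈ TI (cst p.2) p
  nd : ∃ t, (DS.d 1 (DS.d 2 ψ)).1 (t, p) ≠ 0
  rel : rel n ψ ∈ TI (cst p.2) p

/-- A chart in which the gradient of the stream function is `f`. -/
structure Cht (n : ℝ) (Ω Z : Set PP) (f : Fin 3 → ST → ℝ) (O : Set PP) (α ψ : S3) : Prop where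
  loc : Loc n α ψ O Z
  sub : O ⊆ Ω
  eq : ∀ j, j ≠ 0 → ∀ z : ST, z.2 ∈ O → (DS.d j ψ).1 z = f j z

/-- The global structure. -/
structure Cor (n : ℝ) (Ω Z : Set PP) (f : Fin 3 → ST → ℝ) : Prop where
  o : IsOpen Ω
  b : Bornology.IsBounded Ω
  ch : ∀ x ∈ Ω, ∃ O α ψ, x ∈ O ∧ Cht n Ω Z f O α ψ
  bd : ∀ j, j ≠ 0 → ∀ t, ∀ x, x ∉ Ω → Tendsto (fun y => f j (t, y)) (𝓝[Ω] x) (𝓝 0)

section api
variable {n : ℝ} {α ψ : S3} {O Z : Set PP} {p : PP} {γ : SA ℝ} {U : Set ST} {z : ST} {j : Fin 3}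

theorem Low.ev (h : Low Z p γ) : ∀ᶠ x in 𝓝 p, x.2 = γ.1 x.1 → Low Z x γ :=
  h.2.eventually_nhds.mono fun _ a c => ⟨c, a⟩

theorem Crv.ev (h : Crv Z p γ) : ∀ᶠ x in 𝓝 p, x.2 = γ.1 x.1 → Crv Z x γ :=
  (h.1.ev.and h.2.eventually_nhds).mono fun _ a c => ⟨a.1 c, a.2⟩

theorem Crv.nm (h : Crv Z p γ) : p ∉ Z := h.2.self_of_nhds h.1.1

theorem Low.cl (h : Low Z p γ) : p ∈ closure Z :=
  mem_closure_iff_frequently.2 (((freq_below h.1.le).and_eventually h.2).mono fun _ a => a.2 a.1)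

theorem Crv.congr {γ' : SA ℝ} (h : Crv Z p γ) (e : γ.1 =ᶠ[𝓝 p.1] γ'.1) : Crv Z p γ' := by
  have e' := (continuous_fst.tendsto p).eventually e
  exact ⟨⟨h.1.1.trans e.self_of_nhds, (h.1.2.and e').mono fun x a c => a.1 (a.2 ▸ c)⟩,
    (h.2.and e').mono fun x a c => a.1 (a.2 ▸ c)⟩

theorem Tch.cl {Φ : SA PP} (h : Tch Z p Φ) : p ∈ closure Z := by
  refine mem_closure_iff_frequently.2 ((Frequently.and_eventually ?_ h.2.2).mono fun _ a => a.2 a.1)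
  intro a
  have m : IsLocalMax Φ.1 p := a.mono fun _ => not_lt.1
  rcases h.2.1 with b | b <;> exact b (by rw [D_val, pd, m.fderiv_eq_zero]; rfl)

theorem ht_eq (α ψ : S3) (j : Fin 3) : DS.ht (DS.d j ψ) = DS.eW α ψ j
    - (DS.d 1 α * DS.d 2 (DS.d j ψ) - DS.d 2 α * DS.d 1 (DS.d j ψ))
    - (DS.d 1 ψ * DS.d j (DS.d 2 α) - DS.d 2 ψ * DS.d j (DS.d 1 α)) := by
  simp only [DR.eW, DR.HH, DR.br, DS.comm j]
  ring

theorem ht_GZ (h : GZ α z) (e : (DS.eW α ψ j).1 z = 0) : (DS.ht (DS.d j ψ)).1 z = 0 := by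
  rw [ht_eq α]
  simp [e, NI_val h.1, NI_val h.2, NI_val (NI_d h.1 j), NI_val (NI_d h.2 j)]

theorem Loc.gz (h : Loc n α ψ O Z) (a : z.2 ∈ O) (b : z.2 ∈ Z) : GZ α z :=
  have e := (continuous_snd.tendsto z).eventually ((h.oO.inter h.oZ).mem_nhds ⟨a, b⟩)
  ⟨e.mono fun y c => h.za 1 (by decide) y c.1 c.2, e.mono fun y c => h.za 2 (by decide) y c.1 c.2⟩

/-- Functions which vanish in the zone are flat on its closure. -/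
theorem Loc.fl (h : Loc n α ψ O Z) {f : S3} (hf : ∀ y : ST, y.2 ∈ O → y.2 ∈ Z → f.1 y = 0)
    (a : z.2 ∈ O) (b : z.2 ∈ closure Z) : f ∈ FL z :=
  FL_of (h.oZ.preimage continuous_snd) (mem_closure_iff_frequently.2
    (((Continuous.prodMk_right z.1).tendsto z.2).frequently (mem_closure_iff_frequently.1 b)))
    (((continuous_snd.tendsto z).eventually (h.oO.mem_nhds a)).mono hf)

theorem Loc.ht_fl (h : Loc n α ψ O Z) (hj : j ≠ 0) (a : z.2 ∈ O) (b : z.2 ∈ closure Z) :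
    DS.ht (DS.d j ψ) ∈ FL z := h.fl (fun y c d => ht_GZ (h.gz c d) (h.eW j hj y c)) a b

theorem Loc.yy_fl (h : Loc n α ψ O Z) (hj : j ≠ 0) (a : z.2 ∈ O) (b : z.2 ∈ closure Z) :
    DS.yy n ψ j ∈ FL z := h.fl (h.zy j hj) a b

theorem Loc.li (h : Loc n α ψ O Z) (hl : Low Z p γ) (a : p ∈ O) {f : S3}
    (hf : ∀ y : ST, y.2 ∈ O → y.2 ∈ Z → f.1 y = 0) : f ∈ LI γ p :=
  LI_of ((hl.2.and (h.oO.mem_nhds a)).mono fun x b c t => hf (t, x) b.2 (b.1 c)) []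

theorem Loc.ht_li (h : Loc n α ψ O Z) (hl : Low Z p γ) (a : p ∈ O) (hj : j ≠ 0) :
    DS.ht (DS.d j ψ) ∈ LI γ p := h.li hl a fun y c d => ht_GZ (h.gz c d) (h.eW j hj y c)

theorem Loc.yy_li (h : Loc n α ψ O Z) (hl : Low Z p γ) (a : p ∈ O) (hj : j ≠ 0) :
    DS.yy n ψ j ∈ LI γ p := h.li hl a (h.zy j hj)

theorem Loc.wall_LJ (h : Loc n α ψ O Z) (hl : Low Z p γ) (a : p ∈ O) {e : PP} (he : e ≠ 0) (t : ℝ) :
    DS.BB ψ e e ∉ LJ γ (t, p) := fun b => by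
  obtain ⟨y, c, d, k⟩ := ((freq_below3 (z := (t, p)) hl.1.le).and_eventually
    ((mem_LJ.1 b).eventually_nhds.and ((continuous_snd.tendsto (t, p)).eventually
      (hl.2.and (h.oO.mem_nhds a))))).exists
  exact h.wall e he y k.2 (k.1 c) ((d.and (((isOpen_below γ).preimage continuous_snd).mem_nhds
    c)).mono fun _ m => m.1 (le_of_lt m.2))

theorem Arc.lj (h : Arc n α ψ γ U) (a : z ∈ U) {f : S3}
    (hf : ∀ y ∈ U, y.2.2 < γ.1 y.2.1 → f.1 y = 0) : f ∈ LJ γ z :=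
  LJ_of (mem_of_superset (h.oU.mem_nhds a) hf)

theorem Arc.ht_lj (h : Arc n α ψ γ U) (a : z ∈ U) (hj : j ≠ 0) : DS.ht (DS.d j ψ) ∈ LJ γ z :=
  h.lj a fun y c d =>
    have e : α ∈ NI y := mem_of_superset ((h.oU.inter ((isOpen_below γ).preimage
      continuous_snd)).mem_nhds ⟨c, d⟩) fun x m => h.za x m.1 m.2
    ht_GZ ⟨NI_d e 1, NI_d e 2⟩ (h.eW j hj y c)

theorem Arc.yy_lj (h : Arc n α ψ γ U) (a : z ∈ U) (hj : j ≠ 0) : DS.yy n ψ j ∈ LJ γ z :=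
  h.lj a (h.zy j hj)

/-- It is enough to have vanishing above the curve. -/
theorem Arc.gz (h : Arc n α ψ γ U) (a : z ∈ U)
    (h1 : ∀ᶠ y in 𝓝 z, γ.1 y.2.1 < y.2.2 → (DS.d 1 α).1 y = 0)
    (h2 : ∀ᶠ y in 𝓝 z, γ.1 y.2.1 < y.2.2 → (DS.d 2 α).1 y = 0) : GZ α z :=
  have e := fun i => mem_LJ.1 (LJ_d (h.lj a h.za) i)
  ⟨((e 1).and h1).mono fun _ b => (le_or_gt _ _).elim b.1 b.2,
    ((e 2).and h2).mono fun _ b => (le_or_gt _ _).elim b.1 b.2⟩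

theorem BB_AA (ψ : S3) (γ : SA ℝ) (z : ST) :
    (DS.BB ψ (1, deriv γ.1 z.2.1) (1, deriv γ.1 z.2.1)).1 z = (DS.AA ψ (gg γ)).1 z := by
  simp [DR.BB, DR.AA, gg_val]; ring

theorem X_X (ψ : S3) (γ : SA ℝ) : DS.XX (gg γ) (DS.XX (gg γ) ψ)
    = DS.AA ψ (gg γ) + gg (D 1 γ) * DS.d 2 ψ := by
  simp only [DR.XX, DR.AA, map_add, DS.mul, d1_gg, d2_gg, DS.c21]; ring

theorem X_d2 (ψ σ : S3) : DS.XX σ (DS.d 2 ψ) = DS.QQ ψ σ := rfl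

theorem X_Q (ψ : S3) (γ : SA ℝ) : DS.XX (gg γ) (DS.QQ ψ (gg γ))
    = DS.AA (DS.d 2 ψ) (gg γ) + gg (D 1 γ) * DS.d 2 (DS.d 2 ψ) := X_X (DS.d 2 ψ) γ

theorem X_mul (σ f g : S3) : DS.XX σ (f * g) = DS.XX σ f * g + f * DS.XX σ g := by
  simp only [DR.XX, DS.mul]; ring

theorem d0_X {σ : S3} (h : DS.d 0 σ = 0) (f : S3) : DS.d 0 (DS.XX σ f) = DS.XX σ (DS.d 0 f) := by
  simp only [DR.XX, map_add, DS.mul, h, DS.c10, DS.c20]; ring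

theorem X_bk {σ : S3} (h : DS.d 0 σ = 0) (f g : S3) :
    DS.XX σ (DS.bk f g) = DS.bk (DS.XX σ f) g + DS.bk f (DS.XX σ g) := by
  simp only [DR.XX, DR.bk, map_add, map_sub, DS.mul, h, DS.c10, DS.c20]; ring

theorem Sn_X {σ : S3} (h : DS.d 0 σ = 0) (f : S3) :
    Sn n (DS.XX σ f) = DS.d 1 (Sn n f) + σ * DS.d 2 (Sn n f) := by
  rw [DR.XX, Sn_add, Sn_mul h, Sn_d, Sn_d]

end api

end Pool.Agent.MP_ed9623_an.S64
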