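import Pool.Agent.MP_ed9623_an.S64.SpecG

/-! Smooth functions on an open set, the lens, temperate and flat functions. -/

open Filter Topology Set MeasureTheory
open scoped ContDiff

namespace Pool.Agent.MP_ed9623_an.S64

open H64

/-- Restriction of the derivations to a stable subalgebra. -/
def DR.sub {R : Type} [CommRing R] [Algebra ℝ R] (D : DR R) (S : Subalgebra ℝ R)
    (h : ∀ i, ∀ f ∈ S, D.d i f ∈ S) : DR S where
  d i := { toFun := fun f => ⟨D.d i f.1, h i _ f.2⟩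
           map_add' := fun f g => Subtype.ext (map_add (D.d i) f.1 g.1)
           map_smul' := fun c f => Subtype.ext (map_smul (D.d i) c f.1) }
  mul i f g := Subtype.ext (D.mul i f.1 g.1)
  comm i j f := Subtype.ext (D.comm i j f.1)

theorem DR.sub_w {R : Type} [CommRing R] [Algebra ℝ R] (D : DR R) (S : Subalgebra ℝ R)
    (h : ∀ i, ∀ f ∈ S, D.d i f ∈ S) (l : List (Fin 3)) (f : S) :
    ((D.sub S h).w l f).1 = D.w l f.1 := by
  induction l generalizing f with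
  | nil => rfl
  | cons i l ih => exact ih _

section opn
variable {Λ : Set ST}

/-- Extension by zero. -/
noncomputable def ex (f : Λ → ℝ) : ST → ℝ := Function.extend Subtype.val f 0

theorem ex_val (f : Λ → ℝ) (x : Λ) : ex f x = f x := Subtype.val_injective.extend_apply f 0 x
theorem ex_mem (f : Λ → ℝ) {z : ST} (h : z ∈ Λ) : ex f z = f ⟨z, h⟩ := ex_val f ⟨z, h⟩
theorem ex_off (f : Λ → ℝ) {z : ST} (h : z ∉ Λ) : ex f z = 0 :=
  Function.extend_apply' f (0 : ST → ℝ) z fun ⟨x, e⟩ => h (e ▸ x.2)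

variable (Λ) in
/-- Smooth functions on `Λ`. -/
def SO : Subalgebra ℝ (Λ → ℝ) where
  carrier := {f | ContDiffOn ℝ ∞ (ex f) Λ}
  mul_mem' {a b} ha hb := (ContDiffOn.mul ha hb).congr fun z h => by simp only [ex_mem _ h]; rfl
  add_mem' {a b} ha hb := (ContDiffOn.add ha hb).congr fun z h => by simp only [ex_mem _ h]; rfl
  algebraMap_mem' c := (contDiffOn_const (c := c)).congr fun z h => ex_mem _ h

/-- A smooth function on `Λ` as an element. -/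
def mkO (F : ST → ℝ) (h : ContDiffOn ℝ ∞ F Λ) : SO Λ :=
  ⟨fun x => F x, show ContDiffOn ℝ ∞ _ Λ from h.congr fun _ a => ex_mem _ a⟩

theorem mkO_val (F : ST → ℝ) (h : ContDiffOn ℝ ∞ F Λ) (x : Λ) : (mkO F h).1 x = F x := rfl

theorem SO_ext {f g : SO Λ} (h : ∀ x, f.1 x = g.1 x) : f = g := Subtype.ext (funext h)

theorem SO_at (hΛ : IsOpen Λ) (f : SO Λ) (x : Λ) : ContDiffAt ℝ ∞ (ex f.1) x :=
  ContDiffOn.contDiffAt f.2 (hΛ.mem_nhds x.2)

theorem SO_diff (hΛ : IsOpen Λ) (f : SO Λ) (x : Λ) : DifferentiableAt ℝ (ex f.1) x :=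
  (SO_at hΛ f x).differentiableAt (by simp)

theorem ex_ev (hΛ : IsOpen Λ) {f : Λ → ℝ} {F : ST → ℝ} (h : ∀ x : Λ, f x = F x) (x : Λ) :
    ex f =ᶠ[𝓝 x.1] F := mem_of_superset (hΛ.mem_nhds x.2) fun z a => (ex_mem f a).trans (h ⟨z, a⟩)

theorem smOn_pd (hΛ : IsOpen Λ) {F : ST → ℝ} (h : ContDiffOn ℝ ∞ F Λ) (e : ST) :
    ContDiffOn ℝ ∞ (pd e F) Λ :=
  (h.fderiv_of_isOpen hΛ (by simp)).clm_apply contDiffOn_const

/-- The partial derivatives. -/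
noncomputable def DO (hΛ : IsOpen Λ) : DR (SO Λ) where
  d i := { toFun := fun f => mkO (pd (EE i) (ex f.1)) (smOn_pd hΛ f.2 _)
           map_add' := fun f g => SO_ext fun x => (pd_congr_pt _ (ex_ev hΛ (fun y => by
             rw [ex_val, ex_val]; rfl) x)).trans (pd_add _ (SO_diff hΛ f x) (SO_diff hΛ g x))
           map_smul' := fun c f => SO_ext fun x => (pd_congr_pt _ (ex_ev hΛ (fun y => by
             rw [ex_val]; rfl) x)).trans (pd_const_mul _ c (SO_diff hΛ f x)) }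
  mul i f g := SO_ext fun x => ((pd_congr_pt _ (ex_ev hΛ (fun y => by
    rw [ex_val, ex_val]; rfl) x)).trans (pd_mul _ (SO_diff hΛ f x) (SO_diff hΛ g x))).trans (by
      rw [ex_val, ex_val]; rfl)
  comm i j f := SO_ext fun x => (pd_congr_pt _ (ex_ev hΛ (fun _ => rfl) x)).trans
    ((pd_comm _ _ (contDiffAt_infty.1 (SO_at hΛ f x) 2)).trans
      (pd_congr_pt _ (ex_ev hΛ (fun _ => rfl) x)).symm)

theorem DO_val (hΛ : IsOpen Λ) (i : Fin 3) (f : SO Λ) (x : Λ) :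
    ((DO hΛ).d i f).1 x = pd (EE i) (ex f.1) x := rfl

theorem DO_eq (hΛ : IsOpen Λ) (i : Fin 3) {f : SO Λ} {F : ST → ℝ} (h : ∀ x : Λ, f.1 x = F x)
    (x : Λ) : ((DO hΛ).d i f).1 x = pd (EE i) F x := pd_congr_pt _ (ex_ev hΛ h x)

/-- Derivatives vanish on open sets where the function vanishes. -/
theorem DO_zero (hΛ : IsOpen Λ) {S : Set ST} (hS : IsOpen S) (l : List (Fin 3)) : ∀ f : SO Λ,
    (∀ x : Λ, x.1 ∈ S → f.1 x = 0) → ∀ x : Λ, x.1 ∈ S → ((DO hΛ).w l f).1 x = 0 :=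
  (DO hΛ).w_mem (S := {f | ∀ x : Λ, x.1 ∈ S → f.1 x = 0}) (fun i f h x a =>
    (pd_zero_on_open _ (mem_of_superset ((hΛ.inter hS).mem_nhds ⟨x.2, a⟩)
      fun z b => (ex_mem _ b.1).trans (h _ b.2))).self_of_nhds) l

variable (Λ) in
/-- Restriction. -/
noncomputable def rs : S3 →ₐ[ℝ] SO Λ where
  toFun f := mkO f.1 f.sm.contDiffOn
  map_one' := rfl
  map_mul' _ _ := rfl
  map_zero' := rfl
  map_add' _ _ := rfl
  commutes' _ := rfl

theorem rs_val (f : S3) (x : Λ) : (rs Λ f).1 x = f.1 x := rfl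

theorem rs_d (hΛ : IsOpen Λ) (i : Fin 3) (f : S3) : rs Λ (DS.d i f) = (DO hΛ).d i (rs Λ f) :=
  SO_ext fun x => (DO_eq hΛ i (fun _ => rfl) x).symm

theorem rs_w (hΛ : IsOpen Λ) (l : List (Fin 3)) (f : S3) :
    rs Λ (DS.w l f) = (DO hΛ).w l (rs Λ f) := by
  induction l generalizing f with
  | nil => rfl
  | cons i l ih => rw [DR.w_cons, ih, rs_d hΛ]; rfl

end opn

/-- The data of a lens. -/
structure Lz where
  γ : SA ℝ
  t₀ : ℝ
  s₀ : ℝ
  δ : ℝ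
  δ0 : 0 < δ
  δ1 : δ ≤ 1

namespace Lz
variable (L : Lz)

noncomputable def u : S3 := algebraMap ℝ S3 (L.δ ^ 2) - (tf idS - algebraMap ℝ S3 L.t₀) ^ 2
  - (lf idS - algebraMap ℝ S3 L.s₀) ^ 2

noncomputable def d : S3 := dd L.γ

theorem u_val (z : ST) : L.u.1 z = L.δ ^ 2 - (z.1 - L.t₀) ^ 2 - (z.2.1 - L.s₀) ^ 2 := by
  simp only [u, val_sub, val_pow]; rfl

theorem d_val (z : ST) : L.d.1 z = z.2.2 - L.γ.1 z.2.1 := rfl

theorem u_le (z : ST) : L.u.1 z ≤ L.δ ^ 2 := by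
  rw [u_val]; nlinarith [sq_nonneg (z.1 - L.t₀), sq_nonneg (z.2.1 - L.s₀)]

theorem u_le_one (z : ST) : L.u.1 z ≤ 1 := (L.u_le z).trans (pow_le_one₀ L.δ0.le L.δ1)

theorem d2_u : DS.d 2 L.u = 0 := by
  simp only [u, map_sub, DS.d_sq, DS.d_alg, d2_lf, d_tf]; simp [EE]

/-- The lens and the smaller lenses. -/
def Λ : Set ST := {z | 0 < L.u.1 z ∧ 0 < L.d.1 z ∧ L.d.1 z < L.u.1 z ^ 2}
def dom (b : ℝ) : Set ST := {z | z ∈ L.Λ ∧ b * L.d.1 z < L.u.1 z ^ 2}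

theorem opn : IsOpen L.Λ := (isOpen_lt continuous_const L.u.ct).inter
  ((isOpen_lt continuous_const L.d.ct).inter (isOpen_lt L.d.ct (L.u.ct.pow 2)))

theorem opn_dom (b : ℝ) : IsOpen (L.dom b) :=
  L.opn.inter (isOpen_lt (continuous_const.mul L.d.ct) (L.u.ct.pow 2))

theorem d_le_one {z : ST} (h : z ∈ L.Λ) : L.d.1 z ≤ 1 :=
  h.2.2.le.trans (pow_le_one₀ h.1.le (L.u_le_one z))

theorem near {z : ST} (h : 0 ≤ L.u.1 z) : |z.1 - L.t₀| ≤ L.δ ∧ |z.2.1 - L.s₀| ≤ L.δ := by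
  rw [u_val] at h
  exact ⟨abs_le_of_sq_le_sq (by nlinarith [sq_nonneg (z.2.1 - L.s₀)]) L.δ0.le,
    abs_le_of_sq_le_sq (by nlinarith [sq_nonneg (z.1 - L.t₀)]) L.δ0.le⟩

theorem cpt : ∃ K, IsCompact K ∧ L.Λ ⊆ K :=
  ⟨(fun z : ST => ((z.1, z.2.1, z.2.2 + L.γ.1 z.2.1) : ST)) '' (Metric.closedBall L.t₀ L.δ ×ˢ
      Metric.closedBall L.s₀ L.δ ×ˢ Icc 0 1),
    ((isCompact_closedBall _ _).prod ((isCompact_closedBall _ _).prod isCompact_Icc)).image (by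
      have := L.γ.ct
      fun_prop), fun z h => ⟨(z.1, z.2.1, L.d.1 z), ⟨(L.near h.1.le).1, (L.near h.1.le).2,
        h.2.1.le, L.d_le_one h⟩, by simp [d_val]⟩⟩

theorem bdd (f : S3) : ∃ C, 0 ≤ C ∧ ∀ z ∈ L.Λ, |f.1 z| ≤ C := by
  obtain ⟨K, a, b⟩ := L.cpt
  obtain ⟨C, hC⟩ := a.exists_bound_of_continuousOn f.ct.continuousOn
  exact ⟨|C|, abs_nonneg C, fun z h => (hC z (b h)).trans (le_abs_self C)⟩

theorem vol : volume L.Λ < ⊤ := by
  obtain ⟨K, a, b⟩ := L.cpt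
  haveI := haar3
  exact (measure_mono b).trans_lt a.measure_lt_top

/-- Bounded smooth functions on the lens are integrable. -/
theorem int {F : ST → ℝ} (h : ContinuousOn F L.Λ) {C : ℝ} (hC : ∀ z ∈ L.Λ, |F z| ≤ C) :
    IntegrableOn F L.Λ :=
  IntegrableOn.of_bound L.vol (h.aestronglyMeasurable L.opn.measurableSet) C
    ((ae_restrict_mem L.opn.measurableSet).mono hC)

noncomputable def D : DR (SO L.Λ) := DO L.opn

/-- Functions of polynomial growth, and of fast decay, in the height. -/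
def T0 : Set (SO L.Λ) := {f | ∃ (k : ℕ) (C : ℝ), ∀ x, |f.1 x| * L.d.1 x ^ k ≤ C}
def F0 : Set (SO L.Λ) := {f | ∀ k : ℕ, ∃ C : ℝ, ∀ x, |f.1 x| ≤ C * L.d.1 x ^ k}

theorem T0_add : ∀ a ∈ L.T0, ∀ b ∈ L.T0, a + b ∈ L.T0 := fun a ⟨k, C, h⟩ b ⟨k', C', h'⟩ =>
  ⟨k + k', C + C', fun x => by
    have p := pow_pos x.2.2.1
    have q := fun k => pow_le_one₀ (n := k) x.2.2.1.le (L.d_le_one x.2)
    have e : |(a + b).1 x| ≤ |a.1 x| + |b.1 x| := abs_add_le _ _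
    have h1 := mul_le_of_le_one_right (mul_nonneg (abs_nonneg (a.1 x)) (p k).le) (q k')
    have h2 := mul_le_of_le_one_right (mul_nonneg (abs_nonneg (b.1 x)) (p k').le) (q k)
    rw [pow_add]
    nlinarith [h x, h' x, mul_le_mul_of_nonneg_right e (mul_pos (p k) (p k')).le]⟩

theorem T0_mul : ∀ a ∈ L.T0, ∀ b ∈ L.T0, a * b ∈ L.T0 := fun a ⟨k, C, h⟩ b ⟨k', C', h'⟩ =>
  ⟨k + k', C * C', fun x => by
    have p := pow_pos x.2.2.1
    change |a.1 x * b.1 x| * _ ≤ _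
    rw [pow_add, abs_mul, mul_mul_mul_comm]
    exact mul_le_mul (h x) (h' x) (mul_nonneg (abs_nonneg _) (p _).le)
      ((mul_nonneg (abs_nonneg _) (p _).le).trans (h x))⟩

theorem F0_add : ∀ a ∈ L.F0, ∀ b ∈ L.F0, a + b ∈ L.F0 := fun a h b h' k =>
  let ⟨C, c⟩ := h k
  let ⟨C', c'⟩ := h' k
  ⟨C + C', fun x => (abs_add_le (a.1 x) (b.1 x)).trans (by rw [add_mul]; exact add_le_add (c x) (c' x))⟩

theorem T0_F0 : ∀ a ∈ L.T0, ∀ b ∈ L.F0, a * b ∈ L.F0 := fun a ⟨m, C, h⟩ b h' k =>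
  let ⟨C', c'⟩ := h' (m + k)
  ⟨C * |C'|, fun x => by
    have p := pow_pos x.2.2.1
    change |a.1 x * b.1 x| ≤ _
    have e := mul_le_mul_of_nonneg_left ((c' x).trans (mul_le_mul_of_nonneg_right
      (le_abs_self C') (p _).le)) (abs_nonneg (a.1 x))
    rw [pow_add] at e
    rw [abs_mul]
    nlinarith [mul_le_mul_of_nonneg_right (h x) (mul_nonneg (abs_nonneg C') (p k).le)]⟩

theorem T0_of {f : SO L.Λ} {C : ℝ} (h : ∀ x, |f.1 x| ≤ C) : f ∈ L.T0 := ⟨0, C, by simpa using h⟩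

theorem T0_rs (f : S3) : rs L.Λ f ∈ L.T0 :=
  let ⟨_, _, h⟩ := L.bdd f
  L.T0_of fun x => h x x.2

theorem w_rs (f : S3) (l : List (Fin 3)) : L.D.w l (rs L.Λ f) ∈ L.T0 :=
  (rs_w L.opn l f) ▸ L.T0_rs _

/-- Temperate functions. -/
def Tm : Subalgebra ℝ (SO L.Λ) where
  carrier := {f | ∀ l, L.D.w l f ∈ L.T0}
  mul_mem' a b l := L.D.w_mul_mem L.T0_add L.T0_mul l _ _ a b
  add_mem' a b l := by rw [L.D.w_add]; exact L.T0_add _ (a l) _ (b l)
  algebraMap_mem' c := L.w_rs (algebraMap ℝ S3 c)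

theorem rs_Tm (f : S3) : rs L.Λ f ∈ L.Tm := L.w_rs f

/-- Flat functions. -/
def Ff : Set (SO L.Λ) := {f | ∀ l, L.D.w l f ∈ L.F0}

theorem Ff_mul {a f : SO L.Λ} (ha : a ∈ L.Tm) (hf : f ∈ L.Ff) : a * f ∈ L.Ff := fun l =>
  L.D.w_mul_mem L.F0_add L.T0_F0 l _ _ ha hf

theorem F0_int {f : SO L.Λ} (hf : f ∈ L.F0) : IntegrableOn (ex f.1) L.Λ :=
  let ⟨C, h⟩ := hf 0
  L.int (ContDiffOn.continuousOn f.2) (C := C) fun z a => by simpa [ex_mem _ a] using h ⟨z, a⟩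

/-- The ring of the lens, with its derivations. -/
noncomputable def DT : DR L.Tm := L.D.sub L.Tm fun i _ h l => h (i :: l)

/-- The ideal of flat functions. -/
def FF : Ideal L.Tm where
  carrier := {f | f.1 ∈ L.Ff}
  add_mem' {a b} h h' l := by
    change L.D.w l (a.1 + b.1) ∈ _
    rw [L.D.w_add]; exact L.F0_add _ (h l) _ (h' l)
  zero_mem' l k := ⟨0, fun x => by
    change |(L.D.w l 0).1 x| ≤ _
    rw [L.D.w_zero]; simp⟩
  smul_mem' c _ h := L.Ff_mul c.2 h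

end Lz

end Pool.Agent.MP_ed9623_an.S64
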