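import Pool.Agent.MP_ed9623_an.S64.Alg

/-! Statements: weighted estimates on a lens and the calculus of orders. -/

open Filter Topology

namespace Pool.Agent.MP_ed9623_an.S64

/-- Hardy inequality. -/
def HardyS : Prop := ∀ {R : Type} [CommRing R] [Algebra ℝ R] (D : DR R) {X : Type} (C : Cx D X)
    (a b E m v : R) (g : Fin 3 → R), (∀ i, D.d i E = g i * E) → v ∈ C.J →
  (∀ x, HaH D (C.ev x) a b g m) → C.I (m ^ 2 * (E * v) ^ 2) ≤ 4 * C.I ((E * D.V a b v) ^ 2)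

/-- Carleman inequality for a complex vector field. -/
def CarZS : Prop := ∀ {R : Type} [CommRing R] [Algebra ℝ R] (D : DR R) {X : Type} (C : Cx D X)
    (u1 u2 v1 v2 c1 c2 E q f1 f2 : R) (g : Fin 3 → R), (∀ i, D.d i E = g i * E) → f1 ∈ C.J →
  f2 ∈ C.J → CzW D u1 u2 v1 v2 c1 c2 → (∀ x, C.ev x q ≤ C.ev x (czq D u1 u2 v1 v2 c1 c2 g)) →
  C.I (q * ((E * f1) ^ 2 + (E * f2) ^ 2)) ≤ C.I ((E * (D.V u1 u2 f1 - D.V v1 v2 f2)) ^ 2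
    + (E * (D.V u1 u2 f2 + D.V v1 v2 f1)) ^ 2)

/-- The commutator identity for `ε ∂ₜ - Δ`, conjugated by the weight. -/
def HeatIS : Prop := ∀ {R : Type} [CommRing R] [Algebra ℝ R] (D : DR R) {X : Type} (C : Cx D X)
    (ε : ℝ) (k w : R) (g : Fin 3 → R), (∀ i j, D.d i (g j) = D.d j (g i)) → w ∈ C.J →
  (1 / 2 : ℝ) * C.I ((D.lap w + (g 1 ^ 2 + g 2 ^ 2 + ε • g 0) * w) ^ 2)
    + C.I (4 * (D.d 1 (g 1) * D.d 1 w ^ 2 + 2 * D.d 1 (g 2) * D.d 1 w * D.d 2 w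
      + D.d 2 (g 2) * D.d 2 w ^ 2) + k * (D.d 1 w ^ 2 + D.d 2 w ^ 2) + hsc D ε g k * w ^ 2)
    ≤ C.I ((ε • D.d 0 w + 2 * D.V (g 1) (g 2) w + D.dv (g 1) (g 2) * w
      - (D.lap w + (g 1 ^ 2 + g 2 ^ 2 + ε • g 0) * w)) ^ 2)

/-- Carleman inequality for `ε ∂ₜ - Δ`. -/
def HeatS : Prop := ∀ c K : ℝ, 0 < c → ∃ K' : ℝ, 0 ≤ K' ∧
  ∀ {R : Type} [CommRing R] [Algebra ℝ R] (D : DR R) {X : Type} (C : Cx D X) (ε N : ℝ)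
    (E μ k v : R) (g : Fin 3 → R), 1 ≤ N → (∀ i, D.d i E = g i * E) →
    (∀ i j, D.d i (g j) = D.d j (g i)) → v ∈ C.J → (∀ x, HeH D (C.ev x) ε N c K g μ k) →
    N ^ 3 * C.I (μ ^ 2 * (E * v) ^ 2) ≤ K' * C.I ((E * (ε • D.d 0 v - D.lap v)) ^ 2) ∧
      ∀ i, i ≠ 0 → N * C.I (μ * (E * D.d i v) ^ 2) ≤ K' * C.I ((E * (ε • D.d 0 v - D.lap v)) ^ 2) ∧
        ∀ j, j ≠ 0 → C.I ((E * D.d i (D.d j v)) ^ 2)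
          ≤ N * K' * C.I ((E * (ε • D.d 0 v - D.lap v)) ^ 2)

/-- Singular coefficients. -/
def SyS : Prop := ∀ {R : Type} [CommRing R] [Algebra ℝ R] {D : DR R} {X : Type} (L : Ln D X),
  (∀ a ∈ L.A, a ∈ L.Sy 0) ∧ L.sd ∈ L.Sy 0 ∧ L.si ∈ L.Sy 1 ∧ L.ui ∈ L.So 1 ∧ L.di ∈ L.Sy 2 ∧
  (∀ k l, ∀ a ∈ L.Sy k, ∀ b ∈ L.Sy l, a * b ∈ L.Sy (k + l)) ∧
  (∀ k l, ∀ a ∈ L.So k, ∀ b ∈ L.Sy l, a * b ∈ L.So (k + l)) ∧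
  (∀ k, L.So k ≤ L.Sy k) ∧ (∀ k l, k < l → L.Sy k ≤ L.So l) ∧
  (∀ k i, ∀ a ∈ L.Sy k, D.d i a ∈ L.Sy (k + 2)) ∧ (∀ k i, ∀ a ∈ L.So k, D.d i a ∈ L.So (k + 2)) ∧
  (∀ k, ∀ a ∈ L.Sy k, ∃ C : ℝ, 0 ≤ C ∧ ∀ x, |L.ev x a| ≤ C * L.ev x L.si ^ k) ∧
  (∀ k, ∀ a ∈ L.So k, ∀ η : ℝ, 0 < η → ∀ᶠ b : ℝ in atTop, ∀ x ∈ L.dom b,
    |L.ev x a| ≤ η * L.ev x L.si ^ k) ∧
  ∀ x, 1 ≤ L.ev x L.si ∧ L.ev x L.si ^ 2 = L.ev x L.di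

/-- The weights of the lens satisfy the hypotheses of the Carleman inequality. -/
def HeatVS : Prop := ∀ {R : Type} [CommRing R] [Algebra ℝ R] {D : DR R} {X : Type} (L : Ln D X)
    (ε : ℝ) (s : ℤ), ε = 0 ∨ ε = 1 → ∀ᶠ b : ℝ in atTop, ∃ c K : ℝ, 0 < c ∧ ∀ᶠ N : ℕ in atTop,
  ∀ x ∈ L.dom b, HeH D (L.ev x) ε N c K (L.gw N s) (L.di ^ 2) ((N : ℝ) • L.di ^ 2)

/-- Hardy inequality for flat functions. -/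
def THS : Prop := ∀ {R : Type} [CommRing R] [Algebra ℝ R] {D : DR R} {X : Type} (L : Ln D X)
    (b c : ℝ) (s : ℤ) (a a' μ f : R), 2 ≤ b → 0 < c → (∀ x, 0 ≤ L.ev x μ) → f ∈ L.F →
  ∃ K : ℝ, 0 ≤ K ∧ ∀ N : ℕ, 1 ≤ N → ∀ m : R, (∀ x ∈ L.dom b,
    c * N ^ 2 * L.ev x μ ≤ L.ev x m ^ 2 ∧ HaH D (L.ev x) a a' (L.gw N s) m) →
    N ^ 2 * L.I b (μ * (L.Wt N s * f) ^ 2)
      ≤ K * (L.I b ((L.Wt N s * D.V a a' f) ^ 2) + N ^ 2 * (4 * b ^ 2) ^ N)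

/-- Carleman inequality for a complex field and flat functions. -/
def TCS : Prop := ∀ {R : Type} [CommRing R] [Algebra ℝ R] {D : DR R} {X : Type} (L : Ln D X)
    (b c : ℝ) (u1 u2 v1 v2 c1 c2 μ f1 f2 : R), 2 ≤ b → 0 < c → (∀ x, 0 ≤ L.ev x μ) → f1 ∈ L.F →
  f2 ∈ L.F → CzW D u1 u2 v1 v2 c1 c2 → ∃ K : ℝ, 0 ≤ K ∧ ∀ N : ℕ, 1 ≤ N → (∀ x ∈ L.dom b,
    c * N * L.ev x μ ≤ L.ev x (czq D u1 u2 v1 v2 c1 c2 (L.gw N 0))) →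
    N * L.I b (μ * ((L.Wt N 0 * f1) ^ 2 + (L.Wt N 0 * f2) ^ 2))
      ≤ K * (L.I b ((L.Wt N 0 * (D.V u1 u2 f1 - D.V v1 v2 f2)) ^ 2
        + (L.Wt N 0 * (D.V u1 u2 f2 + D.V v1 v2 f1)) ^ 2) + N * (4 * b ^ 2) ^ N)

/-- Elementary properties of the classes. -/
def RwBS : Prop := ∀ {R : Type} [CommRing R] [Algebra ℝ R] {D : DR R} {X : Type} (L : Ln D X)
    (s : ℝ → ℕ → ℝ), (∀ b N, 0 ≤ s b N) →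
  (∀ g m p, (0 : R) ∈ L.Rw s g m p) ∧
  (∀ g m p, ∀ f ∈ L.Rw s g m p, ∀ f' ∈ L.Rw s g m p, f + f' ∈ L.Rw s g m p) ∧
  (∀ g m p, ∀ a ∈ L.A, ∀ f ∈ L.Rw s g m p, a * f ∈ L.Rw s g m p) ∧
  (∀ g m p p', p ≤ p' → L.Rw s g m p ⊆ L.Rw s g m p') ∧
  (∀ g m p, L.Rw s g m p ⊆ L.Rw s g (m + 1) (p - 2)) ∧
  (∀ g g' m p, g ≤ g' → L.Rw s g m p ⊆ L.Rw s g' m p) ∧
  (∀ g m p f, L.d * f ∈ L.Rw s g (m - 1) (p + 2) ↔ f ∈ L.Rw s g m p) ∧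
  ∀ g m p, ∀ k ∈ L.A, ∀ ki ∈ L.A, ∀ e ∈ L.A, k * ki = 1 → ∀ f ∈ L.F,
    (k + L.d * e) * f ∈ L.Rw s g m p → f ∈ L.Rw s g m p

/-- Absorption. -/
def BootS : Prop := ∀ {R : Type} [CommRing R] [Algebra ℝ R] {D : DR R} {X : Type} (L : Ln D X)
    (s : ℝ → ℕ → ℝ), (∀ b N, 0 ≤ s b N) → ∀ S : Set (R × ℤ), S.Finite → (∀ q ∈ S, q.1 ∈ L.F) →
  ∃ Θ, (∀ q ∈ S, q.1 ∈ L.Rw s Θ q.2 0) ∧
    ∀ g, (∀ q ∈ S, q.1 ∈ L.Rw s (g + Θ) q.2 (-1)) → ∀ q ∈ S, q.1 ∈ L.Rw s g q.2 (-1)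

/-- Inversion of transversal vector fields. -/
def HarRS : Prop := ∀ {R : Type} [CommRing R] [Algebra ℝ R] {D : DR R} {X : Type} (L : Ln D X)
    (s : ℝ → ℕ → ℝ), (∀ b N, (4 * b ^ 2) ^ N ≤ s b N) → ∀ g m p, ∀ a ∈ L.A, ∀ b ∈ L.A, ∀ k ∈ L.A,
  ∀ ki ∈ L.A, ∀ e ∈ L.A, k * ki = 1 → D.V a b L.d = k + L.d * e → ∀ f ∈ L.F,
    D.V a b f ∈ L.Rw s g m p → f ∈ L.Rw s g (m - 1) p

/-- Inversion of the Laplace and heat operators. -/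
def InvRS : Prop := ∀ {R : Type} [CommRing R] [Algebra ℝ R] {D : DR R} {X : Type} (L : Ln D X)
    (s : ℝ → ℕ → ℝ), (∀ b N, (4 * b ^ 2) ^ N ≤ s b N) → ∀ g m p (ε : ℝ), ε = 0 ∨ ε = 1 →
  ∀ f ∈ L.F, ε • D.d 0 f - D.lap f ∈ L.Rw s g m p → f ∈ L.Rw s g (m - 2) (p + 1) ∧
    ∀ i, i ≠ 0 → D.d i f ∈ L.Rw s g (m - 1) (p + 1) ∧
      ∀ j, j ≠ 0 → D.d i (D.d j f) ∈ L.Rw s g m (p + 1)

/-- Quadratic terms are negligible. -/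
def QuadS : Prop := ∀ {R : Type} [CommRing R] [Algebra ℝ R] {D : DR R} {X : Type} (L : Ln D X)
    (f : Fin 3 → R), (∀ i, f i ∈ L.A ∧ f i ∈ L.F) →
  ∀ i j l l' g m p, D.w l (f i) * D.w l' (f j) ∈ L.Rw (L.sm f) g m p

/-- The recursion. -/
def RecS : Prop := ∀ (A : ℕ → ℝ) (K C : ℝ) (q : ℕ), (∀ N, 0 ≤ A N) → 1 ≤ K →
  (∀ᶠ N : ℕ in atTop, A N ≤ C * N ^ q * (K ^ N + √(A ((2 * N + 2) / 3)) ^ 3)) →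
  ∃ M : ℝ, 0 ≤ M ∧ ∃ᶠ N : ℕ in atTop, A N ≤ M ^ N

/-- Negligible functions vanish near the curve. -/
def FinRS : Prop := ∀ {R : Type} [CommRing R] [Algebra ℝ R] {D : DR R} {X : Type} (L : Ln D X)
    (f : Fin 3 → R), (∀ i, f i ∈ L.Rw (L.sm f) 0 0 0) →
  ∃ M : ℝ, ∀ x ∈ L.dom M, ∀ i, L.ev x (f i) = 0

/-- The calculus on a lens. -/
def McS : Prop := ∀ {R : Type} [CommRing R] [Algebra ℝ R] {D : DR R} {X : Type} (L : Ln D X)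
    (n : ℝ) (α ψ : R), α ∈ L.A → ψ ∈ L.A → α ∈ L.F → (∀ j, j ≠ 0 → D.yy n ψ j ∈ L.F) →
  (∀ j, j ≠ 0 → D.eW α ψ j = 0) → D.eA α ψ = 0 →
  ∃ M : Mc D n α ψ, M.A = L.A ∧ M.d = L.d ∧ (M.Concl → ∃ b : ℝ, ∀ x ∈ L.dom b, L.ev x α = 0)

/-- Uniqueness for a degenerate hyperbolic equation. -/
def UChS : Prop := ∀ {R : Type} [CommRing R] [Algebra ℝ R] {D : DR R} {X : Type} (L : Ln D X)
    (u1 u2 v1 v2 c1 c2 c3 c4 μ α : R) (K : ℝ), α ∈ L.F → (∀ x, 1 ≤ L.ev x μ ∧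
    L.ev x c1 ^ 2 + L.ev x c2 ^ 2 + L.ev x c3 ^ 2 + L.ev x c4 ^ 2 ≤ K * L.ev x μ) →
  D.V u1 u2 (D.V u1 u2 α) - D.V v1 v2 (D.V v1 v2 α) = c1 * D.V u1 u2 α + c2 * D.V v1 v2 α →
  D.V u1 u2 (D.V v1 v2 α) - D.V v1 v2 (D.V u1 u2 α) = c3 * D.V u1 u2 α + c4 * D.V v1 v2 α →
  (∀ ς : ℝ, ς = 1 ∨ ς = -1 → ∀ᶠ b : ℝ in atTop, ∃ c : ℝ, 0 < c ∧ ∀ᶠ N : ℕ in atTop, ∃ m : R,
    ∀ x ∈ L.dom b, c * N ^ 2 * L.ev x μ ≤ L.ev x m ^ 2 ∧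
      HaH D (L.ev x) (u1 + ς • v1) (u2 + ς • v2) (L.gw N 0) m) →
  ∃ M : ℝ, ∀ x ∈ L.dom M, L.ev x (D.V u1 u2 α) = 0 ∧ L.ev x (D.V v1 v2 α) = 0

/-- Uniqueness for a degenerate elliptic equation. -/
def UCeS : Prop := ∀ {R : Type} [CommRing R] [Algebra ℝ R] {D : DR R} {X : Type} (L : Ln D X)
    (u1 u2 v1 v2 c1 c2 c3 c4 c5 c6 μ α : R) (K : ℝ), α ∈ L.F → (∀ x, 1 ≤ L.ev x μ ∧
    L.ev x c1 ^ 2 + L.ev x c2 ^ 2 + L.ev x c3 ^ 2 + L.ev x c4 ^ 2 ≤ K * L.ev x μ) →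
  D.V u1 u2 (D.V u1 u2 α) + D.V v1 v2 (D.V v1 v2 α) = c1 * D.V u1 u2 α + c2 * D.V v1 v2 α →
  D.V u1 u2 (D.V v1 v2 α) - D.V v1 v2 (D.V u1 u2 α) = c3 * D.V u1 u2 α + c4 * D.V v1 v2 α →
  CzW D u1 u2 v1 v2 c5 c6 →
  (∀ᶠ b : ℝ in atTop, ∃ c : ℝ, 0 < c ∧ ∀ᶠ N : ℕ in atTop, ∀ x ∈ L.dom b,
    c * N * L.ev x μ ≤ L.ev x (czq D u1 u2 v1 v2 c5 c6 (L.gw N 0))) →
  ∃ M : ℝ, ∀ x ∈ L.dom M, L.ev x (D.V u1 u2 α) = 0 ∧ L.ev x (D.V v1 v2 α) = 0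

/-- Non-characteristic curve; the determinant vanishes to order `j` and has the sign `ς`. -/
def UNS (ς : ℝ) : Prop := ∀ {R : Type} [CommRing R] [Algebra ℝ R] {D : DR R} {X : Type}
    (L : Ln D X) (ψ α Ai r ri : R) (j : ℕ), ψ ∈ L.A → α ∈ L.F → Ai ∈ L.A → r ∈ L.A → ri ∈ L.A →
  D.LL ψ α = 0 → D.AA ψ (-D.d 1 L.d) * Ai = 1 → r * ri = 1 →
  D.det ψ * Ai ^ 2 = ς • (L.d ^ j * r ^ 2) →
  ∃ M : ℝ, ∀ x ∈ L.dom M, L.ev x (D.d 1 α) = 0 ∧ L.ev x (D.d 2 α) = 0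

/-- Doubly characteristic curve; the determinant vanishes simply and has the sign `ς`. -/
def UKS (ς : ℝ) : Prop := ∀ {R : Type} [CommRing R] [Algebra ℝ R] {D : DR R} {X : Type}
    (L : Ln D X) (ψ α Ei q r ri : R), ψ ∈ L.A → α ∈ L.F → Ei ∈ L.A → q ∈ L.A → r ∈ L.A →
  ri ∈ L.A → D.LL ψ α = 0 → D.d 2 (D.d 2 ψ) * Ei = 1 → r * ri = 1 →
  D.QQ ψ (-D.d 1 L.d) = L.d * q → D.det ψ * Ei ^ 2 = ς • (L.d * r ^ 2) →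
  ∃ M : ℝ, ∀ x ∈ L.dom M, L.ev x (D.d 1 α) = 0 ∧ L.ev x (D.d 2 α) = 0

/-- The filtration. -/
def XMS : Prop := ∀ {R : Type} [CommRing R] [Algebra ℝ R] {D : DR R} {n : ℝ} {α ψ : R}
    (M : Mc D n α ψ) {σ τ Qi ns : R}, M.Ch σ τ Qi ns →
  (∀ j k, j ≤ k → M.Mj σ j ≤ M.Mj σ k) ∧
  (∀ j, ∀ f ∈ M.Mj σ j, f ∈ M.F ∧ D.XX σ f ∈ M.Mj σ j ∧ ∀ i, i ≠ 0 → D.d i f ∈ M.Mj σ (j + 1)) ∧
  (∀ j, ∀ f ∈ M.Mj σ (j + 1), ∃ c ∈ M.A, f - c * (D.d 2)^[j + 1] α ∈ M.Mj σ j) ∧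
  ∀ j, ∀ c ∈ M.A, D.d 1 (c * (D.d 2)^[j] α) + σ * c * (D.d 2)^[j + 1] α ∈ M.Mj σ j ∧
    D.d 2 (c * (D.d 2)^[j] α) - c * (D.d 2)^[j + 1] α ∈ M.Mj σ j ∧
    ∀ a₁ ∈ M.A, ∀ a₂ ∈ M.A, ∀ a₃ ∈ M.A, D.T2 a₁ a₂ a₃ (c * (D.d 2)^[j] α)
      - (a₁ + 2 * σ * a₂ + σ ^ 2 * a₃) * c * (D.d 2)^[j + 2] α ∈ M.Mj σ (j + 1)

/-- The filtration is controlled by anchored gauges. -/
def XRS : Prop := ∀ {R : Type} [CommRing R] [Algebra ℝ R] {D : DR R} {n : ℝ} {α ψ : R}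
    (M : Mc D n α ψ) {σ τ Qi ns : R}, M.Ch σ τ Qi ns →
  (∀ G k, 1 ≤ k → M.Anch G k → ∀ j : ℕ, M.Mj σ j ≤ M.Rm G k j 0) ∧ ∀ j : ℕ, M.Mj σ j ≤ M.RM j 0

/-- The calculus for all spatial derivatives. -/
def RmS : Prop := ∀ {R : Type} [CommRing R] [Algebra ℝ R] {D : DR R} {n : ℝ} {α ψ : R}
    (M : Mc D n α ψ),
  (∀ G k m p m' p', m ≤ m' → p - 2 * (m' - m) ≤ p' → M.Rm G k m p ≤ M.Rm G k m' p') ∧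
  (∀ G G' k m p, M.Rm G k m p ≤ M.Rm (M.add G G') k m p ∧ M.Rm G' k m p ≤ M.Rm (M.add G G') k m p) ∧
  (∀ G k m p l, Sp l → ∀ f ∈ M.Rm G k m p, D.w l f ∈ M.Rm G k (m + l.length) p) ∧
  (∀ G (k : ℕ) m p (ε : ℝ), ε = 0 ∨ ε = 1 → m ≤ k → ∀ f ∈ M.F,
    ε • D.d 0 f - D.lap f ∈ M.Rm G k m p → f ∈ M.Rm G k (m - 2) (p + 1)) ∧
  (∀ i, ∀ f ∈ Qd D M.A n α ψ, D.d i f ∈ Qd D M.A n α ψ) ∧
  (∀ G k m p, Qd D M.A n α ψ ≤ M.Rm G k m p) ∧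
  (∀ k, ∀ S : Set (R × ℤ), S.Finite → (∀ q ∈ S, q.1 ∈ M.F) → ∃ Θ, (∀ q ∈ S, q.1 ∈ M.Rm Θ k q.2 0) ∧
    ∀ G, (∀ q ∈ S, q.1 ∈ M.Rm (M.add G Θ) k q.2 (-1)) → ∀ q ∈ S, q.1 ∈ M.Rm G k q.2 (-1)) ∧
  (∀ m p m' p', m ≤ m' → p - 2 * (m' - m) ≤ p' → M.RM m p ≤ M.RM m' p') ∧
  (∀ m p l, Sp l → ∀ f ∈ M.RM m p, D.w l f ∈ M.RM (m + l.length) p) ∧
  (∀ m p, ∀ f ∈ M.F, D.lap f ∈ M.RM m p → f ∈ M.RM (m - 2) (p + 1)) ∧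
  ∀ m p, Qd D M.A n α ψ ≤ M.RM m p

/-- The equations of the time derivatives. -/
def StS : Prop := ∀ {R : Type} [CommRing R] [Algebra ℝ R] {D : DR R} {n : ℝ} {α ψ : R}
    (M : Mc D n α ψ) (k : ℕ),
  D.ht (D.lap ((D.d 0)^[k + 1] α)) + D.T2 ((D.d 0)^[k + 1] (D.d 1 ψ ^ 2))
      ((D.d 0)^[k + 1] (D.d 1 ψ * D.d 2 ψ)) ((D.d 0)^[k + 1] (D.d 2 ψ ^ 2)) α
    ∈ M.S1 ⊔ M.SU 1 (k + 1) ⊔ M.SY k ⊔ Qd D M.A n α ψ ∧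
  ∀ j, j ≠ 0 → D.ht ((D.d 0)^[k] (D.yy n ψ j)) ∈ M.SU 1 (k + 2) ⊔ Qd D M.A n α ψ

/-- The basic orders. -/
def BsS : Prop := ∀ {R : Type} [CommRing R] [Algebra ℝ R] {D : DR R} {n : ℝ} {α ψ : R}
    (M : Mc D n α ψ) {σ τ Qi ns : R}, M.Ch σ τ Qi ns → ∀ G k, 2 ≤ k → M.Anch G k → ∀ i : ℕ,
  (D.d 0)^[i + 1] α ∈ M.Rm G k (-2) 2 ∧ ∀ j, j ≠ 0 → (D.d 0)^[i] (D.yy n ψ j) ∈ M.Rm G k (-2) 3

/-- Closing the estimate. -/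
def ClS : Prop := ∀ {R : Type} [CommRing R] [Algebra ℝ R] {D : DR R} {n : ℝ} {α ψ : R}
    (M : Mc D n α ψ) {σ τ Qi ns : R}, M.Ch σ τ Qi ns → ∀ k : ℕ, 2 ≤ k →
  (∀ G, M.Anch G k → (D.d 2)^[k] α ∈ M.Rw G k (-1)) → M.Concl

/-- The calculus of expansions. -/
def ExS : Prop := ∀ {R : Type} [CommRing R] [Algebra ℝ R] {D : DR R} {n : ℝ} {α ψ : R}
    (M : Mc D n α ψ) {σ τ Qi ns : R}, M.Ch σ τ Qi ns →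
  (∀ m p, M.Ex σ α 0 1 m p) ∧
  (∀ v m p j, v ∈ M.RM m p → M.Ex σ v j 0 m p) ∧
  (∀ v v' j c c' m p, M.Ex σ v j c m p → M.Ex σ v' j c' m p → M.Ex σ (v + v') j (c + c') m p) ∧
  (∀ v j c m p, ∀ a ∈ M.A, M.Ex σ v j c m p → M.Ex σ (a * v) j (a * c) m p) ∧
  (∀ v j c m p, M.Ex σ v j c m p → M.Ex σ (D.d 1 v) (j + 1) (-(σ * c)) (m + 1) p ∧
    M.Ex σ (D.d 2 v) (j + 1) c (m + 1) p) ∧
  (∀ v j j' c m p, j < j' → M.Ex σ v j c m p → M.Ex σ v j' 0 m p) ∧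
  (∀ v j c m p m' p', m ≤ m' → p - 2 * (m' - m) ≤ p' → M.Ex σ v j c m p → M.Ex σ v j c m' p') ∧
  (∀ v j c m p, ∀ e ∈ M.A, M.Ex σ v j (c + M.d * e) m p → M.Ex σ v j c m p) ∧
  ∀ v j c m p, M.Ex σ v j c m p → ∀ᶠ r : ℕ in atTop, ∀ l < r,
    (D.d 2)^[l] v ∈ M.Mj σ (r + j - 1).toNat ⊔ M.RM (r + m - 1) p

/-- Inversion of the Laplace operator on expansions. -/
def ExIS : Prop := ∀ {R : Type} [CommRing R] [Algebra ℝ R] {D : DR R} {n : ℝ} {α ψ : R}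
    (M : Mc D n α ψ) {σ τ Qi ns : R}, M.Ch σ τ Qi ns → ∀ v ∈ M.F, ∀ j c m p, 0 ≤ p →
  M.Ex σ (D.lap v) j c m p → M.Ex σ v (j - 2) (ns * c) (m - 2) (p + 1)

/-- Expansions of the time derivatives. -/
def RdS : Prop := ∀ {R : Type} [CommRing R] [Algebra ℝ R] {D : DR R} {n : ℝ} {α ψ : R}
    (M : Mc D n α ψ) {σ τ Qi ns : R}, M.Ch σ τ Qi ns → ∀ k : ℕ,
  M.Ex σ ((D.d 0)^[k + 1] α) (-2) (ns ^ 2 * D.tp ψ σ (k + 1)) (-8) 8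

/-- The cofactor operator of a Hessian for which the curve is characteristic. -/
def LXS : Prop := ∀ {R : Type} [CommRing R] [Algebra ℝ R] {D : DR R} {n : ℝ} {α ψ : R}
    (M : Mc D n α ψ) {σ τ Qi ns : R}, M.Ch σ τ Qi ns → ∀ φ ∈ M.A, ∀ β ∈ M.A, ∀ v c c' : R,
  D.AA φ σ = M.d * β → M.Ex σ v (-2) c (-8) 8 → M.Ex σ (D.LL φ α) (-1) c' (-6) 8 →
  M.Ex σ (D.LL φ v) (-1) (D.lx φ σ c) (-6) 8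

/-- Uniqueness from the third harmonic. -/
def FTS : Prop := ∀ {R : Type} [CommRing R] [Algebra ℝ R] {D : DR R} {n : ℝ} {α ψ : R}
    (M : Mc D n α ψ) {σ τ Qi ns : R}, M.Ch σ τ Qi ns → ∀ β ∈ M.A, ∀ ki ∈ M.A,
  D.AA (D.d 0 ψ) σ = M.d * β →
  (2 * D.lx (D.d 0 ψ) σ (ns ^ 2 * D.tp ψ σ 1) + D.lx ψ σ (ns ^ 2 * D.tp ψ σ 2)) * ki = 1 → M.Concl

/-- Uniqueness from the pencil of operators. -/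
def UES : Prop := ∀ {R : Type} [CommRing R] [Algebra ℝ R] {D : DR R} {n : ℝ} {α ψ : R}
    (M : Mc D n α ψ) {σ τ Qi ns : R}, M.Ch σ τ Qi ns → ∀ j : ℕ, ∀ r ∈ M.A, ∀ ri ∈ M.A,
  ∀ a ∈ M.A, ∀ b ∈ M.A, r * ri = 1 → D.QQ ψ σ * D.AA (D.d 0 ψ) σ = M.d ^ j * r →
  M.d ^ 2 * D.bk (D.d 1 (D.d 2 ψ)) (D.d 2 (D.d 2 ψ)) = M.d ^ j * a →
  M.d * D.bk (D.d 1 (D.d 2 ψ)) (D.d 2 (D.d 2 ψ)) * D.XX σ σ = M.d ^ j * b →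
  (j ≤ 2 ∨ j = 3 ∧ ∃ c ∈ M.A, D.XX σ ψ = M.d * c) → M.Concl

def OfHardy : Prop := HardyS
def OfCarZ : Prop := CarZS
def OfHeatI : Prop := HeatIS
def OfHeat : Prop := HeatIS → HeatS
def OfSy : Prop := SyS
def OfHeatV : Prop := SyS → HeatVS
def OfTH : Prop := HardyS → THS
def OfTC : Prop := CarZS → TCS
def OfRwB : Prop := RwBS
def OfBoot : Prop := BootS
def OfHarR : Prop := SyS → THS → HarRS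
def OfInvR : Prop := HeatS → HeatVS → InvRS
def OfQuad : Prop := QuadS
def OfRec : Prop := RecS
def OfFinR : Prop := RecS → FinRS
def OfMc : Prop := RwBS → BootS → HarRS → InvRS → QuadS → FinRS → McS
def OfUCh : Prop := THS → UChS
def OfUCe : Prop := TCS → UCeS
def OfUNh : Prop := SyS → UChS → UNS (-1)
def OfUNe : Prop := SyS → UCeS → UNS 1
def OfUKh : Prop := SyS → UChS → UKS (-1)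
def OfUKe : Prop := SyS → UCeS → UKS 1
def OfXM : Prop := XMS
def OfXR : Prop := XMS → XRS
def OfRm : Prop := RmS
def OfSt : Prop := StS
def OfBs : Prop := XMS → XRS → RmS → StS → BsS
def OfCl : Prop := BsS → ClS
def OfEx : Prop := XMS → XRS → RmS → ExS
def OfExI : Prop := XMS → XRS → RmS → ExIS
def OfRd : Prop := RmS → StS → BsS → ExS → ExIS → RdS
def OfLX : Prop := XMS → RmS → ExS → LXS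
def OfFT : Prop := XMS → XRS → RmS → ClS → ExS → RdS → LXS → FTS
def OfUE : Prop := XMS → XRS → RmS → StS → BsS → ClS → UES

end Pool.Agent.MP_ed9623_an.S64
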