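import Pool.Agent.MP_ed9623_an.S64.Geo2
import Pool.Agent.MP_ed9623_an.S64.SpecA

/-! Statements: unique continuation across curves and the geometry of the zone. -/

open Filter Topology Set
open scoped ContDiff

namespace Pool.Agent.MP_ed9623_an.S64

open H64

theorem exists_max {Z K : Set PP} {Φ : PP → ℝ} {x : PP} (hZ : IsOpen Z) (hK : IsCompact K)
    (hΦ : ContinuousOn Φ K) (a : x ∈ K) (b : x ∉ Z) :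
    ∃ q ∈ K, q ∉ Z ∧ Φ x ≤ Φ q ∧ ∀ y ∈ K, Φ q < Φ y → y ∈ Z := by
  obtain ⟨q, c, d⟩ := (hK.diff hZ).exists_isMaxOn ⟨x, a, b⟩ (hΦ.mono diff_subset)
  exact ⟨q, c.1, c.2, d ⟨a, b⟩, fun y e f => by_contra fun g => f.not_ge (d ⟨e, g⟩)⟩

theorem Loc.mem {n : ℝ} {α ψ : S3} {O Z : Set PP} {q : PP} (h : Loc n α ψ O Z) (a : q ∈ O)
    (b : ∀ᶠ x in 𝓝 q, x ∈ closure Z) : q ∈ Z :=
  have e := fun j hj => ((continuous_snd.tendsto ((0, q) : ST)).eventually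
    (b.and (h.oO.mem_nhds a))).mono fun _ c => FL_val (h.fl (h.za j hj) c.2 c.1)
  h.max (0, q) a b.self_of_nhds ⟨e 1 (by decide), e 2 (by decide)⟩

theorem Sg.ev {n : ℝ} {ψ : S3} {Z : Set PP} {p : PP} (h : Sg n ψ Z p) :
    ∀ᶠ s in 𝓝 p.1, Sg n ψ Z (s, p.2) := by
  obtain ⟨t, ht⟩ := h.nd
  filter_upwards [((Continuous.prodMk_left p.2).tendsto p.1).eventually (h.crv.ev.and
    ((TI_ev h.tan).and ((TI_ev h.rel).and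
      (((Continuous.prodMk_right t).tendsto p).eventually (ev_ne ht)))))] with s a
  exact ⟨a.1 rfl, a.2.1, ⟨t, a.2.2.2⟩, a.2.2.1⟩

theorem exists_ne {n : ℝ} {f : S3} {z : ST} (h : (DS.ip n f f).1 z ≠ 0) : ∃ t, f.1 (t, z.2) ≠ 0 := by
  by_contra! a
  refine h ?_
  rw [ip_val, a z.1, (hd_time f z.1 z.2).unique
    ((hasDerivAt_const _ _).congr_of_eventuallyEq (Eventually.of_forall a))]
  simp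

/-- The lens above a point of the curve. -/
def LnES : Prop := ∀ (γ : SA ℝ) (z : ST) (W : Set ST), z.2.2 = γ.1 z.2.1 → W ∈ 𝓝 z →
  ∃ (R : Type) (_ : CommRing R) (_ : Algebra ℝ R) (D : DR R) (X : Type) (L : Ln D X)
    (res : S3 →ₐ[ℝ] R), (∀ i f, res (DS.d i f) = D.d i (res f)) ∧ L.A = res.range ∧
    L.d = res (dd γ) ∧ (∀ f : S3, (∀ y ∈ W, f.1 y = 0) → res f = 0) ∧
    (∀ f : S3, (∀ y ∈ W, y.2.2 < γ.1 y.2.1 → f.1 y = 0) → res f ∈ L.F) ∧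
    ∀ (f : S3) (M : ℝ), (∀ x ∈ L.dom M, L.ev x (res f) = 0) →
      ∀ᶠ y in 𝓝 z, γ.1 y.2.1 < y.2.2 → f.1 y = 0

/-- Division by powers of the height. -/
def DivS : Prop := ∀ (γ : SA ℝ) (z : ST) (j : ℕ) (f : S3), z.2.2 = γ.1 z.2.1 →
  (∀ i < j, (DS.d 2)^[i] f ∈ VI γ z) →
  ∃ q : S3, f - dd γ ^ j * q ∈ NI z ∧ (j.factorial : ℝ) * q.1 z = ((DS.d 2)^[j] f).1 z

/-- Non-characteristic curve. -/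
def UNsS : Prop := ∀ (n : ℝ) (ψ : S3) (γ : SA ℝ) (z : ST) (j : ℕ), z.2.2 = γ.1 z.2.1 →
  (DS.AA ψ (gg γ)).1 z ≠ 0 → (∀ i < j, (DS.d 2)^[i] (DS.det ψ) ∈ VI γ z) →
  ((DS.d 2)^[j] (DS.det ψ)).1 z ≠ 0 → UC n ψ γ z

/-- Doubly characteristic curve. -/
def UKsS : Prop := ∀ (n : ℝ) (ψ : S3) (γ : SA ℝ) (z : ST), z.2.2 = γ.1 z.2.1 →
  (DS.d 2 (DS.d 2 ψ)).1 z ≠ 0 → DS.QQ ψ (gg γ) ∈ VI γ z → DS.det ψ ∈ VI γ z →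
  (DS.d 2 (DS.det ψ)).1 z ≠ 0 → UC n ψ γ z

/-- The characteristic slope. -/
def SigS : Prop := ∀ (ψ : S3) (z : ST) (c : ℝ), (DS.BB ψ (1, c) (1, c)).1 z = 0 →
  (DS.BB ψ (1, c) (0, 1)).1 z ≠ 0 → ∃ σ : S3, σ.1 z = c ∧ DS.AA ψ σ ∈ NI z ∧ ∃ g₀ : ℝ, 0 < g₀ ∧
    ∀ᶠ y in 𝓝 z, ∀ c' : ℝ, |c' - c| ≤ g₀ → (DS.BB ψ (1, c') (1, c')).1 y = 0 → c' = σ.1 y

def RtS : Prop := ∀ (ψ : S3) (γ : SA ℝ) (z : ST), z.2.2 = γ.1 z.2.1 → DS.AA ψ (gg γ) ∈ VI γ z →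
  (DS.QQ ψ (gg γ)).1 z ≠ 0 → ∃ σ, Rt ψ γ σ z

/-- The calculus above a point of a characteristic curve. -/
def McES : Prop := ∀ (n : ℝ) (α ψ : S3) (γ : SA ℝ) (U : Set ST) (z : ST) (σ : S3) (W : Set ST),
  Arc n α ψ γ U → z ∈ U → z.2.2 = γ.1 z.2.1 → Rt ψ γ σ z → (DS.QQ ψ σ).1 z ≠ 0 → W ∈ 𝓝 z →
  ∃ (R : Type) (_ : CommRing R) (_ : Algebra ℝ R) (D : DR R) (res : S3 →ₐ[ℝ] R)
    (M : Mc D n (res α) (res ψ)) (τ Qi : R), (∀ i f, res (DS.d i f) = D.d i (res f)) ∧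
    M.A = res.range ∧ M.d = res (dd γ) ∧ (∀ f : S3, (∀ y ∈ W, f.1 y = 0) → res f = 0) ∧
    M.Ch (res σ) τ Qi (res (nsq σ)) ∧ (M.Concl → GZ α z)

/-- Uniqueness from the pencil of operators. -/
def UEgS : Prop := ∀ (n : ℝ) (ψ : S3) (γ : SA ℝ) (z : ST) (σ : S3) (j : ℕ), z.2.2 = γ.1 z.2.1 →
  Rt ψ γ σ z → (DS.QQ ψ σ).1 z ≠ 0 →
  (∀ i < j, (DS.d 2)^[i] (DS.QQ ψ σ * DS.AA (DS.d 0 ψ) σ) ∈ VI γ z) →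
  ((DS.d 2)^[j] (DS.QQ ψ σ * DS.AA (DS.d 0 ψ) σ)).1 z ≠ 0 →
  (j ≤ 1 ∨ DS.XX σ σ ∈ VI γ z ∧ (j = 2 ∨ j = 3 ∧
    DS.bk (DS.d 1 (DS.d 2 ψ)) (DS.d 2 (DS.d 2 ψ)) ∈ VI γ z ∧ DS.XX σ ψ ∈ VI γ z)) → UC n ψ γ z

/-- The symbol of the third harmonic. -/
noncomputable def kk (ψ σ : S3) : S3 := 2 * DS.lx (DS.d 0 ψ) σ (nsq σ ^ 2 * DS.tp ψ σ 1)
  + DS.lx ψ σ (nsq σ ^ 2 * DS.tp ψ σ 2)

def FTgS : Prop := ∀ (n : ℝ) (ψ : S3) (γ : SA ℝ) (z : ST) (σ : S3), z.2.2 = γ.1 z.2.1 →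
  Rt ψ γ σ z → (DS.QQ ψ σ).1 z ≠ 0 → DS.AA (DS.d 0 ψ) σ ∈ VI γ z → (kk ψ σ).1 z ≠ 0 → UC n ψ γ z

def UE1S : Prop := ∀ (n : ℝ) (ψ : S3) (γ : SA ℝ) (z : ST), z.2.2 = γ.1 z.2.1 →
  DS.AA ψ (gg γ) ∈ VI γ z → (DS.QQ ψ (gg γ)).1 z ≠ 0 →
  (DS.bk (DS.QQ ψ (gg γ)) (DS.AA (DS.d 2 ψ) (gg γ))).1 z ≠ 0 → UC n ψ γ z

/-- Normal derivatives of the pencil on a straight line. -/
def JetS : Prop := ∀ (n : ℝ) (α ψ : S3) (c : ℝ) (U : Set ST) (z : ST) (σ h Q l E ρ : S3),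
  Arc n α ψ (cst c) U → z ∈ U → Rt ψ (cst c) σ z → h = DS.d 2 ψ → Q = DS.d 1 h → l = DS.d 1 Q →
  E = DS.d 2 h → ρ = DS.QQ ψ σ * DS.AA (DS.d 0 ψ) σ → Q.1 z ≠ 0 → DS.d 1 ψ ∈ VI (cst c) z →
  DS.bk Q l ∈ VI (cst c) z → ρ ∈ VI (cst c) z ∧ DS.d 2 ρ ∈ VI (cst c) z ∧
    2 * Q ^ 2 * DS.d 2 (DS.d 2 ρ) - l ^ 2 * DS.bk Q E ∈ VI (cst c) z ∧
    (DS.bk Q E ∈ VI (cst c) z → 2 * Q ^ 2 * DS.d 2 (DS.d 2 (DS.d 2 ρ))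
      - l * (4 * Q * DS.ip n Q Q - 3 * l * DS.ip n Q h) ∈ VI (cst c) z)

def UE2S : Prop := ∀ (n : ℝ) (ψ : S3) (c : ℝ) (z : ST) (h Q l E : S3), z.2.2 = c →
  h = DS.d 2 ψ → Q = DS.d 1 h → l = DS.d 1 Q → E = DS.d 2 h → Q.1 z ≠ 0 → l.1 z ≠ 0 →
  DS.d 1 ψ ∈ VI (cst c) z → DS.bk Q l ∈ VI (cst c) z →
  ((DS.bk Q E).1 z ≠ 0 ∨ DS.bk Q E ∈ VI (cst c) z ∧
    (4 * Q * DS.ip n Q Q - 3 * l * DS.ip n Q h).1 z ≠ 0) → UC n ψ (cst c) z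

/-- The symbol of the third harmonic on the curve. -/
def FTjS : Prop := ∀ (ψ : S3) (γ : SA ℝ) (z : ST) (σ g Q P l S : S3), g = gg γ → Q = DS.QQ ψ g →
  P = DS.XX g ψ → l = (1 + g ^ 2) * DS.AA (DS.d 2 ψ) g + 4 * g * gg (D 1 γ) * Q →
  S = 2 * (1 + g ^ 2) * gg (D 1 γ) * DS.d 2 ψ → σ - g ∈ VI γ z → DS.AA ψ g ∈ VI γ z →
  DS.AA (DS.d 0 ψ) σ ∈ VI γ z ∧ (1 + g ^ 2) ^ 3 * kk ψ σ
    - (4 * DS.d 0 (P ^ 2) * DS.d 0 l - 4 * DS.d 0 Q * DS.d 0 (P * S)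
      + 2 * DS.d 0 (DS.d 0 (P ^ 2)) * l - 2 * Q * DS.d 0 (DS.d 0 (P * S))) ∈ VI γ z

def FTsS : Prop := ∀ (n : ℝ) (ψ : S3) (γ : SA ℝ) (z : ST) (β : ℝ) (g Q P R : S3),
  z.2.2 = γ.1 z.2.1 → g = gg γ → Q = DS.QQ ψ g → P = DS.XX g ψ →
  R = β • P - 2 * (1 + g ^ 2) * gg (D 1 γ) * DS.d 2 ψ → DS.AA ψ g ∈ VI γ z → Q.1 z ≠ 0 →
  DS.bk Q (DS.AA (DS.d 2 ψ) g) ∈ VI γ z →
  ((1 + g ^ 2) * DS.AA (DS.d 2 ψ) g + 4 * g * gg (D 1 γ) * Q).1 z = β * Q.1 z →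
  (DS.ip n P P).1 z ≠ 0 → (DS.ip n R R).1 z ≠ 0 → UC n ψ γ z

/-- No unique continuation at a boundary point of the zone. -/
def NoUS : Prop := ∀ (n : ℝ) (α ψ : S3) (O Z : Set PP) (p : PP) (γ : SA ℝ), Loc n α ψ O Z →
  Low Z p γ → p ∈ O → p ∉ Z → ∀ t, ¬ UC n ψ γ (t, p)

/-- Extension by zero and unique continuation for the heat operator. -/
def ExtS : Prop := ∀ (V U : Set PP) (I : Set ℝ) (f g C : S3), IsOpen V → IsOpen U →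
  IsPreconnected U → IsOpen I → (∀ z : ST, z.1 ∈ I → z.2 ∈ U → z.2 ∈ V →
    (DS.ht f ^ 2 + DS.ht g ^ 2).1 z ≤ (C * (f ^ 2 + g ^ 2 + (DS.d 1 f ^ 2 + DS.d 2 f ^ 2)
      + (DS.d 1 g ^ 2 + DS.d 2 g ^ 2))).1 z) →
  (∀ z : ST, z.1 ∈ I → z.2 ∈ U → z.2 ∈ closure V → z.2 ∉ V → ∀ l : List (Fin 3), l.length ≤ 2 →
    (DS.w l f).1 z = 0 ∧ (DS.w l g).1 z = 0) → (∃ x ∈ U, x ∉ closure V) →
  ∀ z : ST, z.1 ∈ I → z.2 ∈ U → z.2 ∈ V → f.1 z = 0 ∧ g.1 z = 0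

/-- The Cauchy data of a second derivative do not vanish. -/
def ZWS : Prop := ∀ (n : ℝ) (α ψ : S3) (O Z : Set PP) (p : PP) (γ : SA ℝ) (e : PP) (t : ℝ),
  Loc n α ψ O Z → Low Z p γ → p ∈ O → e ≠ 0 → DS.BB ψ e e ∈ VI γ (t, p) →
  DS.d 2 (DS.BB ψ e e) ∈ VI γ (t, p) → False

/-- A sum of squares is flat only if its terms are flat. -/
def RadS : Prop := ∀ (z : ST) (f g : S3), f ^ 2 + g ^ 2 ∈ FL z → f ∈ FL z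

/-- The determinant is not flat along a boundary. -/
def FAS : Prop := ∀ (n : ℝ) (α ψ : S3) (O Z V : Set PP) (z : ST) (b : PP), Loc n α ψ O Z →
  IsOpen V → V ⊆ O → V ⊆ Z → z.2 ∈ closure V → (∃ᶠ x in 𝓝 z.2, x ∉ closure V) →
  (DS.BB ψ b b).1 z ≠ 0 → (∀ᶠ y in 𝓝 z, y.2 ∈ closure V → y.2 ∉ V → DS.det ψ ∈ FL y) → False

/-- A smooth boundary is characteristic. -/
def DC1S : Prop := ∀ (n : ℝ) (α ψ : S3) (O Z : Set PP) (p : PP) (γ : SA ℝ), Loc n α ψ O Z →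
  Crv Z p γ → p ∈ O → DS.AA ψ (gg γ) ∈ TI γ p

/-- It is not doubly characteristic. -/
def DC2S : Prop := ∀ (n : ℝ) (α ψ : S3) (O Z : Set PP) (p : PP) (γ : SA ℝ), Loc n α ψ O Z →
  Crv Z p γ → p ∈ O → DS.AA ψ (gg γ) ∈ TI γ p → DS.QQ ψ (gg γ) ∈ TI γ p → False

/-- The first Wronskian vanishes. -/
def W1S : Prop := ∀ (n : ℝ) (α ψ : S3) (O Z : Set PP) (p : PP) (γ : SA ℝ) (t : ℝ), Loc n α ψ O Z →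
  Crv Z p γ → p ∈ O → DS.AA ψ (gg γ) ∈ TI γ p → (DS.QQ ψ (gg γ)).1 (t, p) ≠ 0 →
  DS.bk (DS.QQ ψ (gg γ)) (DS.AA (DS.d 2 ψ) (gg γ)) ∈ TI γ p

/-- A simply characteristic boundary is straight. -/
def HCS : Prop := ∀ (n : ℝ) (α ψ : S3) (O Z : Set PP) (p : PP) (γ : SA ℝ) (t : ℝ), Loc n α ψ O Z →
  Crv Z p γ → p ∈ O → DS.AA ψ (gg γ) ∈ TI γ p → (DS.QQ ψ (gg γ)).1 (t, p) ≠ 0 →
  (D 1 (D 1 γ)).1 p.1 = 0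

/-- The relations on a straight boundary. -/
def HDS : Prop := ∀ (n : ℝ) (α ψ : S3) (O Z : Set PP) (p : PP) (t : ℝ), Loc n α ψ O Z →
  Crv Z p (cst p.2) → p ∈ O → DS.d 1 (DS.d 1 ψ) ∈ TI (cst p.2) p →
  (DS.d 1 (DS.d 2 ψ)).1 (t, p) ≠ 0 → Sg n ψ Z p

/-- A touching curve is characteristic or the determinant vanishes. -/
def TouchS : Prop := ∀ (n : ℝ) (α ψ : S3) (O Z : Set PP) (p : PP) (Φ : SA PP) (c t : ℝ),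
  Loc n α ψ O Z → p ∈ O → Tch Z p Φ → (d2 Φ).1 p < 0 → (d1 Φ).1 p + c * (d2 Φ).1 p = 0 →
  (DS.det ψ).1 (t, p) ≠ 0 → (DS.BB ψ (1, c) (1, c)).1 (t, p) = 0

/-- Integral curves. -/
def OdeS : Prop := ∀ (σ : SA PP) (p : PP), ∃ γ : SA ℝ, p.2 = γ.1 p.1 ∧
  ∀ᶠ s in 𝓝 p.1, deriv γ.1 s = σ.1 (s, γ.1 s)

/-- Sweeping below the integral curve. -/
def SWaS : Prop := ∀ (Z : Set PP) (p : PP) (σ Φ : SA PP) (γ : SA ℝ) (g₀ : ℝ), IsOpen Z →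
  Tch Z p Φ → (d1 Φ).1 p = 0 → (d2 Φ).1 p < 0 → σ.1 p = 0 → 0 < g₀ → NT Z p σ g₀ →
  p.2 = γ.1 p.1 → (∀ᶠ s in 𝓝 p.1, deriv γ.1 s = σ.1 (s, γ.1 s)) → Low Z p γ

/-- Sweeping above the integral curve. -/
def SWbS : Prop := ∀ (Z : Set PP) (p : PP) (σ : SA PP) (γ : SA ℝ) (g₀ : ℝ), IsOpen Z → p ∉ Z →
  σ.1 p = 0 → 0 < g₀ → NT Z p σ g₀ → (∀ᶠ s in 𝓝 p.1, deriv γ.1 s = σ.1 (s, γ.1 s)) →
  Low Z p γ → Crv Z p γ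

/-- A nondegenerate touching point with horizontal tangent. -/
def TP0S : Prop := ∀ (n : ℝ) (α ψ : S3) (O Z : Set PP) (p : PP) (Φ : SA PP) (t : ℝ),
  Loc n α ψ O Z → p ∈ O → Tch Z p Φ → (d1 Φ).1 p = 0 → (d2 Φ).1 p < 0 →
  (DS.det ψ).1 (t, p) ≠ 0 → Sg n ψ Z p

/-- Invariance under rigid motions. -/
def RotLS : Prop := ∀ (n : ℝ) (α ψ : S3) (O Z : Set PP) (p τ : PP), τ.1 ^ 2 + τ.2 ^ 2 = 1 →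
  Loc n α ψ O Z → Loc n (cm p τ α) (cm p τ ψ) (mv p τ ⁻¹' O) (mv p τ ⁻¹' Z)

def RotTS : Prop := ∀ (Z : Set PP) (p : PP) (Φ : SA PP), Tch Z p Φ → ∃ τ : PP,
  τ.1 ^ 2 + τ.2 ^ 2 = 1 ∧ Tch (mv p τ ⁻¹' Z) 0 (cp p τ Φ) ∧ (d1 (cp p τ Φ)).1 0 = 0 ∧
    (d2 (cp p τ Φ)).1 0 < 0

def RotCS : Prop := ∀ (n : ℝ) (Ω Z : Set PP) (f : Fin 3 → ST → ℝ) (p τ : PP),
  τ.1 ^ 2 + τ.2 ^ 2 = 1 → Cor n Ω Z f → ∃ f', Cor n (mv p τ ⁻¹' Ω) (mv p τ ⁻¹' Z) f' ∧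
    ∀ O α ψ, Cht n Ω Z f O α ψ →
      Cht n (mv p τ ⁻¹' Ω) (mv p τ ⁻¹' Z) f' (mv p τ ⁻¹' O) (cm p τ α) (cm p τ ψ)

/-- A nondegenerate touching point. -/
def TPS : Prop := ∀ (n : ℝ) (α ψ : S3) (O Z : Set PP) (p : PP) (Φ : SA PP) (t : ℝ),
  Loc n α ψ O Z → p ∈ O → Tch Z p Φ → (DS.det ψ).1 (t, p) ≠ 0 →
  ∀ s, (DS.d 1 ψ).1 (s, p) * (d2 Φ).1 p - (DS.d 2 ψ).1 (s, p) * (d1 Φ).1 p = 0

/-- Sweeping along level curves. -/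
def Sw2S : Prop := ∀ (Z : Set PP) (Ψ : SA PP) (q : PP), IsOpen Z → 0 < (d2 Ψ).1 q →
  (∀ᶠ x in 𝓝 q, ∀ Φ, Tch Z x Φ → (d1 Ψ).1 x * (d2 Φ).1 x - (d2 Ψ).1 x * (d1 Φ).1 x = 0) →
  (∃ᶠ a in 𝓝 q.1, Ψ.1 (a, q.2) = Ψ.1 q ∧ ∀ᶠ y in 𝓝[<] q.2, (a, y) ∈ Z) →
  ∀ᶠ x in 𝓝 q, Ψ.1 x < Ψ.1 q → x ∈ Z

/-- The end of a straight piece. -/
def StepS : Prop := ∀ (n : ℝ) (α ψ : S3) (O Z : Set PP) (q : PP) (l : Filter ℝ), Loc n α ψ O Z →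
  q ∈ O → (l = 𝓝[<] q.1 ∨ l = 𝓝[>] q.1) →
  (∀ᶠ a in l, Crv Z (a, q.2) (cst q.2) ∧ ∀ t, (DS.d 1 ψ).1 (t, a, q.2) = 0) →
  (∃ t, (DS.d 2 ψ).1 (t, q) ≠ 0) → (∃ t, (DS.d 1 (DS.d 2 ψ)).1 (t, q) ≠ 0) → Sg n ψ Z q

/-- Monotonicity along the line. -/
def LineS : Prop := ∀ (N0 N1 N2 N3 : ℝ → ℝ) (J G : Set ℝ) (s₀ : ℝ), Bornology.IsBounded J →
  s₀ ∈ G → G ⊆ J → IsOpen G → (∀ s, 0 ≤ N0 s) →
  (∀ s ∈ J, HasDerivAt N0 (2 * N1 s) s ∧ HasDerivAt N2 (2 * N3 s) s ∧ ContinuousAt N1 s) →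
  (∀ s ∈ G, 0 < N2 s ∧ 3 * N3 s * N1 s = 4 * N2 s ^ 2) →
  (∀ s ∈ J, (G ∈ 𝓝[<] s ∨ G ∈ 𝓝[>] s) → 0 < N0 s → 0 < N2 s → s ∈ G) →
  (∀ s, s ∉ J → Tendsto N0 (𝓝[G] s) (𝓝 0)) → False

/-- The amplitude of a sinusoid. -/
def QtrS : Prop := ∀ (n : ℝ) (f : S3) (x : PP), 0 < n → (∀ t, (Sn n f).1 (t, x) = 0) →
  (DS.ip n f f).1 (0, x) = n * (f.1 (0, x) ^ 2 + f.1 (Real.pi / (2 * √n), x) ^ 2)

/-- There are no straight pieces. -/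
def ContS : Prop := ∀ (n : ℝ) (Ω Z : Set PP) (f : Fin 3 → ST → ℝ) (O : Set PP) (α ψ : S3) (p : PP),
  Cor n Ω Z f → Cht n Ω Z f O α ψ → p ∈ O → Sg n ψ Z p → False

/-- A regular level curve is a graph. -/
def ChaS : Prop := ∀ (F : SA PP) (q : PP), F.1 q = 0 → ((d1 F).1 q ≠ 0 ∨ (d2 F).1 q ≠ 0) →
  ∃ (τ : PP) (γ : SA ℝ), τ.1 ^ 2 + τ.2 ^ 2 = 1 ∧ γ.1 0 = 0 ∧ ∀ᶠ x in 𝓝 (0 : PP),
    (F.1 (mv q τ x) < 0 ↔ γ.1 x.1 < x.2) ∧ (F.1 (mv q τ x) = 0 ↔ x.2 = γ.1 x.1)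

/-- A boundary contained in a regular curve. -/
def CFS : Prop := ∀ (Z : Set PP) (F : SA PP) (q : PP), IsOpen Z → q ∈ closure Z → q ∉ Z →
  ((d1 F).1 q ≠ 0 ∨ (d2 F).1 q ≠ 0) → (∀ᶠ x in 𝓝 q, x ∈ closure Z → x ∉ Z → F.1 x = 0) →
  (∀ᶠ x in 𝓝 q, x ∈ closure Z) ∨
    ∃ (τ : PP) (γ : SA ℝ), τ.1 ^ 2 + τ.2 ^ 2 = 1 ∧ Crv (mv q τ ⁻¹' Z) 0 γ

/-- A degenerate boundary is not contained in a regular curve. -/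
def NCS : Prop := ∀ (n : ℝ) (α ψ : S3) (O Z : Set PP) (F : SA PP), Loc n α ψ O Z →
  (∀ x ∈ O, x ∈ closure Z → x ∉ Z → F.1 x = 0 ∧ ∀ t, (DS.det ψ).1 (t, x) = 0) →
  ∀ x ∈ O, x ∈ closure Z → x ∉ Z → (d1 F).1 x = 0 ∧ (d2 F).1 x = 0

/-- Touching points are dense in the boundary. -/
def DiscS : Prop := ∀ (Z N : Set PP) (x : PP), IsOpen Z → x ∈ closure Z → x ∉ Z → N ∈ 𝓝 x →
  ∃ p ∈ N, ∃ Φ, Tch Z p Φ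

/-- There is a nondegenerate touching point. -/
def NDS : Prop := ∀ (n : ℝ) (α ψ : S3) (O Z : Set PP) (x : PP), Loc n α ψ O Z → x ∈ O →
  x ∈ closure Z → x ∉ Z → ∃ p ∈ O, ∃ Φ t, Tch Z p Φ ∧ (DS.det ψ).1 (t, p) ≠ 0

/-- The zone is closed in the domain. -/
def CoreS : Prop := ∀ (n : ℝ) (Ω Z : Set PP) (f : Fin 3 → ST → ℝ), Cor n Ω Z f →
  ∀ x ∈ Ω, x ∈ closure Z → x ∈ Z

def OfDiv : Prop := DivS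
def OfUNs : Prop := LnES → DivS → UNS 1 → UNS (-1) → UNsS
def OfUKs : Prop := LnES → DivS → UKS 1 → UKS (-1) → UKsS
def OfSig : Prop := SigS ∧ RtS
def OfMcE : Prop := LnES → DivS → McS → McES
def OfUEg : Prop := McES → DivS → UES → UEgS
def OfFTg : Prop := McES → DivS → FTS → FTgS
def OfUE1 : Prop := RtS → UEgS → UE1S
def OfJet : Prop := JetS
def OfUE2 : Prop := RtS → UEgS → JetS → UE2S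
def OfFTj : Prop := FTjS
def OfFTs : Prop := RtS → FTgS → FTjS → FTsS
def OfNoU : Prop := NoUS
def OfExt : Prop := ExtS
def OfZW : Prop := ExtS → ZWS
def OfRad : Prop := RadS
def OfFA : Prop := ExtS → RadS → FAS
def OfDC1 : Prop := UNsS → NoUS → FAS → DC1S
def OfDC2 : Prop := UKsS → NoUS → ZWS → DC2S
def OfW1 : Prop := UE1S → NoUS → W1S
def OfHC : Prop := FTsS → NoUS → W1S → HCS
def OfHD : Prop := FTsS → UE2S → NoUS → W1S → ZWS → HDS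
def OfTouch : Prop := UNsS → NoUS → TouchS
def OfOde : Prop := OdeS
def OfSWa : Prop := SWaS
def OfSWb : Prop := SWbS
def OfTP0 : Prop := TouchS → SigS → OdeS → SWaS → SWbS → DC1S → HCS → HDS → TP0S
def OfRotL : Prop := RotLS
def OfRotT : Prop := RotTS
def OfRotC : Prop := RotLS → RotCS
def OfTP : Prop := RotLS → RotTS → TP0S → TPS
def OfSw2 : Prop := Sw2S
def OfStep : Prop := TP0S → TPS → Sw2S → StepS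
def OfLine : Prop := LineS
def OfQtr : Prop := QtrS
def OfCont : Prop := LineS → QtrS → StepS → ContS
def OfCha : Prop := ChaS
def OfCF : Prop := ChaS → CFS
def OfNC : Prop := CFS → RotLS → DC1S → DC2S → NCS
def OfDisc : Prop := DiscS
def OfND : Prop := DiscS → NCS → FAS → ExtS → NDS
def OfCore : Prop := NDS → RotTS → RotCS → TP0S → ContS → CoreS

end Pool.Agent.MP_ed9623_an.S64
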