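import Pool.Agent.MP_ed9623_an.S64.Lens

/-! Statements: analysis on the lens. -/

open Filter Topology Set MeasureTheory
open scoped ContDiff

namespace Pool.Agent.MP_ed9623_an.S64

open H64

/-- Temperate functions. -/
def TmS : Prop := ∀ L : Lz, (∃ di ∈ L.Tm, rs L.Λ L.d * di = 1) ∧
  (∃ ui ∈ L.Tm, rs L.Λ L.u * ui = 1) ∧ (∃ sd ∈ L.Tm, sd * sd = rs L.Λ L.d ∧ ∀ x, 0 < sd.1 x) ∧
  ∀ (β : SA ℝ) (b : ℝ), ∃ c ∈ L.Tm, ∀ x, c.1 x = β.1 (b * L.d.1 x / L.u.1 x ^ 2)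

/-- Functions which vanish below the curve are flat. -/
def FlS : Prop := ∀ (L : Lz) (f : S3) (W : Set ST), IsOpen W →
  (∀ z : ST, 0 ≤ L.u.1 z → L.d.1 z = 0 → z ∈ W) → (∀ y ∈ W, y.2.2 < L.γ.1 y.2.1 → f.1 y = 0) →
  rs L.Λ f ∈ L.Ff

/-- Integration by parts. -/
def IdS : Prop := ∀ (L : Lz) (b : ℝ) (i : Fin 3), ∀ f ∈ L.Ff, 2 ≤ b →
  (∀ x : L.Λ, L.u.1 x ^ 2 < 4 * b / 3 * L.d.1 x → f.1 x = 0) →
  ∫ z in L.dom b, ex (L.D.d i f).1 z = 0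

/-- Slow growth of the weighted norms forces vanishing. -/
def VanS : Prop := ∀ (L : Lz) (b M : ℝ), ∀ f ∈ L.F0, 0 ≤ M →
  (∃ᶠ N : ℕ in atTop, ∫ z in L.dom b, ((L.u.1 z ^ 2 / L.d.1 z) ^ N * ex f.1 z) ^ 2 ≤ M ^ N) →
  ∀ x : L.Λ, b * L.d.1 x < L.u.1 x ^ 2 → M < (L.u.1 x ^ 2 / L.d.1 x) ^ 2 → f.1 x = 0

/-- Finite differences. -/
def FdS : Prop := ∀ (k : ℕ) (m : SA ℝ) (h S : ℝ), 0 ≤ h →
  (∀ s ∈ Icc 0 (k * h), |((D 1)^[k] m).1 s| ≤ S) →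
  |∑ i ∈ Finset.range (k + 1), (-1) ^ i * (k.choose i : ℝ) * m.1 (i * h)| ≤ h ^ k * S

/-- Averages of derivatives. -/
def IbpS : Prop := ∀ (l : List (Fin 3)) (η : S3), tsupport η.1 ⊆ Metric.ball 0 1 → ∃ C : ℝ, 0 ≤ C ∧
  ∀ (f : S3) (x : ST) (h : ℝ), 0 < h → (∫ v, (DS.w l f).1 (x + h • v) * η.1 v) ^ 2
    * h ^ (2 * l.length + 3) ≤ C * ∫ y in Metric.ball x h, f.1 y ^ 2

/-- Interpolation at the scale `h`. -/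
def Int3S : Prop := ∀ (l : List (Fin 3)) (k : ℕ), 1 ≤ k → ∃ C : ℝ, 0 ≤ C ∧
  ∀ (f : S3) (x : ST) (h S : ℝ), 0 < h → (∀ l' : List (Fin 3), l'.length = l.length + k →
    ∀ y ∈ Metric.ball x (k * h), |(DS.w l' f).1 y| ≤ S) →
    (DS.w l f).1 x ^ 2 * h ^ (2 * l.length + 3)
      ≤ C * (h ^ (2 * l.length + 3 + 2 * k) * S ^ 2 + ∫ y in Metric.ball x (k * h), f.1 y ^ 2)

/-- Interpolation at the best scale. -/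
def Pb0S : Prop := ∀ l : List (Fin 3), ∃ (K q : ℕ) (C : ℝ), 0 ≤ C ∧ ∀ (f : S3) (x : ST) (r S : ℝ),
  0 < r → r ≤ 1 → (∀ l' : List (Fin 3), l'.length ≤ K → ∀ y ∈ Metric.ball x r,
    |(DS.w l' f).1 y| ≤ S) →
  (DS.w l f).1 x ^ 8 * r ^ q ≤ C * S ^ 2 * (∫ y in Metric.ball x r, f.1 y ^ 2) ^ 3

/-- Pointwise bounds by weighted norms. -/
def PbS : Prop := ∀ (L : Lz) (f : S3) (l : List (Fin 3)) (b : ℝ) (M : ℕ), rs L.Λ f ∈ L.Ff → 2 ≤ b →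
  ∃ (C : ℝ) (q : ℕ), ∀ N : ℕ, 1 ≤ N → ∀ z ∈ L.dom (2 * b),
    (DS.w l f).1 z ^ 8 * (L.u.1 z ^ 2 / L.d.1 z) ^ (6 * N) ≤ C * N ^ q * L.d.1 z ^ M
      * (∫ y in L.dom b, ((L.u.1 y ^ 2 / L.d.1 y) ^ N * f.1 y) ^ 2) ^ 3

/-- The structure of the lens. -/
def LzS : Prop := ∀ L : Lz, ∃ (M : Ln L.DT L.Λ) (res : S3 →ₐ[ℝ] L.Tm), (∀ f, (res f).1 = rs L.Λ f) ∧
  (∀ x f, M.ev x f = f.1.1 x) ∧ M.A = res.range ∧ M.d = res L.d ∧ M.u = res L.u ∧ M.F = L.FF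

def OfTm : Prop := TmS
def OfFl : Prop := FlS
def OfId : Prop := IdS
def OfVan : Prop := VanS
def OfFd : Prop := FdS
def OfIbp : Prop := IbpS
def OfInt3 : Prop := FdS → IbpS → Int3S
def OfPb0 : Prop := Int3S → Pb0S
def OfPb : Prop := Pb0S → PbS
def OfLz : Prop := TmS → IdS → VanS → PbS → LzS
def OfLnE : Prop := FlS → LzS → LnES

end Pool.Agent.MP_ed9623_an.S64
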